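import Pool.Agent.Lib.MP_a7508c_ag.Huf

/-!
# DD0: the divisor of `x_0`
-/

set_option autoImplicit false
set_option linter.unusedSectionVars false

namespace Pool.Agent.Lib.MPa7508c

open MvPolynomial

noncomputable section

namespace Dd0M

open LddM

variable {m : ℕ} {Δ : Dat m} {K : Type} [Field K] [Algebra ℂ K] {x : Fin (m + 2) → K}

/-- the exponent of the monomial `x_1 ^ (M - ∑ w α) ∏ x_(i+2) ^ (w_1 α_i)` -/
def bet (Δ : Dat m) (M : ℕ) (α : Fin m →₀ ℕ) : Option (Fin (m + 2)) →₀ ℕ :=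
  Finsupp.equivFunOnFinite.symm (fun o => o.elim 0 (Fin.cons 0 (Fin.cons
    (M - ∑ i : Fin m, Δ.w i.succ.succ * α i) (fun i => Δ.w 1 * α i))))

theorem bet_none (M : ℕ) (α : Fin m →₀ ℕ) : bet Δ M α none = 0 := rfl

theorem bet_zero (M : ℕ) (α : Fin m →₀ ℕ) : bet Δ M α (some 0) = 0 := rfl

theorem bet_one (M : ℕ) (α : Fin m →₀ ℕ) :
    bet Δ M α (some 1) = M - ∑ i : Fin m, Δ.w i.succ.succ * α i := rfl

theorem bet_succ (M : ℕ) (α : Fin m →₀ ℕ) (i : Fin m) :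
    bet Δ M α (some i.succ.succ) = Δ.w 1 * α i := rfl

theorem bet_inj (M : ℕ) : Function.Injective (bet Δ M) := by
  intro α β h
  ext i
  have := DFunLike.congr_fun h (some i.succ.succ)
  rw [bet_succ, bet_succ] at this
  exact Nat.eq_of_mul_eq_mul_left (Δ.wt.pos 1) this

/-- the polynomial `G` -/
def G (Δ : Dat m) (M : ℕ) (P : MvPolynomial (Fin m) ℂ) : MvPolynomial (Option (Fin (m + 2))) ℂ :=
  ∑ α ∈ P.support, monomial (bet Δ M α) (coeff α P)

theorem coeff_G (M : ℕ) (P : MvPolynomial (Fin m) ℂ) (α : Fin m →₀ ℕ) :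
    coeff (bet Δ M α) (G Δ M P) = coeff α P := by
  classical
  rw [G, coeff_sum]
  simp only [coeff_monomial]
  by_cases hα : α ∈ P.support
  · rw [Finset.sum_eq_single α]
    · rw [if_pos rfl]
    · intro β _ hβ
      rw [if_neg]
      intro h
      exact hβ (bet_inj M h)
    · intro h
      exact absurd hα h
  · rw [Finset.sum_eq_zero, notMem_support_iff.1 hα]
    intro β hβ
    rw [if_neg]
    intro h
    exact hα (bet_inj M h ▸ hβ)

theorem vars_G (M : ℕ) (P : MvPolynomial (Fin m) ℂ) : some 0 ∉ (G Δ M P).vars := by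
  classical
  intro h
  obtain ⟨d, hd, h0⟩ := (mem_vars_iff_mem_support _).1 h
  have : d ∈ P.support.image (bet Δ M) := by
    by_contra hn
    have : coeff d (G Δ M P) = 0 := by
      rw [G, coeff_sum]
      refine Finset.sum_eq_zero fun α hα => ?_
      rw [coeff_monomial, if_neg]
      intro h
      exact hn (Finset.mem_image.2 ⟨α, hα, h⟩)
    exact (mem_support_iff.1 hd) this
  obtain ⟨α, _, rfl⟩ := Finset.mem_image.1 this
  exact (Finsupp.mem_support_iff.1 h0) (bet_zero M α)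

theorem weight_bet {M : ℕ} {α : Fin m →₀ ℕ} (h : ∑ i : Fin m, Δ.w i.succ.succ * α i ≤ M) :
    Finsupp.weight Δ.ww (bet Δ M α) = Δ.w 1 * M := by
  rw [Finsupp.weight_apply, Finsupp.sum_fintype _ _ (by intro i; simp), Fintype.sum_option,
    Fin.sum_univ_succ, Fin.sum_univ_succ]
  have e : (Fin.succ 0 : Fin (m + 2)) = 1 := rfl
  simp only [bet_none, bet_zero, e, bet_one, bet_succ, smul_eq_mul, zero_mul, zero_add]
  have h1 : ∀ i : Fin m, Δ.w 1 * α i * Δ.ww (some i.succ.succ) =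
      Δ.w 1 * (Δ.w i.succ.succ * α i) := by
    intro i
    show Δ.w 1 * α i * Δ.w i.succ.succ = _
    ring
  rw [Finset.sum_congr rfl fun i _ => h1 i, ← Finset.mul_sum]
  show (M - ∑ i : Fin m, Δ.w i.succ.succ * α i) * Δ.w 1 + _ = _
  rw [mul_comm, ← mul_add, Nat.sub_add_cancel h]

theorem homog_G {M : ℕ} {P : MvPolynomial (Fin m) ℂ}
    (h : ∀ α ∈ P.support, ∑ i : Fin m, Δ.w i.succ.succ * α i ≤ M) :
    IsWeightedHomogeneous Δ.ww (G Δ M P) (Δ.w 1 * M) := by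
  refine (weightedHomogeneousSubmodule ℂ Δ.ww (Δ.w 1 * M)).sum_mem fun α hα => ?_
  exact isWeightedHomogeneous_monomial _ _ _ (weight_bet (h α hα))

/-- the elements `u_i = x_(i+2) ^ w_1 / x_1 ^ w_(i+2)` -/
def uu (Δ : Dat m) (x : Fin (m + 2) → K) (i : Fin m) : K :=
  x i.succ.succ ^ Δ.w 1 / x 1 ^ Δ.w i.succ.succ

theorem aeval_G (hx : x 1 ≠ 0) {M : ℕ} {P : MvPolynomial (Fin m) ℂ}
    (h : ∀ α ∈ P.support, ∑ i : Fin m, Δ.w i.succ.succ * α i ≤ M) :
    dhP x (G Δ M P) = aeval (uu Δ x) P * x 1 ^ M := by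
  conv_rhs => rw [P.as_sum, map_sum, Finset.sum_mul]
  rw [G, map_sum]
  refine Finset.sum_congr rfl fun α hα => ?_
  rw [dhP, aeval_monomial, aeval_monomial, Finsupp.prod_fintype _ _ (by intro i; simp),
    Finsupp.prod_fintype _ _ (by intro i; simp), Fintype.prod_option, Fin.prod_univ_succ,
    Fin.prod_univ_succ]
  have e : (Fin.succ 0 : Fin (m + 2)) = 1 := rfl
  simp only [bet_none, bet_zero, e, bet_one, bet_succ, pow_zero, one_mul, Option.elim_some]
  rw [mul_assoc]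
  congr 1
  have h2 : ∀ i : Fin m, uu Δ x i ^ α i =
      x i.succ.succ ^ (Δ.w 1 * α i) * (x 1 ^ (Δ.w i.succ.succ * α i))⁻¹ := by
    intro i
    rw [uu, div_pow, ← pow_mul, ← pow_mul, div_eq_mul_inv]
  rw [Finset.prod_congr rfl fun i _ => h2 i, Finset.prod_mul_distrib, Finset.prod_inv_distrib,
    Finset.prod_pow_eq_pow_sum, mul_assoc, mul_comm (x 1 ^ _)]
  congr 1
  rw [eq_comm, inv_mul_eq_iff_eq_mul₀ (pow_ne_zero _ hx), ← pow_add,
    Nat.add_sub_cancel' (h α hα)]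

theorem not_dvd_pow {p r : Δ.R} (hp : Prime p) (h : ¬ p ∣ r) (n : ℕ) : ¬ p ∣ r ^ n :=
  fun h1 => h (hp.dvd_of_dvd_pow h1)

end Dd0M

open LddM Dd0M

/-- DD0 -/
theorem specDD0 (hRNG : SpecRNG) (hFUN : SpecFUN) (hDIVX : SpecDIVX) : SpecDD0 := by
  intro m Δ hm K _ _ x h F p e hp hd
  have hR := hRNG m Δ hm
  have := hR.dom
  have hF := hFUN m Δ hm K x h
  obtain ⟨hprime, hord⟩ := (hDIVX m Δ hm K x h).2 F p e hp
  have hnx := not_dvd_xx hR hp.prime hd
  have hox : ∀ i, ord F (x i) = - (Δ.w i : ℤ) := by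
    intro i
    have h1 := xx_pow_mem (Δ := Δ) i 1
    rw [pow_one, one_mul] at h1
    have h2 := (hord _ _ h1 (hR.xprime i).ne_zero).2 hd
    rw [dh_xx, mult_eq_zero hR hp.prime (hR.xprime i).ne_zero (hnx i)] at h2
    rw [h2]
    simp
  have hw : ∀ i, (Δ.w i : ℚ) ≠ 0 := fun i => by
    have := Δ.wt.pos i
    positivity
  have hg0 : gam0 Δ x F = 1 := by
    rw [gam0]
    apply le_antisymm
    · refine Finset.sup'_le _ _ fun o _ => ?_
      cases o with
      | none => simp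
      | some i =>
        simp only [Option.elim_some]
        rw [hox i]
        push_cast
        rw [neg_neg, div_self (hw i)]
    · refine le_trans ?_ (Finset.le_sup' _ (Finset.mem_univ (some 0)))
      simp only [Option.elim_some]
      rw [hox 0]
      push_cast
      rw [neg_neg, div_self (hw 0)]
  refine ⟨⟨?_, hprime.1, uu Δ x, ?_, ?_⟩, hg0, fun i => ?_⟩
  · intro c
    refine (hp.mem _).2 ⟨0, algebraMap ℂ Δ.R c, 1, alg_mem c, one_mem, ?_, ?_⟩
    · intro h1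
      exact hp.prime.not_isUnit (isUnit_of_dvd_one h1)
    · rw [map_one, mul_one, AlgHom.commutes]
  · intro i
    refine (hp.mem _).2 ⟨Δ.w 1 * Δ.w i.succ.succ, Δ.xx i.succ.succ ^ Δ.w 1,
      Δ.xx 1 ^ Δ.w i.succ.succ, xx_pow_mem _ _, ?_, not_dvd_pow hp.prime (hnx _) _, ?_⟩
    · have := xx_pow_mem (Δ := Δ) 1 (Δ.w i.succ.succ)
      rwa [mul_comm] at this
    · rw [map_pow, map_pow, dh_xx, dh_xx, uu, div_mul_cancel₀]
      exact pow_ne_zero _ (hF.xne 1)
  · intro P hP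
    obtain ⟨α₀, hα₀⟩ := ne_zero_iff.1 hP
    set M := P.support.sup (fun α => ∑ i : Fin m, Δ.w i.succ.succ * α i) with hM
    have hM' : ∀ α ∈ P.support, ∑ i : Fin m, Δ.w i.succ.succ * α i ≤ M := fun α hα =>
      Finset.le_sup (f := fun α : Fin m →₀ ℕ => ∑ i : Fin m, Δ.w i.succ.succ * α i) hα
    have hG := homog_G (Δ := Δ) hM'
    have hGx : ¬ Δ.x0 ∣ mkF Δ.b (G Δ M P) := by
      refine hR.free 0 _ (vars_G M P) ⟨bet Δ M α₀, bet_none M α₀, ?_⟩
      rw [coeff_G]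
      exact hα₀
    have hGp : ¬ p ∣ mkF Δ.b (G Δ M P) := fun h1 =>
      hGx ((hp.prime.associated_of_dvd hR.x0prime hd).symm.dvd.trans h1)
    have hG0 : mkF Δ.b (G Δ M P) ≠ 0 := fun h1 => hGx (h1 ▸ dvd_zero _)
    have hdG : dhP x (G Δ M P) ≠ 0 := fun h1 => hG0 (hF.inj _ _ (mk_mem hG) (by
      rw [dh_mk]
      exact h1))
    have hae := aeval_G (Δ := Δ) (x := x) (hF.xne 1) hM'
    have hne : aeval (uu Δ x) P ≠ 0 := by
      intro h1
      rw [h1, zero_mul] at hae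
      exact hdG hae
    refine ⟨hne, (hp.mem _).2 ⟨Δ.w 1 * M, Δ.xx 1 ^ M, mkF Δ.b (G Δ M P), ?_, mk_mem hG, hGp, ?_⟩⟩
    · have := xx_pow_mem (Δ := Δ) 1 M
      rwa [mul_comm] at this
    · rw [dh_mk, hae, map_pow, dh_xx, inv_mul_cancel_left₀ hne]
  · rw [gam, hox i, hg0]
    push_cast
    ring

end

end Pool.Agent.Lib.MPa7508c
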