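import Pool.Agent.Lib.MP_a7508c_ag.Statement

/-!
# Definitions for the proof: Fermat rings, the function field, the extended valuations
-/

set_option autoImplicit false

namespace Pool.Agent.Lib.MPa7508c

open MvPolynomial

noncomputable section

/-! ## Fermat rings `ℂ[x_i] / (∑ x_i ^ b_i)` -/

/-- the Fermat polynomial `∑ X_i ^ b_i` -/
def fp (σ : Type) [Fintype σ] (b : σ → ℕ) : MvPolynomial σ ℂ := ∑ i, X i ^ b i

/-- the Fermat ring -/
abbrev FR (σ : Type) [Fintype σ] (b : σ → ℕ) : Type := MvPolynomial σ ℂ ⧸ Ideal.span {fp σ b}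

/-- the class of a polynomial -/
abbrev mkF {σ : Type} [Fintype σ] (b : σ → ℕ) : MvPolynomial σ ℂ →ₐ[ℂ] FR σ b :=
  Ideal.Quotient.mkₐ ℂ (Ideal.span {fp σ b})

/-- the homogeneous elements of degree `d` -/
def hom {σ : Type} [Fintype σ] (b w : σ → ℕ) (d : ℕ) : Submodule ℂ (FR σ b) :=
  (weightedHomogeneousSubmodule ℂ w d).map (mkF b).toLinearMap

/-- the weights are positive and `∑ X_i ^ b_i` is homogeneous of degree `L`; the exponents are at
least `2` -/
structure Wt {σ : Type} (b w : σ → ℕ) (L : ℕ) : Prop where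
  mul : ∀ i, b i * w i = L
  two_le : ∀ i, 2 ≤ b i
  pos : ∀ i, 0 < w i

/-- graded factoriality: every nonzero homogeneous nonunit has a homogeneous prime divisor -/
def GrUFD {σ : Type} [Fintype σ] (b w : σ → ℕ) : Prop :=
  ∀ (d : ℕ) (c : FR σ b), c ∈ hom b w d → c ≠ 0 → ¬ IsUnit c →
    ∃ (e : ℕ) (p : FR σ b), p ∈ hom b w e ∧ Prime p ∧ p ∣ c

/-! ## The data of the hypersurface `X` of dimension `m + 1` -/

/-- exponents `a`, weights `w` of the variables `x_1, ..., x_(m+2)`, the degree `L` and the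
index `q` (`-K_X = 𝒪(q)`) -/
structure Dat (m : ℕ) where
  /-- exponents -/
  a : Fin (m + 2) → ℕ
  /-- weights -/
  w : Fin (m + 2) → ℕ
  /-- degree -/
  L : ℕ
  /-- index -/
  q : ℕ
  wt : Wt a w L
  two_le_L : 2 ≤ L
  hq : q + L = 1 + ∑ i, w i
  hgcd : ∃ e : Fin (m + 2) → ℤ, ∑ i, e i * (w i : ℤ) = 1

namespace Dat

variable {m : ℕ} (Δ : Dat m)

/-- all exponents; `none` is the variable `x_0` of weight `1` -/
def b : Option (Fin (m + 2)) → ℕ := fun o => o.elim Δ.L Δ.a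

/-- all weights -/
def ww : Option (Fin (m + 2)) → ℕ := fun o => o.elim 1 Δ.w

/-- the homogeneous coordinate ring -/
abbrev R : Type := FR (Option (Fin (m + 2))) Δ.b

/-- homogeneous elements of degree `d` of `R` -/
abbrev hm (d : ℕ) : Submodule ℂ Δ.R := hom Δ.b Δ.ww d

/-- the coordinate `x_0` as an element of `R` -/
def x0 : Δ.R := mkF Δ.b (X none)

/-- the coordinate `x_i` as an element of `R` -/
def xx (i : Fin (m + 2)) : Δ.R := mkF Δ.b (X (some i))

/-- the numerical conditions -/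
structure Num : Prop where
  index : m + 2 ≤ Δ.q
  mult : ∀ i j, i ≠ j → Δ.q * Δ.a i * Δ.a j ≤ Δ.L
  age : ∀ j l, j ≠ l → Δ.a j ≤ Δ.a l → ∀ u, 0 < u → u < Nat.gcd (Δ.w j) (Δ.w l) →
    Nat.gcd (Δ.w j) (Δ.w l) < u + ∑ k, (u * Δ.w k) % Nat.gcd (Δ.w j) (Δ.w l) ∧
    ∀ i, i ≠ j → Δ.q * Δ.a j * ((u * Δ.w i) % Nat.gcd (Δ.w j) (Δ.w l)) ≤
      Δ.w i * (u + ∑ k, (u * Δ.w k) % Nat.gcd (Δ.w j) (Δ.w l) - Nat.gcd (Δ.w j) (Δ.w l))

end Dat

/-- the explicit data: `L = 5040`, `q = 13` -/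
def dat0 : Dat 10 where
  a := ![7, 8, 9, 10, 12, 14, 14, 15, 16, 16, 18, 20]
  w := ![720, 630, 560, 504, 420, 360, 360, 336, 315, 315, 280, 252]
  L := 5040
  q := 13
  wt := ⟨by decide, by decide, by decide⟩
  two_le_L := by norm_num
  hq := by decide
  hgcd := ⟨![-1, 0, -1, 0, 0, 0, 0, 1, 3, 0, 0, 0], by decide⟩

/-! ## The function field -/

/-- `K` is the function field of the hypersurface, `x_i` the affine coordinates `x_i / x_0 ^ w_i`. -/
structure IsFun {m : ℕ} (Δ : Dat m) (K : Type) [Field K] [Algebra ℂ K] (x : Fin (m + 2) → K) :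
    Prop where
  eqn : 1 + ∑ i, x i ^ Δ.a i = 0
  ker : ∀ P : MvPolynomial (Fin (m + 2)) ℂ, aeval x P = 0 → (1 + fp (Fin (m + 2)) Δ.a) ∣ P
  gen : ∀ z : K, ∃ P Q : MvPolynomial (Fin (m + 2)) ℂ, aeval x Q ≠ 0 ∧ z * aeval x Q = aeval x P

section

variable {m : ℕ} {Δ : Dat m} {K : Type} [Field K] [Algebra ℂ K] {x : Fin (m + 2) → K}

/-- dehomogenisation of polynomials: `x_0 = 1` -/
def dhP (x : Fin (m + 2) → K) : MvPolynomial (Option (Fin (m + 2))) ℂ →ₐ[ℂ] K :=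
  aeval (fun o => o.elim 1 x)

theorem dhP_fp (h : IsFun Δ K x) : dhP x (fp _ Δ.b) = 0 := by
  have := h.eqn
  simp only [dhP, fp, Fintype.sum_option, map_add, map_pow, map_sum, aeval_X]
  simpa [Dat.b] using this

/-- dehomogenisation of elements of the coordinate ring -/
def dh (h : IsFun Δ K x) : Δ.R →ₐ[ℂ] K :=
  Ideal.Quotient.liftₐ _ (dhP x) (by
    intro r hr
    obtain ⟨s, rfl⟩ := Ideal.mem_span_singleton'.mp hr
    rw [map_mul, dhP_fp h, mul_zero])

@[simp] theorem dh_mk (h : IsFun Δ K x) (P : MvPolynomial (Option (Fin (m + 2))) ℂ) :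
    dh h (mkF Δ.b P) = dhP x P := rfl

/-- `O` is the local ring of the hypersurface at the homogeneous prime ideal `𝔓` (which does not
contain all variables): the homogeneous fractions of degree `0` with denominator outside `𝔓` -/
structure IsLocAt (Δ : Dat m) (x : Fin (m + 2) → K)
    (𝔓 : Ideal (MvPolynomial (Option (Fin (m + 2))) ℂ)) (O : Subring K) : Prop where
  prime : 𝔓.IsPrime
  fp_mem : fp _ Δ.b ∈ 𝔓
  homog : ∀ P ∈ 𝔓, ∀ d, weightedHomogeneousComponent Δ.ww d P ∈ 𝔓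
  irrel : ∃ i, X i ∉ 𝔓
  mem : ∀ z : K, z ∈ O ↔ ∃ (d : ℕ) (P Q : MvPolynomial (Option (Fin (m + 2))) ℂ),
    IsWeightedHomogeneous Δ.ww P d ∧ IsWeightedHomogeneous Δ.ww Q d ∧ Q ∉ 𝔓 ∧
    z * dhP x Q = dhP x P

/-- the local rings of the hypersurface -/
def locs (Δ : Dat m) (x : Fin (m + 2) → K) : Set (Subring K) := {O | ∃ 𝔓, IsLocAt Δ x 𝔓 O}

/-- the valuation ring `F` is the local ring of the prime divisor `p = 0` -/
structure IsDivOf (h : IsFun Δ K x) (F : ValuationSubring K) (p : Δ.R) (e : ℕ) : Prop where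
  hom : p ∈ Δ.hm e
  prime : Prime p
  mem : ∀ z : K, z ∈ F ↔ ∃ (d : ℕ) (r s : Δ.R), r ∈ Δ.hm d ∧ s ∈ Δ.hm d ∧ ¬ p ∣ s ∧
    z * dh h s = dh h r

/-- the multiplicity of the prime factor `p` in `r` -/
def mult {A : Type} [CommSemiring A] (p r : A) : ℕ := (emultiplicity p r).toNat

/-- the divisor `D` is the divisor of the homogeneous fraction `r / s`, `deg r = d`, `deg s = e` -/
structure IsRep (h : IsFun Δ K x) (D : ValuationSubring K → ℤ) (d e : ℕ) (r s : Δ.R) :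
    Prop where
  hr : r ∈ Δ.hm d
  hs : s ∈ Δ.hm e
  r0 : r ≠ 0
  s0 : s ≠ 0
  eq : ∀ (F : ValuationSubring K) (p : Δ.R) (k : ℕ), IsDivOf h F p k →
    D F = (mult p r : ℤ) - mult p s

/-- `γ_0 = max (0, max_i (-ord_v(x_i) / w_i))` -/
def gam0 (Δ : Dat m) (x : Fin (m + 2) → K) (v : ValuationSubring K) : ℚ :=
  (Finset.univ : Finset (Option (Fin (m + 2)))).sup' ⟨none, Finset.mem_univ _⟩
    (fun o => o.elim 0 (fun i => -(ord v (x i) : ℚ) / Δ.w i))

/-- `γ_i = ord_v(x_i) + w_i γ_0` -/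
def gam (Δ : Dat m) (x : Fin (m + 2) → K) (v : ValuationSubring K) (i : Fin (m + 2)) : ℚ :=
  ord v (x i) + Δ.w i * gam0 Δ x v

/-- `|γ|`, the sum of all `γ_i`, `i = 0` included -/
def gsum (Δ : Dat m) (x : Fin (m + 2) → K) (v : ValuationSubring K) : ℚ :=
  gam0 Δ x v + ∑ i, gam Δ x v i

/-- the extended valuation of an element `z` of `K`, regarded as homogeneous of degree `d` -/
def hv (Δ : Dat m) (x : Fin (m + 2) → K) (v : ValuationSubring K) (d : ℕ) (z : K) : ℚ :=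
  ord v z + d * gam0 Δ x v

/-- all affine coordinates but `x_j` -/
def but (x : Fin (m + 2) → K) (j : Fin (m + 2)) : Fin (m + 1) → K := fun k => x (j.succAbove k)

/-- the form `ω = dx_2 ∧ ... ∧ dx_(m+2) / (a_1 x_1 ^ (a_1 - 1))`, the residue form -/
def omega (Δ : Dat m) (x : Fin (m + 2) → K) : TopForm K (m + 1) :=
  ((Δ.a 0 : K) * x 0 ^ (Δ.a 0 - 1))⁻¹ • dform (but x 0)

/-- the log discrepancy `A = 1 + ord_v(ω) + q γ_0` -/
def LD (Δ : Dat m) (x : Fin (m + 2) → K) (v : ValuationSubring K) : ℚ :=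
  1 + ordForm v (omega Δ x) + Δ.q * gam0 Δ x v

end

end

end Pool.Agent.Lib.MPa7508c
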