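import Pool.Agent.Lib.MP_a7508c_ag.Spec

/-!
# Statements of the modules, stage 2: the function field (group K), divisors on the hypersurface
(group D), the scheme (group P)
-/

set_option autoImplicit false

namespace Pool.Agent.Lib.MPa7508c

open MvPolynomial

noncomputable section

/-! ## Group K: the function field, the extended valuations, the key inequality -/

/-- ring theoretic facts on the coordinate ring -/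
structure RingLaws {m : ℕ} (Δ : Dat m) : Prop where
  dom : IsDomain Δ.R
  x0prime : Prime Δ.x0
  xprime : ∀ i, Prime (Δ.xx i)
  x0x : ∀ i, ¬ Δ.x0 ∣ Δ.xx i
  xx0 : ∀ i, ¬ Δ.xx i ∣ Δ.x0
  xx : ∀ i j, i ≠ j → ¬ Δ.xx i ∣ Δ.xx j
  free : ∀ (j : Fin (m + 2)) (P : MvPolynomial (Option (Fin (m + 2))) ℂ), some j ∉ P.vars →
    (∃ α : Option (Fin (m + 2)) →₀ ℕ, α none = 0 ∧ coeff α P ≠ 0) → ¬ Δ.x0 ∣ mkF Δ.b P
  mult_mul : ∀ p r s : Δ.R, Prime p → r ≠ 0 → s ≠ 0 → mult p (r * s) = mult p r + mult p s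
  mult_le : ∀ (p r : Δ.R) (k : ℕ), Prime p → r ≠ 0 → (k ≤ mult p r ↔ p ^ k ∣ r)

/-- RNG (from IRR). -/
def SpecRNG : Prop := ∀ (m : ℕ) (Δ : Dat m), 1 ≤ m → RingLaws Δ

/-- basic facts on the function field -/
structure FunLaws {m : ℕ} {Δ : Dat m} {K : Type} [Field K] [Algebra ℂ K] {x : Fin (m + 2) → K}
    (h : IsFun Δ K x) : Prop where
  inj : ∀ d, ∀ r ∈ Δ.hm d, dh h r = 0 → r = 0
  frac : ∀ z : K, ∃ (d : ℕ) (r s : Δ.R), r ∈ Δ.hm d ∧ s ∈ Δ.hm d ∧ s ≠ 0 ∧ z * dh h s = dh h r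
  xne : ∀ i, x i ≠ 0
  trdeg : Algebra.trdeg ℂ K = m + 1
  fg : ∃ s : Finset K, IntermediateField.adjoin ℂ (s : Set K) = ⊤

/-- FUN (from RNG, GR). -/
def SpecFUN : Prop := ∀ (m : ℕ) (Δ : Dat m), 1 ≤ m → ∀ (K : Type) [Field K] [Algebra ℂ K]
  (x : Fin (m + 2) → K) (h : IsFun Δ K x), FunLaws h

/-- HUF. Divisibility of homogeneous elements of a graded factorial Fermat ring. -/
def SpecHUF : Prop := ∀ (σ : Type) [Fintype σ] (b w : σ → ℕ) (L : ℕ), Wt b w L →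
  1 ≤ Fintype.card σ → IsDomain (FR σ b) → GrUFD b w → ∀ (d e : ℕ) (A B : FR σ b),
  A ∈ hom b w d → B ∈ hom b w e → A ≠ 0 → B ≠ 0 →
  (∀ (k : ℕ) (p : FR σ b), p ∈ hom b w k → Prime p → mult p B ≤ mult p A) → B ∣ A

/-- DER. The derivations dual to the affine coordinates other than `x_j`. -/
def SpecDER : Prop := ∀ (m : ℕ) (Δ : Dat m), 1 ≤ m → ∀ (K : Type) [Field K] [Algebra ℂ K]
  (x : Fin (m + 2) → K), IsFun Δ K x → omega Δ x ≠ 0 ∧ ∀ j : Fin (m + 2),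
    (∃ δ : Fin (m + 1) → Derivation ℂ K K,
      (∀ i k, δ i (but x j k) = if i = k then 1 else 0) ∧
      ∀ (i : Fin (m + 1)) (P : MvPolynomial (Option (Fin (m + 2))) ℂ), some j ∉ P.vars →
        δ i (dhP x P) = dhP x (pderiv (some (j.succAbove i)) P)) ∧
    ∃ s : K, (s = 1 ∨ s = -1) ∧
      dform (but x j) = (s * (Δ.a j * x j ^ (Δ.a j - 1))) • omega Δ x

/-- the laws of the extended valuation -/
structure HvLaws {m : ℕ} {Δ : Dat m} {K : Type} [Field K] [Algebra ℂ K] {x : Fin (m + 2) → K}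
    (h : IsFun Δ K x) (v : ValuationSubring K) : Prop where
  gam0_nonneg : 0 ≤ gam0 Δ x v
  gam_nonneg : ∀ i, 0 ≤ gam Δ x v i
  two : ∃ j, gam Δ x v j = 0 ∧ (gam0 Δ x v = 0 ∨ ∃ l, l ≠ j ∧ gam Δ x v l = 0)
  nonneg : ∀ (d : ℕ) (r : Δ.R), r ∈ Δ.hm d → r ≠ 0 → 0 ≤ hv Δ x v d (dh h r)
  center : ∃ 𝔓 O, IsLocAt Δ x 𝔓 O ∧ IsCenter (locs Δ x) v O
  uniq : ∀ 𝔓 O, IsLocAt Δ x 𝔓 O → IsCenter (locs Δ x) v O →
    ∀ (d : ℕ) (P : MvPolynomial (Option (Fin (m + 2))) ℂ), IsWeightedHomogeneous Δ.ww P d →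
      (P ∈ 𝔓 ↔ dhP x P = 0 ∨ 0 < hv Δ x v d (dhP x P))

/-- VH (from ORD, FUN). -/
def SpecVH : Prop := ∀ (m : ℕ) (Δ : Dat m), 1 ≤ m → ∀ (K : Type) [Field K] [Algebra ℂ K]
  (x : Fin (m + 2) → K) (h : IsFun Δ K x) (v : ValuationSubring K), IsDivisorial m v → HvLaws h v

/-- NRM (from RNG). A multiple of `P` is a polynomial in the variables other than `x_j`. -/
def SpecNRM : Prop := ∀ (m : ℕ) (Δ : Dat m), 1 ≤ m → ∀ (j : Fin (m + 2)) (d : ℕ)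
  (P : MvPolynomial (Option (Fin (m + 2))) ℂ), IsWeightedHomogeneous Δ.ww P d →
  ¬ Δ.x0 ∣ mkF Δ.b P → ∃ H Q : MvPolynomial (Option (Fin (m + 2))) ℂ,
    IsWeightedHomogeneous Δ.ww H (Δ.a j * d) ∧ IsWeightedHomogeneous Δ.ww Q ((Δ.a j - 1) * d) ∧
    some j ∉ H.vars ∧ mkF Δ.b H = mkF Δ.b P * mkF Δ.b Q ∧ mkF Δ.b H ≠ 0 ∧
    ∃ α : Option (Fin (m + 2)) →₀ ℕ, α none = 0 ∧ coeff α H ≠ 0

/-- DESC. Repeated differentiation of a polynomial `H` with a monomial `α` of top degree. -/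
def SpecDESC : Prop := ∀ (m : ℕ) (Δ : Dat m) (K : Type) [Field K] [Algebra ℂ K]
  (x : Fin (m + 2) → K) (v : ValuationSubring K), IsDiscreteValuationRing v →
  (∀ a : ℂ, algebraMap ℂ K a ∈ v) → ∀ (j : Fin (m + 2)) (δ : Fin (m + 1) → Derivation ℂ K K)
  (c : Fin (m + 2) → ℚ),
  (∀ (i : Fin (m + 1)) (P : MvPolynomial (Option (Fin (m + 2))) ℂ), some j ∉ P.vars →
    δ i (dhP x P) = dhP x (pderiv (some (j.succAbove i)) P)) →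
  (∀ (i : Fin (m + 1)) (z : K), δ i z ≠ 0 →
    (ord v z : ℚ) - c (j.succAbove i) ≤ (ord v (δ i z) : ℚ)) →
  ∀ (d : ℕ) (H : MvPolynomial (Option (Fin (m + 2))) ℂ) (α : Option (Fin (m + 2)) →₀ ℕ),
    IsWeightedHomogeneous Δ.ww H d → some j ∉ H.vars → α none = 0 → coeff α H ≠ 0 →
    (ord v (dhP x H) : ℚ) ≤ ∑ i, (α (some i) : ℚ) * c i

/-- COST (from ORD, LOGD, LOGJ, FUN, DER, VH). The derivations dual to the coordinates, in a chart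
`x_j ≠ 0` containing the centre of `v`. -/
def SpecCOST : Prop := ∀ (m : ℕ) (Δ : Dat m), 1 ≤ m → ∀ (K : Type) [Field K] [Algebra ℂ K]
  (x : Fin (m + 2) → K), IsFun Δ K x → ∀ v : ValuationSubring K, IsDivisorial m v →
  ∀ j, gam Δ x v j = 0 → gsum Δ x v ≤ LD Δ x v ∧ ∀ δ : Fin (m + 1) → Derivation ℂ K K,
    (∀ i k, δ i (but x j k) = if i = k then 1 else 0) → ∀ (i : Fin (m + 1)) (z : K), δ i z ≠ 0 →
    (ord v z : ℚ) - (ord v (x (j.succAbove i)) + (LD Δ x v - gsum Δ x v)) ≤ (ord v (δ i z) : ℚ)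

/-- EXC. In an affine chart containing the centre of the exceptional `v`, where `x_j ≠ 0`, the
residues of the coordinates other than `x_j` and `x_i` are algebraically dependent. -/
def SpecEXC : Prop := ∀ (m : ℕ) (Δ : Dat m), 1 ≤ m → ∀ (K : Type) [Field K] [Algebra ℂ K]
  (x : Fin (m + 2) → K), IsFun Δ K x → ∀ v : ValuationSubring K, IsDivisorial m v →
  v.toSubring ∉ locs Δ x → gam0 Δ x v = 0 → ∀ j, gam Δ x v j = 0 → ∀ i : Fin (m + 1),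
    ∃ P : MvPolynomial (Fin (m + 1)) ℂ, P ≠ 0 ∧ i ∉ P.vars ∧
      ¬ (aeval (but x j) P ≠ 0 ∧ (aeval (but x j) P)⁻¹ ∈ v)

/-- COST0 (from ORD, LOGD, RESD, OFORM, FUN, DER, VH, EXC). -/
def SpecCOST0 : Prop := ∀ (m : ℕ) (Δ : Dat m), 1 ≤ m → ∀ (K : Type) [Field K] [Algebra ℂ K]
  (x : Fin (m + 2) → K), IsFun Δ K x → ∀ v : ValuationSubring K, IsDivisorial m v →
  v.toSubring ∉ locs Δ x → gam0 Δ x v = 0 → ∀ j, gam Δ x v j = 0 → 1 ≤ LD Δ x v ∧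
    ∀ δ : Fin (m + 1) → Derivation ℂ K K,
    (∀ i k, δ i (but x j k) = if i = k then 1 else 0) → ∀ (i : Fin (m + 1)) (z : K), δ i z ≠ 0 →
    (ord v z : ℚ) - (LD Δ x v - 1) ≤ (ord v (δ i z) : ℚ)

/-- AGE. The numerical part. -/
def SpecAGE : Prop := ∀ (m : ℕ) (Δ : Dat m), Δ.Num → ∀ (θ e : ℚ) (n : Fin (m + 2) → ℤ)
  (g : Fin (m + 2) → ℚ), 0 < θ → 0 ≤ e → (∀ i, g i = n i + Δ.w i * θ) → (∀ i, 0 ≤ g i) →
  ∀ j l, j ≠ l → Δ.a j ≤ Δ.a l → g j = 0 → g l = 0 →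
    (1 < θ + ∑ i, g i ∨ (θ = 1 ∧ ∀ i, g i = 0)) ∧
    ∀ i, i ≠ j → (Δ.q : ℚ) * Δ.a j * (e + g i) ≤ Δ.w i * (e + (θ + ∑ k, g k) - 1)

/-- D0 (from ORD, FUN, DER, VH, NRM, DESC, COST). The only divisor with `γ = (1, 0, ..., 0)` and
log discrepancy `1` is the divisor of `x_0`. -/
def SpecD0 : Prop := ∀ (m : ℕ) (Δ : Dat m), 1 ≤ m → ∀ (K : Type) [Field K] [Algebra ℂ K]
  (x : Fin (m + 2) → K), IsFun Δ K x → ∀ v : ValuationSubring K, IsDivisorial m v →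
  gam0 Δ x v = 1 → (∀ i, gam Δ x v i = 0) → LD Δ x v = 1 → v.toSubring ∈ locs Δ x

/-- KEY (from the previous ones). The key inequality. -/
def SpecKEY : Prop := ∀ (m : ℕ) (Δ : Dat m), 1 ≤ m → Δ.Num → ∀ (K : Type) [Field K] [Algebra ℂ K]
  (x : Fin (m + 2) → K) (h : IsFun Δ K x) (v : ValuationSubring K), IsDivisorial m v →
  v.toSubring ∉ locs Δ x → 1 < LD Δ x v ∧ ∀ (d : ℕ) (r : Δ.R), r ∈ Δ.hm d → ¬ Δ.x0 ∣ r →
    (Δ.q : ℚ) * hv Δ x v d (dh h r) ≤ d * (LD Δ x v - 1)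

/-! ## Group D: divisors on the hypersurface -/

/-- DIVX (from ORD, GR, RNG, FUN). The prime divisor of a homogeneous prime element. -/
def SpecDIVX : Prop := ∀ (m : ℕ) (Δ : Dat m), 1 ≤ m → ∀ (K : Type) [Field K] [Algebra ℂ K]
  (x : Fin (m + 2) → K) (h : IsFun Δ K x),
  (∀ (p : Δ.R) (e : ℕ), p ∈ Δ.hm e → Prime p → ∃ F : ValuationSubring K, IsDivOf h F p e) ∧
  ∀ (F : ValuationSubring K) (p : Δ.R) (e : ℕ), IsDivOf h F p e →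
    IsPrimeDiv (locs Δ x) F ∧ ∀ (d : ℕ) (r : Δ.R), r ∈ Δ.hm d → r ≠ 0 →
      (¬ p ∣ Δ.x0 → ord F (dh h r) = mult p r) ∧ (p ∣ Δ.x0 → ord F (dh h r) = (mult p r : ℤ) - d)

/-- DIVO (from ORD, FUN, DIVX). All prime divisors are of this form. -/
def SpecDIVO : Prop := ∀ (m : ℕ) (Δ : Dat m), 1 ≤ m → GrUFD Δ.b Δ.ww → ∀ (K : Type) [Field K]
  [Algebra ℂ K] (x : Fin (m + 2) → K) (h : IsFun Δ K x) (F : ValuationSubring K),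
  IsPrimeDiv (locs Δ x) F → ∃ (p : Δ.R) (e : ℕ), IsDivOf h F p e

/-- THR (from RNG, FUN, DIVX). The prime divisors through a point; uniqueness. -/
def SpecTHR : Prop := ∀ (m : ℕ) (Δ : Dat m), 1 ≤ m → ∀ (K : Type) [Field K] [Algebra ℂ K]
  (x : Fin (m + 2) → K) (h : IsFun Δ K x) (F : ValuationSubring K) (p : Δ.R) (e : ℕ),
  IsDivOf h F p e →
  (∀ 𝔓 O, IsLocAt Δ x 𝔓 O → ∀ P, mkF Δ.b P = p → (O ≤ F.toSubring ↔ P ∈ 𝔓)) ∧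
  (∀ F' p' e', IsDivOf h F' p' e' → (p ∣ p' ↔ F = F'))

/-- DIVD (from GR, RNG, DIVX, DIVO, THR). Weil divisors are divisors of homogeneous fractions. -/
def SpecDIVD : Prop := ∀ (m : ℕ) (Δ : Dat m), 1 ≤ m → GrUFD Δ.b Δ.ww → ∀ (K : Type) [Field K]
  [Algebra ℂ K] (x : Fin (m + 2) → K) (h : IsFun Δ K x) (D : ValuationSubring K → ℤ),
  IsWeil (locs Δ x) D → ∃ d e r s, IsRep h D d e r s

/-- SEC (from HUF, RNG, FUN, DIVX, DIVO). Sections of `𝒪(D)`. -/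
def SpecSEC : Prop := ∀ (m : ℕ) (Δ : Dat m), 1 ≤ m → GrUFD Δ.b Δ.ww → ∀ (K : Type) [Field K]
  [Algebra ℂ K] (x : Fin (m + 2) → K) (h : IsFun Δ K x) (D : ValuationSubring K → ℤ)
  (d e : ℕ) (r s : Δ.R), IsRep h D d e r s → ∀ z : K, IsSec (locs Δ x) D z ↔
    ∃ (k : ℕ) (g : Δ.R), k + e = d ∧ g ∈ Δ.hm k ∧ g ≠ 0 ∧ z * dh h r = dh h g * dh h s

/-- LEQ (from GR, RNG, FUN, DIVX, DIVO, THR). The local equation of a Weil divisor at a point of the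
chart `x_k ≠ 0`. -/
def SpecLEQ : Prop := ∀ (m : ℕ) (Δ : Dat m), 1 ≤ m → GrUFD Δ.b Δ.ww → ∀ (K : Type) [Field K]
  [Algebra ℂ K] (x : Fin (m + 2) → K) (h : IsFun Δ K x) (D : ValuationSubring K → ℤ)
  (d e : ℕ) (r s : Δ.R), IsRep h D d e r s → ∀ 𝔓 O, IsLocAt Δ x 𝔓 O → ∀ k, X k ∉ 𝔓 →
    IsLocEq (locs Δ x) D O (Δ.ww k)
      ((dh h r / dh h s) ^ Δ.ww k * dhP x (X k) ^ ((e : ℤ) - d))

/-- PULL (from ORD, HUF, FUN, VH, DIVX, DIVO, THR, LEQ). Pull back of Weil divisors. -/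
def SpecPULL : Prop := ∀ (m : ℕ) (Δ : Dat m), 1 ≤ m → GrUFD Δ.b Δ.ww → ∀ (K : Type) [Field K]
  [Algebra ℂ K] (x : Fin (m + 2) → K) (h : IsFun Δ K x) (D : ValuationSubring K → ℤ)
  (d e : ℕ) (r s : Δ.R), IsRep h D d e r s → ∀ v : ValuationSubring K, IsDivisorial m v →
    ∀ c : ℚ, HasPull (locs Δ x) D v c ↔ c = hv Δ x v d (dh h r) - hv Δ x v e (dh h s)

/-- DD0 (from ORD, RNG, FUN, DIVX). The divisor of `x_0`. -/
def SpecDD0 : Prop := ∀ (m : ℕ) (Δ : Dat m), 1 ≤ m → ∀ (K : Type) [Field K] [Algebra ℂ K]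
  (x : Fin (m + 2) → K) (h : IsFun Δ K x) (F : ValuationSubring K) (p : Δ.R) (e : ℕ),
  IsDivOf h F p e → p ∣ Δ.x0 →
    IsDivisorial m F ∧ gam0 Δ x F = 1 ∧ ∀ i, gam Δ x F i = 0

/-- OMF (from ORD, RNG, FUN, DER, DIVX). The form `ω` has no zeros and no poles in the chart
`x_0 ≠ 0`. -/
def SpecOMF : Prop := ∀ (m : ℕ) (Δ : Dat m), 1 ≤ m → ∀ (K : Type) [Field K] [Algebra ℂ K]
  (x : Fin (m + 2) → K) (h : IsFun Δ K x) (F : ValuationSubring K) (p : Δ.R) (e : ℕ),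
  IsDivOf h F p e → ¬ p ∣ Δ.x0 → ordForm F (omega Δ x) = 0

/-- OMD (from ORD, RNG, FUN, DER, COST, DIVX, DD0). The order of `ω` along `x_0 = 0`. -/
def SpecOMD : Prop := ∀ (m : ℕ) (Δ : Dat m), 1 ≤ m → ∀ (K : Type) [Field K] [Algebra ℂ K]
  (x : Fin (m + 2) → K) (h : IsFun Δ K x) (F : ValuationSubring K) (p : Δ.R) (e : ℕ),
  IsDivOf h F p e → p ∣ Δ.x0 → ordForm F (omega Δ x) = - (Δ.q : ℤ)

/-- LDD (from RNG, DIVX, OMF, OMD, PULL, VH). The canonical divisor and the log discrepancy. -/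
def SpecLDD : Prop := ∀ (m : ℕ) (Δ : Dat m), 1 ≤ m → GrUFD Δ.b Δ.ww → ∀ (K : Type) [Field K]
  [Algebra ℂ K] (x : Fin (m + 2) → K) (h : IsFun Δ K x),
  IsRep h (canDiv (omega Δ x)) 0 Δ.q 1 (Δ.x0 ^ Δ.q) ∧
  ∀ v : ValuationSubring K, IsDivisorial m v → ∀ A : ℚ,
    HasLogDisc (locs Δ x) (omega Δ x) v A ↔ A = LD Δ x v

/-- WQC (from DIVX, DIVO, THR, DIVD, LEQ, LDD). -/
def SpecWQC : Prop := ∀ (m : ℕ) (Δ : Dat m), 1 ≤ m → GrUFD Δ.b Δ.ww → Δ.Num → ∀ (K : Type)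
  [Field K] [Algebra ℂ K] (x : Fin (m + 2) → K), IsFun Δ K x →
  IsWeil (locs Δ x) (canDiv (omega Δ x)) ∧ IsQFactorial (locs Δ x) ∧
    IsClRankOne (locs Δ x) (omega Δ x)

/-- TER (from KEY, LDD). -/
def SpecTER : Prop := ∀ (m : ℕ) (Δ : Dat m), 1 ≤ m → GrUFD Δ.b Δ.ww → Δ.Num → ∀ (K : Type)
  [Field K] [Algebra ℂ K] (x : Fin (m + 2) → K), IsFun Δ K x →
  IsTerminal (locs Δ x) m (omega Δ x)

/-- SUP (from HUF, FUN, VH, DIVX, DIVO, DIVD, SEC, PULL, LDD, KEY). -/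
def SpecSUP : Prop := ∀ (m : ℕ) (Δ : Dat m), 1 ≤ m → GrUFD Δ.b Δ.ww → Δ.Num → ∀ (K : Type)
  [Field K] [Algebra ℂ K] (x : Fin (m + 2) → K), IsFun Δ K x →
  IsSuperrigid (locs Δ x) m (omega Δ x)

/-- HIL (from GR, RNG). The Hilbert function of the coordinate ring. -/
def SpecHIL : Prop := ∀ (m : ℕ) (Δ : Dat m), 1 ≤ m → ∃ c₁ c₂ : ℝ, 0 < c₁ ∧ ∀ k : ℕ, 1 ≤ k →
  c₁ * (k : ℝ) ^ (m + 1) ≤ (Module.finrank ℂ (Δ.hm k) : ℝ) ∧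
  (Module.finrank ℂ (Δ.hm k) : ℝ) ≤ c₂ * (k : ℝ) ^ (m + 1) ∧
  Module.finrank ℂ (Δ.hm k) ≤ Module.finrank ℂ (Δ.hm (k + 1))

/-- LIM. The volume function of a monotone function of polynomial growth. -/
def SpecLIM : Prop := ∀ (n q : ℕ) (f : ℕ → ℕ) (c₁ c₂ : ℝ), 0 < n → 0 < q → 0 < c₁ →
  (∀ k : ℕ, 1 ≤ k →
    c₁ * (k : ℝ) ^ n ≤ (f k : ℝ) ∧ (f k : ℝ) ≤ c₂ * (k : ℝ) ^ n ∧ f k ≤ f (k + 1)) →
  ∀ V : ℝ → ℝ, (∀ t : ℝ, V t = Filter.limsup (fun k : ℕ =>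
      ((if ⌈(k : ℝ) * t⌉₊ ≤ q * k then f (q * k - ⌈(k : ℝ) * t⌉₊) else 0 : ℕ) : ℝ) /
        ((k : ℝ) ^ n / (n.factorial : ℝ))) Filter.atTop) →
    0 < V 0 ∧ ∫ t in Set.Ioi (0 : ℝ), V t = V 0 * (q / (n + 1))

/-- SDIM (from RNG, FUN, DIVX, DIVO, SEC, LDD, DD0). The spaces of sections vanishing along
`x_0 = 0`. -/
def SpecSDIM : Prop := ∀ (m : ℕ) (Δ : Dat m), 1 ≤ m → GrUFD Δ.b Δ.ww → ∀ (K : Type) [Field K]
  [Algebra ℂ K] (x : Fin (m + 2) → K) (h : IsFun Δ K x) (F : ValuationSubring K) (p : Δ.R) (e : ℕ),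
  IsDivOf h F p e → p ∣ Δ.x0 → ∀ (t : ℝ) (k : ℕ),
    secDim (locs Δ x) (fun F => - canDiv (omega Δ x) F) F Δ.q t k =
      if ⌈(k : ℝ) * t⌉₊ ≤ Δ.q * k then
        Module.finrank ℂ (Δ.hm (Δ.q * k - ⌈(k : ℝ) * t⌉₊)) else 0

/-- KUN (from HIL, LIM, SDIM, RNG, FUN, DIVX, DD0, OMD, PULL, LDD). -/
def SpecKUN : Prop := ∀ (m : ℕ) (Δ : Dat m), 1 ≤ m → GrUFD Δ.b Δ.ww → Δ.Num → ∀ (K : Type)
  [Field K] [Algebra ℂ K] (x : Fin (m + 2) → K), IsFun Δ K x →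
  ¬ IsKStable (locs Δ x) m (omega Δ x)

/-- NORM (from HUF, FUN, DIVX, DIVO, THR). -/
def SpecNORM : Prop := ∀ (m : ℕ) (Δ : Dat m), 1 ≤ m → GrUFD Δ.b Δ.ww → ∀ (K : Type) [Field K]
  [Algebra ℂ K] (x : Fin (m + 2) → K), IsFun Δ K x → ∀ O ∈ locs Δ x, IsIntegrallyClosed O

/-! ## Group P: the scheme -/

open AlgebraicGeometry

/-- the variety `V` is the hypersurface of the data `Δ` -/
structure IsModel {m : ℕ} (Δ : Dat m) (V : CVar) (x : Fin (m + 2) → V.K) : Prop where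
  isFun : IsFun Δ V.K x
  locals : V.locals = locs Δ x
  proper : IsProper V.f
  affine : ∀ k : Option (Fin (m + 2)), ∃ U : V.X.Opens, IsAffineOpen U ∧
    ∀ (y : V.X) (𝔓 : Ideal (MvPolynomial (Option (Fin (m + 2))) ℂ)), IsLocAt Δ x 𝔓 (V.loc y) →
      (y ∈ U ↔ X k ∉ 𝔓)

/-- PRJ (from GR, RNG; `Proj` of the coordinate ring). -/
def SpecPRJ : Prop := ∀ (m : ℕ) (Δ : Dat m), 1 ≤ m → ∃ (V : CVar) (x : Fin (m + 2) → V.K),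
  IsModel Δ V x

/-- AMP (from RNG, DIVX, DIVO, THR, SEC, LDD, NORM). -/
def SpecAMP : Prop := ∀ (m : ℕ) (Δ : Dat m), 1 ≤ m → GrUFD Δ.b Δ.ww → Δ.Num → ∀ (V : CVar)
  (x : Fin (m + 2) → V.K), IsModel Δ V x → V.IsAmple (fun F => - canDiv (omega Δ x) F) ∧
    ∀ y : V.X, IsIntegrallyClosed (V.X.presheaf.stalk y)

end

end Pool.Agent.Lib.MPa7508c
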