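import Pool.Agent.Lib.MP_a7508c_ag.Thr
import Pool.Agent.Lib.MP_a7508c_ag.Spec2

/-!
# Module HIL: the Hilbert function of the coordinate ring
-/

set_option autoImplicit false

namespace Pool.Agent.Lib.MPa7508c

open MvPolynomial

noncomputable section

namespace HilM

variable {m : ℕ} (Δ : Dat m)

/-- the polynomial ring in all variables but `x_1` (`some 0`) -/
abbrev B (m : ℕ) : Type := MvPolynomial (Option (Fin (m + 1))) ℂ

/-- all variables but `x_1` -/
def em (m : ℕ) : Option (Fin (m + 1)) → Option (Fin (m + 2)) := Option.map Fin.succ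

/-- the inclusion -/
def io (m : ℕ) : B m →ₐ[ℂ] MvPolynomial (Option (Fin (m + 2))) ℂ := rename (em m)

/-- weights of the remaining variables -/
def wb : Option (Fin (m + 1)) → ℕ := fun o => o.elim 1 (fun i => Δ.w i.succ)

/-- the part of the equation without `x_1` -/
def hh : B m := X none ^ Δ.L + ∑ i : Fin (m + 1), X (some i) ^ Δ.a i.succ

theorem io_X_none : io m (X none) = X none := by
  unfold io
  rw [rename_X]
  rfl

theorem io_X_some (i : Fin (m + 1)) : io m (X (some i)) = X (some i.succ) := by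
  unfold io
  rw [rename_X]
  rfl

theorem fp_eq : fp _ Δ.b = X (some 0) ^ Δ.a 0 + io m (hh Δ) := by
  have hs : io m (∑ i : Fin (m + 1), X (some i) ^ Δ.a i.succ) =
      ∑ i : Fin (m + 1), X (some i.succ) ^ Δ.a i.succ := by
    rw [map_sum]
    apply Finset.sum_congr rfl
    intro i _
    rw [map_pow, io_X_some]
  unfold fp hh
  rw [Fintype.sum_option, Fin.sum_univ_succ, map_add, map_pow, io_X_none, hs]
  show X none ^ Δ.L + (X (some 0) ^ Δ.a 0 + ∑ i : Fin (m + 1), X (some i.succ) ^ Δ.a i.succ) = _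
  ring

/-- the map to polynomials in `x_1` -/
def ps (m : ℕ) : MvPolynomial (Option (Fin (m + 2))) ℂ →ₐ[ℂ] Polynomial (B m) :=
  aeval (fun o => o.elim (Polynomial.C (X none))
    (fun i => Fin.cases Polynomial.X (fun k => Polynomial.C (X (some k))) i))

theorem ps_io (Q : B m) : ps m (io m Q) = Polynomial.C Q := by
  have h : (ps m).comp (io m) = IsScalarTower.toAlgHom ℂ (B m) (Polynomial (B m)) := by
    apply MvPolynomial.algHom_ext
    rintro (_ | i)
    · show ps m (io m (X none)) = Polynomial.C (X none)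
      rw [io_X_none]
      unfold ps
      rw [aeval_X]
      rfl
    · show ps m (io m (X (some i))) = Polynomial.C (X (some i))
      rw [io_X_some]
      unfold ps
      rw [aeval_X]
      rfl
  exact DFunLike.congr_fun h Q

theorem ps_fp : ps m (fp _ Δ.b) = Polynomial.X ^ Δ.a 0 + Polynomial.C (hh Δ) := by
  rw [fp_eq, map_add, map_pow, ps_io]
  unfold ps
  rw [aeval_X]
  rfl

/-- the composite `B → R` is injective -/
theorem inj {Q : B m} (h : mkF Δ.b (io m Q) = 0) : Q = 0 := by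
  obtain ⟨c, hc⟩ := Ideal.mem_span_singleton'.1 (GrM.mk_eq_zero.1 h)
  by_contra hQ
  have ha : 2 ≤ Δ.a 0 := Δ.wt.two_le 0
  have hdvd : Polynomial.X ^ Δ.a 0 + Polynomial.C (hh Δ) ∣ Polynomial.C Q := by
    refine ⟨ps m c, ?_⟩
    rw [← ps_fp, ← ps_io, ← map_mul, ← hc, mul_comm]
  have h1 := Polynomial.natDegree_le_of_dvd hdvd (Polynomial.C_ne_zero.2 hQ)
  rw [Polynomial.natDegree_X_pow_add_C, Polynomial.natDegree_C] at h1
  omega

theorem hh_homog : IsWeightedHomogeneous (wb Δ) (hh Δ) Δ.L := by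
  unfold hh
  apply IsWeightedHomogeneous.add
  · have h := (isWeightedHomogeneous_X ℂ (wb Δ) none).pow Δ.L
    rw [smul_eq_mul] at h
    have h2 : Δ.L * wb Δ none = Δ.L := mul_one _
    rwa [h2] at h
  · apply IsWeightedHomogeneous.sum
    intro i _
    have h := (isWeightedHomogeneous_X ℂ (wb Δ) (some i)).pow (Δ.a i.succ)
    rw [smul_eq_mul] at h
    have h2 : Δ.a i.succ * wb Δ (some i) = Δ.L := Δ.wt.mul i.succ
    rwa [h2] at h

/-- the spanning monomials -/
def mon (k : ℕ) (t : ℕ × (Fin (m + 1) → Fin (k + 1))) : Δ.R :=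
  mkF Δ.b (X (some 0) ^ t.1 * (X none ^ (k - t.1 * Δ.w 0 - ∑ i, (t.2 i : ℕ) * Δ.w i.succ) *
    ∏ i : Fin (m + 1), X (some i.succ) ^ (t.2 i : ℕ)))

/-- the finite spanning set -/
def TT (k : ℕ) : Set Δ.R :=
  Set.range (fun t : Fin (Δ.a 0) × (Fin (m + 1) → Fin (k + 1)) => mon Δ k (t.1, t.2))

theorem X_pow_a : mkF Δ.b (X (some 0)) ^ Δ.a 0 = -(mkF Δ.b (io m (hh Δ))) := by
  have h1 : mkF Δ.b (X (some 0) ^ Δ.a 0 + io m (hh Δ)) = 0 := by
    rw [← fp_eq]
    exact GrM.mk_eq_zero.2 (Ideal.mem_span_singleton_self _)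
  rw [map_add, map_pow] at h1
  exact eq_neg_of_add_eq_zero_left h1

theorem span_aux (k : ℕ) : ∀ (n l : ℕ) (Q : B m), IsWeightedHomogeneous (wb Δ) Q l →
    n * Δ.w 0 + l = k → mkF Δ.b (X (some 0)) ^ n * mkF Δ.b (io m Q) ∈
      Submodule.span ℂ (TT Δ k) := by
  intro n
  induction n using Nat.strong_induction_on with
  | _ n ih =>
    intro l Q hQ hk
    by_cases hn : n < Δ.a 0
    · rw [Q.as_sum, map_sum, map_sum, Finset.mul_sum]
      apply Submodule.sum_mem
      intro β hβ
      have h1 : Finsupp.weight (wb Δ) β = l := hQ (mem_support_iff.1 hβ)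
      rw [Finsupp.weight_apply, Finsupp.sum_fintype _ _ (fun i => by simp),
        Fintype.sum_option] at h1
      simp only [smul_eq_mul] at h1
      have h2 : β none + ∑ i : Fin (m + 1), β (some i) * Δ.w i.succ = l := by
        have h3 : β none * wb Δ none = β none := mul_one _
        rw [h3] at h1
        exact h1
      have hle : ∀ i : Fin (m + 1), β (some i) < k + 1 := by
        intro i
        have h4 : β (some i) * Δ.w i.succ ≤ ∑ i : Fin (m + 1), β (some i) * Δ.w i.succ :=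
          Finset.single_le_sum (f := fun i : Fin (m + 1) => β (some i) * Δ.w i.succ)
            (fun _ _ => Nat.zero_le _) (Finset.mem_univ i)
        have h5 : β (some i) ≤ β (some i) * Δ.w i.succ :=
          Nat.le_mul_of_pos_right _ (Δ.wt.pos _)
        omega
      have h6 : mkF Δ.b (X (some 0)) ^ n * mkF Δ.b (io m (monomial β (coeff β Q))) =
          coeff β Q • mon Δ k (n, fun i => ⟨β (some i), hle i⟩) := by
        have h7 : monomial β (coeff β Q) = coeff β Q • (X none ^ β none *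
            ∏ i : Fin (m + 1), X (some i) ^ β (some i)) := by
          rw [monomial_eq, Finsupp.prod_fintype _ _ (fun i => pow_zero _), Fintype.prod_option,
            MvPolynomial.smul_eq_C_mul]
        have h8 : k - n * Δ.w 0 - ∑ i : Fin (m + 1), β (some i) * Δ.w i.succ = β none := by
          omega
        unfold mon
        simp only
        rw [h8, h7, map_smul, map_smul, mul_smul_comm, map_mul (io m), map_pow (io m), io_X_none,
          map_prod (io m)]
        rw [Finset.prod_congr rfl fun (i : Fin (m + 1)) _ => by rw [map_pow, io_X_some],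
          map_mul (mkF Δ.b) (X (some 0) ^ n), map_pow (mkF Δ.b) (X (some 0))]
      rw [h6]
      apply Submodule.smul_mem
      apply Submodule.subset_span
      exact ⟨(⟨n, hn⟩, fun i => ⟨β (some i), hle i⟩), rfl⟩
    · rw [not_lt] at hn
      have ha : 2 ≤ Δ.a 0 := Δ.wt.two_le 0
      have h1 : mkF Δ.b (X (some 0)) ^ n * mkF Δ.b (io m Q) =
          -(mkF Δ.b (X (some 0)) ^ (n - Δ.a 0) * mkF Δ.b (io m (hh Δ * Q))) := by
        have h2 : mkF Δ.b (X (some 0)) ^ n = mkF Δ.b (X (some 0)) ^ (n - Δ.a 0) *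
            mkF Δ.b (X (some 0)) ^ Δ.a 0 := by
          rw [← pow_add, Nat.sub_add_cancel hn]
        rw [h2, X_pow_a, map_mul (io m), map_mul (mkF Δ.b)]
        ring
      rw [h1]
      apply Submodule.neg_mem
      apply ih (n - Δ.a 0) (by omega) (Δ.L + l) (hh Δ * Q) ((hh_homog Δ).mul hQ)
      have h3 : Δ.a 0 * Δ.w 0 = Δ.L := Δ.wt.mul 0
      rw [Nat.sub_mul, h3]
      have h4 : Δ.L ≤ n * Δ.w 0 := by
        rw [← h3]
        exact Nat.mul_le_mul_right _ hn
      omega

theorem mono_eq (α : Option (Fin (m + 2)) →₀ ℕ) (c : ℂ) :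
    monomial α c = X (some 0) ^ α (some 0) * io m (C c * (X none ^ α none *
      ∏ i : Fin (m + 1), X (some i) ^ α (some i.succ))) := by
  have hs : io m (∏ i : Fin (m + 1), X (some i) ^ α (some i.succ)) =
      ∏ i : Fin (m + 1), X (some i.succ) ^ α (some i.succ) := by
    rw [map_prod]
    apply Finset.prod_congr rfl
    intro i _
    rw [map_pow, io_X_some]
  have h5 : io m (C c) = C c := by
    unfold io
    rw [rename_C]
  rw [map_mul, map_mul, map_pow, hs, h5, io_X_none, monomial_eq,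
    Finsupp.prod_fintype _ _ (fun i => pow_zero _), Fintype.prod_option, Fin.prod_univ_succ]
  ring

/-- the part of a monomial without `x_1` -/
def qq (α : Option (Fin (m + 2)) →₀ ℕ) (c : ℂ) : B m :=
  C c * (X none ^ α none * ∏ i : Fin (m + 1), X (some i) ^ α (some i.succ))

theorem qq_homog (α : Option (Fin (m + 2)) →₀ ℕ) (c : ℂ) : IsWeightedHomogeneous (wb Δ) (qq α c)
    (0 + (α none * 1 + ∑ i : Fin (m + 1), α (some i.succ) * Δ.w i.succ)) := by
  unfold qq
  apply IsWeightedHomogeneous.mul (isWeightedHomogeneous_C _ _)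
  apply IsWeightedHomogeneous.mul
  · exact (isWeightedHomogeneous_X ℂ (wb Δ) none).pow (α none)
  · apply IsWeightedHomogeneous.prod
    intro i _
    exact (isWeightedHomogeneous_X ℂ (wb Δ) (some i)).pow (α (some i.succ))

theorem hm_le (k : ℕ) : Δ.hm k ≤ Submodule.span ℂ (TT Δ k) := by
  intro r hr
  obtain ⟨P, hP, rfl⟩ := GrM.mem_hom.1 hr
  rw [P.as_sum, map_sum]
  apply Submodule.sum_mem
  intro α hα
  have h1 : Finsupp.weight Δ.ww α = k := hP (mem_support_iff.1 hα)
  rw [Finsupp.weight_apply, Finsupp.sum_fintype _ _ (fun i => by simp),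
    Fintype.sum_option, Fin.sum_univ_succ] at h1
  simp only [smul_eq_mul] at h1
  have h2 : α none + (α (some 0) * Δ.w 0 + ∑ i : Fin (m + 1), α (some i.succ) * Δ.w i.succ) =
      k := by
    have h3 : α none * Δ.ww none = α none := mul_one _
    rw [h3] at h1
    exact h1
  have h4 : mkF Δ.b (monomial α (coeff α P)) =
      mkF Δ.b (X (some 0)) ^ α (some 0) * mkF Δ.b (io m (qq α (coeff α P))) := by
    rw [mono_eq, map_mul, map_pow]
    rfl
  rw [h4]
  apply span_aux Δ k _ _ _ (qq_homog Δ α (coeff α P))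
  omega

theorem upper (k : ℕ) : Module.finrank ℂ (Δ.hm k) ≤ Δ.a 0 * (k + 1) ^ (m + 1) := by
  have hfin : (TT Δ k).Finite := Set.finite_range _
  have : Module.Finite ℂ (Submodule.span ℂ (TT Δ k)) := FiniteDimensional.span_of_finite ℂ hfin
  calc Module.finrank ℂ (Δ.hm k) ≤ Module.finrank ℂ (Submodule.span ℂ (TT Δ k)) :=
        Submodule.finrank_mono (hm_le Δ k)
    _ ≤ Fintype.card (Fin (Δ.a 0) × (Fin (m + 1) → Fin (k + 1))) := finrank_range_le_card _
    _ = _ := by simp

/-- exponents of the independent monomials -/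
def ex (k N : ℕ) (e : Fin (m + 1) → Fin (N + 1)) : Option (Fin (m + 1)) →₀ ℕ :=
  Finsupp.equivFunOnFinite.symm (fun o => o.elim (k - ∑ i, (e i : ℕ) * Δ.w i.succ)
    (fun i => (e i : ℕ)))

theorem ex_inj (k N : ℕ) : Function.Injective (ex Δ k N) := by
  intro e e' h
  funext i
  have h1 := DFunLike.congr_fun h (some i)
  exact Fin.ext h1

theorem ex_weight (k N : ℕ) (hN : N * (∑ i : Fin (m + 1), Δ.w i.succ) ≤ k)
    (e : Fin (m + 1) → Fin (N + 1)) : Finsupp.weight (wb Δ) (ex Δ k N e) = k := by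
  rw [Finsupp.weight_apply, Finsupp.sum_fintype _ _ (fun i => by simp), Fintype.sum_option]
  simp only [smul_eq_mul]
  have h1 : ∑ i : Fin (m + 1), (e i : ℕ) * Δ.w i.succ ≤ N * ∑ i : Fin (m + 1), Δ.w i.succ := by
    rw [Finset.mul_sum]
    apply Finset.sum_le_sum
    intro i _
    exact Nat.mul_le_mul_right _ (Nat.lt_succ_iff.1 (e i).2)
  show (k - ∑ i, (e i : ℕ) * Δ.w i.succ) * 1 + ∑ i, (e i : ℕ) * Δ.w i.succ = k
  omega

/-- the images of the monomials -/
def vv (k N : ℕ) (hN : N * (∑ i : Fin (m + 1), Δ.w i.succ) ≤ k)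
    (e : Fin (m + 1) → Fin (N + 1)) : Δ.hm k :=
  ⟨mkF Δ.b (io m (monomial (ex Δ k N e) 1)), GrM.mk_mem_hom (by
    have h1 := isWeightedHomogeneous_monomial (wb Δ) (ex Δ k N e) (1 : ℂ) (ex_weight Δ k N hN e)
    intro d hd
    unfold io at hd
    rw [rename_monomial, coeff_monomial] at hd
    split_ifs at hd with h2
    · rw [← h2, Finsupp.weight_apply, Finsupp.sum_mapDomain_index (fun _ => by simp)
        (fun _ _ _ => by rw [add_smul])]
      have h3 := ex_weight Δ k N hN e
      rw [Finsupp.weight_apply] at h3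
      refine Eq.trans (Finsupp.sum_congr ?_) h3
      rintro (_ | i) _
      · rfl
      · rfl
    · exact absurd rfl hd)⟩

theorem vv_indep (k N : ℕ) (hN : N * (∑ i : Fin (m + 1), Δ.w i.succ) ≤ k) :
    LinearIndependent ℂ (vv Δ k N hN) := by
  apply LinearIndependent.of_comp (Δ.hm k).subtype
  have h1 : LinearIndependent ℂ (fun s : Option (Fin (m + 1)) →₀ ℕ =>
      (monomial s (1 : ℂ) : B m)) := by
    have := (basisMonomials (Option (Fin (m + 1))) ℂ).linearIndependent
    simpa using this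
  have h2 := h1.comp (ex Δ k N) (ex_inj Δ k N)
  exact h2.map' ((mkF Δ.b).comp (io m)).toLinearMap
    (LinearMap.ker_eq_bot'.2 fun Q hQ => inj Δ hQ)

theorem lower (k N : ℕ) (hN : N * (∑ i : Fin (m + 1), Δ.w i.succ) ≤ k)
    (hf : FiniteDimensional ℂ (Δ.hm k)) : (N + 1) ^ (m + 1) ≤ Module.finrank ℂ (Δ.hm k) := by
  have h1 := (vv_indep Δ k N hN).fintype_card_le_finrank
  simpa using h1

end HilM

open HilM in
theorem specHIL (hRNG : SpecRNG) : SpecHIL := by
  intro m Δ hm
  have hwt : Wt Δ.b Δ.ww Δ.L := by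
    refine ⟨?_, ?_, ?_⟩
    · rintro (_ | i)
      · exact mul_one _
      · exact Δ.wt.mul i
    · rintro (_ | i)
      · exact Δ.two_le_L
      · exact Δ.wt.two_le i
    · rintro (_ | i)
      · exact Nat.one_pos
      · exact Δ.wt.pos i
  have gr := specGR _ Δ.b Δ.ww Δ.L (by simp) hwt
  set W : ℕ := 1 + ∑ i : Fin (m + 1), Δ.w i.succ with hW
  have hWpos : (0 : ℝ) < W := by
    have : 0 < W := by omega
    exact_mod_cast this
  refine ⟨1 / (W : ℝ) ^ (m + 1), (Δ.a 0 : ℝ) * 2 ^ (m + 1), by positivity, ?_⟩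
  intro k hk
  have hkr : (1 : ℝ) ≤ k := by exact_mod_cast hk
  refine ⟨?_, ?_, ?_⟩
  · have h1 : (k / W) * (∑ i : Fin (m + 1), Δ.w i.succ) ≤ k := by
      calc (k / W) * (∑ i : Fin (m + 1), Δ.w i.succ) ≤ (k / W) * W :=
            Nat.mul_le_mul_left _ (by omega)
        _ ≤ k := Nat.div_mul_le_self k W
    have h2 := lower Δ k (k / W) h1 (gr.fin k)
    have h3 : (k : ℝ) / W ≤ ((k / W : ℕ) : ℝ) + 1 := by
      rw [div_le_iff₀ hWpos]
      have h4 : k < W * (k / W + 1) := Nat.lt_mul_div_succ k (by omega)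
      have h5 : (k : ℝ) < W * (((k / W : ℕ) : ℝ) + 1) := by exact_mod_cast h4
      linarith
    calc 1 / (W : ℝ) ^ (m + 1) * (k : ℝ) ^ (m + 1) = ((k : ℝ) / W) ^ (m + 1) := by
          rw [div_pow]
          ring
      _ ≤ (((k / W : ℕ) : ℝ) + 1) ^ (m + 1) := pow_le_pow_left₀ (by positivity) h3 _
      _ ≤ _ := by exact_mod_cast h2
  · have h1 := upper Δ k
    have h2 : (Module.finrank ℂ (Δ.hm k) : ℝ) ≤ (Δ.a 0 : ℝ) * ((k : ℝ) + 1) ^ (m + 1) := by
      exact_mod_cast h1
    refine h2.trans ?_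
    rw [mul_assoc, ← mul_pow]
    apply mul_le_mul_of_nonneg_left _ (Nat.cast_nonneg _)
    exact pow_le_pow_left₀ (by positivity) (by linarith) _
  · have rl := hRNG m Δ hm
    have : FiniteDimensional ℂ (Δ.hm (k + 1)) := gr.fin (k + 1)
    have hx0 : Δ.x0 ∈ Δ.hm 1 := GrM.mk_mem_hom (isWeightedHomogeneous_X ℂ Δ.ww none)
    have hdom := rl.dom
    let φ : Δ.hm k →ₗ[ℂ] Δ.hm (k + 1) :=
      { toFun := fun r => ⟨(r : Δ.R) * Δ.x0, GrM.mul_mem r.2 hx0⟩
        map_add' := fun r s => Subtype.ext (add_mul _ _ _)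
        map_smul' := fun c r => Subtype.ext (smul_mul_assoc c (r : Δ.R) Δ.x0) }
    apply LinearMap.finrank_le_finrank_of_injective (f := φ)
    intro r s hrs
    have h1 : (r : Δ.R) * Δ.x0 = (s : Δ.R) * Δ.x0 := congrArg Subtype.val hrs
    exact Subtype.ext (mul_right_cancel₀ rl.x0prime.ne_zero h1)

end

end Pool.Agent.Lib.MPa7508c
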