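import Pool.Agent.Lib.MP_a7508c_ag.Huf

section
/-!
# SEC: sections of `𝒪(D)`; LEQ: local equations of Weil divisors
-/
set_option autoImplicit false

namespace Pool.Agent.Lib.MPa7508c

open MvPolynomial

noncomputable section

namespace SecM

section ord

variable {K : Type} [Field K] {v : ValuationSubring K}

theorem ord_one (hv : OrdLaws v) : ord v (1 : K) = 0 := by
  have := hv.mul 1 1 one_ne_zero one_ne_zero
  rw [mul_one] at this
  linarith

theorem ord_pow (hv : OrdLaws v) {a : K} (ha : a ≠ 0) (n : ℕ) : ord v (a ^ n) = n * ord v a := by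
  induction n with
  | zero => simp [ord_one hv]
  | succ n ih => rw [pow_succ, hv.mul _ _ (pow_ne_zero _ ha) ha, ih]; push_cast; ring

theorem ord_inv (hv : OrdLaws v) {a : K} (ha : a ≠ 0) : ord v a⁻¹ = - ord v a := by
  have := hv.mul a a⁻¹ ha (inv_ne_zero ha)
  rw [mul_inv_cancel₀ ha, ord_one hv] at this
  linarith

theorem ord_div (hv : OrdLaws v) {a b : K} (ha : a ≠ 0) (hb : b ≠ 0) :
    ord v (a / b) = ord v a - ord v b := by
  rw [div_eq_mul_inv, hv.mul _ _ ha (inv_ne_zero hb), ord_inv hv hb]; ring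

theorem ord_zpow (hv : OrdLaws v) {a : K} (ha : a ≠ 0) (n : ℤ) : ord v (a ^ n) = n * ord v a := by
  cases n with
  | ofNat n => simpa using ord_pow hv ha n
  | negSucc n =>
    rw [zpow_negSucc, ord_inv hv (pow_ne_zero _ ha), ord_pow hv ha, Int.negSucc_eq]
    push_cast; ring

end ord

variable {m : ℕ} {Δ : Dat m}

/-- the degree of a nonzero homogeneous element is unique -/
theorem deg_unique (hG : GrLaws Δ.b Δ.ww) {r : Δ.R} {d e : ℕ} (hd : r ∈ Δ.hm d) (he : r ∈ Δ.hm e)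
    (hr : r ≠ 0) : d = e := by
  classical
  by_contra hne
  have h1 := hG.uniq (Finsupp.single d r - Finsupp.single e r) (by
    intro k
    rw [Finsupp.sub_apply]
    refine Submodule.sub_mem _ ?_ ?_
    · rw [Finsupp.single_apply]
      split_ifs with h
      · rw [← h]; exact hd
      · exact Submodule.zero_mem _
    · rw [Finsupp.single_apply]
      split_ifs with h
      · rw [← h]; exact he
      · exact Submodule.zero_mem _) (by
    rw [Finsupp.sum_sub_index (by intros; rfl)]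
    simp)
  have h2 := DFunLike.congr_fun h1 d
  rw [Finsupp.sub_apply, Finsupp.single_eq_same, Finsupp.single_apply, if_neg (Ne.symm hne),
    sub_zero] at h2
  exact hr h2

variable {K : Type} [Field K] [Algebra ℂ K] {x : Fin (m + 2) → K}

theorem dh_ne_zero {h : IsFun Δ K x} (hF : FunLaws h) {r : Δ.R} {d : ℕ} (hd : r ∈ Δ.hm d)
    (hr : r ≠ 0) : dh h r ≠ 0 := fun h0 => hr (hF.inj d r hd h0)

/-- the order of `dh r`, in one formula -/
theorem ord_dh {h : IsFun Δ K x} (hDIVX : SpecDIVX) (hm : 1 ≤ m) {F : ValuationSubring K} {p : Δ.R}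
    {e : ℕ} (hp : IsDivOf h F p e) : ∃ c : ℤ, ∀ (d : ℕ) (r : Δ.R), r ∈ Δ.hm d → r ≠ 0 →
      ord F (dh h r) = (mult p r : ℤ) - c * d := by
  by_cases h0 : p ∣ Δ.x0
  · refine ⟨1, fun d r hd hr => ?_⟩
    rw [(((hDIVX m Δ hm K x h).2 F p e hp).2 d r hd hr).2 h0]; ring
  · refine ⟨0, fun d r hd hr => ?_⟩
    rw [(((hDIVX m Δ hm K x h).2 F p e hp).2 d r hd hr).1 h0]; ring

end SecM

open SecM DivdM in
theorem specSEC (hORD : SpecORD) (hGR : SpecGR) (hRNG : SpecRNG) (hFUN : SpecFUN) (hHUF : SpecHUF)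
    (hDIVX : SpecDIVX) (hDIVO : SpecDIVO) : SpecSEC := by
  intro m Δ hm hU K _ _ x h D d e r s hrep z
  have hR := hRNG m Δ hm
  have hdom := hR.dom
  have hG := gr hGR Δ
  have hL := hFUN m Δ hm K x h
  have hr0 : dh h r ≠ 0 := dh_ne_zero hL hrep.hr hrep.r0
  have hs0 : dh h s ≠ 0 := dh_ne_zero hL hrep.hs hrep.s0
  constructor
  · rintro ⟨hz, hsec⟩
    obtain ⟨n, A, B, hA, hB, hB0, hAB⟩ := hL.frac z
    have hBd : dh h B ≠ 0 := dh_ne_zero hL hB hB0
    have hA0 : A ≠ 0 := by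
      rintro rfl
      rw [map_zero] at hAB
      exact mul_ne_zero hz hBd hAB
    have hdvd : B * s ∣ A * r := by
      refine hHUF _ Δ.b Δ.ww Δ.L (wt Δ) (card_pos m) hdom hU (n + d) (n + e) (A * r) (B * s)
        (hG.mul _ _ _ _ hA hrep.hr) (hG.mul _ _ _ _ hB hrep.hs) (mul_ne_zero hA0 hrep.r0)
        (mul_ne_zero hB0 hrep.s0) ?_
      intro k p hpk hp
      obtain ⟨F, hF⟩ := (hDIVX m Δ hm K x h).1 p k hpk hp
      obtain ⟨c, hc⟩ := ord_dh hDIVX hm hF
      have hPD := ((hDIVX m Δ hm K x h).2 F p k hF).1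
      have hv := hORD K F hPD.1
      have h1 := hsec F hPD
      have h2 : ord F z + ord F (dh h B) = ord F (dh h A) := by
        rw [← hv.mul z _ hz hBd, hAB]
      rw [hc n B hB hB0, hc n A hA hA0] at h2
      rw [hrep.eq F p k hF] at h1
      rw [hR.mult_mul p B s hp hB0 hrep.s0, hR.mult_mul p A r hp hA0 hrep.r0]
      have h3 : (mult p B : ℤ) + mult p s ≤ mult p A + mult p r := by linarith
      exact_mod_cast h3
    obtain ⟨g, hg⟩ := hdvd
    have hAr : A * r ≠ 0 := mul_ne_zero hA0 hrep.r0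
    have hg0 : g ≠ 0 := by
      rintro rfl
      rw [mul_zero] at hg
      exact hAr hg
    have hBs : B * s ≠ 0 := mul_ne_zero hB0 hrep.s0
    have hmem : (B * s) * g ∈ Δ.hm (n + d) := by rw [← hg]; exact hG.mul _ _ _ _ hA hrep.hr
    obtain ⟨d', e', hde, h1, h2⟩ := hG.factor hdom (n + d) (B * s) g hBs hg0 hmem
    have h3 : d' = n + e := deg_unique hG h1 (hG.mul _ _ _ _ hB hrep.hs) hBs
    refine ⟨e', g, by omega, h2, hg0, ?_⟩
    have h4 : dh h (A * r) = dh h (B * s * g) := by rw [hg]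
    rw [map_mul, map_mul, map_mul] at h4
    apply mul_left_cancel₀ hBd
    calc dh h B * (z * dh h r) = (z * dh h B) * dh h r := by ring
      _ = dh h A * dh h r := by rw [hAB]
      _ = dh h B * dh h s * dh h g := h4
      _ = _ := by ring
  · rintro ⟨k, g, hk, hg, hg0, heq⟩
    have hg1 : dh h g ≠ 0 := dh_ne_zero hL hg hg0
    have hz : z ≠ 0 := by
      rintro rfl
      rw [zero_mul] at heq
      exact mul_ne_zero hg1 hs0 heq.symm
    refine ⟨hz, ?_⟩
    intro F hF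
    obtain ⟨p, e', hp⟩ := hDIVO m Δ hm hU K x h F hF
    obtain ⟨c, hc⟩ := ord_dh hDIVX hm hp
    have hv := hORD K F hF.1
    have h2 : ord F z + ord F (dh h r) = ord F (dh h g) + ord F (dh h s) := by
      rw [← hv.mul z _ hz hr0, ← hv.mul _ _ hg1 hs0, heq]
    rw [hc d r hrep.hr hrep.r0, hc k g hg hg0, hc e s hrep.hs hrep.s0] at h2
    rw [hrep.eq F p e' hp]
    have h3 : (d : ℤ) = k + e := by exact_mod_cast hk.symm
    rw [h3] at h2
    have h4 : (0 : ℤ) ≤ mult p g := by positivity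
    linarith

end

end Pool.Agent.Lib.MPa7508c
end

section
/-!
# LEQ: the local equation of a Weil divisor
-/
set_option autoImplicit false

namespace Pool.Agent.Lib.MPa7508c

open MvPolynomial

noncomputable section

namespace LeqM

variable {m : ℕ} {Δ : Dat m}

theorem X_mem (hG : GrLaws Δ.b Δ.ww) (k : Option (Fin (m + 2))) :
    mkF Δ.b (X k) ∈ Δ.hm (Δ.ww k) :=
  (hG.lift _ _).mpr ⟨X k, isWeightedHomogeneous_X ℂ Δ.ww k, rfl⟩

/-- an element with a lift in `𝔓` does not divide an element with a lift outside `𝔓` -/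
theorem not_dvd {𝔓 : Ideal (MvPolynomial (Option (Fin (m + 2))) ℂ)} (hfp : fp _ Δ.b ∈ 𝔓)
    {P Q : MvPolynomial (Option (Fin (m + 2))) ℂ} (hP : P ∈ 𝔓) (hQ : Q ∉ 𝔓) :
    ¬ mkF Δ.b P ∣ mkF Δ.b Q := by
  rintro ⟨c, hc⟩
  obtain ⟨C, rfl⟩ := Ideal.Quotient.mkₐ_surjective ℂ (Ideal.span {fp _ Δ.b}) c
  rw [← map_mul] at hc
  have h1 : Q - P * C ∈ Ideal.span {fp _ Δ.b} := by
    rw [← Ideal.Quotient.mk_eq_mk_iff_sub_mem]
    exact hc
  have h2 : Q - P * C ∈ 𝔓 := (Ideal.span_singleton_le_iff_mem _).mpr hfp h1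
  apply hQ
  have := 𝔓.add_mem h2 (𝔓.mul_mem_right C hP)
  rwa [sub_add_cancel] at this

end LeqM

open LeqM SecM DivdM in
theorem specLEQ (hORD : SpecORD) (hGR : SpecGR) (hRNG : SpecRNG) (hFUN : SpecFUN)
    (hDIVX : SpecDIVX) (hDIVO : SpecDIVO) (hTHR : SpecTHR) : SpecLEQ := by
  intro m Δ hm hU K _ _ x h D d e r s hrep 𝔓 O hO k hk
  have hR := hRNG m Δ hm
  have hdom := hR.dom
  have hG := gr hGR Δ
  have hL := hFUN m Δ hm K x h
  have hr0 : dh h r ≠ 0 := dh_ne_zero hL hrep.hr hrep.r0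
  have hs0 : dh h s ≠ 0 := dh_ne_zero hL hrep.hs hrep.s0
  have hXne : mkF Δ.b (X k) ≠ 0 := by
    intro h0
    exact not_dvd (Δ := Δ) hO.fp_mem (𝔓.zero_mem) hk (by rw [h0]; exact dvd_zero _)
  have hXd : dhP x (X k) ≠ 0 := by
    rw [← dh_mk h]
    exact dh_ne_zero hL (X_mem hG k) hXne
  refine ⟨(wt Δ).pos k, mul_ne_zero (pow_ne_zero _ (div_ne_zero hr0 hs0)) (zpow_ne_zero _ hXd), ?_⟩
  intro F hF hOF
  obtain ⟨p, e', hp⟩ := hDIVO m Δ hm hU K x h F hF
  obtain ⟨c, hc⟩ := ord_dh hDIVX hm hp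
  have hv := hORD K F hF.1
  obtain ⟨P, hPh, hPp⟩ := (hG.lift e' p).mp hp.hom
  have hP : P ∈ 𝔓 := ((hTHR m Δ hm K x h F p e' hp).1 𝔓 O hO P hPp).mp hOF
  have hnd : ¬ p ∣ mkF Δ.b (X k) := by
    rw [← hPp]
    exact not_dvd hO.fp_mem hP hk
  have hm0 : mult p (mkF Δ.b (X k)) = 0 := mult_eq_zero hR hp.prime hXne hnd
  have hXo : ord F (dhP x (X k)) = - (c * Δ.ww k) := by
    rw [← dh_mk h, hc _ _ (X_mem hG k) hXne, hm0]; simp
  rw [hv.mul _ _ (pow_ne_zero _ (div_ne_zero hr0 hs0)) (zpow_ne_zero _ hXd),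
    ord_pow hv (div_ne_zero hr0 hs0), ord_div hv hr0 hs0, ord_zpow hv hXd, hXo,
    hc d r hrep.hr hrep.r0, hc e s hrep.hs hrep.s0, hrep.eq F p e' hp]
  ring

end

end Pool.Agent.Lib.MPa7508c
end
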