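import Pool.Agent.Lib.MP_a7508c_ag.Spec2

section
/-!
# Module AGE: the numerical part of the key inequality
-/
set_option autoImplicit false

namespace Pool.Agent.Lib.MPa7508c

open MvPolynomial

namespace AgeM

variable {m : ℕ}

lemma a_pos (Δ : Dat m) (i : Fin (m + 2)) : 0 < Δ.a i := lt_of_lt_of_le (by norm_num) (Δ.wt.two_le i)

/-- `q a_j ≤ w_i` -/
lemma q_le (Δ : Dat m) (hN : Δ.Num) (i j : Fin (m + 2)) (hij : i ≠ j) : Δ.q * Δ.a j ≤ Δ.w i := by
  have h1 := hN.mult i j hij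
  have h2 := Δ.wt.mul i
  have h3 := a_pos Δ i
  have h4 : Δ.a i * (Δ.q * Δ.a j) ≤ Δ.a i * Δ.w i := by
    rw [h2]
    calc Δ.a i * (Δ.q * Δ.a j) = Δ.q * Δ.a i * Δ.a j := by ring
      _ ≤ Δ.L := h1
  exact Nat.le_of_mul_le_mul_left h4 h3

lemma q_leQ (Δ : Dat m) (hN : Δ.Num) (i j : Fin (m + 2)) (hij : i ≠ j) :
    (Δ.q : ℚ) * Δ.a j ≤ Δ.w i := by
  have := q_le Δ hN i j hij
  exact_mod_cast this

/-- `G θ` is a positive integer -/
lemma bez (p q : ℕ) (θ : ℚ) (a b : ℤ) (ha : (a : ℚ) + p * θ = 0) (hb : (b : ℚ) + q * θ = 0) :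
    ∃ M : ℤ, (M : ℚ) = (Nat.gcd p q : ℚ) * θ := by
  refine ⟨-(a * Nat.gcdA p q + b * Nat.gcdB p q), ?_⟩
  have h := Nat.gcd_eq_gcd_ab p q
  have h2 : ((Nat.gcd p q : ℕ) : ℚ) = p * (Nat.gcdA p q : ℚ) + q * (Nat.gcdB p q : ℚ) := by
    exact_mod_cast congrArg (fun z : ℤ => (z : ℚ)) h
  rw [h2]
  push_cast
  linear_combination (Nat.gcdA p q : ℚ) * (-ha) + (Nat.gcdB p q : ℚ) * (-hb)

end AgeM

open AgeM in
theorem specAGE : SpecAGE := by
  intro m Δ hN θ e n g hθ he hg hg0 j l hjl hle hj hl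
  obtain ⟨M, hM⟩ := bez (Δ.w j) (Δ.w l) θ (n j) (n l) (by rw [← hg j]; exact hj)
    (by rw [← hg l]; exact hl)
  set G : ℕ := Nat.gcd (Δ.w j) (Δ.w l) with hG
  have hGpos : 0 < G := Nat.gcd_pos_of_pos_left _ (Δ.wt.pos j)
  have hGQ : (0 : ℚ) < G := by exact_mod_cast hGpos
  have hMpos : 0 < M := by
    have : (0 : ℚ) < M := by rw [hM]; positivity
    exact_mod_cast this
  have hsum0 : 0 ≤ ∑ k, g k := Finset.sum_nonneg fun k _ => hg0 k
  have hsingle : ∀ i, g i ≤ ∑ k, g k := fun i =>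
    Finset.single_le_sum (fun k _ => hg0 k) (Finset.mem_univ i)
  by_cases hdiv : (G : ℤ) ∣ M
  · -- `θ` is an integer
    obtain ⟨N, hN'⟩ := hdiv
    have hθN : θ = N := by
      have h1 : (G : ℚ) * θ = G * N := by
        rw [← hM, hN']; push_cast; ring
      exact mul_left_cancel₀ hGQ.ne' h1
    have hN1 : 1 ≤ θ := by
      have : 0 < N := by
        have : (0 : ℚ) < N := by rw [← hθN]; exact hθ
        exact_mod_cast this
      rw [hθN]
      exact_mod_cast this
    refine ⟨?_, ?_⟩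
    · rcases lt_or_ge 1 (θ + ∑ k, g k) with h | h
      · exact Or.inl h
      · right
        have h1 : θ = 1 := by linarith
        refine ⟨h1, fun i => ?_⟩
        have h2 : ∑ k, g k = 0 := by linarith
        have h3 := hsingle i
        exact le_antisymm (by linarith) (hg0 i)
    · intro i hij
      have h1 := q_leQ Δ hN i j hij
      have h2 := hsingle i
      have h3 : 0 ≤ e + g i := by have := hg0 i; linarith
      have h4 : (0 : ℚ) ≤ Δ.w i := by positivity
      calc (Δ.q : ℚ) * Δ.a j * (e + g i) ≤ Δ.w i * (e + g i) := mul_le_mul_of_nonneg_right h1 h3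
        _ ≤ Δ.w i * (e + (θ + ∑ k, g k) - 1) := mul_le_mul_of_nonneg_left (by linarith) h4
  · -- `θ` is not an integer
    have hGZ : (0 : ℤ) < G := by exact_mod_cast hGpos
    obtain ⟨u, hu⟩ : ∃ u : ℕ, (u : ℤ) = M % G := ⟨(M % G).toNat, Int.toNat_of_nonneg (Int.emod_nonneg _ hGZ.ne')⟩
    have hu0 : 0 < u := by
      rcases Nat.eq_zero_or_pos u with h | h
      · exfalso
        apply hdiv
        rw [h] at hu
        exact Int.dvd_of_emod_eq_zero hu.symm
      · exact h
    have huG : u < G := by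
      have : (u : ℤ) < G := by rw [hu]; exact Int.emod_lt_of_pos _ hGZ
      exact_mod_cast this
    set n0 : ℤ := M / G with hn0
    have hn00 : 0 ≤ n0 := Int.ediv_nonneg hMpos.le hGZ.le
    have hMdec : M = G * n0 + u := by
      rw [hu, hn0]; exact (Int.mul_ediv_add_emod M G).symm
    have hθdec : (G : ℚ) * θ = G * n0 + u := by
      rw [← hM, hMdec]; push_cast; ring
    obtain ⟨hA, hB⟩ := hN.age j l hjl hle u hu0 huG
    rw [← hG] at hA hB
    -- the remainders
    set r : Fin (m + 2) → ℕ := fun k => (u * Δ.w k) % G with hr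
    have hgk : ∀ k, ∃ t : ℤ, 0 ≤ t ∧ (G : ℚ) * g k = r k + G * t := by
      intro k
      obtain ⟨d, hd⟩ : ∃ d : ℕ, u * Δ.w k = G * d + r k :=
        ⟨u * Δ.w k / G, (Nat.div_add_mod _ _).symm⟩
      have h4 : (u : ℚ) * Δ.w k = G * (d : ℚ) + r k := by exact_mod_cast hd
      have h2 : (G : ℚ) * g k = r k + G * ((n k + Δ.w k * n0 + d : ℤ) : ℚ) := by
        rw [hg k]
        push_cast
        have h5 : (G : ℚ) * ((n k : ℚ) + Δ.w k * θ) = G * n k + Δ.w k * (G * θ) := by ring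
        rw [h5, hθdec]
        linear_combination h4
      refine ⟨n k + Δ.w k * n0 + d, ?_, h2⟩
      by_contra hneg
      push Not at hneg
      have h1 : n k + Δ.w k * n0 + (d : ℤ) ≤ -1 := by omega
      have h3 : ((n k + Δ.w k * n0 + d : ℤ) : ℚ) ≤ -1 := by exact_mod_cast h1
      have h6 : (r k : ℚ) < G := by
        have : r k < G := Nat.mod_lt _ hGpos
        exact_mod_cast this
      have h5 : 0 ≤ (G : ℚ) * g k := mul_nonneg hGQ.le (hg0 k)
      rw [h2] at h5
      nlinarith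
    choose t ht0 ht using hgk
    have ht0Q : ∀ k, (0 : ℚ) ≤ t k := fun k => by exact_mod_cast ht0 k
    have hsumG : (G : ℚ) * ∑ k, g k = ∑ k, (r k : ℚ) + G * ∑ k, (t k : ℚ) := by
      rw [Finset.mul_sum, Finset.mul_sum, ← Finset.sum_add_distrib]
      exact Finset.sum_congr rfl fun k _ => ht k
    have hTsum : 0 ≤ ∑ k, (t k : ℚ) := Finset.sum_nonneg fun k _ => ht0Q k
    have hn0Q : (0 : ℚ) ≤ n0 := by exact_mod_cast hn00
    have hAQ : (G : ℚ) < u + ∑ k, (r k : ℚ) := by exact_mod_cast hA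
    refine ⟨Or.inl ?_, ?_⟩
    · have h1 : (G : ℚ) * 1 < G * (θ + ∑ k, g k) := by
        rw [mul_add, hθdec, hsumG]
        have h2 := mul_nonneg hGQ.le hn0Q
        have h3 := mul_nonneg hGQ.le hTsum
        linarith
      exact lt_of_mul_lt_mul_left h1 hGQ.le
    · intro i hij
      have h1 := q_leQ Δ hN i j hij
      have h2 := hB i hij
      have h3 : (Δ.q : ℚ) * Δ.a j * (r i : ℚ) ≤ Δ.w i * ((u : ℚ) + ∑ k, (r k : ℚ) - G) := by
        have h4 : ((u + ∑ k, r k - G : ℕ) : ℚ) = (u : ℚ) + ∑ k, (r k : ℚ) - G := by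
          rw [Nat.cast_sub hA.le]; push_cast; ring
        rw [← h4]
        exact_mod_cast h2
      have h5 : (0 : ℚ) ≤ Δ.w i := by positivity
      have h6 : (t i : ℚ) ≤ ∑ k, (t k : ℚ) :=
        Finset.single_le_sum (f := fun k => (t k : ℚ)) (fun k _ => ht0Q k) (Finset.mem_univ i)
      have h7 : (G : ℚ) * ((Δ.q : ℚ) * Δ.a j * (e + g i)) ≤ G * (Δ.w i * (e + (θ + ∑ k, g k) - 1)) := by
        have e1 : (G : ℚ) * ((Δ.q : ℚ) * Δ.a j * (e + g i))
            = Δ.q * Δ.a j * (G * e) + Δ.q * Δ.a j * (G * g i) := by ring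
        have e2 : (G : ℚ) * (Δ.w i * (e + (θ + ∑ k, g k) - 1))
            = Δ.w i * (G * e + G * θ + G * ∑ k, g k - G) := by ring
        rw [e1, e2, ht i, hθdec, hsumG]
        have h8 : (Δ.q : ℚ) * Δ.a j * (G * e) ≤ Δ.w i * (G * e) :=
          mul_le_mul_of_nonneg_right h1 (mul_nonneg hGQ.le he)
        have h9 : (Δ.q : ℚ) * Δ.a j * (G * t i) ≤ Δ.w i * (G * t i) :=
          mul_le_mul_of_nonneg_right h1 (mul_nonneg hGQ.le (ht0Q i))
        have h10 : (Δ.w i : ℚ) * (G * t i) ≤ Δ.w i * (G * ∑ k, (t k : ℚ)) :=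
          mul_le_mul_of_nonneg_left (mul_le_mul_of_nonneg_left h6 hGQ.le) h5
        have h11 : 0 ≤ (Δ.w i : ℚ) * (G * n0) := mul_nonneg h5 (mul_nonneg hGQ.le hn0Q)
        nlinarith
      exact le_of_mul_le_mul_left h7 hGQ

end Pool.Agent.Lib.MPa7508c
end

section
/-!
# LDD: the canonical divisor and the log discrepancy
-/
set_option autoImplicit false
set_option linter.unusedSectionVars false

namespace Pool.Agent.Lib.MPa7508c

open MvPolynomial

noncomputable section

namespace LddM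

variable {m : ℕ} {Δ : Dat m} {K : Type} [Field K] [Algebra ℂ K] {x : Fin (m + 2) → K}

theorem mk_mem {d : ℕ} {P : MvPolynomial (Option (Fin (m + 2))) ℂ}
    (hP : IsWeightedHomogeneous Δ.ww P d) : mkF Δ.b P ∈ Δ.hm d :=
  Submodule.mem_map.2 ⟨P, hP, rfl⟩

/-- the coordinate `x_o` -/
def xo (Δ : Dat m) (o : Option (Fin (m + 2))) : Δ.R := mkF Δ.b (X o)

theorem xo_none : xo Δ none = Δ.x0 := rfl

theorem xo_some (i : Fin (m + 2)) : xo Δ (some i) = Δ.xx i := rfl

theorem one_mem : (1 : Δ.R) ∈ Δ.hm 0 := by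
  have := mk_mem (Δ := Δ) (isWeightedHomogeneous_one ℂ Δ.ww)
  rwa [map_one] at this

theorem xo_pow_mem (o : Option (Fin (m + 2))) (n : ℕ) : xo Δ o ^ n ∈ Δ.hm (n * Δ.ww o) := by
  have h1 := (isWeightedHomogeneous_X (R := ℂ) Δ.ww o).pow n
  have := mk_mem (Δ := Δ) h1
  rw [map_pow, smul_eq_mul] at this
  exact this

theorem x0_pow_mem (n : ℕ) : Δ.x0 ^ n ∈ Δ.hm n := by
  have := xo_pow_mem (Δ := Δ) none n
  rw [xo_none] at this
  simpa [Dat.ww] using this

theorem xx_pow_mem (i : Fin (m + 2)) (n : ℕ) : Δ.xx i ^ n ∈ Δ.hm (n * Δ.w i) := by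
  have := xo_pow_mem (Δ := Δ) (some i) n
  rw [xo_some] at this
  simpa [Dat.ww] using this

theorem alg_mem (c : ℂ) : algebraMap ℂ Δ.R c ∈ Δ.hm 0 := by
  have := mk_mem (Δ := Δ) (isWeightedHomogeneous_C (R := ℂ) Δ.ww c)
  simpa using this

theorem dh_x0 (h : IsFun Δ K x) : dh h Δ.x0 = 1 := by
  show dhP x (X none) = 1
  simp [dhP]

theorem dh_xx (h : IsFun Δ K x) (i : Fin (m + 2)) : dh h (Δ.xx i) = x i := by
  show dhP x (X (some i)) = x i
  simp [dhP]

theorem ord_one {v : ValuationSubring K} (hv : OrdLaws v) : ord v 1 = 0 := by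
  have := hv.mul 1 1 one_ne_zero one_ne_zero
  rw [mul_one] at this
  omega

theorem ord_pow {v : ValuationSubring K} (hv : OrdLaws v) {z : K} (hz : z ≠ 0) (n : ℕ) :
    ord v (z ^ n) = n * ord v z := by
  induction n with
  | zero => simp [ord_one hv]
  | succ n ih =>
    rw [pow_succ, hv.mul _ _ (pow_ne_zero n hz) hz, ih]
    push_cast
    ring

theorem ord_inv {v : ValuationSubring K} (hv : OrdLaws v) {z : K} (hz : z ≠ 0) :
    ord v z⁻¹ = - ord v z := by
  have := hv.mul z z⁻¹ hz (inv_ne_zero hz)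
  rw [mul_inv_cancel₀ hz, ord_one hv] at this
  omega

theorem mult_one (hR : RingLaws Δ) {p : Δ.R} (hp : Prime p) : mult p 1 = 0 := by
  by_contra hne
  have := (hR.mult_le p 1 1 hp (by
    have := hR.dom
    exact one_ne_zero)).1 (Nat.one_le_iff_ne_zero.2 hne)
  rw [pow_one] at this
  exact hp.not_isUnit (isUnit_of_dvd_one this)

theorem mult_eq_zero (hR : RingLaws Δ) {p r : Δ.R} (hp : Prime p) (hr : r ≠ 0) (h : ¬ p ∣ r) :
    mult p r = 0 := by
  by_contra hne
  have := (hR.mult_le p r 1 hp hr).1 (Nat.one_le_iff_ne_zero.2 hne)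
  rw [pow_one] at this
  exact h this

theorem mult_pow (hR : RingLaws Δ) {p r : Δ.R} (hp : Prime p) (hr : r ≠ 0) (n : ℕ) :
    mult p (r ^ n) = n * mult p r := by
  have := hR.dom
  induction n with
  | zero => simp [mult_one hR hp]
  | succ n ih =>
    rw [pow_succ, hR.mult_mul p _ _ hp (pow_ne_zero n hr) hr, ih]
    ring

/-- two primes dividing each other -/
theorem mult_prime (hR : RingLaws Δ) {p r : Δ.R} (hp : Prime p) (hr : Prime r) (h : p ∣ r) :
    mult p r = 1 := by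
  have := hR.dom
  have h1 : 1 ≤ mult p r := (hR.mult_le p r 1 hp hr.ne_zero).2 (by rwa [pow_one])
  have h2 : ¬ 2 ≤ mult p r := by
    intro h2
    have h3 := (hR.mult_le p r 2 hp hr.ne_zero).1 h2
    obtain ⟨c, hc⟩ := h3
    have h4 : r ∣ p := by
      have : r ∣ p ^ 2 * c := ⟨1, by rw [mul_one, hc]⟩
      have h5 := hp.associated_of_dvd hr h
      exact h5.symm.dvd
    obtain ⟨d, hd⟩ := h4
    have h6 : p * 1 = p * (p * c * d) := by
      calc p * 1 = r * d := by rw [mul_one]; exact hd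
        _ = p * (p * c * d) := by rw [hc]; ring
    have h7 := mul_left_cancel₀ hp.ne_zero h6
    exact hp.not_isUnit (isUnit_of_dvd_one ⟨c * d, by rw [h7]; ring⟩)
  omega

theorem not_dvd_xx (hR : RingLaws Δ) {p : Δ.R} (hp : Prime p) (h : p ∣ Δ.x0) (i : Fin (m + 2)) :
    ¬ p ∣ Δ.xx i := by
  have := hR.dom
  intro h1
  have := (hp.associated_of_dvd hR.x0prime h).symm.dvd.trans h1
  exact hR.x0x i this

theorem xo_prime (hR : RingLaws Δ) (o : Option (Fin (m + 2))) : Prime (xo Δ o) := by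
  cases o with
  | none => exact hR.x0prime
  | some i => exact hR.xprime i

theorem hv_one {v : ValuationSubring K} (hv' : OrdLaws v) : hv Δ x v 0 1 = 0 := by
  simp [hv, ord_one hv']

end LddM

open LddM

/-- LDD -/
theorem specLDD (hORD : SpecORD) (hRNG : SpecRNG) (hOMF : SpecOMF) (hOMD : SpecOMD)
    (hPULL : SpecPULL) : SpecLDD := by
  intro m Δ hm hU K _ _ x h
  have hR := hRNG m Δ hm
  have := hR.dom
  have hrep : IsRep h (canDiv (omega Δ x)) 0 Δ.q 1 (Δ.x0 ^ Δ.q) := by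
    refine ⟨one_mem, x0_pow_mem _, one_ne_zero, pow_ne_zero _ hR.x0prime.ne_zero, ?_⟩
    intro F p k hp
    rw [mult_one hR hp.prime, mult_pow hR hp.prime hR.x0prime.ne_zero]
    show ordForm F (omega Δ x) = _
    by_cases hd : p ∣ Δ.x0
    · rw [hOMD m Δ hm K x h F p k hp hd, mult_prime hR hp.prime hR.x0prime hd]
      push_cast
      ring
    · rw [hOMF m Δ hm K x h F p k hp hd, mult_eq_zero hR hp.prime hR.x0prime.ne_zero hd]
      push_cast
      ring
  refine ⟨hrep, fun v hv' A => ?_⟩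
  have hO := hORD K v hv'.2.1
  have hP := hPULL m Δ hm hU K x h _ _ _ _ _ hrep v hv'
  have hc : hv Δ x v 0 (dh h 1) - hv Δ x v Δ.q (dh h (Δ.x0 ^ Δ.q)) = - (Δ.q * gam0 Δ x v) := by
    rw [map_one, map_pow, dh_x0, one_pow, hv_one hO]
    simp [hv, ord_one hO]
  constructor
  · rintro ⟨c, hc1, hA⟩
    rw [hP, hc] at hc1
    rw [hA, hc1]
    simp [LD]
  · intro hA
    refine ⟨_, (hP _).2 rfl, ?_⟩
    rw [hc, hA]
    simp [LD]

end

end Pool.Agent.Lib.MPa7508c
end

section
/-!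
# AMP: the anticanonical divisor is ample, the stalks are integrally closed
-/
set_option autoImplicit false
set_option linter.unusedSectionVars false

namespace Pool.Agent.Lib.MPa7508c

open MvPolynomial

noncomputable section

namespace AmpM

open AlgebraicGeometry

/-- the stalk is isomorphic to the local ring in `K` -/
theorem stalk_closed (V : CVar) (y : V.X) (h : IsIntegrallyClosed (V.loc y)) :
    IsIntegrallyClosed (V.X.presheaf.stalk y) := by
  have hinj := IsFractionRing.injective (V.X.presheaf.stalk y) V.X.functionField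
  let f : V.X.presheaf.stalk y →+* V.loc y :=
    (V.e.symm.toRingHom.comp (algebraMap (V.X.presheaf.stalk y) V.X.functionField)).codRestrict
      (V.loc y) (fun a => by
        show V.e (V.e.symm (algebraMap (V.X.presheaf.stalk y) V.X.functionField a)) ∈
          (algebraMap (V.X.presheaf.stalk y) V.X.functionField).range
        rw [RingEquiv.apply_symm_apply]
        exact ⟨a, rfl⟩)
  have hf : Function.Bijective f := by
    constructor
    · intro a b hab
      have h1 := congrArg Subtype.val hab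
      exact hinj (V.e.symm.injective h1)
    · rintro ⟨z, hz⟩
      obtain ⟨a, ha⟩ : V.e z ∈ (algebraMap (V.X.presheaf.stalk y) V.X.functionField).range := hz
      refine ⟨a, Subtype.ext ?_⟩
      show V.e.symm (algebraMap (V.X.presheaf.stalk y) V.X.functionField a) = z
      rw [ha, RingEquiv.symm_apply_apply]
  exact IsIntegrallyClosed.of_equiv (RingEquiv.ofBijective f hf).symm

end AmpM

open LddM AmpM in
/-- AMP -/
theorem specAMP (hRNG : SpecRNG) (hFUN : SpecFUN) (hDIVX : SpecDIVX) (hDIVO : SpecDIVO)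
    (hTHR : SpecTHR) (hLDD : SpecLDD) (hNORM : SpecNORM) : SpecAMP := by
  intro m Δ hm hU hN V x hV
  have hR := hRNG m Δ hm
  have := hR.dom
  have h := hV.isFun
  have hf := hFUN m Δ hm V.K x h
  have hrep := (hLDD m Δ hm hU V.K x h).1
  have hq : 0 < Δ.q := by
    have := hN.index
    omega
  have hloc : ∀ y : V.X, ∃ 𝔓, IsLocAt Δ x 𝔓 (V.loc y) := by
    intro y
    have h1 : V.loc y ∈ V.locals := ⟨y, rfl⟩
    rw [hV.locals] at h1
    exact h1
  have hww : ∀ κ, 0 < Δ.ww κ := by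
    intro κ
    cases κ with
    | none => exact Nat.one_pos
    | some i => exact Δ.wt.pos i
  refine ⟨?_, fun y => stalk_closed V y (hNORM m Δ hm hU V.K x h _ ?_)⟩
  swap
  · obtain ⟨𝔓, h𝔓⟩ := hloc y
    exact ⟨𝔓, h𝔓⟩
  -- the value at a prime divisor
  have hval : ∀ (κ : Option (Fin (m + 2))) (F : ValuationSubring V.K) (p : Δ.R) (e : ℕ),
      IsDivOf h F p e → ord F (dh h (xo Δ κ ^ Δ.q)) + (Δ.ww κ : ℤ) * (- canDiv (omega Δ x) F) =
        (Δ.q : ℤ) * mult p (xo Δ κ) := by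
    intro κ F p e hp
    have h0 := (xo_prime hR κ).ne_zero
    have h1 := ((hDIVX m Δ hm V.K x h).2 F p e hp).2 _ _ (xo_pow_mem κ Δ.q) (pow_ne_zero _ h0)
    have h2 := hrep.eq F p e hp
    rw [mult_one hR hp.prime, mult_pow hR hp.prime hR.x0prime.ne_zero] at h2
    rw [h2]
    by_cases hd : p ∣ Δ.x0
    · rw [h1.2 hd, mult_pow hR hp.prime h0, mult_prime hR hp.prime hR.x0prime hd]
      push_cast
      ring
    · rw [h1.1 hd, mult_pow hR hp.prime h0, mult_eq_zero hR hp.prime hR.x0prime.ne_zero hd]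
      push_cast
      ring
  intro y
  obtain ⟨𝔓, h𝔓⟩ := hloc y
  obtain ⟨κ, hκ⟩ := h𝔓.irrel
  obtain ⟨U, hUa, hUy⟩ := hV.affine κ
  have h0 := (xo_prime hR κ).ne_zero
  refine ⟨Δ.ww κ, dh h (xo Δ κ ^ Δ.q), U, hww κ, ⟨?_, ?_⟩, hUa, (hUy y 𝔓 h𝔓).2 hκ, ?_⟩
  · intro h1
    exact pow_ne_zero _ h0 (hf.inj _ _ (xo_pow_mem κ Δ.q) h1)
  · intro F hF
    rw [hV.locals] at hF
    obtain ⟨p, e, hp⟩ := hDIVO m Δ hm hU V.K x h F hF
    rw [hval κ F p e hp]
    positivity
  · intro y'
    obtain ⟨𝔓', h𝔓'⟩ := hloc y'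
    rw [hUy y' 𝔓' h𝔓', hV.locals]
    constructor
    · intro h1 F hF hle
      obtain ⟨p, e, hp⟩ := hDIVO m Δ hm hU V.K x h F hF
      rw [hval κ F p e hp]
      have h2 : ¬ p ∣ xo Δ κ := by
        intro h3
        obtain ⟨P, -, rfl⟩ := Submodule.mem_map.1 hp.hom
        have h4 : P ∈ 𝔓' := ((hTHR m Δ hm V.K x h F _ e hp).1 𝔓' _ h𝔓' P rfl).1 hle
        obtain ⟨c, hc⟩ := h3
        obtain ⟨C, rfl⟩ := Ideal.Quotient.mk_surjective c
        have h5 : X κ - P * C ∈ Ideal.span {fp _ Δ.b} := by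
          rw [← Ideal.Quotient.eq_zero_iff_mem, map_sub, map_mul, sub_eq_zero]
          exact hc
        have h6 : X κ - P * C ∈ 𝔓' := (Ideal.span_singleton_le_iff_mem 𝔓').2 h𝔓'.fp_mem h5
        have h7 := 𝔓'.add_mem h6 (𝔓'.mul_mem_right C h4)
        rw [sub_add_cancel] at h7
        exact h1 h7
      rw [mult_eq_zero hR hp.prime h0 h2]
      simp
    · intro h1 h2
      have h3 := xo_pow_mem (Δ := Δ) κ 1
      rw [pow_one, one_mul] at h3
      obtain ⟨F, hF⟩ := (hDIVX m Δ hm V.K x h).1 (xo Δ κ) _ h3 (xo_prime hR κ)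
      have h4 := ((hDIVX m Δ hm V.K x h).2 F _ _ hF).1
      have h5 := ((hTHR m Δ hm V.K x h F _ _ hF).1 𝔓' _ h𝔓' (X κ) rfl).2 h2
      have h6 := h1 F h4 h5
      rw [hval κ F _ _ hF, mult_prime hR hF.prime hF.prime dvd_rfl] at h6
      simp at h6
      omega

end

end Pool.Agent.Lib.MPa7508c
end

section
/-!
# Assembly: the last modules imply the main assertion
-/
set_option autoImplicit false

namespace Pool.Agent.Lib.MPa7508c

theorem assembly (hPRJ : SpecPRJ) (hFUN : SpecFUN) (hDER : SpecDER) (hCHAIN : SpecCHAIN)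
    (hNUM : SpecNUM) (hWQC : SpecWQC) (hTER : SpecTER) (hSUP : SpecSUP) (hKUN : SpecKUN)
    (hAMP : SpecAMP) : MainAssertion := by
  obtain ⟨V, x, hV⟩ := hPRJ 10 dat0 (by norm_num)
  have h1 : 1 ≤ 10 := by norm_num
  have hloc := hV.locals
  obtain ⟨hweil, hqf, hcl⟩ := hWQC 10 dat0 h1 hCHAIN hNUM V.K x hV.isFun
  have hter := hTER 10 dat0 h1 hCHAIN hNUM V.K x hV.isFun
  have hsup := hSUP 10 dat0 h1 hCHAIN hNUM V.K x hV.isFun
  have hkun := hKUN 10 dat0 h1 hCHAIN hNUM V.K x hV.isFun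
  obtain ⟨hamp, hnorm⟩ := hAMP 10 dat0 h1 hCHAIN hNUM V x hV
  have hfun := hFUN 10 dat0 h1 V.K x hV.isFun
  rw [← hloc] at hweil hqf hcl hter hsup hkun
  refine ⟨V, omega dat0 x, ⟨hV.proper, hnorm, ?_, (hDER 10 dat0 h1 V.K x hV.isFun).1, hweil, hqf,
    hter, hcl, hamp⟩, hsup, hkun⟩
  have := hfun.trdeg
  exact_mod_cast this

end Pool.Agent.Lib.MPa7508c
end

section
/-!
# VH: the laws of the extended valuation
-/
set_option autoImplicit false
set_option linter.unusedSectionVars false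
set_option linter.unusedVariables false

namespace Pool.Agent.Lib.MPa7508c

open MvPolynomial

noncomputable section

namespace VhM

section Ord

variable {K : Type} [Field K] {v : ValuationSubring K}

theorem ord_one (L : OrdLaws v) : ord v (1 : K) = 0 := by
  have := L.mul 1 1 one_ne_zero one_ne_zero
  rw [mul_one] at this
  omega

theorem ord_pow (L : OrdLaws v) {z : K} (hz : z ≠ 0) (n : ℕ) : ord v (z ^ n) = n * ord v z := by
  induction n with
  | zero => simp [ord_one L]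
  | succ n ih =>
    rw [pow_succ, L.mul _ _ (pow_ne_zero n hz) hz, ih]
    push_cast
    ring

theorem ord_inv (L : OrdLaws v) {z : K} (hz : z ≠ 0) : ord v z⁻¹ = - ord v z := by
  have := L.mul z z⁻¹ hz (inv_ne_zero hz)
  rw [mul_inv_cancel₀ hz, ord_one L] at this
  omega

theorem ord_div (L : OrdLaws v) {z y : K} (hz : z ≠ 0) (hy : y ≠ 0) :
    ord v (z / y) = ord v z - ord v y := by
  rw [div_eq_mul_inv, L.mul _ _ hz (inv_ne_zero hy), ord_inv L hy]
  ring

theorem ord_zpow (L : OrdLaws v) {z : K} (hz : z ≠ 0) (n : ℤ) : ord v (z ^ n) = n * ord v z := by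
  cases n with
  | ofNat n => simpa using ord_pow L hz n
  | negSucc n =>
    rw [zpow_negSucc, ord_inv L (pow_ne_zero _ hz), ord_pow L hz]
    rw [Int.negSucc_eq]
    push_cast
    ring

theorem ord_neg (L : OrdLaws v) (z : K) : ord v (-z) = ord v z := by
  by_cases hz : z = 0
  · rw [hz, neg_zero]
  have h1 : ord v (-1 : K) = 0 := by
    have h := L.mul (-1) (-1) (by simp) (by simp)
    rw [show (-1 : K) * -1 = 1 by ring, ord_one L] at h
    omega
  have := L.mul (-1) z (by simp) hz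
  rw [neg_one_mul, h1] at this
  omega

theorem ord_prod (L : OrdLaws v) {ι : Type*} (s : Finset ι) (f : ι → K) (hf : ∀ i ∈ s, f i ≠ 0) :
    ord v (∏ i ∈ s, f i) = ∑ i ∈ s, ord v (f i) := by
  classical
  induction s using Finset.induction_on with
  | empty => simp [ord_one L]
  | insert a s ha ih =>
    rw [Finset.prod_insert ha, Finset.sum_insert ha, L.mul _ _ (hf a (Finset.mem_insert_self a s))
      (Finset.prod_ne_zero_iff.2 fun i hi => hf i (Finset.mem_insert_of_mem hi)),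
      ih fun i hi => hf i (Finset.mem_insert_of_mem hi)]

theorem ord_unit (L : OrdLaws v) {z : K} (hz : z ≠ 0) (h1 : z ∈ v) (h2 : z⁻¹ ∈ v) :
    ord v z = 0 := by
  have a := (L.nonneg z hz).2 h1
  have b := (L.nonneg z⁻¹ (inv_ne_zero hz)).2 h2
  rw [ord_inv L hz] at b
  omega

theorem ord_const [Algebra ℂ K] (L : OrdLaws v) (hc : ∀ c : ℂ, algebraMap ℂ K c ∈ v) {c : ℂ}
    (h : c ≠ 0) : ord v (algebraMap ℂ K c) = 0 := by
  apply ord_unit L _ (hc c) _
  · simpa using h
  · rw [← map_inv₀]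
    exact hc c⁻¹

/-- `z = 0` or `M < ord z` -/
def Gt (v : ValuationSubring K) (M : ℚ) (z : K) : Prop := z = 0 ∨ M < (ord v z : ℚ)

/-- `z = 0` or `M ≤ ord z` -/
def Ge (v : ValuationSubring K) (M : ℚ) (z : K) : Prop := z = 0 ∨ M ≤ (ord v z : ℚ)

theorem Gt.ge {M : ℚ} {z : K} (h : Gt v M z) : Ge v M z := h.imp id le_of_lt

theorem gt_zero (M : ℚ) : Gt v M (0 : K) := Or.inl rfl

theorem ge_zero (M : ℚ) : Ge v M (0 : K) := Or.inl rfl

theorem gt_add (L : OrdLaws v) {M : ℚ} {z y : K} (hz : Gt v M z) (hy : Gt v M y) :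
    Gt v M (z + y) := by
  by_cases h1 : z = 0
  · rw [h1, zero_add]; exact hy
  by_cases h2 : y = 0
  · rw [h2, add_zero]; exact hz
  by_cases h3 : z + y = 0
  · exact Or.inl h3
  right
  have hz' := hz.resolve_left h1
  have hy' := hy.resolve_left h2
  have := L.add z y h1 h2 h3
  have h4 : (min (ord v z) (ord v y) : ℤ) ≤ ord v (z + y) := this
  rcases min_le_iff.1 h4 with h | h
  · exact lt_of_lt_of_le hz' (by exact_mod_cast h)
  · exact lt_of_lt_of_le hy' (by exact_mod_cast h)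

theorem ge_add (L : OrdLaws v) {M : ℚ} {z y : K} (hz : Ge v M z) (hy : Ge v M y) :
    Ge v M (z + y) := by
  by_cases h1 : z = 0
  · rw [h1, zero_add]; exact hy
  by_cases h2 : y = 0
  · rw [h2, add_zero]; exact hz
  by_cases h3 : z + y = 0
  · exact Or.inl h3
  right
  have hz' := hz.resolve_left h1
  have hy' := hy.resolve_left h2
  have h4 : (min (ord v z) (ord v y) : ℤ) ≤ ord v (z + y) := L.add z y h1 h2 h3
  rcases min_le_iff.1 h4 with h | h
  · exact le_trans hz' (by exact_mod_cast h)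
  · exact le_trans hy' (by exact_mod_cast h)

theorem gt_neg (L : OrdLaws v) {M : ℚ} {z : K} (hz : Gt v M z) : Gt v M (-z) := by
  rcases hz with h | h
  · left; rw [h, neg_zero]
  · right; rw [ord_neg L]; exact h

theorem gt_sum (L : OrdLaws v) {ι : Type*} (s : Finset ι) (f : ι → K) {M : ℚ}
    (hf : ∀ i ∈ s, Gt v M (f i)) : Gt v M (∑ i ∈ s, f i) :=
  Finset.sum_induction f (Gt v M) (fun _ _ h1 h2 => gt_add L h1 h2) (gt_zero M) hf

theorem ge_sum (L : OrdLaws v) {ι : Type*} (s : Finset ι) (f : ι → K) {M : ℚ}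
    (hf : ∀ i ∈ s, Ge v M (f i)) : Ge v M (∑ i ∈ s, f i) :=
  Finset.sum_induction f (Ge v M) (fun _ _ h1 h2 => ge_add L h1 h2) (ge_zero M) hf

theorem gt_mul (L : OrdLaws v) {M N : ℚ} {z y : K} (hz : Ge v M z) (hy : Gt v N y) :
    Gt v (M + N) (z * y) := by
  by_cases h1 : z = 0
  · left; rw [h1, zero_mul]
  by_cases h2 : y = 0
  · left; rw [h2, mul_zero]
  right
  rw [L.mul z y h1 h2]
  push_cast
  linarith [hz.resolve_left h1, hy.resolve_left h2]

theorem gt_mul' (L : OrdLaws v) {M N : ℚ} {z y : K} (hz : Gt v M z) (hy : Ge v N y) :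
    Gt v (M + N) (z * y) := by
  rw [mul_comm, add_comm]
  exact gt_mul L hy hz

theorem ge_mul (L : OrdLaws v) {M N : ℚ} {z y : K} (hz : Ge v M z) (hy : Ge v N y) :
    Ge v (M + N) (z * y) := by
  by_cases h1 : z = 0
  · left; rw [h1, zero_mul]
  by_cases h2 : y = 0
  · left; rw [h2, mul_zero]
  right
  rw [L.mul z y h1 h2]
  push_cast
  linarith [hz.resolve_left h1, hy.resolve_left h2]

theorem not_gt {M : ℚ} {z : K} (h : ¬ Gt v M z) : z ≠ 0 ∧ (ord v z : ℚ) ≤ M := by
  unfold Gt at h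
  push Not at h
  exact h

theorem gt_mono {M N : ℚ} (h : M ≤ N) {z : K} (hz : Gt v N z) : Gt v M z :=
  hz.imp id fun h1 => lt_of_le_of_lt h h1

end Ord

section

variable {m : ℕ} {Δ : Dat m} {K : Type} [Field K] [Algebra ℂ K] {x : Fin (m + 2) → K}

/-- the coordinates, `x_0 = 1` included -/
def xo (x : Fin (m + 2) → K) (o : Option (Fin (m + 2))) : K := o.elim 1 x

theorem dhP_X (o : Option (Fin (m + 2))) : dhP x (X o) = xo x o := by
  rw [dhP, aeval_X]; rfl

theorem xo_ne (hx : ∀ i, x i ≠ 0) (o : Option (Fin (m + 2))) : xo x o ≠ 0 := by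
  cases o with
  | none => exact one_ne_zero
  | some i => exact hx i

/-- `γ_o` for all `o`, `none` included -/
def go (Δ : Dat m) (x : Fin (m + 2) → K) (v : ValuationSubring K) (o : Option (Fin (m + 2))) : ℚ :=
  ord v (xo x o) + Δ.ww o * gam0 Δ x v

theorem go_some (v : ValuationSubring K) (i : Fin (m + 2)) :
    go Δ x v (some i) = gam Δ x v i := rfl

theorem go_none {v : ValuationSubring K} (L : OrdLaws v) :
    go Δ x v none = gam0 Δ x v := by
  unfold go xo Dat.ww
  simp only [Option.elim]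
  rw [ord_one L]
  simp

theorem gam0_nonneg (v : ValuationSubring K) : 0 ≤ gam0 Δ x v := by
  have := Finset.le_sup' (f := fun o : Option (Fin (m + 2)) =>
    (o.elim 0 (fun i => -(ord v (x i) : ℚ) / Δ.w i) : ℚ)) (Finset.mem_univ none)
  exact this

theorem gam_nonneg (v : ValuationSubring K) (i : Fin (m + 2)) : 0 ≤ gam Δ x v i := by
  have := Finset.le_sup' (f := fun o : Option (Fin (m + 2)) =>
    (o.elim 0 (fun i => -(ord v (x i) : ℚ) / Δ.w i) : ℚ)) (Finset.mem_univ (some i))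
  have h : -(ord v (x i) : ℚ) / Δ.w i ≤ gam0 Δ x v := this
  have hw : (0 : ℚ) < Δ.w i := by exact_mod_cast Δ.wt.pos i
  rw [div_le_iff₀ hw] at h
  unfold gam
  linarith

theorem exists_zero (v : ValuationSubring K) :
    gam0 Δ x v = 0 ∨ ∃ i, gam Δ x v i = 0 := by
  obtain ⟨o, -, ho⟩ := Finset.exists_mem_eq_sup' (s := Finset.univ)
    ⟨none, Finset.mem_univ _⟩ (fun o : Option (Fin (m + 2)) =>
    (o.elim 0 (fun i => -(ord v (x i) : ℚ) / Δ.w i) : ℚ))
  have ho' : gam0 Δ x v = o.elim 0 (fun i => -(ord v (x i) : ℚ) / Δ.w i) := ho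
  cases o with
  | none => exact Or.inl ho'
  | some i =>
    right
    refine ⟨i, ?_⟩
    have hw : (0 : ℚ) < Δ.w i := by exact_mod_cast Δ.wt.pos i
    unfold gam
    rw [ho']
    simp only [Option.elim]
    field_simp
    ring

theorem go_nonneg {v : ValuationSubring K} (L : OrdLaws v) (o : Option (Fin (m + 2))) :
    0 ≤ go Δ x v o := by
  cases o with
  | none => rw [go_none L]; exact gam0_nonneg v
  | some i => exact gam_nonneg v i

theorem wt_mul (i : Fin (m + 2)) : (Δ.a i : ℚ) * Δ.w i = Δ.L := by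
  exact_mod_cast Δ.wt.mul i

/-- the order of `x_i ^ a_i` -/
theorem ord_term {v : ValuationSubring K} (L : OrdLaws v) (hx : ∀ i, x i ≠ 0) (i : Fin (m + 2)) :
    (ord v (x i ^ Δ.a i) : ℚ) = Δ.a i * gam Δ x v i - Δ.L * gam0 Δ x v := by
  rw [ord_pow L (hx i)]
  push_cast
  unfold gam
  rw [← wt_mul i]
  ring

theorem a_pos (i : Fin (m + 2)) : (0 : ℚ) < Δ.a i := by
  have := Δ.wt.two_le i
  have h : 0 < Δ.a i := by omega
  exact_mod_cast h

theorem two (h : IsFun Δ K x) {v : ValuationSubring K} (L : OrdLaws v) (hx : ∀ i, x i ≠ 0) :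
    ∃ j, gam Δ x v j = 0 ∧ (gam0 Δ x v = 0 ∨ ∃ l, l ≠ j ∧ gam Δ x v l = 0) := by
  by_contra hcon
  push Not at hcon
  have hL : (0 : ℚ) < Δ.L := by
    have := Δ.two_le_L
    have h : 0 < Δ.L := by omega
    exact_mod_cast h
  rcases exists_zero (Δ := Δ) (x := x) v with h0 | ⟨j, hj⟩
  · -- all terms `x_i ^ a_i` have positive order
    have h1 : ∀ i, 0 < gam Δ x v i := by
      intro i
      rcases lt_or_eq_of_le (gam_nonneg (Δ := Δ) (x := x) v i) with h | h
      · exact h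
      · exact absurd h0 (hcon i h.symm).1
    have h2 : Gt v 0 (∑ i, x i ^ Δ.a i) := by
      apply gt_sum L
      intro i _
      right
      rw [ord_term L hx, h0, mul_zero, sub_zero]
      exact mul_pos (a_pos i) (h1 i)
    have h3 : ∑ i, x i ^ Δ.a i = -1 := by
      have := h.eqn
      linear_combination this
    rw [h3] at h2
    rcases h2 with h2 | h2
    · exact absurd h2 (by simp)
    · rw [ord_neg L, ord_one L] at h2
      simp at h2
  · obtain ⟨h0, h1⟩ := hcon j hj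
    have h0' : 0 < gam0 Δ x v := lt_of_le_of_ne (gam0_nonneg v) (Ne.symm h0)
    have h2 : Gt v (-(Δ.L * gam0 Δ x v)) (1 + ∑ i ∈ Finset.univ.erase j, x i ^ Δ.a i) := by
      apply gt_add L
      · right
        rw [ord_one L]
        simp only [Int.cast_zero, Left.neg_neg_iff]
        exact mul_pos hL h0'
      · apply gt_sum L
        intro i hi
        right
        rw [ord_term L hx]
        have : 0 < gam Δ x v i := lt_of_le_of_ne (gam_nonneg v i)
          (Ne.symm (h1 i (Finset.ne_of_mem_erase hi)))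
        have := mul_pos (a_pos (Δ := Δ) i) this
        linarith
    have h3 : 1 + ∑ i ∈ Finset.univ.erase j, x i ^ Δ.a i = -(x j ^ Δ.a j) := by
      have := h.eqn
      rw [← Finset.add_sum_erase _ _ (Finset.mem_univ j)] at this
      linear_combination this
    rw [h3] at h2
    rcases h2 with h2 | h2
    · rw [neg_eq_zero] at h2
      exact pow_ne_zero _ (hx j) h2
    · rw [ord_neg L, ord_term L hx, hj] at h2
      linarith

/-- the order of a monomial -/
theorem ord_monomial {v : ValuationSubring K} (L : OrdLaws v) (hx : ∀ i, x i ≠ 0)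
    (α : Option (Fin (m + 2)) →₀ ℕ) :
    (ord v (∏ o, xo x o ^ α o) : ℚ) =
      ∑ o, (α o : ℚ) * go Δ x v o - (Finsupp.weight Δ.ww α : ℕ) * gam0 Δ x v := by
  rw [ord_prod L _ _ (fun o _ => pow_ne_zero _ (xo_ne hx o))]
  have h1 : ∀ o, ord v (xo x o ^ α o) = α o * ord v (xo x o) := fun o => ord_pow L (xo_ne hx o) _
  simp only [h1]
  have h2 : (Finsupp.weight Δ.ww α : ℕ) = ∑ o, α o * Δ.ww o := by
    rw [Finsupp.weight_apply, Finsupp.sum_fintype]
    · simp
    · simp
  rw [h2]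
  push_cast
  rw [Finset.sum_mul, ← Finset.sum_sub_distrib]
  refine Finset.sum_congr rfl fun o _ => ?_
  unfold go
  ring

theorem dhP_eq (P : MvPolynomial (Option (Fin (m + 2))) ℂ) :
    dhP x P = ∑ α ∈ P.support, algebraMap ℂ K (coeff α P) * ∏ o, xo x o ^ α o := by
  rw [dhP, aeval_def, eval₂_eq']
  rfl

theorem ge_dhP (h : IsFun Δ K x) {v : ValuationSubring K} (L : OrdLaws v)
    (hc : ∀ c : ℂ, algebraMap ℂ K c ∈ v) (hx : ∀ i, x i ≠ 0) {d : ℕ}
    {P : MvPolynomial (Option (Fin (m + 2))) ℂ} (hP : IsWeightedHomogeneous Δ.ww P d) :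
    Ge v (-(d * gam0 Δ x v)) (dhP x P) := by
  rw [dhP_eq]
  apply ge_sum L
  intro α hα
  have hcα : coeff α P ≠ 0 := mem_support_iff.1 hα
  have h1 : algebraMap ℂ K (coeff α P) ≠ 0 := by simpa using hcα
  have h2 : ∏ o, xo x o ^ α o ≠ 0 :=
    Finset.prod_ne_zero_iff.2 fun o _ => pow_ne_zero _ (xo_ne hx o)
  right
  rw [L.mul _ _ h1 h2, ord_const L hc hcα, zero_add, ord_monomial (Δ := Δ) L hx, hP hcα]
  have : 0 ≤ ∑ o, (α o : ℚ) * go Δ x v o :=
    Finset.sum_nonneg fun o _ => mul_nonneg (by positivity) (go_nonneg L o)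
  linarith

/-- the homomorphism `X_o ↦ x_o T ^ w_o` -/
def Φ (Δ : Dat m) (x : Fin (m + 2) → K) :
    MvPolynomial (Option (Fin (m + 2))) ℂ →ₐ[ℂ] Polynomial K :=
  aeval (fun o => Polynomial.C (xo x o) * Polynomial.X ^ Δ.ww o)

theorem Φ_monomial (α : Option (Fin (m + 2)) →₀ ℕ) (c : ℂ) :
    Φ Δ x (monomial α c) =
      Polynomial.monomial (Finsupp.weight Δ.ww α) (algebraMap ℂ K c * ∏ o, xo x o ^ α o) := by
  have h2 : (Finsupp.weight Δ.ww α : ℕ) = ∑ o, α o * Δ.ww o := by
    rw [Finsupp.weight_apply, Finsupp.sum_fintype]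
    · simp
    · simp
  rw [Φ, aeval_monomial, Finsupp.prod_fintype _ _ (by simp)]
  simp only [mul_pow, Finset.prod_mul_distrib, ← pow_mul]
  rw [Finset.prod_pow_eq_pow_sum, h2, ← Polynomial.C_mul_X_pow_eq_monomial]
  rw [Polynomial.C_mul, map_prod]
  simp only [Polynomial.C_pow, Polynomial.algebraMap_apply]
  rw [mul_assoc]
  congr 2
  congr 1
  exact Finset.sum_congr rfl fun o _ => mul_comm _ _

theorem Φ_hom {d : ℕ} {P : MvPolynomial (Option (Fin (m + 2))) ℂ}
    (hP : IsWeightedHomogeneous Δ.ww P d) : Φ Δ x P = Polynomial.monomial d (dhP x P) := by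
  conv_lhs => rw [P.as_sum]
  rw [map_sum, dhP_eq, map_sum]
  refine Finset.sum_congr rfl fun α hα => ?_
  rw [Φ_monomial, hP (mem_support_iff.1 hα)]

/-- the coefficients of `Φ P` -/
theorem coeff_Φ (d : ℕ) (P : MvPolynomial (Option (Fin (m + 2))) ℂ) :
    (Φ Δ x P).coeff d = dhP x (weightedHomogeneousComponent Δ.ww d P) := by
  have h1 : P = ∑ᶠ e, weightedHomogeneousComponent Δ.ww e P :=
    (sum_weightedHomogeneousComponent Δ.ww P).symm
  have hfin : (Function.support fun e => weightedHomogeneousComponent Δ.ww e P).Finite :=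
    weightedHomogeneousComponent_finsupp P
  have h2 : Φ Δ x P = ∑ e ∈ hfin.toFinset,
      Polynomial.monomial e (dhP x (weightedHomogeneousComponent Δ.ww e P)) := by
    conv_lhs => rw [h1, finsum_eq_sum_of_support_subset _ (s := hfin.toFinset) (by simp)]
    rw [map_sum]
    exact Finset.sum_congr rfl fun e _ =>
      Φ_hom (weightedHomogeneousComponent_isWeightedHomogeneous e P)
  rw [h2, Polynomial.finsetSum_coeff]
  simp only [Polynomial.coeff_monomial]
  rw [Finset.sum_ite_eq']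
  split_ifs with h
  · rfl
  · have : weightedHomogeneousComponent Δ.ww d P = 0 := by
      by_contra hne
      exact h (hfin.mem_toFinset.2 hne)
    rw [this, map_zero]

/-- the ideal of the centre -/
def PP (h : IsFun Δ K x) {v : ValuationSubring K} (L : OrdLaws v)
    (hc : ∀ c : ℂ, algebraMap ℂ K c ∈ v) (hx : ∀ i, x i ≠ 0) :
    Ideal (MvPolynomial (Option (Fin (m + 2))) ℂ) where
  carrier := {P | ∀ d : ℕ, Gt v (-(d * gam0 Δ x v)) ((Φ Δ x P).coeff d)}
  add_mem' := by
    intro P Q hP hQ d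
    rw [map_add, Polynomial.coeff_add]
    exact gt_add L (hP d) (hQ d)
  zero_mem' := by
    intro d
    rw [map_zero, Polynomial.coeff_zero]
    exact gt_zero _
  smul_mem' := by
    intro Q P hP d
    rw [smul_eq_mul, map_mul, Polynomial.coeff_mul]
    apply gt_sum L
    intro p hp
    have h1 : (-(d * gam0 Δ x v) : ℚ) = -(p.1 * gam0 Δ x v) + -(p.2 * gam0 Δ x v) := by
      have : (d : ℚ) = p.1 + p.2 := by
        exact_mod_cast (Finset.HasAntidiagonal.mem_antidiagonal.1 hp).symm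
      rw [this]; ring
    rw [h1]
    apply gt_mul L _ (hP p.2)
    rw [coeff_Φ]
    exact ge_dhP h L hc hx (weightedHomogeneousComponent_isWeightedHomogeneous p.1 Q)

theorem mem_PP (h : IsFun Δ K x) {v : ValuationSubring K} (L : OrdLaws v)
    (hc : ∀ c : ℂ, algebraMap ℂ K c ∈ v) (hx : ∀ i, x i ≠ 0) {d : ℕ}
    {P : MvPolynomial (Option (Fin (m + 2))) ℂ} (hP : IsWeightedHomogeneous Δ.ww P d) :
    P ∈ PP h L hc hx ↔ Gt v (-(d * gam0 Δ x v)) (dhP x P) := by
  constructor
  · intro hh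
    have := hh d
    rwa [Φ_hom hP, Polynomial.coeff_monomial, if_pos rfl] at this
  · intro hh e
    rw [Φ_hom hP, Polynomial.coeff_monomial]
    split_ifs with h1
    · rw [← h1]; exact hh
    · exact gt_zero _

theorem PP_prime (h : IsFun Δ K x) {v : ValuationSubring K} (L : OrdLaws v)
    (hc : ∀ c : ℂ, algebraMap ℂ K c ∈ v) (hx : ∀ i, x i ≠ 0) : (PP h L hc hx).IsPrime := by
  classical
  refine ⟨?_, ?_⟩
  · rw [Ideal.ne_top_iff_one]
    intro h1
    have h2 : IsWeightedHomogeneous Δ.ww (1 : MvPolynomial (Option (Fin (m + 2))) ℂ) 0 :=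
      isWeightedHomogeneous_one ℂ Δ.ww
    rw [mem_PP h L hc hx h2, map_one] at h1
    rcases h1 with h1 | h1
    · exact one_ne_zero h1
    · rw [ord_one L] at h1
      simp at h1
  · intro P Q hPQ
    by_contra hcon
    push Not at hcon
    obtain ⟨hP, hQ⟩ := hcon
    have hP' : ∃ d : ℕ, ¬ Gt v (-(d * gam0 Δ x v)) ((Φ Δ x P).coeff d) := by
      by_contra hh
      push Not at hh
      exact hP hh
    have hQ' : ∃ d : ℕ, ¬ Gt v (-(d * gam0 Δ x v)) ((Φ Δ x Q).coeff d) := by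
      by_contra hh
      push Not at hh
      exact hQ hh
    set d := Nat.find hP' with hd
    set e := Nat.find hQ' with he
    have hd1 := Nat.find_spec hP'
    have he1 := Nat.find_spec hQ'
    rw [← hd] at hd1
    rw [← he] at he1
    have hge : ∀ (R : MvPolynomial (Option (Fin (m + 2))) ℂ) (k : ℕ),
        Ge v (-(k * gam0 Δ x v)) ((Φ Δ x R).coeff k) := by
      intro R k
      rw [coeff_Φ]
      exact ge_dhP h L hc hx (weightedHomogeneousComponent_isWeightedHomogeneous k R)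
    have h1 := hPQ (d + e)
    rw [map_mul, Polynomial.coeff_mul] at h1
    have hmem : (d, e) ∈ Finset.HasAntidiagonal.antidiagonal (d + e) :=
      Finset.HasAntidiagonal.mem_antidiagonal.2 rfl
    rw [← Finset.add_sum_erase _ _ hmem] at h1
    have h2 : Gt v (-((d + e : ℕ) * gam0 Δ x v))
        (∑ p ∈ (Finset.HasAntidiagonal.antidiagonal (d + e)).erase (d, e),
          (Φ Δ x P).coeff p.1 * (Φ Δ x Q).coeff p.2) := by
      apply gt_sum L
      intro p hp
      have hp1 := Finset.HasAntidiagonal.mem_antidiagonal.1 (Finset.mem_of_mem_erase hp)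
      have hp2 := Finset.ne_of_mem_erase hp
      have h3 : (-((d + e : ℕ) * gam0 Δ x v) : ℚ) =
          -(p.1 * gam0 Δ x v) + -(p.2 * gam0 Δ x v) := by
        rw [← hp1]; push_cast; ring
      rw [h3]
      rcases lt_trichotomy p.1 d with h4 | h4 | h4
      · apply gt_mul' L _ (hge Q p.2)
        by_contra h5
        exact Nat.find_min hP' h4 h5
      · exfalso
        apply hp2
        ext
        · exact h4
        · show p.2 = e
          omega
      · apply gt_mul L (hge P p.1)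
        by_contra h5
        have h6 : p.2 < e := by omega
        exact Nat.find_min hQ' h6 h5
    have h3 := gt_add L h1 (gt_neg L h2)
    rw [add_neg_cancel_right] at h3
    obtain ⟨hd2, hd3⟩ := not_gt hd1
    obtain ⟨he2, he3⟩ := not_gt he1
    rcases h3 with h3 | h3
    · exact mul_ne_zero hd2 he2 h3
    · rw [L.mul _ _ hd2 he2] at h3
      push_cast at h3
      linarith

/-- homogeneous elements outside `PP` -/
theorem not_mem_PP (h : IsFun Δ K x) {v : ValuationSubring K} (L : OrdLaws v)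
    (hc : ∀ c : ℂ, algebraMap ℂ K c ∈ v) (hx : ∀ i, x i ≠ 0) {d : ℕ}
    {P : MvPolynomial (Option (Fin (m + 2))) ℂ} (hP : IsWeightedHomogeneous Δ.ww P d)
    (hn : P ∉ PP h L hc hx) : dhP x P ≠ 0 ∧ (ord v (dhP x P) : ℚ) = -(d * gam0 Δ x v) := by
  rw [mem_PP h L hc hx hP] at hn
  obtain ⟨h1, h2⟩ := not_gt hn
  refine ⟨h1, le_antisymm h2 ?_⟩
  exact (ge_dhP h L hc hx hP).resolve_left h1

/-- the local ring at a homogeneous prime ideal -/
def locR (Δ : Dat m) (x : Fin (m + 2) → K)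
    (𝔓 : Ideal (MvPolynomial (Option (Fin (m + 2))) ℂ)) (hp : 𝔓.IsPrime) : Subring K where
  carrier := {z | ∃ (d : ℕ) (P Q : MvPolynomial (Option (Fin (m + 2))) ℂ),
    IsWeightedHomogeneous Δ.ww P d ∧ IsWeightedHomogeneous Δ.ww Q d ∧ Q ∉ 𝔓 ∧
    z * dhP x Q = dhP x P}
  mul_mem' := by
    rintro z z' ⟨d, P, Q, h1, h2, h3, h4⟩ ⟨d', P', Q', h1', h2', h3', h4'⟩
    refine ⟨d + d', P * P', Q * Q', h1.mul h1', h2.mul h2', fun hh => ?_, ?_⟩
    · exact (hp.mem_or_mem hh).elim h3 h3'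
    · rw [map_mul, map_mul, ← h4, ← h4']
      ring
  one_mem' := ⟨0, 1, 1, isWeightedHomogeneous_one ℂ Δ.ww, isWeightedHomogeneous_one ℂ Δ.ww,
    (Ideal.ne_top_iff_one _).1 hp.ne_top, by simp⟩
  add_mem' := by
    rintro z z' ⟨d, P, Q, h1, h2, h3, h4⟩ ⟨d', P', Q', h1', h2', h3', h4'⟩
    refine ⟨d + d', P * Q' + Q * P', Q * Q', ?_, h2.mul h2', fun hh => ?_, ?_⟩
    · exact (h1.mul h2').add (h2.mul h1')
    · exact (hp.mem_or_mem hh).elim h3 h3'
    · rw [map_mul, map_add, map_mul, map_mul, ← h4, ← h4']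
      ring
  zero_mem' := ⟨0, 0, 1, isWeightedHomogeneous_zero ℂ Δ.ww 0, isWeightedHomogeneous_one ℂ Δ.ww,
    (Ideal.ne_top_iff_one _).1 hp.ne_top, by simp⟩
  neg_mem' := by
    rintro z ⟨d, P, Q, h1, h2, h3, h4⟩
    refine ⟨d, -P, Q, ?_, h2, h3, ?_⟩
    · have := (weightedHomogeneousSubmodule ℂ Δ.ww d).neg_mem
        ((mem_weightedHomogeneousSubmodule ℂ Δ.ww d P).2 h1)
      exact (mem_weightedHomogeneousSubmodule ℂ Δ.ww d (-P)).1 this
    · rw [map_neg, ← h4]
      ring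

theorem mkF_eq_zero {P : MvPolynomial (Option (Fin (m + 2))) ℂ} :
    mkF Δ.b P = 0 ↔ P ∈ Ideal.span {fp _ Δ.b} := Ideal.Quotient.eq_zero_iff_mem

theorem mkF_mem {d : ℕ} {P : MvPolynomial (Option (Fin (m + 2))) ℂ}
    (hP : IsWeightedHomogeneous Δ.ww P d) : mkF Δ.b P ∈ Δ.hm d :=
  Submodule.mem_map_of_mem (f := (mkF Δ.b).toLinearMap)
    ((mem_weightedHomogeneousSubmodule ℂ Δ.ww d P).2 hP)

theorem exists_lift {d : ℕ} {r : Δ.R} (hr : r ∈ Δ.hm d) :
    ∃ P : MvPolynomial (Option (Fin (m + 2))) ℂ, IsWeightedHomogeneous Δ.ww P d ∧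
      mkF Δ.b P = r := by
  obtain ⟨P, hP, rfl⟩ := Submodule.mem_map.1 hr
  exact ⟨P, (mem_weightedHomogeneousSubmodule ℂ Δ.ww d P).1 hP, rfl⟩

/-- a homogeneous polynomial which vanishes in `K` is a multiple of the Fermat polynomial -/
theorem mem_of_dhP_zero (h : IsFun Δ K x) (F : FunLaws h) {d : ℕ}
    {P : MvPolynomial (Option (Fin (m + 2))) ℂ} (hP : IsWeightedHomogeneous Δ.ww P d)
    (h0 : dhP x P = 0) {𝔓 : Ideal (MvPolynomial (Option (Fin (m + 2))) ℂ)}
    (hf : fp _ Δ.b ∈ 𝔓) : P ∈ 𝔓 := by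
  have h1 := F.inj d _ (mkF_mem hP) (by rw [dh_mk]; exact h0)
  rw [mkF_eq_zero] at h1
  exact (Ideal.span_singleton_le_iff_mem _).2 hf h1

theorem isWH_X (o : Option (Fin (m + 2))) :
    IsWeightedHomogeneous Δ.ww (X o : MvPolynomial (Option (Fin (m + 2))) ℂ) (Δ.ww o) :=
  isWeightedHomogeneous_X ℂ Δ.ww o

theorem center (h : IsFun Δ K x) (F : FunLaws h) {v : ValuationSubring K} (L : OrdLaws v)
    (hc : ∀ c : ℂ, algebraMap ℂ K c ∈ v) :
    ∃ 𝔓 O, IsLocAt Δ x 𝔓 O ∧ IsCenter (locs Δ x) v O := by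
  have hx := F.xne
  have hp := PP_prime h L hc hx
  have hloc : IsLocAt Δ x (PP h L hc hx) (locR Δ x (PP h L hc hx) hp) := by
    refine ⟨hp, ?_, ?_, ?_, fun z => Iff.rfl⟩
    · intro d
      have : Φ Δ x (fp _ Δ.b) = 0 := by
        have h1 : IsWeightedHomogeneous Δ.ww
            (fp (Option (Fin (m + 2))) Δ.b) Δ.L := by
          apply IsWeightedHomogeneous.sum
          intro o _
          have h2 := (isWH_X (Δ := Δ) o).pow (Δ.b o)
          have h3 : Δ.b o • Δ.ww o = Δ.L := by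
            cases o with
            | none => simp [Dat.b, Dat.ww]
            | some i => exact Δ.wt.mul i
          rwa [h3] at h2
        rw [Φ_hom h1, dhP_fp h, Polynomial.monomial_zero_right]
      rw [this, Polynomial.coeff_zero]
      exact gt_zero _
    · intro P hP d
      rw [mem_PP h L hc hx (weightedHomogeneousComponent_isWeightedHomogeneous d P), ← coeff_Φ]
      exact hP d
    · obtain ⟨j, hj, -⟩ := two h L hx
      refine ⟨some j, ?_⟩
      rw [mem_PP h L hc hx (isWH_X (some j)), dhP_X]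
      intro h1
      rcases h1 with h1 | h1
      · exact hx j h1
      · unfold gam at hj
        change -((Δ.w j : ℚ) * gam0 Δ x v) < (ord v (x j) : ℚ) at h1
        linarith
  refine ⟨PP h L hc hx, locR Δ x (PP h L hc hx) hp, hloc, ⟨_, hloc⟩, ?_, ?_⟩
  · rintro a ⟨d, P, Q, h1, h2, h3, h4⟩
    obtain ⟨h5, h6⟩ := not_mem_PP h L hc hx h2 h3
    by_cases ha : a = 0
    · rw [ha]; exact v.zero_mem
    rw [← L.nonneg a ha]
    have h7 : dhP x P ≠ 0 := by rw [← h4]; exact mul_ne_zero ha h5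
    have h8 := (ge_dhP h L hc hx h1).resolve_left h7
    rw [← h4, L.mul _ _ ha h5] at h8
    push_cast at h8
    have : (0 : ℚ) ≤ ord v a := by linarith
    exact_mod_cast this
  · rintro a ⟨d, P, Q, h1, h2, h3, h4⟩ hav
    obtain ⟨h5, h6⟩ := not_mem_PP h L hc hx h2 h3
    by_cases ha : a = 0
    · rw [ha, inv_zero]; exact Subring.zero_mem _
    have h7 : dhP x P ≠ 0 := by rw [← h4]; exact mul_ne_zero ha h5
    refine ⟨d, Q, P, h2, h1, ?_, ?_⟩
    · rw [mem_PP h L hc hx h1]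
      intro h8
      have h8 := h8.resolve_left h7
      rw [← h4, L.mul _ _ ha h5] at h8
      have h9 := (L.nonneg _ (inv_ne_zero ha)).2 hav
      rw [ord_inv L ha] at h9
      have h10 : (ord v a : ℚ) ≤ 0 := by
        have : ord v a ≤ 0 := by omega
        exact_mod_cast this
      push_cast at h8
      linarith
    · rw [← h4, ← mul_assoc, inv_mul_cancel₀ ha, one_mul]

/-- variables outside the centre have `γ = 0` -/
theorem go_zero (h : IsFun Δ K x) (F : FunLaws h) {v : ValuationSubring K} (L : OrdLaws v)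
    {𝔓 : Ideal (MvPolynomial (Option (Fin (m + 2))) ℂ)} {O : Subring K}
    (hloc : IsLocAt Δ x 𝔓 O) (hcen : IsCenter (locs Δ x) v O) {k : Option (Fin (m + 2))}
    (hk : X k ∉ 𝔓) : go Δ x v k = 0 := by
  have hx := F.xne
  obtain ⟨j, hj, -⟩ := two h L hx
  have hxk := xo_ne hx k
  have hmem : xo x (some j) ^ Δ.ww k / xo x k ^ Δ.ww (some j) ∈ O := by
    rw [hloc.mem]
    refine ⟨Δ.ww k * Δ.ww (some j), X (some j) ^ Δ.ww k, X k ^ Δ.ww (some j), ?_, ?_, ?_, ?_⟩
    · have := (isWH_X (Δ := Δ) (some j)).pow (Δ.ww k)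
      rwa [smul_eq_mul] at this
    · have := (isWH_X (Δ := Δ) k).pow (Δ.ww (some j))
      rwa [smul_eq_mul, mul_comm] at this
    · intro hh
      exact hk (hloc.prime.mem_of_pow_mem _ hh)
    · rw [map_pow, map_pow, dhP_X, dhP_X, div_mul_cancel₀ _ (pow_ne_zero _ hxk)]
  have hv := hcen.2.1 _ hmem
  have hne : xo x (some j) ^ Δ.ww k / xo x k ^ Δ.ww (some j) ≠ 0 :=
    div_ne_zero (pow_ne_zero _ (xo_ne hx _)) (pow_ne_zero _ hxk)
  have h1 := (L.nonneg _ hne).2 hv
  rw [ord_div L (pow_ne_zero _ (xo_ne hx _)) (pow_ne_zero _ hxk), ord_pow L (xo_ne hx _),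
    ord_pow L hxk] at h1
  have h2 : (0 : ℚ) ≤ Δ.ww k * (ord v (xo x (some j)) : ℚ) -
      Δ.ww (some j) * (ord v (xo x k) : ℚ) := by exact_mod_cast h1
  have h3 : (ord v (xo x (some j)) : ℚ) = - (Δ.ww (some j) * gam0 Δ x v) := by
    have : go Δ x v (some j) = 0 := hj
    unfold go at this
    linarith
  have h4 : (ord v (xo x k) : ℚ) = go Δ x v k - Δ.ww k * gam0 Δ x v := by
    unfold go; ring
  have h5 := go_nonneg (Δ := Δ) (x := x) L k
  have hw : (0 : ℚ) < Δ.ww (some j) := by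
    have := Δ.wt.pos j
    have h6 : 0 < Δ.ww (some j) := this
    exact_mod_cast h6
  rw [h3, h4] at h2
  have h6 : (Δ.ww (some j) : ℚ) * go Δ x v k ≤ 0 := by nlinarith
  have h7 : go Δ x v k ≤ 0 := by
    by_contra hh
    push Not at hh
    have := mul_pos hw hh
    linarith
  exact le_antisymm h7 h5

theorem ww_pos (o : Option (Fin (m + 2))) : 0 < Δ.ww o := by
  cases o with
  | none => exact Nat.one_pos
  | some i => exact Δ.wt.pos i

theorem uniq (h : IsFun Δ K x) (F : FunLaws h) {v : ValuationSubring K} (L : OrdLaws v)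
    (hc : ∀ c : ℂ, algebraMap ℂ K c ∈ v)
    (𝔓 : Ideal (MvPolynomial (Option (Fin (m + 2))) ℂ)) (O : Subring K)
    (hloc : IsLocAt Δ x 𝔓 O) (hcen : IsCenter (locs Δ x) v O)
    (d : ℕ) (P : MvPolynomial (Option (Fin (m + 2))) ℂ) (hP : IsWeightedHomogeneous Δ.ww P d) :
    P ∈ 𝔓 ↔ dhP x P = 0 ∨ 0 < hv Δ x v d (dhP x P) := by
  have hx := F.xne
  obtain ⟨k, hk⟩ := hloc.irrel
  have hgk := go_zero h F L hloc hcen hk
  have hxk := xo_ne hx k
  have hwk : (0 : ℚ) < Δ.ww k := by exact_mod_cast ww_pos k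
  have hne : ∀ Q : MvPolynomial (Option (Fin (m + 2))) ℂ, ∀ e, IsWeightedHomogeneous Δ.ww Q e →
      Q ∉ 𝔓 → dhP x Q ≠ 0 := fun Q e hQ hn h0 => hn (mem_of_dhP_zero h F hQ h0 hloc.fp_mem)
  have hXk : (X k : MvPolynomial (Option (Fin (m + 2))) ℂ) ^ d ∉ 𝔓 :=
    fun hh => hk (hloc.prime.mem_of_pow_mem _ hh)
  have hWX : IsWeightedHomogeneous Δ.ww
      ((X k : MvPolynomial (Option (Fin (m + 2))) ℂ) ^ d) (d * Δ.ww k) := by
    have := (isWH_X (Δ := Δ) k).pow d
    rwa [smul_eq_mul] at this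
  have hWP : IsWeightedHomogeneous Δ.ww (P ^ Δ.ww k) (d * Δ.ww k) := by
    have := hP.pow (Δ.ww k)
    rwa [smul_eq_mul, mul_comm] at this
  -- the order of `a`
  have horda : dhP x P ≠ 0 → (ord v (dhP x P ^ Δ.ww k / xo x k ^ d) : ℚ) =
      Δ.ww k * hv Δ x v d (dhP x P) := by
    intro h0
    rw [ord_div L (pow_ne_zero _ h0) (pow_ne_zero _ hxk), ord_pow L h0, ord_pow L hxk]
    have h4 : (ord v (xo x k) : ℚ) = - (Δ.ww k * gam0 Δ x v) := by
      unfold go at hgk
      linarith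
    push_cast
    rw [h4]
    unfold hv
    ring
  constructor
  · intro hPm
    by_cases h0 : dhP x P = 0
    · exact Or.inl h0
    right
    set a := dhP x P ^ Δ.ww k / xo x k ^ d with ha
    have ha0 : a ≠ 0 := div_ne_zero (pow_ne_zero _ h0) (pow_ne_zero _ hxk)
    have hnot : a⁻¹ ∉ O := by
      rw [hloc.mem]
      rintro ⟨e, P', Q', h1, h2, h3, h4⟩
      have h5 : dhP x (X k ^ d * Q' - P ^ Δ.ww k * P') = 0 := by
        rw [map_sub, map_mul, map_mul, map_pow, map_pow, dhP_X, ← h4, ha, inv_div]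
        field_simp
        ring
      have h6 : IsWeightedHomogeneous Δ.ww (X k ^ d * Q' - P ^ Δ.ww k * P') (d * Δ.ww k + e) := by
        have := (weightedHomogeneousSubmodule ℂ Δ.ww (d * Δ.ww k + e)).sub_mem
          ((mem_weightedHomogeneousSubmodule ℂ Δ.ww _ _).2 (hWX.mul h2))
          ((mem_weightedHomogeneousSubmodule ℂ Δ.ww _ _).2 (hWP.mul h1))
        exact (mem_weightedHomogeneousSubmodule ℂ Δ.ww _ _).1 this
      have h7 := mem_of_dhP_zero h F h6 h5 hloc.fp_mem
      have h8 : X k ^ d * Q' ∈ 𝔓 := by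
        have h9 : P ^ Δ.ww k * P' ∈ 𝔓 :=
          𝔓.mul_mem_right _ (Ideal.pow_mem_of_mem _ hPm _ (ww_pos k))
        have := 𝔓.add_mem h7 h9
        rwa [sub_add_cancel] at this
      exact (hloc.prime.mem_or_mem h8).elim hXk h3
    have hnv : a⁻¹ ∉ v := by
      intro hh
      -- `a ∈ O`
      have haO : a ∈ O := by
        rw [hloc.mem]
        refine ⟨d * Δ.ww k, P ^ Δ.ww k, X k ^ d, hWP, hWX, hXk, ?_⟩
        rw [map_pow, map_pow, dhP_X, ha, div_mul_cancel₀ _ (pow_ne_zero _ hxk)]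
      exact hnot (hcen.2.2 a haO hh)
    have h1 : ¬ 0 ≤ ord v a⁻¹ := fun hh => hnv ((L.nonneg _ (inv_ne_zero ha0)).1 hh)
    rw [ord_inv L ha0] at h1
    have h2 : (0 : ℚ) < ord v a := by
      have : 0 < ord v a := by omega
      exact_mod_cast this
    rw [horda h0] at h2
    exact (pos_iff_pos_of_mul_pos h2).1 hwk
  · intro hh
    by_contra hPn
    have h0 := hne P d hP hPn
    have hh := hh.resolve_left h0
    set a := dhP x P ^ Δ.ww k / xo x k ^ d with ha
    have ha0 : a ≠ 0 := div_ne_zero (pow_ne_zero _ h0) (pow_ne_zero _ hxk)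
    have haO : a⁻¹ ∈ O := by
      rw [hloc.mem]
      refine ⟨d * Δ.ww k, X k ^ d, P ^ Δ.ww k, hWX, hWP,
        fun h1 => hPn (hloc.prime.mem_of_pow_mem _ h1), ?_⟩
      rw [map_pow, map_pow, dhP_X, ha, inv_div, div_mul_cancel₀ _ (pow_ne_zero _ h0)]
    have h1 := (L.nonneg _ (inv_ne_zero ha0)).2 (hcen.2.1 _ haO)
    rw [ord_inv L ha0] at h1
    have h2 : (ord v a : ℚ) ≤ 0 := by
      have : ord v a ≤ 0 := by omega
      exact_mod_cast this
    rw [horda h0] at h2
    have := mul_pos hwk hh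
    linarith

end

end VhM

open VhM in
theorem specVH (hORD : SpecORD) (hFUN : SpecFUN) : SpecVH := by
  intro m Δ hm K _ _ x h v hdiv
  have L := hORD K v hdiv.2.1
  have F := hFUN m Δ hm K x h
  have hc := hdiv.1
  have hx := F.xne
  refine ⟨VhM.gam0_nonneg v, VhM.gam_nonneg v, VhM.two h L hx, ?_, VhM.center h F L hc,
    VhM.uniq h F L hc⟩
  intro d r hr _
  obtain ⟨P, hP, rfl⟩ := exists_lift hr
  rw [dh_mk]
  have h0 : 0 ≤ (d : ℚ) * gam0 Δ x v := mul_nonneg (by positivity) (VhM.gam0_nonneg v)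
  unfold hv
  rcases ge_dhP h L hc hx hP with h1 | h1
  · rw [h1, L.zero]
    simpa using h0
  · linarith

end

end Pool.Agent.Lib.MPa7508c
end

section
/-!
# COST, COST0: the derivations dual to the coordinates
-/
set_option autoImplicit false
set_option linter.unusedSectionVars false
set_option linter.unusedVariables false

namespace Pool.Agent.Lib.MPa7508c

open MvPolynomial

noncomputable section

namespace CostM

variable {K : Type} [Field K] [Algebra ℂ K]

/-- a multiple of a form -/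
theorem ordForm_smul (hOF : SpecOFORM) {m : ℕ} {v : ValuationSubring K} (L : OrdLaws v)
    (hv : IsDiscreteValuationRing v) {c : Fin (m + 1) → K} {D : Fin (m + 1) → Derivation ℂ K K}
    (hfr : LogFrame m v c D) {η : TopForm K (m + 1)} (hη : η ≠ 0) {a : K} (ha : a ≠ 0) :
    ordForm v (a • η) = ord v a + ordForm v η := by
  obtain ⟨h1, h2⟩ := hOF K m v c D hv hfr η hη
  have h3 : a • η ≠ 0 := smul_ne_zero ha hη
  obtain ⟨h4, h5⟩ := hOF K m v c D hv hfr (a • η) h3
  rw [h5, h2, AlternatingMap.smul_apply, smul_eq_mul, L.mul a (η D) ha h1]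

theorem dform_apply {n : ℕ} (z : Fin n → K) (D : Fin n → Derivation ℂ K K) :
    dform z D = Matrix.det (Matrix.of fun a k => D a (z k)) := rfl

theorem det_mem {n : ℕ} (v : ValuationSubring K) (M : Matrix (Fin n) (Fin n) K)
    (h : ∀ a k, M a k ∈ v) : M.det ∈ v := by
  rw [Matrix.det_apply]
  refine sum_mem fun σ _ => ?_
  have h1 : ∏ i, M (σ i) i ∈ v := prod_mem fun i _ => h _ _
  rcases Int.units_eq_one_or (Equiv.Perm.sign σ) with hs | hs
  · rw [hs, one_smul]; exact h1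
  · rw [hs, Units.neg_smul, one_smul]; exact v.neg_mem _ h1

section

variable {m : ℕ} {Δ : Dat m} {x : Fin (m + 2) → K}

theorem int_const {v : ValuationSubring K} (L : OrdLaws v)
    (hc : ∀ c : ℂ, algebraMap ℂ K c ∈ v) (n : ℕ) (hn : n ≠ 0) : (n : K) ≠ 0 ∧
      ord v (n : K) = 0 := by
  have h1 : (n : K) = algebraMap ℂ K (n : ℂ) := by simp
  have h2 : (n : ℂ) ≠ 0 := by exact_mod_cast hn
  refine ⟨?_, ?_⟩
  · rw [h1]; exact (map_ne_zero (algebraMap ℂ K)).2 h2
  · rw [h1]; exact VhM.ord_const L hc h2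

/-- the order of the form `dform (but x j)` -/
theorem ordForm_but (hOF : SpecOFORM) (hDER : SpecDER) (hm : 1 ≤ m) (h : IsFun Δ K x)
    (hx : ∀ i, x i ≠ 0) {v : ValuationSubring K} (L : OrdLaws v)
    (hc : ∀ c : ℂ, algebraMap ℂ K c ∈ v)
    (hv : IsDiscreteValuationRing v) {c : Fin (m + 1) → K} {D : Fin (m + 1) → Derivation ℂ K K}
    (hfr : LogFrame m v c D) (j : Fin (m + 2)) :
    ordForm v (dform (but x j)) = (Δ.a j - 1 : ℕ) * ord v (x j) + ordForm v (omega Δ x) := by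
  obtain ⟨hω, hj⟩ := hDER m Δ hm K x h
  obtain ⟨-, s, hs, hds⟩ := hj j
  have ha : Δ.a j ≠ 0 := by have := Δ.wt.two_le j; omega
  obtain ⟨ha1, ha2⟩ := int_const L hc (Δ.a j) ha
  have hs0 : s ≠ 0 := by
    rcases hs with hs | hs
    · rw [hs]; exact one_ne_zero
    · rw [hs]; simp
  have hs1 : ord v s = 0 := by
    rcases hs with hs | hs
    · rw [hs]; exact VhM.ord_one L
    · rw [hs, VhM.ord_neg L]; exact VhM.ord_one L
  have hp : x j ^ (Δ.a j - 1) ≠ 0 := pow_ne_zero _ (hx j)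
  have hap : (Δ.a j : K) * x j ^ (Δ.a j - 1) ≠ 0 := mul_ne_zero ha1 hp
  rw [hds, ordForm_smul hOF L hv hfr hω (mul_ne_zero hs0 hap), L.mul _ _ hs0 hap,
    L.mul _ _ ha1 hp, hs1, ha2, VhM.ord_pow L (hx j)]
  ring

theorem key_eq (j : Fin (m + 2)) {v : ValuationSubring K} (hj : gam Δ x v j = 0) (o : ℤ) (O : ℤ)
    (ho : o = (Δ.a j - 1 : ℕ) * ord v (x j) + O) :
    (o : ℚ) + 1 - ∑ k, (ord v (but x j k) : ℚ) =
      (1 + O + Δ.q * gam0 Δ x v) - gsum Δ x v := by
  have h1 : ∑ i, gam Δ x v i = ∑ k, (ord v (but x j k) : ℚ) +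
      (∑ k, (Δ.w (j.succAbove k) : ℚ)) * gam0 Δ x v := by
    rw [Fin.sum_univ_succAbove _ j, hj, zero_add, Finset.sum_mul, ← Finset.sum_add_distrib]
    rfl
  have h2 : (Δ.q : ℚ) + Δ.L = 1 + (Δ.w j + ∑ k, (Δ.w (j.succAbove k) : ℚ)) := by
    have := Δ.hq
    rw [Fin.sum_univ_succAbove _ j] at this
    exact_mod_cast this
  have h3 : (ord v (x j) : ℚ) = -(Δ.w j * gam0 Δ x v) := by
    unfold gam at hj
    linarith
  have h4 : ((Δ.a j - 1 : ℕ) : ℚ) = Δ.a j - 1 := by
    have := Δ.wt.two_le j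
    rw [Nat.cast_sub (by omega)]
    simp
  have h5 : (Δ.a j : ℚ) * Δ.w j = Δ.L := by exact_mod_cast Δ.wt.mul j
  unfold gsum
  rw [h1, ho]
  push_cast
  rw [h4, h3]
  linear_combination (-gam0 Δ x v) * h2 - gam0 Δ x v * h5

end

end CostM

open CostM

theorem specCOST (hORD : SpecORD) (hLOGD : SpecLOGD) (hOF : SpecOFORM) (hLOGJ : SpecLOGJ)
    (hFUN : SpecFUN) (hDER : SpecDER) : SpecCOST := by
  intro m Δ hm K _ _ x h v hdiv j hj
  have L := hORD K v hdiv.2.1
  have F := hFUN m Δ hm K x h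
  have hc := hdiv.1
  have hx := F.xne
  obtain ⟨c, D, hfr⟩ := hLOGD K m v (by have := F.trdeg; exact_mod_cast this) F.fg hdiv
  have hord := ordForm_but hOF hDER hm h hx L hc hdiv.2.1 hfr j
  have hkey := key_eq j hj _ _ hord
  have hbut : ∀ i, but x j i ≠ 0 := fun i => hx _
  have hLD : LD Δ x v = 1 + ordForm v (omega Δ x) + Δ.q * gam0 Δ x v := rfl
  constructor
  · obtain ⟨δ, hδ, -⟩ := ((hDER m Δ hm K x h).2 j).1
    obtain ⟨-, h2, -⟩ := hLOGJ K m v c D hdiv.2.1 hfr (but x j) δ hbut hδ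
    have h3 : ∑ k, (ord v (but x j k) : ℚ) ≤ (ordForm v (dform (but x j)) : ℚ) + 1 := by
      exact_mod_cast h2
    rw [hLD]
    linarith
  · intro δ hδ i z hz
    obtain ⟨-, -, h2⟩ := hLOGJ K m v c D hdiv.2.1 hfr (but x j) δ hbut hδ
    have h3 := h2 z i hz
    have h4 : (ord v z : ℚ) - ord v (but x j i) -
        ((ordForm v (dform (but x j)) : ℚ) + 1 - ∑ k, (ord v (but x j k) : ℚ)) ≤
        (ord v (δ i z) : ℚ) := by exact_mod_cast h3
    rw [hkey] at h4
    have h5 : but x j i = x (j.succAbove i) := rfl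
    rw [h5] at h4
    rw [hLD]
    linarith

theorem specCOST0 (hORD : SpecORD) (hLOGD : SpecLOGD) (hOF : SpecOFORM) (hRESD : SpecRESD)
    (hFUN : SpecFUN) (hDER : SpecDER) (hEXC : SpecEXC) : SpecCOST0 := by
  intro m Δ hm K _ _ x h v hdiv hloc h0 j hj
  have L := hORD K v hdiv.2.1
  have F := hFUN m Δ hm K x h
  have hc := hdiv.1
  have hx := F.xne
  obtain ⟨c, D, hfr⟩ := hLOGD K m v (by have := F.trdeg; exact_mod_cast this) F.fg hdiv
  have hord := ordForm_but hOF hDER hm h hx L hc hdiv.2.1 hfr j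
  have hbut : ∀ i, but x j i ≠ 0 := fun i => hx _
  have hmem : ∀ i, x i ∈ v := by
    intro i
    rw [← L.nonneg _ (hx i)]
    have := VhM.gam_nonneg (Δ := Δ) (x := x) v i
    unfold gam at this
    rw [h0, mul_zero, add_zero] at this
    exact_mod_cast this
  have hxj : ord v (x j) = 0 := by
    unfold gam at hj
    rw [h0, mul_zero, add_zero] at hj
    exact_mod_cast hj
  rw [hxj, mul_zero, zero_add] at hord
  have hLD : LD Δ x v = 1 + ordForm v (omega Δ x) := by
    unfold LD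
    rw [h0, mul_zero, add_zero]
  constructor
  · obtain ⟨hω, hj'⟩ := hDER m Δ hm K x h
    have hne : dform (but x j) ≠ 0 := by
      obtain ⟨⟨δ, hδ, -⟩, -⟩ := hj' j
      intro hh
      have h1 : dform (but x j) δ = 1 := by
        rw [dform_apply]
        have : (Matrix.of fun a k => δ a (but x j k)) = (1 : Matrix (Fin (m + 1)) (Fin (m + 1)) K) := by
          ext a k
          rw [Matrix.of_apply, hδ, Matrix.one_apply]
        rw [this, Matrix.det_one]
      rw [hh] at h1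
      simp at h1
    obtain ⟨h2, h3⟩ := hOF K m v c D hdiv.2.1 hfr _ hne
    have h4 : dform (but x j) D ∈ v := by
      rw [dform_apply]
      exact det_mem v _ fun a k => hfr.reg a _ (hmem _)
    have h5 := (L.nonneg _ h2).2 h4
    rw [← h3, hord] at h5
    rw [hLD]
    have : (0 : ℚ) ≤ ordForm v (omega Δ x) := by exact_mod_cast h5
    linarith
  · intro δ hδ i z hz
    obtain ⟨P, hP0, hPi, hP⟩ := hEXC m Δ hm K x h v hdiv hloc h0 j hj i
    have := hRESD K m v c D hdiv.2.1 hc hfr (but x j) δ hbut (fun i => hmem _) hδ i P hP0 hPi hP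
      z hz
    rw [hord] at this
    rw [hLD]
    have h2 : (ord v z : ℚ) - ordForm v (omega Δ x) ≤ (ord v (δ i z) : ℚ) := by
      exact_mod_cast this
    linarith

end

end Pool.Agent.Lib.MPa7508c
end

section
/-!
# KEY: the key inequality
-/
set_option autoImplicit false

namespace Pool.Agent.Lib.MPa7508c

namespace KeyM

open MvPolynomial

section

variable {m : ℕ} {Δ : Dat m} {K : Type} [Field K] [Algebra ℂ K] {x : Fin (m + 2) → K}

theorem q_mul_le (hN : Δ.Num) (i j : Fin (m + 2)) (hij : i ≠ j) :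
    Δ.q * Δ.a j ≤ Δ.w i := by
  have h1 := hN.mult i j hij
  have h2 := Δ.wt.mul i
  have h3 := Δ.wt.two_le i
  have h4 : Δ.a i * (Δ.q * Δ.a j) ≤ Δ.a i * Δ.w i := by
    rw [h2]; calc _ = Δ.q * Δ.a i * Δ.a j := by ring
      _ ≤ _ := h1
  exact Nat.le_of_mul_le_mul_left h4 (by omega)

theorem mem_hm {d : ℕ} {P : MvPolynomial (Option (Fin (m + 2))) ℂ}
    (hP : IsWeightedHomogeneous Δ.ww P d) : mkF Δ.b P ∈ Δ.hm d :=
  ⟨P, (mem_weightedHomogeneousSubmodule ℂ Δ.ww d P).2 hP, rfl⟩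

theorem exists_lift {d : ℕ} {r : Δ.R} (hr : r ∈ Δ.hm d) :
    ∃ P : MvPolynomial (Option (Fin (m + 2))) ℂ, IsWeightedHomogeneous Δ.ww P d ∧
      mkF Δ.b P = r := by
  obtain ⟨P, hP, rfl⟩ := hr
  exact ⟨P, (mem_weightedHomogeneousSubmodule ℂ Δ.ww d P).1 hP, rfl⟩

theorem bound (hFUN : SpecFUN) (hORD : SpecORD) (hVH : SpecVH)
    (hNRM : SpecNRM) (hDESC : SpecDESC) (hm : 1 ≤ m) (h : IsFun Δ K x) (v : ValuationSubring K)
    (hv' : IsDivisorial m v) (j : Fin (m + 2)) (δ : Fin (m + 1) → Derivation ℂ K K)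
    (hδ : ∀ (i : Fin (m + 1)) (P : MvPolynomial (Option (Fin (m + 2))) ℂ), some j ∉ P.vars →
        δ i (dhP x P) = dhP x (pderiv (some (j.succAbove i)) P))
    (c : Fin (m + 2) → ℚ)
    (hc : ∀ (i : Fin (m + 1)) (z : K), δ i z ≠ 0 →
      (ord v z : ℚ) - c (j.succAbove i) ≤ (ord v (δ i z) : ℚ))
    (d : ℕ) (P : MvPolynomial (Option (Fin (m + 2))) ℂ) (hP : IsWeightedHomogeneous Δ.ww P d)
    (hx : ¬ Δ.x0 ∣ mkF Δ.b P) :
    ∃ α : Fin (m + 2) → ℕ, α j = 0 ∧ ∑ i, α i * Δ.w i = Δ.a j * d ∧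
      hv Δ x v d (dhP x P) ≤ ∑ i, (α i : ℚ) * (c i + Δ.w i * gam0 Δ x v) := by
  obtain ⟨H, Q, hH, hQ, hjH, hHPQ, hH0, α, hα0, hα⟩ := hNRM m Δ hm j d P hP hx
  have hO := hORD K v hv'.2.1
  have hF := hFUN m Δ hm K x h
  have hV := hVH m Δ hm K x h v hv'
  have hαj : α (some j) = 0 := by
    by_contra hne
    exact hjH ((mem_vars_iff_mem_support _).2 ⟨α, mem_support_iff.2 hα, Finsupp.mem_support_iff.2 hne⟩)
  have hdeg : ∑ i, α (some i) * Δ.w i = Δ.a j * d := by
    have := hH hα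
    rw [Finsupp.weight_apply, Finsupp.sum_fintype _ _ (by simp), Fintype.sum_option] at this
    simpa [hα0, Dat.ww] using this
  refine ⟨fun i => α (some i), hαj, hdeg, ?_⟩
  have h1 := hDESC m Δ K x v hv'.2.1 hv'.1 j δ c hδ hc (Δ.a j * d) H α hH hjH hα0 hα
  have hPQ0 : mkF Δ.b P ≠ 0 ∧ mkF Δ.b Q ≠ 0 := by
    rw [hHPQ] at hH0
    exact ⟨left_ne_zero_of_mul hH0, right_ne_zero_of_mul hH0⟩
  have hPne : dhP x P ≠ 0 := fun h0 => hPQ0.1 (hF.inj d _ (mem_hm hP) (by rw [dh_mk]; exact h0))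
  have hQne : dhP x Q ≠ 0 := fun h0 => hPQ0.2 (hF.inj _ _ (mem_hm hQ) (by rw [dh_mk]; exact h0))
  have hprod : dhP x H = dhP x P * dhP x Q := by
    rw [← dh_mk h, hHPQ, map_mul, dh_mk, dh_mk]
  have h2 : ord v (dhP x H) = ord v (dhP x P) + ord v (dhP x Q) := by
    rw [hprod]; exact hO.mul _ _ hPne hQne
  have h3 := hV.nonneg _ _ (mem_hm hQ) hPQ0.2
  rw [dh_mk] at h3
  simp only [hv] at h3 ⊢
  have h4 : (((Δ.a j - 1) * d : ℕ) : ℚ) = Δ.a j * d - d := by
    have := Δ.wt.two_le j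
    rw [Nat.cast_mul, Nat.cast_sub (by omega)]
    push_cast; ring
  have h5 : ∑ i, (α (some i) : ℚ) * (c i + Δ.w i * gam0 Δ x v) =
      ∑ i, (α (some i) : ℚ) * c i + (Δ.a j * d : ℚ) * gam0 Δ x v := by
    have : (Δ.a j * d : ℚ) = ∑ i, (α (some i) : ℚ) * Δ.w i := by
      have := congrArg (Nat.cast : ℕ → ℚ) hdeg
      push_cast at this
      exact this.symm
    rw [this, Finset.sum_mul, ← Finset.sum_add_distrib]
    exact Finset.sum_congr rfl fun i _ => by ring
  rw [h5]
  rw [h4] at h3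
  have h2' : (ord v (dhP x H) : ℚ) = ord v (dhP x P) + ord v (dhP x Q) := by exact_mod_cast h2
  nlinarith [h1, h3, h2']

theorem exists_factor (hGR : SpecGR) (hR : RingLaws Δ) (h : IsFun Δ K x) (d : ℕ) (r : Δ.R)
    (hr : r ∈ Δ.hm d) (hr0 : r ≠ 0) :
    ∃ (d' : ℕ) (r' : Δ.R), r' ∈ Δ.hm d' ∧ ¬ Δ.x0 ∣ r' ∧ dh h r' = dh h r := by
  have hdom := hR.dom
  have hG : GrLaws Δ.b Δ.ww := hGR _ Δ.b Δ.ww Δ.L (by simp) ⟨by
      rintro (_ | i)
      · simp [Dat.b, Dat.ww]
      · simpa [Dat.b, Dat.ww] using Δ.wt.mul i, by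
      rintro (_ | i)
      · simpa [Dat.b] using Δ.two_le_L
      · simpa [Dat.b] using Δ.wt.two_le i, by
      rintro (_ | i)
      · simp [Dat.ww]
      · simpa [Dat.ww] using Δ.wt.pos i⟩
  have h1 := (hR.mult_le Δ.x0 r (mult Δ.x0 r) hR.x0prime hr0).1 le_rfl
  obtain ⟨r', hr'⟩ := h1
  have hne : Δ.x0 ^ mult Δ.x0 r ≠ 0 ∧ r' ≠ 0 := by
    rw [hr'] at hr0
    exact ⟨left_ne_zero_of_mul hr0, right_ne_zero_of_mul hr0⟩
  obtain ⟨d1, d2, -, -, hd2⟩ := hG.factor hdom d _ _ hne.1 hne.2 (by rw [← hr']; exact hr)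
  refine ⟨d2, r', hd2, ?_, ?_⟩
  · intro hdvd
    have h2 : Δ.x0 ^ (mult Δ.x0 r + 1) ∣ r := by
      nth_rw 2 [hr']
      rw [pow_succ]
      exact mul_dvd_mul_left _ hdvd
    have := (hR.mult_le Δ.x0 r (mult Δ.x0 r + 1) hR.x0prime hr0).2 h2
    omega
  · conv_rhs => rw [hr']
    have : dh h Δ.x0 = 1 := by
      rw [Dat.x0, dh_mk]; simp [dhP]
    rw [map_mul, map_pow, this, one_pow, one_mul]

end

end KeyM

open KeyM MvPolynomial

theorem specKEY (hGR : SpecGR) (hRNG : SpecRNG) (hFUN : SpecFUN) (hORD : SpecORD) (hDER : SpecDER)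
    (hVH : SpecVH) (hNRM : SpecNRM) (hDESC : SpecDESC) (hCOST : SpecCOST) (hCOST0 : SpecCOST0)
    (hAGE : SpecAGE) (hD0 : SpecD0) : SpecKEY := by
  intro m Δ hm hN K _ _ x h v hv' hexc
  have hO := hORD K v hv'.2.1
  have hR := hRNG m Δ hm
  have hF := hFUN m Δ hm K x h
  have hV := hVH m Δ hm K x h v hv'
  have hqpos : 0 < Δ.q := by have := hN.index; omega
  have := hR.dom
  obtain ⟨j0, hj0, hcase⟩ := hV.two
  by_cases hθ : gam0 Δ x v = 0
  · -- `θ = 0`
    have hC := hCOST0 m Δ hm K x h v hv' hexc hθ j0 hj0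
    obtain ⟨⟨δ, hδ1, hδ2⟩, -⟩ := (hDER m Δ hm K x h).2 j0
    have key : ∀ (d : ℕ) (r : Δ.R), r ∈ Δ.hm d → ¬ Δ.x0 ∣ r →
        (Δ.q : ℚ) * hv Δ x v d (dh h r) ≤ d * (LD Δ x v - 1) := by
      intro d r hr hx
      obtain ⟨P, hP, rfl⟩ := exists_lift hr
      obtain ⟨α, hαj, hα, hb⟩ := bound hFUN hORD hVH hNRM hDESC hm h v hv' j0 δ hδ2
        (fun _ => LD Δ x v - 1) (fun i z hz => hC.2 δ hδ1 i z hz) d P hP hx
      rw [dh_mk]
      have h1 : (Δ.a j0 : ℚ) * (Δ.q * hv Δ x v d (dhP x P)) ≤ Δ.a j0 * (d * (LD Δ x v - 1)) := by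
        have ha : (0 : ℚ) ≤ Δ.a j0 * Δ.q := by positivity
        calc (Δ.a j0 : ℚ) * (Δ.q * hv Δ x v d (dhP x P))
            = (Δ.a j0 * Δ.q) * hv Δ x v d (dhP x P) := by ring
          _ ≤ (Δ.a j0 * Δ.q) * ∑ i, (α i : ℚ) * (LD Δ x v - 1 + Δ.w i * gam0 Δ x v) :=
              mul_le_mul_of_nonneg_left hb ha
          _ = ∑ i, (α i : ℚ) * ((Δ.q * Δ.a j0) * (LD Δ x v - 1)) := by
              rw [hθ, Finset.mul_sum]
              exact Finset.sum_congr rfl fun i _ => by ring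
          _ ≤ ∑ i, (α i : ℚ) * (Δ.w i * (LD Δ x v - 1)) := by
              refine Finset.sum_le_sum fun i _ => ?_
              by_cases hi : i = j0
              · rw [hi, hαj]; simp
              · refine mul_le_mul_of_nonneg_left ?_ (by positivity)
                refine mul_le_mul_of_nonneg_right ?_ (by linarith [hC.1])
                exact_mod_cast q_mul_le hN i j0 hi
          _ = ((∑ i, α i * Δ.w i : ℕ) : ℚ) * (LD Δ x v - 1) := by
              push_cast
              rw [Finset.sum_mul]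
              exact Finset.sum_congr rfl fun i _ => by ring
          _ = _ := by rw [hα]; push_cast; ring
      have ha : (0 : ℚ) < Δ.a j0 := by
        have := Δ.wt.two_le j0
        exact_mod_cast (by omega : 0 < Δ.a j0)
      exact le_of_mul_le_mul_left h1 ha
    refine ⟨?_, key⟩
    -- the valuation is not trivial
    obtain ⟨t, htv, ht0, ht1⟩ := hO.unif
    obtain ⟨d, r, s, hr, hs, hs0, hz⟩ := hF.frac t
    have hdhs : dh h s ≠ 0 := fun h0 => hs0 (hF.inj d s hs h0)
    have hdhr : dh h r ≠ 0 := by rw [← hz]; exact mul_ne_zero ht0 hdhs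
    have hr0 : r ≠ 0 := fun h0 => hdhr (by rw [h0, map_zero])
    have hs1 := hV.nonneg d s hs hs0
    have hr1 : 0 < ord v (dh h r) := by
      have h1 : ord v (dh h r) = ord v t + ord v (dh h s) := by
        rw [← hz]; exact hO.mul _ _ ht0 hdhs
      simp only [hv, hθ, mul_zero, add_zero] at hs1
      have : 0 ≤ ord v (dh h s) := by exact_mod_cast hs1
      omega
    -- factor out powers of `x_0`
    obtain ⟨d', P', hP', hx', hdh'⟩ := exists_factor hGR hR h d r hr hr0
    have h1 := key d' P' hP' hx'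
    rw [hdh'] at h1
    have h2 : (0 : ℚ) < hv Δ x v d' (dh h r) := by
      simp only [hv, hθ, mul_zero, add_zero]
      exact_mod_cast hr1
    have h3 : (0 : ℚ) < d' * (LD Δ x v - 1) := by
      refine lt_of_lt_of_le ?_ h1
      positivity
    have h4 : (0 : ℚ) < LD Δ x v - 1 := by
      by_contra hneg
      rw [not_lt] at hneg
      have : (d' : ℚ) * (LD Δ x v - 1) ≤ 0 :=
        mul_nonpos_of_nonneg_of_nonpos (by positivity) hneg
      linarith
    linarith
  · -- `θ > 0`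
    have hθ0 : 0 < gam0 Δ x v := lt_of_le_of_ne hV.gam0_nonneg (Ne.symm hθ)
    obtain ⟨l0, hl0, hgl0⟩ := hcase.resolve_left hθ
    obtain ⟨j, l, hjl, haj, hj, hl⟩ : ∃ j l, j ≠ l ∧ Δ.a j ≤ Δ.a l ∧ gam Δ x v j = 0 ∧
        gam Δ x v l = 0 := by
      rcases le_total (Δ.a j0) (Δ.a l0) with h1 | h1
      · exact ⟨j0, l0, Ne.symm hl0, h1, hj0, hgl0⟩
      · exact ⟨l0, j0, hl0, h1, hgl0, hj0⟩
    have hC := hCOST m Δ hm K x h v hv' j hj
    have he : 0 ≤ LD Δ x v - gsum Δ x v := by linarith [hC.1]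
    obtain ⟨hA1, hA2⟩ := hAGE m Δ hN (gam0 Δ x v) (LD Δ x v - gsum Δ x v)
      (fun i => ord v (x i)) (gam Δ x v) hθ0 he (fun i => rfl) hV.gam_nonneg j l hjl haj hj hl
    have hgs : gam0 Δ x v + ∑ i, gam Δ x v i = gsum Δ x v := rfl
    rw [hgs] at hA1 hA2
    refine ⟨?_, ?_⟩
    · rcases hA1 with h1 | ⟨h1, h2⟩
      · linarith
      · have hg1 : gsum Δ x v = 1 := by
          rw [← hgs, h1, Finset.sum_eq_zero (fun i _ => h2 i), add_zero]
        have h3 : 1 ≤ LD Δ x v := by rw [← hg1]; exact hC.1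
        exact lt_of_le_of_ne h3 fun h4 => hexc (hD0 m Δ hm K x h v hv' h1 h2 h4.symm)
    · intro d r hr hx
      obtain ⟨P, hP, rfl⟩ := exists_lift hr
      obtain ⟨⟨δ, hδ1, hδ2⟩, -⟩ := (hDER m Δ hm K x h).2 j
      obtain ⟨α, hαj, hα, hb⟩ := bound hFUN hORD hVH hNRM hDESC hm h v hv' j δ hδ2
        (fun i => ord v (x i) + (LD Δ x v - gsum Δ x v)) (fun i z hz => hC.2 δ hδ1 i z hz) d P hP hx
      rw [dh_mk]
      have h1 : (Δ.a j : ℚ) * (Δ.q * hv Δ x v d (dhP x P)) ≤ Δ.a j * (d * (LD Δ x v - 1)) := by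
        have ha : (0 : ℚ) ≤ Δ.a j * Δ.q := by positivity
        calc (Δ.a j : ℚ) * (Δ.q * hv Δ x v d (dhP x P))
            = (Δ.a j * Δ.q) * hv Δ x v d (dhP x P) := by ring
          _ ≤ (Δ.a j * Δ.q) * ∑ i, (α i : ℚ) *
                (ord v (x i) + (LD Δ x v - gsum Δ x v) + Δ.w i * gam0 Δ x v) :=
              mul_le_mul_of_nonneg_left hb ha
          _ = ∑ i, (α i : ℚ) * (Δ.q * Δ.a j * (LD Δ x v - gsum Δ x v + gam Δ x v i)) := by
              rw [Finset.mul_sum]
              exact Finset.sum_congr rfl fun i _ => by simp only [gam]; ring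
          _ ≤ ∑ i, (α i : ℚ) * (Δ.w i * (LD Δ x v - 1)) := by
              refine Finset.sum_le_sum fun i _ => ?_
              by_cases hi : i = j
              · rw [hi, hαj]; simp
              · refine mul_le_mul_of_nonneg_left ?_ (by positivity)
                have := hA2 i hi
                calc _ ≤ _ := this
                  _ = _ := by ring
          _ = ((∑ i, α i * Δ.w i : ℕ) : ℚ) * (LD Δ x v - 1) := by
              push_cast
              rw [Finset.sum_mul]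
              exact Finset.sum_congr rfl fun i _ => by ring
          _ = _ := by rw [hα]; push_cast; ring
      have ha : (0 : ℚ) < Δ.a j := by
        have := Δ.wt.two_le j
        exact_mod_cast (by omega : 0 < Δ.a j)
      exact le_of_mul_le_mul_left h1 ha

end Pool.Agent.Lib.MPa7508c
end

section
/-!
# Small common lemmas
-/
set_option autoImplicit false

namespace Pool.Agent.Lib.MPa7508c

namespace UtilM

open MvPolynomial

variable {m : ℕ} {Δ : Dat m} {K : Type} [Field K] [Algebra ℂ K] {x : Fin (m + 2) → K}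

theorem wt (Δ : Dat m) : Wt Δ.b Δ.ww Δ.L :=
  ⟨by
    rintro (_ | i)
    · simp [Dat.b, Dat.ww]
    · simpa [Dat.b, Dat.ww] using Δ.wt.mul i, by
    rintro (_ | i)
    · simpa [Dat.b] using Δ.two_le_L
    · simpa [Dat.b] using Δ.wt.two_le i, by
    rintro (_ | i)
    · simp [Dat.ww]
    · simpa [Dat.ww] using Δ.wt.pos i⟩

theorem gr (hGR : SpecGR) (Δ : Dat m) : GrLaws Δ.b Δ.ww :=
  hGR _ Δ.b Δ.ww Δ.L (by simp) (wt Δ)

theorem huf (hHUF : SpecHUF) (hR : RingLaws Δ) (hU : GrUFD Δ.b Δ.ww) (d e : ℕ) (A B : Δ.R)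
    (hA : A ∈ Δ.hm d) (hB : B ∈ Δ.hm e) (hA0 : A ≠ 0) (hB0 : B ≠ 0)
    (hAB : ∀ (k : ℕ) (p : Δ.R), p ∈ Δ.hm k → Prime p → mult p B ≤ mult p A) : B ∣ A :=
  hHUF _ Δ.b Δ.ww Δ.L (wt Δ) (by simp) hR.dom hU d e A B hA hB hA0 hB0 hAB

theorem mem_hm {d : ℕ} {P : MvPolynomial (Option (Fin (m + 2))) ℂ}
    (hP : IsWeightedHomogeneous Δ.ww P d) : mkF Δ.b P ∈ Δ.hm d :=
  ⟨P, (mem_weightedHomogeneousSubmodule ℂ Δ.ww d P).2 hP, rfl⟩

theorem exists_lift {d : ℕ} {r : Δ.R} (hr : r ∈ Δ.hm d) :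
    ∃ P : MvPolynomial (Option (Fin (m + 2))) ℂ, IsWeightedHomogeneous Δ.ww P d ∧
      mkF Δ.b P = r := by
  obtain ⟨P, hP, rfl⟩ := hr
  exact ⟨P, (mem_weightedHomogeneousSubmodule ℂ Δ.ww d P).1 hP, rfl⟩

theorem x0_mem (Δ : Dat m) : Δ.x0 ∈ Δ.hm 1 := by
  apply mem_hm
  exact isWeightedHomogeneous_X ℂ Δ.ww none

theorem xx_mem (Δ : Dat m) (i : Fin (m + 2)) : Δ.xx i ∈ Δ.hm (Δ.w i) := by
  apply mem_hm
  exact isWeightedHomogeneous_X ℂ Δ.ww (some i)

theorem one_mem (Δ : Dat m) : (1 : Δ.R) ∈ Δ.hm 0 := by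
  have := mem_hm (Δ := Δ) (isWeightedHomogeneous_one ℂ Δ.ww)
  rwa [map_one] at this

theorem mul_mem {d e : ℕ} {r s : Δ.R} (hr : r ∈ Δ.hm d) (hs : s ∈ Δ.hm e) :
    r * s ∈ Δ.hm (d + e) := by
  obtain ⟨P, hP, rfl⟩ := exists_lift hr
  obtain ⟨Q, hQ, rfl⟩ := exists_lift hs
  rw [← map_mul]
  exact mem_hm (hP.mul hQ)

theorem pow_mem {d : ℕ} {r : Δ.R} (hr : r ∈ Δ.hm d) (n : ℕ) : r ^ n ∈ Δ.hm (n * d) := by
  induction n with
  | zero => simpa using one_mem Δ
  | succ n ih =>
    rw [pow_succ, Nat.succ_mul]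
    exact mul_mem ih hr

theorem dh_x0 (h : IsFun Δ K x) : dh h Δ.x0 = 1 := by
  rw [Dat.x0, dh_mk]; simp [dhP]

theorem dh_xx (h : IsFun Δ K x) (i : Fin (m + 2)) : dh h (Δ.xx i) = x i := by
  rw [Dat.xx, dh_mk]; simp [dhP]

theorem deg_unique (hG : GrLaws Δ.b Δ.ww) {d e : ℕ} {r : Δ.R} (hr : r ≠ 0) (hd : r ∈ Δ.hm d)
    (he : r ∈ Δ.hm e) : d = e := by
  by_contra hne
  have := hG.uniq (Finsupp.single d r - Finsupp.single e r) (fun k => by
    rw [Finsupp.sub_apply]
    refine Submodule.sub_mem _ ?_ ?_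
    · by_cases hk : d = k
      · subst hk; simpa using hd
      · rw [Finsupp.single_eq_of_ne (Ne.symm hk)]; exact Submodule.zero_mem _
    · by_cases hk : e = k
      · subst hk; simpa using he
      · rw [Finsupp.single_eq_of_ne (Ne.symm hk)]; exact Submodule.zero_mem _) (by
    rw [Finsupp.sum_sub_index (by intros; rfl)]
    simp)
  have h2 := DFunLike.congr_fun this d
  rw [Finsupp.sub_apply, Finsupp.single_eq_same, Finsupp.single_eq_of_ne hne] at h2
  exact hr (by simpa using h2)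

/-- a homogeneous divisor has smaller degree -/
theorem deg_le_of_dvd (hG : GrLaws Δ.b Δ.ww) (hdom : IsDomain Δ.R) {d e : ℕ} {r s : Δ.R}
    (hs0 : s ≠ 0) (hr : r ∈ Δ.hm d) (hs : s ∈ Δ.hm e) (hrs : r ∣ s) : d ≤ e := by
  obtain ⟨t, rfl⟩ := hrs
  have hr0 : r ≠ 0 := left_ne_zero_of_mul hs0
  obtain ⟨a, b, hab, ha, hb⟩ := hG.factor hdom e r t hr0 (right_ne_zero_of_mul hs0) hs
  have := deg_unique hG hr0 hr ha
  omega

theorem exists_factor (hG : GrLaws Δ.b Δ.ww) (hR : RingLaws Δ) (h : IsFun Δ K x) (d : ℕ) (r : Δ.R)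
    (hr : r ∈ Δ.hm d) (hr0 : r ≠ 0) :
    ∃ (d' : ℕ) (r' : Δ.R), r' ∈ Δ.hm d' ∧ ¬ Δ.x0 ∣ r' ∧ dh h r' = dh h r := by
  have hdom := hR.dom
  have h1 := (hR.mult_le Δ.x0 r (mult Δ.x0 r) hR.x0prime hr0).1 le_rfl
  obtain ⟨r', hr'⟩ := h1
  have hne : Δ.x0 ^ mult Δ.x0 r ≠ 0 ∧ r' ≠ 0 := by
    rw [hr'] at hr0
    exact ⟨left_ne_zero_of_mul hr0, right_ne_zero_of_mul hr0⟩
  obtain ⟨d1, d2, -, -, hd2⟩ := hG.factor hdom d _ _ hne.1 hne.2 (by rw [← hr']; exact hr)
  refine ⟨d2, r', hd2, ?_, ?_⟩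
  · intro hdvd
    have h2 : Δ.x0 ^ (mult Δ.x0 r + 1) ∣ r := by
      nth_rw 2 [hr']
      rw [pow_succ]
      exact mul_dvd_mul_left _ hdvd
    have := (hR.mult_le Δ.x0 r (mult Δ.x0 r + 1) hR.x0prime hr0).2 h2
    omega
  · conv_rhs => rw [hr']
    rw [map_mul, map_pow, dh_x0 h, one_pow, one_mul]

theorem mult_pow (hR : RingLaws Δ) {p r : Δ.R} (hp : Prime p) (hr : r ≠ 0) (n : ℕ) :
    mult p (r ^ n) = n * mult p r := by
  have := hR.dom
  induction n with
  | zero =>
    have h1 : ¬ 1 ≤ mult p (1 : Δ.R) := by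
      rw [hR.mult_le p 1 1 hp one_ne_zero, pow_one]
      exact fun hd => hp.not_isUnit (isUnit_of_dvd_one hd)
    rw [pow_zero]; omega
  | succ n ih =>
    rw [pow_succ, hR.mult_mul p _ _ hp (pow_ne_zero n hr) hr, ih]; ring

theorem mult_eq_zero (hR : RingLaws Δ) {p r : Δ.R} (hp : Prime p) (hr : r ≠ 0) :
    mult p r = 0 ↔ ¬ p ∣ r := by
  have := hR.mult_le p r 1 hp hr
  rw [pow_one] at this
  rw [← this]; omega

end UtilM

end Pool.Agent.Lib.MPa7508c
end

section
/-!
# D0: the only divisor with `γ = (1, 0, ..., 0)` and log discrepancy `1` is `x_0 = 0`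
-/
set_option autoImplicit false

namespace Pool.Agent.Lib.MPa7508c

open MvPolynomial

namespace D0M

variable {m : ℕ} {Δ : Dat m} {K : Type} [Field K] [Algebra ℂ K] {x : Fin (m + 2) → K}

/-- `x_0` splits off homogeneous elements with the right degree -/
theorem divide (hG : GrLaws Δ.b Δ.ww) (hR : RingLaws Δ) {d : ℕ} {r r' : Δ.R} (hr : r ∈ Δ.hm d)
    (hr0 : r ≠ 0) (h : r = Δ.x0 * r') : ∃ d', d = d' + 1 ∧ r' ∈ Δ.hm d' := by
  subst h
  obtain ⟨d1, d2, h12, h1, h2⟩ := hG.factor hR.dom d _ _ (left_ne_zero_of_mul hr0)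
    (right_ne_zero_of_mul hr0) hr
  have := UtilM.deg_unique hG (left_ne_zero_of_mul hr0) h1 (UtilM.x0_mem Δ)
  exact ⟨d2, by omega, h2⟩

theorem main (h : IsFun Δ K x) (v : ValuationSubring K) (hG : GrLaws Δ.b Δ.ww)
    (hR : RingLaws Δ) (hF : FunLaws h) (hO : OrdLaws v)
    (hnn : ∀ (d : ℕ) (r : Δ.R), r ∈ Δ.hm d → r ≠ 0 → 0 ≤ hv Δ x v d (dh h r))
    (h0 : gam0 Δ x v = 1)
    (hz : ∀ (d : ℕ) (r : Δ.R), r ∈ Δ.hm d → ¬ Δ.x0 ∣ r → hv Δ x v d (dh h r) = 0) :
    IsDivOf h v Δ.x0 1 := by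
  classical
  have hne : ∀ (d : ℕ) (r : Δ.R), r ∈ Δ.hm d → r ≠ 0 → dh h r ≠ 0 := fun d r hr hr0 hcon =>
    hr0 (hF.inj d r hr hcon)
  refine ⟨UtilM.x0_mem Δ, hR.x0prime, fun z => ⟨fun hzv => ?_, ?_⟩⟩
  · by_cases hz0 : z = 0
    · refine ⟨Δ.w 0, 0, Δ.xx 0, Submodule.zero_mem _, UtilM.xx_mem Δ 0, hR.x0x 0, ?_⟩
      rw [hz0, zero_mul, map_zero]
    · have hex : ∃ d : ℕ, ∃ r s : Δ.R, r ∈ Δ.hm d ∧ s ∈ Δ.hm d ∧ s ≠ 0 ∧
          z * dh h s = dh h r := hF.frac z
      obtain ⟨r, s, hr, hs, hs0, hzrs⟩ := Nat.find_spec hex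
      set d := Nat.find hex with hd
      have hr0 : r ≠ 0 := by
        rintro rfl
        rw [map_zero] at hzrs
        exact (mul_ne_zero hz0 (hne d s hs hs0)) hzrs
      by_cases hx : Δ.x0 ∣ s
      · exfalso
        obtain ⟨s', hs'⟩ := hx
        obtain ⟨d', hd', hs'm⟩ := divide hG hR hs hs0 hs'
        have hs'0 : s' ≠ 0 := by
          rintro rfl
          exact hs0 (by rw [hs', mul_zero])
        have hdhs : dh h s = dh h s' := by
          rw [hs', map_mul, UtilM.dh_x0, one_mul]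
        by_cases hxr : Δ.x0 ∣ r
        · obtain ⟨r', hr'⟩ := hxr
          obtain ⟨d'', hd'', hr'm⟩ := divide hG hR hr hr0 hr'
          have hdd : d'' = d' := by omega
          subst hdd
          have hdhr : dh h r = dh h r' := by
            rw [hr', map_mul, UtilM.dh_x0, one_mul]
          have hlt : d'' < d := by omega
          exact Nat.find_min hex hlt ⟨r', s', hr'm, hs'm, hs'0, by rw [← hdhs, ← hdhr, hzrs]⟩
        · have h1 := hz d r hr hxr
          have h2 := hnn d' s' hs'm hs'0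
          have h3 := hO.mul z (dh h s) hz0 (hne d s hs hs0)
          rw [hzrs] at h3
          have h4 := (hO.nonneg z hz0).mpr hzv
          rw [hv, h0, mul_one] at h1 h2
          rw [hdhs] at h3
          have h5 : (ord v (dh h r) : ℚ) = ord v z + ord v (dh h s') := by exact_mod_cast h3
          have h6 : (0 : ℚ) ≤ ord v z := by exact_mod_cast h4
          have h7 : (d : ℚ) = d' + 1 := by exact_mod_cast hd'
          linarith
      · exact ⟨d, r, s, hr, hs, hx, hzrs⟩
  · rintro ⟨d, r, s, hr, hs, hxs, hzrs⟩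
    have hs0 : s ≠ 0 := by
      rintro rfl
      exact hxs (dvd_zero _)
    by_cases hz0 : z = 0
    · rw [hz0]
      exact v.zero_mem
    · have hr0 : r ≠ 0 := by
        rintro rfl
        rw [map_zero] at hzrs
        exact (mul_ne_zero hz0 (hne d s hs hs0)) hzrs
      have h1 := hz d s hs hxs
      have h2 := hnn d r hr hr0
      have h3 := hO.mul z (dh h s) hz0 (hne d s hs hs0)
      rw [hzrs] at h3
      rw [hv] at h1 h2
      have h5 : (ord v (dh h r) : ℚ) = ord v z + ord v (dh h s) := by exact_mod_cast h3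
      have h6 : (0 : ℚ) ≤ ord v z := by linarith
      exact (hO.nonneg z hz0).mp (by exact_mod_cast h6)

end D0M

theorem specD0 (hORD : SpecORD) (hGR : SpecGR) (hRNG : SpecRNG) (hFUN : SpecFUN)
    (hDER : SpecDER) (hVH : SpecVH) (hNRM : SpecNRM) (hDESC : SpecDESC) (hCOST : SpecCOST)
    (hDIVX : SpecDIVX) : SpecD0 := by
  intro m Δ hm K _ _ x h v hv' h0 hg hLD
  have hG := UtilM.gr hGR Δ
  have hR := hRNG m Δ hm
  have hF := hFUN m Δ hm K x h
  have hO := hORD K v hv'.2.1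
  have hV := hVH m Δ hm K x h v hv'
  have hsum : gsum Δ x v = 1 := by
    rw [gsum, h0, Finset.sum_eq_zero (fun i _ => hg i), add_zero]
  obtain ⟨⟨δ, hdual, hder⟩, _⟩ := (hDER m Δ hm K x h).2 0
  have hcost := (hCOST m Δ hm K x h v hv' 0 (hg 0)).2 δ hdual
  have hz : ∀ (d : ℕ) (r : Δ.R), r ∈ Δ.hm d → ¬ Δ.x0 ∣ r → hv Δ x v d (dh h r) = 0 := by
    intro d r hr hx
    obtain ⟨P, hP, rfl⟩ := UtilM.exists_lift hr
    obtain ⟨α, _, _, hle⟩ := KeyM.bound hFUN hORD hVH hNRM hDESC hm h v hv' 0 δ hder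
      (fun i => ord v (x i) + (LD Δ x v - gsum Δ x v)) (fun i z hi => hcost i z hi) d P hP hx
    have h1 : ∑ i, (α i : ℚ) * ((ord v (x i) + (LD Δ x v - gsum Δ x v)) +
        Δ.w i * gam0 Δ x v) = 0 := by
      apply Finset.sum_eq_zero
      intro i _
      have h2 := hg i
      rw [gam] at h2
      rw [hLD, hsum, sub_self, add_zero, h2, mul_zero]
    rw [h1] at hle
    have hr0 : mkF Δ.b P ≠ 0 := by
      intro hcon
      apply hx
      rw [hcon]
      exact dvd_zero _
    have h3 := hV.nonneg d (mkF Δ.b P) hr hr0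
    rw [dh_mk] at h3 ⊢
    exact le_antisymm hle h3
  have hdiv : IsDivOf h v Δ.x0 1 := D0M.main h v hG hR hF hO hV.nonneg h0 hz
  exact ((hDIVX m Δ hm K x h).2 v Δ.x0 1 hdiv).1.2

end Pool.Agent.Lib.MPa7508c
end

section
/-!
# Module DER: the derivations dual to the affine coordinates other than `x_j`
-/
set_option autoImplicit false

namespace Pool.Agent.Lib.MPa7508c

open MvPolynomial

noncomputable section

namespace DerM

/-- chain rule -/
theorem chain {K : Type} [Field K] [Algebra ℂ K] {σ : Type} [Fintype σ] (x : σ → K)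
    (D : Derivation ℂ K K) (P : MvPolynomial σ ℂ) :
    D (aeval x P) = ∑ k, aeval x (pderiv k P) * D (x k) := by
  classical
  induction P using MvPolynomial.induction_on with
  | C a => simp
  | add p q hp hq =>
    simp only [map_add, hp, hq, add_mul, Finset.sum_add_distrib]
  | mul_X p n hp =>
    have h1 : ∀ k, pderiv k (p * X n) =
        pderiv k p * X n + p * pderiv k (X n : MvPolynomial σ ℂ) := by
      intro k
      rw [Derivation.leibniz]
      simp only [smul_eq_mul]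
      ring
    simp only [map_mul, aeval_X, Derivation.leibniz, hp, smul_eq_mul, h1, map_add, add_mul,
      Finset.sum_add_distrib]
    have h2 : ∑ k, aeval x p * aeval x (pderiv k (X n : MvPolynomial σ ℂ)) * D (x k) =
        aeval x p * D (x n) := by
      rw [Finset.sum_eq_single n]
      · simp
      · intro b _ hb
        rw [pderiv_X_of_ne (Ne.symm hb)]
        simp
      · intro hn
        exact absurd (Finset.mem_univ n) hn
    rw [h2, Finset.mul_sum, add_comm]
    congr 1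
    exact Finset.sum_congr rfl fun k _ => by ring

section

variable {m : ℕ} {Δ : Dat m} {K : Type} [Field K] [Algebra ℂ K] {x : Fin (m + 2) → K}

theorem xne (h : IsFun Δ K x) (j : Fin (m + 2)) : x j ≠ 0 := by
  intro h0
  have h1 : aeval x (X j : MvPolynomial (Fin (m + 2)) ℂ) = 0 := by
    rw [aeval_X, h0]
  obtain ⟨Q, hQ⟩ := h.ker _ h1
  obtain ⟨l, hl⟩ : ∃ l : Fin (m + 2), l ≠ j := exists_ne j
  obtain ⟨ζ, hζ⟩ := IsAlgClosed.exists_pow_nat_eq (-2 : ℂ)
    (n := Δ.a l) (lt_of_lt_of_le (by norm_num) (Δ.wt.two_le l))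
  have h2 := congrArg (eval (Function.update (Function.update (0 : Fin (m + 2) → ℂ) j 1) l ζ)) hQ
  have h3 : eval (Function.update (Function.update (0 : Fin (m + 2) → ℂ) j 1) l ζ)
      (1 + fp (Fin (m + 2)) Δ.a) = 0 := by
    simp only [fp, map_add, map_one, map_sum, map_pow, eval_X]
    rw [← Finset.add_sum_erase _ _ (Finset.mem_univ l),
      ← Finset.add_sum_erase _ _ (Finset.mem_erase.mpr ⟨Ne.symm hl, Finset.mem_univ j⟩)]
    rw [Finset.sum_eq_zero]
    · simp only [Function.update_self, hζ, Function.update_of_ne (Ne.symm hl), one_pow]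
      norm_num
    · intro k hk
      simp only [Finset.mem_erase, Finset.mem_univ, and_true] at hk
      rw [Function.update_of_ne hk.2, Function.update_of_ne hk.1, Pi.zero_apply, zero_pow]
      have := Δ.wt.two_le k
      omega
  rw [map_mul, h3, zero_mul, eval_X, Function.update_of_ne (Ne.symm hl),
    Function.update_self] at h2
  exact one_ne_zero h2

/-- the derivation `P ↦ ∑ y_k ∂_k P (x)` -/
def D0 (x y : Fin (m + 2) → K) (P : MvPolynomial (Fin (m + 2)) ℂ) : K :=
  ∑ k, aeval x (pderiv k P) * y k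

theorem D0_add (x y : Fin (m + 2) → K) (P Q : MvPolynomial (Fin (m + 2)) ℂ) :
    D0 x y (P + Q) = D0 x y P + D0 x y Q := by
  simp only [D0, map_add, add_mul, Finset.sum_add_distrib]

theorem D0_smul (x y : Fin (m + 2) → K) (c : ℂ) (P : MvPolynomial (Fin (m + 2)) ℂ) :
    D0 x y (c • P) = algebraMap ℂ K c * D0 x y P := by
  simp only [D0, Derivation.map_smul, map_smul, Finset.mul_sum]
  refine Finset.sum_congr rfl fun k _ => ?_
  rw [Algebra.smul_def, mul_assoc]

theorem D0_sub (x y : Fin (m + 2) → K) (P Q : MvPolynomial (Fin (m + 2)) ℂ) :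
    D0 x y (P - Q) = D0 x y P - D0 x y Q := by
  simp only [D0, map_sub, sub_mul, Finset.sum_sub_distrib]

theorem D0_mul (x y : Fin (m + 2) → K) (P Q : MvPolynomial (Fin (m + 2)) ℂ) :
    D0 x y (P * Q) = aeval x P * D0 x y Q + aeval x Q * D0 x y P := by
  simp only [D0, Derivation.leibniz, smul_eq_mul, map_add, map_mul, add_mul,
    Finset.sum_add_distrib, Finset.mul_sum, mul_assoc]

theorem D0_one (x y : Fin (m + 2) → K) : D0 x y 1 = 0 := by
  simp [D0]

theorem D0_X (x y : Fin (m + 2) → K) (k : Fin (m + 2)) : D0 x y (X k) = y k := by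
  classical
  rw [D0, Finset.sum_eq_single k]
  · simp
  · intro b _ hb
    rw [pderiv_X_of_ne (Ne.symm hb)]
    simp
  · intro hn
    exact absurd (Finset.mem_univ k) hn

theorem D0_fp (x y : Fin (m + 2) → K) :
    D0 x y (1 + fp (Fin (m + 2)) Δ.a) = ∑ k, (Δ.a k : K) * x k ^ (Δ.a k - 1) * y k := by
  classical
  rw [D0_add, D0_one, zero_add]
  unfold D0 fp
  refine Finset.sum_congr rfl fun k _ => ?_
  congr 1
  rw [map_sum, Finset.sum_eq_single k]
  · rw [pderiv_pow, pderiv_X_self, mul_one]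
    simp
  · intro b _ hb
    rw [pderiv_pow, pderiv_X_of_ne hb, mul_zero]
  · intro hn
    exact absurd (Finset.mem_univ k) hn

theorem D0_ker (h : IsFun Δ K x) {y : Fin (m + 2) → K}
    (hy : ∑ k, (Δ.a k : K) * x k ^ (Δ.a k - 1) * y k = 0) {P : MvPolynomial (Fin (m + 2)) ℂ}
    (hP : aeval x P = 0) : D0 x y P = 0 := by
  obtain ⟨Q, rfl⟩ := h.ker P hP
  have h1 : aeval x (1 + fp (Fin (m + 2)) Δ.a) = 0 := by
    have := h.eqn
    simpa [fp] using this
  rw [D0_mul, D0_fp, hy, h1, zero_mul, mul_zero, add_zero]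

theorem D0_wd (h : IsFun Δ K x) {y : Fin (m + 2) → K}
    (hy : ∑ k, (Δ.a k : K) * x k ^ (Δ.a k - 1) * y k = 0)
    {P Q P' Q' : MvPolynomial (Fin (m + 2)) ℂ} {z : K} (hQ : aeval x Q ≠ 0)
    (hQ' : aeval x Q' ≠ 0) (hz : z * aeval x Q = aeval x P) (hz' : z * aeval x Q' = aeval x P') :
    (D0 x y P - z * D0 x y Q) / aeval x Q = (D0 x y P' - z * D0 x y Q') / aeval x Q' := by
  have h1 : aeval x (P * Q' - P' * Q) = 0 := by
    rw [map_sub, map_mul, map_mul, ← hz, ← hz']
    ring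
  have h2 := D0_ker h hy h1
  rw [D0_sub, D0_mul, D0_mul, ← hz, ← hz'] at h2
  rw [div_eq_div_iff hQ hQ']
  linear_combination h2

/-- derivations with prescribed values -/
theorem exists_der (h : IsFun Δ K x) (y : Fin (m + 2) → K)
    (hy : ∑ k, (Δ.a k : K) * x k ^ (Δ.a k - 1) * y k = 0) :
    ∃ D : Derivation ℂ K K, ∀ k, D (x k) = y k := by
  choose P Q hQ hPQ using h.gen
  let F : K → K := fun z => (D0 x y (P z) - z * D0 x y (Q z)) / aeval x (Q z)
  have hF : ∀ (z : K) (A B : MvPolynomial (Fin (m + 2)) ℂ), aeval x B ≠ 0 →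
      z * aeval x B = aeval x A → F z = (D0 x y A - z * D0 x y B) / aeval x B := by
    intro z A B hB hz
    exact D0_wd h hy (hQ z) hB (hPQ z) hz
  have hadd : ∀ z w, F (z + w) = F z + F w := by
    intro z w
    have h1 : aeval x (Q z * Q w) ≠ 0 := by
      rw [map_mul]
      exact mul_ne_zero (hQ z) (hQ w)
    rw [hF (z + w) (P z * Q w + P w * Q z) (Q z * Q w) h1
      (by rw [map_mul, map_add, map_mul, map_mul, ← hPQ z, ← hPQ w]; ring)]
    simp only [F]
    rw [D0_add, D0_mul, D0_mul, D0_mul, map_mul, ← hPQ z, ← hPQ w]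
    have := hQ z
    have := hQ w
    field_simp
    ring
  have hsmul : ∀ (c : ℂ) (z : K), F (c • z) = c • F z := by
    intro c z
    rw [hF (c • z) (c • P z) (Q z) (hQ z)
      (by rw [map_smul, ← hPQ z, Algebra.smul_def, Algebra.smul_def]; ring)]
    simp only [F]
    rw [D0_smul, Algebra.smul_def, Algebra.smul_def]
    ring
  have hmul : ∀ z w, F (z * w) = z • F w + w • F z := by
    intro z w
    have h1 : aeval x (Q z * Q w) ≠ 0 := by
      rw [map_mul]
      exact mul_ne_zero (hQ z) (hQ w)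
    rw [hF (z * w) (P z * P w) (Q z * Q w) h1
      (by rw [map_mul, map_mul, ← hPQ z, ← hPQ w]; ring)]
    simp only [F, smul_eq_mul]
    rw [D0_mul, D0_mul, map_mul, ← hPQ z, ← hPQ w]
    have := hQ z
    have := hQ w
    field_simp
    ring
  refine ⟨Derivation.mk' ⟨⟨F, hadd⟩, hsmul⟩ hmul, fun k => ?_⟩
  change F (x k) = y k
  rw [hF (x k) (X k) 1 (by simp) (by simp), D0_X, D0_one]
  simp

theorem charZero : CharZero K :=
  charZero_of_injective_algebraMap (algebraMap ℂ K).injective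

theorem cne (h : IsFun Δ K x) (j : Fin (m + 2)) : (Δ.a j : K) * x j ^ (Δ.a j - 1) ≠ 0 := by
  have : CharZero K := charZero
  refine mul_ne_zero ?_ (pow_ne_zero _ (xne h j))
  have := Δ.wt.two_le j
  exact_mod_cast (by omega : Δ.a j ≠ 0)

/-- the dual derivations -/
theorem exists_dual (h : IsFun Δ K x) (j : Fin (m + 2)) :
    ∃ δ : Fin (m + 1) → Derivation ℂ K K, ∀ i k, δ i (but x j k) = if i = k then 1 else 0 := by
  classical
  have key : ∀ i : Fin (m + 1), ∃ D : Derivation ℂ K K,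
      ∀ k, D (but x j k) = if i = k then 1 else 0 := by
    intro i
    let c : Fin (m + 2) → K := fun k => (Δ.a k : K) * x k ^ (Δ.a k - 1)
    obtain ⟨D, hD⟩ := exists_der h
      (fun k => if k = j then - c (j.succAbove i) / c j
        else if k = j.succAbove i then 1 else 0) (by
        rw [Fin.sum_univ_succAbove _ j]
        rw [Finset.sum_eq_single i]
        · simp only [if_true, if_neg (Fin.succAbove_ne j i)]
          have h1 := cne h j
          change c j ≠ 0 at h1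
          change c j * (-c (j.succAbove i) / c j) + c (j.succAbove i) * 1 = 0
          rw [mul_div_cancel₀ _ h1]
          ring
        · intro b _ hb
          rw [if_neg (Fin.succAbove_ne j b), if_neg, mul_zero]
          intro hc
          exact hb (Fin.succAbove_right_injective hc)
        · intro hn
          exact absurd (Finset.mem_univ i) hn)
    refine ⟨D, fun k => ?_⟩
    rw [but, hD, if_neg (Fin.succAbove_ne j k)]
    by_cases hik : i = k
    · rw [if_pos (by rw [hik]), if_pos hik]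
    · rw [if_neg hik, if_neg]
      intro hc
      exact hik (Fin.succAbove_right_injective hc).symm
  choose δ hδ using key
  exact ⟨δ, hδ⟩

/-- every derivation satisfies the differential of the equation -/
theorem der_rel (h : IsFun Δ K x) (D : Derivation ℂ K K) :
    ∑ k, ((Δ.a k : K) * x k ^ (Δ.a k - 1)) * D (x k) = 0 := by
  have h1 := congrArg D h.eqn
  rw [map_add, map_zero, map_sum, Derivation.map_one_eq_zero, zero_add] at h1
  rw [← h1]
  refine Finset.sum_congr rfl fun k _ => ?_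
  rw [Derivation.leibniz_pow]
  simp only [smul_eq_mul, nsmul_eq_mul]
  ring

theorem chain_dual (j : Fin (m + 2)) (i : Fin (m + 1)) (D : Derivation ℂ K K)
    (hD : ∀ k, D (but x j k) = if i = k then 1 else 0)
    (P : MvPolynomial (Option (Fin (m + 2))) ℂ) (hP : some j ∉ P.vars) :
    D (dhP x P) = dhP x (pderiv (some (j.succAbove i)) P) := by
  classical
  rw [dhP, chain, Fintype.sum_option]
  have h1 : D ((none : Option (Fin (m + 2))).elim 1 x) = 0 := by
    rw [Option.elim_none, Derivation.map_one_eq_zero]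
  rw [h1, mul_zero, zero_add, Fin.sum_univ_succAbove _ j,
    pderiv_eq_zero_of_notMem_vars hP, map_zero, zero_mul, zero_add, Finset.sum_eq_single i]
  · have h2 := hD i
    rw [if_pos rfl, but] at h2
    rw [Option.elim_some, h2, mul_one]
  · intro b _ hb
    have h2 := hD b
    rw [if_neg (Ne.symm hb), but] at h2
    rw [Option.elim_some, h2, mul_zero]
  · intro hn
    exact absurd (Finset.mem_univ i) hn

theorem dform_apply {n : ℕ} (z : Fin n → K) (E : Fin n → Derivation ℂ K K) :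
    dform z E = Matrix.det (Matrix.of fun a k => E a (z k)) := rfl

theorem det_rel (h : IsFun Δ K x) (j : Fin (m + 2)) : ∃ u : ℤˣ,
    ∀ E : Fin (m + 1) → Derivation ℂ K K,
    ((Δ.a 0 : K) * x 0 ^ (Δ.a 0 - 1)) * dform (but x j) E =
      ((u : ℤ) : K) * (((Δ.a j : K) * x j ^ (Δ.a j - 1)) * dform (but x 0) E) := by
  classical
  refine ⟨Int.negOnePow (((j : Fin (m + 2)) : ℕ) - (((0 : Fin (m + 2)) : Fin (m + 2)) : ℕ)),
    fun E => ?_⟩
  let c : Fin (m + 2) → K := fun k => (Δ.a k : K) * x k ^ (Δ.a k - 1)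
  have hc : ∀ k, c k ≠ 0 := fun k => cne h k
  let M : Matrix (Fin (m + 1)) (Fin (m + 2)) K := fun a k => c k * E a (x k)
  have hM : ∀ a, ∑ k, M a k = 0 := fun a => der_rel h (E a)
  have h1 := Matrix.submatrix_succAbove_det_eq_negOnePow_submatrix_succAbove_det' M hM j 0
  have h2 : ∀ l : Fin (m + 2), (M.submatrix id l.succAbove).det =
      (∏ k, c (l.succAbove k)) * dform (but x l) E := by
    intro l
    rw [dform_apply, ← Matrix.det_mul_row]
    rfl
  have h3 : ∀ l : Fin (m + 2), c l * ∏ k, c (l.succAbove k) = ∏ k, c k := fun l =>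
    (Fin.prod_univ_succAbove _ l).symm
  rw [h2, h2] at h1
  have h4 : ∏ k, c k ≠ 0 := Finset.prod_ne_zero_iff.mpr fun k _ => hc k
  apply mul_left_cancel₀ h4
  have h6 := congrArg (fun t => c j * c 0 * t) h1
  have h7 : c j * c 0 * ((∏ k, c (j.succAbove k)) * dform (but x j) E) =
      (∏ k, c k) * (c 0 * dform (but x j) E) := by
    rw [← h3 j]
    ring
  rw [h7] at h6
  change (∏ k, c k) * (c 0 * dform (but x j) E) = _
  rw [h6, Units.smul_def, zsmul_eq_mul]
  change _ = (∏ k, c k) * (_ * (c j * dform (but x 0) E))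
  rw [← h3 0]
  ring

end

end DerM

open DerM in
/-- DER. -/
theorem specDER : SpecDER := by
  intro m Δ hm K _ _ x h
  classical
  refine ⟨?_, fun j => ⟨?_, ?_⟩⟩
  · obtain ⟨δ, hδ⟩ := exists_dual h 0
    intro h0
    have h1 := congrArg (fun η : TopForm K (m + 1) => η δ) h0
    simp only [omega, AlternatingMap.smul_apply, AlternatingMap.zero_apply, smul_eq_mul] at h1
    rcases mul_eq_zero.mp h1 with h2 | h2
    · exact inv_ne_zero (cne h 0) h2
    · rw [dform_apply] at h2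
      have h3 : (Matrix.of fun a k => δ a (but x 0 k)) = (1 : Matrix (Fin (m + 1)) (Fin (m + 1)) K) := by
        ext a k
        rw [Matrix.of_apply, hδ, Matrix.one_apply]
      rw [h3, Matrix.det_one] at h2
      exact one_ne_zero h2
  · obtain ⟨δ, hδ⟩ := exists_dual h j
    exact ⟨δ, hδ, fun i P hP => chain_dual j i (δ i) (hδ i) P hP⟩
  · obtain ⟨u, hu⟩ := det_rel h j
    refine ⟨((u : ℤ) : K), ?_, ?_⟩
    · rcases Int.units_eq_one_or u with h1 | h1
      · left; rw [h1]; simp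
      · right; rw [h1]; simp
    · ext E
      have h1 := hu E
      have h2 := cne h 0
      simp only [omega, AlternatingMap.smul_apply, smul_eq_mul]
      apply mul_left_cancel₀ h2
      rw [h1, mul_left_comm (_ * x 0 ^ (Δ.a 0 - 1)), mul_inv_cancel_left₀ h2]
      ring

end

end Pool.Agent.Lib.MPa7508c
end

section
/-!
# DESC: repeated differentiation
-/
set_option autoImplicit false

namespace Pool.Agent.Lib.MPa7508c

open MvPolynomial

noncomputable section

namespace DescM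

theorem not_mem_vars_pderiv {σ : Type} {i k : σ} {P : MvPolynomial σ ℂ} (h : k ∉ P.vars) :
    k ∉ (pderiv i P).vars := by
  classical
  intro hk
  apply h
  rw [mem_vars_iff_mem_support] at hk ⊢
  obtain ⟨d, hd, hkd⟩ := hk
  rw [mem_support_iff, coeff_pderiv] at hd
  refine ⟨d + Finsupp.single i 1, ?_, ?_⟩
  · rw [mem_support_iff]
    exact left_ne_zero_of_mul hd
  · rw [Finsupp.mem_support_iff] at hkd ⊢
    rw [Finsupp.add_apply]
    omega

/-- the order of a nonzero constant is zero -/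
theorem ord_const {K : Type} [Field K] [Algebra ℂ K] {v : ValuationSubring K}
    (hL : OrdLaws v) (hC : ∀ a : ℂ, algebraMap ℂ K a ∈ v) (a : ℂ) (ha : a ≠ 0) :
    ord v (algebraMap ℂ K a) = 0 := by
  have h1 : algebraMap ℂ K a ≠ 0 := by
    rw [Ne, map_eq_zero]
    exact ha
  have h2 : algebraMap ℂ K a⁻¹ ≠ 0 := by
    rw [Ne, map_eq_zero]
    exact inv_ne_zero ha
  have h3 := (hL.nonneg _ h1).mpr (hC a)
  have h4 := (hL.nonneg _ h2).mpr (hC a⁻¹)
  have h5 := hL.mul _ _ h1 h2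
  have h6 := hL.mul (1 : K) 1 one_ne_zero one_ne_zero
  rw [← map_mul, mul_inv_cancel₀ ha, map_one] at h5
  rw [mul_one] at h6
  omega

theorem homog_zero {σ : Type} {w : σ → ℕ} (hw : ∀ i, w i ≠ 0) {H : MvPolynomial σ ℂ}
    (hH : IsWeightedHomogeneous w H 0) : H = C (coeff 0 H) := by
  rw [← weightedHomogeneousComponent_zero H hw, hH.weightedHomogeneousComponent_same]

theorem main {m : ℕ} (Δ : Dat m) (K : Type) [Field K] [Algebra ℂ K]
    (x : Fin (m + 2) → K) (v : ValuationSubring K) (hL : OrdLaws v)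
    (hC : ∀ a : ℂ, algebraMap ℂ K a ∈ v) (j : Fin (m + 2))
    (δ : Fin (m + 1) → Derivation ℂ K K) (c : Fin (m + 2) → ℚ)
    (h1 : ∀ (i : Fin (m + 1)) (P : MvPolynomial (Option (Fin (m + 2))) ℂ), some j ∉ P.vars →
      δ i (dhP x P) = dhP x (pderiv (some (j.succAbove i)) P))
    (h2 : ∀ (i : Fin (m + 1)) (z : K), δ i z ≠ 0 →
      (ord v z : ℚ) - c (j.succAbove i) ≤ (ord v (δ i z) : ℚ)) (n : ℕ) :
    ∀ (d : ℕ) (H : MvPolynomial (Option (Fin (m + 2))) ℂ) (α : Option (Fin (m + 2)) →₀ ℕ),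
      IsWeightedHomogeneous Δ.ww H d → some j ∉ H.vars → α none = 0 → coeff α H ≠ 0 →
      ∑ o, α o = n →
      dhP x H ≠ 0 ∧ (ord v (dhP x H) : ℚ) ≤ ∑ i, (α (some i) : ℚ) * c i := by
  classical
  have hww : ∀ o, Δ.ww o ≠ 0 := by
    intro o
    cases o with
    | none => exact one_ne_zero
    | some i => exact (Δ.wt.pos i).ne'
  induction n with
  | zero =>
    intro d H α hH _ _ hα hn
    have hα0 : α = 0 := by
      ext o
      have := (Finset.sum_eq_zero_iff.mp hn) o (Finset.mem_univ o)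
      simpa using this
    subst hα0
    have hd : d = 0 := by
      have := hH hα
      rw [map_zero] at this
      exact this.symm
    subst hd
    have hHC := homog_zero hww hH
    have h3 : dhP x H = algebraMap ℂ K (coeff 0 H) := by
      conv_lhs => rw [hHC]
      simp [dhP]
    rw [h3]
    refine ⟨?_, ?_⟩
    · rw [Ne, map_eq_zero]
      exact hα
    · rw [ord_const hL hC _ hα]
      simp
  | succ n ih =>
    intro d H α hH hj h0 hα hn
    -- choose a variable which occurs in `α`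
    have hex : ∃ o, α o ≠ 0 := by
      by_contra hcon
      push Not at hcon
      have : ∑ o, α o = 0 := Finset.sum_eq_zero (fun o _ => hcon o)
      omega
    obtain ⟨o, ho⟩ := hex
    have hαs : α ∈ H.support := mem_support_iff.mpr hα
    obtain ⟨k, rfl⟩ : ∃ k, o = some k := by
      cases o with
      | none => exact absurd h0 ho
      | some k => exact ⟨k, rfl⟩
    have hkj : k ≠ j := by
      intro h
      subst h
      apply hj
      rw [mem_vars_iff_mem_support]
      exact ⟨α, hαs, Finsupp.mem_support_iff.mpr ho⟩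
    obtain ⟨i, rfl⟩ := Fin.exists_succAbove_eq hkj
    set o := some (j.succAbove i) with ho'
    set α' := α - Finsupp.single o 1 with hα'
    have hαα : α' + Finsupp.single o 1 = α := by
      rw [hα']
      apply tsub_add_cancel_of_le
      rw [Finsupp.single_le_iff]
      omega
    -- the derivative
    have hw : d = (d - Δ.ww o) + Δ.ww o := by
      have h3 := hH hα
      rw [← hαα, map_add, Finsupp.weight_single, one_smul] at h3
      omega
    have hH' : IsWeightedHomogeneous Δ.ww (pderiv o H) (d - Δ.ww o) := hH.pderiv hw.symm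
    have hj' : some j ∉ (pderiv o H).vars := not_mem_vars_pderiv hj
    have h0' : α' none = 0 := by
      rw [hα', Finsupp.tsub_apply, h0, Nat.zero_sub]
    have hc' : coeff α' (pderiv o H) ≠ 0 := by
      rw [coeff_pderiv, hαα]
      exact mul_ne_zero hα (Nat.cast_add_one_ne_zero (R := ℂ) (α' o))
    have hn' : ∑ o, α' o = n := by
      have h3 : ∑ o', α o' = ∑ o', α' o' + 1 := by
        rw [← hαα]
        simp only [Finsupp.add_apply, Finset.sum_add_distrib]
        congr 1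
        rw [Finset.sum_eq_single o]
        · simp
        · intro b _ hb
          exact Finsupp.single_eq_of_ne hb
        · intro h
          exact absurd (Finset.mem_univ _) h
      omega
    obtain ⟨hne, hle⟩ := ih _ _ _ hH' hj' h0' hc' hn'
    have hδ : δ i (dhP x H) = dhP x (pderiv o H) := h1 i H hj
    have hδ0 : δ i (dhP x H) ≠ 0 := by rw [hδ]; exact hne
    refine ⟨fun h => hδ0 (by rw [h, map_zero]), ?_⟩
    have h3 := h2 i _ hδ0
    rw [hδ] at h3
    have h4 : ∑ k, (α (some k) : ℚ) * c k = ∑ k, (α' (some k) : ℚ) * c k + c (j.succAbove i) := by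
      rw [← hαα]
      simp only [Finsupp.add_apply, Nat.cast_add, add_mul, Finset.sum_add_distrib]
      congr 1
      rw [Finset.sum_eq_single (j.succAbove i)]
      · rw [ho', Finsupp.single_eq_same]
        simp
      · intro b _ hb
        rw [ho', Finsupp.single_eq_of_ne (by simpa using hb)]
        simp
      · intro h
        exact absurd (Finset.mem_univ _) h
    rw [h4]
    linarith

end DescM

theorem specDESC (hORD : SpecORD) : SpecDESC := by
  intro m Δ K _ _ x v hv hC j δ c h1 h2 d H α hH hj h0 hα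
  exact (DescM.main Δ K x v (hORD K v hv) hC j δ c h1 h2 _ d H α hH hj h0 hα rfl).2

end

end Pool.Agent.Lib.MPa7508c
end

section
/-!
# DIVD: Weil divisors are divisors of homogeneous fractions
-/
set_option autoImplicit false

namespace Pool.Agent.Lib.MPa7508c

open MvPolynomial

noncomputable section

namespace DivdM

variable {m : ℕ} {Δ : Dat m}

theorem mult_eq_zero (hR : RingLaws Δ) {p r : Δ.R} (hp : Prime p) (hr : r ≠ 0) (h : ¬ p ∣ r) :
    mult p r = 0 := by
  by_contra hne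
  have h1 : 1 ≤ mult p r := Nat.one_le_iff_ne_zero.mpr hne
  rw [hR.mult_le p r 1 hp hr, pow_one] at h1
  exact h h1

theorem mult_one (hR : RingLaws Δ) {p : Δ.R} (hp : Prime p) : mult p (1 : Δ.R) = 0 := by
  haveI := hR.dom
  exact mult_eq_zero hR hp one_ne_zero (fun h => hp.not_unit (isUnit_of_dvd_one h))

theorem mult_pow (hR : RingLaws Δ) {p r : Δ.R} (hp : Prime p) (hr : r ≠ 0) (n : ℕ) :
    mult p (r ^ n) = n * mult p r := by
  haveI := hR.dom
  induction n with
  | zero => simp [mult_one hR hp]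
  | succ n ih => rw [pow_succ, hR.mult_mul p _ _ hp (pow_ne_zero _ hr) hr, ih]; ring

theorem mult_prime (hR : RingLaws Δ) {p p' : Δ.R} (hp : Prime p) (hp' : Prime p') (h : p ∣ p') :
    mult p p' = 1 := by
  haveI := hR.dom
  have h1 : 1 ≤ mult p p' := by
    rw [hR.mult_le p p' 1 hp hp'.ne_zero, pow_one]; exact h
  have h2 : ¬ 2 ≤ mult p p' := by
    rw [hR.mult_le p p' 2 hp hp'.ne_zero]
    rintro ⟨c, hc⟩
    have hirr := hp'.irreducible
    have h3 : p' = p * (p * c) := by rw [hc]; ring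
    rcases hirr.isUnit_or_isUnit h3 with h4 | h4
    · exact hp.not_unit h4
    · exact hp.not_unit (isUnit_of_mul_isUnit_left h4)
  omega

theorem mult_prod (hR : RingLaws Δ) {ι : Type} (S : Finset ι) (f : ι → Δ.R) (n : ι → ℕ)
    (hf : ∀ i ∈ S, f i ≠ 0) {p : Δ.R} (hp : Prime p) :
    mult p (∏ i ∈ S, f i ^ n i) = ∑ i ∈ S, n i * mult p (f i) := by
  classical
  haveI := hR.dom
  induction S using Finset.induction_on with
  | empty => simp [mult_one hR hp]
  | insert a S ha ih =>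
    have h1 : ∀ i ∈ S, f i ≠ 0 := fun i hi => hf i (Finset.mem_insert_of_mem hi)
    have h2 : f a ≠ 0 := hf a (Finset.mem_insert_self _ _)
    rw [Finset.prod_insert ha, Finset.sum_insert ha,
      hR.mult_mul p _ _ hp (pow_ne_zero _ h2)
        (Finset.prod_ne_zero_iff.mpr (fun i hi => pow_ne_zero _ (h1 i hi))),
      mult_pow hR hp h2, ih h1]

theorem card_pos (m : ℕ) : 1 ≤ Fintype.card (Option (Fin (m + 2))) := by
  simp

theorem wt (Δ : Dat m) : Wt Δ.b Δ.ww Δ.L where
  mul := by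
    intro i
    cases i with
    | none => simp [Dat.b, Dat.ww]
    | some i => simpa [Dat.b, Dat.ww] using Δ.wt.mul i
  two_le := by
    intro i
    cases i with
    | none => simpa [Dat.b] using Δ.two_le_L
    | some i => simpa [Dat.b] using Δ.wt.two_le i
  pos := by
    intro i
    cases i with
    | none => simp [Dat.ww]
    | some i => simpa [Dat.ww] using Δ.wt.pos i

theorem gr (hG : SpecGR) (Δ : Dat m) : GrLaws Δ.b Δ.ww := hG _ _ _ _ (card_pos m) (wt Δ)

theorem one_mem (hG : GrLaws Δ.b Δ.ww) : (1 : Δ.R) ∈ Δ.hm 0 :=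
  (hG.zero 1).mpr ⟨1, by simp⟩

theorem pow_mem (hG : GrLaws Δ.b Δ.ww) {r : Δ.R} {d : ℕ} (hr : r ∈ Δ.hm d) (n : ℕ) :
    r ^ n ∈ Δ.hm (n * d) := by
  induction n with
  | zero => simpa using one_mem hG
  | succ n ih =>
    rw [pow_succ, Nat.succ_mul]
    exact hG.mul _ _ _ _ ih hr

theorem prod_mem (hG : GrLaws Δ.b Δ.ww) {ι : Type} (S : Finset ι) (f : ι → Δ.R) (n d : ι → ℕ)
    (hf : ∀ i ∈ S, f i ∈ Δ.hm (d i)) : ∏ i ∈ S, f i ^ n i ∈ Δ.hm (∑ i ∈ S, n i * d i) := by
  classical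
  induction S using Finset.induction_on with
  | empty => simpa using one_mem hG
  | insert a S ha ih =>
    rw [Finset.prod_insert ha, Finset.sum_insert ha]
    exact hG.mul _ _ _ _ (pow_mem hG (hf a (Finset.mem_insert_self _ _)) _)
      (ih (fun i hi => hf i (Finset.mem_insert_of_mem hi)))

end DivdM

open DivdM in
theorem specDIVD (hGR : SpecGR) (hRNG : SpecRNG) (hDIVX : SpecDIVX) (hDIVO : SpecDIVO)
    (hTHR : SpecTHR) :
    SpecDIVD := by
  intro m Δ hm hU K _ _ x h D hD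
  classical
  have hR := hRNG m Δ hm
  haveI := hR.dom
  have hG := gr hGR Δ
  have hfin : {F | IsPrimeDiv (locs Δ x) F ∧ D F ≠ 0}.Finite := hD
  have hch : ∀ F : ValuationSubring K, ∃ (p : Δ.R) (e : ℕ),
      IsPrimeDiv (locs Δ x) F → IsDivOf h F p e := by
    intro F
    by_cases hF : IsPrimeDiv (locs Δ x) F
    · obtain ⟨p, e, hpe⟩ := hDIVO m Δ hm hU K x h F hF
      exact ⟨p, e, fun _ => hpe⟩
    · exact ⟨0, 0, fun h' => absurd h' hF⟩
  choose pF eF hpF using hch
  set S : Finset (ValuationSubring K) := hfin.toFinset with hS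
  have hSmem : ∀ F, F ∈ S ↔ IsPrimeDiv (locs Δ x) F ∧ D F ≠ 0 := by
    intro F; rw [hS, Set.Finite.mem_toFinset]; rfl
  have hdiv : ∀ F ∈ S, IsDivOf h F (pF F) (eF F) := fun F hF => hpF F ((hSmem F).mp hF).1
  have hne : ∀ F ∈ S, pF F ≠ 0 := fun F hF => (hdiv F hF).prime.ne_zero
  refine ⟨∑ F ∈ S, (D F).toNat * eF F, ∑ F ∈ S, (-D F).toNat * eF F,
    ∏ F ∈ S, pF F ^ (D F).toNat, ∏ F ∈ S, pF F ^ (-D F).toNat, ?_⟩
  refine ⟨prod_mem hG S pF _ eF (fun F hF => (hdiv F hF).hom),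
    prod_mem hG S pF _ eF (fun F hF => (hdiv F hF).hom),
    Finset.prod_ne_zero_iff.mpr (fun F hF => pow_ne_zero _ (hne F hF)),
    Finset.prod_ne_zero_iff.mpr (fun F hF => pow_ne_zero _ (hne F hF)), ?_⟩
  intro F p k hF
  rw [mult_prod hR S pF _ hne hF.prime, mult_prod hR S pF _ hne hF.prime]
  have hthr := (hTHR m Δ hm K x h F p k hF).2
  have key : ∀ G ∈ S, mult p (pF G) = if G = F then 1 else 0 := by
    intro G hG'
    have h1 := hthr G (pF G) (eF G) (hdiv G hG')
    split_ifs with h2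
    · exact mult_prime hR hF.prime (hdiv G hG').prime (h1.mpr h2.symm)
    · exact mult_eq_zero hR hF.prime (hne G hG') (fun h3 => h2 (h1.mp h3).symm)
  have e1 : ∑ G ∈ S, (D G).toNat * mult p (pF G) = if F ∈ S then (D F).toNat else 0 := by
    rw [Finset.sum_congr rfl (fun G hG' => by rw [key G hG'])]
    simp
  have e2 : ∑ G ∈ S, (-D G).toNat * mult p (pF G) = if F ∈ S then (-D F).toNat else 0 := by
    rw [Finset.sum_congr rfl (fun G hG' => by rw [key G hG'])]
    simp
  rw [e1, e2]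
  by_cases hFS : F ∈ S
  · rw [if_pos hFS, if_pos hFS]; omega
  · rw [if_neg hFS, if_neg hFS]
    have hprime : IsPrimeDiv (locs Δ x) F := ((hDIVX m Δ hm K x h).2 F p k hF).1
    have : D F = 0 := by
      by_contra h0
      exact hFS ((hSmem F).mpr ⟨hprime, h0⟩)
    rw [this]; simp

end

end Pool.Agent.Lib.MPa7508c
end

section
/-!
# EXC: the residues of the coordinates at an exceptional divisor
-/
set_option autoImplicit false
set_option linter.unusedSectionVars false
set_option linter.unusedVariables false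

namespace Pool.Agent.Lib.MPa7508c

open MvPolynomial

noncomputable section

namespace ExcM

section Gen

variable {K : Type} [Field K] [Algebra ℂ K]

/-- a discrete valuation ring contains everything integral over a subfield which it contains -/
theorem mem_of_integral (v : ValuationSubring K) (F : Subfield K) (hF : ∀ a ∈ F, a ∈ v) {z : K}
    (hz : IsIntegral F z) : z ∈ v := by
  obtain ⟨f, hf, hfz⟩ := hz
  let inc : F →+* v := RingHom.codRestrict F.subtype v (fun a => hF a a.2)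
  have h1 : IsIntegral v z := by
    refine ⟨f.map inc, hf.map inc, ?_⟩
    rw [Polynomial.eval₂_map]
    exact hfz
  obtain ⟨y, hy⟩ := (IsIntegrallyClosed.isIntegral_iff (R := v) (K := K)).1 h1
  rw [← hy]
  exact y.2

variable {m : ℕ} {Δ : Dat m} {x : Fin (m + 2) → K}

theorem integral_all (h : IsFun Δ K x) (FL : FunLaws h) (F : Subfield K)
    (hc : ∀ c : ℂ, algebraMap ℂ K c ∈ F) (j : Fin (m + 2))
    (hz : ∀ k, k ≠ j → IsIntegral F (x k)) (z : K) : IsIntegral F z := by
  have hC : ∀ c : ℂ, IsIntegral F (algebraMap ℂ K c) := fun c =>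
    isIntegral_algebraMap (R := F) (x := ⟨algebraMap ℂ K c, hc c⟩)
  have hj : IsIntegral F (x j) := by
    have ha : 0 < Δ.a j := by have := Δ.wt.two_le j; omega
    apply IsIntegral.of_pow ha
    have h1 : x j ^ Δ.a j = -(1 + ∑ k ∈ Finset.univ.erase j, x k ^ Δ.a k) := by
      have := h.eqn
      rw [← Finset.add_sum_erase _ _ (Finset.mem_univ j)] at this
      linear_combination this
    rw [h1]
    apply IsIntegral.neg
    apply IsIntegral.add isIntegral_one
    apply IsIntegral.sum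
    intro k hk
    exact (hz k (Finset.ne_of_mem_erase hk)).pow _
  have hx : ∀ k, IsIntegral F (x k) := fun k => by
    by_cases hk : k = j
    · rw [hk]; exact hj
    · exact hz k hk
  have hP : ∀ P : MvPolynomial (Option (Fin (m + 2))) ℂ, IsIntegral F (dhP x P) := by
    intro P
    induction P using MvPolynomial.induction_on with
    | C c => rw [← MvPolynomial.algebraMap_eq, AlgHom.commutes]; exact hC c
    | add P Q hP hQ => rw [map_add]; exact hP.add hQ
    | mul_X P o hP =>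
      rw [map_mul, VhM.dhP_X]
      apply hP.mul
      cases o with
      | none => exact isIntegral_one
      | some k => exact hx k
  obtain ⟨d, r, s, hr, hs, hs0, hzz⟩ := FL.frac z
  obtain ⟨P, -, rfl⟩ := VhM.exists_lift hr
  obtain ⟨Q, -, rfl⟩ := VhM.exists_lift hs
  have hQ : dh h (mkF Δ.b Q) ≠ 0 := fun h0 => hs0 (FL.inj d _ hs h0)
  have h1 : z = dh h (mkF Δ.b P) * (dh h (mkF Δ.b Q))⁻¹ := by
    rw [← hzz, mul_assoc, mul_inv_cancel₀ hQ, mul_one]
  rw [h1, dh_mk, dh_mk]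
  exact (hP P).mul (hP Q).inv

theorem unit_iff {v : ValuationSubring K} (L : OrdLaws v) (a : v) (ha : (a : K) ≠ 0) :
    IsUnit a ↔ ord v (a : K) = 0 := by
  constructor
  · rintro ⟨u, rfl⟩
    apply VhM.ord_unit L ha (u : v).2
    have h1 : ((u : v) : K) * ((u⁻¹ : vˣ) : v) = 1 := by
      have := u.mul_inv
      exact_mod_cast congrArg (Subtype.val) this
    have h2 : ((u : v) : K)⁻¹ = (((u⁻¹ : vˣ) : v) : K) := by
      rw [eq_comm, ← mul_right_inj' ha, h1, mul_inv_cancel₀ ha]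
    rw [h2]
    exact ((u⁻¹ : vˣ) : v).2
  · intro h0
    have h1 : (a : K)⁻¹ ∈ v := by
      rw [← L.nonneg _ (inv_ne_zero ha), VhM.ord_inv L ha, h0]
      simp
    refine IsUnit.of_mul_eq_one ⟨(a : K)⁻¹, h1⟩ ?_
    apply Subtype.ext
    exact mul_inv_cancel₀ ha

theorem res_iff {v : ValuationSubring K} (L : OrdLaws v) (a : v) (ha : (a : K) ≠ 0) :
    IsLocalRing.residue v a = 0 ↔ 0 < ord v (a : K) := by
  rw [IsLocalRing.residue_eq_zero_iff, IsLocalRing.mem_maximalIdeal, mem_nonunits_iff,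
    unit_iff L a ha]
  have := (L.nonneg _ ha).2 a.2
  omega

/-- the core: `O` is dominated by `v`, contains a subfield `F` and `F[y][t]` has fraction field
`K`. -/
theorem core {v : ValuationSubring K} (L : OrdLaws v) (hdvr : IsDiscreteValuationRing v)
    (F : Subfield K) (O : Subring K) (hF : ∀ a ∈ F, a ∈ O) (hOv : ∀ a ∈ O, a ∈ v)
    (hdom : ∀ a ∈ O, a⁻¹ ∈ v → a⁻¹ ∈ O) (y t : K) (hy : y ∈ O) (ht : t ∈ O) (n : ℕ)
    (hnv : (n : K) ≠ 0 ∧ ord v (n : K) = 0)
    (ht0 : t ≠ 0 ∧ ord v t = 0)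
    (S : Set K) (hS : ∀ a ∈ S, ∃ f : Polynomial (Polynomial F),
      Polynomial.eval₂ (Polynomial.eval₂RingHom F.subtype y) t f = a)
    (hg : ∃ g : Polynomial F, Polynomial.eval₂ F.subtype y g = - t ^ n)
    (htr : ¬ IsIntegral F y)
    (hex : ∃ p : Polynomial F, p ≠ 0 ∧ 0 < ord v (Polynomial.eval₂ F.subtype y p))
    (hO : ∀ z ∈ O, ∃ a ∈ S, ∃ b ∈ S, b ≠ 0 ∧ ord v b = 0 ∧ z * b = a)
    (hK : ∀ z : K, ∃ a ∈ S, ∃ b ∈ S, b ≠ 0 ∧ z * b = a) : ∀ z ∈ v, z ∈ O := by
  classical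
  have hn0 : n ≠ 0 := by
    rintro rfl
    exact hnv.1 (by simp)
  have hvO : ∀ a ∈ O, a ≠ 0 → ord v a = 0 → a⁻¹ ∈ O := by
    intro a ha h0 h1
    apply hdom a ha
    rw [← L.nonneg _ (inv_ne_zero h0), VhM.ord_inv L h0, h1]
    simp
  -- the evaluation maps
  let inc : F →+* v := RingHom.codRestrict F.subtype v (fun a => hOv a (hF a a.2))
  let α : Polynomial F →+* v := Polynomial.eval₂RingHom inc ⟨y, hOv y hy⟩
  let β : Polynomial (Polynomial F) →+* v := Polynomial.eval₂RingHom α ⟨t, hOv t ht⟩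
  have hα : ∀ p : Polynomial F, ((α p : v) : K) = Polynomial.eval₂ F.subtype y p := by
    intro p
    show v.subtype (Polynomial.eval₂ inc ⟨y, hOv y hy⟩ p) = _
    rw [Polynomial.hom_eval₂]
    rfl
  have hβ : ∀ f : Polynomial (Polynomial F), ((β f : v) : K) =
      Polynomial.eval₂ (Polynomial.eval₂RingHom F.subtype y) t f := by
    intro f
    show v.subtype (Polynomial.eval₂ α ⟨t, hOv t ht⟩ f) = _
    rw [Polynomial.hom_eval₂]
    congr 1
    refine RingHom.ext fun p => ?_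
    exact hα p
  have hαO : ∀ p : Polynomial F, ((α p : v) : K) ∈ O := by
    intro p
    rw [hα, Polynomial.eval₂_eq_sum_range]
    exact sum_mem fun i _ => mul_mem (hF _ (p.coeff i).2) (pow_mem hy i)
  have hβO : ∀ f : Polynomial (Polynomial F), ((β f : v) : K) ∈ O := by
    intro f
    rw [hβ, Polynomial.eval₂_eq_sum_range]
    refine sum_mem fun i _ => mul_mem ?_ (pow_mem ht i)
    have := hαO (f.coeff i)
    rw [hα] at this
    exact this
  have hinj : ∀ p : Polynomial F, p ≠ 0 → ((α p : v) : K) ≠ 0 := by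
    intro p hp h0
    rw [hα] at h0
    apply htr
    have h1 : IsAlgebraic F y := ⟨p, hp, h0⟩
    exact h1.isIntegral
  -- the residue map
  let res : v →+* IsLocalRing.ResidueField v := IsLocalRing.residue v
  let αb : Polynomial F →+* IsLocalRing.ResidueField v := res.comp α
  let I : Ideal (Polynomial F) := RingHom.ker αb
  have hI : I.IsPrime := RingHom.ker_isPrime αb
  obtain ⟨p0, hp0, hp1⟩ := hex
  have hp0I : p0 ∈ I := by
    show res (α p0) = 0
    rw [res_iff L _ (hinj p0 hp0), hα]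
    exact hp1
  have hI0 : I ≠ ⊥ := fun hh => hp0 (by rw [hh] at hp0I; exact hp0I)
  have hImax : I.IsMaximal := IsPrime.to_maximal_ideal hI0
  obtain ⟨π, hπ⟩ := (IsPrincipalIdealRing.principal I).principal
  have hπmem : ∀ p, p ∈ I ↔ π ∣ p := by
    intro p
    rw [hπ]
    exact Ideal.mem_span_singleton
  have hπI : π ∈ I := (hπmem π).2 dvd_rfl
  have hπ0 : π ≠ 0 := by
    rintro rfl
    exact hp0 (zero_dvd_iff.1 ((hπmem p0).1 hp0I))
  have hπK : ((α π : v) : K) ≠ 0 := hinj π hπ0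
  have hπord : 0 < ord v ((α π : v) : K) := (res_iff L _ hπK).1 hπI
  let _ : Field (Polynomial F ⧸ I) := Ideal.Quotient.field I
  let _ : Algebra (Polynomial F ⧸ I) (IsLocalRing.ResidueField v) :=
    (RingHom.kerLift αb).toAlgebra
  have halg : ∀ p : Polynomial F, algebraMap (Polynomial F ⧸ I) (IsLocalRing.ResidueField v)
      (Ideal.Quotient.mk I p) = res (α p) := fun p => rfl
  let tb : IsLocalRing.ResidueField v := res ⟨t, hOv t ht⟩
  have heval : ∀ f : Polynomial (Polynomial F), res (β f) =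
      Polynomial.aeval tb (f.map (Ideal.Quotient.mk I)) := by
    intro f
    rw [Polynomial.aeval_def, Polynomial.eval₂_map]
    show res (Polynomial.eval₂ α ⟨t, hOv t ht⟩ f) = _
    rw [Polynomial.hom_eval₂]
    rfl
  obtain ⟨g, hg⟩ := hg
  have hgv : ((α g : v) : K) = - t ^ n := by rw [hα]; exact hg
  have htn : - t ^ n ≠ 0 := neg_ne_zero.2 (pow_ne_zero _ ht0.1)
  have htno : ord v (- t ^ n) = 0 := by
    rw [VhM.ord_neg L, VhM.ord_pow L ht0.1, ht0.2, mul_zero]
  have hgb : (Ideal.Quotient.mk I g) ≠ 0 := by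
    intro h0
    have h1 : res (α g) = 0 := by rw [← halg, h0, map_zero]
    rw [res_iff L _ (by rw [hgv]; exact htn), hgv, htno] at h1
    exact lt_irrefl _ h1
  have hnb : ((n : ℕ) : Polynomial F ⧸ I) ≠ 0 := by
    intro h0
    have h1 : res ((n : ℕ) : v) = 0 := by
      have h2 : (algebraMap (Polynomial F ⧸ I) (IsLocalRing.ResidueField v)) (n : Polynomial F ⧸ I)
        = res ((n : ℕ) : v) := by rw [map_natCast, map_natCast]
      rw [← h2, h0, map_zero]
    have h3 : (((n : ℕ) : v) : K) = (n : K) := by simp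
    rw [res_iff L _ (by rw [h3]; exact hnv.1), h3, hnv.2] at h1
    exact lt_irrefl _ h1
  -- the polynomial `X ^ n + g`
  set q : Polynomial (Polynomial F) := Polynomial.X ^ n + Polynomial.C g with hq
  have hβq : β q = 0 := by
    apply Subtype.ext
    show ((β q : v) : K) = 0
    rw [hβ, hq, Polynomial.eval₂_add, Polynomial.eval₂_pow, Polynomial.eval₂_X,
      Polynomial.eval₂_C]
    show t ^ n + Polynomial.eval₂ F.subtype y g = 0
    rw [hg]
    ring
  have hqb : q.map (Ideal.Quotient.mk I) = Polynomial.X ^ n -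
      Polynomial.C (-(Ideal.Quotient.mk I g)) := by
    rw [hq, Polynomial.map_add, Polynomial.map_pow, Polynomial.map_X, Polynomial.map_C,
      Polynomial.C_neg, sub_neg_eq_add]
  have hsep : (q.map (Ideal.Quotient.mk I)).Separable := by
    rw [hqb]
    exact Polynomial.separable_X_pow_sub_C _ hnb (neg_ne_zero.2 hgb)
  have hq0 : Polynomial.aeval tb (q.map (Ideal.Quotient.mk I)) = 0 := by
    rw [← heval, hβq, map_zero]
  have hint : IsIntegral (Polynomial F ⧸ I) tb := by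
    refine ⟨q.map (Ideal.Quotient.mk I), ?_, hq0⟩
    rw [hqb]
    exact Polynomial.monic_X_pow_sub_C _ hn0
  obtain ⟨h', hh'⟩ := minpoly.dvd (Polynomial F ⧸ I) tb hq0
  have hh'0 : Polynomial.aeval tb h' ≠ 0 := by
    intro h0
    obtain ⟨e, he⟩ := minpoly.dvd (Polynomial F ⧸ I) tb h0
    have h1 := hsep.squarefree (minpoly (Polynomial F ⧸ I) tb) ⟨e, by rw [hh', he]; ring⟩
    exact minpoly.not_isUnit _ _ h1
  have hsurj := Polynomial.map_surjective (Ideal.Quotient.mk I) Ideal.Quotient.mk_surjective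
  obtain ⟨H, hH⟩ := hsurj (minpoly (Polynomial F ⧸ I) tb)
  obtain ⟨H', hH'⟩ := hsurj h'
  have hdiv : ∀ f : Polynomial (Polynomial F), f.map (Ideal.Quotient.mk I) = 0 →
      ∃ R, f = Polynomial.C π * R := by
    intro f hf
    have : Polynomial.C π ∣ f := by
      rw [Polynomial.C_dvd_iff_dvd_coeff]
      intro i
      rw [← hπmem, ← Ideal.Quotient.eq_zero_iff_mem, ← Polynomial.coeff_map, hf,
        Polynomial.coeff_zero]
    exact this
  have hβC : ∀ R, β (Polynomial.C π * R) = α π * β R := by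
    intro R
    rw [map_mul]
    congr 1
    show Polynomial.eval₂ α _ (Polynomial.C π) = α π
    rw [Polynomial.eval₂_C]
  obtain ⟨R, hR⟩ := hdiv (q - H * H') (by
    rw [Polynomial.map_sub, Polynomial.map_mul, hH, hH', hh', sub_self])
  have hH'unit : IsUnit (β H') := by
    by_contra hh
    have : res (β H') = 0 := by
      rw [IsLocalRing.residue_eq_zero_iff, IsLocalRing.mem_maximalIdeal, mem_nonunits_iff]
      exact hh
    rw [heval, hH'] at this
    exact hh'0 this
  have hH'ne : ((β H' : v) : K) ≠ 0 := by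
    intro h0
    have : β H' = 0 := Subtype.ext h0
    rw [this] at hH'unit
    exact not_isUnit_zero hH'unit
  have hH'inv : ((β H' : v) : K)⁻¹ ∈ O :=
    hvO _ (hβO H') hH'ne ((unit_iff L _ hH'ne).1 hH'unit)
  -- `H(t)` is divisible by `π` in `O`
  have hHπ : ∃ w ∈ O, ((β H : v) : K) = ((α π : v) : K) * w := by
    refine ⟨-(((β R : v) : K) * ((β H' : v) : K)⁻¹), neg_mem (mul_mem (hβO R) hH'inv), ?_⟩
    have h1 : β q = β H * β H' + α π * β R := by
      rw [← map_mul, ← hβC, ← map_add, ← hR]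
      congr 1
      ring
    rw [hβq] at h1
    have h2 : (0 : K) = ((β H : v) : K) * ((β H' : v) : K) + ((α π : v) : K) * ((β R : v) : K) := by
      exact_mod_cast congrArg Subtype.val h1
    field_simp
    linear_combination -h2
  -- the key divisibility for elements of `S`
  have key1 : ∀ a ∈ S, a ≠ 0 → 0 < ord v a → ∃ w ∈ O, a = ((α π : v) : K) * w := by
    intro a ha ha0 hord
    obtain ⟨f, hf⟩ := hS a ha
    rw [← hβ] at hf
    have h1 : res (β f) = 0 := by
      rw [res_iff L _ (by rw [hf]; exact ha0), hf]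
      exact hord
    rw [heval] at h1
    obtain ⟨f1, hf1⟩ := minpoly.dvd (Polynomial F ⧸ I) tb h1
    obtain ⟨f2, hf2⟩ := hsurj f1
    obtain ⟨R', hR'⟩ := hdiv (f - H * f2) (by
      rw [Polynomial.map_sub, Polynomial.map_mul, hH, hf2, hf1, sub_self])
    have h2 : β f = β H * β f2 + α π * β R' := by
      rw [← map_mul, ← hβC, ← map_add, ← hR']
      congr 1
      ring
    obtain ⟨w, hw, hw'⟩ := hHπ
    refine ⟨w * ((β f2 : v) : K) + ((β R' : v) : K), add_mem (mul_mem hw (hβO f2)) (hβO R'), ?_⟩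
    have h3 : ((β f : v) : K) = ((β H : v) : K) * ((β f2 : v) : K) +
        ((α π : v) : K) * ((β R' : v) : K) := by
      exact_mod_cast congrArg Subtype.val h2
    rw [← hf, h3, hw']
    ring
  have key2 : ∀ a ∈ O, a ≠ 0 → 0 < ord v a → ∃ w ∈ O, a = ((α π : v) : K) * w := by
    intro a ha ha0 hord
    obtain ⟨P, hP, Q, hQ, hQ0, hQord, hPQ⟩ := hO a ha
    have hP0 : P ≠ 0 := by rw [← hPQ]; exact mul_ne_zero ha0 hQ0
    have hQO : Q ∈ O := by
      obtain ⟨f, hf⟩ := hS Q hQ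
      rw [← hf, ← hβ]
      exact hβO f
    obtain ⟨w, hw, hw'⟩ := key1 P hP hP0 (by
      rw [← hPQ, L.mul _ _ ha0 hQ0, hQord, add_zero]
      exact hord)
    refine ⟨w * Q⁻¹, mul_mem hw (hvO Q hQO hQ0 hQord), ?_⟩
    rw [← mul_assoc, ← hw', ← hPQ, mul_assoc, mul_inv_cancel₀ hQ0, mul_one]
  have key3 : ∀ (N : ℕ) (a : K), a ∈ O → a ≠ 0 → (ord v a).toNat ≤ N →
      ∃ (k : ℕ) (u : K), u ∈ O ∧ u ≠ 0 ∧ ord v u = 0 ∧ a = ((α π : v) : K) ^ k * u := by
    intro N
    induction N with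
    | zero =>
      intro a ha ha0 h1
      have h2 := (L.nonneg _ ha0).2 (hOv a ha)
      exact ⟨0, a, ha, ha0, by omega, by simp⟩
    | succ N ih =>
      intro a ha ha0 h1
      have h2 := (L.nonneg _ ha0).2 (hOv a ha)
      rcases eq_or_lt_of_le h2 with h3 | h3
      · exact ⟨0, a, ha, ha0, h3.symm, by simp⟩
      · obtain ⟨w, hw, hw'⟩ := key2 a ha ha0 h3
        have hw0 : w ≠ 0 := by
          rintro rfl
          exact ha0 (by rw [hw', mul_zero])
        have h4 : ord v a = ord v ((α π : v) : K) + ord v w := by rw [hw', L.mul _ _ hπK hw0]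
        obtain ⟨k, u, hu, hu0, hu1, hu2⟩ := ih w hw hw0 (by omega)
        exact ⟨k + 1, u, hu, hu0, hu1, by rw [hw', hu2, pow_succ]; ring⟩
  have hSO : ∀ a ∈ S, a ∈ O := by
    intro a ha
    obtain ⟨f, hf⟩ := hS a ha
    rw [← hf, ← hβ]
    exact hβO f
  intro z hz
  by_cases hz0 : z = 0
  · rw [hz0]; exact zero_mem O
  obtain ⟨P, hP, Q, hQ, hQ0, hPQ⟩ := hK z
  have hP0 : P ≠ 0 := by rw [← hPQ]; exact mul_ne_zero hz0 hQ0
  obtain ⟨k, u, hu, hu0, hu1, hu2⟩ := key3 _ P (hSO P hP) hP0 le_rfl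
  obtain ⟨l, u', hu', hu0', hu1', hu2'⟩ := key3 _ Q (hSO Q hQ) hQ0 le_rfl
  have h1 : ord v z + l * ord v ((α π : v) : K) = k * ord v ((α π : v) : K) := by
    have h2 : ord v P = ord v z + ord v Q := by rw [← hPQ, L.mul _ _ hz0 hQ0]
    rw [hu2, hu2', L.mul _ _ (pow_ne_zero _ hπK) hu0, L.mul _ _ (pow_ne_zero _ hπK) hu0',
      VhM.ord_pow L hπK, VhM.ord_pow L hπK, hu1, hu1'] at h2
    linarith
  have h2 := (L.nonneg _ hz0).2 hz
  have hlk : l ≤ k := by
    by_contra hh
    push Not at hh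
    have h3 : (k : ℤ) + 1 ≤ l := by exact_mod_cast hh
    nlinarith
  have h3 : z = ((α π : v) : K) ^ (k - l) * (u * u'⁻¹) := by
    have h4 : z * (((α π : v) : K) ^ l * u') = ((α π : v) : K) ^ k * u := by
      rw [← hu2', ← hu2]; exact hPQ
    have h5 : ((α π : v) : K) ^ k = ((α π : v) : K) ^ (k - l) * ((α π : v) : K) ^ l := by
      rw [← pow_add, Nat.sub_add_cancel hlk]
    rw [h5] at h4
    have h6 : ((α π : v) : K) ^ l * u' ≠ 0 := mul_ne_zero (pow_ne_zero _ hπK) hu0'
    rw [← mul_left_inj' h6, h4]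
    field_simp
  rw [h3]
  exact mul_mem (pow_mem (hαO π) _) (mul_mem hu (hvO u' hu' hu0' hu1'))

theorem not_all {v : ValuationSubring K} (L : OrdLaws v) : ¬ ∀ z : K, z ∈ v := by
  intro hall
  obtain ⟨t, _, ht0, ht1⟩ := L.unif
  have := (L.nonneg _ (inv_ne_zero ht0)).2 (hall t⁻¹)
  rw [VhM.ord_inv L ht0, ht1] at this
  omega

end Gen

end ExcM

open ExcM

theorem specEXC (hORD : SpecORD) (hFUN : SpecFUN) : SpecEXC := by
  classical
  intro m Δ hm K _ _ x h v hdiv hloc h0 j hj i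
  by_contra hcon
  push Not at hcon
  have L := hORD K v hdiv.2.1
  have FL := hFUN m Δ hm K x h
  have hc := hdiv.1
  have hx := FL.xne
  obtain ⟨𝔓, O, hO, hcen⟩ := VhM.center h FL L hc
  apply hloc
  have huniq := VhM.uniq h FL L hc 𝔓 O hO hcen
  have hvO : ∀ a ∈ O, a ≠ 0 → ord v a = 0 → a⁻¹ ∈ O := by
    intro a ha h0 h1
    apply hcen.2.2 a ha
    rw [← L.nonneg _ (inv_ne_zero h0), VhM.ord_inv L h0, h1]
    simp
  have hX0 : (X none : MvPolynomial (Option (Fin (m + 2))) ℂ) ∉ 𝔓 := by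
    rw [huniq _ _ (VhM.isWH_X none), VhM.dhP_X]
    rintro (h1 | h1)
    · exact one_ne_zero h1
    · unfold hv at h1
      rw [h0, mul_zero, add_zero] at h1
      change (0 : ℚ) < (ord v (1 : K) : ℚ) at h1
      rw [VhM.ord_one L] at h1
      simp at h1
  have hcO : ∀ c : ℂ, algebraMap ℂ K c ∈ O := by
    intro c
    rw [hO.mem]
    refine ⟨0, C c, 1, isWeightedHomogeneous_C Δ.ww c, isWeightedHomogeneous_one ℂ Δ.ww,
      (Ideal.ne_top_iff_one _).1 hO.prime.ne_top, ?_⟩
    rw [map_one, mul_one, ← MvPolynomial.algebraMap_eq, AlgHom.commutes]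
  have hxO : ∀ k, x k ∈ O := by
    intro k
    rw [hO.mem]
    refine ⟨Δ.w k, X (some k), X none ^ Δ.w k, VhM.isWH_X (some k), ?_, ?_, ?_⟩
    · have := (VhM.isWH_X (Δ := Δ) none).pow (Δ.w k)
      simpa [Dat.ww] using this
    · intro hh
      exact hX0 (hO.prime.mem_of_pow_mem _ hh)
    · rw [map_pow, VhM.dhP_X, VhM.dhP_X]
      simp [VhM.xo]
  -- the subfield
  let Fi : IntermediateField ℂ K :=
    IntermediateField.adjoin ℂ (Set.range fun k : {k : Fin (m + 1) // k ≠ i} => but x j k)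
  let F : Subfield K := Fi.toSubfield
  have hcF : ∀ c : ℂ, algebraMap ℂ K c ∈ F := fun c => Fi.algebraMap_mem c
  have hxF : ∀ k : Fin (m + 1), k ≠ i → but x j k ∈ F := by
    intro k hk
    exact IntermediateField.subset_adjoin ℂ _ ⟨⟨k, hk⟩, rfl⟩
  have hpO : ∀ r : MvPolynomial {k : Fin (m + 1) // k ≠ i} ℂ,
      aeval (fun k : {k : Fin (m + 1) // k ≠ i} => but x j k) r ∈ O := by
    intro r
    induction r using MvPolynomial.induction_on with
    | C c => rw [← MvPolynomial.algebraMap_eq, AlgHom.commutes]; exact hcO c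
    | add P Q hP hQ => rw [map_add]; exact add_mem hP hQ
    | mul_X P o hP => rw [map_mul, aeval_X]; exact mul_mem hP (hxO _)
  have hFO : ∀ a ∈ F, a ∈ O := by
    intro a ha
    obtain ⟨r, s, rfl⟩ := (IntermediateField.mem_adjoin_range_iff ℂ _ a).1 ha
    by_cases hs : s = 0
    · rw [hs, map_zero, div_zero]; exact zero_mem O
    have hs' : rename Subtype.val s ≠ 0 := by
      intro hh
      exact hs (rename_injective _ Subtype.val_injective (by rw [hh, map_zero]))
    have hvars : i ∉ (rename Subtype.val s).vars := by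
      intro hh
      have := vars_rename (Subtype.val) s hh
      rw [Finset.mem_image] at this
      obtain ⟨k, -, hk⟩ := this
      exact k.2 hk
    obtain ⟨h1, h2⟩ := hcon _ hs' hvars
    rw [aeval_rename] at h1 h2
    rw [div_eq_mul_inv]
    exact mul_mem (hpO r) (hcen.2.2 _ (hpO s) h2)
  have hFv : ∀ a ∈ F, a ∈ v := fun a ha => hcen.2.1 a (hFO a ha)
  set y : K := but x j i with hy
  have hyO : y ∈ O := hxO _
  have hxj : ord v (x j) = 0 := by
    unfold gam at hj
    rw [h0, mul_zero, add_zero] at hj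
    exact_mod_cast hj
  -- the coordinates as polynomials in `y` and `x_j`
  have hr1 : ∀ k : Fin (m + 1), but x j k ∈ (Polynomial.eval₂RingHom F.subtype y).range := by
    intro k
    by_cases hk : k = i
    · rw [hk]
      exact ⟨Polynomial.X, by simp [hy]⟩
    · exact ⟨Polynomial.C ⟨but x j k, hxF k hk⟩, by simp⟩
  have hr2 : ∀ P : MvPolynomial (Option (Fin (m + 2))) ℂ, dhP x P ∈
      (Polynomial.eval₂RingHom (Polynomial.eval₂RingHom F.subtype y) (x j)).range := by
    intro P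
    induction P using MvPolynomial.induction_on with
    | C c =>
      rw [← MvPolynomial.algebraMap_eq, AlgHom.commutes]
      exact ⟨Polynomial.C (Polynomial.C ⟨_, hcF c⟩), by simp⟩
    | add P Q hP hQ => rw [map_add]; exact add_mem hP hQ
    | mul_X P o hP =>
      rw [map_mul, VhM.dhP_X]
      apply mul_mem hP
      cases o with
      | none => exact one_mem _
      | some k =>
        show x k ∈ _
        by_cases hk : k = j
        · rw [hk]
          exact ⟨Polynomial.X, by simp⟩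
        · obtain ⟨k', rfl⟩ := Fin.exists_succAbove_eq hk
          obtain ⟨p, hp⟩ := hr1 k'
          refine ⟨Polynomial.C p, ?_⟩
          rw [Polynomial.coe_eval₂RingHom, Polynomial.eval₂_C]
          exact hp
  have hg : ∃ g : Polynomial F, Polynomial.eval₂ F.subtype y g = - x j ^ Δ.a j := by
    have h1 : - x j ^ Δ.a j = 1 + ∑ k : Fin (m + 1), but x j k ^ Δ.a (j.succAbove k) := by
      have := h.eqn
      rw [Fin.sum_univ_succAbove _ j] at this
      unfold but
      linear_combination -this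
    have h2 : - x j ^ Δ.a j ∈ (Polynomial.eval₂RingHom F.subtype y).range := by
      rw [h1]
      exact add_mem (one_mem _) (sum_mem fun k _ => pow_mem (hr1 k) _)
    exact h2
  have ha : Δ.a j ≠ 0 := by have := Δ.wt.two_le j; omega
  have hnv : ((Δ.a j : ℕ) : K) ≠ 0 ∧ ord v ((Δ.a j : ℕ) : K) = 0 := by
    have h1 : ((Δ.a j : ℕ) : K) = algebraMap ℂ K (Δ.a j : ℂ) := by simp
    have h2 : ((Δ.a j : ℕ) : ℂ) ≠ 0 := by exact_mod_cast ha
    rw [h1]
    exact ⟨(map_ne_zero (algebraMap ℂ K)).2 h2, VhM.ord_const L hc h2⟩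
  have htr : ¬ IsIntegral F y := by
    intro hy1
    apply not_all L
    intro z
    apply mem_of_integral v F hFv
    apply integral_all h FL F hcF j
    intro k hk
    obtain ⟨k', rfl⟩ := Fin.exists_succAbove_eq hk
    by_cases hk' : k' = i
    · rw [hk']; exact hy1
    · exact isIntegral_algebraMap (R := F) (x := ⟨_, hxF k' hk'⟩)
  have hmemO : ∀ p : Polynomial F, Polynomial.eval₂ F.subtype y p ∈ O := by
    intro p
    rw [Polynomial.eval₂_eq_sum_range]
    exact sum_mem fun i _ => mul_mem (hFO _ (p.coeff i).2) (pow_mem hyO i)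
  have hex : ∃ p : Polynomial F, p ≠ 0 ∧ 0 < ord v (Polynomial.eval₂ F.subtype y p) := by
    by_contra hno
    push Not at hno
    let E : IntermediateField F K := IntermediateField.adjoin F {y}
    have hEv : ∀ a ∈ E.toSubfield, a ∈ v := by
      intro a ha
      obtain ⟨r, s, rfl⟩ := (IntermediateField.mem_adjoin_simple_iff F a).1 ha
      have hr : Polynomial.aeval y r ∈ v := hcen.2.1 _ (hmemO r)
      have hs : Polynomial.aeval y s ∈ v := hcen.2.1 _ (hmemO s)
      by_cases hs0 : Polynomial.aeval y s = 0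
      · rw [hs0, div_zero]; exact v.zero_mem
      have hs1 : s ≠ 0 := by rintro rfl; exact hs0 (map_zero _)
      have h1 : ord v (Polynomial.aeval y s) ≤ 0 := hno s hs1
      rw [div_eq_mul_inv]
      apply v.mul_mem _ _ hr
      rw [← L.nonneg _ (inv_ne_zero hs0), VhM.ord_inv L hs0]
      omega
    have hFE : ∀ a ∈ F, a ∈ E.toSubfield := fun a ha => E.algebraMap_mem ⟨a, ha⟩
    apply not_all L
    intro z
    apply mem_of_integral v E.toSubfield hEv
    apply integral_all h FL E.toSubfield (fun c => hFE _ (hcF c)) j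
    intro k hk
    obtain ⟨k', rfl⟩ := Fin.exists_succAbove_eq hk
    by_cases hk' : k' = i
    · rw [hk']
      exact isIntegral_algebraMap (R := E.toSubfield)
        (x := ⟨y, IntermediateField.subset_adjoin F _ rfl⟩)
    · exact isIntegral_algebraMap (R := E.toSubfield) (x := ⟨_, hFE _ (hxF k' hk')⟩)
  have hmain := core L hdiv.2.1 F O hFO hcen.2.1 hcen.2.2 y (x j) hyO (hxO j) (Δ.a j) hnv
    ⟨hx j, hxj⟩ (Set.range fun P => dhP x P) (by
      rintro a ⟨P, rfl⟩
      exact hr2 P) hg htr hex (by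
      intro z hz
      obtain ⟨d, P, Q, h1, h2, h3, h4⟩ := (hO.mem z).1 hz
      rw [huniq d Q h2] at h3
      push Not at h3
      refine ⟨dhP x P, ⟨P, rfl⟩, dhP x Q, ⟨Q, rfl⟩, h3.1, ?_, h4⟩
      have h5 := h3.2
      unfold hv at h5
      rw [h0, mul_zero, add_zero] at h5
      have h6 : ord v (dhP x Q) ≤ 0 := by exact_mod_cast h5
      have h7 : 0 ≤ ord v (dhP x Q) := by
        have := (VhM.ge_dhP h L hc hx h2).resolve_left h3.1
        rw [h0, mul_zero, neg_zero] at this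
        exact_mod_cast this
      omega) (by
      intro z
      obtain ⟨d, r, s, hr, hs, hs0, hzz⟩ := FL.frac z
      obtain ⟨P, -, rfl⟩ := VhM.exists_lift hr
      obtain ⟨Q, -, rfl⟩ := VhM.exists_lift hs
      have hQ : dh h (mkF Δ.b Q) ≠ 0 := fun h0 => hs0 (FL.inj d _ hs h0)
      exact ⟨dhP x P, ⟨P, rfl⟩, dhP x Q, ⟨Q, rfl⟩, hQ, hzz⟩)
  have heq : v.toSubring = O := by
    ext z
    exact ⟨fun hz => hmain z hz, fun hz => hcen.2.1 z hz⟩
  rw [heq]
  exact hcen.1

end

end Pool.Agent.Lib.MPa7508c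
end

section
/-!
# Module FUN: basic facts on the function field
-/
set_option autoImplicit false

namespace Pool.Agent.Lib.MPa7508c

open MvPolynomial

namespace FunM

/-- scaling of the variables in a weighted homogeneous polynomial -/
theorem aeval_scale {σ A : Type} [Fintype σ] [CommRing A] [Algebra ℂ A] (w : σ → ℕ) (d : ℕ)
    (P : MvPolynomial σ ℂ) (hP : IsWeightedHomogeneous w P d) (t : A) (z : σ → A) :
    aeval (fun i => t ^ w i * z i) P = t ^ d * aeval z P := by
  classical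
  rw [aeval_def, aeval_def, eval₂_eq', eval₂_eq', Finset.mul_sum]
  refine Finset.sum_congr rfl fun α hα => ?_
  have h1 : Finsupp.weight w α = d := hP (mem_support_iff.mp hα)
  have h2 : ∏ i, (t ^ w i * z i) ^ α i = t ^ d * ∏ i, z i ^ α i := by
    simp_rw [mul_pow]
    rw [Finset.prod_mul_distrib]
    congr 1
    simp_rw [← pow_mul]
    rw [Finset.prod_pow_eq_pow_sum]
    congr 1
    rw [← h1, Finsupp.weight_apply, Finsupp.sum_fintype _ _ (fun i => by simp)]
    exact Finset.sum_congr rfl fun i _ => by rw [smul_eq_mul, mul_comm]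
  rw [h2]
  ring

variable {m : ℕ} {Δ : Dat m} {K : Type} [Field K] [Algebra ℂ K] {x : Fin (m + 2) → K}

/-- setting `X none = 1` -/
noncomputable def dhS (m : ℕ) : MvPolynomial (Option (Fin (m + 2))) ℂ →ₐ[ℂ] MvPolynomial (Fin (m + 2)) ℂ :=
  aeval (fun o => o.elim 1 X)

theorem aeval_dhS {A : Type} [CommRing A] [Algebra ℂ A] (y : Fin (m + 2) → A)
    (P : MvPolynomial (Option (Fin (m + 2))) ℂ) :
    aeval y (dhS m P) = aeval (fun o : Option (Fin (m + 2)) => o.elim 1 y) P := by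
  have h : (aeval y).comp (dhS m) = aeval (fun o : Option (Fin (m + 2)) => o.elim 1 y) := by
    refine MvPolynomial.algHom_ext fun o => ?_
    cases o <;> simp [dhS]
  exact DFunLike.congr_fun h P

theorem inj (hR : RingLaws Δ) (h : IsFun Δ K x) (d : ℕ) (r : Δ.R) (hr : r ∈ Δ.hm d)
    (h0 : dh h r = 0) : r = 0 := by
  have hdom := hR.dom
  obtain ⟨P, hP, rfl⟩ := UtilM.exists_lift hr
  rw [dh_mk, dhP, ← aeval_dhS x P] at h0
  obtain ⟨Q, hQ⟩ := h.ker _ h0
  -- the fraction field of the coordinate ring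
  let F := FractionRing Δ.R
  let φ : Δ.R →+* F := algebraMap Δ.R F
  have hφ : Function.Injective φ := IsFractionRing.injective Δ.R F
  let : Algebra ℂ F := ((algebraMap Δ.R F).comp (algebraMap ℂ Δ.R)).toAlgebra
  let t : F := φ Δ.x0
  have ht : t ≠ 0 := by
    intro hh
    apply hR.x0prime.ne_zero
    apply hφ
    rw [map_zero]; exact hh
  let y : Fin (m + 2) → F := fun i => φ (Δ.xx i) / t ^ Δ.w i
  -- the equation
  have hy : aeval y (1 + fp (Fin (m + 2)) Δ.a) = 0 := by
    have h1 : (Δ.x0 : Δ.R) ^ Δ.L + ∑ i, Δ.xx i ^ Δ.a i = 0 := by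
      have h2 : mkF Δ.b (fp _ Δ.b) = 0 := by
        show Ideal.Quotient.mk _ _ = 0
        rw [Ideal.Quotient.eq_zero_iff_mem]
        exact Ideal.mem_span_singleton_self _
      simp only [fp, Fintype.sum_option] at h2
      simpa [Dat.b, Dat.x0, Dat.xx] using h2
    have h2 : t ^ Δ.L + ∑ i, φ (Δ.xx i) ^ Δ.a i = 0 := by
      have := congrArg φ h1
      simpa using this
    have h3 : ∀ i, y i ^ Δ.a i = φ (Δ.xx i) ^ Δ.a i / t ^ Δ.L := by
      intro i
      show (φ (Δ.xx i) / t ^ Δ.w i) ^ Δ.a i = _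
      rw [div_pow, ← pow_mul, mul_comm (Δ.w i), Δ.wt.mul i]
    simp only [fp, map_add, map_one, map_sum, map_pow, aeval_X]
    simp_rw [h3]
    rw [← Finset.sum_div, ← div_self (pow_ne_zero Δ.L ht), ← add_div, h2, zero_div]
  have h1 : aeval y (dhS m P) = 0 := by rw [hQ, map_mul, hy, zero_mul]
  rw [aeval_dhS] at h1
  have h2 := aeval_scale Δ.ww d P hP t (fun o : Option (Fin (m + 2)) => o.elim 1 y)
  rw [h1, mul_zero] at h2
  have h3 : (fun i => t ^ Δ.ww i * (Option.elim i 1 y : F)) = fun o => φ (mkF Δ.b (X o)) := by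
    funext o
    cases o with
    | none => simp [Dat.ww, t, Dat.x0]
    | some i =>
      simp only [Dat.ww, Option.elim_some]
      show t ^ Δ.w i * (φ (Δ.xx i) / t ^ Δ.w i) = _
      rw [mul_div_cancel₀ _ (pow_ne_zero _ ht)]
      rfl
  rw [h3] at h2
  have h4 : aeval (fun o => φ (mkF Δ.b (X o))) P = φ (mkF Δ.b P) := by
    let ψ : Δ.R →ₐ[ℂ] F := { φ with commutes' := fun r => rfl }
    have h5 : aeval (fun o => φ (mkF Δ.b (X o))) = ψ.comp (mkF Δ.b) := by
      refine MvPolynomial.algHom_ext fun o => ?_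
      rw [aeval_X]; rfl
    exact DFunLike.congr_fun h5 P
  rw [h4] at h2
  exact hφ (by rw [h2, map_zero])

/-- homogenisation to all large degrees -/
theorem homogenise (Δ : Dat m) (x : Fin (m + 2) → K) (P : MvPolynomial (Fin (m + 2)) ℂ) :
    ∃ N0 : ℕ, ∀ N, N0 ≤ N → ∃ Q : MvPolynomial (Option (Fin (m + 2))) ℂ,
      IsWeightedHomogeneous Δ.ww Q N ∧ dhP x Q = aeval x P := by
  induction P using MvPolynomial.induction_on with
  | C c =>
    refine ⟨0, fun N _ => ⟨C c * X none ^ N, ?_, ?_⟩⟩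
    · have h1 := (isWeightedHomogeneous_C Δ.ww c).mul ((isWeightedHomogeneous_X ℂ Δ.ww none).pow N)
      have h2 : 0 + N • Δ.ww none = N := by simp [Dat.ww]
      rwa [h2] at h1
    · simp [dhP]
  | add P Q hP hQ =>
    obtain ⟨N1, h1⟩ := hP
    obtain ⟨N2, h2⟩ := hQ
    refine ⟨max N1 N2, fun N hN => ?_⟩
    obtain ⟨P', hP', hP''⟩ := h1 N ((le_max_left _ _).trans hN)
    obtain ⟨Q', hQ', hQ''⟩ := h2 N ((le_max_right _ _).trans hN)
    exact ⟨P' + Q', hP'.add hQ', by rw [map_add, map_add, hP'', hQ'']⟩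
  | mul_X P i hP =>
    obtain ⟨N1, h1⟩ := hP
    refine ⟨N1 + Δ.w i, fun N hN => ?_⟩
    obtain ⟨P', hP', hP''⟩ := h1 (N - Δ.w i) (by omega)
    refine ⟨P' * X (some i), ?_, ?_⟩
    · have h2 := hP'.mul (isWeightedHomogeneous_X ℂ Δ.ww (some i))
      have h3 : N - Δ.w i + Δ.ww (some i) = N := by
        show N - Δ.w i + Δ.w i = N
        omega
      rwa [h3] at h2
    · rw [map_mul, map_mul, hP'', aeval_X]
      simp [dhP]

theorem frac (h : IsFun Δ K x) (z : K) : ∃ (d : ℕ) (r s : Δ.R), r ∈ Δ.hm d ∧ s ∈ Δ.hm d ∧ s ≠ 0 ∧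
    z * dh h s = dh h r := by
  obtain ⟨P, Q, hQ, hz⟩ := h.gen z
  obtain ⟨N1, h1⟩ := homogenise Δ x P
  obtain ⟨N2, h2⟩ := homogenise Δ x Q
  obtain ⟨P', hP', hP''⟩ := h1 (max N1 N2) (le_max_left _ _)
  obtain ⟨Q', hQ', hQ''⟩ := h2 (max N1 N2) (le_max_right _ _)
  refine ⟨max N1 N2, mkF Δ.b P', mkF Δ.b Q', UtilM.mem_hm hP', UtilM.mem_hm hQ', ?_, ?_⟩
  · intro h0
    have := dh_mk h Q'
    rw [h0, map_zero, hQ''] at this
    exact hQ this.symm
  · rw [dh_mk, dh_mk, hP'', hQ'', hz]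

/-- a root of `1 + ∑ X_i ^ a_i` with all coordinates but the `j`-th given -/
theorem exists_root (Δ : Dat m) (j : Fin (m + 2)) (p : Fin (m + 2) → ℂ) :
    ∃ c : ℂ, aeval (Function.update p j c) (1 + fp (Fin (m + 2)) Δ.a) = (0 : ℂ) ∧
      c ^ Δ.a j = -(1 + ∑ i ∈ Finset.univ.erase j, p i ^ Δ.a i) := by
  have ha : 0 < Δ.a j := lt_of_lt_of_le (by norm_num) (Δ.wt.two_le j)
  obtain ⟨c, hc⟩ := IsAlgClosed.exists_pow_nat_eq
    (-(1 + ∑ i ∈ Finset.univ.erase j, p i ^ Δ.a i)) ha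
  refine ⟨c, ?_, hc⟩
  simp only [fp, map_add, map_one, map_sum, map_pow, aeval_X]
  rw [← Finset.add_sum_erase _ _ (Finset.mem_univ j), Function.update_self, hc]
  have : ∑ i ∈ Finset.univ.erase j, Function.update p j c i ^ Δ.a i
      = ∑ i ∈ Finset.univ.erase j, p i ^ Δ.a i := by
    refine Finset.sum_congr rfl fun i hi => ?_
    rw [Function.update_of_ne (Finset.ne_of_mem_erase hi)]
  rw [this]
  ring

theorem xne (h : IsFun Δ K x) (i : Fin (m + 2)) : x i ≠ 0 := by
  intro h0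
  have h1 : aeval x (X i : MvPolynomial (Fin (m + 2)) ℂ) = 0 := by rw [aeval_X, h0]
  obtain ⟨Q, hQ⟩ := h.ker _ h1
  obtain ⟨c, hc, hc'⟩ := exists_root Δ i (fun _ => 0)
  have h2 := congrArg (aeval (Function.update (fun _ => (0 : ℂ)) i c)) hQ
  rw [map_mul, hc, zero_mul, aeval_X, Function.update_self] at h2
  have ha : ∀ k, Δ.a k ≠ 0 := fun k => by have := Δ.wt.two_le k; omega
  rw [h2, zero_pow (ha i)] at hc'
  have h3 : ∑ k ∈ Finset.univ.erase i, (0 : ℂ) ^ Δ.a k = 0 :=
    Finset.sum_eq_zero fun k _ => zero_pow (ha k)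
  rw [h3] at hc'
  norm_num at hc'

/-- the affine coordinates other than `x_j` are algebraically independent -/
theorem indep (h : IsFun Δ K x) (j : Fin (m + 2)) : AlgebraicIndependent ℂ (but x j) := by
  rw [algebraicIndependent_iff]
  intro P hP
  have h1 : aeval x (rename j.succAbove P) = 0 := by
    rw [aeval_rename]; exact hP
  obtain ⟨Q, hQ⟩ := h.ker _ h1
  refine MvPolynomial.funext fun p => ?_
  rw [map_zero]
  obtain ⟨c, hc, -⟩ := exists_root Δ j (fun i => (j.insertNth (0 : ℂ) p : Fin (m + 2) → ℂ) i)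
  have h2 := congrArg (aeval (Function.update (fun i => (j.insertNth (0 : ℂ) p : Fin (m + 2) → ℂ) i) j c)) hQ
  rw [map_mul, hc, zero_mul, aeval_rename] at h2
  have h3 : Function.update (fun i => (j.insertNth (0 : ℂ) p : Fin (m + 2) → ℂ) i) j c ∘ j.succAbove = p := by
    funext k
    rw [Function.comp_apply, Function.update_of_ne (Fin.succAbove_ne j k), Fin.insertNth_apply_succAbove]
  rw [h3] at h2
  simpa [aeval_eq_eval] using h2

/-- all the `x i` are integral over the ring generated by the other coordinates -/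
theorem integral_x (h : IsFun Δ K x) (j i : Fin (m + 2)) :
    IsIntegral (Algebra.adjoin ℂ (Set.range (but x j))) (x i) := by
  have hmem : ∀ i, i ≠ j → x i ∈ Algebra.adjoin ℂ (Set.range (but x j)) := by
    intro i hi
    obtain ⟨k, hk⟩ := Fin.exists_succAbove_eq hi
    exact Algebra.subset_adjoin ⟨k, by rw [← hk]; rfl⟩
  by_cases hij : i = j
  · subst hij
    have ha : 0 < Δ.a i := lt_of_lt_of_le (by norm_num) (Δ.wt.two_le i)
    have h1 : x i ^ Δ.a i = -(1 + ∑ k ∈ Finset.univ.erase i, x k ^ Δ.a k) := by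
      have := h.eqn
      rw [← Finset.add_sum_erase _ _ (Finset.mem_univ i)] at this
      linear_combination this
    have h2 : x i ^ Δ.a i ∈ Algebra.adjoin ℂ (Set.range (but x i)) := by
      rw [h1]
      refine neg_mem (add_mem (one_mem _) (sum_mem fun k hk => pow_mem (hmem k (Finset.ne_of_mem_erase hk)) _))
    refine IsIntegral.of_pow ha ?_
    have := isIntegral_algebraMap (R := Algebra.adjoin ℂ (Set.range (but x i))) (A := K)
      (x := ⟨_, h2⟩)
    exact this
  · have := isIntegral_algebraMap (R := Algebra.adjoin ℂ (Set.range (but x j))) (A := K)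
      (x := ⟨_, hmem i hij⟩)
    exact this

theorem trbasis (h : IsFun Δ K x) (j : Fin (m + 2)) : IsTranscendenceBasis ℂ (but x j) := by
  rw [(indep h j).isTranscendenceBasis_iff_isAlgebraic]
  refine ⟨fun z => ?_⟩
  obtain ⟨P, Q, hQ, hz⟩ := h.gen z
  have hint : ∀ P : MvPolynomial (Fin (m + 2)) ℂ,
      IsIntegral (Algebra.adjoin ℂ (Set.range (but x j))) (aeval x P) := by
    intro P
    induction P using MvPolynomial.induction_on with
    | C c =>
      rw [aeval_C]
      have : algebraMap ℂ K c = algebraMap (Algebra.adjoin ℂ (Set.range (but x j))) K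
          (algebraMap ℂ _ c) := rfl
      rw [this]
      exact isIntegral_algebraMap
    | add P Q hP hQ => rw [map_add]; exact hP.add hQ
    | mul_X P i hP => rw [map_mul, aeval_X]; exact hP.mul (integral_x h j i)
  have hz' : z = aeval x P * (aeval x Q)⁻¹ := by
    rw [← hz, mul_assoc, mul_inv_cancel₀ hQ, mul_one]
  rw [hz']
  exact (hint P).isAlgebraic.mul (hint Q).isAlgebraic.inv

theorem fg (h : IsFun Δ K x) : ∃ s : Finset K, IntermediateField.adjoin ℂ (s : Set K) = ⊤ := by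
  classical
  refine ⟨Finset.univ.image x, ?_⟩
  rw [eq_top_iff]
  rintro z -
  obtain ⟨P, Q, hQ, hz⟩ := h.gen z
  have hmem : ∀ P : MvPolynomial (Fin (m + 2)) ℂ,
      aeval x P ∈ IntermediateField.adjoin ℂ ((Finset.univ.image x : Finset K) : Set K) := by
    intro P
    induction P using MvPolynomial.induction_on with
    | C c =>
      rw [aeval_C]
      exact IntermediateField.algebraMap_mem _ _
    | add P Q hP hQ => rw [map_add]; exact add_mem hP hQ
    | mul_X P i hP =>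
      rw [map_mul, aeval_X]
      refine mul_mem hP (IntermediateField.subset_adjoin _ _ ?_)
      simp
  have hz' : z = aeval x P * (aeval x Q)⁻¹ := by
    rw [← hz, mul_assoc, mul_inv_cancel₀ hQ, mul_one]
  rw [hz']
  exact mul_mem (hmem P) (inv_mem (hmem Q))

end FunM

open FunM in
theorem specFUN (hRNG : SpecRNG) : SpecFUN := by
  intro m Δ hm K _ _ x h
  have hR := hRNG m Δ hm
  refine ⟨inj hR h, frac h, xne h, ?_, fg h⟩
  have := (trbasis h 0).cardinalMk_eq_trdeg
  rw [← this]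
  simp

end Pool.Agent.Lib.MPa7508c
end

section
/-!
# Module HUF: divisibility of homogeneous elements of a graded factorial Fermat ring
-/
set_option autoImplicit false

namespace Pool.Agent.Lib.MPa7508c

open MvPolynomial

namespace HufM

theorem mult_mul {A : Type} [CommRing A] [IsDomain A] [IsNoetherianRing A] {p r s : A}
    (hp : Prime p) (hr : r ≠ 0) (hs : s ≠ 0) : mult p (r * s) = mult p r + mult p s := by
  have h1 : FiniteMultiplicity p r := FiniteMultiplicity.of_not_isUnit hp.not_isUnit hr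
  have h2 : FiniteMultiplicity p s := FiniteMultiplicity.of_not_isUnit hp.not_isUnit hs
  unfold mult
  rw [emultiplicity_mul hp, ENat.toNat_add]
  · exact finiteMultiplicity_iff_emultiplicity_ne_top.mp h1
  · exact finiteMultiplicity_iff_emultiplicity_ne_top.mp h2

theorem one_le_mult {A : Type} [CommRing A] [IsDomain A] [IsNoetherianRing A] {p r : A}
    (hp : Prime p) (hr : r ≠ 0) : 1 ≤ mult p r ↔ p ∣ r := by
  have h1 : FiniteMultiplicity p r := FiniteMultiplicity.of_not_isUnit hp.not_isUnit hr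
  have h2 : ((mult p r : ℕ) : ℕ∞) = emultiplicity p r := by
    unfold mult
    exact ENat.natCast_toNat (finiteMultiplicity_iff_emultiplicity_ne_top.mp h1)
  have h3 := pow_dvd_iff_le_emultiplicity (a := p) (b := r) (k := 1)
  rw [pow_one, ← h2] at h3
  rw [h3]
  exact_mod_cast Iff.rfl

end HufM

open HufM in
/-- HUF. -/
theorem specHUF (hGR : SpecGR) : SpecHUF := by
  intro σ _ b w L hW hc hdom hU d e
  have hG := hGR σ b w L hc hW
  induction e using Nat.strong_induction_on generalizing d with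
  | _ e ih =>
    intro A B hA hB hA0 hB0 hAB
    by_cases hu : IsUnit B
    · exact hu.dvd
    obtain ⟨k, p, hpk, hp, B', rfl⟩ := hU e B hB hB0 hu
    obtain ⟨hp0, hB'0⟩ := mul_ne_zero_iff.mp hB0
    obtain ⟨d1, d2, hd, hp1, hB'⟩ := hG.factor hdom e p B' hp0 hB'0 hB
    have hd1 : 0 < d1 := by
      rcases Nat.eq_zero_or_pos d1 with h0 | h0
      · exfalso
        subst h0
        obtain ⟨z, rfl⟩ := (hG.zero p).mp hp1
        have hz : z ≠ 0 := by
          rintro rfl
          exact hp0 (map_zero _)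
        exact hp.not_isUnit ((IsUnit.mk0 z hz).map (algebraMap ℂ (FR σ b)))
      · exact h0
    have h1 : 1 ≤ mult p A := by
      refine le_trans ?_ (hAB k p hpk hp)
      exact (one_le_mult hp hB0).mpr (dvd_mul_right p B')
    obtain ⟨A', rfl⟩ := (one_le_mult hp hA0).mp h1
    obtain ⟨-, hA'0⟩ := mul_ne_zero_iff.mp hA0
    obtain ⟨e1, e2, he, -, hA'⟩ := hG.factor hdom d p A' hp0 hA'0 hA
    refine mul_dvd_mul_left p (ih d2 (by omega) e2 A' B' hA' hB' hA'0 hB'0 ?_)
    intro k' p' hpk' hp'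
    have h2 := hAB k' p' hpk' hp'
    rw [mult_mul hp' hp0 hB'0, mult_mul hp' hp0 hA'0] at h2
    omega

end Pool.Agent.Lib.MPa7508c
end
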