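import Pool.Agent.Lib.MP_a7508c_ag.Spec

/-!
# LEF, split into four parts: statements

`LFA` the homogeneous prime, `LFB` no elements of negative degree, `LFC` the ideal `𝔞`,
`LFD` the conclusion.

PROOFS.
LFA: A = MvPolynomial (Option σ) ℂ, f = fp.  Take 𝔓₀ minimal over (f, C) (proper as C is no unit),
𝔓 = its homogeneous core (prime, `Ideal.IsPrime.homogeneousCore`), so 𝔓 = 𝔓₀.  `min`: in the domain
FR the image of 𝔓 is minimal over one element, height ≤ 1 (Krull), 0 ≠ 𝔔/f < 𝔓/f impossible.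
`x`: (f, X none) is prime (quotient FR σ b, a domain); if X none ∈ 𝔓 then 𝔓 = (f, X none) by `min`,
so X none ∣ C in FR.
LFB: suppose P ∉ 𝔓.  n may be increased, n ≥ N w0, and Q_i may be taken homogeneous of degree
n w_i + d - N w0.  K = Frac(A/𝔓), V_D = image of the polynomials of degree D, finite dimensional;
ψ = P / x^N, δ = N w0 - d > 0.  (1) For D ≥ D0: ψ V_D ⊆ V_{D-δ} (every monomial of degree D is divisible
by some X_o ^ max(n, N)).  So ψ^j V_{D0 + jδ} ⊆ V_{D0}.  (2) There is i with X_i^{b_i} - c x^{b0} ∉ 𝔓 for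
all c ∈ ℂ: otherwise take ξ in the zero locus of 𝔓 with ξ_none ≠ 0 (Nullstellensatz,
`vanishingIdeal_zeroLocus_eq_radical`); for every i ∈ σ there is P_i ∈ 𝔓 with ∂_i P_i(ξ) ≠ 0 and
∂_j P_i(ξ) = 0 for j ∈ σ, j ≠ i (P_i = X_i if X_i ∈ 𝔓, else X_i^{b_i} - c_i x^{b0}, c_i ≠ 0, ξ_i ≠ 0); by
LOCP at ξ: S P_i = A_i H + B_i f, S(ξ) ≠ 0, so S(ξ) ∂_j P_i(ξ) = A_i(ξ) ∂_j H(ξ) + B_i(ξ) ∂_j f(ξ) has rank ≤ 2:
contradiction for three indices i, j.  (3) τ = X_i^{b_i} / x^{b0} ∈ K is not in ℂ, so transcendental; D0 a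
multiple of L, j = L t, D0 + jδ = L k: ψ^j x^{b0 k} τ^l ∈ V_{D0}, l = 0..k, are linearly independent and
k ≥ t is unbounded: contradiction.
LFC: 𝔭b = {mkF b (ph P), P ∈ 𝔓} (ideal, homogeneous, ≠ 0 as it contains the class of C).  g = homogeneous common divisor
of 𝔭b of maximal degree (≤ d), 𝔞 = {r : g r ∈ 𝔭b}; no homogeneous prime π divides all of 𝔞.  If 0 ≠ p is a
common zero of 𝔞: p0 = (0, p) is a zero of 𝔓; LOCP: S P ∈ (H, f) for all P ∈ 𝔓, H ∈ 𝔓, S(p0) ≠ 0; H may be taken homogeneous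
(S H_e = A_e H mod f, Σ A_e = S mod f [H ∉ (f)], so some A_e(p0) ≠ 0; take A_e S and H_e).  Modulo x: class of H = g h1,
h1 ∈ 𝔞 homogeneous ≠ 0, S 𝔞 ⊆ (h1), h1(p) = 0.  A homogeneous h with h(p) = 0 has a homogeneous prime factor π with
π(p) = 0 (GrUFD, induction on the degree).  π ∣ S y for all y ∈ 𝔞 and π does not divide 𝔞, so π ∣ S, S(p) = 0:
contradiction.  Nullstellensatz: X_i^k ∈ 𝔞.
-/

set_option autoImplicit false

namespace Pool.Agent.Lib.MPa7508c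

open MvPolynomial

noncomputable section

namespace LefM

/-- exponents with a new variable `none` -/
def ob {σ : Type} (b0 : ℕ) (b : σ → ℕ) : Option σ → ℕ := fun o => o.elim b0 b

/-- `P ↦ P(0, X)` -/
def ph (σ : Type) : MvPolynomial (Option σ) ℂ →ₐ[ℂ] MvPolynomial σ ℂ :=
  aeval (fun o => o.elim 0 X)

/-- a homogeneous prime ideal of height one over `(fp)` which does not contain the variable
`X none` -/
structure HP {σ : Type} [Fintype σ] (b w : σ → ℕ) (b0 w0 : ℕ)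
    (𝔓 : Ideal (MvPolynomial (Option σ) ℂ)) : Prop where
  prime : 𝔓.IsPrime
  fmem : fp (Option σ) (ob b0 b) ∈ 𝔓
  ne : 𝔓 ≠ Ideal.span {fp (Option σ) (ob b0 b)}
  min : ∀ 𝔔 : Ideal (MvPolynomial (Option σ) ℂ), 𝔔.IsPrime → fp (Option σ) (ob b0 b) ∈ 𝔔 →
    𝔔 ≠ Ideal.span {fp (Option σ) (ob b0 b)} → 𝔔 ≤ 𝔓 → 𝔔 = 𝔓
  homog : ∀ P ∈ 𝔓, ∀ d, weightedHomogeneousComponent (ob w0 w) d P ∈ 𝔓
  x : X none ∉ 𝔓

end LefM

open LefM

/-- LFA. Existence of `𝔓` (Krull; homogeneous core). -/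
def SpecLFA : Prop := ∀ (σ : Type) [Fintype σ] [DecidableEq σ] (b w : σ → ℕ) (b0 w0 L : ℕ),
  Wt (ob b0 b) (ob w0 w) L → 4 ≤ Fintype.card σ →
  ∀ (d : ℕ) (C : MvPolynomial (Option σ) ℂ), IsWeightedHomogeneous (ob w0 w) C d →
    ¬ IsUnit (mkF (ob b0 b) C) → ¬ mkF (ob b0 b) (X none) ∣ mkF (ob b0 b) C →
    ∃ 𝔓 : Ideal (MvPolynomial (Option σ) ℂ), HP b w b0 w0 𝔓 ∧ C ∈ 𝔓

/-- LFB. No regular functions of negative degree on the punctured cone. -/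
def SpecLFB : Prop := ∀ (σ : Type) [Fintype σ] [DecidableEq σ] (b w : σ → ℕ) (b0 w0 L : ℕ),
  Wt (ob b0 b) (ob w0 w) L → 4 ≤ Fintype.card σ →
  ∀ 𝔓 : Ideal (MvPolynomial (Option σ) ℂ), HP b w b0 w0 𝔓 → ∀ (N d n : ℕ) (P : MvPolynomial (Option σ) ℂ),
    IsWeightedHomogeneous (ob w0 w) P d → d < N * w0 →
    (∀ i : σ, ∃ Q : MvPolynomial (Option σ) ℂ, X (some i) ^ n * P - X none ^ N * Q ∈ 𝔓) → P ∈ 𝔓

/-- LFC. The ideal `𝔞`: the image of `𝔓` in `FR σ b` is `g 𝔞`, and `𝔞` contains powers of all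
variables. -/
def SpecLFC : Prop := ∀ (σ : Type) [Fintype σ] [DecidableEq σ] (b w : σ → ℕ) (b0 w0 L : ℕ),
  Wt (ob b0 b) (ob w0 w) L → 4 ≤ Fintype.card σ → GrUFD b w →
  ∀ 𝔓 : Ideal (MvPolynomial (Option σ) ℂ), HP b w b0 w0 𝔓 → ∀ (d : ℕ) (C : MvPolynomial (Option σ) ℂ),
    IsWeightedHomogeneous (ob w0 w) C d → C ∈ 𝔓 → mkF b (ph σ C) ≠ 0 →
    ∃ (e : ℕ) (g : FR σ b) (k : ℕ), g ∈ hom b w e ∧ g ≠ 0 ∧ 1 ≤ k ∧
      (∀ P ∈ 𝔓, g ∣ mkF b (ph σ P)) ∧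
      ∀ i : σ, ∃ P ∈ 𝔓, mkF b (ph σ P) = mkF b (X i) ^ k * g

end

end Pool.Agent.Lib.MPa7508c
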