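import Pool.Agent.Lib.MP_a7508c_ag.Spec
import Pool.Agent.Lib.MP_a7508c_ag.Huf
import Pool.Agent.Lib.MP_a7508c_ag.LefSpec

section
/-!
# BETA: depth `2` of `FR / g` in at least four variables
-/
set_option autoImplicit false
set_option linter.unusedSectionVars false

namespace Pool.Agent.Lib.MPa7508c

open MvPolynomial

noncomputable section

namespace BetaM

variable {σ : Type} [Fintype σ] [DecidableEq σ]

/-- put `X i = X a = 0` -/
def kil (i a : σ) : MvPolynomial σ ℂ →ₐ[ℂ] MvPolynomial σ ℂ :=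
  aeval (fun j => if j = i ∨ j = a then 0 else X j)

theorem kil_X (i a j : σ) (hi : j ≠ i) (ha : j ≠ a) : kil i a (X j) = X j := by
  rw [kil, aeval_X, if_neg]
  rintro (h | h)
  · exact hi h
  · exact ha h

theorem kil_X_left (i a : σ) : kil i a (X i) = 0 := by
  rw [kil, aeval_X, if_pos (Or.inl rfl)]

theorem kil_X_right (i a : σ) : kil i a (X a) = 0 := by
  rw [kil, aeval_X, if_pos (Or.inr rfl)]

theorem sub_kil (i a : σ) (P : MvPolynomial σ ℂ) :
    P - kil i a P ∈ (Ideal.span {X i, X a} : Ideal (MvPolynomial σ ℂ)) := by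
  induction P using MvPolynomial.induction_on with
  | C z =>
    have : kil i a (C z) = C z := by
      rw [kil, ← algebraMap_eq, AlgHom.commutes]
    rw [this, sub_self]
    exact Ideal.zero_mem _
  | add P Q hP hQ =>
    rw [map_add, show P + Q - (kil i a P + kil i a Q) = (P - kil i a P) + (Q - kil i a Q) by ring]
    exact Ideal.add_mem _ hP hQ
  | mul_X P j hP =>
    rw [map_mul]
    by_cases hi : j = i
    · subst hi
      rw [kil_X_left, mul_zero, sub_zero]
      exact Ideal.mul_mem_left _ _ (Ideal.subset_span (by simp))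
    · by_cases ha : j = a
      · subst ha
        rw [kil_X_right, mul_zero, sub_zero]
        exact Ideal.mul_mem_left _ _ (Ideal.subset_span (by simp))
      · rw [kil_X i a j hi ha, ← sub_mul]
        exact Ideal.mul_mem_right _ _ hP

theorem eval_single_kil (b : σ → ℕ) (hb : ∀ i, 2 ≤ b i) (i a c : σ) (hi : c ≠ i) (ha : c ≠ a) :
    eval (Pi.single c (1 : ℂ)) (kil i a (fp σ b)) = 1 := by
  have h1 : ∀ P : MvPolynomial σ ℂ, eval (Pi.single c (1 : ℂ)) (kil i a P) =
      eval (Pi.single c (1 : ℂ)) P := by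
    intro P
    induction P using MvPolynomial.induction_on with
    | C z =>
      have : kil i a (C z) = C z := by
        rw [kil, ← algebraMap_eq, AlgHom.commutes]
      rw [this]
    | add P Q hP hQ => rw [map_add, map_add, hP, hQ, map_add]
    | mul_X P j hP =>
      rw [map_mul, map_mul, hP, map_mul]
      congr 1
      by_cases hj : j = i ∨ j = a
      · have hjc : j ≠ c := by
          rintro rfl
          rcases hj with h | h
          · exact hi h
          · exact ha h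
        rw [kil, aeval_X, if_pos hj, map_zero, eval_X, Pi.single_eq_of_ne hjc]
      · rw [kil, aeval_X, if_neg hj]
  rw [h1, fp, map_sum, Finset.sum_eq_single c]
  · rw [map_pow, eval_X, Pi.single_eq_same, one_pow]
  · intro j _ hj
    have := hb j
    rw [map_pow, eval_X, Pi.single_eq_of_ne hj, zero_pow (by omega)]
  · intro h
    exact absurd (Finset.mem_univ c) h

theorem not_X_dvd_kil (b : σ → ℕ) (hb : ∀ i, 2 ≤ b i) (i a c e : σ) (hi : c ≠ i) (ha : c ≠ a)
    (he : c ≠ e) : ¬ (X e : MvPolynomial σ ℂ) ∣ kil i a (fp σ b) := by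
  rintro ⟨Q, hQ⟩
  have h1 := eval_single_kil b hb i a c hi ha
  rw [hQ, map_mul, eval_X, Pi.single_eq_of_ne he.symm, zero_mul] at h1
  exact zero_ne_one h1

theorem mkF_eq_zero (b : σ → ℕ) (P : MvPolynomial σ ℂ) : mkF b P = 0 ↔ ∃ Q, P = fp σ b * Q := by
  have : mkF b P = 0 ↔ P ∈ Ideal.span {fp σ b} := Ideal.Quotient.eq_zero_iff_mem
  rw [this, Ideal.mem_span_singleton]
  rfl

theorem mkF_surj (b : σ → ℕ) (z : FR σ b) : ∃ Z, mkF b Z = z :=
  Ideal.Quotient.mk_surjective z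

/-- `(x_i, x_a)`-membership through `kil` -/
theorem mem_of_kil (b : σ → ℕ) (i a : σ) (Z B : MvPolynomial σ ℂ)
    (h : kil i a Z = kil i a (fp σ b) * B) :
    ∃ u v : FR σ b, mkF b Z = mkF b (X i) * u + mkF b (X a) * v := by
  have h1 := sub_kil i a Z
  have h2 := sub_kil i a (fp σ b)
  obtain ⟨α, β, h3⟩ := Ideal.mem_span_pair.mp h1
  obtain ⟨γ, δ, h4⟩ := Ideal.mem_span_pair.mp h2
  have h5 : Z = X i * (α - γ * B) + X a * (β - δ * B) + fp σ b * B := by
    have e1 : Z = (α * X i + β * X a) + kil i a Z := by rw [h3]; ring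
    have e2 : kil i a (fp σ b) = fp σ b - (γ * X i + δ * X a) := by rw [h4]; ring
    rw [e1, h, e2]
    ring
  have hf : mkF b (fp σ b) = 0 := (mkF_eq_zero b _).2 ⟨1, by ring⟩
  refine ⟨mkF b (α - γ * B), mkF b (β - δ * B), ?_⟩
  conv_lhs => rw [h5]
  rw [map_add, map_add, map_mul, map_mul, map_mul, hf, zero_mul, add_zero]

/-- `x_e` is not a zero divisor modulo `(x_i, x_a)` -/
theorem nzd (b : σ → ℕ) (hb : ∀ i, 2 ≤ b i) (i a c e : σ) (hi : c ≠ i) (ha : c ≠ a)
    (he : c ≠ e) (hei : e ≠ i) (hea : e ≠ a) (z u v : FR σ b)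
    (h : mkF b (X e) * z = mkF b (X i) * u + mkF b (X a) * v) :
    ∃ u' v' : FR σ b, z = mkF b (X i) * u' + mkF b (X a) * v' := by
  obtain ⟨Z, rfl⟩ := mkF_surj b z
  obtain ⟨U, rfl⟩ := mkF_surj b u
  obtain ⟨V, rfl⟩ := mkF_surj b v
  have h1 : mkF b (X e * Z - (X i * U + X a * V)) = 0 := by
    rw [map_sub, map_add, map_mul, map_mul, map_mul, h, sub_self]
  obtain ⟨B, hB⟩ := (mkF_eq_zero b _).1 h1
  have h2 := congrArg (kil i a) hB
  rw [map_sub, map_add, map_mul, map_mul, map_mul, map_mul, kil_X_left, kil_X_right,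
    kil_X i a e hei hea, zero_mul, zero_mul, add_zero, sub_zero] at h2
  have hp : Prime (X e : MvPolynomial σ ℂ) := X_prime
  have h3 : (X e : MvPolynomial σ ℂ) ∣ kil i a (fp σ b) * kil i a B := ⟨kil i a Z, h2.symm⟩
  rcases hp.dvd_or_dvd h3 with h4 | h4
  · exact absurd h4 (not_X_dvd_kil b hb i a c e hi ha he)
  · obtain ⟨B', hB'⟩ := h4
    apply mem_of_kil b i a Z B'
    have h5 : X e * kil i a Z = X e * (kil i a (fp σ b) * B') := by
      rw [h2, hB']; ring
    exact mul_left_cancel₀ hp.ne_zero h5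

theorem kil_self_eq (b : σ → ℕ) (hb : ∀ i, 2 ≤ b i) (i : σ) :
    kil i i (fp σ b) = rename (Subtype.val : {j : σ | j ≠ i} → σ)
      (fp {j : σ | j ≠ i} (fun j => b j.1)) := by
  rw [fp, fp, map_sum, map_sum]
  simp only [map_pow, rename_X]
  have h1 : ∑ j : {j : σ | j ≠ i}, (X j.1 : MvPolynomial σ ℂ) ^ b j.1 =
      ∑ j ∈ Finset.univ.filter (fun j : σ => j ≠ i), (X j : MvPolynomial σ ℂ) ^ b j := by
    rw [← Finset.sum_subtype (Finset.univ.filter (fun j : σ => j ≠ i))
      (p := fun j => j ∈ {j : σ | j ≠ i}) (fun j => by simp)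
      (fun j : σ => (X j : MvPolynomial σ ℂ) ^ b j)]
  rw [h1, Finset.sum_filter]
  refine Finset.sum_congr rfl fun j _ => ?_
  by_cases hj : j = i
  · subst hj
    have := hb j
    rw [kil_X_left, zero_pow (by omega), if_neg (by simp)]
  · rw [kil_X i i j hj hj, if_pos hj]

theorem prime_kil (hIRR : SpecIRR) (b : σ → ℕ) (hb : ∀ i, 2 ≤ b i) (h4 : 4 ≤ Fintype.card σ)
    (i : σ) : Prime (kil i i (fp σ b)) := by
  rw [kil_self_eq b hb i]
  apply (prime_rename_iff {j : σ | j ≠ i}).2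
  apply hIRR
  · have h1 : Fintype.card {j : σ | j ≠ i} = Fintype.card σ - 1 := by
      rw [Set.card_ne_eq]
    omega
  · intro j
    exact hb j.1

/-- evaluation at the origin -/
theorem eval_zero_fp (b : σ → ℕ) (hb : ∀ i, 2 ≤ b i) : eval (0 : σ → ℂ) (fp σ b) = 0 := by
  rw [fp, map_sum]
  refine Finset.sum_eq_zero fun i _ => ?_
  have := hb i
  rw [map_pow, eval_X, Pi.zero_apply, zero_pow (by omega)]

theorem one_ne (b : σ → ℕ) (hb : ∀ i, 2 ≤ b i) (i a : σ) (u v : FR σ b) :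
    (1 : FR σ b) ≠ mkF b (X i) * u + mkF b (X a) * v := by
  intro h
  obtain ⟨U, rfl⟩ := mkF_surj b u
  obtain ⟨V, rfl⟩ := mkF_surj b v
  have h1 : mkF b (1 - (X i * U + X a * V)) = 0 := by
    rw [map_sub, map_add, map_mul, map_mul, map_one, h, sub_self]
  obtain ⟨B, hB⟩ := (mkF_eq_zero b _).1 h1
  have h2 := congrArg (eval (0 : σ → ℂ)) hB
  rw [map_sub, map_add, map_mul, map_mul, map_mul, map_one, eval_X, eval_X, eval_zero_fp b hb] at h2
  simp at h2

/-- `x_i` is prime -/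
theorem prime_x (hIRR : SpecIRR) (b : σ → ℕ) (hb : ∀ i, 2 ≤ b i) (h4 : 4 ≤ Fintype.card σ)
    (i c : σ) (hc : c ≠ i) : Prime (mkF b (X i)) := by
  refine ⟨?_, ?_, ?_⟩
  · intro h
    obtain ⟨B, hB⟩ := (mkF_eq_zero b _).1 h
    have h2 := congrArg (kil i i) hB
    rw [kil_X_left, map_mul] at h2
    have h3 : kil i i (fp σ b) ≠ 0 := (prime_kil hIRR b hb h4 i).ne_zero
    have h4' : kil i i B = 0 := (mul_eq_zero.1 h2.symm).resolve_left h3
    obtain ⟨α, β, h5⟩ := Ideal.mem_span_pair.mp (sub_kil i i B)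
    rw [h4', sub_zero] at h5
    have h6 : (X i : MvPolynomial σ ℂ) * (fp σ b * (α + β)) = X i * 1 := by
      rw [mul_one]
      conv_rhs => rw [hB, ← h5]
      ring
    have h7 := mul_left_cancel₀ (X_prime (R := ℂ) (i := i)).ne_zero h6
    have h8 := congrArg (eval (0 : σ → ℂ)) h7
    rw [map_mul, eval_zero_fp b hb, zero_mul, map_one] at h8
    exact zero_ne_one h8
  · intro h
    obtain ⟨u, hu⟩ := h.exists_right_inv
    exact one_ne b hb i i u 0 (by rw [mul_zero, add_zero, hu])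
  · rintro u v ⟨t, ht⟩
    obtain ⟨U, rfl⟩ := mkF_surj b u
    obtain ⟨V, rfl⟩ := mkF_surj b v
    obtain ⟨T, rfl⟩ := mkF_surj b t
    have h1 : mkF b (U * V - X i * T) = 0 := by
      rw [map_sub, map_mul, map_mul, ht, sub_self]
    obtain ⟨B, hB⟩ := (mkF_eq_zero b _).1 h1
    have h2 := congrArg (kil i i) hB
    rw [map_sub, map_mul, map_mul, map_mul, kil_X_left, zero_mul, sub_zero] at h2
    rcases (prime_kil hIRR b hb h4 i).dvd_or_dvd ⟨kil i i B, h2⟩ with h3 | h3
    · left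
      obtain ⟨B', hB'⟩ := h3
      obtain ⟨u', v', h5⟩ := mem_of_kil b i i U B' hB'
      exact ⟨u' + v', by rw [h5]; ring⟩
    · right
      obtain ⟨B', hB'⟩ := h3
      obtain ⟨u', v', h5⟩ := mem_of_kil b i i V B' hB'
      exact ⟨u' + v', by rw [h5]; ring⟩

/-- `x_i` does not divide `x_j` -/
theorem not_dvd_x (b : σ → ℕ) (hb : ∀ i, 2 ≤ b i) (i j c : σ) (hc : c ≠ i) (hcj : c ≠ j)
    (hij : j ≠ i) : ¬ mkF b (X i) ∣ mkF b (X j) := by
  rintro ⟨u, hu⟩
  obtain ⟨u', v', h1⟩ := nzd b hb i i c j hc hc hcj hij hij 1 u 0 (by rw [hu]; ring)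
  exact one_ne b hb i i u' v' h1

/-- the data used for the second part: an integral domain with elements `x` -/
structure Reg {A : Type} [CommRing A] (x : σ → A) : Prop where
  dom : IsDomain A
  prime : ∀ i, Prime (x i)
  ndvd : ∀ i j, j ≠ i → ¬ x i ∣ x j
  nz : ∀ i a e, a ≠ i → e ≠ i → e ≠ a → ∀ z u v, x e * z = x i * u + x a * v →
    ∃ u' v', z = x i * u' + x a * v'
  card : 4 ≤ Fintype.card σ

theorem exists_three (h4 : 4 ≤ Fintype.card σ) (i a e : σ) : ∃ c, c ≠ i ∧ c ≠ a ∧ c ≠ e := by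
  have h1 : ({i, a, e} : Finset σ).card < Fintype.card σ :=
    lt_of_le_of_lt (Finset.card_le_three) (by omega)
  obtain ⟨c, hc⟩ := Finset.exists_mem_notMem_of_card_lt_card (s := ({i, a, e} : Finset σ))
    (t := Finset.univ) (by rw [Finset.card_univ]; exact h1)
  simp only [Finset.mem_insert, Finset.mem_singleton, not_or] at hc
  exact ⟨c, hc.2.1, hc.2.2.1, hc.2.2.2⟩

theorem reg_FR (hIRR : SpecIRR) (b : σ → ℕ) (hb : ∀ i, 2 ≤ b i) (h4 : 4 ≤ Fintype.card σ) :
    Reg (fun i => mkF b (X i)) := by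
  refine ⟨?_, ?_, ?_, ?_, h4⟩
  · have h1 : Prime (fp σ b) := hIRR σ b (by omega) hb
    have h2 : (Ideal.span {fp σ b}).IsPrime := (Ideal.span_singleton_prime h1.ne_zero).2 h1
    exact Ideal.Quotient.isDomain _
  · intro i
    obtain ⟨c, hc, _, _⟩ := exists_three h4 i i i
    exact prime_x hIRR b hb h4 i c hc
  · intro i j hij
    obtain ⟨c, hc, hcj, _⟩ := exists_three h4 i j j
    exact not_dvd_x b hb i j c hc hcj hij
  · intro i a e hai hei hea z u v h
    obtain ⟨c, hci, hca, hce⟩ := exists_three h4 i a e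
    exact nzd b hb i a c e hci hca hce hei hea z u v h

section abs

variable {A : Type} [CommRing A] {x : σ → A}

/-- powers -/
theorem nz_pow (h : Reg x) (i a e : σ) (hai : a ≠ i) (hei : e ≠ i) (hea : e ≠ a) (n : ℕ) :
    ∀ z u v, x e * z = x i * u + x a ^ (n + 1) * v →
      ∃ u' v', z = x i * u' + x a ^ (n + 1) * v' := by
  have := h.dom
  induction n with
  | zero =>
    intro z u v hz
    rw [zero_add, pow_one] at hz ⊢
    exact h.nz i a e hai hei hea z u v hz
  | succ n ih =>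
    intro z u v hz
    obtain ⟨z1, z2, hz12⟩ := h.nz i a e hai hei hea z u (x a ^ (n + 1) * v)
      (by rw [hz]; ring)
    -- x a * (x e * z2 - x a ^ (n+1) v) divisible by x i
    have h1 : x i ∣ x a * (x e * z2 - x a ^ (n + 1) * v) := by
      refine ⟨u - x e * z1, ?_⟩
      rw [hz12] at hz
      linear_combination hz
    rcases (h.prime i).dvd_or_dvd h1 with h2 | h2
    · exact absurd h2 (h.ndvd i a hai)
    · obtain ⟨w, hw⟩ := h2
      obtain ⟨u', v', h3⟩ := ih z2 w v (by linear_combination hw)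
      refine ⟨z1 + x a * u', v', ?_⟩
      rw [hz12, h3]
      ring

theorem nz_pow_pow (h : Reg x) (i a e : σ) (hai : a ≠ i) (hei : e ≠ i) (hea : e ≠ a) (n m : ℕ) :
    ∀ z u v, x e ^ m * z = x i * u + x a ^ (n + 1) * v →
      ∃ u' v', z = x i * u' + x a ^ (n + 1) * v' := by
  induction m with
  | zero =>
    intro z u v hz
    exact ⟨u, v, by rw [← hz]; ring⟩
  | succ m ih =>
    intro z u v hz
    obtain ⟨u1, v1, h1⟩ := nz_pow h i a e hai hei hea n (x e ^ m * z) u v (by rw [← hz]; ring)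
    exact ih z u1 v1 h1

/-- the case `l = 1` of `(*)` -/
theorem star_one (h : Reg x) (π : A) (i : σ) (hπi : ¬ x i ∣ π) (n : ℕ) (y : A)
    (hy : ∀ j, ∃ c d, x j ^ (n + 1) * y = π * c + x i * d) : ∃ c d, y = π * c + x i * d := by
  have := h.dom
  obtain ⟨a, hai, _, _⟩ := exists_three h.card i i i
  obtain ⟨e, hei, hea, _⟩ := exists_three h.card i a a
  obtain ⟨ca, da, ha⟩ := hy a
  obtain ⟨ce, de, he⟩ := hy e
  have h1 : x i ∣ π * (x e ^ (n + 1) * ca - x a ^ (n + 1) * ce) := by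
    refine ⟨x a ^ (n + 1) * de - x e ^ (n + 1) * da, ?_⟩
    linear_combination x a ^ (n + 1) * he - x e ^ (n + 1) * ha
  rcases (h.prime i).dvd_or_dvd h1 with h2 | h2
  · exact absurd h2 hπi
  · obtain ⟨w, hw⟩ := h2
    obtain ⟨u', v', h3⟩ := nz_pow_pow h i a e hai hei hea n (n + 1) ca w ce
      (by linear_combination hw)
    have h4 : x i ∣ x a ^ (n + 1) * (y - π * v') := by
      refine ⟨da + π * u', ?_⟩
      rw [h3] at ha
      linear_combination ha
    rcases (h.prime i).dvd_or_dvd h4 with h5 | h5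
    · exact absurd ((h.prime i).dvd_of_dvd_pow h5) (h.ndvd i a hai)
    · obtain ⟨t, ht⟩ := h5
      exact ⟨v', t, by linear_combination ht⟩

/-- `(*)` -/
theorem star (h : Reg x) (π : A) (hπ : Prime π) (i : σ) (hπi : ¬ x i ∣ π) (hiπ : ¬ π ∣ x i)
    (n l : ℕ) : ∀ y : A, (∀ j, ∃ c d, x j ^ (n + 1) * y = π * c + x i ^ (l + 1) * d) →
      ∃ c d, y = π * c + x i ^ (l + 1) * d := by
  have := h.dom
  induction l with
  | zero =>
    intro y hy
    simp only [zero_add, pow_one] at hy ⊢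
    exact star_one h π i hπi n y hy
  | succ l ih =>
    intro y hy
    obtain ⟨c0, y', h0⟩ := star_one h π i hπi n y (fun j => by
      obtain ⟨c, d, hcd⟩ := hy j
      exact ⟨c, x i ^ (l + 1) * d, by rw [hcd]; ring⟩)
    obtain ⟨c1, d1, h1⟩ := ih y' (fun j => by
      obtain ⟨c, d, hcd⟩ := hy j
      have h2 : π ∣ x i * (x j ^ (n + 1) * y' - x i ^ (l + 1) * d) := by
        refine ⟨c - x j ^ (n + 1) * c0, ?_⟩
        rw [h0] at hcd
        linear_combination hcd
      rcases hπ.dvd_or_dvd h2 with h3 | h3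
      · exact absurd h3 hiπ
      · obtain ⟨t, ht⟩ := h3
        exact ⟨t, d, by linear_combination ht⟩)
    refine ⟨c0 + x i * c1, d1, ?_⟩
    rw [h0, h1]
    ring

/-- the claim for a prime element -/
theorem claim_prime (h : Reg x) (π : A) (hπ : Prime π) (k : ℕ) (r : σ → A)
    (hr : ∀ i j, π ∣ x j ^ (k + 1) * r i - x i ^ (k + 1) * r j) :
    ∃ s, ∀ i, π ∣ r i - x i ^ (k + 1) * s := by
  have := h.dom
  -- choose `i` with `π` not dividing `x i`
  have hex : ∃ i, ¬ π ∣ x i := by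
    by_contra hcon
    push Not at hcon
    obtain ⟨i⟩ : Nonempty σ := Fintype.card_pos_iff.mp (by have := h.card; omega)
    obtain ⟨j, hji, _, _⟩ := exists_three h.card i i i
    have h1 : Associated π (x i) :=
      hπ.irreducible.associated_of_dvd (h.prime i).irreducible (hcon i)
    exact h.ndvd i j hji (h1.symm.dvd.trans (hcon j))
  obtain ⟨i, hi⟩ := hex
  have hi' : ¬ x i ∣ π := by
    intro h1
    exact hi ((h.prime i).irreducible.associated_of_dvd hπ.irreducible h1).symm.dvd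
  obtain ⟨c, s, hs⟩ := star h π hπ i hi' hi k k (r i) (fun j => by
    obtain ⟨t, ht⟩ := hr i j
    exact ⟨t, r j, by linear_combination ht⟩)
  refine ⟨s, fun j => ?_⟩
  have h2 : π ∣ x i ^ (k + 1) * (r j - x j ^ (k + 1) * s) := by
    obtain ⟨t, ht⟩ := hr i j
    refine ⟨x j ^ (k + 1) * c - t, ?_⟩
    linear_combination (-1 : A) * ht + x j ^ (k + 1) * hs
  rcases hπ.dvd_or_dvd h2 with h3 | h3
  · exact absurd (hπ.dvd_of_dvd_pow h3) hi
  · exact h3

/-- composition -/
theorem claim_mul (hdom : IsDomain A) (π g : A) (hg : g ≠ 0) (k : ℕ)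
    (hπ : ∀ r : σ → A, (∀ i j, π ∣ x j ^ (k + 1) * r i - x i ^ (k + 1) * r j) →
      ∃ s, ∀ i, π ∣ r i - x i ^ (k + 1) * s)
    (hgc : ∀ r : σ → A, (∀ i j, g ∣ x j ^ (k + 1) * r i - x i ^ (k + 1) * r j) →
      ∃ s, ∀ i, g ∣ r i - x i ^ (k + 1) * s)
    (r : σ → A) (hr : ∀ i j, π * g ∣ x j ^ (k + 1) * r i - x i ^ (k + 1) * r j) :
    ∃ s, ∀ i, π * g ∣ r i - x i ^ (k + 1) * s := by
  obtain ⟨s, hs⟩ := hgc r (fun i j => (Dvd.intro_left π rfl).trans (hr i j))
  choose r' hr' using hs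
  obtain ⟨s', hs'⟩ := hπ r' (fun i j => by
    obtain ⟨t, ht⟩ := hr i j
    refine ⟨t, ?_⟩
    apply mul_left_cancel₀ hg
    linear_combination ht - x j ^ (k + 1) * hr' i + x i ^ (k + 1) * hr' j)
  refine ⟨s + g * s', fun i => ?_⟩
  obtain ⟨t, ht⟩ := hs' i
  exact ⟨t, by linear_combination hr' i + g * ht⟩

end abs

end BetaM

open BetaM in
theorem specBETA (hIRR : SpecIRR) (hGR : SpecGR) : SpecBETA := by
  classical
  intro σ _ b w L hW h4 hU
  have hreg := reg_FR hIRR b hW.two_le h4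
  have hdom := hreg.dom
  have hgr := hGR σ b w L (by omega) hW
  intro d
  induction d using Nat.strong_induction_on with
  | _ d ih =>
    intro g hg hg0 k hk r hr
    obtain ⟨k, rfl⟩ : ∃ k', k = k' + 1 := ⟨k - 1, by omega⟩
    by_cases hu : IsUnit g
    · exact ⟨0, fun i => hu.dvd⟩
    · obtain ⟨e, π, hπe, hπ, g', rfl⟩ := hU d g hg hg0 hu
      have hg'0 : g' ≠ 0 := right_ne_zero_of_mul hg0
      obtain ⟨d1, e1, hde, hπd, hge⟩ := hgr.factor hdom d π g' hπ.ne_zero hg'0 hg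
      have hd1 : d1 ≠ 0 := by
        rintro rfl
        obtain ⟨z, hz⟩ := (hgr.zero π).1 hπd
        have hz0 : z ≠ 0 := by
          rintro rfl
          exact hπ.ne_zero (by rw [hz, map_zero])
        exact hπ.not_isUnit (by rw [hz]; exact (IsUnit.mk0 z hz0).map (algebraMap ℂ (FR σ b)))
      exact claim_mul hdom π g' hg'0 k (fun r' hr' => claim_prime hreg π hπ k r' hr')
        (fun r' hr' => ih e1 (by omega) g' hge hg'0 (k + 1) (by omega) r' hr') r hr

end

end Pool.Agent.Lib.MPa7508c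
end

section
/-!
# IRR: irreducibility of Fermat polynomials in at least three variables
-/
set_option autoImplicit false

namespace Pool.Agent.Lib.MPa7508c

open MvPolynomial

noncomputable section

namespace IrrM

variable {τ : Type} [Fintype τ]

theorem rename_fp {σ : Type} [Fintype σ] (e : σ ≃ τ) (b : τ → ℕ) :
    rename e (fp σ (b ∘ e)) = fp τ b := by
  simp only [fp, map_sum, map_pow, rename_X, Function.comp]
  exact Equiv.sum_comp e (fun i => (X i : MvPolynomial τ ℂ) ^ b i)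

theorem coeff_fp (b : τ → ℕ) (hb : ∀ i, 2 ≤ b i) (i : τ) :
    coeff (Finsupp.single i (b i)) (fp τ b) = 1 := by
  classical
  rw [fp, coeff_sum, Finset.sum_eq_single i]
  · rw [coeff_X_pow, if_pos rfl]
  · intro j _ hj
    rw [coeff_X_pow, if_neg]
    intro h
    have := DFunLike.congr_fun h j
    rw [Finsupp.single_eq_same, Finsupp.single_eq_of_ne hj] at this
    have := hb j
    omega
  · intro h
    exact absurd (Finset.mem_univ i) h

theorem fp_ne_zero [Nonempty τ] (b : τ → ℕ) (hb : ∀ i, 2 ≤ b i) : fp τ b ≠ 0 := by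
  intro h
  obtain ⟨i⟩ := ‹Nonempty τ›
  have := coeff_fp b hb i
  rw [h, coeff_zero] at this
  exact one_ne_zero this.symm

theorem eval_fp (b : τ → ℕ) (p : τ → ℂ) : eval p (fp τ b) = ∑ i, p i ^ b i := by
  simp [fp]

theorem fp_not_unit (b : τ → ℕ) (hb : ∀ i, 2 ≤ b i) : ¬ IsUnit (fp τ b) := by
  intro h
  have h1 := h.map (eval (0 : τ → ℂ))
  rw [eval_fp] at h1
  have h2 : ∑ i : τ, (0 : τ → ℂ) i ^ b i = 0 := by
    apply Finset.sum_eq_zero
    intro i _
    have := hb i
    exact zero_pow (by omega)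
  rw [h2] at h1
  exact not_isUnit_zero h1

/-- a prime factor of the Fermat polynomial in at least two variables is a simple factor -/
theorem exists_simple_factor (b : τ → ℕ) (hb : ∀ i, 2 ≤ b i) (h2 : 2 ≤ Fintype.card τ) :
    ∃ π : MvPolynomial τ ℂ, Prime π ∧ π ∣ fp τ b ∧ ¬ π ^ 2 ∣ fp τ b := by
  classical
  obtain ⟨i, j, hij⟩ := Fintype.one_lt_card_iff.mp (by omega : 1 < Fintype.card τ)
  have : Nonempty τ := ⟨i⟩
  obtain ⟨π, hπ, hdvd⟩ := WfDvdMonoid.exists_irreducible_factor (fp_not_unit b hb) (fp_ne_zero b hb)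
  have hp : Prime π := hπ.prime
  refine ⟨π, hp, hdvd, fun hsq => ?_⟩
  have key : ∀ k, π ∣ (X k : MvPolynomial τ ℂ) := by
    intro k
    obtain ⟨h, hh⟩ := hsq
    have h1 : pderiv k (fp τ b) = (b k : MvPolynomial τ ℂ) * X k ^ (b k - 1) := by
      rw [fp, map_sum, Finset.sum_eq_single k]
      · rw [Derivation.leibniz_pow, pderiv_X_self]
        simp
      · intro l _ hl
        rw [Derivation.leibniz_pow, pderiv_X_of_ne hl]
        simp
      · intro h
        exact absurd (Finset.mem_univ k) h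
    have h2 : π ∣ pderiv k (fp τ b) := by
      rw [hh, Derivation.leibniz, Derivation.leibniz_pow]
      refine dvd_add ?_ ?_
      · simp only [smul_eq_mul, pow_two]
        exact ⟨π * pderiv k h, by ring⟩
      · simp only [smul_eq_mul, nsmul_eq_mul]
        exact ⟨h * (2 * pderiv k π), by push_cast; ring⟩
    rw [h1] at h2
    rcases hp.dvd_or_dvd h2 with h3 | h3
    · exfalso
      have hu : IsUnit ((b k : ℕ) : MvPolynomial τ ℂ) := by
        have : ((b k : ℕ) : MvPolynomial τ ℂ) = C ((b k : ℕ) : ℂ) := by simp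
        rw [this]
        apply IsUnit.map
        have := hb k
        exact IsUnit.mk0 _ (by exact_mod_cast (by omega : b k ≠ 0))
      exact hp.not_isUnit (isUnit_of_dvd_unit h3 hu)
    · exact hp.dvd_of_dvd_pow h3
  have hi : Associated π (X i : MvPolynomial τ ℂ) :=
    (hπ.associated_of_dvd (X_prime (R := ℂ) (i := i)).irreducible (key i))
  have hdv : (X i : MvPolynomial τ ℂ) ∣ X j := hi.symm.dvd.trans (key j)
  exact hij (X_dvd_X.mp hdv)

theorem prime_option (b : Option τ → ℕ) (hb : ∀ i, 2 ≤ b i) (h2 : 2 ≤ Fintype.card τ) :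
    Prime (fp (Option τ) b) := by
  obtain ⟨π, hπ, hdvd, hsq⟩ := exists_simple_factor (fun i : τ => b (some i))
    (fun i => hb (some i)) h2
  rw [← MulEquiv.prime_iff (optionEquivLeft ℂ τ)]
  set g := fp τ (fun i : τ => b (some i)) with hg
  have hb0 : 2 ≤ b none := hb none
  have himg : (optionEquivLeft ℂ τ) (fp (Option τ) b) = Polynomial.X ^ b none + Polynomial.C g := by
    rw [fp, Fintype.sum_option, map_add, map_sum, hg, fp, map_sum]
    simp only [map_pow, optionEquivLeft_X_none, optionEquivLeft_X_some]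
  rw [himg]
  have hdeg : (Polynomial.X ^ b none + Polynomial.C g).natDegree = b none :=
    Polynomial.natDegree_X_pow_add_C
  have hmon : (Polynomial.X ^ b none + Polynomial.C g).Monic :=
    Polynomial.monic_X_pow_add_C g (by omega)
  apply Irreducible.prime
  apply Polynomial.irreducible_of_eisenstein_criterion
    (P := Ideal.span {π}) ((Ideal.span_singleton_prime hπ.ne_zero).mpr hπ)
  · rw [hmon.leadingCoeff, Ideal.mem_span_singleton]
    intro h
    exact hπ.not_isUnit (isUnit_of_dvd_one h)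
  · intro n hn
    have hn' : n < b none := by
      have := Polynomial.degree_X_pow_add_C (by omega : 0 < b none) g
      rw [this] at hn
      exact_mod_cast hn
    rw [Ideal.mem_span_singleton, Polynomial.coeff_add, Polynomial.coeff_X_pow,
      if_neg (by omega), zero_add, Polynomial.coeff_C]
    split_ifs
    · exact hdvd
    · exact dvd_zero _
  · have := Polynomial.degree_X_pow_add_C (by omega : 0 < b none) g
    rw [this]
    exact_mod_cast (by omega : 0 < b none)
  · rw [Polynomial.coeff_add, Polynomial.coeff_X_pow, if_neg (by omega), zero_add,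
      Polynomial.coeff_C_zero, Ideal.span_singleton_pow, Ideal.mem_span_singleton]
    exact hsq
  · exact hmon.isPrimitive

end IrrM

theorem specIRR : SpecIRR := by
  classical
  intro σ _ b hcard hb
  have : Nonempty σ := Fintype.card_pos_iff.mp (by omega)
  obtain ⟨c⟩ := ‹Nonempty σ›
  let e : Option {j : σ // j ≠ c} ≃ σ := Equiv.optionSubtypeNe c
  have hc2 : 2 ≤ Fintype.card {j : σ // j ≠ c} := by
    have h1 : Fintype.card (Option {j : σ // j ≠ c}) = Fintype.card σ := Fintype.card_congr e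
    rw [Fintype.card_option] at h1
    omega
  have h1 := IrrM.prime_option (b ∘ e) (fun i => hb (e i)) hc2
  rw [← IrrM.rename_fp e b]
  exact (MulEquiv.prime_iff (renameEquiv ℂ e)).mpr h1

end

end Pool.Agent.Lib.MPa7508c
end

section
/-!
# CHAIN: graded factoriality of the coordinate ring, from the base case and the Lefschetz theorem
-/
set_option autoImplicit false

namespace Pool.Agent.Lib.MPa7508c

open MvPolynomial

noncomputable section

namespace ChainM

variable {σ τ : Type} [Fintype σ] [Fintype τ]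

/-- relabelling of the variables -/
def relabel (e : σ ≃ τ) (b : τ → ℕ) : FR σ (b ∘ e) ≃ₐ[ℂ] FR τ b :=
  Ideal.quotientEquivAlg _ _ (renameEquiv ℂ e) (by
    rw [Ideal.map_span, Set.image_singleton]
    congr 2
    exact (IrrM.rename_fp e b).symm)

theorem relabel_mk (e : σ ≃ τ) (b : τ → ℕ) (P : MvPolynomial σ ℂ) :
    relabel e b (mkF (b ∘ e) P) = mkF b (rename e P) := rfl

omit [Fintype σ] [Fintype τ] in
theorem homog_rename (e : σ ≃ τ) (w : τ → ℕ) (P : MvPolynomial σ ℂ) (d : ℕ)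
    (hP : IsWeightedHomogeneous (w ∘ e) P d) : IsWeightedHomogeneous w (rename e P) d := by
  intro m hm
  obtain ⟨u, hu, hu'⟩ := coeff_rename_ne_zero _ _ _ hm
  have h1 := hP hu'
  rw [← hu, ← h1, Finsupp.weight_apply, Finsupp.weight_apply, Finsupp.sum_mapDomain_index]
  · rfl
  · intro _
    exact zero_smul ℕ _
  · intro _ _ _
    exact add_smul _ _ _

theorem relabel_hom (e : σ ≃ τ) (b w : τ → ℕ) (d : ℕ) (r : FR σ (b ∘ e))
    (hr : r ∈ hom (b ∘ e) (w ∘ e) d) : relabel e b r ∈ hom b w d := by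
  obtain ⟨P, hP, rfl⟩ := Submodule.mem_map.mp hr
  exact Submodule.mem_map.mpr ⟨rename e P, homog_rename e w P d hP, (relabel_mk e b P).symm⟩

theorem relabel_symm_hom (e : σ ≃ τ) (b w : τ → ℕ) (d : ℕ) (r : FR τ b)
    (hr : r ∈ hom b w d) : (relabel e b).symm r ∈ hom (b ∘ e) (w ∘ e) d := by
  obtain ⟨P, hP, rfl⟩ := Submodule.mem_map.mp hr
  refine Submodule.mem_map.mpr ⟨rename e.symm P, ?_, ?_⟩
  · apply homog_rename e.symm (w ∘ e) P d
    have : (w ∘ e) ∘ e.symm = w := by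
      ext i
      simp
    rw [this]
    exact hP
  · apply (relabel e b).injective
    rw [AlgEquiv.apply_symm_apply]
    have h1 := relabel_mk e b (rename e.symm P)
    have h2 : rename e (rename e.symm P) = P := by
      rw [rename_rename]
      simp
    rw [h2] at h1
    exact h1

theorem grUFD_relabel (e : σ ≃ τ) (b w : τ → ℕ) (h : GrUFD (b ∘ e) (w ∘ e)) : GrUFD b w := by
  intro d c hc h0 hu
  obtain ⟨k, p, hp, hpr, hdvd⟩ := h d ((relabel e b).symm c) (relabel_symm_hom e b w d c hc)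
    (by simpa using h0) (by
      intro hcon
      apply hu
      have := hcon.map (relabel e b)
      simpa using this)
  refine ⟨k, relabel e b p, relabel_hom e b w k p hp, ?_, ?_⟩
  · exact (MulEquiv.prime_iff (relabel e b)).mpr hpr
  · have := map_dvd (relabel e b) hdvd
    simpa using this

/-- one step, with the new variable at the end -/
theorem step (hLEF : SpecLEF) {n : ℕ} (hn : 4 ≤ n) (b w : Fin n → ℕ) (b0 w0 L : ℕ)
    (hW : ∀ i, b i * w i = L ∧ 2 ≤ b i ∧ 0 < w i) (h0 : b0 * w0 = L ∧ 2 ≤ b0 ∧ 0 < w0)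
    (h : GrUFD b w) (b' w' : Fin (n + 1) → ℕ)
    (hb' : ∀ o : Option (Fin n), b' (finSuccEquivLast.symm o) = o.elim b0 b)
    (hw' : ∀ o : Option (Fin n), w' (finSuccEquivLast.symm o) = o.elim w0 w) :
    GrUFD b' w' := by
  have h1 := hLEF (Fin n) b w b0 w0 L
    ⟨fun o => by cases o with
      | none => exact h0.1
      | some i => exact (hW i).1,
     fun o => by cases o with
      | none => exact h0.2.1
      | some i => exact (hW i).2.1,
     fun o => by cases o with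
      | none => exact h0.2.2
      | some i => exact (hW i).2.2⟩ (by simpa using hn) h
  have hb : b' ∘ finSuccEquivLast.symm = fun o : Option (Fin n) => o.elim b0 b := funext hb'
  have hw : w' ∘ finSuccEquivLast.symm = fun o : Option (Fin n) => o.elim w0 w := funext hw'
  apply grUFD_relabel (finSuccEquivLast (n := n)).symm b' w'
  rw [hb, hw]
  exact h1

end ChainM

theorem specCHAIN (hSAM : SpecSAM) (hLEF : SpecLEF) : SpecCHAIN := by
  have h4 : GrUFD (σ := Fin 4) ![7, 8, 9, 10] ![720, 630, 560, 504] := hSAM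
  have h5 : GrUFD (σ := Fin 5) ![7, 8, 9, 10, 12] ![720, 630, 560, 504, 420] :=
    ChainM.step hLEF (by norm_num) _ _ 12 420 5040 (by decide) (by decide) h4 _ _
      (by decide) (by decide)
  have h6 : GrUFD (σ := Fin 6) ![7, 8, 9, 10, 12, 14] ![720, 630, 560, 504, 420, 360] :=
    ChainM.step hLEF (by norm_num) _ _ 14 360 5040 (by decide) (by decide) h5 _ _
      (by decide) (by decide)
  have h7 : GrUFD (σ := Fin 7) ![7, 8, 9, 10, 12, 14, 14]
      ![720, 630, 560, 504, 420, 360, 360] :=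
    ChainM.step hLEF (by norm_num) _ _ 14 360 5040 (by decide) (by decide) h6 _ _
      (by decide) (by decide)
  have h8 : GrUFD (σ := Fin 8) ![7, 8, 9, 10, 12, 14, 14, 15]
      ![720, 630, 560, 504, 420, 360, 360, 336] :=
    ChainM.step hLEF (by norm_num) _ _ 15 336 5040 (by decide) (by decide) h7 _ _
      (by decide) (by decide)
  have h9 : GrUFD (σ := Fin 9) ![7, 8, 9, 10, 12, 14, 14, 15, 16]
      ![720, 630, 560, 504, 420, 360, 360, 336, 315] :=
    ChainM.step hLEF (by norm_num) _ _ 16 315 5040 (by decide) (by decide) h8 _ _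
      (by decide) (by decide)
  have h10 : GrUFD (σ := Fin 10) ![7, 8, 9, 10, 12, 14, 14, 15, 16, 16]
      ![720, 630, 560, 504, 420, 360, 360, 336, 315, 315] :=
    ChainM.step hLEF (by norm_num) _ _ 16 315 5040 (by decide) (by decide) h9 _ _
      (by decide) (by decide)
  have h11 : GrUFD (σ := Fin 11) ![7, 8, 9, 10, 12, 14, 14, 15, 16, 16, 18]
      ![720, 630, 560, 504, 420, 360, 360, 336, 315, 315, 280] :=
    ChainM.step hLEF (by norm_num) _ _ 18 280 5040 (by decide) (by decide) h10 _ _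
      (by decide) (by decide)
  have h12 : GrUFD (σ := Fin 12) ![7, 8, 9, 10, 12, 14, 14, 15, 16, 16, 18, 20]
      ![720, 630, 560, 504, 420, 360, 360, 336, 315, 315, 280, 252] :=
    ChainM.step hLEF (by norm_num) _ _ 20 252 5040 (by decide) (by decide) h11 _ _
      (by decide) (by decide)
  exact hLEF (Fin 12) _ _ 5040 1 5040
    ⟨by decide, by decide, by decide⟩ (by simp) h12

end

end Pool.Agent.Lib.MPa7508c
end

section
/-!
# Module GR: the grading of a Fermat ring
-/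
set_option autoImplicit false

namespace Pool.Agent.Lib.MPa7508c

open MvPolynomial

noncomputable section

namespace GrM

attribute [local instance] MvPolynomial.weightedGradedAlgebra

variable {σ : Type} [Fintype σ] {b w : σ → ℕ} {L : ℕ}

theorem fp_homog (h : Wt b w L) : IsWeightedHomogeneous w (fp σ b) L := by
  unfold fp
  apply IsWeightedHomogeneous.sum
  intro i _
  have := (isWeightedHomogeneous_X ℂ w i).pow (b i)
  rwa [smul_eq_mul, h.mul] at this

theorem span_homog (h : Wt b w L) :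
    (Ideal.span {fp σ b}).IsHomogeneous (weightedHomogeneousSubmodule ℂ w) := by
  apply Ideal.homogeneous_span
  intro x hx
  rw [Set.mem_singleton_iff] at hx
  exact ⟨L, by rw [hx]; exact fp_homog h⟩

theorem comp_mem (h : Wt b w L) {P : MvPolynomial σ ℂ} (hP : P ∈ Ideal.span {fp σ b}) (d : ℕ) :
    weightedHomogeneousComponent w d P ∈ Ideal.span {fp σ b} :=
  weightedHomogeneousComponent_mem_of_mem ℂ w (span_homog h) hP d

theorem mk_eq_zero {P : MvPolynomial σ ℂ} : mkF b P = 0 ↔ P ∈ Ideal.span {fp σ b} :=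
  Ideal.Quotient.eq_zero_iff_mem

theorem mk_surj (r : FR σ b) : ∃ P, mkF b P = r := Ideal.Quotient.mk_surjective r

/-- a lift -/
def lf (r : FR σ b) : MvPolynomial σ ℂ := (mk_surj r).choose

theorem mk_lf (r : FR σ b) : mkF b (lf r) = r := (mk_surj r).choose_spec

/-- the homogeneous component of degree `d` -/
def cp0 (w : σ → ℕ) (d : ℕ) (r : FR σ b) : FR σ b :=
  mkF b (weightedHomogeneousComponent w d (lf r))

theorem cp0_mk (h : Wt b w L) (d : ℕ) (P : MvPolynomial σ ℂ) :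
    cp0 w d (mkF b P) = mkF b (weightedHomogeneousComponent w d P) := by
  unfold cp0
  rw [← sub_eq_zero, ← map_sub, ← map_sub, mk_eq_zero]
  apply comp_mem h
  rw [← mk_eq_zero, map_sub, mk_lf, sub_self]

/-- the homogeneous component of degree `d`, additive version -/
def cp (h : Wt b w L) (d : ℕ) : FR σ b →+ FR σ b :=
  AddMonoidHom.mk' (cp0 w d) (by
    intro r s
    obtain ⟨P, rfl⟩ := mk_surj r
    obtain ⟨Q, rfl⟩ := mk_surj s
    rw [← map_add, cp0_mk h, cp0_mk h, cp0_mk h, map_add, map_add])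

theorem cp_mk (h : Wt b w L) (d : ℕ) (P : MvPolynomial σ ℂ) :
    cp h d (mkF b P) = mkF b (weightedHomogeneousComponent w d P) := cp0_mk h d P

theorem mem_hom {d : ℕ} {r : FR σ b} : r ∈ hom b w d ↔
    ∃ P : MvPolynomial σ ℂ, IsWeightedHomogeneous w P d ∧ mkF b P = r := by
  unfold hom
  rw [Submodule.mem_map]
  constructor
  · rintro ⟨P, hP, h⟩
    exact ⟨P, hP, h⟩
  · rintro ⟨P, hP, h⟩
    exact ⟨P, hP, h⟩

theorem mk_mem_hom {d : ℕ} {P : MvPolynomial σ ℂ} (hP : IsWeightedHomogeneous w P d) :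
    mkF b P ∈ hom b w d := mem_hom.2 ⟨P, hP, rfl⟩

theorem cp_mem (h : Wt b w L) (d : ℕ) (r : FR σ b) : cp h d r ∈ hom b w d := by
  obtain ⟨P, rfl⟩ := mk_surj r
  rw [cp_mk]
  exact mk_mem_hom (weightedHomogeneousComponent_isWeightedHomogeneous d P)

theorem cp_of_mem (h : Wt b w L) {d : ℕ} (e : ℕ) {r : FR σ b} (hr : r ∈ hom b w d) :
    cp h e r = if e = d then r else 0 := by
  obtain ⟨P, hP, rfl⟩ := mem_hom.1 hr
  rw [cp_mk]
  split_ifs with he
  · rw [he, hP.weightedHomogeneousComponent_same]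
  · rw [hP.weightedHomogeneousComponent_ne e he, map_zero]

theorem mul_mem {d e : ℕ} {r s : FR σ b} (hr : r ∈ hom b w d) (hs : s ∈ hom b w e) :
    r * s ∈ hom b w (d + e) := by
  obtain ⟨P, hP, rfl⟩ := mem_hom.1 hr
  obtain ⟨Q, hQ, rfl⟩ := mem_hom.1 hs
  rw [← map_mul]
  exact mk_mem_hom (hP.mul hQ)

theorem dec (_ : Wt b w L) (r : FR σ b) : ∃ c : ℕ →₀ FR σ b,
    (∀ d, c d ∈ hom b w d) ∧ r = c.sum (fun _ y => y) := by
  classical
  obtain ⟨P, rfl⟩ := mk_surj r
  have hfin : (Function.support fun m => weightedHomogeneousComponent w m P).Finite :=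
    weightedHomogeneousComponent_finsupp P
  set S : Finset ℕ := hfin.toFinset with hS
  have hmem : ∀ d, mkF b (weightedHomogeneousComponent w d P) ≠ 0 → d ∈ S := by
    intro d hd
    rw [hS, Set.Finite.mem_toFinset, Function.mem_support]
    intro h0
    exact hd (by rw [h0, map_zero])
  refine ⟨Finsupp.onFinset S (fun d => mkF b (weightedHomogeneousComponent w d P)) hmem,
    fun d => ?_, ?_⟩
  · rw [Finsupp.onFinset_apply]
    exact mk_mem_hom (weightedHomogeneousComponent_isWeightedHomogeneous d P)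
  · rw [Finsupp.onFinset_sum _ (fun _ => rfl), ← map_sum]
    congr 1
    have h1 := sum_weightedHomogeneousComponent w P
    rw [finsum_eq_sum_of_support_subset (s := S) _ (by rw [hS, Set.Finite.coe_toFinset])] at h1
    exact h1.symm

theorem uniq (h : Wt b w L) (c : ℕ →₀ FR σ b) (hc : ∀ d, c d ∈ hom b w d)
    (h0 : c.sum (fun _ y => y) = 0) : c = 0 := by
  ext1 d
  have h1 := congrArg (cp h d) h0
  rw [map_zero, Finsupp.sum, map_sum] at h1
  rw [Finset.sum_congr rfl fun e _ => cp_of_mem h d (hc e), Finset.sum_ite_eq] at h1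
  rw [Finsupp.zero_apply]
  split_ifs at h1 with h2
  · exact h1
  · exact Finsupp.notMem_support_iff.1 h2

theorem ne_zero_of_notMem : (1 : FR σ b) ≠ 0 ↔ ¬ IsUnit (fp σ b) := by
  rw [not_iff_not, ← map_one (mkF b), mk_eq_zero, ← Ideal.eq_top_iff_one,
    Ideal.span_singleton_eq_top]

theorem not_unit (h : Wt b w L) : ¬ IsUnit (fp σ b) := by
  intro hu
  have h1 := hu.map (eval (0 : σ → ℂ))
  have h2 : eval (0 : σ → ℂ) (fp σ b) = 0 := by
    unfold fp
    rw [map_sum]
    apply Finset.sum_eq_zero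
    intro i _
    rw [map_pow, eval_X, Pi.zero_apply, zero_pow]
    have := h.two_le i
    omega
  rw [h2] at h1
  exact not_isUnit_zero h1

theorem factor (h : Wt b w L) (hd : IsDomain (FR σ b)) (k : ℕ) (r s : FR σ b) (hr0 : r ≠ 0)
    (hs0 : s ≠ 0) (hrs : r * s ∈ hom b w k) :
    ∃ d e, d + e = k ∧ r ∈ hom b w d ∧ s ∈ hom b w e := by
  classical
  obtain ⟨cr, hcr, hr⟩ := dec h r
  obtain ⟨cs, hcs, hs⟩ := dec h s
  have nr : cr.support.Nonempty := by
    rw [Finset.nonempty_iff_ne_empty]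
    intro h0
    rw [Finsupp.support_eq_empty] at h0
    rw [h0, Finsupp.sum_zero_index] at hr
    exact hr0 hr
  have ns : cs.support.Nonempty := by
    rw [Finset.nonempty_iff_ne_empty]
    intro h0
    rw [Finsupp.support_eq_empty] at h0
    rw [h0, Finsupp.sum_zero_index] at hs
    exact hs0 hs
  have hprod : r * s = ∑ d ∈ cr.support, ∑ e ∈ cs.support, cr d * cs e := by
    rw [hr, hs, Finsupp.sum, Finsupp.sum, Finset.sum_mul_sum]
  have key : ∀ i j, i ∈ cr.support → j ∈ cs.support →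
      (∀ d ∈ cr.support, ∀ e ∈ cs.support, i + j = d + e → d = i ∧ e = j) → i + j = k := by
    intro i j hi hj huniq
    by_contra hne
    have h1 : cp h (i + j) (r * s) = 0 := by
      rw [cp_of_mem h (i + j) hrs, if_neg hne]
    have h2 : cp h (i + j) (r * s) = cr i * cs j := by
      rw [hprod, map_sum, Finset.sum_eq_single i]
      · rw [map_sum, Finset.sum_eq_single j]
        · rw [cp_of_mem h (i + j) (mul_mem (hcr i) (hcs j)), if_pos rfl]
        · intro e he hej
          rw [cp_of_mem h (i + j) (mul_mem (hcr i) (hcs e)), if_neg]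
          intro h3
          exact hej (by omega)
        · intro h3
          exact absurd hj h3
      · intro d hd' hdi
        rw [map_sum]
        apply Finset.sum_eq_zero
        intro e he
        rw [cp_of_mem h (i + j) (mul_mem (hcr d) (hcs e)), if_neg]
        intro h3
        exact hdi (huniq d hd' e he h3).1
      · intro h3
        exact absurd hi h3
    rw [h1] at h2
    rcases mul_eq_zero.1 h2.symm with h3 | h3
    · exact (Finsupp.mem_support_iff.1 hi) h3
    · exact (Finsupp.mem_support_iff.1 hj) h3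
  have k0 := key _ _ (cr.support.min'_mem nr) (cs.support.min'_mem ns) (by
    intro d hd' e he h3
    have h4 := cr.support.min'_le d hd'
    have h5 := cs.support.min'_le e he
    omega)
  have k1 := key _ _ (cr.support.max'_mem nr) (cs.support.max'_mem ns) (by
    intro d hd' e he h3
    have h4 := cr.support.le_max' d hd'
    have h5 := cs.support.le_max' e he
    omega)
  have l0 := cr.support.min'_le _ (cr.support.max'_mem nr)
  have l1 := cs.support.min'_le _ (cs.support.max'_mem ns)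
  refine ⟨cr.support.min' nr, cs.support.min' ns, k0, ?_, ?_⟩
  · rw [hr, Finsupp.sum]
    apply Submodule.sum_mem
    intro d hd'
    have h4 := cr.support.min'_le d hd'
    have h5 := cr.support.le_max' d hd'
    have h6 : d = cr.support.min' nr := by omega
    rw [← h6]
    exact hcr d
  · rw [hs, Finsupp.sum]
    apply Submodule.sum_mem
    intro d hd'
    have h4 := cs.support.min'_le d hd'
    have h5 := cs.support.le_max' d hd'
    have h6 : d = cs.support.min' ns := by omega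
    rw [← h6]
    exact hcs d

end GrM

open GrM in
theorem specGR : SpecGR := by
  intro σ _ b w L _ h
  refine ⟨dec h, uniq h, fun d e r s => mul_mem, ?_, ?_, fun d r => mem_hom, factor h,
    ⟨1, ne_zero_of_notMem.2 (not_unit h)⟩⟩
  · intro r
    constructor
    · intro hr
      obtain ⟨P, hP, rfl⟩ := mem_hom.1 hr
      refine ⟨coeff 0 P, ?_⟩
      rw [← hP.weightedHomogeneousComponent_same,
        weightedHomogeneousComponent_zero P (fun i => (h.pos i).ne')]
      rw [coeff_zero_C]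
      rfl
    · rintro ⟨z, rfl⟩
      exact mem_hom.2 ⟨C z, isWeightedHomogeneous_C w z, rfl⟩
  · intro d
    unfold hom
    have h1 := (weightedHomogeneousSubmodule_fg (R := ℂ) w (fun i => (h.pos i).ne') d).map
      (mkF b).toLinearMap
    exact Module.Finite.iff_fg.2 h1

end

end Pool.Agent.Lib.MPa7508c
end

section
/-!
# Module DIVX: the prime divisor of a homogeneous prime element
-/
set_option autoImplicit false

namespace Pool.Agent.Lib.MPa7508c

open MvPolynomial

noncomputable section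

namespace DivxM

open UtilM

variable {m : ℕ} {Δ : Dat m} {K : Type} [Field K] [Algebra ℂ K] {x : Fin (m + 2) → K}

/-- the coordinates, as elements of the ring -/
def co (Δ : Dat m) (k : Option (Fin (m + 2))) : Δ.R := mkF Δ.b (X k)

theorem co_none : co Δ none = Δ.x0 := rfl
theorem co_some (i : Fin (m + 2)) : co Δ (some i) = Δ.xx i := rfl

theorem co_mem (k : Option (Fin (m + 2))) : co Δ k ∈ Δ.hm (Δ.ww k) :=
  mem_hm (isWeightedHomogeneous_X ℂ Δ.ww k)

theorem co_prime (hR : RingLaws Δ) (k : Option (Fin (m + 2))) : Prime (co Δ k) := by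
  rcases k with _ | i
  · exact hR.x0prime
  · exact hR.xprime i

theorem co_ndvd (hR : RingLaws Δ) {k l : Option (Fin (m + 2))} (hkl : k ≠ l) :
    ¬ co Δ k ∣ co Δ l := by
  rcases k with _ | i <;> rcases l with _ | j
  · exact absurd rfl hkl
  · exact hR.x0x j
  · exact hR.xx0 i
  · exact hR.xx i j (fun h => hkl (by rw [h]))

theorem ww_pos (k : Option (Fin (m + 2))) : 0 < Δ.ww k := (wt Δ).pos k

/-- a prime divides another one: they are associated -/
theorem dvd_symm (hR : RingLaws Δ) {p q : Δ.R} (hp : Prime p) (hq : Prime q) (h : p ∣ q) :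
    q ∣ p := by
  have := hR.dom
  obtain ⟨u, hu⟩ := h
  rcases hq.dvd_or_dvd (show q ∣ p * u by rw [← hu]) with h1 | ⟨v, hv⟩
  · exact h1
  · exfalso
    apply hp.not_isUnit
    rw [isUnit_iff_dvd_one]
    refine ⟨v, ?_⟩
    have h2 : u * (p * v) = u * 1 := by
      rw [mul_one]
      nth_rw 2 [hv]
      rw [hu]; ring
    have hu0 : u ≠ 0 := by
      rintro rfl
      rw [mul_zero] at hu
      exact hq.ne_zero hu
    exact (mul_left_cancel₀ hu0 h2).symm

theorem one_dvd (hR : RingLaws Δ) {p : Δ.R} (hp : Prime p) {k l : Option (Fin (m + 2))}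
    (hkl : k ≠ l) (hk : p ∣ co Δ k) : ¬ p ∣ co Δ l := fun hl =>
  co_ndvd hR hkl ((dvd_symm hR hp (co_prime hR k) hk).trans hl)

/-- a coordinate that is not divisible by `p` nor by `p'` -/
theorem exists_ndvd₂ (hR : RingLaws Δ) {p p' : Δ.R} (hp : Prime p) (hp' : Prime p') :
    ∃ k : Option (Fin (m + 2)), ¬ p ∣ co Δ k ∧ ¬ p' ∣ co Δ k := by
  by_contra hcon
  push Not at hcon
  have h0 := hcon none
  have h1 := hcon (some 0)
  have h2 := hcon (some 1)
  have n01 : (none : Option (Fin (m + 2))) ≠ some 0 := by simp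
  have n02 : (none : Option (Fin (m + 2))) ≠ some 1 := by simp
  have n12 : (some 0 : Option (Fin (m + 2))) ≠ some 1 := by simp
  by_cases a0 : p ∣ co Δ none
  · exact one_dvd hR hp' n12 (h1 (one_dvd hR hp n01 a0)) (h2 (one_dvd hR hp n02 a0))
  · have b0 := h0 a0
    by_cases a1 : p ∣ co Δ (some 0)
    · exact one_dvd hR hp' n02 b0 (h2 (one_dvd hR hp n12 a1))
    · exact one_dvd hR hp' n01 b0 (h1 a1)

theorem exists_ndvd (hR : RingLaws Δ) {p : Δ.R} (hp : Prime p) :
    ∃ k : Option (Fin (m + 2)), ¬ p ∣ co Δ k := by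
  obtain ⟨k, hk, -⟩ := exists_ndvd₂ hR hp hp
  exact ⟨k, hk⟩

/-- the degree of a homogeneous prime is positive -/
theorem deg_pos (hG : GrLaws Δ.b Δ.ww) {p : Δ.R} {e : ℕ} (hp : Prime p) (hpe : p ∈ Δ.hm e) :
    0 < e := by
  rcases Nat.eq_zero_or_pos e with rfl | h
  · exfalso
    obtain ⟨z, hz⟩ := (hG.zero p).1 hpe
    by_cases hz0 : z = 0
    · apply hp.ne_zero
      rw [hz, hz0, map_zero]
    · apply hp.not_isUnit
      rw [hz]
      exact (IsUnit.mk0 z hz0).map (algebraMap ℂ Δ.R)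
  · exact h

/-- splitting off the `p`-part -/
theorem split (hG : GrLaws Δ.b Δ.ww) (hR : RingLaws Δ) {p : Δ.R} {e : ℕ} (hp : Prime p)
    (hpe : p ∈ Δ.hm e) {d : ℕ} {r : Δ.R} (hr : r ∈ Δ.hm d) (hr0 : r ≠ 0) :
    ∃ (d' : ℕ) (r' : Δ.R), r' ∈ Δ.hm d' ∧ ¬ p ∣ r' ∧ r = p ^ mult p r * r' ∧
      mult p r * e + d' = d := by
  have hdom := hR.dom
  have h1 := (hR.mult_le p r (mult p r) hp hr0).1 le_rfl
  obtain ⟨r', hr'⟩ := h1
  have hne : p ^ mult p r ≠ 0 ∧ r' ≠ 0 := by
    rw [hr'] at hr0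
    exact ⟨left_ne_zero_of_mul hr0, right_ne_zero_of_mul hr0⟩
  obtain ⟨d1, d2, hd12, hd1, hd2⟩ := hG.factor hdom d _ _ hne.1 hne.2 (by rw [← hr']; exact hr)
  have hd1' := deg_unique hG hne.1 hd1 (pow_mem hpe (mult p r))
  refine ⟨d2, r', hd2, ?_, hr', by rw [← hd1']; exact hd12⟩
  intro hdvd
  have h2 : p ^ (mult p r + 1) ∣ r := by
    nth_rw 2 [hr']
    rw [pow_succ]
    exact mul_dvd_mul_left _ hdvd
  have := (hR.mult_le p r (mult p r + 1) hp hr0).2 h2
  omega

theorem frac_ne (h : IsFun Δ K x) (hF : FunLaws h) {d : ℕ} {r : Δ.R} (hr : r ∈ Δ.hm d)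
    (hr0 : r ≠ 0) : dh h r ≠ 0 := fun h0 => hr0 (hF.inj d r hr h0)

theorem inj_eq (h : IsFun Δ K x) (hF : FunLaws h) {d : ℕ} {r s : Δ.R} (hr : r ∈ Δ.hm d)
    (hs : s ∈ Δ.hm d) (hrs : dh h r = dh h s) : r = s := by
  rw [← sub_eq_zero]
  refine hF.inj d _ (Submodule.sub_mem _ hr hs) ?_
  rw [map_sub, hrs, sub_self]

/-- the set of the fractions with denominator prime to `p` -/
def InF (h : IsFun Δ K x) (p : Δ.R) (z : K) : Prop :=
  ∃ (d : ℕ) (r s : Δ.R), r ∈ Δ.hm d ∧ s ∈ Δ.hm d ∧ ¬ p ∣ s ∧ z * dh h s = dh h r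

theorem inF_iff (h : IsFun Δ K x) (hG : GrLaws Δ.b Δ.ww) (hR : RingLaws Δ) (hF : FunLaws h)
    {p : Δ.R} {e : ℕ} (hp : Prime p) (hpe : p ∈ Δ.hm e) {d : ℕ} {r s : Δ.R}
    (hr : r ∈ Δ.hm d) (hs : s ∈ Δ.hm d) (hr0 : r ≠ 0) (hs0 : s ≠ 0) {z : K}
    (hz : z * dh h s = dh h r) : InF h p z ↔ mult p s ≤ mult p r := by
  have hdom := hR.dom
  constructor
  · rintro ⟨d', r', s', hr', hs', hps', hz'⟩
    have hs'0 : s' ≠ 0 := by
      rintro rfl
      exact hps' (dvd_zero p)
    have h1 : r * s' = s * r' := by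
      apply inj_eq h hF (mul_mem hr hs') (mul_mem hs hr')
      rw [map_mul, map_mul, ← hz, ← hz']; ring
    have hr'0 : r' ≠ 0 := by
      rintro rfl
      rw [mul_zero] at h1
      exact mul_ne_zero hr0 hs'0 h1
    have h2 := congrArg (mult p) h1
    rw [hR.mult_mul p _ _ hp hr0 hs'0, hR.mult_mul p _ _ hp hs0 hr'0,
      (mult_eq_zero hR hp hs'0).2 hps'] at h2
    omega
  · intro hle
    obtain ⟨d1, r1, hr1, hpr1, hr1', hd1⟩ := split hG hR hp hpe hr hr0
    obtain ⟨d2, s1, hs1, hps1, hs1', hd2⟩ := split hG hR hp hpe hs hs0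
    have hp0 : dh h p ≠ 0 := frac_ne h hF hpe hp.ne_zero
    obtain ⟨n, hn⟩ := Nat.exists_eq_add_of_le hle
    refine ⟨d2, p ^ n * r1, s1, ?_, hs1, hps1, ?_⟩
    · have h3 := mul_mem (pow_mem hpe n) hr1
      have h4 : n * e + d1 = d2 := by
        rw [hn, add_mul] at hd1
        omega
      rwa [h4] at h3
    · have h5 : dh h p ^ mult p s * (z * dh h s1) =
          dh h p ^ mult p s * dh h (p ^ n * r1) := by
        have h6 : dh h r = dh h p ^ mult p s * dh h (p ^ n * r1) := by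
          conv_lhs => rw [hr1', hn]
          rw [map_mul, map_mul, map_pow, map_pow, pow_add]; ring
        have h7 : dh h s = dh h p ^ mult p s * dh h s1 := by
          conv_lhs => rw [hs1']
          rw [map_mul, map_pow]
        rw [← h6, ← hz, h7]; ring
      exact mul_left_cancel₀ (pow_ne_zero _ hp0) h5

/-- the valuation ring of `p` -/
def vr (h : IsFun Δ K x) (hG : GrLaws Δ.b Δ.ww) (hR : RingLaws Δ) (hF : FunLaws h)
    {p : Δ.R} {e : ℕ} (hp : Prime p) (hpe : p ∈ Δ.hm e) : ValuationSubring K where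
  carrier := {z | InF h p z}
  mul_mem' := by
    rintro z z' ⟨d, r, s, hr, hs, hps, hz⟩ ⟨d', r', s', hr', hs', hps', hz'⟩
    refine ⟨d + d', r * r', s * s', mul_mem hr hr', mul_mem hs hs', ?_, ?_⟩
    · intro h1
      exact (hp.dvd_or_dvd h1).elim hps hps'
    · rw [map_mul, map_mul, ← hz, ← hz']; ring
  one_mem' := ⟨0, 1, 1, one_mem Δ, one_mem Δ, fun h1 =>
    hp.not_isUnit (isUnit_of_dvd_one h1), by rw [one_mul]⟩
  add_mem' := by
    rintro z z' ⟨d, r, s, hr, hs, hps, hz⟩ ⟨d', r', s', hr', hs', hps', hz'⟩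
    refine ⟨d + d', r * s' + s * r', s * s', Submodule.add_mem _ (mul_mem hr hs')
      (mul_mem hs hr'), mul_mem hs hs', ?_, ?_⟩
    · intro h1
      exact (hp.dvd_or_dvd h1).elim hps hps'
    · rw [map_add, map_mul, map_mul, map_mul, ← hz, ← hz']; ring
  zero_mem' := ⟨0, 0, 1, Submodule.zero_mem _, one_mem Δ, fun h1 =>
    hp.not_isUnit (isUnit_of_dvd_one h1), by rw [zero_mul, map_zero]⟩
  neg_mem' := by
    rintro z ⟨d, r, s, hr, hs, hps, hz⟩
    exact ⟨d, -r, s, Submodule.neg_mem _ hr, hs, hps, by rw [map_neg, ← hz]; ring⟩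
  mem_or_inv_mem' := by
    intro z
    obtain ⟨d, r, s, hr, hs, hs0, hz⟩ := hF.frac z
    by_cases hr0 : r = 0
    · left
      have h1 : z = 0 := by
        rw [hr0, map_zero] at hz
        exact (mul_eq_zero.1 hz).resolve_right (frac_ne h hF hs hs0)
      rw [h1]
      exact ⟨0, 0, 1, Submodule.zero_mem _, one_mem Δ, fun h1 =>
        hp.not_isUnit (isUnit_of_dvd_one h1), by rw [zero_mul, map_zero]⟩
    · rcases le_total (mult p s) (mult p r) with hle | hle
      · left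
        exact (inF_iff h hG hR hF hp hpe hr hs hr0 hs0 hz).2 hle
      · right
        refine (inF_iff h hG hR hF hp hpe hs hr hs0 hr0 (z := z⁻¹) ?_).2 hle
        have hz0 : z ≠ 0 := by
          rintro rfl
          rw [zero_mul] at hz
          exact frac_ne h hF hr hr0 hz.symm
        rw [← hz, ← mul_assoc, inv_mul_cancel₀ hz0, one_mul]

theorem vr_isDivOf (h : IsFun Δ K x) (hG : GrLaws Δ.b Δ.ww) (hR : RingLaws Δ) (hF : FunLaws h)
    {p : Δ.R} {e : ℕ} (hp : Prime p) (hpe : p ∈ Δ.hm e) :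
    IsDivOf h (vr h hG hR hF hp hpe) p e :=
  ⟨hpe, hp, fun _ => Iff.rfl⟩

/-! ### A uniformiser -/

theorem prod_mem (e : Fin (m + 2) → ℕ) (s : Finset (Fin (m + 2))) :
    ∏ i ∈ s, Δ.xx i ^ e i ∈ Δ.hm (∑ i ∈ s, e i * Δ.w i) := by
  classical
  induction s using Finset.induction_on with
  | empty => simpa using one_mem Δ
  | insert i s hi ih =>
    rw [Finset.prod_insert hi, Finset.sum_insert hi]
    exact mul_mem (pow_mem (xx_mem Δ i) (e i)) ih

theorem exists_unif (hR : RingLaws Δ) {p : Δ.R} {e : ℕ} (hp : Prime p)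
    (hpe : p ∈ Δ.hm e) : ∃ (D : ℕ) (A B : Δ.R), A ∈ Δ.hm D ∧ B ∈ Δ.hm D ∧ A ≠ 0 ∧ ¬ p ∣ B ∧
      mult p A = 1 := by
  have hdom := hR.dom
  have hpp : mult p p = 1 := by
    have h1 := (hR.mult_le p p 1 hp hp.ne_zero).2 (by rw [pow_one])
    have h2 : ¬ 2 ≤ mult p p := by
      rw [hR.mult_le p p 2 hp hp.ne_zero]
      rintro ⟨c, hc⟩
      apply hp.not_isUnit
      rw [isUnit_iff_dvd_one]
      refine ⟨c, ?_⟩
      have h3 : p * 1 = p * (p * c) := by
        rw [mul_one]
        nth_rw 1 [hc]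
        ring
      exact mul_left_cancel₀ hp.ne_zero h3
    omega
  by_cases h0 : p ∣ Δ.x0
  · obtain ⟨ε, hε⟩ := Δ.hgcd
    have hndx : ∀ i, ¬ p ∣ Δ.xx i := fun i => by
      have := one_dvd hR hp (k := none) (l := some i) (by simp) h0
      exact this
    have hprod : ∀ f : Fin (m + 2) → ℕ, ¬ p ∣ ∏ i, Δ.xx i ^ f i := by
      intro f hd
      obtain ⟨i, -, hi⟩ := (hp.dvd_finsetProd_iff _).1 hd
      exact hndx i (hp.dvd_of_dvd_pow hi)
    have hm1 : mult p Δ.x0 = 1 := by
      have h1 := (hR.mult_le p Δ.x0 1 hp hR.x0prime.ne_zero).2 (by rw [pow_one]; exact h0)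
      have h2 : ¬ 2 ≤ mult p Δ.x0 := by
        rw [hR.mult_le p Δ.x0 2 hp hR.x0prime.ne_zero]
        intro hd
        have h3 : p ^ 2 ∣ p := hd.trans (dvd_symm hR hp hR.x0prime h0)
        have := (hR.mult_le p p 2 hp hp.ne_zero).2 h3
        omega
      omega
    refine ⟨∑ i, (ε i).toNat * Δ.w i, Δ.x0 * ∏ i, Δ.xx i ^ (-(ε i)).toNat,
      ∏ i, Δ.xx i ^ (ε i).toNat, ?_, prod_mem _ _, ?_, hprod _, ?_⟩
    · have h1 := mul_mem (x0_mem Δ) (prod_mem (Δ := Δ) (fun i => (-(ε i)).toNat) Finset.univ)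
      have h2 : 1 + ∑ i, (-(ε i)).toNat * Δ.w i = ∑ i, (ε i).toNat * Δ.w i := by
        zify
        rw [← hε, ← Finset.sum_add_distrib]
        apply Finset.sum_congr rfl
        intro i _
        rw [← add_mul]
        congr 1
        rw [Int.toNat_eq_max, Int.toNat_eq_max]
        omega
      rwa [h2] at h1
    · intro h1
      rcases mul_eq_zero.1 h1 with h2 | h2
      · exact hR.x0prime.ne_zero h2
      · exact hprod _ (by rw [h2]; exact dvd_zero p)
    · have h3 : ∏ i, Δ.xx i ^ (-(ε i)).toNat ≠ 0 := by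
        intro h2
        exact hprod _ (by rw [h2]; exact dvd_zero p)
      rw [hR.mult_mul p _ _ hp hR.x0prime.ne_zero h3, hm1, (mult_eq_zero hR hp h3).2 (hprod _)]
  · refine ⟨e, p, Δ.x0 ^ e, hpe, by simpa using pow_mem (x0_mem Δ) e, hp.ne_zero, ?_, hpp⟩
    intro h1
    exact h0 (hp.dvd_of_dvd_pow h1)

theorem mult_x0 (hR : RingLaws Δ) {p : Δ.R} (hp : Prime p) (h0 : p ∣ Δ.x0) :
    mult p Δ.x0 = 1 := by
  have hdom := hR.dom
  have h1 := (hR.mult_le p Δ.x0 1 hp hR.x0prime.ne_zero).2 (by rw [pow_one]; exact h0)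
  have h2 : ¬ 2 ≤ mult p Δ.x0 := by
    rw [hR.mult_le p Δ.x0 2 hp hR.x0prime.ne_zero]
    intro hd
    obtain ⟨c, hc⟩ : p ^ 2 ∣ p := hd.trans (dvd_symm hR hp hR.x0prime h0)
    apply hp.not_isUnit
    rw [isUnit_iff_dvd_one]
    refine ⟨c, ?_⟩
    have h3 : p * 1 = p * (p * c) := by
      rw [mul_one]
      nth_rw 1 [hc]
      ring
    exact mul_left_cancel₀ hp.ne_zero h3
  omega

/-! ### The valuation ring is discrete -/

section

variable (h : IsFun Δ K x) (hG : GrLaws Δ.b Δ.ww) (hR : RingLaws Δ) (hF : FunLaws h)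
  {F : ValuationSubring K} {p : Δ.R} {e : ℕ} (hD : IsDivOf h F p e)

include hG hR hF hD

/-- membership in `F` of a fraction -/
theorem mem_iff {d : ℕ} {r s : Δ.R} (hr : r ∈ Δ.hm d) (hs : s ∈ Δ.hm d) (hr0 : r ≠ 0)
    (hs0 : s ≠ 0) {z : K} (hz : z * dh h s = dh h r) : z ∈ F ↔ mult p s ≤ mult p r := by
  rw [hD.mem]
  exact inF_iff h hG hR hF hD.prime hD.hom hr hs hr0 hs0 hz

theorem dvr_aux : ∃ π : F, Irreducible π ∧ ∀ (d : ℕ) (r s : Δ.R), r ∈ Δ.hm d → s ∈ Δ.hm d →
    r ≠ 0 → s ≠ 0 → ∀ z : K, z * dh h s = dh h r → ∃ u : K, u ∈ F ∧ u⁻¹ ∈ F ∧ u ≠ 0 ∧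
      z * (π : K) ^ mult p s = (π : K) ^ mult p r * u := by
  have hdom := hR.dom
  have hp := hD.prime
  have hpe := hD.hom
  obtain ⟨D, A, B, hA, hB, hA0, hpB, hmA⟩ := exists_unif hR hp hpe
  have hB0 : B ≠ 0 := by
    rintro rfl
    exact hpB (dvd_zero p)
  have hmB := (mult_eq_zero hR hp hB0).2 hpB
  have hdA := frac_ne h hF hA hA0
  have hdB := frac_ne h hF hB hB0
  have hz1 : dh h A / dh h B * dh h B = dh h A := div_mul_cancel₀ _ hdB
  have hπ0 : dh h A / dh h B ≠ 0 := div_ne_zero hdA hdB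
  have hπmem : dh h A / dh h B ∈ F := by
    rw [mem_iff h hG hR hF hD hA hB hA0 hB0 hz1]; omega
  have hπinv : (dh h A / dh h B)⁻¹ ∉ F := by
    rw [mem_iff h hG hR hF hD hB hA hB0 hA0 (by rw [inv_div, div_mul_cancel₀ _ hdA])]; omega
  refine ⟨⟨dh h A / dh h B, hπmem⟩, ?_, ?_⟩
  · constructor
    · intro hu
      apply hπinv
      obtain ⟨u, hu'⟩ := hu
      have h1 : ((u⁻¹ : Fˣ) : F) * (u : F) = 1 := Units.inv_mul u
      rw [hu'] at h1
      have h2 := congrArg (Subtype.val) h1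
      have h3 : (((u⁻¹ : Fˣ) : F) : K) * (dh h A / dh h B) = 1 := h2
      have h4 : (dh h A / dh h B)⁻¹ = (((u⁻¹ : Fˣ) : F) : K) :=
        (eq_inv_of_mul_eq_one_left h3).symm
      rw [h4]
      exact Subtype.mem _
    · rintro ⟨a, ha⟩ ⟨b, hb⟩ hab
      have hab' : dh h A / dh h B = a * b := congrArg Subtype.val hab
      have ha0 : a ≠ 0 := by
        rintro rfl
        exact hπ0 (by rw [hab', zero_mul])
      have hb0 : b ≠ 0 := by
        rintro rfl
        exact hπ0 (by rw [hab', mul_zero])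
      obtain ⟨d1, r1, s1, hr1, hs1, hs10, hz1⟩ := hF.frac a
      obtain ⟨d2, r2, s2, hr2, hs2, hs20, hz2⟩ := hF.frac b
      have hr10 : r1 ≠ 0 := by
        rintro rfl
        rw [map_zero] at hz1
        exact mul_ne_zero ha0 (frac_ne h hF hs1 hs10) hz1
      have hr20 : r2 ≠ 0 := by
        rintro rfl
        rw [map_zero] at hz2
        exact mul_ne_zero hb0 (frac_ne h hF hs2 hs20) hz2
      have h1 := (mem_iff h hG hR hF hD hr1 hs1 hr10 hs10 hz1).1 ha
      have h2 := (mem_iff h hG hR hF hD hr2 hs2 hr20 hs20 hz2).1 hb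
      have h3 : A * (s1 * s2) = B * (r1 * r2) := by
        apply inj_eq h hF (mul_mem hA (mul_mem hs1 hs2)) (mul_mem hB (mul_mem hr1 hr2))
        rw [map_mul, map_mul, map_mul, map_mul, ← hz1, ← hz2,
          ← div_mul_cancel₀ (dh h A) hdB, hab']
        ring
      have h4 := congrArg (mult p) h3
      rw [hR.mult_mul p _ _ hp hA0 (mul_ne_zero hs10 hs20), hR.mult_mul p _ _ hp hs10 hs20,
        hR.mult_mul p _ _ hp hB0 (mul_ne_zero hr10 hr20), hR.mult_mul p _ _ hp hr10 hr20,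
        hmA, hmB] at h4
      have h5 : mult p r1 = mult p s1 ∨ mult p r2 = mult p s2 := by omega
      rcases h5 with h5 | h5
      · left
        have h6 : a⁻¹ ∈ F := (mem_iff h hG hR hF hD hs1 hr1 hs10 hr10 (z := a⁻¹)
          (by rw [← hz1, ← mul_assoc, inv_mul_cancel₀ ha0, one_mul])).2 h5.le
        exact isUnit_iff_exists_inv.2 ⟨⟨a⁻¹, h6⟩, Subtype.ext (mul_inv_cancel₀ ha0)⟩
      · right
        have h6 : b⁻¹ ∈ F := (mem_iff h hG hR hF hD hs2 hr2 hs20 hr20 (z := b⁻¹)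
          (by rw [← hz2, ← mul_assoc, inv_mul_cancel₀ hb0, one_mul])).2 h5.le
        exact isUnit_iff_exists_inv.2 ⟨⟨b⁻¹, h6⟩, Subtype.ext (mul_inv_cancel₀ hb0)⟩
  · intro d r s hr hs hr0 hs0 z hz
    set α := mult p r with hα
    set β := mult p s with hβ
    have hdr := frac_ne h hF hr hr0
    have hds := frac_ne h hF hs hs0
    have hN : r * (A ^ β * B ^ α) ∈ Δ.hm (d + (β * D + α * D)) :=
      mul_mem hr (mul_mem (pow_mem hA β) (pow_mem hB α))
    have hM : s * (A ^ α * B ^ β) ∈ Δ.hm (d + (β * D + α * D)) := by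
      have := mul_mem hs (mul_mem (pow_mem hA α) (pow_mem hB β))
      rwa [add_comm (α * D)] at this
    have hN0 : r * (A ^ β * B ^ α) ≠ 0 :=
      mul_ne_zero hr0 (mul_ne_zero (pow_ne_zero _ hA0) (pow_ne_zero _ hB0))
    have hM0 : s * (A ^ α * B ^ β) ≠ 0 :=
      mul_ne_zero hs0 (mul_ne_zero (pow_ne_zero _ hA0) (pow_ne_zero _ hB0))
    have mN : mult p (r * (A ^ β * B ^ α)) = α + β := by
      rw [hR.mult_mul p _ _ hp hr0 (mul_ne_zero (pow_ne_zero _ hA0) (pow_ne_zero _ hB0)),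
        hR.mult_mul p _ _ hp (pow_ne_zero _ hA0) (pow_ne_zero _ hB0), mult_pow hR hp hA0,
        mult_pow hR hp hB0, hmA, hmB, ← hα]
      ring
    have mM : mult p (s * (A ^ α * B ^ β)) = α + β := by
      rw [hR.mult_mul p _ _ hp hs0 (mul_ne_zero (pow_ne_zero _ hA0) (pow_ne_zero _ hB0)),
        hR.mult_mul p _ _ hp (pow_ne_zero _ hA0) (pow_ne_zero _ hB0), mult_pow hR hp hA0,
        mult_pow hR hp hB0, hmA, hmB, ← hβ]
      ring
    have hdN := frac_ne h hF hN hN0
    have hdM := frac_ne h hF hM hM0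
    refine ⟨dh h (r * (A ^ β * B ^ α)) / dh h (s * (A ^ α * B ^ β)), ?_, ?_, ?_, ?_⟩
    · rw [mem_iff h hG hR hF hD hN hM hN0 hM0 (div_mul_cancel₀ _ hdM), mN, mM]
    · rw [inv_div, mem_iff h hG hR hF hD hM hN hM0 hN0 (div_mul_cancel₀ _ hdN), mN, mM]
    · exact div_ne_zero hdN hdM
    · have hz' : z = dh h r / dh h s := eq_div_of_mul_eq hds hz
      change z * (dh h A / dh h B) ^ β = (dh h A / dh h B) ^ α * _
      rw [hz', map_mul, map_mul, map_mul, map_mul, map_pow, map_pow, map_pow, map_pow, div_pow,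
        div_pow]
      field_simp

theorem dvr : IsDiscreteValuationRing F := by
  obtain ⟨π, hπ, hu⟩ := dvr_aux h hG hR hF hD
  have hdom := hR.dom
  apply IsDiscreteValuationRing.ofHasUnitMulPowIrreducibleFactorization
  refine ⟨π, hπ, ?_⟩
  rintro ⟨z, hz⟩ hz0
  have hz0' : z ≠ 0 := fun h0 => hz0 (Subtype.ext h0)
  obtain ⟨d, r, s, hr, hs, hps, hzr⟩ := (hD.mem z).1 hz
  have hs0 : s ≠ 0 := by
    rintro rfl
    exact hps (dvd_zero p)
  have hr0 : r ≠ 0 := by
    rintro rfl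
    rw [map_zero] at hzr
    exact mul_ne_zero hz0' (frac_ne h hF hs hs0) hzr
  obtain ⟨u, hu1, hu2, hu0, hu3⟩ := hu d r s hr hs hr0 hs0 z hzr
  rw [(mult_eq_zero hR hD.prime hs0).2 hps, pow_zero, mul_one] at hu3
  refine ⟨mult p r, ⟨⟨⟨u, hu1⟩, ⟨u⁻¹, hu2⟩, Subtype.ext (mul_inv_cancel₀ hu0),
    Subtype.ext (inv_mul_cancel₀ hu0)⟩, ?_⟩⟩
  apply Subtype.ext
  exact hu3.symm

theorem ord_eq (hO : OrdLaws F) {d : ℕ} {r s : Δ.R} (hr : r ∈ Δ.hm d) (hs : s ∈ Δ.hm d)
    (hr0 : r ≠ 0) (hs0 : s ≠ 0) {z : K} (hz : z * dh h s = dh h r) :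
    ord F z = (mult p r : ℤ) - mult p s := by
  obtain ⟨π, hπ, hu⟩ := dvr_aux h hG hR hF hD
  obtain ⟨u, hu1, hu2, hu0, hu3⟩ := hu d r s hr hs hr0 hs0 z hz
  obtain ⟨hπ0, hπ1⟩ := (hO.irr π).1 hπ
  have hone : ord F (1 : K) = 0 := by
    have := hO.mul 1 1 one_ne_zero one_ne_zero
    rw [mul_one] at this
    omega
  have hpow : ∀ n : ℕ, ord F ((π : K) ^ n) = n := by
    intro n
    induction n with
    | zero => rw [pow_zero, hone]; rfl
    | succ n ih =>
      rw [pow_succ, hO.mul _ _ (pow_ne_zero n hπ0) hπ0, ih, hπ1]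
      push_cast; ring
  have hou : ord F u = 0 := by
    have h1 := (hO.nonneg u hu0).2 hu1
    have h2 := (hO.nonneg u⁻¹ (inv_ne_zero hu0)).2 hu2
    have h3 := hO.mul u u⁻¹ hu0 (inv_ne_zero hu0)
    rw [mul_inv_cancel₀ hu0, hone] at h3
    omega
  have hz0 : z ≠ 0 := by
    rintro rfl
    rw [zero_mul] at hz
    exact frac_ne h hF hr hr0 hz.symm
  have h4 := congrArg (ord F) hu3
  rw [hO.mul _ _ hz0 (pow_ne_zero _ hπ0), hO.mul _ _ (pow_ne_zero _ hπ0) hu0, hpow, hpow, hou]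
    at h4
  omega

omit hF in
theorem loc : F.toSubring ∈ locs Δ x := by
  have hp := hD.prime
  have hpe := hD.hom
  obtain ⟨k, hk⟩ := exists_ndvd hR hp
  have hmem : ∀ P, P ∈ (Ideal.span {p}).comap (mkF Δ.b) ↔ p ∣ mkF Δ.b P := fun P => by
    rw [Ideal.mem_comap, Ideal.mem_span_singleton]
  refine ⟨(Ideal.span {p}).comap (mkF Δ.b), ?_, ?_, ?_, ⟨k, ?_⟩, ?_⟩
  · have h1 : (Ideal.span {p}).IsPrime := (Ideal.span_singleton_prime hp.ne_zero).2 hp
    exact Ideal.comap_isPrime _ _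
  · rw [hmem]
    have h1 : mkF Δ.b (fp _ Δ.b) = 0 := by
      rw [GrM.mk_eq_zero]
      exact Ideal.mem_span_singleton_self _
    rw [h1]
    exact dvd_zero p
  · intro P hP d
    rw [hmem] at hP ⊢
    obtain ⟨q, hq⟩ := hP
    rw [← GrM.cp_mk (wt Δ), hq]
    obtain ⟨c, hc, hqc⟩ := hG.dec q
    rw [hqc, Finsupp.sum, Finset.mul_sum, map_sum]
    apply Finset.dvd_sum
    intro i _
    rw [GrM.cp_of_mem (wt Δ) d (mul_mem hpe (hc i))]
    split_ifs
    · exact dvd_mul_right p _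
    · exact dvd_zero p
  · rw [hmem]
    exact hk
  · intro z
    change z ∈ F ↔ _
    rw [hD.mem]
    constructor
    · rintro ⟨d, r, s, hr, hs, hps, hz⟩
      obtain ⟨P, hP, rfl⟩ := exists_lift hr
      obtain ⟨Q, hQ, rfl⟩ := exists_lift hs
      refine ⟨d, P, Q, hP, hQ, ?_, hz⟩
      rw [hmem]
      exact hps
    · rintro ⟨d, P, Q, hP, hQ, hps, hz⟩
      rw [hmem] at hps
      exact ⟨d, mkF Δ.b P, mkF Δ.b Q, mem_hm hP, mem_hm hQ, hps, hz⟩

theorem isPrimeDiv : IsPrimeDiv (locs Δ x) F := ⟨dvr h hG hR hF hD, loc h hG hR hD⟩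

end

end DivxM

open DivxM in
theorem specDIVX (hORD : SpecORD) (hGR : SpecGR) (hRNG : SpecRNG) (hFUN : SpecFUN) :
    SpecDIVX := by
  intro m Δ hm K _ _ x h
  have hG := UtilM.gr hGR Δ
  have hR := hRNG m Δ hm
  have hF := hFUN m Δ hm K x h
  refine ⟨fun p e hpe hp => ⟨vr h hG hR hF hp hpe, vr_isDivOf h hG hR hF hp hpe⟩, ?_⟩
  intro F p e hD
  refine ⟨isPrimeDiv h hG hR hF hD, ?_⟩
  intro d r hr hr0
  have hdom := hR.dom
  have hO := hORD K F (dvr h hG hR hF hD)
  have hx0 : Δ.x0 ^ d ∈ Δ.hm d := by simpa using UtilM.pow_mem (UtilM.x0_mem Δ) d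
  have h1 := ord_eq h hG hR hF hD hO hr hx0 hr0 (pow_ne_zero d hR.x0prime.ne_zero)
    (z := dh h r) (by rw [map_pow, UtilM.dh_x0, one_pow, mul_one])
  rw [UtilM.mult_pow hR hD.prime hR.x0prime.ne_zero] at h1
  constructor
  · intro hp0
    rw [h1, (UtilM.mult_eq_zero hR hD.prime hR.x0prime.ne_zero).2 hp0]
    simp
  · intro hp0
    rw [h1, mult_x0 hR hD.prime hp0]
    simp

end

end Pool.Agent.Lib.MPa7508c
end

section
/-!
# Module DIVO: all prime divisors come from homogeneous primes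
-/
set_option autoImplicit false

namespace Pool.Agent.Lib.MPa7508c

open MvPolynomial

noncomputable section

namespace DivoM

open UtilM DivxM

variable {m : ℕ} {Δ : Dat m} {K : Type} [Field K] [Algebra ℂ K] {x : Fin (m + 2) → K}

/-- membership in a prime containing the relation only depends on the class -/
theorem mem_of_mk {𝔓 : Ideal (MvPolynomial (Option (Fin (m + 2))) ℂ)} (hfp : fp _ Δ.b ∈ 𝔓)
    {P Q : MvPolynomial (Option (Fin (m + 2))) ℂ} (hPQ : mkF Δ.b P = mkF Δ.b Q) (hQ : Q ∈ 𝔓) :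
    P ∈ 𝔓 := by
  have h1 : P - Q ∈ Ideal.span {fp _ Δ.b} := by
    rw [← GrM.mk_eq_zero, map_sub, hPQ, sub_self]
  have h2 : P - Q ∈ 𝔓 := (Ideal.span_singleton_le_iff_mem 𝔓).2 hfp h1
  have h3 := 𝔓.add_mem h2 hQ
  rwa [sub_add_cancel] at h3

/-- if `mkF P` divides `mkF Q` and `P ∈ 𝔓` then `Q ∈ 𝔓` -/
theorem mem_of_dvd {𝔓 : Ideal (MvPolynomial (Option (Fin (m + 2))) ℂ)} (hfp : fp _ Δ.b ∈ 𝔓)
    {P Q : MvPolynomial (Option (Fin (m + 2))) ℂ} (hPQ : mkF Δ.b P ∣ mkF Δ.b Q) (hP : P ∈ 𝔓) :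
    Q ∈ 𝔓 := by
  obtain ⟨c, hc⟩ := hPQ
  obtain ⟨C, rfl⟩ := GrM.mk_surj c
  rw [← map_mul] at hc
  exact mem_of_mk hfp hc (𝔓.mul_mem_right C hP)

/-- a nonzero homogeneous element of `𝔓` has a homogeneous prime factor in `𝔓` -/
theorem exists_prime (hG : GrLaws Δ.b Δ.ww) (hdom : IsDomain Δ.R) (hU : GrUFD Δ.b Δ.ww)
    {𝔓 : Ideal (MvPolynomial (Option (Fin (m + 2))) ℂ)} (hpr : 𝔓.IsPrime)
    (hfp : fp _ Δ.b ∈ 𝔓) : ∀ (d : ℕ) (P : MvPolynomial (Option (Fin (m + 2))) ℂ),
    IsWeightedHomogeneous Δ.ww P d → P ∈ 𝔓 → mkF Δ.b P ≠ 0 →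
    ∃ (e : ℕ) (Q : MvPolynomial (Option (Fin (m + 2))) ℂ), IsWeightedHomogeneous Δ.ww Q e ∧
      Prime (mkF Δ.b Q) ∧ Q ∈ 𝔓 := by
  intro d
  induction d using Nat.strong_induction_on with
  | _ d ih =>
    intro P hP hPm hP0
    have hnu : ¬ IsUnit (mkF Δ.b P) := by
      intro hu
      obtain ⟨c, hc⟩ := hu.exists_right_inv
      obtain ⟨C, rfl⟩ := GrM.mk_surj c
      have h1 : mkF Δ.b P ∣ mkF Δ.b 1 := by rw [map_one, ← hc]; exact dvd_mul_right _ _
      exact hpr.ne_top ((Ideal.eq_top_iff_one 𝔓).2 (mem_of_dvd hfp h1 hPm))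
    obtain ⟨e, p, hpe, hp, c, hc⟩ := hU d (mkF Δ.b P) (mem_hm hP) hP0 hnu
    obtain ⟨Q, hQ, rfl⟩ := exists_lift hpe
    have hc0 : c ≠ 0 := by
      rintro rfl
      rw [mul_zero] at hc
      exact hP0 hc
    obtain ⟨d1, d2, hd, hd1, hd2⟩ := hG.factor hdom d _ c hp.ne_zero hc0
      (by rw [← hc]; exact mem_hm hP)
    have he := deg_unique hG hp.ne_zero hd1 hpe
    have hepos := DivxM.deg_pos hG hp hpe
    obtain ⟨C, hC, rfl⟩ := exists_lift hd2
    rw [← map_mul] at hc
    have h2 : Q * C ∈ 𝔓 := mem_of_mk hfp hc.symm hPm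
    rcases hpr.mem_or_mem h2 with h3 | h3
    · exact ⟨e, Q, hQ, hp, h3⟩
    · exact ih d2 (by omega) C hC h3 hc0

end DivoM

open DivoM UtilM DivxM in
theorem specDIVO (hORD : SpecORD) (hGR : SpecGR) (hRNG : SpecRNG) (hFUN : SpecFUN)
    (hDIVX : SpecDIVX) : SpecDIVO := by
  intro m Δ hm hU K _ _ x h F hF
  have hG := UtilM.gr hGR Δ
  have hR := hRNG m Δ hm
  have hFn := hFUN m Δ hm K x h
  have hdom := hR.dom
  obtain ⟨hdvr, 𝔓, hloc⟩ := hF
  have hO := hORD K F hdvr
  have hone : ord F (1 : K) = 0 := by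
    have := hO.mul 1 1 one_ne_zero one_ne_zero
    rw [mul_one] at this
    omega
  obtain ⟨t, htF, ht0, ht1⟩ := hO.unif
  obtain ⟨d, P, Q, hP, hQ, hQn, ht⟩ := (hloc.mem t).1 htF
  have hQ0 : mkF Δ.b Q ≠ 0 := by
    intro h0
    exact hQn (mem_of_mk hloc.fp_mem (Q := 0) (by rw [h0, map_zero]) 𝔓.zero_mem)
  have hdQ : dhP x Q ≠ 0 := frac_ne h hFn (mem_hm hQ) hQ0
  have hdP : dhP x P ≠ 0 := by rw [← ht]; exact mul_ne_zero ht0 hdQ
  have hP0 : mkF Δ.b P ≠ 0 := by
    intro h0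
    apply hdP
    rw [← dh_mk h, h0, map_zero]
  have hPm : P ∈ 𝔓 := by
    by_contra hPn
    have h1 : t⁻¹ ∈ F := by
      refine (hloc.mem t⁻¹).2 ⟨d, Q, P, hQ, hP, hPn, ?_⟩
      rw [← ht, ← mul_assoc, inv_mul_cancel₀ ht0, one_mul]
    have h2 := (hO.nonneg _ (inv_ne_zero ht0)).2 h1
    have h3 := hO.mul t t⁻¹ ht0 (inv_ne_zero ht0)
    rw [mul_inv_cancel₀ ht0, hone, ht1] at h3
    omega
  obtain ⟨e, Q', hQ', hp, hQm⟩ := exists_prime hG hdom hU hloc.prime hloc.fp_mem d P hP hPm hP0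
  obtain ⟨F', hF'⟩ := (hDIVX m Δ hm K x h).1 _ e (mem_hm hQ') hp
  have hO' := hORD K F' ((hDIVX m Δ hm K x h).2 F' _ e hF').1.1
  have hone' : ord F' (1 : K) = 0 := by
    have := hO'.mul 1 1 one_ne_zero one_ne_zero
    rw [mul_one] at this
    omega
  have hle : ∀ z, z ∈ F → z ∈ F' := by
    intro z hz
    obtain ⟨d', P1, Q1, hP1, hQ1, hQ1n, hz1⟩ := (hloc.mem z).1 hz
    rw [hF'.mem]
    refine ⟨d', mkF Δ.b P1, mkF Δ.b Q1, mem_hm hP1, mem_hm hQ1, ?_, hz1⟩
    intro hd
    exact hQ1n (mem_of_dvd hloc.fp_mem hd hQm)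
  have hge : ∀ z, z ∈ F' → z ∈ F := by
    intro z hz
    by_contra hzn
    have hz0 : z ≠ 0 := by
      rintro rfl
      exact hzn F.zero_mem
    have h1 : ord F z < 0 := by
      by_contra h2
      exact hzn ((hO.nonneg z hz0).1 (by omega))
    obtain ⟨t', ht'F, ht'0, ht'1⟩ := hO'.unif
    -- `t'⁻¹ ∈ F'`
    have hpow : ∀ (n : ℕ) (y : K), y ≠ 0 → ord F (y ^ n) = n * ord F y := by
      intro n y hy
      induction n with
      | zero => rw [pow_zero, hone]; simp
      | succ n ih =>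
        rw [pow_succ, hO.mul _ _ (pow_ne_zero n hy) hy, ih]
        push_cast; ring
    have hinv : ∀ y : K, y ≠ 0 → ord F y⁻¹ = - ord F y := by
      intro y hy
      have h3 := hO.mul y y⁻¹ hy (inv_ne_zero hy)
      rw [mul_inv_cancel₀ hy, hone] at h3
      omega
    set n : ℕ := (ord F t').toNat with hn
    have hw : t'⁻¹ * (z⁻¹) ^ n ∈ F := by
      have hne : t'⁻¹ * (z⁻¹) ^ n ≠ 0 :=
        mul_ne_zero (inv_ne_zero ht'0) (pow_ne_zero _ (inv_ne_zero hz0))
      rw [← hO.nonneg _ hne, hO.mul _ _ (inv_ne_zero ht'0) (pow_ne_zero _ (inv_ne_zero hz0)),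
        hpow _ _ (inv_ne_zero hz0), hinv _ ht'0, hinv _ hz0]
      have h4 : ord F t' ≤ n := by rw [hn]; exact Int.self_le_toNat _
      nlinarith
    have h5 := F'.mul_mem _ _ (hle _ hw) (F'.toSubring.pow_mem hz n)
    have h6 : t'⁻¹ * (z⁻¹) ^ n * z ^ n = t'⁻¹ := by
      rw [mul_assoc, ← mul_pow, inv_mul_cancel₀ hz0, one_pow, mul_one]
    rw [h6] at h5
    have h7 := (hO'.nonneg _ (inv_ne_zero ht'0)).2 h5
    have h8 := hO'.mul t' t'⁻¹ ht'0 (inv_ne_zero ht'0)
    rw [mul_inv_cancel₀ ht'0, hone', ht'1] at h8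
    omega
  have hFF : F = F' := by
    ext z
    exact ⟨hle z, hge z⟩
  exact ⟨_, e, hFF ▸ hF'⟩

end

end Pool.Agent.Lib.MPa7508c
end

section
/-!
# LEF: basic lemmas
-/
set_option autoImplicit false

namespace Pool.Agent.Lib.MPa7508c

open MvPolynomial

noncomputable section

namespace LefM

attribute [local instance] MvPolynomial.weightedGradedAlgebra

section comp

variable {τ : Type} {w : τ → ℕ}

theorem comp_eq (m : ℕ) (Q : MvPolynomial τ ℂ) :
    ((DirectSum.decompose (weightedHomogeneousSubmodule ℂ w) Q m :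
      weightedHomogeneousSubmodule ℂ w m) : MvPolynomial τ ℂ) =
      weightedHomogeneousComponent w m Q :=
  weightedDecomposition.decompose'_apply ℂ w Q m

theorem comp_mul_le {A Q : MvPolynomial τ ℂ} {a m : ℕ} (hA : IsWeightedHomogeneous w A a)
    (h : a ≤ m) : weightedHomogeneousComponent w m (A * Q) =
      A * weightedHomogeneousComponent w (m - a) Q := by
  have h1 := DirectSum.coe_decompose_mul_of_left_mem_of_le (weightedHomogeneousSubmodule ℂ w)
    (i := a) (n := m) (a := A) (b := Q) hA h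
  rwa [comp_eq, comp_eq] at h1

theorem comp_mul_lt {A Q : MvPolynomial τ ℂ} {a m : ℕ} (hA : IsWeightedHomogeneous w A a)
    (h : m < a) : weightedHomogeneousComponent w m (A * Q) = 0 := by
  have h1 := DirectSum.coe_decompose_mul_of_left_mem_of_not_le (weightedHomogeneousSubmodule ℂ w)
    (i := a) (n := m) (a := A) (b := Q) hA (not_le.2 h)
  rwa [comp_eq] at h1

/-- the component of `A Q` is `A` times a homogeneous polynomial of the right degree -/
theorem comp_mul {A : MvPolynomial τ ℂ} {a : ℕ} (hA : IsWeightedHomogeneous w A a)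
    (Q : MvPolynomial τ ℂ) (m : ℕ) : ∃ Q' : MvPolynomial τ ℂ,
      weightedHomogeneousComponent w m (A * Q) = A * Q' ∧
      (Q' = 0 ∨ (a ≤ m ∧ IsWeightedHomogeneous w Q' (m - a))) := by
  by_cases h : a ≤ m
  · exact ⟨_, comp_mul_le hA h, Or.inr ⟨h, weightedHomogeneousComponent_isWeightedHomogeneous _ _⟩⟩
  · exact ⟨0, by rw [comp_mul_lt hA (not_le.1 h), mul_zero], Or.inl rfl⟩

end comp

section ph

variable {σ : Type}

@[simp] theorem ph_none : ph σ (X none) = 0 := by simp [ph]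

@[simp] theorem ph_some (i : σ) : ph σ (X (some i)) = X i := by simp [ph]

@[simp] theorem ph_rename (Q : MvPolynomial σ ℂ) : ph σ (rename some Q) = Q := by
  unfold ph
  rw [aeval_rename]
  change aeval (fun i => X i) Q = Q
  exact DFunLike.congr_fun (aeval_X_left (σ := σ) (R := ℂ)) Q

theorem X_dvd_sub (P : MvPolynomial (Option σ) ℂ) : X none ∣ P - rename some (ph σ P) := by
  induction P using MvPolynomial.induction_on with
  | C a => simp [ph]
  | add p q hp hq =>
    have : p + q - rename some (ph σ (p + q)) =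
        (p - rename some (ph σ p)) + (q - rename some (ph σ q)) := by
      rw [map_add, map_add]; ring
    rw [this]; exact dvd_add hp hq
  | mul_X p o hp =>
    cases o with
    | none => rw [map_mul, ph_none, mul_zero, map_zero, sub_zero]; exact dvd_mul_left _ _
    | some i =>
      have : p * X (some i) - rename some (ph σ (p * X (some i))) =
          (p - rename some (ph σ p)) * X (some i) := by
        rw [map_mul, ph_some, map_mul, rename_X]; ring
      rw [this]; exact hp.mul_right _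

variable [Fintype σ] (b : σ → ℕ) (b0 : ℕ)

theorem fp_ob : fp (Option σ) (ob b0 b) = X none ^ b0 + rename some (fp σ b) := by
  unfold fp
  rw [Fintype.sum_option, map_sum]
  simp [ob]

theorem ph_fp (h : b0 ≠ 0) : ph σ (fp (Option σ) (ob b0 b)) = fp σ b := by
  rw [fp_ob, map_add, map_pow, ph_none, ph_rename, zero_pow h, zero_add]

/-- the kernel of `P ↦ class of P(0, X)` -/
theorem ker_ph (h : b0 ≠ 0) (P : MvPolynomial (Option σ) ℂ) :
    mkF b (ph σ P) = 0 ↔ ∃ U V : MvPolynomial (Option σ) ℂ,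
      P = fp (Option σ) (ob b0 b) * U + X none * V := by
  constructor
  · intro h1
    rw [GrM.mk_eq_zero, Ideal.mem_span_singleton] at h1
    obtain ⟨Q, hQ⟩ := h1
    obtain ⟨V, hV⟩ := X_dvd_sub P
    refine ⟨rename some Q, V - X none ^ (b0 - 1) * rename some Q, ?_⟩
    have h2 : rename some (ph σ P) = rename some (fp σ b) * rename some Q := by
      rw [hQ, map_mul]
    have h3 : P = rename some (ph σ P) + X none * V := by rw [← hV]; ring
    have h4 : (X none : MvPolynomial (Option σ) ℂ) ^ b0 = X none * X none ^ (b0 - 1) := by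
      rw [← pow_succ', Nat.sub_add_cancel (Nat.one_le_iff_ne_zero.2 h)]
    rw [h3, h2, fp_ob, h4]
    ring
  · rintro ⟨U, V, rfl⟩
    rw [map_add, map_mul, map_mul, ph_fp b b0 h, ph_none, zero_mul, add_zero,
      GrM.mk_eq_zero]
    exact Ideal.mul_mem_right _ _ (Ideal.mem_span_singleton_self _)

theorem ker_iff_dvd (h : b0 ≠ 0) (P : MvPolynomial (Option σ) ℂ) :
    mkF b (ph σ P) = 0 ↔ mkF (ob b0 b) (X none) ∣ mkF (ob b0 b) P := by
  rw [ker_ph b b0 h]
  constructor
  · rintro ⟨U, V, rfl⟩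
    refine ⟨mkF (ob b0 b) V, ?_⟩
    rw [map_add, map_mul, map_mul]
    have : mkF (ob b0 b) (fp (Option σ) (ob b0 b)) = 0 :=
      GrM.mk_eq_zero.2 (Ideal.mem_span_singleton_self _)
    rw [this, zero_mul, zero_add]
  · rintro ⟨r, hr⟩
    obtain ⟨V, rfl⟩ := GrM.mk_surj r
    have h1 : mkF (ob b0 b) (P - X none * V) = 0 := by
      rw [map_sub, map_mul, hr, sub_self]
    rw [GrM.mk_eq_zero, Ideal.mem_span_singleton] at h1
    obtain ⟨U, hU⟩ := h1
    exact ⟨U, V, by rw [← hU]; ring⟩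

omit [Fintype σ] in
theorem rename_homog {w : σ → ℕ} (w0 : ℕ) {Q : MvPolynomial σ ℂ} {d : ℕ}
    (h : IsWeightedHomogeneous w Q d) :
    IsWeightedHomogeneous (ob w0 w) (rename some Q) d := by
  rw [Q.as_sum, map_sum]
  apply IsWeightedHomogeneous.sum
  intro α hα
  rw [rename_monomial]
  apply isWeightedHomogeneous_monomial
  rw [← h (mem_support_iff.1 hα)]
  rw [Finsupp.weight_apply, Finsupp.weight_apply, Finsupp.sum_mapDomain_index]
  · rfl
  · intro i; simp
  · intro i m n; simp [add_mul]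

theorem ph_homog {w : σ → ℕ} (w0 : ℕ) {P : MvPolynomial (Option σ) ℂ} {d : ℕ}
    (h : IsWeightedHomogeneous (ob w0 w) P d) : IsWeightedHomogeneous w (ph σ P) d := by
  rw [P.as_sum, map_sum]
  apply IsWeightedHomogeneous.sum
  intro α hα
  have h1 := h (mem_support_iff.1 hα)
  rw [← h1]
  unfold ph
  rw [aeval_monomial]
  by_cases h0 : α none = 0
  · rw [Finsupp.prod, ← Finsupp.prod, Finsupp.weight_apply, Finsupp.prod_fintype _ _ (by simp),
      Finsupp.sum_fintype _ _ (by simp), Fintype.prod_option, Fintype.sum_option, h0]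
    simp only [pow_zero, one_mul, zero_smul, zero_add, Option.elim_some, ob]
    apply IsWeightedHomogeneous.C_mul
    apply IsWeightedHomogeneous.prod
    intro i _
    exact (isWeightedHomogeneous_X ℂ w i).pow _
  · rw [Finsupp.prod_fintype _ _ (by simp), Fintype.prod_option]
    simp only [Option.elim_none]
    rw [zero_pow h0, zero_mul, mul_zero]
    exact isWeightedHomogeneous_zero ℂ w _

end ph

end LefM

end

end Pool.Agent.Lib.MPa7508c
end

section
/-!
LFC: the ideal `𝔞`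
-/
set_option autoImplicit false

namespace Pool.Agent.Lib.MPa7508c

open MvPolynomial

noncomputable section

namespace LfcM

open LefM

section FR

variable {σ : Type} [Fintype σ] {b w : σ → ℕ} {L : ℕ}

theorem deg_unique (h : Wt b w L) {d e : ℕ} {r : FR σ b} (hr : r ≠ 0) (hd : r ∈ hom b w d)
    (he : r ∈ hom b w e) : d = e := by
  by_contra hne
  have h1 := GrM.cp_of_mem h d hd
  have h2 := GrM.cp_of_mem h d he
  rw [if_pos rfl] at h1
  rw [if_neg hne] at h2
  exact hr (h1.symm.trans h2)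

theorem deg_pos (hG : GrLaws b w) {p : FR σ b} {e : ℕ} (hp : Prime p) (hpe : p ∈ hom b w e) :
    0 < e := by
  rcases Nat.eq_zero_or_pos e with h | h
  · subst h
    obtain ⟨z, hz⟩ := (hG.zero p).1 hpe
    exfalso
    have hz0 : z ≠ 0 := by
      rintro rfl
      rw [map_zero] at hz
      exact hp.ne_zero hz
    apply hp.not_isUnit
    rw [hz]
    exact (IsUnit.mk0 z hz0).map _
  · exact h

theorem cofactor (h : Wt b w L) (hG : GrLaws b w) (hdom : IsDomain (FR σ b)) {p A : FR σ b}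
    {e d : ℕ} (hp0 : p ≠ 0) (hpe : p ∈ hom b w e) (hA : A ∈ hom b w d) (hA0 : A ≠ 0)
    (hpA : p ∣ A) : ∃ A' d', A = p * A' ∧ A' ∈ hom b w d' ∧ A' ≠ 0 ∧ e + d' = d := by
  obtain ⟨A', rfl⟩ := hpA
  have hA'0 : A' ≠ 0 := right_ne_zero_of_mul hA0
  obtain ⟨a, c, hac, ha, hc⟩ := hG.factor hdom d p A' hp0 hA'0 hA
  have h1 := deg_unique h hp0 hpe ha
  exact ⟨A', c, rfl, hc, hA'0, by omega⟩

/-- a homogeneous element with a zero has a homogeneous prime divisor with this zero -/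
theorem exists_prime_zero (h : Wt b w L) (hG : GrLaws b w) (hdom : IsDomain (FR σ b))
    (hU : GrUFD b w) (ev : FR σ b →ₐ[ℂ] ℂ) : ∀ (d : ℕ) (A : FR σ b), A ∈ hom b w d → A ≠ 0 →
      ev A = 0 → ∃ (e : ℕ) (p : FR σ b), p ∈ hom b w e ∧ Prime p ∧ p ∣ A ∧ ev p = 0 := by
  intro d
  induction d using Nat.strong_induction_on with
  | _ d ih =>
    intro A hA hA0 hev
    have hnu : ¬ IsUnit A := by
      intro hu
      have := hu.map ev
      rw [hev] at this
      exact not_isUnit_zero this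
    obtain ⟨e, p, hpe, hp, hpA⟩ := hU d A hA hA0 hnu
    by_cases hpz : ev p = 0
    · exact ⟨e, p, hpe, hp, hpA, hpz⟩
    · obtain ⟨A', d', rfl, hA', hA'0, hlt⟩ := cofactor h hG hdom hp.ne_zero hpe hA hA0 hpA
      have h2 := deg_pos hG hp hpe
      rw [map_mul] at hev
      obtain ⟨e1, p1, h3, h4, h5, h6⟩ := ih d' (by omega) A' hA' hA'0
        ((mul_eq_zero.1 hev).resolve_left hpz)
      exact ⟨e1, p1, h3, h4, h5.mul_left _, h6⟩

theorem fr_domain (hIRR : SpecIRR) (hb : ∀ i, 2 ≤ b i) (hc : 3 ≤ Fintype.card σ) :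
    IsDomain (FR σ b) := by
  have h1 := hIRR σ b hc hb
  have h2 : (Ideal.span {fp σ b}).IsPrime := (Ideal.span_singleton_prime h1.ne_zero).2 h1
  exact Ideal.Quotient.isDomain _

/-- evaluation at a point of the cone -/
def evp (b : σ → ℕ) (p : σ → ℂ) (hp : aeval p (fp σ b) = (0 : ℂ)) : FR σ b →ₐ[ℂ] ℂ :=
  Ideal.Quotient.liftₐ _ (aeval p) (by
    intro r hr
    obtain ⟨s, rfl⟩ := Ideal.mem_span_singleton'.mp hr
    rw [map_mul, hp, mul_zero])

theorem evp_mk (b : σ → ℕ) (p : σ → ℂ) (hp : aeval p (fp σ b) = (0 : ℂ)) (P : MvPolynomial σ ℂ) :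
    evp b p hp (mkF b P) = aeval p P := rfl

end FR

variable {σ : Type} [Fintype σ] {b w : σ → ℕ} {b0 w0 L : ℕ}

/-- `P ↦` the class of `P(0, X)` -/
def pr (b : σ → ℕ) : MvPolynomial (Option σ) ℂ →ₐ[ℂ] FR σ b := (mkF b).comp (ph σ)

theorem pr_apply (b : σ → ℕ) (P : MvPolynomial (Option σ) ℂ) : pr b P = mkF b (ph σ P) := rfl

theorem pr_surj (b : σ → ℕ) : Function.Surjective (pr b) := by
  intro r
  obtain ⟨Q, rfl⟩ := GrM.mk_surj r
  exact ⟨rename some Q, by rw [pr_apply, ph_rename]⟩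

theorem aeval_p0 (b : σ → ℕ) (p : σ → ℂ) (hp : aeval p (fp σ b) = (0 : ℂ))
    (P : MvPolynomial (Option σ) ℂ) :
    eval (fun o : Option σ => o.elim 0 p) P = evp b p hp (pr b P) := by
  rw [pr_apply, evp_mk, ← aeval_eq_eval]
  have h : (aeval (fun o : Option σ => o.elim 0 p) : MvPolynomial (Option σ) ℂ →ₐ[ℂ] ℂ) =
      (aeval p : MvPolynomial σ ℂ →ₐ[ℂ] ℂ).comp (ph σ) := by
    apply MvPolynomial.algHom_ext
    rintro (_ | i)
    · rw [aeval_X, AlgHom.comp_apply, ph_none, map_zero]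
      rfl
    · rw [aeval_X, AlgHom.comp_apply, ph_some, aeval_X]
      rfl
  exact DFunLike.congr_fun h P

end LfcM

open LefM LfcM

theorem specLFC (hLOCP : SpecLOCP) (hIRR : SpecIRR) (hGR : SpecGR) : SpecLFC := by
  classical
  intro σ _ _ b w b0 w0 L hWt hcard hU 𝔓 hP d C hC hCP hC0
  have hWb : Wt b w L := ⟨fun i => hWt.mul (some i), fun i => hWt.two_le (some i),
    fun i => hWt.pos (some i)⟩
  have hb0 : b0 ≠ 0 := by
    have : 2 ≤ ob b0 b none := hWt.two_le none
    change 2 ≤ b0 at this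
    omega
  have hG : GrLaws b w := hGR σ b w L (by omega) hWb
  have hdom : IsDomain (FR σ b) := fr_domain hIRR hWb.two_le (by omega)
  have hprime := hP.prime
  set f := fp (Option σ) (ob b0 b) with hf
  have hfprime : Prime f := hIRR (Option σ) (ob b0 b) (by rw [Fintype.card_option]; omega)
    hWt.two_le
  have hprf : pr b f = 0 := by
    rw [pr_apply, hf, ph_fp b b0 hb0, GrM.mk_eq_zero]
    exact Ideal.mem_span_singleton_self _
  -- the homogeneous common divisor
  have hc0 : pr b C ∈ hom b w d := GrM.mk_mem_hom (ph_homog w0 hC)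
  have hbound : ∀ e : ℕ, (∃ g : FR σ b, g ∈ hom b w e ∧ g ≠ 0 ∧ ∀ P ∈ 𝔓, g ∣ pr b P) → e ≤ d := by
    rintro e ⟨g, hge, hg0, hgd⟩
    obtain ⟨-, d', -, -, -, hd'⟩ := cofactor hWb hG hdom hg0 hge hc0 hC0 (hgd C hCP)
    omega
  set e := Nat.findGreatest (fun e => ∃ g : FR σ b, g ∈ hom b w e ∧ g ≠ 0 ∧
    ∀ P ∈ 𝔓, g ∣ pr b P) d with he
  have hex : ∃ g : FR σ b, g ∈ hom b w e ∧ g ≠ 0 ∧ ∀ P ∈ 𝔓, g ∣ pr b P := by
    refine Nat.findGreatest_spec (P := fun e => ∃ g : FR σ b, g ∈ hom b w e ∧ g ≠ 0 ∧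
      ∀ P ∈ 𝔓, g ∣ pr b P) (Nat.zero_le d) ?_
    refine ⟨1, ?_, one_ne_zero, fun P _ => one_dvd _⟩
    rw [hG.zero]
    exact ⟨1, by rw [map_one]⟩
  have hmax : ∀ e' > e, ¬ ∃ g : FR σ b, g ∈ hom b w e' ∧ g ≠ 0 ∧ ∀ P ∈ 𝔓, g ∣ pr b P := by
    intro e' he' hh
    exact Nat.findGreatest_is_greatest he' (hbound e' hh) hh
  obtain ⟨g, hge, hg0, hgd⟩ := hex
  -- the ideal `𝔞`
  set 𝔞 : Ideal (FR σ b) :=
    { carrier := {r | ∃ P ∈ 𝔓, pr b P = g * r}
      add_mem' := by
        rintro r s ⟨P, hP, h1⟩ ⟨Q, hQ, h2⟩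
        exact ⟨P + Q, 𝔓.add_mem hP hQ, by rw [map_add, h1, h2, mul_add]⟩
      zero_mem' := ⟨0, 𝔓.zero_mem, by rw [map_zero, mul_zero]⟩
      smul_mem' := by
        rintro c r ⟨P, hP, h1⟩
        obtain ⟨Z, rfl⟩ := pr_surj b c
        exact ⟨Z * P, 𝔓.mul_mem_left _ hP, by rw [map_mul, h1, smul_eq_mul]; ring⟩ } with h𝔞
  have hmem𝔞 : ∀ r, r ∈ 𝔞 ↔ ∃ P ∈ 𝔓, pr b P = g * r := fun r => Iff.rfl
  -- no homogeneous prime divides `𝔞`
  have hnop : ∀ (e1 : ℕ) (ϖ : FR σ b), ϖ ∈ hom b w e1 → Prime ϖ → ∃ y ∈ 𝔞, ¬ ϖ ∣ y := by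
    intro e1 ϖ hϖe hϖ
    by_contra hcon
    push Not at hcon
    have hpos := deg_pos hG hϖ hϖe
    apply hmax (e + e1) (by omega)
    refine ⟨g * ϖ, hG.mul e e1 g ϖ hge hϖe, mul_ne_zero hg0 hϖ.ne_zero, fun P hPP => ?_⟩
    obtain ⟨r, hr⟩ := hgd P hPP
    rw [hr]
    exact mul_dvd_mul_left g (hcon r ⟨P, hPP, hr⟩)
  -- no common zero
  have hnozero : ∀ p : σ → ℂ, (∀ Z : MvPolynomial σ ℂ, mkF b Z ∈ 𝔞 → aeval p Z = (0 : ℂ)) →
      p = 0 := by
    intro p hp
    by_contra hp0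
    have hfp0 : aeval p (fp σ b) = (0 : ℂ) := hp _ (by
      have : mkF b (fp σ b) = 0 := GrM.mk_eq_zero.2 (Ideal.mem_span_singleton_self _)
      rw [this]
      exact 𝔞.zero_mem)
    set ev := evp b p hfp0 with hev
    have hev𝔞 : ∀ r ∈ 𝔞, ev r = 0 := by
      intro r hr
      obtain ⟨Z, rfl⟩ := GrM.mk_surj r
      rw [hev, evp_mk]
      exact hp Z hr
    set p0 : Option σ → ℂ := fun o => o.elim 0 p with hp0def
    have hevP : ∀ P, eval p0 P = ev (pr b P) := fun P => aeval_p0 b p hfp0 P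
    have hz : ∀ P ∈ 𝔓, eval p0 P = 0 := by
      intro P hPP
      obtain ⟨r, hr⟩ := hgd P hPP
      rw [hevP, hr, map_mul, hev𝔞 r ⟨P, hPP, hr⟩, mul_zero]
    obtain ⟨H, hH, S, hS, hgen⟩ := hLOCP (Option σ) (ob b0 b) (by
      rw [Fintype.card_option]; omega) hWt.two_le 𝔓 hprime hP.fmem hP.ne hP.min p0
      (fun h => hp0 (funext fun i => congrFun h (some i))) hz
    have hf0 : eval p0 f = 0 := hz f hP.fmem
    -- `S` and `H` are not in `(f)`
    have hSf : ¬ f ∣ S := by
      rintro ⟨T, rfl⟩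
      rw [map_mul, hf0, zero_mul] at hS
      exact hS rfl
    have hHf : ¬ f ∣ H := by
      rintro ⟨T, hT⟩
      apply hP.ne
      apply le_antisymm
      · intro Q hQ
        obtain ⟨A, B, hAB⟩ := Ideal.mem_span_pair.1 (hgen Q hQ)
        have h1 : f ∣ S * Q := ⟨A * T + B, by rw [← hAB, hT]; ring⟩
        rw [Ideal.mem_span_singleton]
        exact (hfprime.dvd_or_dvd h1).resolve_left hSf
      · rw [Ideal.span_le, Set.singleton_subset_iff]
        exact hP.fmem
    -- homogeneous generator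
    obtain ⟨n, S', hS', hgen'⟩ : ∃ (n : ℕ) (S' : MvPolynomial (Option σ) ℂ), eval p0 S' ≠ 0 ∧
        ∀ P ∈ 𝔓, S' * P ∈ Ideal.span {weightedHomogeneousComponent (ob w0 w) n H, f} := by
      have hfin : (Function.support fun m => weightedHomogeneousComponent (ob w0 w) m H).Finite :=
        weightedHomogeneousComponent_finsupp H
      set T := hfin.toFinset with hT
      have h1 : H = ∑ k ∈ T, weightedHomogeneousComponent (ob w0 w) k H := by
        have h1 := sum_weightedHomogeneousComponent (ob w0 w) H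
        rw [finsum_eq_sum_of_support_subset (s := T) _ (by rw [hT, Set.Finite.coe_toFinset])] at h1
        exact h1.symm
      have h2 : ∀ k, ∃ A B, A * H + B * f = S * weightedHomogeneousComponent (ob w0 w) k H :=
        fun k => Ideal.mem_span_pair.1 (hgen _ (hP.homog H hH k))
      choose A B hAB using h2
      have h3 : f ∣ (S - ∑ k ∈ T, A k) * H := by
        refine ⟨∑ k ∈ T, B k, ?_⟩
        have h4 : S * H = (∑ k ∈ T, A k) * H + (∑ k ∈ T, B k) * f := by
          calc S * H = ∑ k ∈ T, S * weightedHomogeneousComponent (ob w0 w) k H := by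
                rw [← Finset.mul_sum, ← h1]
            _ = ∑ k ∈ T, (A k * H + B k * f) := Finset.sum_congr rfl fun k _ => (hAB k).symm
            _ = _ := by rw [Finset.sum_add_distrib, Finset.sum_mul, Finset.sum_mul]
        rw [sub_mul, h4]
        ring
      have h5 : f ∣ S - ∑ k ∈ T, A k := (hfprime.dvd_or_dvd h3).resolve_right hHf
      obtain ⟨n, -, hn⟩ : ∃ k ∈ T, eval p0 (A k) ≠ 0 := by
        by_contra hcon
        push Not at hcon
        obtain ⟨U, hU'⟩ := h5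
        have h6 := congrArg (eval p0) hU'
        rw [map_sub, map_sum, Finset.sum_eq_zero hcon, sub_zero, map_mul, hf0, zero_mul] at h6
        exact hS h6
      refine ⟨n, A n * S, by rw [map_mul]; exact mul_ne_zero hn hS, fun P hPP => ?_⟩
      obtain ⟨a, c, hac⟩ := Ideal.mem_span_pair.1 (hgen P hPP)
      rw [Ideal.mem_span_pair]
      refine ⟨a * S, c * A n - a * B n, ?_⟩
      have h7 := hAB n
      calc a * S * weightedHomogeneousComponent (ob w0 w) n H + (c * A n - a * B n) * f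
          = a * (S * weightedHomogeneousComponent (ob w0 w) n H) + (c * A n - a * B n) * f := by
            ring
        _ = A n * (a * H + c * f) := by rw [← h7]; ring
        _ = A n * S * P := by rw [hac]; ring
    set Hn := weightedHomogeneousComponent (ob w0 w) n H with hHn
    have hHnP : Hn ∈ 𝔓 := hP.homog H hH n
    have hHnh : IsWeightedHomogeneous (ob w0 w) Hn n :=
      weightedHomogeneousComponent_isWeightedHomogeneous _ _
    obtain ⟨h1, hh1⟩ := hgd Hn hHnP
    have hh1𝔞 : h1 ∈ 𝔞 := ⟨Hn, hHnP, hh1⟩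
    have hS'0 : pr b S' ≠ 0 := by
      intro hh
      apply hS'
      rw [hevP, hh, map_zero]
    have hdiv : ∀ P ∈ 𝔓, pr b Hn ∣ pr b S' * pr b P := by
      intro P hPP
      obtain ⟨a, c, hac⟩ := Ideal.mem_span_pair.1 (hgen' P hPP)
      refine ⟨pr b a, ?_⟩
      rw [← map_mul, ← hac, map_add, map_mul, map_mul, hprf, mul_zero, add_zero, mul_comm]
    have hHn0 : pr b Hn ≠ 0 := by
      intro hh
      have h2 := hdiv C hCP
      rw [hh, zero_dvd_iff] at h2
      rcases mul_eq_zero.1 h2 with h3 | h3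
      · exact hS'0 h3
      · exact hC0 h3
    have hHnhom : pr b Hn ∈ hom b w n := GrM.mk_mem_hom (ph_homog w0 hHnh)
    have hh10 : h1 ≠ 0 := by
      rintro rfl
      rw [mul_zero] at hh1
      exact hHn0 hh1
    obtain ⟨h1', d1, hh1', hd1, -, -⟩ := cofactor hWb hG hdom hg0 hge hHnhom hHn0
      (hgd Hn hHnP)
    have heq : h1' = h1 := by
      apply mul_left_cancel₀ hg0
      rw [← hh1', hh1]
    rw [heq] at hd1
    obtain ⟨e1, ϖ, hϖe, hϖ, hϖd, hϖz⟩ := exists_prime_zero hWb hG hdom hU ev d1 h1 hd1 hh10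
      (hev𝔞 h1 hh1𝔞)
    obtain ⟨y, hy, hny⟩ := hnop e1 ϖ hϖe hϖ
    obtain ⟨P, hPP, hPy⟩ := hy
    have h2 : h1 ∣ pr b S' * y := by
      have h3 := hdiv P hPP
      rw [hh1, hPy] at h3
      have h4 : g * h1 ∣ g * (pr b S' * y) := by
        have : pr b S' * (g * y) = g * (pr b S' * y) := by ring
        rwa [this] at h3
      exact (mul_dvd_mul_iff_left hg0).1 h4
    rcases hϖ.dvd_or_dvd (hϖd.trans h2) with h3 | h3
    · obtain ⟨T, hT⟩ := h3
      apply hS'
      rw [hevP, hT, map_mul, hϖz, zero_mul]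
    · exact hny h3
  -- Nullstellensatz
  have hpow : ∀ i : σ, ∃ k : ℕ, mkF b (X i) ^ k ∈ 𝔞 := by
    intro i
    have h1 : (X i : MvPolynomial σ ℂ) ∈ (𝔞.comap (mkF b)).radical := by
      rw [← vanishingIdeal_zeroLocus_eq_radical (K := ℂ), mem_vanishingIdeal_iff]
      intro p hp
      rw [mem_zeroLocus_iff] at hp
      have h2 := hnozero p (fun Z hZ => hp Z hZ)
      rw [aeval_X, h2]
      rfl
    obtain ⟨k, hk⟩ := h1
    refine ⟨k, ?_⟩
    rw [Ideal.mem_comap, map_pow] at hk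
    exact hk
  choose k hk using hpow
  refine ⟨e, g, (∑ i, k i) + 1, hge, hg0, by omega, fun P hPP => hgd P hPP, fun i => ?_⟩
  have h1 : k i ≤ ∑ i, k i := Finset.single_le_sum (fun _ _ => Nat.zero_le _) (Finset.mem_univ i)
  have h2 : mkF b (X i) ^ ((∑ i, k i) + 1) ∈ 𝔞 := by
    have h3 : mkF b (X i) ^ ((∑ i, k i) + 1) =
        mkF b (X i) ^ ((∑ i, k i) + 1 - k i) * mkF b (X i) ^ k i := by
      rw [← pow_add]
      congr 1
      omega
    rw [h3]
    exact 𝔞.mul_mem_left _ (hk i)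
  obtain ⟨P, hPP, hPe⟩ := h2
  exact ⟨P, hPP, by rw [← pr_apply, hPe, mul_comm]⟩

end

end Pool.Agent.Lib.MPa7508c
end

section
/-!
# NORM: the local rings are integrally closed
-/
set_option autoImplicit false
set_option linter.unusedSectionVars false

namespace Pool.Agent.Lib.MPa7508c

open MvPolynomial

noncomputable section

namespace NormM

open UtilM DivxM DivoM

variable {m : ℕ} {Δ : Dat m} {K : Type} [Field K] [Algebra ℂ K] {x : Fin (m + 2) → K}

theorem exists_prime_dvd (hG : GrLaws Δ.b Δ.ww) (hdom : IsDomain Δ.R) (hU : GrUFD Δ.b Δ.ww)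
    {𝔓 : Ideal (MvPolynomial (Option (Fin (m + 2))) ℂ)} (hpr : 𝔓.IsPrime)
    (hfp : fp _ Δ.b ∈ 𝔓) : ∀ (d : ℕ) (P : MvPolynomial (Option (Fin (m + 2))) ℂ),
    IsWeightedHomogeneous Δ.ww P d → P ∈ 𝔓 → mkF Δ.b P ≠ 0 →
    ∃ (e : ℕ) (Q : MvPolynomial (Option (Fin (m + 2))) ℂ), IsWeightedHomogeneous Δ.ww Q e ∧
      Prime (mkF Δ.b Q) ∧ Q ∈ 𝔓 ∧ mkF Δ.b Q ∣ mkF Δ.b P := by
  intro d
  induction d using Nat.strong_induction_on with
  | _ d ih =>
    intro P hP hPm hP0
    have hnu : ¬ IsUnit (mkF Δ.b P) := by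
      intro hu
      obtain ⟨c, hc⟩ := hu.exists_right_inv
      obtain ⟨C, rfl⟩ := GrM.mk_surj c
      have h1 : mkF Δ.b P ∣ mkF Δ.b 1 := by rw [map_one, ← hc]; exact dvd_mul_right _ _
      exact hpr.ne_top ((Ideal.eq_top_iff_one 𝔓).2 (mem_of_dvd hfp h1 hPm))
    obtain ⟨e, p, hpe, hp, c, hc⟩ := hU d (mkF Δ.b P) (mem_hm hP) hP0 hnu
    obtain ⟨Q, hQ, rfl⟩ := exists_lift hpe
    have hc0 : c ≠ 0 := by
      rintro rfl
      rw [mul_zero] at hc
      exact hP0 hc
    obtain ⟨d1, d2, hd, hd1, hd2⟩ := hG.factor hdom d _ c hp.ne_zero hc0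
      (by rw [← hc]; exact mem_hm hP)
    have he := deg_unique hG hp.ne_zero hd1 hpe
    have hepos := DivxM.deg_pos hG hp hpe
    obtain ⟨C, hC, rfl⟩ := exists_lift hd2
    have hc' := hc
    rw [← map_mul] at hc
    have h2 : Q * C ∈ 𝔓 := mem_of_mk hfp hc.symm hPm
    rcases hpr.mem_or_mem h2 with h3 | h3
    · exact ⟨e, Q, hQ, hp, h3, by rw [hc']; exact dvd_mul_right _ _⟩
    · obtain ⟨e', Q', h4, h5, h6, h7⟩ := ih d2 (by omega) C hC h3 hc0
      exact ⟨e', Q', h4, h5, h6, h7.trans (by rw [hc']; exact dvd_mul_left _ _)⟩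

/-- integral elements over a subring of a valuation ring -/
theorem mem_of_integral (O : Subring K) (F : ValuationSubring K) (hOF : O ≤ F.toSubring) (z : K)
    (hz : IsIntegral O z) : z ∈ F := by
  have h1 : IsIntegral F z := by
    obtain ⟨P, hP, he⟩ := hz
    refine ⟨P.map (Subring.inclusion hOF), hP.map _, ?_⟩
    rw [Polynomial.eval₂_map]
    exact he
  obtain ⟨y, rfl⟩ := IsIntegrallyClosed.isIntegral_iff.1 h1
  exact y.2

end NormM

open UtilM DivxM DivoM NormM in
/-- NORM -/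
theorem specNORM (hGR : SpecGR) (hRNG : SpecRNG) (hFUN : SpecFUN) (hDIVX : SpecDIVX)
    (hTHR : SpecTHR) : SpecNORM := by
  intro m Δ hm hU K _ _ x h O hO
  obtain ⟨𝔓, hP⟩ := hO
  have hG := gr hGR Δ
  have hR := hRNG m Δ hm
  have hdom := hR.dom
  have hf := hFUN m Δ hm K x h
  have key : ∀ z : K, IsIntegral O z → z ∈ O := by
    intro z hz
    have step : ∀ (d : ℕ) (r s : Δ.R), r ∈ Δ.hm d → s ∈ Δ.hm d → s ≠ 0 →
        z * dh h s = dh h r → z ∈ O := by
      intro d
      induction d using Nat.strong_induction_on with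
      | _ d ih =>
        intro r s hr hs hs0 hzs
        obtain ⟨A, hA, rfl⟩ := exists_lift hr
        obtain ⟨B, hB, rfl⟩ := exists_lift hs
        by_cases hB𝔓 : B ∈ 𝔓
        · obtain ⟨e, Q, hQ, hQp, hQ𝔓, s', hs'⟩ :=
            exists_prime_dvd hG hdom hU hP.prime hP.fp_mem d B hB hB𝔓 hs0
          obtain ⟨F, hF⟩ := (hDIVX m Δ hm K x h).1 (mkF Δ.b Q) e (mem_hm hQ) hQp
          have hOF := ((hTHR m Δ hm K x h F _ e hF).1 𝔓 O hP Q rfl).2 hQ𝔓
          have hzF := mem_of_integral O F hOF z hz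
          obtain ⟨d', r'', s'', hr'', hs'', hps, hz''⟩ := (hF.mem z).1 hzF
          have hs''0 : s'' ≠ 0 := fun h1 => hps (h1 ▸ dvd_zero _)
          -- cross multiplication
          have h1 : mkF Δ.b A * s'' = r'' * mkF Δ.b B := by
            have h2 : dh h (mkF Δ.b A * s'' - r'' * mkF Δ.b B) = 0 := by
              rw [map_sub, map_mul, map_mul, ← hzs, ← hz'']
              ring
            refine sub_eq_zero.1 (hf.inj (d + d') _ (Submodule.sub_mem _ (mul_mem hr hs'') ?_) h2)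
            have := mul_mem hr'' hs
            rwa [Nat.add_comm d' d] at this
          have h2 : mkF Δ.b Q ∣ mkF Δ.b A * s'' := by
            rw [h1]
            exact ⟨r'' * s', by rw [hs']; ring⟩
          obtain ⟨r', hr'⟩ := (hQp.dvd_or_dvd h2).resolve_right hps
          by_cases hA0 : mkF Δ.b A = 0
          · have h3 : z * dh h (mkF Δ.b B) = 0 := by rw [hzs, hA0, map_zero]
            have h4 : dh h (mkF Δ.b B) ≠ 0 := fun h5 => hs0 (hf.inj d _ hs h5)
            rw [(mul_eq_zero.1 h3).resolve_right h4]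
            exact O.zero_mem
          · have hr'0 : r' ≠ 0 := fun h3 => hA0 (by rw [hr', h3, mul_zero])
            have hs'0 : s' ≠ 0 := fun h3 => hs0 (by rw [hs', h3, mul_zero])
            obtain ⟨d1, d2, hd, hd1, hd2⟩ := hG.factor hdom d _ r' hQp.ne_zero hr'0
              (by rw [← hr']; exact hr)
            obtain ⟨e1, e2, he, he1, he2⟩ := hG.factor hdom d _ s' hQp.ne_zero hs'0
              (by rw [← hs']; exact hs)
            have h3 := deg_unique hG hQp.ne_zero hd1 (mem_hm hQ)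
            have h4 := deg_unique hG hQp.ne_zero he1 (mem_hm hQ)
            have h5 := DivxM.deg_pos hG hQp (mem_hm hQ)
            have h6 : e2 = d2 := by omega
            subst h6
            refine ih e2 (by omega) r' s' hd2 he2 hs'0 ?_
            have h7 : dh h (mkF Δ.b Q) ≠ 0 := fun h8 => hQp.ne_zero (hf.inj e _ (mem_hm hQ) h8)
            have h8 := hzs
            rw [hr', hs', map_mul, map_mul] at h8
            apply mul_left_cancel₀ h7
            rw [← h8]
            ring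
        · refine (hP.mem z).2 ⟨d, A, B, hA, hB, hB𝔓, ?_⟩
          rw [dh_mk, dh_mk] at hzs
          exact hzs
    obtain ⟨d, r, s, hr, hs, hs0, hzs⟩ := hf.frac z
    exact step d r s hr hs hs0 hzs
  rw [isIntegrallyClosed_iff (FractionRing O)]
  intro y hy
  have hinj : Function.Injective (algebraMap O K) := fun a b hab => Subtype.ext hab
  let φ : FractionRing O →ₐ[O] K := IsFractionRing.liftAlgHom (g := Algebra.ofId O K) hinj
  have hφ : Function.Injective φ := φ.toRingHom.injective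
  have h1 := key (φ y) (hy.map φ)
  refine ⟨⟨φ y, h1⟩, hφ ?_⟩
  rw [AlgHom.commutes]
  rfl

end

end Pool.Agent.Lib.MPa7508c
end

section
/-!
# Module THR: the prime divisors through a point; uniqueness
-/
set_option autoImplicit false

namespace Pool.Agent.Lib.MPa7508c

open MvPolynomial

noncomputable section

open DivoM UtilM DivxM in
theorem specTHR (hGR : SpecGR) (hRNG : SpecRNG) (hFUN : SpecFUN) : SpecTHR := by
  intro m Δ hm K _ _ x h F p e hD
  have hG := UtilM.gr hGR Δ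
  have hR := hRNG m Δ hm
  have hF := hFUN m Δ hm K x h
  have hdom := hR.dom
  have hp := hD.prime
  have hpe := hD.hom
  constructor
  · intro 𝔓 O hloc P hP
    constructor
    · intro hOF
      by_contra hPn
      obtain ⟨P0, hP0, hP0p⟩ := exists_lift hpe
      have hP0n : P0 ∉ 𝔓 := fun hP0m => hPn (mem_of_mk hloc.fp_mem (by rw [hP, hP0p]) hP0m)
      obtain ⟨l, hl⟩ := exists_ndvd hR hp
      have hl0 : co Δ l ≠ 0 := (co_prime hR l).ne_zero
      have hepos := deg_pos hG hp hpe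
      have hd0 : dh h p ≠ 0 := frac_ne h hF hpe hp.ne_zero
      have h1 : (X l : MvPolynomial (Option (Fin (m + 2))) ℂ) ^ e ∈
          {P | IsWeightedHomogeneous Δ.ww P (e * Δ.ww l)} := by
        have := (isWeightedHomogeneous_X ℂ Δ.ww l).pow e
        simpa using this
      have h2 : IsWeightedHomogeneous Δ.ww (P0 ^ Δ.ww l) (e * Δ.ww l) := by
        have := hP0.pow (Δ.ww l)
        rwa [smul_eq_mul, mul_comm] at this
      have h3 : P0 ^ Δ.ww l ∉ 𝔓 := fun h4 => hP0n (hloc.prime.mem_of_pow_mem _ h4)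
      have hz : dh h (co Δ l) ^ e / dh h p ^ Δ.ww l * dh h (p ^ Δ.ww l) =
          dh h (co Δ l ^ e) := by
        rw [map_pow, map_pow]
        exact div_mul_cancel₀ _ (pow_ne_zero _ hd0)
      have h5 : dh h (co Δ l) ^ e / dh h p ^ Δ.ww l ∈ O := by
        refine (hloc.mem _).2 ⟨e * Δ.ww l, X l ^ e, P0 ^ Δ.ww l, h1, h2, h3, ?_⟩
        have h6 : dhP x (P0 ^ Δ.ww l) = dh h (p ^ Δ.ww l) := by
          rw [← dh_mk h, map_pow, hP0p]
        have h7 : dhP x (X l ^ e) = dh h (co Δ l ^ e) := by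
          rw [← dh_mk h, map_pow]; rfl
        rw [h6, h7, hz]
      have h8 : dh h (co Δ l) ^ e / dh h p ^ Δ.ww l ∈ F := hOF h5
      rw [mem_iff h hG hR hF hD (pow_mem (co_mem l) e)
        (by rw [mul_comm]; exact pow_mem hpe (Δ.ww l))
        (pow_ne_zero _ hl0) (pow_ne_zero _ hp.ne_zero) hz, mult_pow hR hp hp.ne_zero,
        mult_pow hR hp hl0, (mult_eq_zero hR hp hl0).2 hl, mul_zero] at h8
      have h9 : 1 ≤ mult p p := (hR.mult_le p p 1 hp hp.ne_zero).2 (by rw [pow_one])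
      have h10 := ww_pos (Δ := Δ) l
      have h11 : 0 < Δ.ww l * mult p p := Nat.mul_pos h10 h9
      omega
    · intro hPm z hz
      obtain ⟨d', P1, Q1, hP1, hQ1, hQ1n, hz1⟩ := (hloc.mem z).1 hz
      change z ∈ F
      rw [hD.mem]
      refine ⟨d', mkF Δ.b P1, mkF Δ.b Q1, mem_hm hP1, mem_hm hQ1, ?_, hz1⟩
      intro hd
      rw [← hP] at hd
      exact hQ1n (mem_of_dvd hloc.fp_mem hd hPm)
  · intro F' p' e' hD'
    have hp' := hD'.prime
    have hpe' := hD'.hom
    constructor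
    · intro hpp
      have hpp' := dvd_symm hR hp hp' hpp
      ext z
      rw [hD.mem, hD'.mem]
      constructor
      · rintro ⟨d, r, s, hr, hs, hps, hz⟩
        exact ⟨d, r, s, hr, hs, fun h1 => hps (hpp.trans h1), hz⟩
      · rintro ⟨d, r, s, hr, hs, hps, hz⟩
        exact ⟨d, r, s, hr, hs, fun h1 => hps (hpp'.trans h1), hz⟩
    · intro hFF
      by_contra hnd
      obtain ⟨l, hl, hl'⟩ := exists_ndvd₂ hR hp hp'
      have hl0 : co Δ l ≠ 0 := (co_prime hR l).ne_zero
      have hd0 : dh h p' ≠ 0 := frac_ne h hF hpe' hp'.ne_zero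
      have hz : dh h (co Δ l) ^ e' / dh h p' ^ Δ.ww l * dh h (p' ^ Δ.ww l) =
          dh h (co Δ l ^ e') := by
        rw [map_pow, map_pow]
        exact div_mul_cancel₀ _ (pow_ne_zero _ hd0)
      have h2 : p' ^ Δ.ww l ∈ Δ.hm (e' * Δ.ww l) := by
        rw [mul_comm]; exact pow_mem hpe' (Δ.ww l)
      have h8 : dh h (co Δ l) ^ e' / dh h p' ^ Δ.ww l ∈ F := by
        rw [mem_iff h hG hR hF hD (pow_mem (co_mem l) e') h2
          (pow_ne_zero _ hl0) (pow_ne_zero _ hp'.ne_zero) hz, mult_pow hR hp hp'.ne_zero,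
          (mult_eq_zero hR hp hp'.ne_zero).2 hnd, mul_zero]
        exact Nat.zero_le _
      rw [hFF, mem_iff h hG hR hF hD' (pow_mem (co_mem l) e') h2
        (pow_ne_zero _ hl0) (pow_ne_zero _ hp'.ne_zero) hz, mult_pow hR hp' hp'.ne_zero,
        mult_pow hR hp' hl0, (mult_eq_zero hR hp' hl0).2 hl', mul_zero] at h8
      have h9 : 1 ≤ mult p' p' := (hR.mult_le p' p' 1 hp' hp'.ne_zero).2 (by rw [pow_one])
      have h10 := ww_pos (Δ := Δ) l
      have h11 : 0 < Δ.ww l * mult p' p' := Nat.mul_pos h10 h9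
      omega

end

end Pool.Agent.Lib.MPa7508c
end
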