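import Pool.Agent.Lib.MP_a7508c_ag.Spec2
import Pool.Agent.Lib.MP_a7508c_ag.Thr

section
/-!
# WQC: the canonical divisor is a Weil divisor, `ℚ`-factoriality, class group of rank one
-/
set_option autoImplicit false

namespace Pool.Agent.Lib.MPa7508c

open MvPolynomial

noncomputable section

namespace WqcM

section OrdPart

variable {K : Type} [Field K] {v : ValuationSubring K}

theorem ord_one (h : OrdLaws v) : ord v (1 : K) = 0 := by
  have := h.mul 1 1 one_ne_zero one_ne_zero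
  rw [mul_one] at this
  omega

theorem ord_inv (h : OrdLaws v) {a : K} (ha : a ≠ 0) : ord v a⁻¹ = - ord v a := by
  have := h.mul a a⁻¹ ha (inv_ne_zero ha)
  rw [mul_inv_cancel₀ ha, ord_one h] at this
  omega

theorem ord_div (h : OrdLaws v) {a b : K} (ha : a ≠ 0) (hb : b ≠ 0) :
    ord v (a / b) = ord v a - ord v b := by
  rw [div_eq_mul_inv, h.mul a b⁻¹ ha (inv_ne_zero hb), ord_inv h hb]
  ring

theorem ord_pow (h : OrdLaws v) {a : K} (ha : a ≠ 0) (n : ℕ) :
    ord v (a ^ n) = n * ord v a := by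
  induction n with
  | zero => simpa using ord_one h
  | succ n ih =>
    rw [pow_succ, h.mul _ _ (pow_ne_zero n ha) ha, ih]
    push_cast
    ring

end OrdPart

section MultPart

variable {m : ℕ} {Δ : Dat m}

theorem mult_eq_zero (hR : RingLaws Δ) {p r : Δ.R} (hp : Prime p) (hr : r ≠ 0) (h : ¬ p ∣ r) :
    mult p r = 0 := by
  by_contra hne
  have h1 : 1 ≤ mult p r := Nat.one_le_iff_ne_zero.2 hne
  rw [hR.mult_le p r 1 hp hr, pow_one] at h1
  exact h h1

theorem mult_one (hR : RingLaws Δ) {p : Δ.R} (hp : Prime p) : mult p (1 : Δ.R) = 0 := by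
  have := hR.dom
  exact mult_eq_zero hR hp one_ne_zero (fun hd => hp.not_isUnit (isUnit_of_dvd_one hd))

theorem mult_pow (hR : RingLaws Δ) {p r : Δ.R} (hp : Prime p) (hr : r ≠ 0) (n : ℕ) :
    mult p (r ^ n) = n * mult p r := by
  have := hR.dom
  induction n with
  | zero => rw [pow_zero, mult_one hR hp, zero_mul]
  | succ n ih =>
    rw [pow_succ, hR.mult_mul p _ _ hp (pow_ne_zero n hr) hr, ih]
    ring

theorem dvd_of_dvd_x0 (hR : RingLaws Δ) {p : Δ.R} (hp : Prime p) (h : p ∣ Δ.x0) : Δ.x0 ∣ p := by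
  have := hR.dom
  exact (hp.dvd_prime_iff_associated hR.x0prime).1 h |>.symm.dvd

theorem mult_x0 (hR : RingLaws Δ) {p : Δ.R} (hp : Prime p) (h : p ∣ Δ.x0) :
    mult p Δ.x0 = 1 := by
  have := hR.dom
  have h0 : Δ.x0 ≠ 0 := hR.x0prime.ne_zero
  apply le_antisymm
  · by_contra hlt
    push Not at hlt
    have h2 : 2 ≤ mult p Δ.x0 := hlt
    rw [hR.mult_le p _ 2 hp h0] at h2
    have h3 : Δ.x0 ^ 2 ∣ Δ.x0 ^ 1 := by
      rw [pow_one]
      exact (pow_dvd_pow_of_dvd (dvd_of_dvd_x0 hR hp h) 2).trans h2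
    rw [pow_dvd_pow_iff h0 hR.x0prime.not_isUnit] at h3
    omega
  · rw [hR.mult_le p _ 1 hp h0, pow_one]
    exact h

/-- the weights and exponents of the coordinate ring -/
theorem wt (Δ : Dat m) : Wt Δ.b Δ.ww Δ.L where
  mul := by
    rintro (_ | i)
    · simp [Dat.b, Dat.ww]
    · exact Δ.wt.mul i
  two_le := by
    rintro (_ | i)
    · exact Δ.two_le_L
    · exact Δ.wt.two_le i
  pos := by
    rintro (_ | i)
    · exact one_pos
    · exact Δ.wt.pos i

theorem x0_mem (Δ : Dat m) : Δ.x0 ∈ Δ.hm 1 := by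
  refine ⟨X none, ?_, rfl⟩
  rw [SetLike.mem_coe, mem_weightedHomogeneousSubmodule]
  exact isWeightedHomogeneous_X ℂ Δ.ww none

theorem gr (hGR : SpecGR) (Δ : Dat m) : GrLaws Δ.b Δ.ww :=
  hGR _ Δ.b Δ.ww Δ.L (by rw [Fintype.card_option]; omega) (wt Δ)

theorem x0_pow_mem (hG : GrLaws Δ.b Δ.ww) (n : ℕ) : Δ.x0 ^ n ∈ Δ.hm n := by
  induction n with
  | zero =>
    rw [pow_zero]
    exact (hG.zero 1).2 ⟨1, by rw [map_one]⟩
  | succ n ih =>
    rw [pow_succ]
    exact hG.mul _ _ _ _ ih (x0_mem Δ)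

theorem deg_unique (hG : GrLaws Δ.b Δ.ww) {d e : ℕ} {r : Δ.R} (hd : r ∈ Δ.hm d) (he : r ∈ Δ.hm e)
    (hr : r ≠ 0) : d = e := by
  by_contra hne
  have h := hG.uniq (Finsupp.single d r - Finsupp.single e r) (fun j => by
    rw [Finsupp.sub_apply]
    apply Submodule.sub_mem
    · rw [Finsupp.single_apply]
      split_ifs with h1
      · exact h1 ▸ hd
      · exact Submodule.zero_mem _
    · rw [Finsupp.single_apply]
      split_ifs with h1
      · exact h1 ▸ he
      · exact Submodule.zero_mem _) (by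
    rw [Finsupp.sum_sub_index (fun _ _ _ => rfl), Finsupp.sum_single_index rfl,
      Finsupp.sum_single_index rfl, sub_self])
  have h2 := DFunLike.congr_fun h d
  rw [Finsupp.sub_apply, Finsupp.single_eq_same, Finsupp.single_apply,
    if_neg (fun hh => hne hh.symm), sub_zero] at h2
  exact hr h2

end MultPart

end WqcM

open WqcM in
theorem specWQC (hORD : SpecORD) (hRNG : SpecRNG) (hFUN : SpecFUN) (hDIVX : SpecDIVX)
    (hDIVO : SpecDIVO) (hTHR : SpecTHR) (hDIVD : SpecDIVD) (hLEQ : SpecLEQ) (hLDD : SpecLDD) :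
    SpecWQC := by
  intro m Δ hm hG hNum K _ _ x h
  have hR := hRNG m Δ hm
  have hdom := hR.dom
  have hF := hFUN m Δ hm K x h
  obtain ⟨hrep, -⟩ := hLDD m Δ hm hG K x h
  -- the canonical divisor
  have hcan1 : ∀ (F : ValuationSubring K) (p : Δ.R) (e : ℕ), IsDivOf h F p e → ¬ p ∣ Δ.x0 →
      canDiv (omega Δ x) F = 0 := by
    intro F p e hD hp
    rw [hrep.eq F p e hD, mult_one hR hD.prime, mult_pow hR hD.prime hR.x0prime.ne_zero,
      mult_eq_zero hR hD.prime hR.x0prime.ne_zero hp]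
    simp
  have hcan2 : ∀ (F : ValuationSubring K) (p : Δ.R) (e : ℕ), IsDivOf h F p e → p ∣ Δ.x0 →
      canDiv (omega Δ x) F = - (Δ.q : ℤ) := by
    intro F p e hD hp
    rw [hrep.eq F p e hD, mult_one hR hD.prime, mult_pow hR hD.prime hR.x0prime.ne_zero,
      mult_x0 hR hD.prime hp]
    simp
  refine ⟨?_, ?_, ?_⟩
  · apply Set.Subsingleton.finite
    rintro F ⟨hF1, hF2⟩ F' ⟨hF1', hF2'⟩
    obtain ⟨p, e, hp⟩ := hDIVO m Δ hm hG K x h F hF1
    obtain ⟨p', e', hp'⟩ := hDIVO m Δ hm hG K x h F' hF1'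
    have h1 : p ∣ Δ.x0 := by
      by_contra hc
      exact hF2 (hcan1 F p e hp hc)
    have h2 : p' ∣ Δ.x0 := by
      by_contra hc
      exact hF2' (hcan1 F' p' e' hp' hc)
    exact ((hTHR m Δ hm K x h F p e hp).2 F' p' e' hp').1
      (h1.trans (dvd_of_dvd_x0 hR hp'.prime h2))
  · rintro D hD O ⟨𝔓, hO⟩
    obtain ⟨d, e, r, s, hr⟩ := hDIVD m Δ hm hG K x h D hD
    obtain ⟨k, hk⟩ := hO.irrel
    exact ⟨_, _, hLEQ m Δ hm hG K x h D d e r s hr 𝔓 O hO k hk⟩
  · intro D hD
    obtain ⟨d, e, r, s, hr⟩ := hDIVD m Δ hm hG K x h D hD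
    have hr0 : dh h r ≠ 0 := fun h0 => hr.r0 (hF.inj d r hr.hr h0)
    have hs0 : dh h s ≠ 0 := fun h0 => hr.s0 (hF.inj e s hr.hs h0)
    refine ⟨Δ.q, (e : ℤ) - d, (dh h r / dh h s) ^ Δ.q, ?_, pow_ne_zero _ (div_ne_zero hr0 hs0),
      fun F hF1 => ?_⟩
    · have := hNum.index
      omega
    · obtain ⟨p, e', hp⟩ := hDIVO m Δ hm hG K x h F hF1
      have hO := hORD K F hF1.1
      obtain ⟨-, hX⟩ := (hDIVX m Δ hm K x h).2 F p e' hp
      rw [ord_pow hO (div_ne_zero hr0 hs0), ord_div hO hr0 hs0, hr.eq F p e' hp]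
      by_cases hpx : p ∣ Δ.x0
      · rw [hcan2 F p e' hp hpx, (hX d r hr.hr hr.r0).2 hpx, (hX e s hr.hs hr.s0).2 hpx]
        ring
      · rw [hcan1 F p e' hp hpx, (hX d r hr.hr hr.r0).1 hpx, (hX e s hr.hs hr.s0).1 hpx]
        ring

end

end Pool.Agent.Lib.MPa7508c
end

section
/-!
# SDIM: sections vanishing along `x_0 = 0`
-/
set_option autoImplicit false

namespace Pool.Agent.Lib.MPa7508c

open MvPolynomial

noncomputable section

namespace SdimM

open WqcM

variable {m : ℕ} {Δ : Dat m} {K : Type} [Field K] [Algebra ℂ K] {x : Fin (m + 2) → K}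

theorem dh_x0 (h : IsFun Δ K x) : dh h Δ.x0 = 1 := by
  show dhP x (X none) = 1
  simp [dhP]

theorem dh_x0_pow (h : IsFun Δ K x) (n : ℕ) : dh h (Δ.x0 ^ n) = 1 := by
  rw [map_pow, dh_x0, one_pow]

/-- multiples of `- K` -/
theorem rep_mul (hR : RingLaws Δ) (hG : GrLaws Δ.b Δ.ww) (h : IsFun Δ K x)
    (hrep : IsRep h (canDiv (omega Δ x)) 0 Δ.q 1 (Δ.x0 ^ Δ.q)) (k : ℕ) :
    IsRep h (fun F => (k : ℤ) * (- canDiv (omega Δ x) F)) (Δ.q * k) 0 (Δ.x0 ^ (Δ.q * k)) 1 := by
  have hdom := hR.dom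
  refine ⟨x0_pow_mem hG _, ?_, pow_ne_zero _ hR.x0prime.ne_zero, one_ne_zero, ?_⟩
  · have := x0_pow_mem hG 0
    rwa [pow_zero] at this
  · intro F p e hD
    rw [hrep.eq F p e hD, mult_one hR hD.prime, mult_pow hR hD.prime hR.x0prime.ne_zero,
      mult_pow hR hD.prime hR.x0prime.ne_zero]
    push_cast
    ring

end SdimM

open WqcM SdimM in
theorem specSDIM (hRNG : SpecRNG) (hGR : SpecGR) (hFUN : SpecFUN) (hDIVX : SpecDIVX)
    (hSEC : SpecSEC) (hLDD : SpecLDD) : SpecSDIM := by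
  intro m Δ hm hG K _ _ x h F p e hD hp t k
  have hR := hRNG m Δ hm
  have hdom := hR.dom
  have hF := hFUN m Δ hm K x h
  have hgr := gr hGR Δ
  obtain ⟨hrep, -⟩ := hLDD m Δ hm hG K x h
  have hrk := rep_mul hR hgr h hrep k
  have hx0 : Δ.x0 ≠ 0 := hR.x0prime.ne_zero
  obtain ⟨-, hX⟩ := (hDIVX m Δ hm K x h).2 F p e hD
  set c : ℕ := ⌈(k : ℝ) * t⌉₊ with hc
  -- the set of sections
  have hset : {s : K | IsSec (locs Δ x) (fun F => (k : ℤ) * (- canDiv (omega Δ x) F)) s ∧
      (k : ℝ) * t ≤ (ord F s : ℝ) + k * (((Δ.q : ℚ) : ℚ) : ℝ)} =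
      {s : K | ∃ g : Δ.R, g ∈ Δ.hm (Δ.q * k) ∧ g ≠ 0 ∧ Δ.x0 ^ c ∣ g ∧ s = dh h g} := by
    ext s
    simp only [Set.mem_ofPred_eq]
    rw [hSEC m Δ hm hG K x h _ _ _ _ _ hrk s]
    simp only [dh_x0_pow, map_one, mul_one, Nat.add_zero]
    have key : ∀ g : Δ.R, g ∈ Δ.hm (Δ.q * k) → g ≠ 0 →
        ((k : ℝ) * t ≤ (ord F (dh h g) : ℝ) + k * (((Δ.q : ℚ) : ℚ) : ℝ) ↔ Δ.x0 ^ c ∣ g) := by
      intro g hg hg0
      rw [(hX _ g hg hg0).2 hp]
      have h1 : (((mult p g : ℤ) - ((Δ.q * k : ℕ) : ℤ) : ℤ) : ℝ) + k * (((Δ.q : ℚ) : ℚ) : ℝ) =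
          (mult p g : ℝ) := by
        push_cast
        ring
      rw [h1, ← Nat.ceil_le, ← hc, hR.mult_le p g c hD.prime hg0]
      constructor
      · intro hh
        exact (pow_dvd_pow_of_dvd (dvd_of_dvd_x0 hR hD.prime hp) c).trans hh
      · intro hh
        exact (pow_dvd_pow_of_dvd hp c).trans hh
    constructor
    · rintro ⟨⟨k', g, hk', hg, hg0, hs⟩, hle⟩
      subst hk'
      refine ⟨g, hg, hg0, ?_, hs⟩
      rw [hs] at hle
      exact (key g hg hg0).1 hle
    · rintro ⟨g, hg, hg0, hd, hs⟩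
      refine ⟨⟨_, g, rfl, hg, hg0, hs⟩, ?_⟩
      rw [hs]
      exact (key g hg hg0).2 hd
  unfold secDim
  rw [hset]
  split_ifs with hle
  · have hspan : Submodule.span ℂ {s : K | ∃ g : Δ.R, g ∈ Δ.hm (Δ.q * k) ∧ g ≠ 0 ∧
        Δ.x0 ^ c ∣ g ∧ s = dh h g} = (Δ.hm (Δ.q * k - c)).map (dh h).toLinearMap := by
      apply le_antisymm
      · rw [Submodule.span_le]
        rintro s ⟨g, hg, hg0, ⟨g', rfl⟩, rfl⟩
        have hg'0 : g' ≠ 0 := right_ne_zero_of_mul hg0
        obtain ⟨d1, d2, hd, h1, h2⟩ := hgr.factor hdom _ _ _ (pow_ne_zero c hx0) hg'0 hg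
        have h3 := deg_unique hgr h1 (x0_pow_mem hgr c) (pow_ne_zero c hx0)
        refine ⟨g', ?_, ?_⟩
        · rw [SetLike.mem_coe, show Δ.q * k - c = d2 by omega]
          exact h2
        · show dh h g' = dh h (Δ.x0 ^ c * g')
          rw [map_mul, dh_x0_pow, one_mul]
      · rintro s ⟨g, hg, rfl⟩
        by_cases hg0 : g = 0
        · rw [hg0, map_zero]
          exact Submodule.zero_mem _
        · apply Submodule.subset_span
          refine ⟨Δ.x0 ^ c * g, ?_, mul_ne_zero (pow_ne_zero c hx0) hg0, dvd_mul_right _ _, ?_⟩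
          · have := hgr.mul _ _ _ _ (x0_pow_mem hgr c) hg
            rwa [show c + (Δ.q * k - c) = Δ.q * k by omega] at this
          · show dh h g = dh h (Δ.x0 ^ c * g)
            rw [map_mul, dh_x0_pow, one_mul]
    rw [hspan, ← LinearMap.range_domRestrict]
    apply LinearMap.finrank_range_of_inj
    rw [← LinearMap.ker_eq_bot, LinearMap.ker_eq_bot']
    rintro ⟨g, hg⟩ h0
    exact Subtype.ext (hF.inj _ g hg h0)
  · have hspan : {s : K | ∃ g : Δ.R, g ∈ Δ.hm (Δ.q * k) ∧ g ≠ 0 ∧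
        Δ.x0 ^ c ∣ g ∧ s = dh h g} = ∅ := by
      ext s
      simp only [Set.mem_ofPred_eq, Set.mem_empty_iff_false, iff_false]
      rintro ⟨g, hg, hg0, ⟨g', rfl⟩, -⟩
      have hg'0 : g' ≠ 0 := right_ne_zero_of_mul hg0
      obtain ⟨d1, d2, hd, h1, h2⟩ := hgr.factor hdom _ _ _ (pow_ne_zero c hx0) hg'0 hg
      have h3 := deg_unique hgr h1 (x0_pow_mem hgr c) (pow_ne_zero c hx0)
      omega
    rw [hspan, Submodule.span_empty, finrank_bot]

end

end Pool.Agent.Lib.MPa7508c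
end

section
/-!
# KUN: the hypersurface is not K-stable
-/
set_option autoImplicit false

namespace Pool.Agent.Lib.MPa7508c

open MvPolynomial

noncomputable section

open WqcM SdimM in
theorem specKUN (hORD : SpecORD) (hHIL : SpecHIL) (hLIM : SpecLIM) (hSDIM : SpecSDIM)
    (hRNG : SpecRNG) (hGR : SpecGR) (hDIVX : SpecDIVX)
    (hDD0 : SpecDD0) (hOMD : SpecOMD) (hPULL : SpecPULL) (hLDD : SpecLDD) : SpecKUN := by
  intro m Δ hm hG hNum K _ _ x h hK
  have hR := hRNG m Δ hm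
  have hdom := hR.dom
  have hgr := gr hGR Δ
  obtain ⟨hrep, hlog⟩ := hLDD m Δ hm hG K x h
  obtain ⟨F, hD⟩ := (hDIVX m Δ hm K x h).1 Δ.x0 1 (x0_mem Δ) hR.x0prime
  obtain ⟨hdiv, hg0, -⟩ := hDD0 m Δ hm K x h F Δ.x0 1 hD dvd_rfl
  have homd := hOMD m Δ hm K x h F Δ.x0 1 hD dvd_rfl
  obtain ⟨hprime, -⟩ := (hDIVX m Δ hm K x h).2 F Δ.x0 1 hD
  have hO := hORD K F hprime.1
  have hLD : LD Δ x F = 1 := by
    unfold LD
    rw [homd, hg0]
    push_cast
    ring
  have hA : HasLogDisc (locs Δ x) (omega Δ x) F 1 := (hlog F hdiv 1).2 hLD.symm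
  have hrk := rep_mul hR hgr h hrep 1
  have hrk' : IsRep h (fun F => - canDiv (omega Δ x) F) (Δ.q * 1) 0 (Δ.x0 ^ (Δ.q * 1)) 1 := by
    have h1 : (fun F => ((1 : ℕ) : ℤ) * (- canDiv (omega Δ x) F)) =
        (fun F => - canDiv (omega Δ x) F) := by
      funext F
      push_cast
      ring
    rwa [h1] at hrk
  have hc : HasPull (locs Δ x) (fun F => - canDiv (omega Δ x) F) F (Δ.q : ℚ) := by
    rw [hPULL m Δ hm hG K x h _ _ _ _ _ hrk' F hdiv]
    unfold hv
    rw [dh_x0_pow, map_one, hg0, ord_one hO]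
    push_cast
    ring
  have hlt := hK F hdiv 1 (Δ.q : ℚ) hA hc
  obtain ⟨c₁, c₂, hc1, hH⟩ := hHIL m Δ hm
  have hq : m + 2 ≤ Δ.q := hNum.index
  obtain ⟨hV0, hint⟩ := hLIM (m + 1) Δ.q (fun N => Module.finrank ℂ (Δ.hm N)) c₁ c₂
    (Nat.succ_pos m) (by omega) hc1 hH
    (fun t => vol (locs Δ x) (m + 1) (fun F => - canDiv (omega Δ x) F) F (Δ.q : ℚ) t) (by
      intro t
      show vol (locs Δ x) (m + 1) (fun F => - canDiv (omega Δ x) F) F (Δ.q : ℚ) t = _
      unfold vol
      congr 1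
      funext k
      rw [hSDIM m Δ hm hG K x h F Δ.x0 1 hD dvd_rfl t k])
  rw [hint, one_div, inv_mul_cancel_left₀ hV0.ne'] at hlt
  have h2 : (1 : ℝ) ≤ (Δ.q : ℝ) / (((m + 1 : ℕ) : ℝ) + 1) := by
    rw [le_div_iff₀ (by positivity)]
    have : ((m + 2 : ℕ) : ℝ) ≤ Δ.q := by exact_mod_cast hq
    push_cast at this ⊢
    linarith
  push_cast at hlt h2
  linarith

end

end Pool.Agent.Lib.MPa7508c
end

section
/-!
# RNG: ring theoretic facts on the coordinate ring
-/
set_option autoImplicit false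

namespace Pool.Agent.Lib.MPa7508c

open MvPolynomial

noncomputable section

namespace RngM

variable {σ : Type} [Fintype σ]

open Classical in
/-- set the variable `X i` to `0` -/
def kill (i : σ) : MvPolynomial σ ℂ →ₐ[ℂ] MvPolynomial {j : σ // j ≠ i} ℂ :=
  aeval (fun j => if h : j ≠ i then X ⟨j, h⟩ else 0)

omit [Fintype σ] in
theorem kill_self (i : σ) : kill i (X i) = 0 := by
  simp [kill]

omit [Fintype σ] in
theorem kill_ne (i j : σ) (h : j ≠ i) : kill i (X j) = X ⟨j, h⟩ := by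
  simp [kill, h]

omit [Fintype σ] in
theorem kill_rename (i : σ) (Q : MvPolynomial {j : σ // j ≠ i} ℂ) :
    kill i (rename Subtype.val Q) = Q := by
  have : (kill i).comp (rename Subtype.val) = AlgHom.id ℂ _ := by
    apply MvPolynomial.algHom_ext
    rintro ⟨j, hj⟩
    simp [kill_ne i j hj]
  exact DFunLike.congr_fun this Q

omit [Fintype σ] in
theorem X_dvd_sub (i : σ) (P : MvPolynomial σ ℂ) :
    X i ∣ P - rename Subtype.val (kill i P) := by
  induction P using MvPolynomial.induction_on with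
  | C a => simp
  | add p q hp hq =>
    rw [map_add, map_add]
    have : p + q - (rename Subtype.val (kill i p) + rename Subtype.val (kill i q)) =
      (p - rename Subtype.val (kill i p)) + (q - rename Subtype.val (kill i q)) := by ring
    rw [this]
    exact dvd_add hp hq
  | mul_X p j hp =>
    rw [map_mul, map_mul]
    have : p * X j - rename Subtype.val (kill i p) * rename Subtype.val (kill i (X j)) =
      (p - rename Subtype.val (kill i p)) * X j +
        rename Subtype.val (kill i p) * (X j - rename Subtype.val (kill i (X j))) := by ring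
    rw [this]
    refine dvd_add (Dvd.dvd.mul_right hp _) (Dvd.dvd.mul_left ?_ _)
    by_cases hj : j = i
    · subst hj
      rw [kill_self, map_zero, sub_zero]
    · rw [kill_ne i j hj, rename_X, sub_self]
      exact dvd_zero _

theorem fp_split [DecidableEq σ] (i : σ) (b : σ → ℕ) :
    fp σ b = X i ^ b i + rename Subtype.val (fp {j : σ // j ≠ i} (fun j => b j)) := by
  simp only [fp, map_sum, map_pow, rename_X]
  exact Fintype.sum_eq_add_sum_subtype_ne _ i

theorem kill_fp [DecidableEq σ] (i : σ) (b : σ → ℕ) (hb : b i ≠ 0) :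
    kill i (fp σ b) = fp {j : σ // j ≠ i} (fun j => b j) := by
  rw [fp_split i b, map_add, map_pow, kill_self, kill_rename, zero_pow hb, zero_add]

theorem mk_eq_zero {b : σ → ℕ} {P : MvPolynomial σ ℂ} : mkF b P = 0 ↔ fp σ b ∣ P := by
  rw [← Ideal.mem_span_singleton]
  exact Ideal.Quotient.eq_zero_iff_mem

theorem mk_surj (b : σ → ℕ) (r : FR σ b) : ∃ P, mkF b P = r :=
  Ideal.Quotient.mkₐ_surjective ℂ _ r

theorem dvd_iff' {b : σ → ℕ} {P Q : MvPolynomial σ ℂ} :
    mkF b P ∣ mkF b Q ↔ ∃ A, fp σ b ∣ Q - P * A := by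
  constructor
  · rintro ⟨r, hr⟩
    obtain ⟨A, rfl⟩ := mk_surj b r
    refine ⟨A, ?_⟩
    rw [← mk_eq_zero, map_sub, map_mul, hr, sub_self]
  · rintro ⟨A, hA⟩
    rw [← mk_eq_zero, map_sub, map_mul, sub_eq_zero] at hA
    exact ⟨mkF b A, hA⟩

/-- `R / x_i` is the Fermat ring in the other variables -/
theorem dvd_iff [DecidableEq σ] (i : σ) (b : σ → ℕ) (hb : b i ≠ 0) (P : MvPolynomial σ ℂ) :
    mkF b (X i) ∣ mkF b P ↔ fp {j : σ // j ≠ i} (fun j => b j) ∣ kill i P := by
  rw [dvd_iff']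
  constructor
  · rintro ⟨A, B, hB⟩
    have h1 : P = X i * A + fp σ b * B := by rw [← hB]; ring
    rw [h1, map_add, map_mul, kill_self, zero_mul, zero_add, map_mul, kill_fp i b hb]
    exact dvd_mul_right _ _
  · rintro ⟨C, hC⟩
    obtain ⟨D, hD⟩ := X_dvd_sub i P
    obtain ⟨n, hn⟩ := Nat.exists_eq_succ_of_ne_zero hb
    refine ⟨D - X i ^ n * rename Subtype.val C, rename Subtype.val C, ?_⟩
    have h1 : P = rename Subtype.val (kill i P) + X i * D := by rw [← hD]; ring
    have h2 : rename Subtype.val (fp {j : σ // j ≠ i} (fun j => b j)) = fp σ b - X i ^ b i := by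
      rw [fp_split i b]; ring
    rw [hC, map_mul, h2, hn] at h1
    rw [h1, Nat.succ_eq_add_one, pow_succ]
    ring

theorem exists_point (b : σ → ℕ) (hb : ∀ i, 2 ≤ b i) (i j : σ) (hij : i ≠ j) :
    ∃ p : σ → ℂ, p i = 1 ∧ (∀ k, k ≠ i → k ≠ j → p k = 0) ∧ eval p (fp σ b) = 0 := by
  classical
  have hbj := hb j
  obtain ⟨y, hy⟩ := IsAlgClosed.exists_pow_nat_eq (-1 : ℂ) (by omega : 0 < b j)
  refine ⟨fun k => if k = i then 1 else if k = j then y else 0, by simp, ?_, ?_⟩
  · intro k h1 h2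
    simp [h1, h2]
  · have h1 : eval (fun k => if k = i then (1 : ℂ) else if k = j then y else 0) (fp σ b) =
      ∑ k, (if k = i then (1 : ℂ) else if k = j then y else 0) ^ b k := by
      simp [fp]
    rw [h1, Fintype.sum_eq_add i j hij]
    · rw [if_pos rfl, if_neg hij.symm, if_pos rfl, one_pow, hy]
      ring
    · rintro k ⟨hk1, hk2⟩
      rw [if_neg hk1, if_neg hk2]
      have := hb k
      exact zero_pow (by omega)

theorem mk_X_ne_zero (b : σ → ℕ) (hb : ∀ i, 2 ≤ b i) (i j : σ) (hij : i ≠ j) :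
    mkF b (X i) ≠ 0 := by
  intro h
  obtain ⟨A, hA⟩ := mk_eq_zero.mp h
  obtain ⟨p, h1, _, h3⟩ := exists_point b hb i j hij
  have := congrArg (eval p) hA
  rw [map_mul, h3, zero_mul, eval_X, h1] at this
  exact one_ne_zero this

theorem exists_third (i k : σ) (hc : 3 ≤ Fintype.card σ) : ∃ j, i ≠ j ∧ k ≠ j := by
  classical
  by_contra hcon
  push Not at hcon
  have h1 : (Finset.univ : Finset σ) ⊆ {i, k} := by
    intro j _
    rw [Finset.mem_insert, Finset.mem_singleton]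
    by_cases h : i = j
    · exact Or.inl h.symm
    · exact Or.inr (hcon j h).symm
  have h2 := Finset.card_le_card h1
  have h3 := Finset.card_le_two (a := i) (b := k)
  rw [Finset.card_univ] at h2
  omega

theorem not_dvd (b : σ → ℕ) (hb : ∀ i, 2 ≤ b i) (hc : 3 ≤ Fintype.card σ) (i k : σ)
    (hik : i ≠ k) : ¬ mkF b (X k) ∣ mkF b (X i) := by
  intro h
  obtain ⟨A, B, hA⟩ := dvd_iff'.mp h
  obtain ⟨j, h1, h2⟩ := exists_third i k hc
  obtain ⟨p, h3, h4, h5⟩ := exists_point b hb i j h1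
  have := congrArg (eval p) hA
  rw [map_sub, map_mul, map_mul, h5, zero_mul, eval_X, eval_X, h3, h4 k hik.symm h2, zero_mul,
    sub_zero] at this
  exact one_ne_zero this

theorem prime_X (hIRR : SpecIRR) (b : σ → ℕ) (hb : ∀ i, 2 ≤ b i) (hc : 4 ≤ Fintype.card σ)
    (i : σ) : Prime (mkF b (X i)) := by
  classical
  have hbi := hb i
  have hcard : 3 ≤ Fintype.card {j : σ // j ≠ i} := by
    have : Fintype.card {j : σ // j ≠ i} = Fintype.card σ - 1 := by
      rw [Fintype.card_subtype_compl, Fintype.card_subtype_eq]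
    omega
  have hprime : Prime (fp {j : σ // j ≠ i} (fun j => b j)) := hIRR _ _ hcard (fun j => hb j)
  obtain ⟨j, hij, _⟩ := exists_third i i (by omega)
  refine ⟨mk_X_ne_zero b hb i j hij, ?_, ?_⟩
  · intro hu
    have h1 : mkF b (X i) ∣ mkF b 1 := by
      rw [map_one]
      exact hu.dvd
    rw [dvd_iff i b (by omega), map_one] at h1
    exact hprime.not_isUnit (isUnit_of_dvd_one h1)
  · intro r s hrs
    obtain ⟨P, rfl⟩ := mk_surj b r
    obtain ⟨Q, rfl⟩ := mk_surj b s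
    rw [← map_mul, dvd_iff i b (by omega), map_mul] at hrs
    rw [dvd_iff i b (by omega), dvd_iff i b (by omega)]
    exact hprime.dvd_or_dvd hrs

theorem dom (hIRR : SpecIRR) (b : σ → ℕ) (hb : ∀ i, 2 ≤ b i) (hc : 3 ≤ Fintype.card σ) :
    IsDomain (FR σ b) := by
  have hprime : Prime (fp σ b) := hIRR _ _ hc hb
  have : (Ideal.span {fp σ b}).IsPrime := (Ideal.span_singleton_prime hprime.ne_zero).mpr hprime
  exact Ideal.Quotient.isDomain _

theorem free {m : ℕ} (Δ : Dat m) (j : Fin (m + 2))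
    (P : MvPolynomial (Option (Fin (m + 2))) ℂ) (hj : some j ∉ P.vars)
    (α : Option (Fin (m + 2)) →₀ ℕ) (hα : α none = 0) (hP : coeff α P ≠ 0) :
    ¬ Δ.x0 ∣ mkF Δ.b P := by
  classical
  intro hdvd
  obtain ⟨A, B, hA⟩ := dvd_iff'.mp hdvd
  -- `P` vanishes at all points with `X none = 0`
  have key : ∀ y : Option (Fin (m + 2)) → ℂ, y none = 0 → eval y P = 0 := by
    intro y hy
    have ha : 0 < Δ.a j := by
      have := Δ.wt.two_le j
      omega
    obtain ⟨t, ht⟩ := IsAlgClosed.exists_pow_nat_eq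
      (-∑ o : {o : Option (Fin (m + 2)) // o ≠ some j}, y o ^ Δ.b o) ha
    set y' : Option (Fin (m + 2)) → ℂ := Function.update y (some j) t with hy'
    have hy0 : y' none = 0 := by
      rw [hy', Function.update_of_ne (by simp), hy]
    have hf : eval y' (fp _ Δ.b) = 0 := by
      have h1 : eval y' (fp _ Δ.b) = ∑ o, y' o ^ Δ.b o := by simp [fp]
      rw [h1, Fintype.sum_eq_add_sum_subtype_ne _ (some j)]
      have h2 : y' (some j) = t := by rw [hy', Function.update_self]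
      have h3 : Δ.b (some j) = Δ.a j := rfl
      rw [h2, h3, ht]
      have h4 : ∑ o : {o : Option (Fin (m + 2)) // o ≠ some j}, y' o ^ Δ.b o =
          ∑ o : {o : Option (Fin (m + 2)) // o ≠ some j}, y o ^ Δ.b o := by
        apply Finset.sum_congr rfl
        rintro ⟨o, ho⟩ _
        rw [hy', Function.update_of_ne ho]
      rw [h4]
      ring
    have hPy : eval y' P = eval y P := by
      apply eval₂Hom_congr' rfl _ rfl
      intro o ho _
      have : o ≠ some j := fun h => hj (h ▸ ho)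
      rw [hy', Function.update_of_ne this]
    have h1 := congrArg (eval y') hA
    rw [map_sub, map_mul, map_mul, hf, zero_mul, eval_X, hy0, zero_mul, sub_zero] at h1
    rw [← hPy, h1]
  have hkill : kill none P = 0 := by
    apply MvPolynomial.funext
    intro z
    rw [map_zero]
    have h1 : eval z (kill none P) =
        eval (fun o => if h : o ≠ none then z ⟨o, h⟩ else 0) P := by
      have : (aeval z : MvPolynomial {o : Option (Fin (m + 2)) // o ≠ none} ℂ →ₐ[ℂ] ℂ).comp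
          (kill none) = aeval (fun o => if h : o ≠ none then z ⟨o, h⟩ else 0) := by
        apply MvPolynomial.algHom_ext
        intro o
        by_cases h : o = none
        · subst h
          simp [kill_self]
        · simp [kill_ne none o h, h]
      have h2 := DFunLike.congr_fun this P
      simpa [aeval_eq_eval] using h2
    rw [h1]
    apply key
    simp
  obtain ⟨D, hD⟩ := X_dvd_sub none P
  rw [hkill, map_zero, sub_zero] at hD
  apply hP
  rw [hD, coeff_X_mul', if_neg]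
  rw [Finsupp.mem_support_iff, not_not]
  exact hα

theorem mult_le' {A : Type} [CommRing A] [IsDomain A] [IsNoetherianRing A] (p r : A) (k : ℕ)
    (hp : Prime p) (hr : r ≠ 0) : k ≤ mult p r ↔ p ^ k ∣ r := by
  have hf : FiniteMultiplicity p r := FiniteMultiplicity.of_prime_left hp hr
  rw [mult, hf.emultiplicity_eq_multiplicity, ENat.toNat_natCast, hf.pow_dvd_iff_le_multiplicity]

theorem mult_mul' {A : Type} [CommRing A] [IsDomain A] [IsNoetherianRing A] (p r s : A)
    (hp : Prime p) (hr : r ≠ 0) (hs : s ≠ 0) : mult p (r * s) = mult p r + mult p s := by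
  have hf : FiniteMultiplicity p r := FiniteMultiplicity.of_prime_left hp hr
  have hg : FiniteMultiplicity p s := FiniteMultiplicity.of_prime_left hp hs
  rw [mult, mult, mult, emultiplicity_mul hp, ENat.toNat_add]
  · exact finiteMultiplicity_iff_emultiplicity_ne_top.mp hf
  · exact finiteMultiplicity_iff_emultiplicity_ne_top.mp hg

theorem two_le_b {m : ℕ} (Δ : Dat m) (o : Option (Fin (m + 2))) : 2 ≤ Δ.b o := by
  cases o with
  | none => exact Δ.two_le_L
  | some i => exact Δ.wt.two_le i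

theorem card_opt (m : ℕ) : Fintype.card (Option (Fin (m + 2))) = m + 3 := by
  rw [Fintype.card_option, Fintype.card_fin]

end RngM

theorem specRNG (hIRR : SpecIRR) : SpecRNG := by
  intro m Δ hm
  have hb := RngM.two_le_b Δ
  have hc := RngM.card_opt m
  have hdom : IsDomain Δ.R := RngM.dom hIRR Δ.b hb (by omega)
  have hnoeth : IsNoetherianRing Δ.R := inferInstance
  exact
  { dom := hdom
    x0prime := RngM.prime_X hIRR Δ.b hb (by omega) none
    xprime := fun i => RngM.prime_X hIRR Δ.b hb (by omega) (some i)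
    x0x := fun i => RngM.not_dvd Δ.b hb (by omega) (some i) none (by simp)
    xx0 := fun i => RngM.not_dvd Δ.b hb (by omega) none (some i) (by simp)
    xx := fun i j hij => RngM.not_dvd Δ.b hb (by omega) (some j) (some i)
      (by simpa using hij.symm)
    free := fun j P hj ⟨α, h0, hα⟩ => RngM.free Δ j P hj α h0 hα
    mult_mul := fun p r s hp hr hs => RngM.mult_mul' p r s hp hr hs
    mult_le := fun p r k hp hr => RngM.mult_le' p r k hp hr }

end

end Pool.Agent.Lib.MPa7508c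
end

section
/-!
# LEF: the graded Lefschetz theorem, conclusion
-/
set_option autoImplicit false

namespace Pool.Agent.Lib.MPa7508c

open MvPolynomial

noncomputable section

namespace LefM

section

variable {σ : Type} [Fintype σ] {b w : σ → ℕ} {b0 w0 L : ℕ}
  {𝔓 : Ideal (MvPolynomial (Option σ) ℂ)}

omit [Fintype σ] in
theorem wtσ (hW : Wt (ob b0 b) (ob w0 w) L) : Wt b w L :=
  ⟨fun i => hW.mul (some i), fun i => hW.two_le (some i), fun i => hW.pos (some i)⟩

/-- one step of the induction, without degrees -/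
theorem step0 (hP : HP b w b0 w0 𝔓) (hb0 : b0 ≠ 0) (hU : GrUFD b w) (hBETA : SpecBETA)
    (hW : Wt b w L) (hcard : 4 ≤ Fintype.card σ) {e k : ℕ} {g : FR σ b} (hg : g ∈ hom b w e)
    (hg0 : g ≠ 0) (hdiv : ∀ P ∈ 𝔓, g ∣ mkF b (ph σ P))
    (hpow : ∀ i : σ, ∃ P ∈ 𝔓, mkF b (ph σ P) = mkF b (X i) ^ k * g)
    (N n : ℕ) (hn : 1 ≤ n) (P : MvPolynomial (Option σ) ℂ)
    (h : ∀ i : σ, ∃ Q : MvPolynomial (Option σ) ℂ,
      X (some i) ^ n * P - X none ^ N * Q ∈ 𝔓) :
    ∃ S : MvPolynomial (Option σ) ℂ, ∀ i : σ, ∃ Q : MvPolynomial (Option σ) ℂ,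
      X (some i) ^ (n + k) * (P - X none ^ N * S) - X none ^ (N + 1) * Q ∈ 𝔓 := by
  have hprime := hP.prime
  choose Q hQ using h
  have hxN : (X none : MvPolynomial (Option σ) ℂ) ^ N ∉ 𝔓 := fun h =>
    hP.x (hprime.mem_of_pow_mem N h)
  have h1 : ∀ i j : σ, g ∣ mkF b (X j) ^ n * mkF b (ph σ (Q i)) -
      mkF b (X i) ^ n * mkF b (ph σ (Q j)) := by
    intro i j
    have h2 : X none ^ N * (X (some j) ^ n * Q i - X (some i) ^ n * Q j) ∈ 𝔓 := by
      have : X none ^ N * (X (some j) ^ n * Q i - X (some i) ^ n * Q j) =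
          X (some i) ^ n * (X (some j) ^ n * P - X none ^ N * Q j) -
          X (some j) ^ n * (X (some i) ^ n * P - X none ^ N * Q i) := by ring
      rw [this]
      exact Ideal.sub_mem _ (Ideal.mul_mem_left _ _ (hQ j)) (Ideal.mul_mem_left _ _ (hQ i))
    have h3 := (hprime.mem_or_mem h2).resolve_left hxN
    have h4 := hdiv _ h3
    simpa only [map_sub, map_mul, map_pow, ph_some] using h4
  obtain ⟨s, hs⟩ := hBETA σ b w L hW hcard hU e g hg hg0 n hn (fun i => mkF b (ph σ (Q i)))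
    h1
  obtain ⟨s0, rfl⟩ := GrM.mk_surj s
  refine ⟨rename some s0, fun i => ?_⟩
  obtain ⟨t, ht⟩ := hs i
  obtain ⟨t0, rfl⟩ := GrM.mk_surj t
  obtain ⟨P1, hP1, hP1'⟩ := hpow i
  have h5 : mkF b (ph σ (X (some i) ^ k * (Q i - X (some i) ^ n * rename some s0) -
      P1 * rename some t0)) = 0 := by
    simp only [map_sub, map_mul, map_pow, ph_some, ph_rename]
    have h6 : mkF b (ph σ (Q i)) - mkF b (X i) ^ n * mkF b s0 = g * mkF b t0 := ht
    rw [h6, hP1']
    ring
  obtain ⟨U, V, hUV⟩ := (ker_ph b b0 hb0 _).1 h5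
  refine ⟨V, ?_⟩
  have h7 : X (some i) ^ (n + k) * (P - X none ^ N * rename some s0) - X none ^ (N + 1) * V =
      X (some i) ^ k * (X (some i) ^ n * P - X none ^ N * Q i) +
      X none ^ N * (fp (Option σ) (ob b0 b) * U + P1 * rename some t0) := by
    have h8 : X none * V = X (some i) ^ k * (Q i - X (some i) ^ n * rename some s0) -
      P1 * rename some t0 - fp (Option σ) (ob b0 b) * U := by rw [hUV]; ring
    have h9 : X none ^ (N + 1) * V = X none ^ N * (X none * V) := by ring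
    rw [h9, h8]
    ring
  rw [h7]
  exact Ideal.add_mem _ (Ideal.mul_mem_left _ _ (hQ i)) (Ideal.mul_mem_left _ _
    (Ideal.add_mem _ (Ideal.mul_mem_right _ _ hP.fmem) (Ideal.mul_mem_right _ _ hP1)))

omit [Fintype σ] in
theorem X_homog (o : Option σ) : IsWeightedHomogeneous (ob w0 w)
    (X o : MvPolynomial (Option σ) ℂ) (ob w0 w o) := isWeightedHomogeneous_X ℂ _ o

/-- one step of the induction, with degrees -/
theorem step (hP : HP b w b0 w0 𝔓) (hb0 : b0 ≠ 0) (hU : GrUFD b w) (hBETA : SpecBETA)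
    (hW : Wt b w L) (hcard : 4 ≤ Fintype.card σ) {e k : ℕ} {g : FR σ b} (hg : g ∈ hom b w e)
    (hg0 : g ≠ 0) (hdiv : ∀ P ∈ 𝔓, g ∣ mkF b (ph σ P))
    (hpow : ∀ i : σ, ∃ P ∈ 𝔓, mkF b (ph σ P) = mkF b (X i) ^ k * g)
    (N n d : ℕ) (hn : 1 ≤ n) (P : MvPolynomial (Option σ) ℂ)
    (hPd : IsWeightedHomogeneous (ob w0 w) P d) (hd : N * w0 ≤ d)
    (h : ∀ i : σ, ∃ Q : MvPolynomial (Option σ) ℂ,
      X (some i) ^ n * P - X none ^ N * Q ∈ 𝔓) :
    ∃ S : MvPolynomial (Option σ) ℂ,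
      IsWeightedHomogeneous (ob w0 w) (P - X none ^ N * S) d ∧
      ∀ i : σ, ∃ Q : MvPolynomial (Option σ) ℂ,
      X (some i) ^ (n + k) * (P - X none ^ N * S) - X none ^ (N + 1) * Q ∈ 𝔓 := by
  obtain ⟨S, hS⟩ := step0 hP hb0 hU hBETA hW hcard hg hg0 hdiv hpow N n hn P h
  have hx : ∀ M : ℕ, IsWeightedHomogeneous (ob w0 w)
      ((X none : MvPolynomial (Option σ) ℂ) ^ M) (M * w0) := by
    intro M
    have := (X_homog (w := w) (w0 := w0) (none : Option σ)).pow M
    simpa [ob, smul_eq_mul] using this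
  set S' := weightedHomogeneousComponent (ob w0 w) (d - N * w0) S with hS'
  have hS'h : IsWeightedHomogeneous (ob w0 w) S' (d - N * w0) :=
    weightedHomogeneousComponent_isWeightedHomogeneous _ _
  have hxS : IsWeightedHomogeneous (ob w0 w) (X none ^ N * S') d := by
    have := (hx N).mul hS'h
    rwa [Nat.add_sub_cancel' hd] at this
  refine ⟨S', hPd.sub hxS, fun i => ?_⟩
  obtain ⟨Q, hQ⟩ := hS i
  have hXi : IsWeightedHomogeneous (ob w0 w)
      ((X (some i) : MvPolynomial (Option σ) ℂ) ^ (n + k)) ((n + k) * w i) := by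
    have := (X_homog (w := w) (w0 := w0) (some i)).pow (n + k)
    simpa [ob, smul_eq_mul] using this
  have h1 := hP.homog _ hQ ((n + k) * w i + d)
  obtain ⟨Q', hQ', -⟩ := comp_mul (hx (N + 1)) Q ((n + k) * w i + d)
  refine ⟨Q', ?_⟩
  have h2 : weightedHomogeneousComponent (ob w0 w) ((n + k) * w i + d)
      (X (some i) ^ (n + k) * (P - X none ^ N * S) - X none ^ (N + 1) * Q) =
      X (some i) ^ (n + k) * (P - X none ^ N * S') - X none ^ (N + 1) * Q' := by
    rw [map_sub, hQ', comp_mul_le hXi (Nat.le_add_right _ _), Nat.add_sub_cancel_left, map_sub,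
      hPd.weightedHomogeneousComponent_same, comp_mul_le (hx N) hd]
  rw [← h2]
  exact h1

/-- `W_e = V_e` -/
theorem claim (hP : HP b w b0 w0 𝔓) (hW' : Wt (ob b0 b) (ob w0 w) L) [DecidableEq σ]
    (hLFB : SpecLFB) (hU : GrUFD b w) (hBETA : SpecBETA)
    (hcard : 4 ≤ Fintype.card σ) {e k : ℕ} {g : FR σ b} (hg : g ∈ hom b w e)
    (hg0 : g ≠ 0) (hdiv : ∀ P ∈ 𝔓, g ∣ mkF b (ph σ P))
    (hpow : ∀ i : σ, ∃ P ∈ 𝔓, mkF b (ph σ P) = mkF b (X i) ^ k * g) :
    ∀ (m N n d : ℕ), 1 ≤ n → ∀ (P : MvPolynomial (Option σ) ℂ),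
    IsWeightedHomogeneous (ob w0 w) P d → d < N * w0 + m →
    (∀ i : σ, ∃ Q : MvPolynomial (Option σ) ℂ, X (some i) ^ n * P - X none ^ N * Q ∈ 𝔓) →
    ∃ Q, P - X none ^ N * Q ∈ 𝔓 := by
  have hb0 : b0 ≠ 0 := by
    have := hW'.two_le none
    simp only [ob, Option.elim_none] at this
    omega
  have hw0 : 0 < w0 := hW'.pos none
  intro m
  induction m with
  | zero =>
    intro N n d hn P hPd hd h
    refine ⟨0, ?_⟩
    rw [mul_zero, sub_zero]
    exact hLFB σ b w b0 w0 L hW' hcard 𝔓 hP N d n P hPd (by omega) h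
  | succ m ih =>
    intro N n d hn P hPd hd h
    by_cases hdN : d < N * w0
    · refine ⟨0, ?_⟩
      rw [mul_zero, sub_zero]
      exact hLFB σ b w b0 w0 L hW' hcard 𝔓 hP N d n P hPd hdN h
    · obtain ⟨S, hS1, hS2⟩ := step hP hb0 hU hBETA (wtσ hW') hcard hg hg0 hdiv hpow N n d hn P
        hPd (not_lt.1 hdN) h
      have h3 : (N + 1) * w0 = N * w0 + w0 := by ring
      obtain ⟨Q, hQ⟩ := ih (N + 1) (n + k) d (by omega) _ hS1 (by omega) hS2
      refine ⟨S + X none * Q, ?_⟩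
      have h4 : P - X none ^ N * (S + X none * Q) =
          P - X none ^ N * S - X none ^ (N + 1) * Q := by ring
      rw [h4]
      exact hQ

/-- a prime ideal generated by `fp` and one more element -/
theorem prime_of_span {τ : Type} [Fintype τ] {β : τ → ℕ} {𝔮 : Ideal (MvPolynomial τ ℂ)}
    (h : 𝔮.IsPrime) {G : MvPolynomial τ ℂ}
    (hG : ∀ P, P ∈ 𝔮 ↔ ∃ U V, P = fp τ β * U + G * V)
    (h0 : mkF β G ≠ 0) : Prime (mkF β G) := by
  have hdvd : ∀ P, P ∈ 𝔮 ↔ mkF β G ∣ mkF β P := by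
    intro P
    rw [hG]
    constructor
    · rintro ⟨U, V, rfl⟩
      refine ⟨mkF β V, ?_⟩
      have : mkF β (fp τ β) = 0 := GrM.mk_eq_zero.2 (Ideal.mem_span_singleton_self _)
      rw [map_add, map_mul, map_mul, this, zero_mul, zero_add]
    · rintro ⟨r, hr⟩
      obtain ⟨V, rfl⟩ := GrM.mk_surj r
      have h1 : mkF β (P - G * V) = 0 := by rw [map_sub, map_mul, hr, sub_self]
      rw [GrM.mk_eq_zero, Ideal.mem_span_singleton] at h1
      obtain ⟨U, hU⟩ := h1
      exact ⟨U, V, by rw [← hU]; ring⟩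
  refine ⟨h0, ?_, ?_⟩
  · intro hu
    apply h.ne_top
    rw [Ideal.eq_top_iff_one, hdvd]
    exact hu.dvd
  · intro r s hrs
    obtain ⟨P, rfl⟩ := GrM.mk_surj r
    obtain ⟨Q, rfl⟩ := GrM.mk_surj s
    rw [← hdvd, ← hdvd]
    rw [← map_mul, ← hdvd] at hrs
    exact h.mem_or_mem hrs

/-- graded Nakayama -/
theorem gen (hP : HP b w b0 w0 𝔓) (hb0 : b0 ≠ 0) (hw0 : 0 < w0)
    {L : ℕ} (hW' : Wt (ob b0 b) (ob w0 w) L) {e : ℕ}
    {G : MvPolynomial (Option σ) ℂ} (hG : G ∈ 𝔓) (hGe : IsWeightedHomogeneous (ob w0 w) G e)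
    (hdiv : ∀ P ∈ 𝔓, mkF b (ph σ G) ∣ mkF b (ph σ P)) :
    ∀ P, P ∈ 𝔓 ↔ ∃ U V, P = fp (Option σ) (ob b0 b) * U + G * V := by
  have hprime := hP.prime
  have hf := GrM.fp_homog hW'
  have hx : IsWeightedHomogeneous (ob w0 w) (X none : MvPolynomial (Option σ) ℂ) w0 :=
    X_homog (w := w) (w0 := w0) (none : Option σ)
  have key : ∀ (m : ℕ) (P : MvPolynomial (Option σ) ℂ), P ∈ 𝔓 →
      IsWeightedHomogeneous (ob w0 w) P m →
      P ∈ Ideal.span {fp (Option σ) (ob b0 b), G} := by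
    intro m
    induction m using Nat.strong_induction_on with
    | _ m ih =>
      intro P hPm hm
      obtain ⟨t, ht⟩ := hdiv P hPm
      obtain ⟨t0, rfl⟩ := GrM.mk_surj t
      have h1 : mkF b (ph σ (P - G * rename some t0)) = 0 := by
        rw [map_sub, map_mul, ph_rename, map_sub, map_mul, ht, sub_self]
      obtain ⟨U, V, hUV⟩ := (ker_ph b b0 hb0 _).1 h1
      have hV : X none * V ∈ 𝔓 := by
        have : X none * V = P - G * rename some t0 - fp (Option σ) (ob b0 b) * U := by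
          rw [hUV]; ring
        rw [this]
        exact Ideal.sub_mem _ (Ideal.sub_mem _ hPm (Ideal.mul_mem_right _ _ hG))
          (Ideal.mul_mem_right _ _ hP.fmem)
      have hV' : V ∈ 𝔓 := (hprime.mem_or_mem hV).resolve_left hP.x
      obtain ⟨A1, hA1, -⟩ := comp_mul hGe (rename some t0) m
      obtain ⟨A2, hA2, -⟩ := comp_mul hf U m
      have h2 : P = G * A1 + (fp (Option σ) (ob b0 b) * A2 +
          weightedHomogeneousComponent (ob w0 w) m (X none * V)) := by
        have h3 : P = G * rename some t0 + (fp (Option σ) (ob b0 b) * U + X none * V) := by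
          rw [← hUV]; ring
        have h4 := congrArg (weightedHomogeneousComponent (ob w0 w) m) h3
        rw [hm.weightedHomogeneousComponent_same, map_add, map_add, hA1, hA2] at h4
        exact h4
      have h5 : weightedHomogeneousComponent (ob w0 w) m (X none * V) ∈
          Ideal.span {fp (Option σ) (ob b0 b), G} := by
        by_cases hmw : w0 ≤ m
        · rw [comp_mul_le hx hmw]
          apply Ideal.mul_mem_left
          exact ih (m - w0) (by omega) _ (hP.homog _ hV' _)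
            (weightedHomogeneousComponent_isWeightedHomogeneous _ _)
        · rw [comp_mul_lt hx (not_le.1 hmw)]
          exact Ideal.zero_mem _
      rw [h2]
      exact Ideal.add_mem _ (Ideal.mul_mem_right _ _ (Ideal.subset_span (by simp)))
        (Ideal.add_mem _ (Ideal.mul_mem_right _ _ (Ideal.subset_span (by simp))) h5)
  intro P
  constructor
  · intro hPP
    have h1 : P ∈ Ideal.span {fp (Option σ) (ob b0 b), G} := by
      rw [← finsum_weightedHomogeneousComponent (ob w0 w) P]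
      refine finsum_induction (fun Y => Y ∈ Ideal.span {fp (Option σ) (ob b0 b), G})
        (Ideal.zero_mem _) (fun x y hx hy => Ideal.add_mem _ hx hy) (fun m => ?_)
      exact key m _ (hP.homog _ hPP m) (weightedHomogeneousComponent_isWeightedHomogeneous _ _)
    rw [Ideal.mem_span_pair] at h1
    obtain ⟨U, V, h⟩ := h1
    exact ⟨U, V, by rw [← h]; ring⟩
  · rintro ⟨U, V, rfl⟩
    exact Ideal.add_mem _ (Ideal.mul_mem_right _ _ hP.fmem) (Ideal.mul_mem_right _ _ hG)

end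

end LefM

open LefM in
theorem specLEF (hLFA : SpecLFA) (hLFB : SpecLFB) (hLFC : SpecLFC) (hBETA : SpecBETA)
    (hIRR : SpecIRR) : SpecLEF := by
  intro σ _ _ b w b0 w0 L hW hcard hU
  have hW' : Wt (ob b0 b) (ob w0 w) L := hW
  change GrUFD (ob b0 b) (ob w0 w)
  have hb0 : b0 ≠ 0 := by
    have := hW'.two_le none
    simp only [ob, Option.elim_none] at this
    omega
  have hw0 : 0 < w0 := hW'.pos none
  intro d c hc hc0 hcu
  obtain ⟨C, hC, rfl⟩ := GrM.mem_hom.1 hc
  by_cases hx : mkF (ob b0 b) (X none) ∣ mkF (ob b0 b) C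
  · refine ⟨w0, mkF (ob b0 b) (X none), GrM.mk_mem_hom (X_homog none),
      RngM.prime_X hIRR (ob b0 b) hW'.two_le ?_ none, hx⟩
    rw [Fintype.card_option]
    omega
  · obtain ⟨𝔓, hP, hCP⟩ := hLFA σ b w b0 w0 L hW' hcard d C hC hcu hx
    have hC0 : mkF b (ph σ C) ≠ 0 := by
      rw [Ne, ker_iff_dvd b b0 hb0]
      exact hx
    obtain ⟨e, g, k, hg, hg0, hk, hdiv, hpow⟩ := hLFC σ b w b0 w0 L hW' hcard hU 𝔓 hP d C hC
      hCP hC0
    obtain ⟨G0, hG0, rfl⟩ := GrM.mem_hom.1 hg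
    have hGh : IsWeightedHomogeneous (ob w0 w) (rename some G0) e := rename_homog w0 hG0
    have h1 : ∀ i : σ, ∃ Q : MvPolynomial (Option σ) ℂ,
        X (some i) ^ k * rename some G0 - X none ^ 1 * Q ∈ 𝔓 := by
      intro i
      obtain ⟨P1, hP1, hP1'⟩ := hpow i
      have h2 : mkF b (ph σ (X (some i) ^ k * rename some G0 - P1)) = 0 := by
        rw [map_sub, map_mul, map_pow, ph_some, ph_rename, map_sub, map_mul, map_pow, hP1',
          sub_self]
      obtain ⟨U, V, hUV⟩ := (ker_ph b b0 hb0 _).1 h2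
      refine ⟨V, ?_⟩
      have h3 : X (some i) ^ k * rename some G0 - X none ^ 1 * V =
          P1 + fp (Option σ) (ob b0 b) * U := by
        have : X none ^ 1 * V = X (some i) ^ k * rename some G0 - P1 -
            fp (Option σ) (ob b0 b) * U := by rw [hUV]; ring
        rw [this]
        ring
      rw [h3]
      exact Ideal.add_mem _ hP1 (Ideal.mul_mem_right _ _ hP.fmem)
    obtain ⟨Q, hQ⟩ := claim hP hW' hLFB hU hBETA hcard hg hg0 hdiv hpow (e + 1) 1 k e hk _ hGh
      (by omega) h1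
    -- the homogeneous generator
    have hxh : IsWeightedHomogeneous (ob w0 w)
        ((X none : MvPolynomial (Option σ) ℂ) ^ 1) w0 := by
      rw [pow_one]
      exact X_homog (w := w) (w0 := w0) (none : Option σ)
    obtain ⟨Q', hQ', hQ''⟩ := comp_mul hxh Q e
    set G := rename some G0 - X none ^ 1 * Q' with hGdef
    have hGP : G ∈ 𝔓 := by
      have h2 := hP.homog _ hQ e
      rw [map_sub, hQ', hGh.weightedHomogeneousComponent_same] at h2
      exact h2
    have hGe : IsWeightedHomogeneous (ob w0 w) G e := by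
      apply hGh.sub
      rw [← hQ']
      exact weightedHomogeneousComponent_isWeightedHomogeneous _ _
    have hphG : mkF b (ph σ G) = mkF b G0 := by
      rw [hGdef, map_sub, map_mul, map_pow, ph_none, ph_rename, pow_one, zero_mul, sub_zero]
    have hgen := gen hP hb0 hw0 hW' hGP hGe (by
      intro P hPP
      rw [hphG]
      exact hdiv P hPP)
    have hG0' : mkF (ob b0 b) G ≠ 0 := by
      intro h2
      apply hg0
      rw [← hphG]
      rw [ker_iff_dvd b b0 hb0, h2]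
      exact dvd_zero _
    refine ⟨e, mkF (ob b0 b) G, GrM.mk_mem_hom hGe, prime_of_span hP.prime hgen hG0', ?_⟩
    obtain ⟨U, V, hUV⟩ := (hgen C).1 hCP
    refine ⟨mkF (ob b0 b) V, ?_⟩
    have : mkF (ob b0 b) (fp (Option σ) (ob b0 b)) = 0 :=
      GrM.mk_eq_zero.2 (Ideal.mem_span_singleton_self _)
    rw [hUV, map_add, map_mul, map_mul, this, zero_mul, zero_add]

end

end Pool.Agent.Lib.MPa7508c
end

section
/-!
# LFA: the homogeneous prime ideal
-/
set_option autoImplicit false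

namespace Pool.Agent.Lib.MPa7508c

open MvPolynomial

noncomputable section

attribute [local instance] MvPolynomial.weightedGradedAlgebra

open LefM in
theorem specLFA (hIRR : SpecIRR) : SpecLFA := by
  intro σ _ _ b w b0 w0 L hW hcard d C hC hu hx
  have hb0 : b0 ≠ 0 := by
    have := hW.two_le none
    simp only [ob, Option.elim_none] at this
    omega
  have hcard' : 3 ≤ Fintype.card (Option σ) := by
    rw [Fintype.card_option]; omega
  set f := fp (Option σ) (ob b0 b) with hf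
  have hfh : IsWeightedHomogeneous (ob w0 w) f L := GrM.fp_homog hW
  have hfp : Prime f := hIRR _ _ hcard' hW.two_le
  have hmkf : mkF (ob b0 b) f = 0 := GrM.mk_eq_zero.2 (Ideal.mem_span_singleton_self _)
  set I : Ideal (MvPolynomial (Option σ) ℂ) := Ideal.span {f, C} with hI
  have hItop : I ≠ ⊤ := by
    intro h
    rw [Ideal.eq_top_iff_one, hI, Ideal.mem_span_pair] at h
    obtain ⟨U, V, h⟩ := h
    apply hu
    have h1 := congrArg (mkF (ob b0 b)) h
    rw [map_add, map_mul, map_mul, hmkf, mul_zero, zero_add, map_one] at h1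
    exact IsUnit.of_mul_eq_one_right _ h1
  obtain ⟨𝔓, h𝔓⟩ := Ideal.nonempty_minimalPrimes hItop
  have hprime : 𝔓.IsPrime := h𝔓.1.1
  have hI𝔓 : I ≤ 𝔓 := h𝔓.1.2
  have hf𝔓 : f ∈ 𝔓 := hI𝔓 (Ideal.subset_span (by simp))
  have hC𝔓 : C ∈ 𝔓 := hI𝔓 (Ideal.subset_span (by simp))
  -- homogeneity
  have hhom : 𝔓.IsHomogeneous (weightedHomogeneousSubmodule ℂ (ob w0 w)) := by
    have h1 : (𝔓.homogeneousCore (weightedHomogeneousSubmodule ℂ (ob w0 w))).toIdeal.IsPrime :=
      hprime.homogeneousCore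
    have h2 : I ≤ (𝔓.homogeneousCore (weightedHomogeneousSubmodule ℂ (ob w0 w))).toIdeal := by
      rw [hI, Ideal.span_le]
      rintro y hy
      simp only [Set.mem_insert_iff, Set.mem_singleton_iff] at hy
      rcases hy with rfl | rfl
      · exact Ideal.mem_homogeneousCore_of_homogeneous_of_mem ⟨L, hfh⟩ hf𝔓
      · exact Ideal.mem_homogeneousCore_of_homogeneous_of_mem ⟨d, hC⟩ hC𝔓
    have h3 : (𝔓.homogeneousCore (weightedHomogeneousSubmodule ℂ (ob w0 w))).toIdeal ≤ 𝔓 :=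
      Ideal.toIdeal_homogeneousCore_le _ _
    have h4 := h𝔓.2 ⟨h1, h2⟩ h3
    have h5 : (𝔓.homogeneousCore (weightedHomogeneousSubmodule ℂ (ob w0 w))).toIdeal = 𝔓 :=
      le_antisymm h3 h4
    rw [← h5]
    exact HomogeneousIdeal.isHomogeneous _
  have hne : 𝔓 ≠ Ideal.span {f} := by
    intro h
    rw [h] at hC𝔓
    apply hx
    rw [show mkF (ob b0 b) C = 0 from GrM.mk_eq_zero.2 hC𝔓]
    exact dvd_zero _
  have hmin : ∀ 𝔔 : Ideal (MvPolynomial (Option σ) ℂ), 𝔔.IsPrime → f ∈ 𝔔 →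
      𝔔 ≠ Ideal.span {f} → 𝔔 ≤ 𝔓 → 𝔔 = 𝔓 := by
    intro 𝔔 h𝔔 hf𝔔 hne𝔔 hle
    by_contra hcon
    have hlt : 𝔔 < 𝔓 := lt_of_le_of_ne hle hcon
    have hfI : (Ideal.span {f} : Ideal (MvPolynomial (Option σ) ℂ)).IsPrime :=
      (Ideal.span_singleton_prime hfp.ne_zero).mpr hfp
    have h1 : (⊥ : Ideal (MvPolynomial (Option σ) ℂ)) < Ideal.span {f} := by
      rw [bot_lt_iff_ne_bot, Ne, Ideal.span_singleton_eq_bot]
      exact hfp.ne_zero
    have h2 : Ideal.span {f} < 𝔔 :=
      lt_of_le_of_ne ((Ideal.span_singleton_le_iff_mem _).2 hf𝔔) (Ne.symm hne𝔔)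
    have e1 := Ideal.height_add_one_le_of_lt_of_isPrime h1
    have e2 := Ideal.height_add_one_le_of_lt_of_isPrime h2
    have e3 := Ideal.height_add_one_le_of_lt_of_isPrime hlt
    have e4 : 𝔓.height ≤ (({f, C} : Set (MvPolynomial (Option σ) ℂ)).ncard : ℕ∞) :=
      Ideal.height_le_card_of_mem_minimalPrimes_span (Set.toFinite _) h𝔓
    have e5 : (({f, C} : Set (MvPolynomial (Option σ) ℂ)).ncard : ℕ∞) ≤ 2 := by
      have : ({f, C} : Set (MvPolynomial (Option σ) ℂ)).ncard ≤ 2 := by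
        refine (Set.ncard_insert_le _ _).trans ?_
        rw [Set.ncard_singleton]
      exact_mod_cast this
    rw [Ideal.height_bot, zero_add] at e1
    have e6 : (3 : ℕ∞) ≤ 2 := by
      calc (3 : ℕ∞) = 1 + 1 + 1 := by norm_num
        _ ≤ (Ideal.span {f} : Ideal (MvPolynomial (Option σ) ℂ)).height + 1 + 1 := by gcongr
        _ ≤ 𝔔.height + 1 := by gcongr
        _ ≤ 𝔓.height := e3
        _ ≤ 2 := e4.trans e5
    exact absurd e6 (by decide)
  refine ⟨𝔓, ⟨hprime, hf𝔓, hne, hmin, ?_, ?_⟩, hC𝔓⟩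
  · intro P hP m
    exact weightedHomogeneousComponent_mem_of_mem ℂ (ob w0 w) hhom hP m
  · intro hx𝔓
    -- the kernel of `P ↦ class of P(0, X)`
    have hdom : IsDomain (FR σ b) := RngM.dom hIRR b (fun i => hW.two_le (some i)) (by omega)
    set ψ : MvPolynomial (Option σ) ℂ →ₐ[ℂ] FR σ b := (mkF b).comp (ph σ) with hψ
    have hK : (RingHom.ker ψ).IsPrime := RingHom.ker_isPrime ψ
    have h1 : ∀ P, P ∈ RingHom.ker ψ ↔ ∃ U V : MvPolynomial (Option σ) ℂ,
        P = f * U + X none * V := by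
      intro P
      rw [RingHom.mem_ker]
      exact ker_ph b b0 hb0 P
    have h2 : RingHom.ker ψ = 𝔓 := by
      apply hmin _ hK
      · exact (h1 f).2 ⟨1, 0, by ring⟩
      · intro h
        have h3 : (X none : MvPolynomial (Option σ) ℂ) ∈ Ideal.span {f} := by
          rw [← h]
          exact (h1 _).2 ⟨0, 1, by ring⟩
        have h4 : mkF (ob b0 b) (X none) = 0 := GrM.mk_eq_zero.2 h3
        have hne' : Nonempty σ := Fintype.card_pos_iff.mp (by omega)
        obtain ⟨i⟩ := hne'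
        exact RngM.mk_X_ne_zero (ob b0 b) hW.two_le none (some i) (by simp) h4
      · intro P hP
        obtain ⟨U, V, rfl⟩ := (h1 P).1 hP
        exact Ideal.add_mem _ (Ideal.mul_mem_right _ _ hf𝔓) (Ideal.mul_mem_right _ _ hx𝔓)
    apply hx
    rw [← ker_iff_dvd b b0 hb0]
    have h5 : C ∈ RingHom.ker ψ := by rw [h2]; exact hC𝔓
    rwa [RingHom.mem_ker] at h5

end

end Pool.Agent.Lib.MPa7508c
end
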