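import Pool.Agent.Lib.MP_a7508c_ag.LefSpec

/-!
# LFB: no elements of negative degree
-/

set_option autoImplicit false

namespace Pool.Agent.Lib.MPa7508c.LfbM

open MvPolynomial

noncomputable section

section gen

variable {τ : Type} {w : τ → ℕ}

/-- components of a product with a homogeneous element -/
theorem comp_mul {M : MvPolynomial τ ℂ} {m : ℕ} (hM : IsWeightedHomogeneous w M m)
    (Q : MvPolynomial τ ℂ) (e : ℕ) (he : m ≤ e) :
    weightedHomogeneousComponent w e (M * Q) = M * weightedHomogeneousComponent w (e - m) Q := by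
  classical
  induction Q using MvPolynomial.induction_on' with
  | monomial u a =>
    have h2 : IsWeightedHomogeneous w (monomial u a : MvPolynomial τ ℂ) (Finsupp.weight w u) :=
      isWeightedHomogeneous_monomial w u a rfl
    have h1 := hM.mul h2
    by_cases h : e = m + Finsupp.weight w u
    · have h' : e - m = Finsupp.weight w u := by omega
      rw [h', h2.weightedHomogeneousComponent_same, h, h1.weightedHomogeneousComponent_same]
    · rw [h1.weightedHomogeneousComponent_ne e h,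
        h2.weightedHomogeneousComponent_ne (e - m) (by omega), mul_zero]
  | add p q hp hq => rw [mul_add, map_add, hp, hq, map_add, mul_add]

variable [Fintype τ] (𝔓 : Ideal (MvPolynomial τ ℂ)) (o : τ) (N δ : ℕ) (P : MvPolynomial τ ℂ)
  (m : τ → ℕ) (Q : τ → MvPolynomial τ ℂ)

include Q in
theorem step1 (hm : ∀ i, δ ≤ m i * w i)
    (hQ : ∀ i, IsWeightedHomogeneous w (Q i) (m i * w i - δ))
    (hmem : ∀ i, X i ^ m i * P - X o ^ N * Q i ∈ 𝔓) (D : ℕ) (hD : ∑ i, m i * w i < D)
    {R : MvPolynomial τ ℂ} (hR : IsWeightedHomogeneous w R D) :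
    ∃ R', IsWeightedHomogeneous w R' (D - δ) ∧ P * R - X o ^ N * R' ∈ 𝔓 := by
  classical
  induction hR using IsWeightedHomogeneous.induction_on with
  | zero => exact ⟨0, isWeightedHomogeneous_zero ℂ w _, by simp⟩
  | add p q hp hq h1 h2 =>
    obtain ⟨p', hp', hp2⟩ := h1
    obtain ⟨q', hq', hq2⟩ := h2
    refine ⟨p' + q', hp'.add hq', ?_⟩
    have : P * (p + q) - X o ^ N * (p' + q') =
      (P * p - X o ^ N * p') + (P * q - X o ^ N * q') := by ring
    rw [this]
    exact add_mem hp2 hq2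
  | monomial u r hr =>
    obtain ⟨i, hi⟩ : ∃ i, m i ≤ u i := by
      by_contra hcon
      push Not at hcon
      rw [Finsupp.weight_eq_sum] at hr
      have : ∑ i, u i • w i ≤ ∑ i, m i * w i := by
        refine Finset.sum_le_sum fun i _ => ?_
        rw [smul_eq_mul]
        exact Nat.mul_le_mul_right _ (hcon i).le
      omega
    set u' : τ →₀ ℕ := u - Finsupp.single i (m i) with hu'
    have hle : Finsupp.single i (m i) ≤ u := by
      rw [Finsupp.single_le_iff]; exact hi
    have hadd : Finsupp.single i (m i) + u' = u := by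
      rw [hu']; exact add_tsub_cancel_of_le hle
    have hmon : (monomial u r : MvPolynomial τ ℂ) = X i ^ m i * monomial u' r := by
      rw [X_pow_eq_monomial, monomial_mul, one_mul, hadd]
    have hw : m i * w i + Finsupp.weight w u' = D := by
      rw [← hr, ← hadd, map_add, Finsupp.weight_single, smul_eq_mul]
    refine ⟨Q i * monomial u' r, ?_, ?_⟩
    · have h1 := (hQ i).mul (isWeightedHomogeneous_monomial w u' r rfl)
      have h2 := hm i
      have h3 : m i * w i - δ + Finsupp.weight w u' = D - δ := by omega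
      rwa [h3] at h1
    · rw [hmon]
      have : P * (X i ^ m i * monomial u' r) - X o ^ N * (Q i * monomial u' r) =
        (X i ^ m i * P - X o ^ N * Q i) * monomial u' r := by ring
      rw [this]
      exact Ideal.mul_mem_right _ _ (hmem i)

include Q in
theorem step2 (hm : ∀ i, δ ≤ m i * w i)
    (hQ : ∀ i, IsWeightedHomogeneous w (Q i) (m i * w i - δ))
    (hmem : ∀ i, X i ^ m i * P - X o ^ N * Q i ∈ 𝔓) (D : ℕ) (hD : ∑ i, m i * w i < D) (j : ℕ) :
    ∀ {R : MvPolynomial τ ℂ}, IsWeightedHomogeneous w R (D + j * δ) →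
    ∃ R', IsWeightedHomogeneous w R' D ∧ P ^ j * R - X o ^ (N * j) * R' ∈ 𝔓 := by
  induction j with
  | zero =>
    intro R hR
    exact ⟨R, by simpa using hR, by simp⟩
  | succ j ih =>
    intro R hR
    obtain ⟨R1, h1, h1'⟩ := step1 𝔓 o N δ P m Q hm hQ hmem (D + (j + 1) * δ)
      (by have := Nat.zero_le ((j + 1) * δ); omega) hR
    have h2 : D + (j + 1) * δ - δ = D + j * δ := by
      have : (j + 1) * δ = j * δ + δ := by ring
      omega
    rw [h2] at h1
    obtain ⟨R', h3, h3'⟩ := ih h1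
    refine ⟨R', h3, ?_⟩
    have : P ^ (j + 1) * R - X o ^ (N * (j + 1)) * R' =
      P ^ j * (P * R - X o ^ N * R1) + X o ^ N * (P ^ j * R1 - X o ^ (N * j) * R') := by ring
    rw [this]
    exact add_mem (Ideal.mul_mem_left _ _ h1') (Ideal.mul_mem_left _ _ h3')

include Q in
theorem step3 [h𝔓 : 𝔓.IsPrime] (hw : ∀ i, 0 < w i) (hδ : 0 < δ) (hm : ∀ i, δ ≤ m i * w i)
    (hQ : ∀ i, IsWeightedHomogeneous w (Q i) (m i * w i - δ))
    (hmem : ∀ i, X i ^ m i * P - X o ^ N * Q i ∈ 𝔓) (hP : P ∉ 𝔓) (L : ℕ) (hL : 0 < L)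
    (s t : MvPolynomial τ ℂ) (hs : IsWeightedHomogeneous w s L)
    (ht : IsWeightedHomogeneous w t L) :
    ∃ (k : ℕ) (g : Fin (k + 1) → ℂ), (∃ l, g l ≠ 0) ∧
      ∑ l, C (g l) * (s ^ (k - l) * t ^ (l : ℕ)) ∈ 𝔓 := by
  classical
  set m0 := ∑ i, m i * w i + 1 with hm0
  set D := L * m0 with hD
  have hDlt : ∑ i, m i * w i < D := by
    have : 1 * m0 ≤ L * m0 := Nat.mul_le_mul_right _ hL
    omega
  set V : Submodule ℂ (MvPolynomial τ ℂ ⧸ 𝔓) :=
    (weightedHomogeneousSubmodule ℂ w D).map (Ideal.Quotient.mkₐ ℂ 𝔓).toLinearMap with hV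
  have hfin : Module.Finite ℂ V := by
    have h1 := (weightedHomogeneousSubmodule_fg (R := ℂ) w (fun i => (hw i).ne') D).map
      (Ideal.Quotient.mkₐ ℂ 𝔓).toLinearMap
    exact Module.Finite.iff_fg.2 h1
  set r := Module.finrank ℂ V with hr
  set k := m0 + (r + 1) * δ with hk
  have hkr : r < k + 1 := by
    have : (r + 1) * 1 ≤ (r + 1) * δ := Nat.mul_le_mul_left _ hδ
    omega
  have hdeg : ∀ l : Fin (k + 1), IsWeightedHomogeneous w (s ^ (k - (l : ℕ)) * t ^ (l : ℕ))
      (D + (L * (r + 1)) * δ) := by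
    intro l
    have h1 := (hs.pow (k - (l : ℕ))).mul (ht.pow (l : ℕ))
    have h2 : (k - (l : ℕ)) • L + (l : ℕ) • L = D + (L * (r + 1)) * δ := by
      rw [← add_smul, Nat.sub_add_cancel (by omega), smul_eq_mul, hk, hD]
      ring
    rwa [h2] at h1
  choose R' hR' hR'' using fun l => step2 𝔓 o N δ P m Q hm hQ hmem D hDlt (L * (r + 1)) (hdeg l)
  let v : Fin (k + 1) → V := fun l => ⟨Ideal.Quotient.mkₐ ℂ 𝔓 (R' l),
    Submodule.mem_map_of_mem (hR' l)⟩
  have hnot : ¬ LinearIndependent ℂ v := by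
    intro h
    have := h.fintype_card_le_finrank
    rw [Fintype.card_fin] at this
    omega
  rw [Fintype.not_linearIndependent_iff] at hnot
  obtain ⟨g, hg, l0, hl0⟩ := hnot
  refine ⟨k, g, ⟨l0, hl0⟩, ?_⟩
  have h1 : ∑ l, C (g l) * R' l ∈ 𝔓 := by
    rw [← Ideal.Quotient.eq_zero_iff_mem]
    have h2 := congrArg (V.subtype) hg
    rw [map_sum, map_zero] at h2
    rw [map_sum, ← h2]
    refine Finset.sum_congr rfl fun l _ => ?_
    rw [map_smul]
    change _ = g l • Ideal.Quotient.mk 𝔓 (R' l)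
    rw [← MvPolynomial.smul_eq_C_mul]
    rfl
  have h3 : P ^ (L * (r + 1)) * ∑ l, C (g l) * (s ^ (k - (l : ℕ)) * t ^ (l : ℕ)) ∈ 𝔓 := by
    have h4 : P ^ (L * (r + 1)) * ∑ l, C (g l) * (s ^ (k - (l : ℕ)) * t ^ (l : ℕ)) =
        ∑ l, C (g l) * (P ^ (L * (r + 1)) * (s ^ (k - (l : ℕ)) * t ^ (l : ℕ)) -
          X o ^ (N * (L * (r + 1))) * R' l) +
        X o ^ (N * (L * (r + 1))) * ∑ l, C (g l) * R' l := by
      rw [Finset.mul_sum, Finset.mul_sum, ← Finset.sum_add_distrib]
      refine Finset.sum_congr rfl fun l _ => ?_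
      ring
    rw [h4]
    exact add_mem (Ideal.sum_mem _ fun l _ => Ideal.mul_mem_left _ _ (hR'' l))
      (Ideal.mul_mem_left _ _ h1)
  exact (h𝔓.mem_or_mem h3).resolve_left fun h => hP (h𝔓.mem_of_pow_mem _ h)

omit [Fintype τ] in
theorem step4 [h𝔓 : 𝔓.IsPrime] (s t : MvPolynomial τ ℂ) (hs : s ∉ 𝔓) (k : ℕ)
    (g : Fin (k + 1) → ℂ) (hg : ∃ l, g l ≠ 0)
    (h : ∑ l, C (g l) * (s ^ (k - (l : ℕ)) * t ^ (l : ℕ)) ∈ 𝔓) :
    ∃ c : ℂ, t - C c * s ∈ 𝔓 := by
  classical
  set B := MvPolynomial τ ℂ ⧸ 𝔓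
  set K := FractionRing B
  have hinj : Function.Injective (algebraMap B K) := IsFractionRing.injective B K
  set φ : MvPolynomial τ ℂ →ₐ[ℂ] K :=
    (IsScalarTower.toAlgHom ℂ B K).comp (Ideal.Quotient.mkₐ ℂ 𝔓) with hφ
  have hker : ∀ p, φ p = 0 ↔ p ∈ 𝔓 := by
    intro p
    rw [← Ideal.Quotient.eq_zero_iff_mem]
    change algebraMap B K (Ideal.Quotient.mk 𝔓 p) = 0 ↔ _
    constructor
    · intro h; exact hinj (by rw [h, map_zero])
    · intro h; rw [h, map_zero]
  have hs0 : φ s ≠ 0 := fun h => hs ((hker s).1 h)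
  set z : K := φ t / φ s with hz
  set p : Polynomial ℂ := ∑ l : Fin (k + 1), Polynomial.monomial (l : ℕ) (g l) with hp
  have hp0 : p ≠ 0 := by
    obtain ⟨l, hl⟩ := hg
    intro h0
    apply hl
    have h1 : p.coeff (l : ℕ) = g l := by
      rw [hp, Polynomial.finsetSum_coeff, Finset.sum_eq_single l]
      · simp
      · intro j _ hj
        rw [Polynomial.coeff_monomial, if_neg]
        intro h; exact hj (Fin.ext h)
      · simp
    rw [← h1, h0, Polynomial.coeff_zero]
  have hroot : Polynomial.aeval z p = 0 := by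
    have h1 := (hker _).2 h
    have h2 : φ s ^ k * Polynomial.aeval z p = 0 := by
      rw [← h1, hp, map_sum, map_sum, Finset.mul_sum]
      refine Finset.sum_congr rfl fun l _ => ?_
      have hlk : (l : ℕ) ≤ k := by omega
      have h3 : φ s ^ k = φ s ^ (k - (l : ℕ)) * φ s ^ (l : ℕ) := by
        rw [← pow_add, Nat.sub_add_cancel hlk]
      rw [Polynomial.aeval_monomial, h3, hz, div_pow, map_mul, map_mul, map_pow, map_pow,
        ← MvPolynomial.algebraMap_eq, AlgHom.commutes]
      have h4 : φ s ^ (l : ℕ) ≠ 0 := pow_ne_zero _ hs0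
      have h5 : φ s ^ (l : ℕ) * (φ t ^ (l : ℕ) / φ s ^ (l : ℕ)) = φ t ^ (l : ℕ) :=
        mul_div_cancel₀ _ h4
      linear_combination (φ s ^ (k - (l : ℕ)) * algebraMap ℂ K (g l)) * h5
    exact (mul_eq_zero.1 h2).resolve_left (pow_ne_zero _ hs0)
  have halg : IsIntegral ℂ z := by
    rw [← isAlgebraic_iff_isIntegral]
    exact ⟨p, hp0, hroot⟩
  obtain ⟨c, hc⟩ := minpoly.mem_range_of_degree_eq_one ℂ z
    (IsAlgClosed.degree_eq_one_of_irreducible ℂ (minpoly.irreducible halg))
  refine ⟨c, ?_⟩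
  rw [← hker, map_sub, map_mul, ← MvPolynomial.algebraMap_eq, AlgHom.commutes, sub_eq_zero, hc, hz]
  exact (div_mul_cancel₀ _ hs0).symm

end gen

open LefM

theorem partB (hLOCP : SpecLOCP) {σ : Type} [Fintype σ] [DecidableEq σ] {b w : σ → ℕ}
    {b0 w0 L : ℕ} (hW : Wt (ob b0 b) (ob w0 w) L) (hcard : 4 ≤ Fintype.card σ)
    {𝔓 : Ideal (MvPolynomial (Option σ) ℂ)} (h𝔓 : HP b w b0 w0 𝔓) (c : σ → ℂ)
    (hc : ∀ i, X (some i) ^ b i - C (c i) * X none ^ b0 ∈ 𝔓) : False := by
  have hp := h𝔓.prime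
  have h0 : X none ∉ vanishingIdeal ℂ (zeroLocus ℂ 𝔓) := by
    rw [IsPrime.vanishingIdeal_zeroLocus]
    exact h𝔓.x
  rw [mem_vanishingIdeal_iff] at h0
  push Not at h0
  obtain ⟨ξ, hξ, hξ0⟩ := h0
  rw [mem_zeroLocus_iff] at hξ
  have hev : ∀ p ∈ 𝔓, eval ξ p = 0 := by
    intro p hp
    have := hξ p hp
    rwa [aeval_eq_eval] at this
  have hξ0' : ξ none ≠ 0 := by simpa using hξ0
  have hPi : ∀ i : σ, ∃ p ∈ 𝔓, eval ξ (pderiv (some i) p) ≠ 0 ∧
      ∀ j : σ, j ≠ i → eval ξ (pderiv (some j) p) = 0 := by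
    intro i
    by_cases hi : X (some i) ∈ 𝔓
    · refine ⟨_, hi, ?_, ?_⟩
      · rw [pderiv_X_self]; simp
      · intro j hj
        rw [pderiv_X_of_ne (by simpa using hj.symm)]; simp
    · have hci : c i ≠ 0 := by
        intro h
        have h1 := hc i
        rw [h, C_0, zero_mul, sub_zero] at h1
        exact hi (hp.mem_of_pow_mem _ h1)
      have hbi : b i ≠ 0 := by have := hW.two_le (some i); simp only [ob, Option.elim] at this; omega
      have hξi : ξ (some i) ≠ 0 := by
        intro h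
        have h1 := hev _ (hc i)
        rw [map_sub, map_pow, map_mul, map_pow, eval_X, eval_X, eval_C, h, zero_pow hbi,
          zero_sub, neg_eq_zero] at h1
        exact (mul_ne_zero hci (pow_ne_zero _ hξ0')) h1
      refine ⟨_, hc i, ?_, ?_⟩
      · rw [map_sub, Derivation.leibniz_pow, Derivation.leibniz, Derivation.leibniz_pow,
          pderiv_X_self, pderiv_X_of_ne (by simp), pderiv_C]
        simp [hbi, hξi]
      · intro j hj
        rw [map_sub, Derivation.leibniz_pow, Derivation.leibniz, Derivation.leibniz_pow,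
          pderiv_X_of_ne (by simpa using hj.symm), pderiv_X_of_ne (by simp), pderiv_C]
        simp
  obtain ⟨H, hH, S, hS, hSP⟩ := hLOCP (Option σ) (ob b0 b)
    (by rw [Fintype.card_option]; omega) hW.two_le 𝔓 hp h𝔓.fmem h𝔓.ne h𝔓.min ξ
    (by intro h; exact hξ0' (congrFun h none)) hev
  set h : σ → ℂ := fun j => eval ξ (pderiv (some j) H) with hh
  set g : σ → ℂ := fun j => eval ξ (pderiv (some j) (fp (Option σ) (ob b0 b))) with hg
  have hspan : ∀ i : σ, (Pi.single i (1 : ℂ) : σ → ℂ) ∈ Submodule.span ℂ ({h, g} : Set (σ → ℂ)) := by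
    intro i
    obtain ⟨p, hp𝔓, hpi, hpj⟩ := hPi i
    have h1 := hSP p hp𝔓
    rw [Ideal.mem_span_pair] at h1
    obtain ⟨x, y, hxy⟩ := h1
    have h2 : ∀ j : σ, eval ξ S * eval ξ (pderiv (some j) p) =
        eval ξ x * h j + eval ξ y * g j := by
      intro j
      have h3 := congrArg (fun q => eval ξ (pderiv (some j) q)) hxy
      simp only [map_add, Derivation.leibniz, smul_eq_mul, map_mul, hev _ hp𝔓, hev _ hH,
        hev _ h𝔓.fmem, zero_mul, add_zero] at h3
      rw [← h3]
    have h4 : (Pi.single i (1 : ℂ) : σ → ℂ) =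
        ((eval ξ S * eval ξ (pderiv (some i) p))⁻¹ * eval ξ x) • h +
        ((eval ξ S * eval ξ (pderiv (some i) p))⁻¹ * eval ξ y) • g := by
      have hne := mul_ne_zero hS hpi
      ext j
      simp only [Pi.add_apply, Pi.smul_apply, smul_eq_mul]
      rw [mul_assoc, mul_assoc, ← mul_add, ← h2 j]
      by_cases hj : j = i
      · subst hj
        rw [Pi.single_eq_same, inv_mul_cancel₀ hne]
      · rw [Pi.single_eq_of_ne hj, hpj j hj, mul_zero, mul_zero]
    rw [h4]
    exact add_mem (Submodule.smul_mem _ _ (Submodule.subset_span (by simp)))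
      (Submodule.smul_mem _ _ (Submodule.subset_span (by simp)))
  have htop : Submodule.span ℂ ({h, g} : Set (σ → ℂ)) = ⊤ := by
    rw [eq_top_iff]
    intro v _
    rw [pi_eq_sum_univ' v]
    refine Submodule.sum_mem _ fun i _ => Submodule.smul_mem _ _ ?_
    convert hspan i using 1
  have hle : Module.finrank ℂ (Submodule.span ℂ ({h, g} : Set (σ → ℂ))) ≤ 2 := by
    have := finrank_span_finset_le_card (R := ℂ) ({h, g} : Finset (σ → ℂ))
    rw [Finset.coe_insert, Finset.coe_singleton] at this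
    exact this.trans Finset.card_le_two
  rw [htop, finrank_top, Module.finrank_fintype_fun_eq_card] at hle
  omega

end

end Pool.Agent.Lib.MPa7508c.LfbM

namespace Pool.Agent.Lib.MPa7508c

open MvPolynomial LefM LfbM

/-- LFB -/
theorem specLFB (hLOCP : SpecLOCP) : SpecLFB := by
  intro σ _ _ b w b0 w0 L hW hcard 𝔓 h𝔓 N d n P hP hd hQ
  by_contra hPn
  have hp := h𝔓.prime
  choose Q hQ using hQ
  have hw : ∀ o, 0 < ob w0 w o := hW.pos
  have hL : 0 < L := by
    rw [← hW.mul none]
    exact Nat.mul_pos (by have := hW.two_le none; omega) (hW.pos none)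
  have hwi : ∀ i : σ, 1 ≤ w i := fun i => hW.pos (some i)
  set δ := N * w0 - d with hδ
  set n' := n + N * w0 with hn'
  have hxN : IsWeightedHomogeneous (ob w0 w) (X none ^ N : MvPolynomial (Option σ) ℂ) (N * w0) := by
    have := (isWeightedHomogeneous_X ℂ (ob w0 w) none).pow N
    rwa [smul_eq_mul] at this
  have hge : ∀ i : σ, N * w0 ≤ n' * w i := by
    intro i
    calc N * w0 ≤ n' := by omega
      _ = n' * 1 := (mul_one _).symm
      _ ≤ n' * w i := Nat.mul_le_mul_left _ (hwi i)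
  have hcomp : ∀ i : σ, X (some i) ^ n' * P -
      X none ^ N * weightedHomogeneousComponent (ob w0 w) (n' * w i - δ)
        (X (some i) ^ (N * w0) * Q i) ∈ 𝔓 := by
    intro i
    have h1 : X (some i) ^ n' * P - X none ^ N * (X (some i) ^ (N * w0) * Q i) ∈ 𝔓 := by
      have : X (some i) ^ n' * P - X none ^ N * (X (some i) ^ (N * w0) * Q i) =
        X (some i) ^ (N * w0) * (X (some i) ^ n * P - X none ^ N * Q i) := by
        rw [hn', pow_add]; ring
      rw [this]
      exact Ideal.mul_mem_left _ _ (hQ i)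
    have h2 := h𝔓.homog _ h1 (n' * w i + d)
    have h3 : IsWeightedHomogeneous (ob w0 w) (X (some i) ^ n' * P) (n' * w i + d) := by
      have := ((isWeightedHomogeneous_X ℂ (ob w0 w) (some i)).pow n').mul hP
      rwa [smul_eq_mul] at this
    have h4 := hge i
    rw [map_sub, h3.weightedHomogeneousComponent_same, comp_mul hxN _ _ (by omega)] at h2
    have h5 : n' * w i + d - N * w0 = n' * w i - δ := by omega
    rwa [h5] at h2
  have key : ∀ i : σ, ∃ c : ℂ, X (some i) ^ b i - C c * X none ^ b0 ∈ 𝔓 := by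
    intro i
    have hs : IsWeightedHomogeneous (ob w0 w) (X none ^ b0 : MvPolynomial (Option σ) ℂ) L := by
      have := (isWeightedHomogeneous_X ℂ (ob w0 w) none).pow b0
      rw [smul_eq_mul] at this
      have h := hW.mul none
      simp only [ob, Option.elim] at h this ⊢
      rwa [h] at this
    have ht : IsWeightedHomogeneous (ob w0 w) (X (some i) ^ b i : MvPolynomial (Option σ) ℂ) L := by
      have := (isWeightedHomogeneous_X ℂ (ob w0 w) (some i)).pow (b i)
      rw [smul_eq_mul] at this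
      have h := hW.mul (some i)
      simp only [ob, Option.elim] at h this ⊢
      rwa [h] at this
    obtain ⟨k, g, hg, hmem⟩ := step3 (w := ob w0 w) 𝔓 none N δ P
      (fun o => o.elim N (fun _ => n'))
      (fun o => o.elim P (fun i => weightedHomogeneousComponent (ob w0 w) (n' * w i - δ)
        (X (some i) ^ (N * w0) * Q i))) hw (by omega)
      (by
        rintro (_ | j)
        · simp only [Option.elim, ob]; omega
        · have := hge j
          simp only [Option.elim, ob]; omega)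
      (by
        rintro (_ | j)
        · simp only [Option.elim, ob]
          have : N * w0 - δ = d := by omega
          rw [this]; exact hP
        · exact weightedHomogeneousComponent_isWeightedHomogeneous _ _)
      (by
        rintro (_ | j)
        · simp
        · exact hcomp j)
      hPn L hL _ _ hs ht
    exact step4 𝔓 _ _ (fun h => h𝔓.x (hp.mem_of_pow_mem _ h)) k g hg hmem
  choose c hc using key
  exact partB hLOCP hW hcard h𝔓 c hc

end Pool.Agent.Lib.MPa7508c
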