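import Pool.Agent.Lib.MP_a7508c_ag.Spec

/-!
# LOGD: existence of log frames
-/

set_option autoImplicit false

namespace Pool.Agent.Lib.MPa7508c

open MvPolynomial

noncomputable section

namespace LogdM

variable {K : Type} [Field K]

/-- `t` is a uniformiser of the discrete valuation ring `v` -/
structure Tf (v : ValuationSubring K) (t : K) : Prop where
  mem : t ∈ v
  ne : t ≠ 0
  inv : t⁻¹ ∉ v
  div : ∀ z ∈ v, (z = 0 ∨ z⁻¹ ∉ v) → ∃ y ∈ v, z = t * y
  arch : ∀ y : K, ∃ s : ℕ, t ^ s * y ∈ v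

/-- `z` is a unit of `v` -/
def Un (v : ValuationSubring K) (z : K) : Prop := z ∈ v ∧ z ≠ 0 ∧ z⁻¹ ∈ v

theorem un_add {v : ValuationSubring K} {t a y : K} (ht : Tf v t) (ha : Un v a) (hy : y ∈ v) :
    Un v (a + t * y) := by
  have hm : a + t * y ∈ v := v.add_mem _ _ ha.1 (v.mul_mem _ _ ht.mem hy)
  by_contra hn
  have h1 : a + t * y = 0 ∨ (a + t * y)⁻¹ ∉ v := by
    by_cases h0 : a + t * y = 0
    · exact Or.inl h0
    · exact Or.inr fun h => hn ⟨hm, h0, h⟩
  obtain ⟨y', hy', h2⟩ := ht.div _ hm h1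
  apply ht.inv
  have h3 : a = t * (y' - y) := by rw [mul_sub, ← h2]; ring
  have h4 : t⁻¹ = (y' - y) * a⁻¹ := by
    have ha0 := ha.2.1
    have ht0 := ht.ne
    field_simp
    rw [h3]
  rw [h4]
  exact v.mul_mem _ _ (v.sub_mem hy' hy) ha.2.2

theorem tf_of_ord {v : ValuationSubring K} (h : OrdLaws v) {t : K} (h1 : t ≠ 0)
    (h2 : ord v t = 1) : Tf v t := by
  have hinv : ∀ x : K, x ≠ 0 → ord v x⁻¹ = - ord v x := by
    intro x hx
    have e1 := h.mul x x⁻¹ hx (inv_ne_zero hx)
    rw [mul_inv_cancel₀ hx] at e1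
    have e2 := h.mul 1 1 one_ne_zero one_ne_zero
    rw [mul_one] at e2
    omega
  have hmem : t ∈ v := (h.nonneg t h1).1 (by omega)
  refine ⟨hmem, h1, ?_, ?_, ?_⟩
  · intro h3
    have := (h.nonneg _ (inv_ne_zero h1)).2 h3
    rw [hinv t h1] at this
    omega
  · intro z hz h3
    by_cases h0 : z = 0
    · exact ⟨0, v.zero_mem, by rw [h0, mul_zero]⟩
    · rcases h3 with h3 | h3
      · exact absurd h3 h0
      · have e1 := (h.nonneg z h0).2 hz
        have e2 : ¬ 0 ≤ ord v z⁻¹ := fun hh => h3 ((h.nonneg _ (inv_ne_zero h0)).1 hh)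
        rw [hinv z h0] at e2
        have e3 : z = t * (t⁻¹ * z) := by
          rw [← mul_assoc, mul_inv_cancel₀ h1, one_mul]
        refine ⟨t⁻¹ * z, ?_, e3⟩
        have e4 : t⁻¹ * z ≠ 0 := mul_ne_zero (inv_ne_zero h1) h0
        apply (h.nonneg _ e4).1
        rw [h.mul _ _ (inv_ne_zero h1) h0, hinv t h1]
        omega
  · intro y
    by_cases h0 : y = 0
    · exact ⟨0, by rw [h0, mul_zero]; exact v.zero_mem⟩
    · have hp : ∀ s : ℕ, ord v (t ^ s) = s := by
        intro s
        induction s with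
        | zero =>
          have e2 := h.mul 1 1 one_ne_zero one_ne_zero
          rw [mul_one] at e2
          rw [pow_zero]
          push_cast
          omega
        | succ s ih =>
          rw [pow_succ, h.mul _ _ (pow_ne_zero _ h1) h1, ih, h2]
          push_cast
          ring
      refine ⟨(-ord v y).toNat, ?_⟩
      apply (h.nonneg _ (mul_ne_zero (pow_ne_zero _ h1) h0)).1
      rw [h.mul _ _ (pow_ne_zero _ h1) h0, hp]
      omega

variable [Algebra ℂ K] {m : ℕ} {v : ValuationSubring K} {c : Fin (m + 1) → K}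

/-- the situation -/
structure Sit (m : ℕ) (v : ValuationSubring K) (c : Fin (m + 1) → K) : Prop where
  hC : ∀ a : ℂ, algebraMap ℂ K a ∈ v
  hc : ∀ i, c i ∈ v
  ht : Tf v (c 0)
  hu : ∀ P : MvPolynomial (Fin m) ℂ, P ≠ 0 →
    aeval (fun i : Fin m => c i.succ) P ≠ 0 ∧ (aeval (fun i : Fin m => c i.succ) P)⁻¹ ∈ v

theorem aeval_mem {σ : Type} {v : ValuationSubring K} (hC : ∀ a : ℂ, algebraMap ℂ K a ∈ v)
    {c : σ → K} (hc : ∀ i, c i ∈ v) (P : MvPolynomial σ ℂ) : aeval c P ∈ v := by
  induction P using MvPolynomial.induction_on with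
  | C a => rw [aeval_C]; exact hC a
  | add p q hp hq => rw [map_add]; exact v.add_mem _ _ hp hq
  | mul_X p i hp => rw [map_mul, aeval_X]; exact v.mul_mem _ _ hp (hc i)

theorem decP (P : MvPolynomial (Fin (m + 1)) ℂ) :
    ∃ (P0 : MvPolynomial (Fin m) ℂ) (Q : MvPolynomial (Fin (m + 1)) ℂ),
      P = rename Fin.succ P0 + X 0 * Q := by
  induction P using MvPolynomial.induction_on with
  | C a => exact ⟨C a, 0, by rw [rename_C, mul_zero, add_zero]⟩
  | add p q hp hq =>
    obtain ⟨P0, Q, hp⟩ := hp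
    obtain ⟨P0', Q', hq⟩ := hq
    exact ⟨P0 + P0', Q + Q', by rw [hp, hq, map_add]; ring⟩
  | mul_X p i hp =>
    obtain ⟨P0, Q, hp⟩ := hp
    refine Fin.cases ?_ (fun j => ?_) i
    · exact ⟨0, p, by rw [map_zero, zero_add, mul_comm]⟩
    · exact ⟨P0 * X j, Q * X j.succ, by rw [hp, map_mul, rename_X]; ring⟩

theorem phi_un (hs : Sit m v c) {P : MvPolynomial (Fin (m + 1)) ℂ} (hP : ¬ X 0 ∣ P) :
    Un v (aeval c P) := by
  obtain ⟨P0, Q, rfl⟩ := decP P
  have h0 : P0 ≠ 0 := by
    rintro rfl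
    exact hP ⟨Q, by rw [map_zero, zero_add]⟩
  have e : (c ∘ Fin.succ) = fun i : Fin m => c i.succ := rfl
  rw [map_add, map_mul, aeval_X, aeval_rename, e]
  obtain ⟨h1, h2⟩ := hs.hu P0 h0
  have h3 := aeval_mem hs.hC (fun i : Fin m => hs.hc i.succ) P0
  exact un_add hs.ht ⟨h3, h1, h2⟩ (aeval_mem hs.hC hs.hc Q)

theorem X0_irr : Irreducible (X 0 : MvPolynomial (Fin (m + 1)) ℂ) :=
  (MvPolynomial.X_prime (R := ℂ) (i := (0 : Fin (m + 1)))).irreducible

theorem phi_inj (hs : Sit m v c) : AlgebraicIndependent ℂ c := by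
  rw [algebraicIndependent_iff]
  intro P hP
  by_contra h0
  obtain ⟨n, P', h1, rfl⟩ := WfDvdMonoid.max_power_factor h0 (X0_irr (m := m))
  rw [map_mul, map_pow, aeval_X] at hP
  rcases mul_eq_zero.1 hP with h2 | h2
  · exact hs.ht.ne (eq_zero_of_pow_eq_zero h2)
  · exact (phi_un hs h1).2.1 h2

/-- the polynomial ring -/
abbrev A (m : ℕ) : Type := MvPolynomial (Fin (m + 1)) ℂ

/-- evaluation of polynomials in one variable over `A` -/
def ev (c : Fin (m + 1) → K) (z : K) : Polynomial (A m) →+* K :=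
  Polynomial.eval₂RingHom (aeval c : A m →ₐ[ℂ] K).toRingHom z

theorem ev_C (z : K) (a : A m) : ev c z (Polynomial.C a) = aeval c a := Polynomial.eval₂_C _ _

theorem ev_X (z : K) : ev c z Polynomial.X = z := Polynomial.eval₂_X _ _

theorem ev_mem {V : ValuationSubring K} (hV : ∀ P : A m, aeval c P ∈ V) {z : K} (hz : z ∈ V)
    (f : Polynomial (A m)) : ev c z f ∈ V := by
  induction f using Polynomial.induction_on' with
  | add p q hp hq => rw [map_add]; exact V.add_mem _ _ hp hq
  | monomial n a =>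
    rw [← Polynomial.C_mul_X_pow_eq_monomial, map_mul, map_pow, ev_C, ev_X]
    exact V.mul_mem _ _ (hV a) (pow_mem hz n)

/-- tails of polynomials -/
def tl (f : Polynomial (A m)) (j : ℕ) : Polynomial (A m) := Polynomial.divX^[j] f

theorem tl_succ (f : Polynomial (A m)) (j : ℕ) : tl f (j + 1) = (tl f j).divX :=
  Function.iterate_succ_apply' _ _ _

theorem tl_coeff (f : Polynomial (A m)) (j n : ℕ) : (tl f j).coeff n = f.coeff (n + j) := by
  induction j generalizing n with
  | zero => rfl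
  | succ j ih =>
    rw [tl_succ, Polynomial.coeff_divX, ih]
    congr 1
    omega

theorem ev_tl (z : K) (f : Polynomial (A m)) (j : ℕ) :
    ev c z (tl f j) = z * ev c z (tl f (j + 1)) + aeval c (f.coeff j) := by
  have h1 : (tl f j).coeff 0 = f.coeff j := by rw [tl_coeff, zero_add]
  conv_lhs => rw [← Polynomial.divX_mul_X_add (tl f j)]
  rw [map_add, map_mul, ev_X, ev_C, h1, tl_succ]
  ring

theorem tl_mem {V : ValuationSubring K} (hV : ∀ P : A m, aeval c P ∈ V) {z : K}
    {f : Polynomial (A m)} (hf : ev c z f = 0) (j : ℕ) : ev c z (tl f j) ∈ V := by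
  rcases V.mem_or_inv_mem z with hz | hz
  · exact ev_mem hV hz _
  · by_cases h0 : z = 0
    · exact ev_mem hV (by rw [h0]; exact V.zero_mem) _
    induction j with
    | zero =>
      have : ev c z (tl f 0) = 0 := hf
      rw [this]
      exact V.zero_mem
    | succ j ih =>
      have h2 : ev c z (tl f (j + 1)) = z⁻¹ * (ev c z (tl f j) - aeval c (f.coeff j)) := by
        rw [ev_tl z f j, add_sub_cancel_right, ← mul_assoc, inv_mul_cancel₀ h0, one_mul]
      rw [h2]
      exact V.mul_mem _ _ hz (V.sub_mem ih (hV _))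

/-- integral over the polynomial ring -/
def IntE (c : Fin (m + 1) → K) (x : K) : Prop :=
  (aeval c : A m →ₐ[ℂ] K).toRingHom.IsIntegralElem x

theorem int_of_val {x : K}
    (h : ∀ V : ValuationSubring K, (∀ P : A m, aeval c P ∈ V) → x ∈ V) : IntE c x := by
  set φ : A m →+* K := (aeval c : A m →ₐ[ℂ] K).toRingHom with hφ
  have h1 : x ∈ (integralClosure (Subring.closure (Set.range φ)) K).toSubring := by
    rw [← iInf_valuationSubring_superset, Subring.mem_iInf]
    rintro ⟨V, hV⟩
    exact h V (fun P => hV ⟨P, rfl⟩)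
  have h2 : IsIntegral (Subring.closure (Set.range φ)) x := h1
  let ψ : A m →+* Subring.closure (Set.range φ) :=
    φ.codRestrict (Subring.closure (Set.range φ)) (fun P => Subring.subset_closure ⟨P, rfl⟩)
  have hψ : Function.Surjective ψ := by
    rintro ⟨y, hy⟩
    have hy' : y ∈ φ.range := by
      have : Subring.closure (Set.range φ) ≤ φ.range := Subring.closure_le.2 (by
        rintro _ ⟨P, rfl⟩
        exact ⟨P, rfl⟩)
      exact this hy
    obtain ⟨P, hP⟩ := hy'
    exact ⟨P, Subtype.ext hP⟩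
  letI : Algebra (A m) (Subring.closure (Set.range φ)) := ψ.toAlgebra
  letI : Algebra (A m) K := φ.toAlgebra
  haveI : IsScalarTower (A m) (Subring.closure (Set.range φ)) K :=
    IsScalarTower.of_algebraMap_eq (fun a => rfl)
  haveI : Algebra.IsIntegral (A m) (Subring.closure (Set.range φ)) :=
    Algebra.isIntegral_of_surjective hψ
  exact isIntegral_trans (R := A m) x h2

theorem int_mem {V : ValuationSubring K} (hV : ∀ P : A m, aeval c P ∈ V) {x : K}
    (hx : IntE c x) : x ∈ V := by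
  obtain ⟨p, hp, hpx⟩ := hx
  let ψ : A m →+* V := (aeval c : A m →ₐ[ℂ] K).toRingHom.codRestrict V.toSubring hV
  have h1 : IsIntegral V x := by
    refine ⟨p.map ψ, hp.map ψ, ?_⟩
    rw [Polynomial.eval₂_map]
    exact hpx
  obtain ⟨y, hy⟩ := IsIntegrallyClosed.isIntegral_iff.1 h1
  rw [← hy]
  exact y.2

theorem prim_rel (hs : Sit m v c) {f : Polynomial (A m)} (h0 : f ≠ 0) {z : K}
    (hf : ev c z f = 0) : ∃ g : Polynomial (A m), ev c z g = 0 ∧ ¬ Polynomial.C (X 0) ∣ g := by
  have hirr : Irreducible (Polynomial.C (X 0 : A m)) :=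
    (Polynomial.prime_C_iff.2 (MvPolynomial.X_prime (R := ℂ) (i := (0 : Fin (m + 1))))).irreducible
  obtain ⟨n, g, h1, rfl⟩ := WfDvdMonoid.max_power_factor h0 hirr
  refine ⟨g, ?_, h1⟩
  rw [map_mul, map_pow, ev_C, aeval_X] at hf
  exact (mul_eq_zero.1 hf).resolve_left (pow_ne_zero _ hs.ht.ne)

theorem frac (hs : Sit m v c) {g : Polynomial (A m)} {z : K} (hz : z ∈ v) (hg : ev c z g = 0)
    (hd : ¬ Polynomial.C (X 0) ∣ g) :
    ∃ a b : K, IntE c a ∧ IntE c b ∧ Un v b ∧ a = b * z := by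
  classical
  have hφ : ∀ P : A m, aeval c P ∈ v := fun P => aeval_mem hs.hC hs.hc P
  rw [Polynomial.C_dvd_iff_dvd_coeff] at hd
  push Not at hd
  obtain ⟨i1, hi1⟩ := hd
  have hne : (g.support.filter fun i => ¬ (X 0 ∣ g.coeff i)).Nonempty := by
    refine ⟨i1, Finset.mem_filter.2 ⟨?_, hi1⟩⟩
    rw [Polynomial.mem_support_iff]
    intro h
    rw [h] at hi1
    exact hi1 (dvd_zero _)
  obtain ⟨i0, hi0, hi⟩ : ∃ i0, ¬ (X 0 ∣ g.coeff i0) ∧ ∀ i, i0 < i → X 0 ∣ g.coeff i := by
    refine ⟨Finset.max' _ hne, (Finset.mem_filter.1 (Finset.max'_mem _ hne)).2, ?_⟩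
    intro i hi
    by_contra hn
    have h1 : i ∈ g.support.filter fun i => ¬ (X 0 ∣ g.coeff i) := by
      refine Finset.mem_filter.2 ⟨?_, hn⟩
      rw [Polynomial.mem_support_iff]
      intro h
      rw [h] at hn
      exact hn (dvd_zero _)
    exact absurd (Finset.le_max' _ _ h1) (not_le.2 hi)
  have h1 : Polynomial.C (X 0) ∣ tl g (i0 + 1) := by
    rw [Polynomial.C_dvd_iff_dvd_coeff]
    intro n
    rw [tl_coeff]
    exact hi _ (by omega)
  obtain ⟨g', hg'⟩ := h1
  have h2 : ev c z (tl g i0) = aeval c (g.coeff i0) + c 0 * (z * ev c z g') := by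
    rw [ev_tl, hg', map_mul, ev_C, aeval_X]
    ring
  have hun : Un v (ev c z (tl g i0)) := by
    rw [h2]
    exact un_add hs.ht (phi_un hs hi0) (v.mul_mem _ _ hz (ev_mem hφ hz _))
  rcases i0 with _ | k
  · exact absurd (show ev c z (tl g 0) = 0 from hg) hun.2.1
  · refine ⟨ev c z (tl g (k + 1)) * z, ev c z (tl g (k + 1)), ?_, ?_, hun, rfl⟩
    · apply int_of_val
      intro V hV
      have h3 : ev c z (tl g (k + 1)) * z = ev c z (tl g k) - aeval c (g.coeff k) := by
        rw [ev_tl z g k]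
        ring
      rw [h3]
      exact V.sub_mem (tl_mem hV hg k) (hV _)
    · exact int_of_val fun V hV => tl_mem hV hg _

theorem der_ev {E : Derivation ℂ K K} (hE : ∀ P : A m, E (aeval c P) ∈ v) {z : K}
    (hz : z ∈ v) (g : Polynomial (A m)) :
    ∃ w ∈ v, E (ev c z g) = w + ev c z (Polynomial.derivative g) * E z := by
  induction g using Polynomial.induction_on' with
  | add p q hp hq =>
    obtain ⟨w, hw, h1⟩ := hp
    obtain ⟨w', hw', h2⟩ := hq
    refine ⟨w + w', v.add_mem _ _ hw hw', ?_⟩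
    rw [map_add, map_add, h1, h2, map_add, map_add]
    ring
  | monomial n a =>
    refine ⟨z ^ n * E (aeval c a), v.mul_mem _ _ (pow_mem hz n) (hE a), ?_⟩
    rw [← Polynomial.C_mul_X_pow_eq_monomial, Polynomial.derivative_C_mul_X_pow, map_mul, map_pow,
      ev_C, ev_X, Derivation.leibniz, Derivation.leibniz_pow, map_mul, map_pow, ev_C, ev_X,
      map_mul, map_natCast]
    simp only [smul_eq_mul, nsmul_eq_mul]
    ring

theorem desc_step (hs : Sit m v c) {E : Derivation ℂ K K} (hE : ∀ P : A m, E (aeval c P) ∈ v)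
    (halg : ∀ z : K, ∃ f : Polynomial (A m), f ≠ 0 ∧ ev c z f = 0) {s : ℕ}
    (h : ∀ y ∈ v, c 0 ^ (s + 1) * E y ∈ v) : ∀ z ∈ v, c 0 ^ s * E z ∈ v := by
  classical
  intro z hz
  have hφ : ∀ P : A m, aeval c P ∈ v := fun P => aeval_mem hs.hC hs.hc P
  have hex : ∃ n : ℕ, ∃ g : Polynomial (A m), ¬ Polynomial.C (X 0) ∣ g ∧ ¬ Un v (ev c z g) ∧
      g.natDegree = n := by
    obtain ⟨f, hf0, hf⟩ := halg z
    obtain ⟨g, hg, hd⟩ := prim_rel hs hf0 hf
    exact ⟨_, g, hd, fun hh => hh.2.1 hg, rfl⟩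
  obtain ⟨g, hd, hnu, hdeg⟩ := Nat.find_spec hex
  have hmin : ∀ g' : Polynomial (A m), g'.natDegree < g.natDegree → ¬ Polynomial.C (X 0) ∣ g' →
      Un v (ev c z g') := by
    intro g' hlt hg'
    by_contra hn
    rw [hdeg] at hlt
    exact Nat.find_min hex hlt ⟨g', hg', hn, rfl⟩
  have hdx : ¬ Polynomial.C (X 0) ∣ g.divX := by
    intro h1
    obtain ⟨g', hg'⟩ := h1
    have h2 : ¬ X 0 ∣ g.coeff 0 := by
      intro h3
      apply hd
      rw [← Polynomial.divX_mul_X_add g]
      exact dvd_add (Dvd.dvd.mul_right ⟨g', hg'⟩ _) (map_dvd Polynomial.C h3)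
    apply hnu
    have h4 : ev c z g = aeval c (g.coeff 0) + c 0 * (z * ev c z g') := by
      have h5 := ev_tl (c := c) z g 0
      have h6 : tl g 0 = g := rfl
      have h7 : tl g (0 + 1) = g.divX := rfl
      rw [h6, h7, hg', map_mul, ev_C, aeval_X] at h5
      rw [h5]
      ring
    rw [h4]
    exact un_add hs.ht (phi_un hs h2) (v.mul_mem _ _ hz (ev_mem hφ hz _))
  have hpos : g.natDegree ≠ 0 := by
    intro h1
    apply hdx
    rw [Polynomial.divX_eq_zero_iff.2 (Polynomial.eq_C_of_natDegree_eq_zero h1)]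
    exact dvd_zero _
  have hd' : ¬ Polynomial.C (X 0) ∣ Polynomial.derivative g := by
    intro h1
    apply hdx
    rw [Polynomial.C_dvd_iff_dvd_coeff] at h1 ⊢
    intro n
    have h2 := h1 n
    rw [Polynomial.coeff_derivative] at h2
    rw [Polynomial.coeff_divX]
    have h3 : IsUnit ((n : A m) + 1) := by
      have h4 : ((n : A m) + 1) = C ((n : ℂ) + 1) := by
        rw [map_add, map_one, map_natCast]
      rw [h4]
      have h5 : ((n : ℂ) + 1) ≠ 0 := by exact_mod_cast Nat.succ_ne_zero n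
      exact (isUnit_iff_ne_zero.2 h5).map C
    exact h3.dvd_mul_right.1 h2
  have hun := hmin _ (Polynomial.natDegree_derivative_lt hpos) hd'
  obtain ⟨w, hw, h1⟩ := der_ev hE hz g
  obtain ⟨y, hy, h2⟩ := hs.ht.div _ (ev_mem hφ hz g) (by
    by_contra h3
    push Not at h3
    exact hnu ⟨ev_mem hφ hz g, h3.1, h3.2⟩)
  have h3 : E (c 0) ∈ v := by
    have := hE (X 0)
    rwa [aeval_X] at this
  rw [h2, Derivation.leibniz, smul_eq_mul, smul_eq_mul] at h1
  set e' := ev c z (Polynomial.derivative g)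
  have h4 : c 0 ^ s * E z =
      (c 0 ^ (s + 1) * E y + c 0 ^ s * (y * E (c 0)) - c 0 ^ s * w) * e'⁻¹ := by
    have h5 := hun.2.1
    have h6 : e' * E z = c 0 * E y + y * E (c 0) - w := by rw [h1]; ring
    have h7 : E z = (c 0 * E y + y * E (c 0) - w) * e'⁻¹ := by
      rw [← h6, mul_comm e', mul_assoc, mul_inv_cancel₀ h5, mul_one]
    rw [h7, pow_succ]
    ring
  rw [h4]
  have hp := pow_mem hs.ht.mem s
  exact v.mul_mem _ _ (v.sub_mem (v.add_mem _ _ (h y hy) (v.mul_mem _ _ hp (v.mul_mem _ _ hy h3)))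
    (v.mul_mem _ _ hp hw)) hun.2.2

theorem reg_of_bdd (hs : Sit m v c) {E : Derivation ℂ K K} (hE : ∀ P : A m, E (aeval c P) ∈ v)
    (halg : ∀ z : K, ∃ f : Polynomial (A m), f ≠ 0 ∧ ev c z f = 0)
    (h : ∃ s : ℕ, ∀ y ∈ v, c 0 ^ s * E y ∈ v) : ∀ z ∈ v, E z ∈ v := by
  obtain ⟨s, h⟩ := h
  induction s with
  | zero =>
    intro z hz
    have := h z hz
    rwa [pow_zero, one_mul] at this
  | succ s ih => exact ih (desc_step hs hE halg h)

theorem bdd (hs : Sit m v c) {E : Derivation ℂ K K} (hE : ∀ P : A m, E (aeval c P) ∈ v)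
    (halg : ∀ z : K, ∃ f : Polynomial (A m), f ≠ 0 ∧ ev c z f = 0)
    {ι : Type} (S : Finset ι) (b : ι → K) (hS : ∀ i ∈ S, IntE c (b i))
    (hspan : ∀ x, IntE c x → ∃ a : ι → A m, x = ∑ i ∈ S, aeval c (a i) * b i) :
    ∃ s : ℕ, ∀ y ∈ v, c 0 ^ s * E y ∈ v := by
  classical
  have hφ : ∀ P : A m, aeval c P ∈ v := fun P => aeval_mem hs.hC hs.hc P
  choose r hr using fun i : ι => hs.ht.arch (E (b i))
  have ht := hs.ht.mem
  let s := ∑ i ∈ S, r i
  have hs1 : ∀ i ∈ S, c 0 ^ s * E (b i) ∈ v := by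
    intro i hi
    have h1 : r i ≤ s := Finset.single_le_sum (f := r) (fun _ _ => Nat.zero_le _) hi
    obtain ⟨k, hk⟩ := Nat.exists_eq_add_of_le h1
    rw [hk, pow_add, mul_comm (c 0 ^ r i), mul_assoc]
    exact v.mul_mem _ _ (pow_mem ht k) (hr i)
  have hint : ∀ x, IntE c x → c 0 ^ s * E x ∈ v := by
    intro x hx
    obtain ⟨a, ha⟩ := hspan x hx
    have h2 : ∀ T : Finset ι, T ⊆ S → c 0 ^ s * E (∑ i ∈ T, aeval c (a i) * b i) ∈ v := by
      intro T
      induction T using Finset.induction_on with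
      | empty =>
        intro _
        rw [Finset.sum_empty, map_zero, mul_zero]
        exact v.zero_mem
      | insert i T hi ih =>
        intro hT
        have hiS : i ∈ S := hT (Finset.mem_insert_self _ _)
        rw [Finset.sum_insert hi, map_add, mul_add, Derivation.leibniz, smul_eq_mul, smul_eq_mul]
        refine v.add_mem _ _ ?_ (ih fun z hz => hT (Finset.mem_insert_of_mem hz))
        rw [mul_add]
        refine v.add_mem _ _ ?_ ?_
        · rw [← mul_assoc, mul_comm (c 0 ^ s), mul_assoc]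
          exact v.mul_mem _ _ (hφ _) (hs1 i hiS)
        · exact v.mul_mem _ _ (pow_mem ht s) (v.mul_mem _ _ (int_mem hφ (hS i hiS)) (hE _))
    rw [ha]
    exact h2 S (Finset.Subset.refl _)
  refine ⟨s, fun z hz => ?_⟩
  obtain ⟨f, hf0, hf⟩ := halg z
  obtain ⟨g, hg, hd⟩ := prim_rel hs hf0 hf
  obtain ⟨a, b', ha, hb, hun, hab⟩ := frac hs hz hg hd
  have h3 : E a = b' * E z + z * E b' := by
    rw [hab, Derivation.leibniz, smul_eq_mul, smul_eq_mul]
  have h4 : c 0 ^ s * E z = (c 0 ^ s * E a - z * (c 0 ^ s * E b')) * b'⁻¹ := by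
    have h5 : E z = (E a - z * E b') * b'⁻¹ := by
      rw [h3, add_sub_cancel_right, mul_comm b', mul_assoc, mul_inv_cancel₀ hun.2.1, mul_one]
    rw [h5]
    ring
  rw [h4]
  exact v.mul_mem _ _ (v.sub_mem (hint a ha) (v.mul_mem _ _ hz (hint b' hb))) hun.2.2

theorem der_poly (hs : Sit m v c) {E : Derivation ℂ K K} (hE : ∀ j, E (c j) ∈ v) (P : A m) :
    E (aeval c P) ∈ v := by
  induction P using MvPolynomial.induction_on with
  | C a =>
    rw [aeval_C, Derivation.map_algebraMap]
    exact v.zero_mem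
  | add p q hp hq => rw [map_add, map_add]; exact v.add_mem _ _ hp hq
  | mul_X p i hp =>
    rw [map_mul, aeval_X, Derivation.leibniz, smul_eq_mul, smul_eq_mul]
    exact v.add_mem _ _ (v.mul_mem _ _ (aeval_mem hs.hC hs.hc p) (hE i))
      (v.mul_mem _ _ (hs.hc i) hp)

/-- finiteness of the integral closure and étaleness -/
theorem L1 (k R K : Type) [Field k] [CommRing R] [IsDomain R] [IsNoetherianRing R]
    [IsIntegrallyClosed R] [Field K] [CharZero K] [Algebra R K] [FaithfulSMul R K]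
    [Algebra k R] [Algebra k K] [IsScalarTower k R K]
    (halg : ∀ z : K, IsAlgebraic R z)
    (hfg : ∃ s : Finset K, IntermediateField.adjoin k (s : Set K) = ⊤) :
    Module.Finite R (integralClosure R K) ∧ Algebra.FormallyEtale R K := by
  let F := FractionRing R
  let : Algebra F K := FractionRing.liftAlgebra R K
  have h1 : IsScalarTower R F K := FractionRing.isScalarTower_liftAlgebra R K
  have h2 : IsScalarTower k F K := IsScalarTower.to₁₃₄ k R F K
  have hF : CharZero F := (algebraMap F K).charZero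
  have h3 : ∀ z : K, IsAlgebraic F z := fun z =>
    (halg z).extendScalars (IsFractionRing.injective R F)
  have h4 : Algebra.IsAlgebraic F K := ⟨h3⟩
  have h5 : FiniteDimensional F K := by
    obtain ⟨s, hs⟩ := hfg
    have h6 : FiniteDimensional F (IntermediateField.adjoin F (s : Set K)) :=
      IntermediateField.finiteDimensional_adjoin fun x _ => (h3 x).isIntegral
    have h7 : IntermediateField.adjoin F (s : Set K) = ⊤ := by
      rw [eq_top_iff]
      intro x _
      have h8 : x ∈ IntermediateField.adjoin k (s : Set K) := by rw [hs]; trivial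
      have h9 : IntermediateField.adjoin k (s : Set K) ≤
          (IntermediateField.adjoin F (s : Set K)).restrictScalars k := by
        rw [IntermediateField.adjoin_le_iff]
        exact IntermediateField.subset_adjoin F _
      exact h9 h8
    rw [h7] at h6
    exact IntermediateField.topEquiv.toLinearEquiv.finiteDimensional
  have h10 : Algebra.IsSeparable F K := inferInstance
  refine ⟨IsIntegralClosure.finite R F K (integralClosure R K), ?_⟩
  have h11 : Algebra.FormallyEtale R F :=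
    Algebra.FormallyEtale.of_isLocalization (nonZeroDivisors R)
  have h12 : Algebra.FormallyEtale F K := Algebra.FormallyEtale.of_isSeparable F K
  exact Algebra.FormallyEtale.comp R F K

open TensorProduct KaehlerDifferential in
/-- the dual basis of derivations -/
theorem L2 (k ι K : Type) [Field k] [Fintype ι] [DecidableEq ι] [Field K] [Algebra k K]
    [Algebra (MvPolynomial ι k) K] [IsScalarTower k (MvPolynomial ι k) K]
    (hE : Algebra.FormallyEtale (MvPolynomial ι k) K) :
    ∃ D : ι → Derivation k K K,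
      (∀ i j, D i (algebraMap (MvPolynomial ι k) K (X j)) = if i = j then 1 else 0) ∧
      ∀ (δ : Derivation k K K) (z : K),
        δ z = ∑ i, δ (algebraMap (MvPolynomial ι k) K (X i)) * D i z := by
  let b0 := KaehlerDifferential.mvPolynomialBasis k ι
  let e := KaehlerDifferential.tensorKaehlerEquivOfFormallyEtale k (MvPolynomial ι k) K
  let b := (b0.baseChange K).map e
  have hb : ∀ i, b i = KaehlerDifferential.D k K (algebraMap (MvPolynomial ι k) K (X i)) := by
    intro i
    have h1 : b i = e (1 ⊗ₜ b0 i) := by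
      rw [Module.Basis.map_apply, Module.Basis.baseChange_apply]
    rw [h1]
    have h2 : b0 i = KaehlerDifferential.D k (MvPolynomial ι k) (X i) :=
      KaehlerDifferential.mvPolynomialBasis_apply k ι i
    rw [h2, ← KaehlerDifferential.tensorKaehlerEquivOfFormallyEtale_symm_D_algebraMap k
      (MvPolynomial ι k) K (X i)]
    exact LinearEquiv.apply_symm_apply e _
  refine ⟨fun i => (b.coord i).compDer (KaehlerDifferential.D k K), ?_, ?_⟩
  · intro i j
    show b.coord i (KaehlerDifferential.D k K (algebraMap (MvPolynomial ι k) K (X j))) = _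
    rw [← hb j, Module.Basis.coord_apply, Module.Basis.repr_self, Finsupp.single_apply]
    simp only [eq_comm]
  · intro δ z
    have h3 : δ z = δ.liftKaehlerDifferential (KaehlerDifferential.D k K z) :=
      (δ.liftKaehlerDifferential_comp_D z).symm
    rw [h3]
    conv_lhs => rw [← b.sum_repr (KaehlerDifferential.D k K z)]
    rw [map_sum]
    refine Finset.sum_congr rfl fun i _ => ?_
    rw [map_smul, hb i, δ.liftKaehlerDifferential_comp_D, smul_eq_mul, mul_comm]
    rfl

theorem main (hs : Sit m v c) (htr : Algebra.trdeg ℂ K = m + 1)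
    (hfg : ∃ s : Finset K, IntermediateField.adjoin ℂ (s : Set K) = ⊤) :
    ∃ D : Fin (m + 1) → Derivation ℂ K K, (∀ i j, D i (c j) = if i = j then 1 else 0) ∧
      (∀ i, ∀ z ∈ v, D i z ∈ v) ∧
      ∀ (δ : Derivation ℂ K K) (z : K), δ z = ∑ i, δ (c i) * D i z := by
  have hai := phi_inj hs
  have htb : IsTranscendenceBasis ℂ c := hai.isTranscendenceBasis_of_trdeg_le_of_finite (by
    rw [htr]
    simp)
  let : Algebra (A m) K := (aeval c : A m →ₐ[ℂ] K).toRingHom.toAlgebra
  have hmap : ∀ P : A m, algebraMap (A m) K P = aeval c P := fun P => rfl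
  have h1 : IsScalarTower ℂ (A m) K := IsScalarTower.of_algebraMap_eq fun r => by
    rw [hmap, MvPolynomial.algebraMap_eq, aeval_C]
  have h2 : FaithfulSMul (A m) K := (faithfulSMul_iff_algebraMap_injective (A m) K).2 hai
  have h3 : CharZero K := (algebraMap ℂ K).charZero_iff (algebraMap ℂ K).injective |>.1 inferInstance
  have halg : ∀ z : K, IsAlgebraic (A m) z := by
    intro z
    obtain ⟨p, hp, hpz⟩ := htb.isAlgebraic.isAlgebraic z
    refine ⟨p.map (hai.aevalEquiv.symm : _ →+* A m), ?_, ?_⟩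
    · rw [Ne, Polynomial.map_eq_zero_iff hai.aevalEquiv.symm.injective]
      exact hp
    · rw [Polynomial.aeval_def] at hpz ⊢
      rw [Polynomial.eval₂_map]
      rw [← hpz]
      congr 1
      ext s
      show aeval c (hai.aevalEquiv.symm s) = (s : K)
      rw [← hai.algebraMap_aevalEquiv, AlgEquiv.apply_symm_apply]
      rfl
  have halg' : ∀ z : K, ∃ f : Polynomial (A m), f ≠ 0 ∧ ev c z f = 0 := fun z => halg z
  obtain ⟨hfin, het⟩ := L1 ℂ (A m) K halg hfg
  obtain ⟨D, hD1, hD2⟩ := L2 ℂ (Fin (m + 1)) K het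
  have hX : ∀ i, algebraMap (A m) K (X i) = c i := fun i => by rw [hmap, aeval_X]
  refine ⟨D, fun i j => by rw [← hX j]; exact hD1 i j, ?_, fun δ z => ?_⟩
  · intro i
    have hE : ∀ P : A m, D i (aeval c P) ∈ v := by
      apply der_poly hs
      intro j
      rw [← hX j, hD1]
      split_ifs
      · exact v.one_mem
      · exact v.zero_mem
    obtain ⟨T, hT⟩ := hfin.fg_top
    refine reg_of_bdd hs hE halg' (bdd hs hE halg' T (fun y => (y : K)) (fun y _ => y.2) ?_)
    intro x hx
    have h5 : (⟨x, hx⟩ : integralClosure (A m) K) ∈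
        Submodule.span (A m) (T : Set (integralClosure (A m) K)) := by
      rw [hT]
      trivial
    obtain ⟨f, -, hf⟩ := Submodule.mem_span_finset.1 h5
    refine ⟨f, ?_⟩
    have h6 := congrArg (fun y : integralClosure (A m) K => (y : K)) hf
    simp only [AddSubmonoidClass.coe_finset_sum, Subalgebra.coe_smul, Algebra.smul_def] at h6
    exact h6.symm
  · have h7 := hD2 δ z
    simp only [hX] at h7
    exact h7

end LogdM

open LogdM in
theorem specLOGD (hO : SpecORD) : SpecLOGD := by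
  rintro K _ _ m v htr hfg ⟨hC, hD, u, hu, hP⟩
  have hl := hO K v hD
  obtain ⟨t, ht, ht0, ht1⟩ := hl.unif
  obtain ⟨c, hc0, hcs⟩ : ∃ c : Fin (m + 1) → K, c 0 = t ∧ (fun i : Fin m => c i.succ) = u :=
    ⟨Fin.cons t u, rfl, rfl⟩
  have hs : Sit m v c := by
    refine ⟨hC, ?_, ?_, ?_⟩
    · intro i
      refine Fin.cases ?_ (fun j => ?_) i
      · rw [hc0]
        exact ht
      · rw [show c j.succ = u j from congrFun hcs j]
        exact hu j
    · rw [hc0]
      exact tf_of_ord hl ht0 ht1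
    · rw [hcs]
      exact hP
  obtain ⟨D, h1, h2, h3⟩ := LogdM.main hs htr hfg
  exact ⟨c, D, hs.hc, by rw [hc0]; exact ⟨ht0, ht1⟩, h1, h2, h3, hs.hu⟩

end

end Pool.Agent.Lib.MPa7508c
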