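import Pool.Agent.Lib.MP_a7508c_ag.Spec2

/-!
# NRM: the norm of a homogeneous polynomial
-/

set_option autoImplicit false

namespace Pool.Agent.Lib.MPa7508c.NrmM

open MvPolynomial

noncomputable section

variable {ι : Type} [DecidableEq ι]

/-- scale the variable `j` by `z` -/
def tw (j : ι) (z : ℂ) : MvPolynomial ι ℂ →ₐ[ℂ] MvPolynomial ι ℂ :=
  aeval fun i => if i = j then C z * X i else X i

theorem tw_monomial (j : ι) (z : ℂ) (α : ι →₀ ℕ) (c : ℂ) :
    tw j z (monomial α c) = monomial α (z ^ α j * c) := by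
  rw [tw, aeval_monomial, monomial_eq, Finsupp.prod, Finsupp.prod, C_mul, algebraMap_eq]
  have h1 : ∀ i ∈ α.support, (if i = j then C z * X i else X i : MvPolynomial ι ℂ) ^ α i =
      (if i = j then C z ^ α i else 1) * X i ^ α i := by
    intro i _
    split_ifs
    · rw [mul_pow]
    · rw [one_mul]
  rw [Finset.prod_congr rfl h1, Finset.prod_mul_distrib, Finset.prod_ite_eq']
  have h2 : (if j ∈ α.support then (C z : MvPolynomial ι ℂ) ^ α j else 1) = C (z ^ α j) := by
    split_ifs with h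
    · rw [C_pow]
    · rw [Finsupp.notMem_support_iff.mp h, pow_zero, C_1]
  rw [h2]
  ring

theorem coeff_tw (j : ι) (z : ℂ) (α : ι →₀ ℕ) (P : MvPolynomial ι ℂ) :
    coeff α (tw j z P) = z ^ α j * coeff α P := by
  induction P using MvPolynomial.induction_on' with
  | monomial β c =>
    rw [tw_monomial, coeff_monomial, coeff_monomial]
    split_ifs with h
    · rw [h]
    · rw [mul_zero]
  | add p q hp hq => rw [map_add, coeff_add, coeff_add, hp, hq, mul_add]

theorem tw_tw (j : ι) (z y : ℂ) (P : MvPolynomial ι ℂ) : tw j z (tw j y P) = tw j (z * y) P := by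
  ext α
  rw [coeff_tw, coeff_tw, coeff_tw, mul_pow, mul_assoc]

theorem tw_one (j : ι) (P : MvPolynomial ι ℂ) : tw j 1 P = P := by
  ext α
  rw [coeff_tw, one_pow, one_mul]

theorem tw_homog (j : ι) (z : ℂ) {w : ι → ℕ} {d : ℕ} {P : MvPolynomial ι ℂ}
    (h : IsWeightedHomogeneous w P d) : IsWeightedHomogeneous w (tw j z P) d := by
  intro α hα
  rw [coeff_tw] at hα
  exact h (right_ne_zero_of_mul hα)

theorem tw_fp [Fintype ι] (b : ι → ℕ) (j : ι) (z : ℂ) (hz : z ^ b j = 1) :
    tw j z (fp ι b) = fp ι b := by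
  rw [fp, map_sum]
  refine Finset.sum_congr rfl fun i _ => ?_
  rw [map_pow, tw, aeval_X]
  split_ifs with h
  · subst h
    rw [mul_pow, ← C_pow, hz, C_1, one_mul]
  · rfl

/-- the product over all roots of unity -/
def Pi (j : ι) (z : ℂ) (a : ℕ) (P : MvPolynomial ι ℂ) : MvPolynomial ι ℂ :=
  ∏ k ∈ Finset.range a, tw j (z ^ k) P

theorem tw_Pi (j : ι) (z : ℂ) (a : ℕ) (hz : z ^ a = 1) (P : MvPolynomial ι ℂ) :
    tw j z (Pi j z a P) = Pi j z a P := by
  rw [Pi, map_prod]
  have h1 : ∏ k ∈ Finset.range a, tw j z (tw j (z ^ k) P) =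
      ∏ k ∈ Finset.range a, tw j (z ^ (k + 1)) P := by
    refine Finset.prod_congr rfl fun k _ => ?_
    rw [tw_tw, pow_succ']
  rw [h1]
  have h2 := Finset.prod_range_succ (fun k => tw j (z ^ k) P) a
  have h3 := Finset.prod_range_succ' (fun k => tw j (z ^ k) P) a
  rw [h2] at h3
  simp only [pow_zero, tw_one, hz] at h3
  by_cases hP : P = 0
  · subst hP; simp
  · exact (mul_right_cancel₀ hP h3).symm

theorem dvd_of_coeff (j : ι) (z : ℂ) (a : ℕ) (hz : IsPrimitiveRoot z a) (P : MvPolynomial ι ℂ)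
    (α : ι →₀ ℕ) (hα : coeff α (Pi j z a P) ≠ 0) : a ∣ α j := by
  have h1 := coeff_tw j z α (Pi j z a P)
  rw [tw_Pi j z a hz.pow_eq_one] at h1
  have h2 : z ^ α j = 1 := by
    have : (z ^ α j - 1) * coeff α (Pi j z a P) = 0 := by
      rw [sub_mul, one_mul, ← h1, sub_self]
    rcases mul_eq_zero.mp this with h | h
    · exact sub_eq_zero.mp h
    · exact absurd h hα
  exact hz.dvd_of_pow_eq_one _ h2

/-- the polynomial `X_j ^ (b j)` modulo `f` -/
def gj [Fintype ι] (b : ι → ℕ) (j : ι) : MvPolynomial ι ℂ := -∑ i ∈ Finset.univ.erase j, X i ^ b i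

theorem gj_eq [Fintype ι] (b : ι → ℕ) (j : ι) : X j ^ b j = gj b j + fp ι b := by
  rw [gj, fp, ← Finset.add_sum_erase _ _ (Finset.mem_univ j)]
  ring

/-- the elimination of `X_j ^ a` -/
def elim [Fintype ι] (b : ι → ℕ) (j : ι) (T : MvPolynomial ι ℂ) : MvPolynomial ι ℂ :=
  ∑ α ∈ T.support, monomial (α.erase j) (coeff α T) * gj b j ^ (α j / b j)

theorem elim_supported [Fintype ι] (b : ι → ℕ) (j : ι) (T : MvPolynomial ι ℂ) :
    elim b j T ∈ supported ℂ {i | i ≠ j} := by
  refine Subalgebra.sum_mem _ fun α _ => ?_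
  refine Subalgebra.mul_mem _ ?_ (Subalgebra.pow_mem _ ?_ _)
  · rw [mem_supported]
    intro i hi
    rw [Finset.mem_coe, mem_vars] at hi
    obtain ⟨β, hβ, hiβ⟩ := hi
    rw [mem_support_iff, coeff_monomial] at hβ
    have h1 : α.erase j = β := by
      by_contra h
      exact hβ (if_neg h)
    rw [← h1, Finsupp.support_erase] at hiβ
    exact Finset.ne_of_mem_erase hiβ
  · rw [gj]
    refine Subalgebra.neg_mem _ (Subalgebra.sum_mem _ fun i hi => Subalgebra.pow_mem _ ?_ _)
    rw [X_mem_supported]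
    exact Finset.ne_of_mem_erase hi

theorem elim_eq [Fintype ι] (b : ι → ℕ) (j : ι) (T : MvPolynomial ι ℂ)
    (hT : ∀ α, coeff α T ≠ 0 → b j ∣ α j) : mkF b (elim b j T) = mkF b T := by
  conv_rhs => rw [T.as_sum]
  rw [elim, map_sum, map_sum]
  refine Finset.sum_congr rfl fun α hα => ?_
  obtain ⟨q, hq⟩ := hT α (mem_support_iff.mp hα)
  have h8 : mkF b (fp ι b) = 0 :=
    Ideal.Quotient.eq_zero_iff_mem.mpr (Ideal.mem_span_singleton_self _)
  have h1 : mkF b (gj b j) = mkF b (X j) ^ b j := by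
    rw [← map_pow, gj_eq, map_add, h8, add_zero]
  have h2 : monomial α (coeff α T) = monomial (α.erase j) (coeff α T) * X j ^ (α j) := by
    rw [X_pow_eq_monomial, monomial_mul, mul_one, Finsupp.erase_add_single j α]
  have h3 : α j / b j * b j = α j := by
    rw [hq]
    rcases Nat.eq_zero_or_pos (b j) with h0 | h0
    · rw [h0]; simp
    · rw [Nat.mul_div_cancel_left _ h0, mul_comm]
  rw [h2, map_mul, map_mul, map_pow, h1, ← pow_mul, mul_comm (b j), h3, map_pow]

theorem elim_homog [Fintype ι] (b w : ι → ℕ) (L : ℕ) (hW : ∀ i, b i * w i = L) (j : ι)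
    (T : MvPolynomial ι ℂ) (n : ℕ) (hn : IsWeightedHomogeneous w T n)
    (hT : ∀ α, coeff α T ≠ 0 → b j ∣ α j) (hbj : 0 < b j) :
    IsWeightedHomogeneous w (elim b j T) n := by
  have hg : IsWeightedHomogeneous w (gj b j) L := by
    have : ∀ i ∈ Finset.univ.erase j, IsWeightedHomogeneous w (X i ^ b i : MvPolynomial ι ℂ) L := by
      intro i _
      have := (isWeightedHomogeneous_X ℂ w i).pow (b i)
      rwa [smul_eq_mul, hW] at this
    have h1 := IsWeightedHomogeneous.sum (Finset.univ.erase j) (fun i => X i ^ b i) L this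
    have h2 := Submodule.neg_mem (weightedHomogeneousSubmodule ℂ w L) h1
    exact h2
  rw [elim]
  refine IsWeightedHomogeneous.sum _ _ _ fun α hα => ?_
  obtain ⟨q, hq⟩ := hT α (mem_support_iff.mp hα)
  have h1 : IsWeightedHomogeneous w (monomial (α.erase j) (coeff α T))
      (Finsupp.weight w (α.erase j)) := isWeightedHomogeneous_monomial w _ _ rfl
  have h2 := h1.mul (hg.pow (α j / b j))
  have h3 : Finsupp.weight w (α.erase j) + (α j / b j) • L = n := by
    have h4 := hn (mem_support_iff.mp hα)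
    rw [← Finsupp.erase_add_single j α, map_add, Finsupp.weight_single] at h4
    rw [← h4, hq, Nat.mul_div_cancel_left _ hbj, ← hW j, smul_eq_mul, smul_eq_mul]
    simp
    ring
  rw [h3] at h2
  exact h2

end

end Pool.Agent.Lib.MPa7508c.NrmM

namespace Pool.Agent.Lib.MPa7508c

open MvPolynomial NrmM

theorem specNRM (hRNG : SpecRNG) : SpecNRM := by
  intro m Δ hm j d P hP hx0
  have hR := hRNG m Δ hm
  set a := Δ.a j with ha
  have ha2 : 2 ≤ a := Δ.wt.two_le j
  have hb : Δ.b (some j) = a := rfl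
  obtain ⟨ζ, hζ⟩ : ∃ ζ : ℂ, IsPrimitiveRoot ζ a :=
    ⟨_, Complex.isPrimitiveRoot_exp a (by omega)⟩
  set T := NrmM.Pi (some j) ζ a P with hT
  have hζk : ∀ k, (ζ ^ k) ^ Δ.b (some j) = 1 := by
    intro k
    rw [hb, ← pow_mul, mul_comm, pow_mul, hζ.pow_eq_one, one_pow]
  have hdvd : ∀ α, coeff α T ≠ 0 → Δ.b (some j) ∣ α (some j) := fun α hα =>
    dvd_of_coeff (some j) ζ a hζ P α hα
  have hTh : IsWeightedHomogeneous Δ.ww T (a * d) := by
    have := IsWeightedHomogeneous.prod (Finset.range a) (fun k => tw (some j) (ζ ^ k) P)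
      (fun _ => d) (fun k _ => tw_homog (some j) (ζ ^ k) hP)
    rw [Finset.sum_const, Finset.card_range, smul_eq_mul] at this
    exact this
  set Q : MvPolynomial (Option (Fin (m + 2))) ℂ :=
    ∏ k ∈ Finset.range (a - 1), tw (some j) (ζ ^ (k + 1)) P with hQ
  have hQh : IsWeightedHomogeneous Δ.ww Q ((a - 1) * d) := by
    have := IsWeightedHomogeneous.prod (Finset.range (a - 1))
      (fun k => tw (some j) (ζ ^ (k + 1)) P)
      (fun _ => d) (fun k _ => tw_homog (some j) (ζ ^ (k + 1)) hP)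
    rw [Finset.sum_const, Finset.card_range, smul_eq_mul] at this
    exact this
  have hTQ : T = P * Q := by
    have h1 := Finset.prod_range_succ' (fun k => tw (some j) (ζ ^ k) P) (a - 1)
    have h2 : a - 1 + 1 = a := by omega
    rw [h2, pow_zero, tw_one] at h1
    rw [hT, NrmM.Pi, h1, mul_comm]
  have hL : ∀ i, Δ.b i * Δ.ww i = Δ.L := by
    intro i
    cases i with
    | none => simp [Dat.b, Dat.ww]
    | some i => exact Δ.wt.mul i
  have hel := elim_eq Δ.b (some j) T hdvd
  -- `x_0` does not divide the class of `T`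
  have hnd : ¬ Δ.x0 ∣ mkF Δ.b T := by
    rw [hT, NrmM.Pi, map_prod]
    intro h
    obtain ⟨k, hk, hdk⟩ := (hR.x0prime.dvd_finsetProd_iff _).mp h
    apply hx0
    obtain ⟨r, hr⟩ := hdk
    obtain ⟨A, rfl⟩ := Ideal.Quotient.mk_surjective r
    have h1 : mkF Δ.b (tw (some j) (ζ ^ k) P - X none * A) = 0 := by
      rw [map_sub, hr, map_mul]; exact sub_self _
    obtain ⟨G, hG⟩ := Ideal.mem_span_singleton.mp (Ideal.Quotient.eq_zero_iff_mem.mp h1)
    have hka : k < a := Finset.mem_range.mp hk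
    have h2 := congrArg (tw (some j) (ζ ^ (a - k))) hG
    have h3 : ζ ^ (a - k) * ζ ^ k = 1 := by
      rw [← pow_add, Nat.sub_add_cancel hka.le, hζ.pow_eq_one]
    have h4 : tw (some j) (ζ ^ (a - k)) (X none : MvPolynomial (Option (Fin (m + 2))) ℂ) = X none := by
      rw [tw, aeval_X, if_neg (by simp)]
    rw [map_sub, tw_tw, h3, tw_one, map_mul, map_mul, tw_fp Δ.b (some j) _ (hζk _), h4] at h2
    have h5 : P = X none * tw (some j) (ζ ^ (a - k)) A + fp _ Δ.b * tw (some j) (ζ ^ (a - k)) G := by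
      linear_combination h2
    have h8 : mkF Δ.b (fp _ Δ.b) = 0 :=
      Ideal.Quotient.eq_zero_iff_mem.mpr (Ideal.mem_span_singleton_self _)
    refine ⟨mkF Δ.b (tw (some j) (ζ ^ (a - k)) A), ?_⟩
    conv_lhs => rw [h5]
    rw [map_add, map_mul, map_mul, h8, zero_mul, add_zero]
    rfl
  refine ⟨elim Δ.b (some j) T, Q, ?_, hQh, ?_, ?_, ?_, ?_⟩
  · exact elim_homog Δ.b Δ.ww Δ.L hL (some j) T (a * d) hTh hdvd (by rw [hb]; omega)
  · intro hmem
    have h1 := elim_supported Δ.b (some j) T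
    rw [mem_supported] at h1
    exact h1 hmem rfl
  · rw [hel, hTQ, map_mul]
  · rw [hel]
    intro h
    exact hnd (by rw [h]; exact dvd_zero _)
  · by_contra hcon
    push Not at hcon
    apply hnd
    rw [← hel]
    have h1 : (X none : MvPolynomial (Option (Fin (m + 2))) ℂ) ∣ elim Δ.b (some j) T := by
      rw [(elim Δ.b (some j) T).as_sum]
      refine Finset.dvd_sum fun α hα => ?_
      rw [X_dvd_monomial]
      right
      intro h0
      exact (mem_support_iff.mp hα) (hcon α h0)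
    exact map_dvd (mkF Δ.b) h1

end Pool.Agent.Lib.MPa7508c
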