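import Pool.Agent.Lib.MP_a7508c_ag.PRJ3
import Pool.Agent.Lib.MP_a7508c_ag.Spec2

/-!
Module PRJ: the hypersurface as a scheme.
-/

set_option autoImplicit false

open AlgebraicGeometry CategoryTheory TopologicalSpace MvPolynomial

namespace Pool.Agent.Lib.MPa7508c.PRJ

noncomputable section

attribute [local instance] MvPolynomial.weightedGradedAlgebra

lemma aeval_weighted {τ B : Type} [CommRing B] [Algebra ℂ B] (w : τ → ℕ) (t : B) (y : τ → B)
    {p : MvPolynomial τ ℂ} {m : ℕ} (hp : IsWeightedHomogeneous w p m) :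
    aeval (fun i => t ^ w i * y i) p = t ^ m * aeval y p := by
  conv_lhs => rw [p.as_sum]
  conv_rhs => rw [p.as_sum]
  rw [map_sum, map_sum, Finset.mul_sum]
  refine Finset.sum_congr rfl fun d hd => ?_
  have h1 := hp (mem_support_iff.1 hd)
  rw [aeval_monomial, aeval_monomial, ← h1, Finsupp.weight_apply]
  simp only [Finsupp.sum, Finsupp.prod, mul_pow, Finset.prod_mul_distrib, smul_eq_mul,
    ← pow_mul, Finset.prod_pow_eq_pow_sum]
  rw [Finset.sum_congr rfl fun i _ => mul_comm (w i) (d i)]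
  ring

section

variable {m : ℕ} (Δ : Dat m)

lemma mk_eq_zero_iff (P : MvPolynomial (Option (Fin (m + 2))) ℂ) :
    mkF Δ.b P = 0 ↔ fp _ Δ.b ∣ P := by
  rw [← Ideal.mem_span_singleton]
  exact Ideal.Quotient.eq_zero_iff_mem

/-- setting `x_0 = 1` in polynomials -/
def dehom (m : ℕ) :
    MvPolynomial (Option (Fin (m + 2))) ℂ →ₐ[ℂ] MvPolynomial (Fin (m + 2)) ℂ :=
  aeval (fun o => o.elim 1 X)

lemma dehom_fp : dehom m (fp _ Δ.b) = 1 + fp (Fin (m + 2)) Δ.a := by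
  simp only [dehom, fp, Fintype.sum_option, map_add, map_pow, map_sum, aeval_X]
  simp [Dat.b]

lemma exists_hom (P : MvPolynomial (Fin (m + 2)) ℂ) :
    ∃ (N : ℕ) (Q : MvPolynomial (Option (Fin (m + 2))) ℂ), IsWeightedHomogeneous Δ.ww Q N ∧
      dehom m Q = P := by
  obtain ⟨N, hN⟩ := homogenizeR Δ.ww (fun o : Option (Fin (m + 2)) =>
    (o.elim 1 X : MvPolynomial (Fin (m + 2)) ℂ)) (o := none) rfl rfl (rename some P)
  obtain ⟨Q, hQ, e⟩ := hN N le_rfl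
  refine ⟨N, Q, hQ, ?_⟩
  show aeval _ Q = P
  rw [e, aeval_rename]
  exact aeval_X_left_apply P

lemma fp_hom : IsWeightedHomogeneous Δ.ww (fp _ Δ.b) Δ.L := by
  unfold fp
  apply IsWeightedHomogeneous.sum
  intro i _
  have h := (isWeightedHomogeneous_X ℂ Δ.ww i).pow (Δ.b i)
  have e : Δ.b i • Δ.ww i = Δ.L := by
    cases i with
    | none => show Δ.L • 1 = Δ.L; simp
    | some i => exact Δ.wt.mul i
  rwa [e] at h

variable [IsDomain Δ.R]

/-- the field of fractions of the coordinate ring -/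
abbrev FF : Type := FractionRing Δ.R

/-- the affine coordinates in the field of fractions of the coordinate ring -/
def yy (i : Fin (m + 2)) : FF Δ :=
  algebraMap Δ.R (FF Δ) (Δ.xx i) / algebraMap Δ.R (FF Δ) Δ.x0 ^ Δ.w i

/-- the function field -/
abbrev KK : Type := IntermediateField.adjoin ℂ (Set.range (yy Δ))

/-- the affine coordinates in the function field -/
def zz (i : Fin (m + 2)) : KK Δ :=
  ⟨yy Δ i, IntermediateField.subset_adjoin ℂ _ ⟨i, rfl⟩⟩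

lemma coe_aeval_zz (P : MvPolynomial (Fin (m + 2)) ℂ) :
    ((aeval (zz Δ) P : KK Δ) : FF Δ) = aeval (yy Δ) P := by
  have h := MvPolynomial.map_aeval (zz Δ) (algebraMap (KK Δ) (FF Δ)) P
  rw [show ((aeval (zz Δ) P : KK Δ) : FF Δ) = algebraMap (KK Δ) (FF Δ) (aeval (zz Δ) P) from rfl]
  rw [h]
  rfl

lemma aeval_coords (hx0 : Δ.x0 ≠ 0) (Q : MvPolynomial (Option (Fin (m + 2))) ℂ) (N : ℕ)
    (hQ : IsWeightedHomogeneous Δ.ww Q N) :
    algebraMap Δ.R (FF Δ) (mkF Δ.b Q) =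
      algebraMap Δ.R (FF Δ) Δ.x0 ^ N * aeval (yy Δ) (dehom m Q) := by
  have ht : algebraMap Δ.R (FF Δ) Δ.x0 ≠ 0 := by
    rw [Ne, IsFractionRing.to_map_eq_zero_iff]
    exact hx0
  have h1 : aeval (yy Δ) (dehom m Q) = aeval (fun o : Option (Fin (m + 2)) => o.elim 1 (yy Δ)) Q := by
    rw [dehom, ← AlgHom.comp_apply]
    congr 1
    ext o
    cases o <;> simp
  have h2 := aeval_weighted Δ.ww (algebraMap Δ.R (FF Δ) Δ.x0)
    (fun o : Option (Fin (m + 2)) => o.elim 1 (yy Δ)) hQ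
  rw [h1, ← h2]
  have h3 : (fun i : Option (Fin (m + 2)) => algebraMap Δ.R (FF Δ) Δ.x0 ^ Δ.ww i *
      (i.elim 1 (yy Δ) : FF Δ)) = fun i => algebraMap Δ.R (FF Δ) (mkF Δ.b (X i)) := by
    funext i
    cases i with
    | none => simp [Dat.ww, Dat.x0]
    | some i =>
      show algebraMap Δ.R (FF Δ) Δ.x0 ^ Δ.w i * yy Δ i = _
      unfold yy
      rw [mul_div_cancel₀ _ (pow_ne_zero _ ht)]
      rfl
  rw [h3]
  have h4 : (aeval (fun i => algebraMap Δ.R (FF Δ) (mkF Δ.b (X i))) :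
      MvPolynomial (Option (Fin (m + 2))) ℂ →ₐ[ℂ] FF Δ) =
      (IsScalarTower.toAlgHom ℂ Δ.R (FF Δ)).comp (mkF Δ.b) := by
    apply MvPolynomial.algHom_ext
    intro i
    rw [aeval_X]
    rfl
  rw [h4]
  rfl

lemma isFun (hx0 : Δ.x0 ≠ 0) : IsFun Δ (KK Δ) (zz Δ) where
  eqn := by
    have ht : algebraMap Δ.R (FF Δ) Δ.x0 ≠ 0 := by
      rw [Ne, IsFractionRing.to_map_eq_zero_iff]
      exact hx0
    have h1 := aeval_coords Δ hx0 (fp _ Δ.b) Δ.L (fp_hom Δ)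
    rw [(mk_eq_zero_iff Δ _).2 dvd_rfl, map_zero, dehom_fp] at h1
    have h2 : aeval (yy Δ) (1 + fp (Fin (m + 2)) Δ.a) = 0 := by
      rcases mul_eq_zero.1 h1.symm with h | h
      · exact absurd h (pow_ne_zero _ ht)
      · exact h
    rw [← coe_aeval_zz] at h2
    have h3 : aeval (zz Δ) (1 + fp (Fin (m + 2)) Δ.a) = 0 := Subtype.ext h2
    rw [← h3]
    simp [fp]
  ker := by
    intro P hP
    obtain ⟨N, Q, hQ, hQP⟩ := exists_hom Δ P
    have h1 := aeval_coords Δ hx0 Q N hQ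
    rw [hQP, ← coe_aeval_zz, hP] at h1
    have h2 : mkF Δ.b Q = 0 := by
      rw [← IsFractionRing.to_map_eq_zero_iff (K := FF Δ), h1]
      simp
    rw [mk_eq_zero_iff] at h2
    rw [← hQP, ← dehom_fp]
    exact map_dvd _ h2
  gen := by
    intro z
    have hz : (z : FF Δ) ∈ IntermediateField.adjoin ℂ (Set.range (yy Δ)) := z.2
    rw [IntermediateField.mem_adjoin_range_iff] at hz
    obtain ⟨r, s, e⟩ := hz
    by_cases hs : aeval (yy Δ) s = 0
    · rw [hs, div_zero] at e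
      refine ⟨0, 1, by simp, ?_⟩
      have hz0 : z = 0 := Subtype.ext e
      rw [hz0]; simp
    · refine ⟨r, s, ?_, ?_⟩
      · intro h
        apply hs
        rw [← coe_aeval_zz, h]; rfl
      · apply Subtype.ext
        show (z : FF Δ) * ((aeval (zz Δ) s : KK Δ) : FF Δ) = ((aeval (zz Δ) r : KK Δ) : FF Δ)
        rw [coe_aeval_zz, coe_aeval_zz, e, div_mul_cancel₀ _ hs]

end

section

variable {m : ℕ} {Δ : Dat m} {K : Type} [Field K] [Algebra ℂ K] {x : Fin (m + 2) → K}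

/-- all homogeneous coordinates, `x_0 = 1` -/
def x1 (x : Fin (m + 2) → K) : Option (Fin (m + 2)) → K := fun o => o.elim 1 x

lemma aeval_x1 (P : MvPolynomial (Option (Fin (m + 2))) ℂ) : aeval (x1 x) P = dhP x P := rfl

lemma gen_x1 (h : IsFun Δ K x) : ∀ k : K, ∃ u v : MvPolynomial (Option (Fin (m + 2))) ℂ,
    aeval (x1 x) v ≠ 0 ∧ k = aeval (x1 x) u / aeval (x1 x) v := by
  intro k
  obtain ⟨P, Q, hQ, e⟩ := h.gen k
  have key : ∀ P : MvPolynomial (Fin (m + 2)) ℂ,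
      aeval (x1 x) (rename (some : Fin (m + 2) → Option (Fin (m + 2))) P) = aeval x P := by
    intro P
    rw [aeval_rename]
    rfl
  refine ⟨rename some P, rename some Q, ?_, ?_⟩
  · rw [key]; exact hQ
  · rw [key, key, eq_div_iff hQ, e]

lemma vI_eq (h : IsFun Δ K x) (hf : FunLaws h) :
    vI Δ.ww (x1 x) = Ideal.span {fp _ Δ.b} := by
  apply le_antisymm
  · intro p hp
    rw [← MvPolynomial.sum_weightedHomogeneousComponent Δ.ww p]
    rw [finsum_eq_sum _ (weightedHomogeneousComponent_finsupp p)]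
    refine Ideal.sum_mem _ fun d _ => ?_
    have h1 : weightedHomogeneousComponent Δ.ww d p ∈ vI Δ.ww (x1 x) :=
      weightedHomogeneousComponent_mem_of_mem ℂ Δ.ww (vI_homogeneous Δ.ww (x1 x)) hp d
    have hd := weightedHomogeneousComponent_isWeightedHomogeneous (w := Δ.ww) d p
    rw [mem_vI_of_hom _ _ hd] at h1
    have h2 : mkF Δ.b (weightedHomogeneousComponent Δ.ww d p) = 0 := by
      apply hf.inj d
      · exact ⟨_, hd, rfl⟩
      · rw [dh_mk]; exact h1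
    exact Ideal.Quotient.eq_zero_iff_mem.1 h2
  · rw [Ideal.span_singleton_le_iff_mem, mem_vI_of_hom _ _ (fp_hom Δ)]
    exact dhP_fp h

lemma ww_ne (i : Option (Fin (m + 2))) : Δ.ww i ≠ 0 := by
  cases i with
  | none => exact one_ne_zero
  | some i => exact (Δ.wt.pos i).ne'

/-- the local rings of two homogeneous primes determine which variables they contain -/
lemma var_mem_of_loc_eq (h : IsFun Δ K x) (hf : FunLaws h)
    {𝔓 𝔔 : Ideal (MvPolynomial (Option (Fin (m + 2))) ℂ)} {O : Subring K}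
    (h1 : IsLocAt Δ x 𝔓 O) (h2 : IsLocAt Δ x 𝔔 O) (k : Option (Fin (m + 2)))
    (hk : X k ∈ 𝔔) : X k ∈ 𝔓 := by
  by_contra hkP
  obtain ⟨j, hj⟩ := h2.irrel
  have hwk := ww_ne (Δ := Δ) k
  have hwj := ww_ne (Δ := Δ) j
  have hq := h2.prime
  have hp := h1.prime
  -- the element `X_j ^ w_k / X_k ^ w_j`
  have hXk : IsWeightedHomogeneous Δ.ww (X k ^ Δ.ww j : MvPolynomial _ ℂ) (Δ.ww j * Δ.ww k) := by
    have := (isWeightedHomogeneous_X ℂ Δ.ww k).pow (Δ.ww j)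
    simpa using this
  have hXj : IsWeightedHomogeneous Δ.ww (X j ^ Δ.ww k : MvPolynomial _ ℂ) (Δ.ww j * Δ.ww k) := by
    have := (isWeightedHomogeneous_X ℂ Δ.ww j).pow (Δ.ww k)
    simpa [mul_comm] using this
  have hne : dhP x (X k ^ Δ.ww j) ≠ 0 := by
    intro h0
    have h3 : mkF Δ.b (X k ^ Δ.ww j) = 0 := hf.inj _ _ ⟨_, hXk, rfl⟩ (by rw [dh_mk]; exact h0)
    have h4 : (X k ^ Δ.ww j : MvPolynomial _ ℂ) ∈ Ideal.span {fp _ Δ.b} :=
      Ideal.Quotient.eq_zero_iff_mem.1 h3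
    have h5 : (X k ^ Δ.ww j : MvPolynomial _ ℂ) ∈ 𝔓 :=
      (Ideal.span_singleton_le_iff_mem _).2 h1.fp_mem h4
    exact hkP (hp.mem_of_pow_mem _ h5)
  have hz : dhP x (X j ^ Δ.ww k) / dhP x (X k ^ Δ.ww j) ∈ O := by
    rw [h1.mem]
    exact ⟨_, X j ^ Δ.ww k, X k ^ Δ.ww j, hXj, hXk, fun h => hkP (hp.mem_of_pow_mem _ h),
      div_mul_cancel₀ _ hne⟩
  rw [h2.mem] at hz
  obtain ⟨d, P, Q, hP, hQ, hQq, e⟩ := hz
  rw [div_mul_eq_mul_div, div_eq_iff hne, ← map_mul, ← map_mul] at e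
  have h3 : X j ^ Δ.ww k * Q - P * X k ^ Δ.ww j ∈ vI Δ.ww (x1 x) := by
    have h4 : IsWeightedHomogeneous Δ.ww (X j ^ Δ.ww k * Q - P * X k ^ Δ.ww j)
        (Δ.ww j * Δ.ww k + d) := by
      apply IsWeightedHomogeneous.sub
      · exact hXj.mul hQ
      · rw [add_comm (Δ.ww j * Δ.ww k) d]
        exact hP.mul hXk
    rw [mem_vI_of_hom _ _ h4, aeval_x1, map_sub, e, sub_self]
  rw [vI_eq h hf] at h3
  have h4 : X j ^ Δ.ww k * Q - P * X k ^ Δ.ww j ∈ 𝔔 :=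
    (Ideal.span_singleton_le_iff_mem _).2 h2.fp_mem h3
  have h5 : P * X k ^ Δ.ww j ∈ 𝔔 :=
    Ideal.mul_mem_left _ _ (Ideal.pow_mem_of_mem _ hk _ (Nat.pos_of_ne_zero hwj))
  have h6 : X j ^ Δ.ww k * Q ∈ 𝔔 := by
    have := Ideal.add_mem _ h4 h5
    rwa [sub_add_cancel] at this
  rcases hq.mem_or_mem h6 with h7 | h7
  · exact hj (hq.mem_of_pow_mem _ h7)
  · exact hQq h7

end

end

end Pool.Agent.Lib.MPa7508c.PRJ

namespace Pool.Agent.Lib.MPa7508c

open PRJ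

noncomputable section

/-- PRJ. -/
theorem specPRJ (hRNG : SpecRNG) (hFUN : SpecFUN) : SpecPRJ := by
  intro m Δ hm
  have hR := hRNG m Δ hm
  have hdom : IsDomain Δ.R := hR.dom
  have hx0 : Δ.x0 ≠ 0 := hR.x0prime.ne_zero
  have h : IsFun Δ (KK Δ) (zz Δ) := PRJ.isFun Δ hx0
  have hf : FunLaws h := hFUN m Δ hm (KK Δ) (zz Δ) h
  have hdh := isDh Δ.ww (x1 (zz Δ)) (o := none) rfl rfl (gen_x1 h)
  have hp := hpos Δ.ww (x1 (zz Δ)) (o := none) rfl rfl
  have hint : IsIntegral (Proj (vG Δ.ww (x1 (zz Δ)))) := isIntegral hdh hp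
  have hft : Algebra.FiniteType ℂ (vA Δ.ww (x1 (zz Δ))) := inferInstance
  have hprop : IsProper (str (vG Δ.ww (x1 (zz Δ)))) :=
    isProper_str _ (deg_zero Δ.ww (x1 (zz Δ)) (ww_ne (Δ := Δ))) hft inferInstance
  have hvI := vI_eq h hf
  let V : CVar :=
    { X := Proj (vG Δ.ww (x1 (zz Δ)))
      f := str (vG Δ.ww (x1 (zz Δ)))
      isIntegral := hint
      finType := inferInstance
      K := KK Δ
      e := (ffEquiv hdh hp).symm
      he := by
        intro c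
        rw [RingEquiv.symm_apply_eq]
        exact (st_const hdh _ c).symm }
  have hloc : ∀ y : Proj (vG Δ.ww (x1 (zz Δ))),
      IsLocAt Δ (zz Δ) (ofPt Δ.ww (x1 (zz Δ)) y) (V.loc y) := by
    intro y
    have hpt := isPt_ofPt Δ.ww (x1 (zz Δ)) (ww_ne (Δ := Δ)) y
    refine ⟨hpt.prime, ?_, hpt.hom, hpt.ne, ?_⟩
    · apply hpt.le
      rw [hvI]
      exact Ideal.mem_span_singleton_self _
    · intro z
      have e1 := range_loc Δ.ww (x1 (zz Δ)) (o := none) rfl rfl (gen_x1 h) y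
      have e2 : z ∈ V.loc y ↔ z ∈ loc Δ.ww (x1 (zz Δ)) (ofPt Δ.ww (x1 (zz Δ)) y) := by
        rw [← e1]
        show (∃ t, algebraMap _ V.X.functionField t = (ffEquiv hdh hp).symm z) ↔ ∃ t, _ = z
        constructor
        · rintro ⟨t, ht⟩
          refine ⟨t, ?_⟩
          have := congrArg (ffEquiv hdh hp) ht
          rw [RingEquiv.apply_symm_apply] at this
          exact this
        · rintro ⟨t, ht⟩
          refine ⟨t, ?_⟩
          rw [← ht]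
          exact ((ffEquiv hdh hp).symm_apply_apply _).symm
      rw [e2]
      constructor
      · rintro ⟨d, P, Q, hP, hQ, hQy, e⟩
        refine ⟨d, P, Q, hP, hQ, hQy, ?_⟩
        have hne : aeval (x1 (zz Δ)) Q ≠ 0 := fun h0 =>
          hQy (hpt.le ((mem_vI_of_hom _ _ hQ).2 h0))
        rw [e, ← aeval_x1, ← aeval_x1, div_mul_cancel₀ _ hne]
      · rintro ⟨d, P, Q, hP, hQ, hQy, e⟩
        refine ⟨d, P, Q, hP, hQ, hQy, ?_⟩
        have hne : aeval (x1 (zz Δ)) Q ≠ 0 := fun h0 =>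
          hQy (hpt.le ((mem_vI_of_hom _ _ hQ).2 h0))
        rw [eq_div_iff hne]
        exact e
  refine ⟨V, zz Δ, h, ?_, hprop, ?_⟩
  · ext O
    constructor
    · rintro ⟨y, rfl⟩
      exact ⟨_, hloc y⟩
    · rintro ⟨𝔓, hO⟩
      have hpt : IsPt Δ.ww (x1 (zz Δ)) 𝔓 := by
        refine ⟨hO.prime, hO.homog, ?_, hO.irrel⟩
        rw [hvI]
        exact (Ideal.span_singleton_le_iff_mem _).2 hO.fp_mem
      refine ⟨toPt Δ.ww (x1 (zz Δ)) (ww_ne (Δ := Δ)) 𝔓 hpt, ?_⟩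
      have h1 := hloc (toPt Δ.ww (x1 (zz Δ)) (ww_ne (Δ := Δ)) 𝔓 hpt)
      have h2 : ofPt Δ.ww (x1 (zz Δ)) (toPt Δ.ww (x1 (zz Δ)) (ww_ne (Δ := Δ)) 𝔓 hpt) = 𝔓 := by
        ext p
        exact mem_toPt Δ.ww (x1 (zz Δ)) (ww_ne (Δ := Δ)) 𝔓 hpt p
      rw [h2] at h1
      ext z
      exact (h1.mem z).trans (hO.mem z).symm
  · intro k
    refine ⟨Proj.basicOpen (vG Δ.ww (x1 (zz Δ))) (Ideal.Quotient.mk _ (X k)), ?_, ?_⟩
    · exact Proj.isAffineOpen_basicOpen (vG Δ.ww (x1 (zz Δ))) _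
        (⟨X k, isWeightedHomogeneous_X ℂ Δ.ww k, rfl⟩ :
          Ideal.Quotient.mk (vI Δ.ww (x1 (zz Δ))) (X k) ∈ vG Δ.ww (x1 (zz Δ)) (Δ.ww k))
        (Nat.pos_of_ne_zero (ww_ne (Δ := Δ) k))
    · intro y 𝔓 h𝔓
      have h1 := hloc y
      have h2 : y ∈ Proj.basicOpen (vG Δ.ww (x1 (zz Δ)))
          (Ideal.Quotient.mk (vI Δ.ww (x1 (zz Δ))) (X k)) ↔
          X k ∉ ofPt Δ.ww (x1 (zz Δ)) y := Iff.rfl
      refine h2.trans (not_congr ⟨fun h3 => ?_, fun h3 => ?_⟩)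
      · exact var_mem_of_loc_eq h hf h𝔓 h1 k h3
      · exact var_mem_of_loc_eq h hf h1 h𝔓 k h3

end

end Pool.Agent.Lib.MPa7508c
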