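import Pool.Agent.Lib.MP_a7508c_ag.Spec
import Pool.Agent.Lib.MP_a7508c_ag.Huf
import Pool.Agent.Lib.MP_a7508c_ag.Logd

section
/-!
# LOCP, part 1: an abstract form of the local principality

`B` is a factorial domain with a point `ε : B → ℂ`, `F` a monic prime polynomial over `B`, and `𝔓` a
prime of height one over `F`, through the point `(ε, 0)`, such that the fibre of `𝔓` over `ε` is
supported at this point, and `F` has a simple zero there.
-/
set_option autoImplicit false

namespace Pool.Agent.Lib.MPa7508c.LocpM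

open Polynomial

noncomputable section

section Abs

variable {B : Type} [CommRing B]

/-- `y` can be made constant modulo `s Z - β` after multiplication by a power of `s`. -/
theorem reduce (s β : B) (y : B[X]) (n : ℕ) (hn : y.natDegree ≤ n) :
    ∃ (y0 : B) (y1 : B[X]), C s ^ n * y = C y0 + (C s * X - C β) * y1 := by
  classical
  refine Polynomial.induction_with_natDegree_le
    (motive := fun y => ∃ (y0 : B) (y1 : B[X]), C s ^ n * y = C y0 + (C s * X - C β) * y1)
    n ?_ ?_ ?_ y hn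
  · exact ⟨0, 0, by simp⟩
  · intro k a ha hk
    obtain ⟨q, hq⟩ := sub_dvd_pow_sub_pow (C s * X) (C β : B[X]) k
    refine ⟨a * s ^ (n - k) * β ^ k, C (a * s ^ (n - k)) * q, ?_⟩
    have h1 : (C s * X) ^ k = (C β) ^ k + (C s * X - C β) * q := by rw [← hq]; ring
    have h2 : (C s : B[X]) ^ n = C s ^ (n - k) * C s ^ k := by
      rw [← pow_add, Nat.sub_add_cancel hk]
    calc C s ^ n * (C a * X ^ k) = C a * C s ^ (n - k) * (C s * X) ^ k := by rw [h2]; ring
      _ = _ := by rw [h1]; simp only [C_mul, C_pow]; ring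
  · rintro f g - - ⟨y0, y1, h⟩ ⟨y0', y1', h'⟩
    exact ⟨y0 + y0', y1 + y1', by rw [mul_add, h, h', C_add]; ring⟩

/-- Step A -/
theorem stepA (φ : B[X] →+* ℂ[X]) (𝔓 : Ideal B[X]) (F : B[X]) (hF : F ∈ 𝔓)
    (h0 : (φ F).coeff 0 = 0) (h1 : (φ F).coeff 1 ≠ 0) (n : ℕ)
    (hn : (X : ℂ[X]) ^ n ∈ 𝔓.map φ) : (X : ℂ[X]) ∈ 𝔓.map φ := by
  have hFm : φ F ∈ 𝔓.map φ := Ideal.mem_map_of_mem _ hF
  have hG : φ F = X * (φ F).divX := by
    conv_lhs => rw [← Polynomial.X_mul_divX_add (φ F)]
    rw [h0]; simp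
  have hc : IsCoprime ((X : ℂ[X]) ^ n) (φ F).divX := by
    apply IsCoprime.pow_left
    rw [(Polynomial.irreducible_X).coprime_iff_not_dvd, Polynomial.X_dvd_iff, Polynomial.coeff_divX]
    exact h1
  obtain ⟨a, c, hac⟩ := hc
  have : (X : ℂ[X]) = (a * X) * X ^ n + c * φ F := by
    calc (X : ℂ[X]) = (a * X ^ n + c * (φ F).divX) * X := by rw [hac, one_mul]
      _ = (a * X) * X ^ n + c * (X * (φ F).divX) := by ring
      _ = _ := by rw [← hG]
  rw [this]
  exact Ideal.add_mem _ (Ideal.mul_mem_left _ _ hn) (Ideal.mul_mem_left _ _ hFm)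

theorem smul_mk' (𝔓 : Ideal B[X]) (b : B) (g : B[X]) :
    b • (Ideal.Quotient.mk 𝔓 g) = Ideal.Quotient.mk 𝔓 (C b * g) := by
  rw [← Polynomial.smul_eq_C_mul]; rfl

theorem smul_one' (𝔓 : Ideal B[X]) (b : B) :
    b • (1 : B[X] ⧸ 𝔓) = Ideal.Quotient.mk 𝔓 (C b) := by
  have := smul_mk' 𝔓 b 1
  rwa [mul_one, map_one] at this

/-- Step C, D: Nakayama -/
theorem stepD (ε : B →+* ℂ) (hε : Function.Surjective ε) (F : B[X]) (hF : F.Monic)
    (𝔓 : Ideal B[X]) (hF𝔓 : F ∈ 𝔓) (hX : (X : ℂ[X]) ∈ 𝔓.map (mapRingHom ε)) :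
    ∃ s β : B, ε s = 1 ∧ C s * X - C β ∈ 𝔓 := by
  have hφ : Function.Surjective (mapRingHom ε) := Polynomial.map_surjective ε hε
  have hfin : Module.Finite B (B[X] ⧸ 𝔓) := by
    have h1 : Module.Finite B (B[X] ⧸ Ideal.span {F}) := hF.finite_adjoinRoot
    have hle : Ideal.span {F} ≤ 𝔓 := by rwa [Ideal.span_singleton_le_iff_mem]
    exact Module.Finite.of_surjective
      ((Ideal.Quotient.factorₐ B hle).toLinearMap)
      (Ideal.Quotient.factor_surjective hle)
  have hFG : (⊤ : Submodule B (B[X] ⧸ 𝔓)).FG := hfin.fg_top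
  have hNak : (⊤ : Submodule B (B[X] ⧸ 𝔓)) ≤
      Submodule.span B {1} ⊔ RingHom.ker ε • (⊤ : Submodule B (B[X] ⧸ 𝔓)) := by
    rintro m -
    obtain ⟨g, rfl⟩ := Ideal.Quotient.mk_surjective m
    -- `φ g = const + X * ...`
    have hgm : (mapRingHom ε g - C (ε (g.coeff 0))) ∈ 𝔓.map (mapRingHom ε) := by
      have : mapRingHom ε g - C (ε (g.coeff 0)) = (mapRingHom ε g).divX * X := by
        conv_lhs => rw [← Polynomial.X_mul_divX_add (mapRingHom ε g)]
        simp [mul_comm]
      rw [this]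
      exact Ideal.mul_mem_left _ _ hX
    obtain ⟨y, hy, hyg⟩ := (Ideal.mem_map_iff_of_surjective _ hφ).mp hgm
    have hker : ∀ n, ε ((g - C (g.coeff 0) - y).coeff n) = 0 := by
      intro n
      have : mapRingHom ε (g - C (g.coeff 0) - y) = 0 := by
        rw [map_sub, map_sub, hyg]; simp
      have h2 := congrArg (fun P : ℂ[X] => P.coeff n) this
      simp only [coe_mapRingHom, Polynomial.coeff_map, Polynomial.coeff_zero] at h2
      exact h2
    have hy0 : Ideal.Quotient.mk 𝔓 y = 0 := Ideal.Quotient.eq_zero_iff_mem.mpr hy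
    have hdec : Ideal.Quotient.mk 𝔓 g = (g.coeff 0) • (1 : B[X] ⧸ 𝔓)
        + Ideal.Quotient.mk 𝔓 (g - C (g.coeff 0) - y) := by
      rw [smul_one', map_sub, map_sub, hy0]; ring
    rw [hdec]
    refine Submodule.add_mem_sup (Submodule.smul_mem _ _ (Submodule.mem_span_singleton_self _)) ?_
    generalize hr : g - C (g.coeff 0) - y = r at hker
    rw [r.as_sum_range_C_mul_X_pow, map_sum]
    refine Submodule.sum_mem _ fun n _ => ?_
    have : Ideal.Quotient.mk 𝔓 (C (r.coeff n) * X ^ n) =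
        (r.coeff n) • Ideal.Quotient.mk 𝔓 (X ^ n) := (smul_mk' _ _ _).symm
    rw [this]
    exact Submodule.smul_mem_smul (by rw [RingHom.mem_ker]; exact hker n) Submodule.mem_top
  obtain ⟨s, hs, hsm⟩ := Submodule.exists_sub_one_mem_and_smul_le_of_fg_of_le_sup hFG le_top hNak
  have h1 : s • Ideal.Quotient.mk 𝔓 X ∈ Submodule.span B {(1 : B[X] ⧸ 𝔓)} :=
    hsm (Submodule.smul_mem_pointwise_smul _ _ _ Submodule.mem_top)
  obtain ⟨β, hβ⟩ := Submodule.mem_span_singleton.mp h1
  refine ⟨s, β, ?_, ?_⟩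
  · have := (RingHom.mem_ker).mp hs
    rw [map_sub, map_one, sub_eq_zero] at this
    exact this
  · rw [← Ideal.Quotient.eq_zero_iff_mem, map_sub, sub_eq_zero, ← smul_mk', ← smul_one']
    exact hβ.symm

/-- Step E: the contraction of `𝔓` is principal. -/
theorem stepE [IsDomain B] [UniqueFactorizationMonoid B] (F : B[X]) (hF : F.Monic)
    (hFp : Prime F) (𝔓 : Ideal B[X]) (h𝔓 : 𝔓.IsPrime) (hF𝔓 : F ∈ 𝔓) (hne : 𝔓 ≠ Ideal.span {F})
    (hmin : ∀ 𝔔 : Ideal B[X], 𝔔.IsPrime → F ∈ 𝔔 → 𝔔 ≠ Ideal.span {F} → 𝔔 ≤ 𝔓 → 𝔔 = 𝔓) :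
    ∃ h : B, C h ∈ 𝔓 ∧ ∀ b : B, C b ∈ 𝔓 → h ∣ b := by
  have hFI : (Ideal.span {F}).IsPrime := (Ideal.span_singleton_prime hFp.ne_zero).mpr hFp
  have hdom : IsDomain (B[X] ⧸ Ideal.span {F}) := Ideal.Quotient.isDomain _
  have h1 : Module.Finite B (B[X] ⧸ Ideal.span {F}) := hF.finite_adjoinRoot
  have h2 : Module.Free B (B[X] ⧸ Ideal.span {F}) := hF.free_adjoinRoot
  have hle : Ideal.span {F} ≤ 𝔓 := by rwa [Ideal.span_singleton_le_iff_mem]
  set π := Ideal.Quotient.mk (Ideal.span {F}) with hπ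
  have hπs : Function.Surjective π := Ideal.Quotient.mk_surjective
  set 𝔭 : Ideal (B[X] ⧸ Ideal.span {F}) := 𝔓.map π with h𝔭
  have hcm : 𝔭.comap π = 𝔓 := by
    rw [h𝔭, Ideal.comap_map_of_surjective _ hπs, ← RingHom.ker_eq_comap_bot, Ideal.mk_ker]
    exact sup_eq_left.mpr hle
  have hprime : 𝔭.IsPrime := Ideal.map_isPrime_of_surjective hπs (by rw [Ideal.mk_ker]; exact hle)
  -- a nonzero element of `𝔭`
  obtain ⟨x, hx𝔓, hxF⟩ : ∃ x ∈ 𝔓, x ∉ Ideal.span {F} := by
    by_contra hcon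
    push Not at hcon
    exact hne (le_antisymm hcon hle)
  have hx0 : π x ≠ 0 := fun h => hxF (Ideal.Quotient.eq_zero_iff_mem.mp h)
  have hcomap : 𝔭.comap (algebraMap B (B[X] ⧸ Ideal.span {F})) ≠ ⊥ :=
    Ideal.comap_ne_bot_of_integral_mem hx0 (Ideal.mem_map_of_mem _ hx𝔓)
      (Algebra.IsIntegral.isIntegral _)
  have hqprime : (𝔭.comap (algebraMap B (B[X] ⧸ Ideal.span {F}))).IsPrime :=
    Ideal.IsPrime.comap _
  obtain ⟨h, hh, hhp⟩ := Ideal.IsPrime.exists_mem_prime_of_ne_bot hqprime hcomap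
  have hspan : (Ideal.span {h}).IsPrime := (Ideal.span_singleton_prime hhp.ne_zero).mpr hhp
  have hq : 𝔭.comap (algebraMap B (B[X] ⧸ Ideal.span {F})) = Ideal.span {h} := by
    haveI : 𝔭.LiesOver (𝔭.comap (algebraMap B (B[X] ⧸ Ideal.span {F}))) := ⟨rfl⟩
    obtain ⟨Q, hQle, hQp, hQl⟩ := Ideal.exists_ideal_le_liesOver_of_le (p := Ideal.span {h})
      (q := 𝔭.comap (algebraMap B (B[X] ⧸ Ideal.span {F}))) 𝔭
      (by rwa [Ideal.span_singleton_le_iff_mem])
    have hQ : Q = 𝔭 := by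
      have h3 : Q.comap π = 𝔓 := by
        apply hmin
        · exact Ideal.IsPrime.comap _
        · rw [Ideal.mem_comap]
          have : π F = 0 := Ideal.Quotient.eq_zero_iff_mem.mpr (Ideal.mem_span_singleton_self F)
          rw [this]; exact Q.zero_mem
        · intro hcon
          have h4 : Q = ⊥ := by
            rw [← Ideal.map_comap_of_surjective π hπs Q, hcon, Ideal.map_span]
            simp [hπ]
          have h5 := hQl.over
          rw [h4, Ideal.under_def] at h5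
          have h6 : h ∈ Ideal.comap (algebraMap B (B[X] ⧸ Ideal.span {F})) ⊥ := by
            rw [← h5]; exact Ideal.mem_span_singleton_self h
          rw [Ideal.mem_comap, Ideal.mem_bot] at h6
          have h7 : Function.Injective (algebraMap B (B[X] ⧸ Ideal.span {F})) :=
            FaithfulSMul.algebraMap_injective _ _
          exact hhp.ne_zero (h7 (by rw [h6, map_zero]))
        · rw [← hcm]; exact Ideal.comap_mono hQle
      rw [h𝔭, ← h3, Ideal.map_comap_of_surjective π hπs]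
    have := hQl.over
    rw [hQ, Ideal.under_def] at this
    exact this.symm
  have hmem : ∀ b : B, C b ∈ 𝔓 ↔ b ∈ 𝔭.comap (algebraMap B (B[X] ⧸ Ideal.span {F})) := by
    intro b
    constructor
    · exact fun hb => Ideal.mem_map_of_mem π hb
    · intro hb
      have : C b ∈ 𝔭.comap π := hb
      rwa [hcm] at this
  refine ⟨h, (hmem h).mpr hh, fun b hb => ?_⟩
  have := (hmem b).mp hb
  rw [hq, Ideal.mem_span_singleton] at this
  exact this

/-- the abstract form -/
theorem abs_locp [IsDomain B] [UniqueFactorizationMonoid B] (ε : B →+* ℂ)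
    (hε : Function.Surjective ε) (F : B[X]) (hF : F.Monic)
    (hFp : Prime F) (𝔓 : Ideal B[X]) (h𝔓 : 𝔓.IsPrime) (hF𝔓 : F ∈ 𝔓) (hne : 𝔓 ≠ Ideal.span {F})
    (hmin : ∀ 𝔔 : Ideal B[X], 𝔔.IsPrime → F ∈ 𝔔 → 𝔔 ≠ Ideal.span {F} → 𝔔 ≤ 𝔓 → 𝔔 = 𝔓)
    (h0 : ∀ P ∈ 𝔓, ε (P.coeff 0) = 0) (h1 : ε (F.coeff 1) ≠ 0) (n : ℕ)
    (hn : (X : ℂ[X]) ^ n ∈ 𝔓.map (mapRingHom ε)) :
    ∃ H ∈ 𝔓, ∃ S : B[X], ε (S.coeff 0) ≠ 0 ∧ ∀ P ∈ 𝔓, S * P ∈ Ideal.span {H, F} := by
  have hX := stepA (mapRingHom ε) 𝔓 F hF𝔓 (by simpa using h0 F hF𝔓) (by simpa using h1) n hn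
  obtain ⟨s, β, hs, hsβ⟩ := stepD ε hε F hF 𝔓 hF𝔓 hX
  obtain ⟨h, hh, hdiv⟩ := stepE F hF hFp 𝔓 h𝔓 hF𝔓 hne hmin
  have hβ0 : ε β = 0 := by
    have := h0 _ hsβ
    simpa using this
  -- `s ^ D F = F1 + (s Z - β) κ`
  obtain ⟨F1, κ, hκ⟩ := reduce s β F F.natDegree le_rfl
  have hF1 : C F1 ∈ 𝔓 := by
    have : C F1 = C s ^ F.natDegree * F - (C s * X - C β) * κ := by rw [hκ]; ring
    rw [this]
    exact 𝔓.sub_mem (𝔓.mul_mem_left _ hF𝔓) (𝔓.mul_mem_right _ hsβ)
  obtain ⟨k1, hk1⟩ := hdiv F1 hF1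
  have hκ0 : ε (κ.coeff 0) ≠ 0 := by
    have h2 : C (s ^ F.natDegree) * F = C F1 + (C s * (X * κ) - C β * κ) := by
      rw [C_pow, hκ]; ring
    have h2' := congrArg (fun P : B[X] => P.coeff 1) h2
    have h3 : (C F1 : B[X]).coeff 1 = 0 := by rw [coeff_C]; simp
    have h4 : (X * κ).coeff 1 = κ.coeff 0 := by
      have := coeff_X_mul κ 0
      simpa using this
    simp only [coeff_add, coeff_sub, coeff_C_mul, h3, h4] at h2'
    have h5 := congrArg ε h2'
    rw [map_mul, map_pow, hs, one_pow, one_mul, map_add, map_zero, zero_add, map_sub, map_mul,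
      map_mul, hs, hβ0, zero_mul, sub_zero, one_mul] at h5
    rw [← h5]; exact h1
  refine ⟨C h, hh, κ * C s ^ F.natDegree, ?_, ?_⟩
  · rw [← C_pow, coeff_mul_C, map_mul, map_pow, hs, one_pow, mul_one]
    exact hκ0
  · intro P hP
    have hPd := modByMonic_add_div P F
    obtain ⟨y0, y1, hy⟩ := reduce s β (P %ₘ F) F.natDegree (by
      exact natDegree_modByMonic_le _ hF)
    have hr : P %ₘ F ∈ 𝔓 := by
      have : P %ₘ F = P - F * (P /ₘ F) := by linear_combination hPd
      rw [this]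
      exact 𝔓.sub_mem hP (𝔓.mul_mem_right _ hF𝔓)
    have hy0 : C y0 ∈ 𝔓 := by
      have : C y0 = C s ^ F.natDegree * (P %ₘ F) - (C s * X - C β) * y1 := by rw [hy]; ring
      rw [this]
      exact 𝔓.sub_mem (𝔓.mul_mem_left _ hr) (𝔓.mul_mem_right _ hsβ)
    obtain ⟨k0, hk0⟩ := hdiv y0 hy0
    rw [Ideal.mem_span_pair]
    refine ⟨κ * C k0 - C k1 * y1, κ * C s ^ F.natDegree * (P /ₘ F) + C s ^ F.natDegree * y1, ?_⟩
    rw [hk0] at hy
    rw [hk1] at hκ
    rw [C_mul] at hy hκ
    linear_combination (-κ) * hy + y1 * hκ + κ * C s ^ F.natDegree * hPd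

end Abs

end

end Pool.Agent.Lib.MPa7508c.LocpM
end

section
/-!
# LOCP, part 2: a homogeneous relation between the coordinates at a point of a prime of height one
-/
set_option autoImplicit false

namespace Pool.Agent.Lib.MPa7508c.LocpM

open MvPolynomial

noncomputable section

section Dep

variable {τ : Type} [Fintype τ] [DecidableEq τ]

/-- homogeneous polynomials on a line through the origin -/
theorem aeval_line {C : Type} [CommRing C] [Algebra ℂ C] (ξ : τ → C) (n : ℕ)
    (Ψ : MvPolynomial τ ℂ) (hΨ : Ψ.IsHomogeneous n) :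
    aeval (fun i => Polynomial.C (ξ i) * Polynomial.X) Ψ =
      Polynomial.C (aeval ξ Ψ) * Polynomial.X ^ n := by
  rw [aeval_def, eval₂_eq', aeval_def, eval₂_eq', map_sum, Finset.sum_mul]
  refine Finset.sum_congr rfl fun d hd => ?_
  have hdn : ∑ i, d i = n := by
    have := hΨ (mem_support_iff.mp hd)
    rw [Finsupp.weight_apply, Finsupp.sum_fintype _ _ (by simp)] at this
    simpa using this
  simp only [mul_pow]
  rw [Finset.prod_mul_distrib, Finset.prod_pow_eq_pow_sum, hdn, map_mul, map_prod]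
  simp only [map_pow]
  rw [mul_assoc]
  rfl

variable (b : τ → ℕ)

/-- the sum of the powers of the variables other than `k` -/
def rest (k : τ) : MvPolynomial {i // i ≠ k} ℂ := ∑ i : {i // i ≠ k}, X i ^ b i

theorem fp_split (k : τ) : fp τ b = X k ^ b k + rename Subtype.val (rest b k) := by
  rw [fp, rest, map_sum]
  simp only [map_pow, rename_X]
  rw [Fintype.sum_eq_add_sum_subtype_ne (fun i => (X i : MvPolynomial τ ℂ) ^ b i) k]

/-- all classes are integral over the polynomials in the variables other than `k`. -/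
theorem integral_aux (hb : ∀ i, 2 ≤ b i) (k : τ) {A : Type} [CommRing A]
    (π : MvPolynomial τ ℂ →+* A) (hπ : π (fp τ b) = 0) (P : MvPolynomial τ ℂ) :
    (π.comp (rename (R := ℂ) (Subtype.val : {i // i ≠ k} → τ)).toRingHom).IsIntegralElem (π P) := by
  induction P using MvPolynomial.induction_on with
  | C a =>
    have : π (C a) = (π.comp (rename (R := ℂ) (Subtype.val : {i // i ≠ k} → τ)).toRingHom) (C a) := by
      simp
    rw [this]
    exact RingHom.isIntegralElem_map _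
  | add p q hp hq => rw [map_add]; exact hp.add _ hq
  | mul_X p i hp =>
    rw [map_mul]
    refine hp.mul _ ?_
    by_cases hi : i = k
    · subst hi
      refine ⟨Polynomial.X ^ b i + Polynomial.C (rest b i), ?_, ?_⟩
      · exact Polynomial.monic_X_pow_add_C _ (by have := hb i; omega)
      · rw [Polynomial.eval₂_add, Polynomial.eval₂_pow, Polynomial.eval₂_X, Polynomial.eval₂_C]
        rw [fp_split b i, map_add, map_pow] at hπ
        exact hπ
    · have : π (X i) = (π.comp (rename (R := ℂ) (Subtype.val : {i // i ≠ k} → τ)).toRingHom)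
          (X ⟨i, hi⟩) := by simp
      rw [this]
      exact RingHom.isIntegralElem_map _

/-- a prime strictly above `f` contains a nonzero polynomial in the variables other than `k` -/
theorem exists_rel (hb : ∀ i, 2 ≤ b i) (hf : Prime (fp τ b)) (k : τ)
    (𝔓 : Ideal (MvPolynomial τ ℂ)) (hf𝔓 : fp τ b ∈ 𝔓) (hne : 𝔓 ≠ Ideal.span {fp τ b}) :
    ∃ Q : MvPolynomial {i // i ≠ k} ℂ, Q ≠ 0 ∧ rename Subtype.val Q ∈ 𝔓 := by
  have hFI : (Ideal.span {fp τ b}).IsPrime := (Ideal.span_singleton_prime hf.ne_zero).mpr hf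
  have hdom : IsDomain (MvPolynomial τ ℂ ⧸ Ideal.span {fp τ b}) := Ideal.Quotient.isDomain _
  set π := Ideal.Quotient.mk (Ideal.span {fp τ b}) with hπ
  set ρ := (π.comp (rename (R := ℂ) (Subtype.val : {i // i ≠ k} → τ)).toRingHom) with hρ
  have hle : Ideal.span {fp τ b} ≤ 𝔓 := by rwa [Ideal.span_singleton_le_iff_mem]
  obtain ⟨x, hx𝔓, hxF⟩ : ∃ x ∈ 𝔓, x ∉ Ideal.span {fp τ b} := by
    by_contra hcon
    push Not at hcon
    exact hne (le_antisymm hcon hle)
  have hx0 : π x ≠ 0 := fun h => hxF (Ideal.Quotient.eq_zero_iff_mem.mp h)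
  let _ : Algebra (MvPolynomial {i // i ≠ k} ℂ) (MvPolynomial τ ℂ ⧸ Ideal.span {fp τ b}) :=
    ρ.toAlgebra
  have hint : IsIntegral (MvPolynomial {i // i ≠ k} ℂ) (π x) :=
    integral_aux b hb k π (Ideal.Quotient.eq_zero_iff_mem.mpr (Ideal.mem_span_singleton_self _)) x
  have hcomap := Ideal.comap_ne_bot_of_integral_mem (R := MvPolynomial {i // i ≠ k} ℂ) hx0
    (Ideal.mem_map_of_mem π hx𝔓) hint
  obtain ⟨Q, hQ, hQ0⟩ := Submodule.exists_mem_ne_zero_of_ne_bot hcomap
  refine ⟨Q, hQ0, ?_⟩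
  have h1 : π (rename Subtype.val Q) ∈ 𝔓.map π := hQ
  have h2 : rename Subtype.val Q ∈ (𝔓.map π).comap π := h1
  rw [Ideal.comap_map_of_surjective _ Ideal.Quotient.mk_surjective, ← RingHom.ker_eq_comap_bot,
    Ideal.mk_ker, sup_eq_left.mpr hle] at h2
  exact h2

open Cardinal in
/-- the transcendence degree -/
theorem trdeg_lt (hb : ∀ i, 2 ≤ b i) (hf : Prime (fp τ b)) [Nonempty τ]
    (𝔓 : Ideal (MvPolynomial τ ℂ)) [h𝔓 : 𝔓.IsPrime] (hf𝔓 : fp τ b ∈ 𝔓)
    (hne : 𝔓 ≠ Ideal.span {fp τ b}) :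
    Algebra.trdeg ℂ (MvPolynomial τ ℂ ⧸ 𝔓) + 1 < #τ := by
  obtain ⟨k⟩ := ‹Nonempty τ›
  obtain ⟨Q, hQ0, hQ⟩ := exists_rel b hb hf k 𝔓 hf𝔓 hne
  set x : {i // i ≠ k} → MvPolynomial τ ℂ ⧸ 𝔓 := fun i => Ideal.Quotient.mk 𝔓 (X i.1) with hx
  have hxa : ∀ P : MvPolynomial {i // i ≠ k} ℂ,
      aeval x P = Ideal.Quotient.mk 𝔓 (rename Subtype.val P) := by
    intro P
    have : aeval x = ((Ideal.Quotient.mkₐ ℂ 𝔓).comp (rename Subtype.val)) := by
      apply MvPolynomial.algHom_ext
      intro i; simp [hx]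
    rw [this]; rfl
  have hnot : ¬ AlgebraicIndependent ℂ x := by
    intro h
    rw [algebraicIndependent_iff] at h
    exact hQ0 (h Q (by rw [hxa, Ideal.Quotient.eq_zero_iff_mem]; exact hQ))
  have halg : Algebra.IsAlgebraic (Algebra.adjoin ℂ (Set.range x)) (MvPolynomial τ ℂ ⧸ 𝔓) := by
    constructor
    intro z
    obtain ⟨P, rfl⟩ := Ideal.Quotient.mk_surjective z
    have h1 := integral_aux b hb k (Ideal.Quotient.mk 𝔓)
      (Ideal.Quotient.eq_zero_iff_mem.mpr hf𝔓) P
    obtain ⟨p, hp, hp0⟩ := h1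
    apply IsIntegral.isAlgebraic
    have hmem : ∀ P : MvPolynomial {i // i ≠ k} ℂ,
        aeval x P ∈ Algebra.adjoin ℂ (Set.range x) := by
      intro P
      rw [Algebra.adjoin_range_eq_range_aeval]
      exact ⟨P, rfl⟩
    let θ : MvPolynomial {i // i ≠ k} ℂ →ₐ[ℂ] Algebra.adjoin ℂ (Set.range x) :=
      (aeval x).codRestrict _ hmem
    refine ⟨p.map θ.toRingHom, hp.map _, ?_⟩
    rw [Polynomial.eval₂_map]
    have : (algebraMap (Algebra.adjoin ℂ (Set.range x)) (MvPolynomial τ ℂ ⧸ 𝔓)).comp θ.toRingHom =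
      ((Ideal.Quotient.mk 𝔓).comp (rename (R := ℂ) (Subtype.val : {i // i ≠ k} → τ)).toRingHom) := by
      ext P
      · simp [θ]
        rfl
      · simp [θ, hx]
    rw [this]
    exact hp0
  have hlt : Algebra.trdeg ℂ (MvPolynomial τ ℂ ⧸ 𝔓) < #{i // i ≠ k} := by
    by_contra hcon
    push Not at hcon
    have := Algebra.IsAlgebraic.isTranscendenceBasis_of_le_trdeg_of_finite ℂ x hcon
    exact hnot this.1
  obtain ⟨m, hm⟩ := Cardinal.lt_aleph0.mp (hlt.trans (Cardinal.lt_aleph0_of_finite _))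
  rw [hm, Cardinal.mk_fintype, Nat.cast_lt, Fintype.card_subtype_compl,
    Fintype.card_subtype_eq] at hlt
  rw [hm, Cardinal.mk_fintype]
  have : m + 1 < Fintype.card τ := by omega
  exact_mod_cast this

/-- a homogeneous relation -/
theorem exists_hom_rel (hb : ∀ i, 2 ≤ b i) (hf : Prime (fp τ b)) [Nonempty τ]
    (𝔓 : Ideal (MvPolynomial τ ℂ)) [h𝔓 : 𝔓.IsPrime] (hf𝔓 : fp τ b ∈ 𝔓)
    (hne : 𝔓 ≠ Ideal.span {fp τ b}) (c : τ → ℂ) :
    ∃ (n : ℕ) (Ψ : MvPolynomial τ ℂ), Ψ.IsHomogeneous n ∧ Ψ ≠ 0 ∧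
      aeval (fun i => (X i - C (c i) : MvPolynomial τ ℂ)) Ψ ∈ 𝔓 := by
  have htr := trdeg_lt b hb hf 𝔓 hf𝔓 hne
  set ξ : τ → MvPolynomial τ ℂ ⧸ 𝔓 := fun i => Ideal.Quotient.mk 𝔓 (X i - C (c i)) with hξ
  have hξa : ∀ P : MvPolynomial τ ℂ,
      aeval ξ P = Ideal.Quotient.mk 𝔓 (aeval (fun i => (X i - C (c i) : MvPolynomial τ ℂ)) P) := by
    intro P
    have : aeval ξ = ((Ideal.Quotient.mkₐ ℂ 𝔓).comp
        (aeval (fun i => (X i - C (c i) : MvPolynomial τ ℂ)))) := by
      apply MvPolynomial.algHom_ext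
      intro i; simp [hξ]
    rw [this]; rfl
  set y : τ → Polynomial (MvPolynomial τ ℂ ⧸ 𝔓) := fun i => Polynomial.C (ξ i) * Polynomial.X
    with hy
  have hnot : ¬ AlgebraicIndependent ℂ y := by
    intro h
    have h1 := h.cardinalMk_le_trdeg
    have h2 : Algebra.trdeg ℂ (MvPolynomial τ ℂ ⧸ 𝔓) +
        Algebra.trdeg (MvPolynomial τ ℂ ⧸ 𝔓) (Polynomial (MvPolynomial τ ℂ ⧸ 𝔓)) =
        Algebra.trdeg ℂ (Polynomial (MvPolynomial τ ℂ ⧸ 𝔓)) :=
      trdeg_add_eq _ _
    rw [Polynomial.trdeg_of_isDomain] at h2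
    rw [← h2] at h1
    exact absurd h1 (not_le.mpr htr)
  rw [algebraicIndependent_iff] at hnot
  push Not at hnot
  obtain ⟨Ψ0, hΨ0, hne0⟩ := hnot
  obtain ⟨n, hn⟩ : ∃ n, homogeneousComponent n Ψ0 ≠ 0 := by
    by_contra hcon
    push Not at hcon
    apply hne0
    rw [← sum_homogeneousComponent Ψ0]
    exact Finset.sum_eq_zero fun n _ => hcon n
  refine ⟨n, homogeneousComponent n Ψ0, homogeneousComponent_isHomogeneous n Ψ0, hn, ?_⟩
  have h3 : aeval y Ψ0 = ∑ n ∈ Finset.range (Ψ0.totalDegree + 1),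
      Polynomial.C (aeval ξ (homogeneousComponent n Ψ0)) * Polynomial.X ^ n := by
    conv_lhs => rw [← sum_homogeneousComponent Ψ0]
    rw [map_sum]
    refine Finset.sum_congr rfl fun n _ => ?_
    exact aeval_line ξ n _ (homogeneousComponent_isHomogeneous n Ψ0)
  rw [hΨ0] at h3
  have h4 := congrArg (fun P => Polynomial.coeff P n) h3
  simp only [Polynomial.coeff_zero, Polynomial.finsetSum_coeff, Polynomial.coeff_C_mul,
    Polynomial.coeff_X_pow] at h4
  have hnr : n ∈ Finset.range (Ψ0.totalDegree + 1) := by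
    rw [Finset.mem_range]
    by_contra hcon
    exact hn (homogeneousComponent_eq_zero _ _ (by omega))
  rw [Finset.sum_eq_single n (fun m _ hm => by simp [Ne.symm hm]) (fun h => absurd hnr h)] at h4
  simp only [if_true, mul_one] at h4
  rw [← Ideal.Quotient.eq_zero_iff_mem, ← hξa]
  exact h4.symm

end Dep

end

end Pool.Agent.Lib.MPa7508c.LocpM
end

section
/-!
# LOCP: height one primes are locally principal at smooth points
-/
set_option autoImplicit false

namespace Pool.Agent.Lib.MPa7508c.LocpM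

open MvPolynomial

noncomputable section

section Coord

variable {τ : Type} [Fintype τ] [DecidableEq τ] (k : τ) (c μ : τ → ℂ)

/-- the polynomial ring in the variables other than `k` -/
abbrev Bk : Type := MvPolynomial {i // i ≠ k} ℂ

/-- the variable `i`, zero for `i = k` -/
def vark (i : τ) : Bk k := if h : i ≠ k then X ⟨i, h⟩ else 0

/-- new coordinates: `X_i = c_i + μ_i Z + U_i` -/
def toP : MvPolynomial τ ℂ →ₐ[ℂ] Polynomial (Bk k) :=
  aeval fun i => Polynomial.C (C (c i) + vark k i) + Polynomial.C (C (μ i)) * Polynomial.X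

/-- inverse on the coefficients -/
def ofB : Bk k →ₐ[ℂ] MvPolynomial τ ℂ :=
  aeval fun i => X i.1 - C (c i.1) - C (μ i.1 * (μ k)⁻¹) * (X k - C (c k))

/-- inverse -/
def ofP : Polynomial (Bk k) →+* MvPolynomial τ ℂ :=
  Polynomial.eval₂RingHom (ofB k c μ).toRingHom (C ((μ k)⁻¹) * (X k - C (c k)))

theorem ofP_toP (hμ : μ k ≠ 0) (P : MvPolynomial τ ℂ) : ofP k c μ (toP k c μ P) = P := by
  have : (ofP k c μ).comp (toP k c μ).toRingHom = RingHom.id _ := by
    apply MvPolynomial.ringHom_ext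
    · intro a
      simp only [RingHom.comp_apply, AlgHom.toRingHom_eq_coe, RingHom.coe_coe, RingHom.id_apply]
      rw [← MvPolynomial.algebraMap_eq, AlgHom.commutes]
      simp only [ofP, Polynomial.coe_eval₂RingHom]
      rw [IsScalarTower.algebraMap_apply ℂ (Bk k) (Polynomial (Bk k)), Polynomial.algebraMap_apply]
      simp
    · intro i
      simp only [RingHom.comp_apply, AlgHom.toRingHom_eq_coe, RingHom.coe_coe, RingHom.id_apply,
        toP, aeval_X, ofP, Polynomial.coe_eval₂RingHom, Polynomial.eval₂_add, Polynomial.eval₂_C,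
        Polynomial.eval₂_mul, Polynomial.eval₂_X, map_add]
      by_cases hi : i = k
      · subst hi
        simp only [vark, ne_eq, not_true_eq_false, dite_false, map_zero, add_zero]
        simp only [ofB, algHom_C, algebraMap_eq]
        rw [← mul_assoc, ← C_mul, mul_inv_cancel₀ hμ]
        simp
      · simp only [vark, ne_eq, hi, not_false_eq_true, dite_true]
        simp only [ofB, algHom_C, algebraMap_eq, aeval_X]
        rw [← mul_assoc, ← C_mul]
        ring
  exact RingHom.congr_fun this P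

theorem vark_self : vark k k = 0 := by simp [vark]

theorem vark_ne (i : {i // i ≠ k}) : vark k i.1 = X i := by
  have := i.2
  simp [vark, this]

theorem toP_ofP (hμ : μ k ≠ 0) (P : Polynomial (Bk k)) : toP k c μ (ofP k c μ P) = P := by
  have : (toP k c μ).toRingHom.comp (ofP k c μ) = RingHom.id _ := by
    apply Polynomial.ringHom_ext'
    · apply MvPolynomial.ringHom_ext
      · intro a
        simp [ofP, ofB, toP]
      · intro i
        have h1 : (Polynomial.C (C (μ k)⁻¹) * Polynomial.C (C (μ k)) : Polynomial (Bk k)) = 1 := by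
          rw [← Polynomial.C_mul, ← C_mul, inv_mul_cancel₀ hμ]; simp
        simp [ofP, ofB, toP, vark_self, vark_ne]
        linear_combination (-(Polynomial.C (C (μ i.1)) * Polynomial.X)) * h1
    · have h1 : (Polynomial.C (C (μ k)⁻¹) * Polynomial.C (C (μ k)) : Polynomial (Bk k)) = 1 := by
        rw [← Polynomial.C_mul, ← C_mul, inv_mul_cancel₀ hμ]; simp
      simp [ofP, toP, vark_self]
      linear_combination Polynomial.X * h1
  exact RingHom.congr_fun this P

/-- the change of coordinates -/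
def eqP (hμ : μ k ≠ 0) : MvPolynomial τ ℂ ≃+* Polynomial (Bk k) where
  toFun := toP k c μ
  invFun := ofP k c μ
  left_inv := ofP_toP k c μ hμ
  right_inv := toP_ofP k c μ hμ
  map_mul' := map_mul _
  map_add' := map_add _

theorem eqP_apply (hμ : μ k ≠ 0) (P : MvPolynomial τ ℂ) : eqP k c μ hμ P = toP k c μ P := rfl

/-- the value at the point -/
theorem eval_eq (P : MvPolynomial τ ℂ) :
    eval c P = constantCoeff ((toP k c μ P).coeff 0) := by
  have : (eval c : MvPolynomial τ ℂ →+* ℂ) =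
      (constantCoeff.comp (Polynomial.constantCoeff)).comp (toP k c μ).toRingHom := by
    apply MvPolynomial.ringHom_ext
    · intro a
      simp [toP]
    · intro i
      by_cases hi : i = k
      · subst hi; simp [toP, vark_self]
      · have := vark_ne k ⟨i, hi⟩
        simp only at this
        simp [toP, this]
  exact RingHom.congr_fun this P

/-- restriction to the line through the point -/
theorem map_toP (P : MvPolynomial τ ℂ) :
    Polynomial.mapRingHom constantCoeff (toP k c μ P) =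
      aeval (fun i => Polynomial.C (c i) + Polynomial.C (μ i) * Polynomial.X) P := by
  have : ((Polynomial.mapRingHom (constantCoeff : Bk k →+* ℂ)).comp (toP k c μ).toRingHom :
      MvPolynomial τ ℂ →+* Polynomial ℂ) =
      (aeval (fun i => Polynomial.C (c i) + Polynomial.C (μ i) * Polynomial.X)).toRingHom := by
    apply MvPolynomial.ringHom_ext
    · intro a
      simp [toP]
    · intro i
      by_cases hi : i = k
      · subst hi; simp [toP, vark_self]
      · have := vark_ne k ⟨i, hi⟩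
        simp only at this
        simp [toP, this]
  exact RingHom.congr_fun this P

end Coord

end

end Pool.Agent.Lib.MPa7508c.LocpM

namespace Pool.Agent.Lib.MPa7508c

open MvPolynomial LocpM

theorem specLOCP (hIRR : SpecIRR) : SpecLOCP := by
  intro τ _ _ b hcard hb 𝔓 h𝔓 hf𝔓 hne hmin c hc0 hc
  have hf : Prime (fp τ b) := hIRR τ b hcard hb
  have : Nonempty τ := Fintype.card_pos_iff.mp (by omega)
  obtain ⟨k, hk⟩ : ∃ k, c k ≠ 0 := Function.ne_iff.mp hc0
  obtain ⟨n, Ψ, hΨ, hΨ0, hΨ𝔓⟩ := exists_hom_rel b hb hf 𝔓 hf𝔓 hne c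
  obtain ⟨i1, hi1⟩ : ∃ i1, ∀ i, b i ≤ b i1 := Finite.exists_max b
  set g2 : MvPolynomial τ ℂ := ∑ i, if b i = b i1 then X i ^ b i1 else 0 with hg2d
  have hg2 : g2 ≠ 0 := by
    intro h
    have h1 := congrArg (eval (Pi.single i1 (1 : ℂ))) h
    rw [hg2d, map_sum, map_zero, Finset.sum_eq_single i1] at h1
    · simp at h1
    · intro j _ hj
      have : b i1 ≠ 0 := by have := hb i1; omega
      split_ifs
      · simp [hj, this]
      · simp
    · simp
  set g3 : MvPolynomial τ ℂ := ∑ i, C ((b i : ℂ) * c i ^ (b i - 1)) * X i with hg3d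
  have hg3 : g3 ≠ 0 := by
    intro h
    have h1 := congrArg (eval (Pi.single k (1 : ℂ))) h
    rw [hg3d, map_sum, map_zero, Finset.sum_eq_single k] at h1
    · have : b k ≠ 0 := by have := hb k; omega
      simp [hk, this] at h1
    · intro j _ hj
      simp [hj]
    · simp
  obtain ⟨μ, hμ⟩ : ∃ μ, eval μ (X k * g2 * g3 * Ψ) ≠ 0 := by
    by_contra hcon
    push Not at hcon
    have h1 : X k * g2 * g3 * Ψ = 0 := MvPolynomial.funext fun x => by rw [hcon x, map_zero]
    have h2 : X k * g2 * g3 * Ψ ≠ 0 :=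
      mul_ne_zero (mul_ne_zero (mul_ne_zero (X_ne_zero k) hg2) hg3) hΨ0
    exact h2 h1
  simp only [map_mul, mul_ne_zero_iff, eval_X] at hμ
  obtain ⟨⟨⟨hμk, hμ2⟩, hμ3⟩, hμΨ⟩ := hμ
  set e := eqP k c μ hμk with he
  set u : ℂ := eval μ g2 with hu
  have hef : e (fp τ b) = ∑ i, (Polynomial.C (C (c i) + vark k i) +
      Polynomial.C (C (μ i)) * Polynomial.X) ^ b i := by
    rw [he, eqP_apply, fp, map_sum]
    refine Finset.sum_congr rfl fun i _ => ?_
    rw [map_pow, toP, aeval_X]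
  have hdeg1 : ∀ i, (Polynomial.C (C (c i) + vark k i) +
      Polynomial.C (C (μ i)) * Polynomial.X).natDegree ≤ 1 := by
    intro i
    refine (Polynomial.natDegree_add_le _ _).trans (max_le (by simp) ?_)
    exact (Polynomial.natDegree_C_mul_le _ _).trans Polynomial.natDegree_X_le
  have hdeg : (e (fp τ b)).natDegree ≤ b i1 := by
    rw [hef]
    refine Polynomial.natDegree_sum_le_of_forall_le _ _ fun i _ => ?_
    refine Polynomial.natDegree_pow_le.trans ?_
    calc b i * _ ≤ b i * 1 := Nat.mul_le_mul_left _ (hdeg1 i)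
      _ = b i := mul_one _
      _ ≤ b i1 := hi1 i
  have hlead : (e (fp τ b)).coeff (b i1) = C u := by
    rw [hef, Polynomial.finsetSum_coeff, hu, hg2d, map_sum, map_sum]
    refine Finset.sum_congr rfl fun i _ => ?_
    split_ifs with hi
    · have := Polynomial.coeff_pow_of_natDegree_le (m := b i) (hdeg1 i)
      rw [mul_one] at this
      rw [← hi, this]
      simp
    · rw [Polynomial.coeff_eq_zero_of_natDegree_lt]
      · simp
      · refine lt_of_le_of_lt Polynomial.natDegree_pow_le ?_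
        calc b i * _ ≤ b i * 1 := Nat.mul_le_mul_left _ (hdeg1 i)
          _ = b i := mul_one _
          _ < b i1 := lt_of_le_of_ne (hi1 i) hi
  set F : Polynomial (Bk k) := Polynomial.C (C u⁻¹) * e (fp τ b) with hFd
  have huu : IsUnit (Polynomial.C (C u⁻¹) : Polynomial (Bk k)) := by
    refine IsUnit.of_mul_eq_one (Polynomial.C (C u)) ?_
    rw [← Polynomial.C_mul, ← C_mul, inv_mul_cancel₀ hμ2]; simp
  have hFm : F.Monic := by
    refine Polynomial.monic_of_natDegree_le_of_coeff_eq_one (b i1) ?_ ?_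
    · exact (Polynomial.natDegree_C_mul_le _ _).trans hdeg
    · rw [hFd, Polynomial.coeff_C_mul, hlead, ← C_mul, inv_mul_cancel₀ hμ2, C_1]
  have hFassoc : Associated (e (fp τ b)) F := by
    obtain ⟨v, hv⟩ := huu
    exact ⟨v, by rw [hv, hFd, mul_comm]⟩
  have hFspan : Ideal.span {F} = Ideal.span {e (fp τ b)} :=
    (Ideal.span_singleton_eq_span_singleton.mpr hFassoc).symm
  have hFp : Prime F := hFassoc.prime ((MulEquiv.prime_iff e.toMulEquiv).mpr hf)
  set 𝔓' : Ideal (Polynomial (Bk k)) := 𝔓.map e with h𝔓'd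
  have hmem' : ∀ y, y ∈ 𝔓' ↔ e.symm y ∈ 𝔓 := by
    intro y
    rw [h𝔓'd, Ideal.mem_map_of_equiv]
    constructor
    · rintro ⟨x, hx, rfl⟩; simpa using hx
    · intro h; exact ⟨_, h, by simp⟩
  have hmem : ∀ x, e x ∈ 𝔓' ↔ x ∈ 𝔓 := by
    intro x; rw [hmem']; simp
  have hF𝔓' : F ∈ 𝔓' := Ideal.mul_mem_left _ _ ((hmem _).mpr hf𝔓)
  have h𝔓'p : 𝔓'.IsPrime := Ideal.map_isPrime_of_equiv e
  have hsp : (Ideal.span {fp τ b}).map e = Ideal.span {F} := by
    rw [Ideal.map_span, hFspan, Set.image_singleton]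
  have hne' : 𝔓' ≠ Ideal.span {F} := by
    intro h
    apply hne
    rw [← hsp] at h
    ext x
    rw [← hmem, h, Ideal.mem_map_of_equiv]
    constructor
    · rintro ⟨y, hy, hxy⟩; rwa [← e.injective hxy]
    · intro hx; exact ⟨x, hx, rfl⟩
  have hmin' : ∀ 𝔔 : Ideal (Polynomial (Bk k)), 𝔔.IsPrime → F ∈ 𝔔 → 𝔔 ≠ Ideal.span {F} →
      𝔔 ≤ 𝔓' → 𝔔 = 𝔓' := by
    intro 𝔔 h𝔔 hF𝔔 h𝔔ne hle
    have hc1 : 𝔔.comap e = 𝔓 := by
      apply hmin
      · exact Ideal.IsPrime.comap _
      · rw [Ideal.mem_comap]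
        have : e (fp τ b) ∈ Ideal.span {F} := by
          rw [hFspan]; exact Ideal.mem_span_singleton_self _
        exact (Ideal.span_singleton_le_iff_mem _).mpr hF𝔔 this
      · intro h
        apply h𝔔ne
        rw [← hsp, ← h, Ideal.map_comap_of_surjective _ e.surjective]
      · intro x hx
        exact (hmem x).mp (hle hx)
    rw [h𝔓'd, ← hc1, Ideal.map_comap_of_surjective _ e.surjective]
  have hline : Polynomial.mapRingHom constantCoeff F = Polynomial.C (u⁻¹) *
      ∑ i, (Polynomial.C (c i) + Polynomial.C (μ i) * Polynomial.X) ^ b i := by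
    rw [hFd, map_mul, he, eqP_apply, map_toP, fp, map_sum]
    simp
  obtain ⟨H, hH, S, hS, hSP⟩ := abs_locp (B := Bk k) constantCoeff
    (fun z => ⟨C z, by simp⟩) F hFm hFp 𝔓' h𝔓'p hF𝔓' hne' hmin'
    (by
      intro P hP
      have h1 := hc _ ((hmem' P).mp hP)
      rw [eval_eq k c μ, ← eqP_apply k c μ hμk,
        show (eqP k c μ hμk) (e.symm P) = P from e.apply_symm_apply P] at h1
      exact h1)
    (by
      have h1 : constantCoeff (F.coeff 1) =
          (Polynomial.mapRingHom (constantCoeff : Bk k →+* ℂ) F).coeff 1 := by simp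
      rw [h1, hline, Polynomial.coeff_C_mul]
      refine mul_ne_zero (inv_ne_zero hμ2) ?_
      have h2 : ∀ P : Polynomial ℂ, P.coeff 1 = (Polynomial.derivative P).eval 0 := by
        intro P
        rw [← Polynomial.coeff_zero_eq_eval_zero, Polynomial.coeff_derivative]; simp
      rw [h2, Polynomial.derivative_sum, Polynomial.eval_finsetSum]
      convert hμ3 using 1
      rw [hg3d, map_sum]
      refine Finset.sum_congr rfl fun i _ => ?_
      simp [Polynomial.derivative_pow])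
    n
    (by
      have h1 := Ideal.mem_map_of_mem (Polynomial.mapRingHom (constantCoeff : Bk k →+* ℂ))
        ((hmem _).mpr hΨ𝔓)
      have h2 : Polynomial.mapRingHom (constantCoeff : Bk k →+* ℂ)
          (e (aeval (fun i => (X i - C (c i) : MvPolynomial τ ℂ)) Ψ)) =
          Polynomial.C (eval μ Ψ) * Polynomial.X ^ n := by
        rw [he, eqP_apply, map_toP]
        have h3 : (aeval (fun i => Polynomial.C (c i) + Polynomial.C (μ i) * Polynomial.X) :
            MvPolynomial τ ℂ →ₐ[ℂ] Polynomial ℂ).comp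
            (aeval (fun i => (X i - C (c i) : MvPolynomial τ ℂ))) =
            aeval (fun i => Polynomial.C (μ i) * Polynomial.X) := by
          apply MvPolynomial.algHom_ext
          intro i
          simp
        have h4 := AlgHom.congr_fun h3 Ψ
        rw [AlgHom.comp_apply] at h4
        rw [h4, aeval_line μ n Ψ hΨ]
        rfl
      rw [h2] at h1
      have h5 : (Polynomial.X : Polynomial ℂ) ^ n = Polynomial.C (eval μ Ψ)⁻¹ *
          (Polynomial.C (eval μ Ψ) * Polynomial.X ^ n) := by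
        rw [← mul_assoc, ← Polynomial.C_mul, inv_mul_cancel₀ hμΨ]; simp
      rw [h5]
      exact Ideal.mul_mem_left _ _ h1)
  refine ⟨e.symm H, (hmem' H).mp hH, e.symm S, ?_, ?_⟩
  · rw [eval_eq k c μ, ← eqP_apply k c μ hμk,
      show (eqP k c μ hμk) (e.symm S) = S from e.apply_symm_apply S]
    exact hS
  · intro P hP
    have h1 := hSP _ ((hmem P).mpr hP)
    rw [Ideal.mem_span_pair] at h1
    obtain ⟨a, a', haa⟩ := h1
    rw [Ideal.mem_span_pair]
    refine ⟨e.symm a, e.symm (a' * Polynomial.C (C u⁻¹)), ?_⟩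
    apply e.injective
    simp only [map_add, map_mul, RingEquiv.apply_symm_apply]
    rw [← haa, hFd]
    ring

end Pool.Agent.Lib.MPa7508c
end

section
/-!
# Module NUM: the finite check for the explicit data
-/
set_option autoImplicit false

namespace Pool.Agent.Lib.MPa7508c

open MvPolynomial

namespace NumM

theorem age : ∀ j l : Fin 12, j ≠ l → dat0.a j ≤ dat0.a l → ∀ u, u < Nat.gcd (dat0.w j) (dat0.w l) →
    0 < u →
    Nat.gcd (dat0.w j) (dat0.w l) < u + ∑ k, (u * dat0.w k) % Nat.gcd (dat0.w j) (dat0.w l) ∧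
    ∀ i, i ≠ j → dat0.q * dat0.a j * ((u * dat0.w i) % Nat.gcd (dat0.w j) (dat0.w l)) ≤
      dat0.w i * (u + ∑ k, (u * dat0.w k) % Nat.gcd (dat0.w j) (dat0.w l)
        - Nat.gcd (dat0.w j) (dat0.w l)) := by
  decide +kernel

end NumM

theorem specNUM : SpecNUM where
  index := by decide +kernel
  mult := by decide +kernel
  age := fun j l hjl hle u hu hlt => NumM.age j l hjl hle u hlt hu

end Pool.Agent.Lib.MPa7508c
end

section
/-!
ORD: the laws of the order function
-/
set_option autoImplicit false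

namespace Pool.Agent.Lib.MPa7508c

noncomputable section

namespace OrdM

variable {K : Type} [Field K] (v : ValuationSubring K)

theorem val_irr [IsDiscreteValuationRing v] {p q : v} (hp : Irreducible p) (hq : Irreducible q) :
    v.valuation (p : K) = v.valuation (q : K) := by
  obtain ⟨u, hu⟩ := IsDiscreteValuationRing.associated_of_irreducible v hp hq
  have h1 : v.valuation ((u : v) : K) = 1 := (v.valuation_eq_one_iff u).1 u.isUnit
  rw [← hu]
  push_cast
  rw [map_mul, h1, mul_one]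

theorem val_irr_lt [IsDiscreteValuationRing v] {p : v} (hp : Irreducible p) :
    v.valuation (p : K) < 1 :=
  lt_of_le_of_ne (v.valuation_le_one p) fun h => hp.not_isUnit ((v.valuation_eq_one_iff p).2 h)

theorem irr_ne {p : v} (hp : Irreducible p) : (p : K) ≠ 0 := by
  intro h
  exact hp.ne_zero (Subtype.ext h)

theorem val_irr_pos {p : v} (hp : Irreducible p) : 0 < v.valuation (p : K) :=
  zero_lt_iff.2 ((v.valuation.ne_zero_iff).2 (irr_ne v hp))

/-- every nonzero element has the valuation of a power of `p` -/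
theorem exists_val [IsDiscreteValuationRing v] {p : v} (hp : Irreducible p) {x : K} (hx : x ≠ 0) :
    ∃ k : ℤ, v.valuation x = v.valuation (p : K) ^ k := by
  rcases v.mem_or_inv_mem x with h | h
  · obtain ⟨n, u, hu⟩ := IsDiscreteValuationRing.eq_unit_mul_pow_irreducible
      (x := (⟨x, h⟩ : v)) (fun hh => hx (congrArg Subtype.val hh)) hp
    refine ⟨n, ?_⟩
    have h1 : x = ((u : v) : K) * (p : K) ^ n := by
      have := congrArg Subtype.val hu
      simpa using this
    have h2 : v.valuation ((u : v) : K) = 1 := (v.valuation_eq_one_iff u).1 u.isUnit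
    rw [h1, map_mul, h2, one_mul, map_pow, zpow_natCast]
  · obtain ⟨n, u, hu⟩ := IsDiscreteValuationRing.eq_unit_mul_pow_irreducible
      (x := (⟨x⁻¹, h⟩ : v)) (fun hh => inv_ne_zero hx (congrArg Subtype.val hh)) hp
    refine ⟨-n, ?_⟩
    have h1 : x⁻¹ = ((u : v) : K) * (p : K) ^ n := by
      have := congrArg Subtype.val hu
      simpa using this
    have h2 : v.valuation ((u : v) : K) = 1 := (v.valuation_eq_one_iff u).1 u.isUnit
    rw [← inv_inv x, h1, map_inv₀, map_mul, h2, one_mul, map_pow, zpow_neg, zpow_natCast]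

theorem ord_eq [IsDiscreteValuationRing v] {p : v} (hp : Irreducible p) {x : K} {k : ℤ}
    (h : v.valuation x = v.valuation (p : K) ^ k) : ord v x = k := by
  unfold ord
  have h0 := val_irr_pos v hp
  have h1 := val_irr_lt v hp
  have hs : {k : ℤ | ∃ (p : v) (y : K), Irreducible p ∧ y ∈ v ∧ x = (p : K) ^ k * y} =
      Set.Iic k := by
    ext j
    rw [Set.mem_Iic, ← zpow_le_zpow_iff_right_of_lt_one₀ h0 h1, ← h]
    constructor
    · rintro ⟨q, y, hq, hy, hxy⟩
      rw [hxy, map_mul, map_zpow₀, val_irr v hq hp]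
      have := (v.valuation_le_one_iff y).2 hy
      calc v.valuation (p : K) ^ j * v.valuation y ≤ v.valuation (p : K) ^ j * 1 :=
            mul_le_mul_right this _
        _ = _ := mul_one _
    · intro hj
      refine ⟨p, (p : K) ^ (-j) * x, hp, ?_, ?_⟩
      · rw [← v.valuation_le_one_iff, map_mul, map_zpow₀, zpow_neg]
        rw [inv_mul_le_iff₀ (zpow_pos h0 j), mul_one]
        exact hj
      · rw [← mul_assoc, ← zpow_add₀ (irr_ne v hp), add_neg_cancel, zpow_zero, one_mul]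
  rw [hs]
  exact csSup_Iic

theorem val_eq [IsDiscreteValuationRing v] {p : v} (hp : Irreducible p) {x : K} (hx : x ≠ 0) :
    v.valuation x = v.valuation (p : K) ^ ord v x := by
  obtain ⟨k, hk⟩ := exists_val v hp hx
  rw [ord_eq v hp hk, hk]

end OrdM

open OrdM

theorem specORD : SpecORD := by
  intro K _ v hv
  obtain ⟨p, hp⟩ := IsDiscreteValuationRing.exists_irreducible v
  have h0 := val_irr_pos v hp
  have h1 := val_irr_lt v hp
  have hle : ∀ a b : ℤ, v.valuation (p : K) ^ a ≤ v.valuation (p : K) ^ b ↔ b ≤ a :=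
    fun a b => zpow_le_zpow_iff_right_of_lt_one₀ h0 h1
  refine ⟨?_, ?_, ?_, ?_, ?_, ?_⟩
  · unfold ord
    have hs : {k : ℤ | ∃ (p : v) (y : K), Irreducible p ∧ y ∈ v ∧ (0 : K) = (p : K) ^ k * y} =
        Set.univ := by
      ext j
      simp only [Set.mem_ofPred_eq, Set.mem_univ, iff_true]
      exact ⟨p, 0, hp, v.zero_mem, by rw [mul_zero]⟩
    rw [hs]
    rw [csSup_of_not_bddAbove not_bddAbove_univ]
    exact Int.csSup_empty
  · intro x y hx hy
    apply ord_eq v hp
    rw [map_mul, val_eq v hp hx, val_eq v hp hy, zpow_add₀ h0.ne']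
  · intro x hx
    rw [← v.valuation_le_one_iff, val_eq v hp hx, ← zpow_zero (v.valuation (p : K)), hle]
  · intro x y hx hy hxy
    have h2 := v.valuation.map_add x y
    rw [val_eq v hp hx, val_eq v hp hy, val_eq v hp hxy] at h2
    rcases le_max_iff.1 h2 with h | h
    · exact (min_le_left _ _).trans ((hle _ _).1 h)
    · exact (min_le_right _ _).trans ((hle _ _).1 h)
  · exact ⟨p, p.2, irr_ne v hp, ord_eq v hp (by rw [zpow_one])⟩
  · intro q
    constructor
    · intro hq
      exact ⟨irr_ne v hq, ord_eq v hp (by rw [zpow_one, val_irr v hq hp])⟩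
    · rintro ⟨hq0, hq⟩
      have h2 := val_eq v hp hq0
      rw [hq, zpow_one] at h2
      obtain ⟨u, hu⟩ := (v.valuation_eq_iff _ _).1 h2
      have h3 : (u : v) * p = q := Subtype.ext hu
      rw [← h3]
      exact (irreducible_units_mul u).2 hp

end

end Pool.Agent.Lib.MPa7508c
end

section
/-!
OFORM, LOGJ: the order of a form, logarithmic Jacobian estimate
-/
set_option autoImplicit false

namespace Pool.Agent.Lib.MPa7508c

open MvPolynomial

noncomputable section

namespace OformM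

variable {K : Type} [Field K] [Algebra ℂ K] {m : ℕ} {v : ValuationSubring K}
  {c : Fin (m + 1) → K} {D : Fin (m + 1) → Derivation ℂ K K}

theorem sum_smul_apply {n : ℕ} (g : Fin n → K) (E : Fin n → Derivation ℂ K K) (z : K) :
    (∑ i, g i • E i) z = ∑ i, g i * E i z := by
  have h : ∀ s : Finset (Fin n), (∑ i ∈ s, g i • E i) z = ∑ i ∈ s, g i * E i z := by
    intro s
    induction s using Finset.induction_on with
    | empty => simp
    | insert a s ha ih =>
      rw [Finset.sum_insert ha, Finset.sum_insert ha, Derivation.add_apply, ih,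
        Derivation.smul_apply, smul_eq_mul]
  exact h _

/-- the frame is a basis of the derivations -/
def basis (h : LogFrame m v c D) : Module.Basis (Fin (m + 1)) K (Derivation ℂ K K) :=
  Module.Basis.mk (v := D)
    (by
      rw [Fintype.linearIndependent_iff]
      intro g hg i
      have h1 : (∑ i, g i • D i) (c i) = 0 := by
        rw [hg]
        rfl
      rw [sum_smul_apply, Finset.sum_eq_single i] at h1
      · rw [h.dual, if_pos rfl, mul_one] at h1
        exact h1
      · intro j _ hj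
        rw [h.dual, if_neg hj, mul_zero]
      · intro hh
        exact absurd (Finset.mem_univ i) hh)
    (by
      intro δ _
      have h1 : δ = ∑ i, δ (c i) • D i := by
        ext z
        rw [sum_smul_apply]
        exact h.span δ z
      rw [h1]
      exact Submodule.sum_mem _ fun i _ => Submodule.smul_mem _ _
        (Submodule.subset_span ⟨i, rfl⟩))

theorem basis_coe (h : LogFrame m v c D) : ⇑(basis h) = D := Module.Basis.coe_mk _ _

theorem dform_apply {n : ℕ} (z : Fin n → K) (E : Fin n → Derivation ℂ K K) :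
    dform z E = Matrix.det (Matrix.of fun a k => E a (z k)) := rfl

theorem dform_c (h : LogFrame m v c D) : dform c D = 1 := by
  rw [dform_apply]
  have : (Matrix.of fun a k => D a (c k)) = (1 : Matrix (Fin (m + 1)) (Fin (m + 1)) K) := by
    ext a k
    rw [Matrix.of_apply, h.dual, Matrix.one_apply]
  rw [this, Matrix.det_one]

theorem form_eq (h : LogFrame m v c D) (η : TopForm K (m + 1)) : η = η D • dform c := by
  have h1 := η.eq_smul_basis_det (basis h)
  have h2 := (dform c : TopForm K (m + 1)).eq_smul_basis_det (basis h)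
  rw [basis_coe] at h1 h2
  rw [dform_c h, one_smul] at h2
  rw [h2]
  exact h1

theorem det_mem {n : ℕ} (v : ValuationSubring K) (A : Matrix (Fin n) (Fin n) K)
    (hA : ∀ a k, A a k ∈ v) : A.det ∈ v := by
  have h : A = (Matrix.of fun a k => (⟨A a k, hA a k⟩ : v)).map (algebraMap v K) := by
    ext a k
    rfl
  rw [h, ← RingHom.mapMatrix_apply, ← RingHom.map_det]
  exact SetLike.coe_mem _

theorem regForms_iff (h : LogFrame m v c D) (ξ : TopForm K (m + 1)) :
    ξ ∈ regForms (m + 1) v ↔ ξ D ∈ v := by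
  constructor
  · intro hξ
    unfold regForms at hξ
    induction hξ using AddSubgroup.closure_induction with
    | mem x hx =>
      obtain ⟨y, z, hy, hz, rfl⟩ := hx
      rw [AlternatingMap.smul_apply, dform_apply, smul_eq_mul]
      exact v.mul_mem _ _ hy (det_mem v _ fun a k => h.reg a _ (hz k))
    | zero => exact v.zero_mem
    | add x y _ _ hx hy => exact v.add_mem _ _ hx hy
    | neg x _ hx => exact v.neg_mem _ hx
  · intro hξ
    apply AddSubgroup.subset_closure
    exact ⟨ξ D, c, hξ, h.mem, form_eq h ξ⟩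

theorem ordForm_eq (h : LogFrame m v c D) (η : TopForm K (m + 1)) :
    ordForm v η = ord v (η D) := by
  unfold ordForm ord
  congr 1
  ext k
  simp only [Set.mem_ofPred_eq]
  constructor
  · rintro ⟨p, hp, ξ, hξ, hη⟩
    refine ⟨p, ξ D, hp, (regForms_iff h ξ).1 hξ, ?_⟩
    rw [hη, AlternatingMap.smul_apply, smul_eq_mul]
  · rintro ⟨p, y, hp, hy, hη⟩
    have hp0 : (p : K) ≠ 0 := OrdM.irr_ne v hp
    refine ⟨p, hp, ((p : K) ^ (-k)) • η, ?_, ?_⟩
    · rw [regForms_iff h, AlternatingMap.smul_apply, smul_eq_mul, hη, ← mul_assoc,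
        ← zpow_add₀ hp0, neg_add_cancel, zpow_zero, one_mul]
      exact hy
    · rw [smul_smul, ← zpow_add₀ hp0, add_neg_cancel, zpow_zero, one_smul]

/-! ### logarithmic derivatives -/

theorem log_mem [IsDiscreteValuationRing v] (h : LogFrame m v c D) (a : Fin (m + 1)) {y : K}
    (hy : y ≠ 0) : (if a = 0 then c 0 else 1) * (D a y / y) ∈ v := by
  have hO := specORD K v inferInstance
  obtain ⟨ht, ht1⟩ := h.unif
  set t := c 0 with htdef
  -- y = t ^ n * u
  set n := ord v y with hn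
  set u := y / t ^ n with hu
  have htn : t ^ n ≠ 0 := zpow_ne_zero _ ht
  have hu0 : u ≠ 0 := div_ne_zero hy htn
  obtain ⟨p, hp⟩ := IsDiscreteValuationRing.exists_irreducible v
  have hvu : v.valuation u = 1 := by
    rw [hu, map_div₀, map_zpow₀, OrdM.val_eq v hp hy, OrdM.val_eq v hp ht, ht1, zpow_one, ← hn]
    exact div_self (zpow_ne_zero _ (OrdM.val_irr_pos v hp).ne')
  have huv : u ∈ v := (v.valuation_le_one_iff u).1 hvu.le
  have huv' : u⁻¹ ∈ v := by
    rw [← v.valuation_le_one_iff, map_inv₀, hvu, inv_one]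
  have hyu : y = t ^ n * u := by rw [hu]; field_simp
  have hlog : D a y / y = n * (D a t / t) + D a u * u⁻¹ := by
    have h1 : D a y = t ^ n * D a u + u * (n * t ^ (n - 1) * D a t) := by
      rw [hyu, Derivation.leibniz, Derivation.leibniz_zpow]
      simp only [smul_eq_mul, zsmul_eq_mul]
      ring
    rw [h1, hyu, zpow_sub_one₀ ht]
    field_simp
    ring
  rw [hlog, mul_add]
  have hm : ∀ a : Fin (m + 1), (if a = 0 then t else 1) ∈ v := by
    intro a
    split_ifs
    · exact h.mem 0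
    · exact v.one_mem
  apply v.add_mem
  · have h2 : (if a = 0 then t else 1) * ((n : K) * (D a t / t)) = if a = 0 then (n : K) else 0 := by
      rw [htdef, h.dual]
      split_ifs with h3
      · rw [← htdef]
        field_simp
      · simp
    rw [h2]
    split_ifs
    · exact intCast_mem v n
    · exact v.zero_mem
  · exact v.mul_mem _ _ (hm a) (v.mul_mem _ _ (h.reg a u huv) huv')

theorem det_log [IsDiscreteValuationRing v] (h : LogFrame m v c D) (y : Fin (m + 1) → K)
    (hy : ∀ k, y k ≠ 0) (hd : dform y D ≠ 0) :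
    ∑ k, ord v (y k) ≤ ord v (dform y D) + 1 := by
  have hO := specORD K v inferInstance
  have ht := h.unif.1
  set W : Matrix (Fin (m + 1)) (Fin (m + 1)) K := Matrix.of fun a k => D a (y k) / y k with hW
  have h1 : dform y D = (∏ k, y k) * W.det := by
    rw [dform_apply, ← Matrix.det_mul_row]
    congr 1
    ext a k
    rw [Matrix.of_apply, Matrix.of_apply, hW, Matrix.of_apply, mul_div_cancel₀ _ (hy k)]
  have hW0 : W.det ≠ 0 := by
    intro hh
    rw [h1, hh, mul_zero] at hd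
    exact hd rfl
  have h2 : c 0 * W.det ∈ v := by
    have h3 : c 0 * W.det = Matrix.det (Matrix.of fun a k =>
        (if a = 0 then c 0 else 1) * W a k) := by
      rw [Matrix.det_mul_column]
      congr 1
      rw [Finset.prod_ite_eq' Finset.univ (0 : Fin (m + 1)) (fun _ => c 0), if_pos (Finset.mem_univ _)]
    rw [h3]
    exact det_mem v _ fun a k => log_mem h a (hy k)
  have h4 : 0 ≤ ord v (c 0 * W.det) := (hO.nonneg _ (mul_ne_zero ht hW0)).2 h2
  rw [hO.mul _ _ ht hW0, h.unif.2] at h4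
  have h5 : ord v (dform y D) = ∑ k, ord v (y k) + ord v W.det := by
    have hprod : ∀ s : Finset (Fin (m + 1)), ord v (∏ k ∈ s, y k) = ∑ k ∈ s, ord v (y k) := by
      intro s
      induction s using Finset.induction_on with
      | empty =>
        rw [Finset.prod_empty, Finset.sum_empty]
        have := hO.mul 1 1 one_ne_zero one_ne_zero
        rw [one_mul] at this
        linarith
      | insert a s ha ih =>
        rw [Finset.prod_insert ha, Finset.sum_insert ha, hO.mul _ _ (hy a)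
          (Finset.prod_ne_zero_iff.2 fun k _ => hy k), ih]
    rw [h1, hO.mul _ _ (Finset.prod_ne_zero_iff.2 fun k _ => hy k) hW0, hprod]
  linarith

end OformM

open OformM

theorem specOFORM : SpecOFORM := by
  intro K _ _ m v c D hv h η hη
  refine ⟨fun h0 => hη ?_, ordForm_eq h η⟩
  rw [form_eq h η, h0, zero_smul]

theorem specLOGJ : SpecLOGJ := by
  intro K _ _ m v c D hv h z δ hz hδ
  have hO := specORD K v hv
  set M : Matrix (Fin (m + 1)) (Fin (m + 1)) K := Matrix.of fun a k => D a (z k) with hM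
  set N : Matrix (Fin (m + 1)) (Fin (m + 1)) K := Matrix.of fun i a => δ i (c a) with hN
  have hNM : N * M = 1 := by
    ext i j
    rw [Matrix.mul_apply, Matrix.one_apply, ← hδ i j, h.span (δ i) (z j)]
    rfl
  have hMN : M * N = 1 := mul_eq_one_comm.1 hNM
  have hMd : M.det ≠ 0 := by
    intro hh
    have := congrArg Matrix.det hNM
    rw [Matrix.det_mul, hh, mul_zero, Matrix.det_one] at this
    exact zero_ne_one this
  have hzD : dform z D = M.det := rfl
  have hz0 : (dform z : TopForm K (m + 1)) ≠ 0 := by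
    intro hh
    rw [← hzD, hh] at hMd
    exact hMd rfl
  have hof : ordForm v (dform z) = ord v M.det := ordForm_eq h _
  refine ⟨hz0, ?_, ?_⟩
  · rw [hof, ← hzD]
    exact det_log h z hz (by rw [hzD]; exact hMd)
  · intro p i hp
    have hp0 : p ≠ 0 := by
      rintro rfl
      exact hp (map_zero _)
    -- D p = M (δ p)
    have h1 : M.mulVec (fun k => δ k p) = fun a => D a p := by
      have h2 : (fun k => δ k p) = N.mulVec (fun a => D a p) := by
        funext k
        rw [h.span (δ k) p]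
        rfl
      rw [h2, Matrix.mulVec_mulVec, hMN, Matrix.one_mulVec]
    have h3 : (M.updateCol i (fun a => D a p)).det = M.det * δ i p := by
      rw [← Matrix.cramer_apply, ← h1, Matrix.cramer_eq_adjugate_mulVec, Matrix.mulVec_mulVec,
        Matrix.adjugate_mul, Matrix.smul_mulVec, Matrix.one_mulVec]
      rfl
    have h4 : dform (Function.update z i p) D = M.det * δ i p := by
      rw [← h3, dform_apply]
      congr 1
      ext a k
      rw [Matrix.of_apply, Matrix.updateCol_apply]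
      by_cases hk : k = i
      · subst hk
        rw [Function.update_self, if_pos rfl]
      · rw [Function.update_of_ne hk, if_neg hk]
        rfl
    have h5 := det_log h (Function.update z i p) (fun k => by
      by_cases hk : k = i
      · subst hk
        rw [Function.update_self]
        exact hp0
      · rw [Function.update_of_ne hk]
        exact hz k) (by rw [h4]; exact mul_ne_zero hMd hp)
    rw [h4, hO.mul _ _ hMd hp] at h5
    have h6 : ∑ k, ord v (Function.update z i p k) = ord v p + (∑ k, ord v (z k) - ord v (z i)) := by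
      rw [← Finset.add_sum_erase _ _ (Finset.mem_univ i), Function.update_self,
        ← Finset.add_sum_erase Finset.univ (fun k => ord v (z k)) (Finset.mem_univ i)]
      rw [Finset.sum_congr rfl fun k hk => by
        rw [Function.update_of_ne (Finset.ne_of_mem_erase hk)]]
      ring
    rw [hof]
    linarith

end

end Pool.Agent.Lib.MPa7508c
end

section
/-!
# Module OMD: the order of `ω` along `x_0 = 0`
-/
set_option autoImplicit false

namespace Pool.Agent.Lib.MPa7508c

open MvPolynomial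

noncomputable section

namespace OmdM

/-! ### orders -/

section

variable {K : Type} [Field K] {v : ValuationSubring K}

theorem ord_one (hO : OrdLaws v) : ord v 1 = 0 := by
  have := hO.mul 1 1 one_ne_zero one_ne_zero
  rw [one_mul] at this
  linarith

theorem ord_inv (hO : OrdLaws v) {z : K} (hz : z ≠ 0) : ord v z⁻¹ = - ord v z := by
  have := hO.mul z z⁻¹ hz (inv_ne_zero hz)
  rw [mul_inv_cancel₀ hz, ord_one hO] at this
  linarith

theorem ord_pow (hO : OrdLaws v) {z : K} (hz : z ≠ 0) (n : ℕ) : ord v (z ^ n) = n * ord v z := by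
  induction n with
  | zero => rw [pow_zero, ord_one hO]; simp
  | succ n ih =>
    rw [pow_succ, hO.mul _ _ (pow_ne_zero n hz) hz, ih]
    push_cast
    ring

theorem ord_zpow (hO : OrdLaws v) {z : K} (hz : z ≠ 0) (n : ℤ) : ord v (z ^ n) = n * ord v z := by
  rcases n.eq_nat_or_neg with ⟨k, rfl | rfl⟩
  · rw [zpow_natCast, ord_pow hO hz]
  · rw [zpow_neg, zpow_natCast, ord_inv hO (pow_ne_zero k hz), ord_pow hO hz]
    ring

theorem ord_prod (hO : OrdLaws v) {ι : Type} (s : Finset ι) (f : ι → K) (hf : ∀ i ∈ s, f i ≠ 0) :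
    ord v (∏ i ∈ s, f i) = ∑ i ∈ s, ord v (f i) := by
  classical
  induction s using Finset.induction_on with
  | empty => rw [Finset.prod_empty, Finset.sum_empty, ord_one hO]
  | insert a s ha ih =>
    have h1 : ∀ i ∈ s, f i ≠ 0 := fun i hi => hf i (Finset.mem_insert_of_mem hi)
    rw [Finset.prod_insert ha, Finset.sum_insert ha,
      hO.mul _ _ (hf a (Finset.mem_insert_self _ _)) (Finset.prod_ne_zero_iff.2 h1), ih h1]

theorem mem_of_ord (hO : OrdLaws v) {z : K} (hz : z ≠ 0 → 0 ≤ ord v z) : z ∈ v := by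
  by_cases h : z = 0
  · rw [h]; exact v.zero_mem
  · exact (hO.nonneg z h).1 (hz h)

theorem ord_const [Algebra ℂ K] (hO : OrdLaws v) (hc : ∀ a : ℂ, algebraMap ℂ K a ∈ v) {a : ℂ}
    (ha : a ≠ 0) : ord v (algebraMap ℂ K a) = 0 := by
  have h0 : algebraMap ℂ K a ≠ 0 := fun h => ha ((algebraMap ℂ K).injective (by rw [h, map_zero]))
  have h1 := (hO.nonneg _ h0).2 (hc a)
  have h2 := (hO.nonneg _ (inv_ne_zero h0)).2 (by rw [← map_inv₀]; exact hc _)
  rw [ord_inv hO h0] at h2
  linarith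

theorem ord_nat [Algebra ℂ K] (hO : OrdLaws v) (hc : ∀ a : ℂ, algebraMap ℂ K a ∈ v) {n : ℕ}
    (hn : n ≠ 0) : ord v (n : K) = 0 := by
  have h1 : (n : K) = algebraMap ℂ K (n : ℂ) := by rw [map_natCast]
  rw [h1]
  exact ord_const hO hc (by exact_mod_cast hn)

end

/-! ### logarithmic derivatives -/

section

variable {K : Type} [Field K] [Algebra ℂ K]

/-- logarithmic derivative -/
def ld (E : Derivation ℂ K K) (z : K) : K := E z / z

theorem ld_mul (E : Derivation ℂ K K) {y z : K} (hy : y ≠ 0) (hz : z ≠ 0) :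
    ld E (y * z) = ld E y + ld E z := by
  unfold ld
  rw [Derivation.leibniz]
  simp only [smul_eq_mul]
  field_simp
  ring

theorem ld_one (E : Derivation ℂ K K) : ld E 1 = 0 := by
  unfold ld
  rw [Derivation.map_one_eq_zero, zero_div]

theorem ld_zpow (E : Derivation ℂ K K) {z : K} (hz : z ≠ 0) (n : ℤ) :
    ld E (z ^ n) = n * ld E z := by
  unfold ld
  rw [Derivation.leibniz_zpow]
  simp only [smul_eq_mul, zsmul_eq_mul]
  rw [zpow_sub_one₀ hz]
  field_simp

theorem ld_pow (E : Derivation ℂ K K) {z : K} (hz : z ≠ 0) (n : ℕ) :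
    ld E (z ^ n) = n * ld E z := by
  have := ld_zpow E hz n
  rw [zpow_natCast] at this
  rw [this]
  push_cast
  ring

theorem ld_inv (E : Derivation ℂ K K) {z : K} (hz : z ≠ 0) : ld E z⁻¹ = - ld E z := by
  have := ld_zpow E hz (-1)
  rw [zpow_neg_one] at this
  rw [this]
  push_cast
  ring

theorem ld_prod (E : Derivation ℂ K K) {ι : Type} (s : Finset ι) (f : ι → K)
    (hf : ∀ i ∈ s, f i ≠ 0) : ld E (∏ i ∈ s, f i) = ∑ i ∈ s, ld E (f i) := by
  classical
  induction s using Finset.induction_on with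
  | empty => rw [Finset.prod_empty, Finset.sum_empty, ld_one]
  | insert a s ha ih =>
    have h1 : ∀ i ∈ s, f i ≠ 0 := fun i hi => hf i (Finset.mem_insert_of_mem hi)
    rw [Finset.prod_insert ha, Finset.sum_insert ha,
      ld_mul E (hf a (Finset.mem_insert_self _ _)) (Finset.prod_ne_zero_iff.2 h1), ih h1]

theorem der_eq (E : Derivation ℂ K K) {z : K} (hz : z ≠ 0) : E z = ld E z * z := by
  unfold ld
  rw [div_mul_cancel₀ _ hz]

end

section

variable {m : ℕ} {Δ : Dat m} {K : Type} [Field K] [Algebra ℂ K] {x : Fin (m + 2) → K}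

/-- the coordinates, made of degree `0` by the powers of an element `ν` of degree `-1` -/
def nv (Δ : Dat m) (x : Fin (m + 2) → K) (ν : K) (o : Option (Fin (m + 2))) : K :=
  o.elim 1 x * ν ^ Δ.ww o

theorem aeval_nv (ν : K) {d : ℕ} {P : MvPolynomial (Option (Fin (m + 2))) ℂ}
    (hP : IsWeightedHomogeneous Δ.ww P d) : dhP x P * ν ^ d = aeval (nv Δ x ν) P := by
  rw [dhP, aeval_def, aeval_def, eval₂_eq', eval₂_eq', Finset.sum_mul]
  refine Finset.sum_congr rfl fun α hα => ?_
  have h1 := hP (mem_support_iff.1 hα)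
  have h2 : d = ∑ o, Δ.ww o * α o := by
    rw [← h1, Finsupp.weight_apply, Finsupp.sum_fintype _ _ (by simp)]
    refine Finset.sum_congr rfl fun o _ => ?_
    rw [smul_eq_mul, mul_comm]
  rw [mul_assoc]
  congr 1
  simp only [nv, mul_pow, Finset.prod_mul_distrib, ← pow_mul]
  congr 1
  rw [Finset.prod_pow_eq_pow_sum, h2]

/-- the elements of `F` with derivative in `F` -/
def sub (F : ValuationSubring K) (hc : ∀ a : ℂ, algebraMap ℂ K a ∈ F) (E : Derivation ℂ K K) :
    Subalgebra ℂ K where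
  carrier := {z | z ∈ F ∧ E z ∈ F}
  mul_mem' := by
    rintro a b ⟨ha, ha'⟩ ⟨hb, hb'⟩
    refine ⟨F.mul_mem _ _ ha hb, ?_⟩
    rw [Derivation.leibniz]
    exact F.add_mem _ _ (F.mul_mem _ _ ha hb') (F.mul_mem _ _ hb ha')
  add_mem' := by
    rintro a b ⟨ha, ha'⟩ ⟨hb, hb'⟩
    refine ⟨F.add_mem _ _ ha hb, ?_⟩
    rw [map_add]
    exact F.add_mem _ _ ha' hb'
  algebraMap_mem' := by
    intro a
    refine ⟨hc a, ?_⟩
    rw [Derivation.map_algebraMap]
    exact F.zero_mem

theorem aeval_mem {F : ValuationSubring K} {hc : ∀ a : ℂ, algebraMap ℂ K a ∈ F}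
    {E : Derivation ℂ K K} {σ : Type} (g : σ → K) (hg : ∀ o, g o ∈ sub F hc E)
    (P : MvPolynomial σ ℂ) : aeval g P ∈ sub F hc E := by
  induction P using MvPolynomial.induction_on with
  | C a => rw [aeval_C]; exact (sub F hc E).algebraMap_mem a
  | add p q hp hq => rw [map_add]; exact (sub F hc E).add_mem hp hq
  | mul_X p n hp => rw [map_mul, aeval_X]; exact (sub F hc E).mul_mem hp (hg n)

/-- the criterion for a derivation to preserve `F` -/
theorem pres (h : IsFun Δ K x) {F : ValuationSubring K} {p : Δ.R} {e : ℕ} (hF : IsDivOf h F p e)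
    (hc : ∀ a : ℂ, algebraMap ℂ K a ∈ F) (E : Derivation ℂ K K) (ν : K) (hν : ν ≠ 0)
    (hg : ∀ o, nv Δ x ν o ∈ F) (hEg : ∀ o, E (nv Δ x ν o) ∈ F)
    (hu : ∀ (d : ℕ) (s : Δ.R), s ∈ Δ.hm d → ¬ p ∣ s → dh h s ≠ 0 ∧ (dh h s * ν ^ d)⁻¹ ∈ F) :
    ∀ z ∈ F, E z ∈ F := by
  intro z hz
  obtain ⟨d, r, s, hr, hs, hps, hzs⟩ := (hF.mem z).1 hz
  obtain ⟨hs0, hsi⟩ := hu d s hs hps
  obtain ⟨P, hP, rfl⟩ := hr
  obtain ⟨Q, hQ, rfl⟩ := hs
  rw [SetLike.mem_coe, mem_weightedHomogeneousSubmodule] at hP hQ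
  have h1 : dhP x P * ν ^ d ∈ sub F hc E := by
    rw [aeval_nv ν hP]
    exact aeval_mem _ (fun o => ⟨hg o, hEg o⟩) P
  have h2 : dhP x Q * ν ^ d ∈ sub F hc E := by
    rw [aeval_nv ν hQ]
    exact aeval_mem _ (fun o => ⟨hg o, hEg o⟩) Q
  have hs0' : dhP x Q ≠ 0 := hs0
  have hsi' : (dhP x Q * ν ^ d)⁻¹ ∈ F := hsi
  have hzs' : z * dhP x Q = dhP x P := hzs
  set A := dhP x P * ν ^ d with hA
  set B := dhP x Q * ν ^ d with hB
  have hB0 : B ≠ 0 := mul_ne_zero hs0' (pow_ne_zero d hν)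
  have hzB : z = A * B⁻¹ := by
    rw [eq_mul_inv_iff_mul_eq₀ hB0, hA, hB, ← hzs']
    ring
  have h3 : B⁻¹ ∈ sub F hc E := by
    refine ⟨hsi', ?_⟩
    rw [Derivation.leibniz_inv]
    simp only [smul_eq_mul, neg_mul]
    exact F.neg_mem _ (F.mul_mem _ _ (pow_mem hsi' 2) h2.2)
  have h4 : z ∈ sub F hc E := by
    rw [hzB]
    exact (sub F hc E).mul_mem h1 h3
  exact h4.2

end

end OmdM

open OmdM in
/-- OMD. -/
theorem specOMD (hORD : SpecORD) (hRNG : SpecRNG) (hFUN : SpecFUN) (hLOGD : SpecLOGD)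
    (hCOST : SpecCOST) (hDIVX : SpecDIVX) (hDD0 : SpecDD0) : SpecOMD := by
  intro m Δ hm K _ _ x h F p e hF hp
  classical
  obtain ⟨hdiv, hg0, hgi⟩ := hDD0 m Δ hm K x h F p e hF hp
  have hc := hdiv.1
  have hdvr := hdiv.2.1
  have hO := hORD K F hdvr
  have hFL := hFUN m Δ hm K x h
  have hR := hRNG m Δ hm
  have hxne := hFL.xne
  have hchar : CharZero K := DerM.charZero
  have hom0 : omega Δ x ≠ 0 := (specDER m Δ hm K x h).1
  -- orders of the coordinates
  have hx : ∀ i, ord F (x i) = - (Δ.w i : ℤ) := by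
    intro i
    have h1 := hgi i
    rw [gam, hg0, mul_one] at h1
    have h2 : (ord F (x i) : ℚ) = ((- (Δ.w i : ℤ) : ℤ) : ℚ) := by
      push_cast
      linarith
    exact_mod_cast h2
  have hwpos : ∀ i, 0 < Δ.w i := Δ.wt.pos
  have hL : ∀ i, (Δ.a i : ℤ) * Δ.w i = Δ.L := fun i => by exact_mod_cast Δ.wt.mul i
  have ha2 := Δ.wt.two_le
  -- the monomial of degree one
  obtain ⟨ee, hee⟩ := Δ.hgcd
  set μ : K := ∏ i, x i ^ ee i with hμ
  have hμ0 : μ ≠ 0 := Finset.prod_ne_zero_iff.2 fun i _ => zpow_ne_zero _ (hxne i)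
  have hμord : ord F μ = -1 := by
    rw [hμ, ord_prod hO _ _ fun i _ => zpow_ne_zero _ (hxne i)]
    have h1 : ∀ i, ord F (x i ^ ee i) = - (ee i * (Δ.w i : ℤ)) := by
      intro i
      rw [ord_zpow hO (hxne i), hx]
      ring
    rw [Finset.sum_congr rfl fun i _ => h1 i, Finset.sum_neg_distrib, hee]
  set ν : K := μ⁻¹ with hν
  have hν0 : ν ≠ 0 := inv_ne_zero hμ0
  have hνord : ord F ν = 1 := by rw [hν, ord_inv hO hμ0, hμord]; norm_num
  -- lower bound
  have hlow : - (Δ.q : ℤ) ≤ ordForm F (omega Δ x) := by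
    have h1 := (hCOST m Δ hm K x h F hdiv 0 (hgi 0)).1
    rw [gsum, LD, hg0, Finset.sum_eq_zero fun i _ => hgi i] at h1
    have h2 : ((- (Δ.q : ℤ) : ℤ) : ℚ) ≤ ((ordForm F (omega Δ x) : ℤ) : ℚ) := by
      push_cast
      linarith
    exact_mod_cast h2
  -- units of F
  have hu : ∀ (d : ℕ) (s : Δ.R), s ∈ Δ.hm d → ¬ p ∣ s →
      dh h s ≠ 0 ∧ (dh h s * ν ^ d)⁻¹ ∈ F := by
    intro d s hs hps
    have hs0 : s ≠ 0 := by
      rintro rfl
      exact hps (dvd_zero p)
    have hd0 : dh h s ≠ 0 := fun h0 => hs0 (hFL.inj d s hs h0)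
    refine ⟨hd0, ?_⟩
    have h1 := (((hDIVX m Δ hm K x h).2 F p e hF).2 d s hs hs0).2 hp
    have h2 : mult p s = 0 := by
      have := hR.mult_le p s 1 hF.prime hs0
      rw [pow_one] at this
      by_contra h3
      exact hps (this.1 (Nat.one_le_iff_ne_zero.2 h3))
    rw [h2] at h1
    apply mem_of_ord hO
    intro _
    rw [ord_inv hO (mul_ne_zero hd0 (pow_ne_zero d hν0)), hO.mul _ _ hd0 (pow_ne_zero d hν0),
      ord_pow hO hν0, h1, hνord]
    push_cast
    linarith
  -- construction of derivations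
  have hmk : ∀ lam : Fin (m + 2) → K, ∑ k, (Δ.a k : K) * x k ^ Δ.a k * lam k = 0 →
      (∀ k, lam k - Δ.w k * ∑ l, (ee l : K) * lam l ∈ F) → ν * ∑ l, (ee l : K) * lam l ∈ F →
      ∃ E : Derivation ℂ K K, (∀ k, E (x k) = lam k * x k) ∧ ∀ z ∈ F, E z ∈ F := by
    intro lam h1 h2 h3
    obtain ⟨E, hE⟩ := DerM.exists_der h (fun k => lam k * x k) (by
      rw [← h1]
      refine Finset.sum_congr rfl fun k _ => ?_
      have h4 : x k ^ Δ.a k = x k ^ (Δ.a k - 1) * x k := by
        rw [← pow_succ]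
        congr 1
        have := ha2 k
        omega
      rw [h4]
      ring)
    refine ⟨E, hE, ?_⟩
    have hld : ∀ k, ld E (x k) = lam k := by
      intro k
      rw [ld, hE, mul_div_cancel_right₀ _ (hxne k)]
    have hldμ : ld E μ = ∑ l, (ee l : K) * lam l := by
      rw [hμ, ld_prod E _ _ fun i _ => zpow_ne_zero _ (hxne i)]
      refine Finset.sum_congr rfl fun k _ => ?_
      rw [ld_zpow E (hxne k), hld]
    have hldν : ld E ν = - ∑ l, (ee l : K) * lam l := by
      rw [hν, ld_inv E hμ0, hldμ]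
    have hνF : ν ∈ F := mem_of_ord hO fun _ => by rw [hνord]; norm_num
    have hyF : ∀ k, x k * ν ^ Δ.w k ∈ F := by
      intro k
      apply mem_of_ord hO
      intro _
      rw [hO.mul _ _ (hxne k) (pow_ne_zero _ hν0), ord_pow hO hν0, hx, hνord]
      linarith
    refine pres h hF hc E ν hν0 ?_ ?_ hu
    · rintro (_ | k)
      · simpa [nv, Dat.ww] using hνF
      · simpa [nv, Dat.ww] using hyF k
    · rintro (_ | k)
      · have h4 : nv Δ x ν none = ν := by simp [nv, Dat.ww]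
        rw [h4, der_eq E hν0, hldν]
        have h5 : -(∑ l, (ee l : K) * lam l) * ν = - (ν * ∑ l, (ee l : K) * lam l) := by ring
        rw [h5]
        exact F.neg_mem _ h3
      · have h4 : nv Δ x ν (some k) = x k * ν ^ Δ.w k := by simp [nv, Dat.ww]
        have h6 : x k * ν ^ Δ.w k ≠ 0 := mul_ne_zero (hxne k) (pow_ne_zero _ hν0)
        rw [h4, der_eq E h6, ld_mul E (hxne k) (pow_ne_zero _ hν0), ld_pow E hν0, hld, hldν]
        refine F.mul_mem _ _ ?_ (hyF k)
        have h5 : lam k + (Δ.w k : K) * -(∑ l, (ee l : K) * lam l) =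
          lam k - (Δ.w k : K) * ∑ l, (ee l : K) * lam l := by ring
        rw [h5]
        exact h2 k
  -- the matrix of logarithmic derivatives
  have hnatF : ∀ n : ℕ, (n : K) ∈ F := fun n => natCast_mem F n
  have hintF : ∀ n : ℤ, (n : K) ∈ F := fun n => intCast_mem F n
  have hane : ∀ k, (Δ.a k : K) ≠ 0 := by
    intro k
    have := ha2 k
    exact_mod_cast (by omega : Δ.a k ≠ 0)
  have hwne : ∀ k, (Δ.w k : K) ≠ 0 := by
    intro k
    have := hwpos k
    exact_mod_cast (by omega : Δ.w k ≠ 0)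
  have hEi : ∀ i : Fin (m + 1), i ≠ 0 → ∃ E : Derivation ℂ K K,
      (∀ k : Fin (m + 1), E (x k.succ) = if k = i then x k.succ else 0) ∧ ∀ z ∈ F, E z ∈ F := by
    intro i hi
    set r : K := - ((Δ.a i.succ : K) * x i.succ ^ Δ.a i.succ) / ((Δ.a 0 : K) * x 0 ^ Δ.a 0) with hr
    have hrF : r ∈ F := by
      apply mem_of_ord hO
      intro _
      have h1 : ∀ k, ord F ((Δ.a k : K) * x k ^ Δ.a k) = - (Δ.L : ℤ) := by
        intro k
        have := ha2 k
        rw [hO.mul _ _ (hane k) (pow_ne_zero _ (hxne k)), ord_nat hO hc (by omega),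
          ord_pow hO (hxne k), hx, ← hL k]
        ring
      have h0 : ∀ k, (Δ.a k : K) * x k ^ Δ.a k ≠ 0 := fun k =>
        mul_ne_zero (hane k) (pow_ne_zero _ (hxne k))
      have h2 : r = (-1) * ((Δ.a i.succ : K) * x i.succ ^ Δ.a i.succ) *
          ((Δ.a 0 : K) * x 0 ^ Δ.a 0)⁻¹ := by
        rw [hr]; ring
      have h3 : ord F (-1 : K) = 0 := by
        have := ord_const hO hc (a := -1) (by norm_num)
        rwa [map_neg, map_one] at this
      rw [h2, hO.mul _ _ (mul_ne_zero (by norm_num) (h0 _)) (inv_ne_zero (h0 _)),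
        hO.mul _ _ (by norm_num) (h0 _), ord_inv hO (h0 _), h1, h1, h3]
      norm_num
    have hlamF : ∀ k : Fin (m + 2), (if k = i.succ then 1 else if k = 0 then r else 0 : K) ∈ F := by
      intro k
      split_ifs
      · exact F.one_mem
      · exact hrF
      · exact F.zero_mem
    have hsumF : ∑ l, (ee l : K) * (if l = i.succ then 1 else if l = 0 then r else 0 : K) ∈ F :=
      sum_mem fun l _ => F.mul_mem _ _ (hintF _) (hlamF l)
    obtain ⟨E, hE, hEF⟩ := hmk (fun k => if k = i.succ then 1 else if k = 0 then r else 0) (by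
        rw [Fin.sum_univ_succ, Finset.sum_eq_single i]
        · have h1 : (0 : Fin (m + 2)) ≠ i.succ := (Fin.succ_ne_zero i).symm
          rw [if_neg h1, if_pos rfl, if_pos rfl, hr, mul_div_cancel₀ _
            (mul_ne_zero (hane 0) (pow_ne_zero _ (hxne 0)))]
          ring
        · intro k _ hk
          rw [if_neg (fun hh => hk (Fin.succ_injective _ hh)), if_neg (Fin.succ_ne_zero k),
            mul_zero]
        · intro hh
          exact absurd (Finset.mem_univ i) hh)
      (fun k => sub_mem (hlamF k) (F.mul_mem _ _ (hnatF _) hsumF))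
      (F.mul_mem _ _ (mem_of_ord hO fun _ => by rw [hνord]; norm_num) hsumF)
    refine ⟨E, fun k => ?_, hEF⟩
    rw [hE]
    by_cases hk : k = i
    · rw [if_pos (by rw [hk]), if_pos hk, one_mul]
    · rw [if_neg (fun hh => hk (Fin.succ_injective _ hh)), if_neg (Fin.succ_ne_zero k), if_neg hk,
        zero_mul]
  have hE0 : ∃ E : Derivation ℂ K K,
      (∀ k : Fin (m + 1), E (x k.succ) = (Δ.w k.succ : K) * μ * x k.succ) ∧
        ∀ z ∈ F, E z ∈ F := by
    set y : K := μ * (x 0 ^ Δ.a 0)⁻¹ with hy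
    have hx0a : x 0 ^ Δ.a 0 ≠ 0 := pow_ne_zero _ (hxne 0)
    have hyF : y ∈ F := by
      apply mem_of_ord hO
      intro _
      rw [hy, hO.mul _ _ hμ0 (inv_ne_zero hx0a), ord_inv hO hx0a, ord_pow hO (hxne 0), hx, hμord]
      have h1 := hL 0
      have h2 := Δ.two_le_L
      have h3 : (2 : ℤ) ≤ Δ.L := by exact_mod_cast h2
      linarith
    have hsum : ∑ l : Fin (m + 2), (ee l : K) * ((Δ.w l : K) * μ + if l = 0 then (Δ.w 0 : K) * y else 0)
        = μ + (ee 0 : K) * Δ.w 0 * y := by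
      simp only [mul_add, Finset.sum_add_distrib]
      have h1 : ∑ l : Fin (m + 2), (ee l : K) * ((Δ.w l : K) * μ) = μ := by
        have h2 : ((∑ i, ee i * (Δ.w i : ℤ) : ℤ) : K) = 1 := by rw [hee]; norm_num
        push_cast at h2
        calc ∑ l : Fin (m + 2), (ee l : K) * ((Δ.w l : K) * μ)
            = (∑ l : Fin (m + 2), (ee l : K) * (Δ.w l : K)) * μ := by
              rw [Finset.sum_mul]
              exact Finset.sum_congr rfl fun _ _ => by ring
          _ = μ := by rw [h2, one_mul]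
      rw [h1, Finset.sum_eq_single 0]
      · rw [if_pos rfl]; ring
      · intro k _ hk
        rw [if_neg hk, mul_zero]
      · intro hh
        exact absurd (Finset.mem_univ _) hh
    obtain ⟨E, hE, hEF⟩ := hmk
      (fun k => (Δ.w k : K) * μ + if k = 0 then (Δ.w 0 : K) * y else 0) (by
        simp only [mul_add, Finset.sum_add_distrib]
        have h1 : ∀ k, (Δ.a k : K) * x k ^ Δ.a k * ((Δ.w k : K) * μ) =
            (Δ.L : K) * μ * x k ^ Δ.a k := by
          intro k
          have h2 : (Δ.a k : K) * (Δ.w k : K) = (Δ.L : K) := by exact_mod_cast Δ.wt.mul k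
          rw [← h2]
          ring
        have h3 : ∑ k : Fin (m + 2), (Δ.a k : K) * x k ^ Δ.a k *
            (if k = 0 then (Δ.w 0 : K) * y else 0) = (Δ.L : K) * μ := by
          rw [Finset.sum_eq_single 0]
          · have h2 : (Δ.a 0 : K) * (Δ.w 0 : K) = (Δ.L : K) := by exact_mod_cast Δ.wt.mul 0
            rw [if_pos rfl, ← h2, hy]
            field_simp
          · intro k _ hk
            rw [if_neg hk, mul_zero]
          · intro hh
            exact absurd (Finset.mem_univ _) hh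
        rw [h3, Finset.sum_congr rfl fun k _ => h1 k, ← Finset.mul_sum]
        have h4 := h.eqn
        calc (Δ.L : K) * μ * ∑ i, x i ^ Δ.a i + (Δ.L : K) * μ
            = (Δ.L : K) * μ * (1 + ∑ i, x i ^ Δ.a i) := by ring
          _ = 0 := by rw [h4, mul_zero])
      (by
        intro k
        rw [hsum]
        have h1 : (Δ.w k : K) * μ + (if k = 0 then (Δ.w 0 : K) * y else 0) -
            (Δ.w k : K) * (μ + (ee 0 : K) * Δ.w 0 * y) =
            (if k = 0 then (Δ.w 0 : K) * y else 0) - (Δ.w k : K) * ((ee 0 : K) * Δ.w 0 * y) := by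
          ring
        rw [h1]
        have h2 : (if k = 0 then (Δ.w 0 : K) * y else 0) ∈ F := by
          split_ifs
          · exact F.mul_mem _ _ (hnatF _) hyF
          · exact F.zero_mem
        exact sub_mem h2 (F.mul_mem _ _ (hnatF _)
          (F.mul_mem _ _ (F.mul_mem _ _ (hintF _) (hnatF _)) hyF)))
      (by
        rw [hsum, mul_add, hν, inv_mul_cancel₀ hμ0]
        have hνF : μ⁻¹ ∈ F := mem_of_ord hO fun _ => by rw [hνord]; norm_num
        exact F.add_mem _ _ F.one_mem (F.mul_mem _ _ hνF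
          (F.mul_mem _ _ (F.mul_mem _ _ (hintF _) (hnatF _)) hyF)))
    refine ⟨E, fun k => ?_, hEF⟩
    rw [hE, if_neg (Fin.succ_ne_zero k), add_zero]
  -- the frame of derivations
  have hall : ∀ i : Fin (m + 1), ∃ E : Derivation ℂ K K,
      (∀ k : Fin (m + 1), E (x k.succ) = if i = 0 then (Δ.w k.succ : K) * μ * x k.succ else
        if k = i then x k.succ else 0) ∧ ∀ z ∈ F, E z ∈ F := by
    intro i
    by_cases hi : i = 0
    · subst hi
      simpa using hE0
    · obtain ⟨E, h1, h2⟩ := hEi i hi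
      refine ⟨E, fun k => ?_, h2⟩
      rw [h1, if_neg hi]
  choose E hE hEF using hall
  have hdet : dform (but x 0) E = ((Δ.w 1 : K) * μ) * ∏ i : Fin (m + 1), x i.succ := by
    have h1 : dform (but x 0) E = Matrix.det (Matrix.of fun (a k : Fin (m + 1)) =>
        E a (x k.succ)) := rfl
    rw [h1, Matrix.det_of_isUpperTriangular]
    · rw [Fin.prod_univ_succ, Fin.prod_univ_succ (fun i : Fin (m + 1) => x i.succ)]
      rw [Matrix.of_apply, hE, if_pos rfl]
      have h2 : ∏ i : Fin m, (Matrix.of fun (a k : Fin (m + 1)) => E a (x k.succ)) i.succ i.succ =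
          ∏ i : Fin m, x i.succ.succ := by
        refine Finset.prod_congr rfl fun i _ => ?_
        rw [Matrix.of_apply, hE, if_neg (Fin.succ_ne_zero i), if_pos rfl]
      rw [h2]
      have h3 : (0 : Fin (m + 1)).succ = 1 := rfl
      rw [h3]
      ring
    · intro i k hik
      have hik' : k < i := hik
      rw [Matrix.of_apply, hE, if_neg (by rintro rfl; exact absurd hik' (Fin.not_lt_zero k)),
        if_neg (ne_of_lt hik')]
  have homE : ord F (omega Δ x E) = - (Δ.q : ℤ) := by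
    have h1 : omega Δ x E = ((Δ.a 0 : K) * x 0 ^ (Δ.a 0 - 1))⁻¹ * dform (but x 0) E := rfl
    have h2 : ∏ i : Fin (m + 1), x i.succ ≠ 0 := Finset.prod_ne_zero_iff.2 fun i _ => hxne _
    have h3 : (Δ.a 0 : K) * x 0 ^ (Δ.a 0 - 1) ≠ 0 :=
      mul_ne_zero (hane 0) (pow_ne_zero _ (hxne 0))
    have h4 := ha2 0
    have h5 := hwpos 1
    rw [h1, hdet, hO.mul _ _ (inv_ne_zero h3) (mul_ne_zero (mul_ne_zero (hwne 1) hμ0) h2),
      ord_inv hO h3, hO.mul _ _ (hane 0) (pow_ne_zero _ (hxne 0)), ord_nat hO hc (by omega),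
      ord_pow hO (hxne 0), hO.mul _ _ (mul_ne_zero (hwne 1) hμ0) h2, hO.mul _ _ (hwne 1) hμ0,
      ord_nat hO hc (by omega), hμord, ord_prod hO _ _ fun i _ => hxne _, hx,
      Finset.sum_congr rfl fun i _ => hx (Fin.succ i), Finset.sum_neg_distrib]
    have h6 := Δ.hq
    rw [Fin.sum_univ_succ] at h6
    have h7 : (Δ.q : ℤ) + Δ.L = 1 + (Δ.w 0 + ∑ i : Fin (m + 1), (Δ.w i.succ : ℤ)) := by
      exact_mod_cast h6
    have h8 := hL 0
    have h9 : ((Δ.a 0 - 1 : ℕ) : ℤ) = (Δ.a 0 : ℤ) - 1 := by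
      rw [Nat.cast_sub (by omega)]
      norm_num
    rw [h9]
    linarith
  -- comparison with a log frame
  obtain ⟨c, D, hfr⟩ := hLOGD K m F hFL.trdeg hFL.fg hdiv
  have h1 := OformM.form_eq hfr (omega Δ x)
  have h2 : omega Δ x E = omega Δ x D * dform c E := by
    conv_lhs => rw [h1]
    rfl
  have h3 : dform c E ∈ F := by
    rw [OformM.dform_apply]
    exact OformM.det_mem F _ fun a k => hEF a _ (hfr.mem k)
  have h4 : omega Δ x D ≠ 0 := by
    intro h0
    rw [h0, zero_smul] at h1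
    exact hom0 h1
  have h5 : dform c E ≠ 0 := by
    intro h0
    rw [h0, mul_zero] at h2
    have h6 : omega Δ x E ≠ 0 := by
      have h7 : omega Δ x E = ((Δ.a 0 : K) * x 0 ^ (Δ.a 0 - 1))⁻¹ * dform (but x 0) E := rfl
      rw [h7, hdet]
      exact mul_ne_zero (inv_ne_zero (mul_ne_zero (hane 0) (pow_ne_zero _ (hxne 0))))
        (mul_ne_zero (mul_ne_zero (hwne 1) hμ0) (Finset.prod_ne_zero_iff.2 fun i _ => hxne _))
    exact h6 h2
  have h6 := (hO.nonneg _ h5).2 h3
  have h7 := OformM.ordForm_eq hfr (omega Δ x)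
  rw [h2, hO.mul _ _ h4 h5] at homE
  linarith

end

end Pool.Agent.Lib.MPa7508c
end

section
/-!
PULL: pull back of Weil divisors
-/
set_option autoImplicit false

namespace Pool.Agent.Lib.MPa7508c

open MvPolynomial

noncomputable section

namespace PullM

section ord

variable {K : Type} [Field K] {v : ValuationSubring K}

theorem ord_one (hO : OrdLaws v) : ord v (1 : K) = 0 := by
  have := hO.mul 1 1 one_ne_zero one_ne_zero
  rw [one_mul] at this
  linarith

theorem ord_inv (hO : OrdLaws v) {x : K} (hx : x ≠ 0) : ord v x⁻¹ = -ord v x := by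
  have := hO.mul x x⁻¹ hx (inv_ne_zero hx)
  rw [mul_inv_cancel₀ hx, ord_one hO] at this
  linarith

theorem ord_div (hO : OrdLaws v) {x y : K} (hx : x ≠ 0) (hy : y ≠ 0) :
    ord v (x / y) = ord v x - ord v y := by
  rw [div_eq_mul_inv, hO.mul _ _ hx (inv_ne_zero hy), ord_inv hO hy]
  ring

theorem ord_pow (hO : OrdLaws v) {x : K} (hx : x ≠ 0) (n : ℕ) :
    ord v (x ^ n) = n * ord v x := by
  induction n with
  | zero =>
    rw [pow_zero, ord_one hO]
    simp
  | succ n ih =>
    rw [pow_succ, hO.mul _ _ (pow_ne_zero n hx) hx, ih]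
    push_cast
    ring

theorem ord_zpow (hO : OrdLaws v) {x : K} (hx : x ≠ 0) (n : ℤ) :
    ord v (x ^ n) = n * ord v x := by
  rcases Int.eq_nat_or_neg n with ⟨k, rfl | rfl⟩
  · rw [zpow_natCast, ord_pow hO hx]
  · rw [zpow_neg, zpow_natCast, ord_inv hO (pow_ne_zero _ hx), ord_pow hO hx]
    ring

end ord

variable {m : ℕ} {Δ : Dat m} {K : Type} [Field K] [Algebra ℂ K] {x : Fin (m + 2) → K}

theorem mem_congr {𝔓 : Ideal (MvPolynomial (Option (Fin (m + 2))) ℂ)}
    (hfp : fp _ Δ.b ∈ 𝔓) {P Q : MvPolynomial (Option (Fin (m + 2))) ℂ}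
    (h : mkF Δ.b P = mkF Δ.b Q) : P ∈ 𝔓 ↔ Q ∈ 𝔓 := by
  have h1 : P - Q ∈ Ideal.span {fp _ Δ.b} := (Ideal.Quotient.eq).1 h
  have h2 : P - Q ∈ 𝔓 := by
    refine (Ideal.span_le (I := 𝔓)).2 ?_ h1
    intro z hz
    rw [Set.mem_singleton_iff] at hz
    rw [hz]
    exact hfp
  constructor
  · intro hP
    have := 𝔓.sub_mem hP h2
    rwa [sub_sub_cancel] at this
  · intro hQ
    have := 𝔓.add_mem hQ h2
    rwa [add_sub_cancel] at this

/-- homogeneous primes have positive degree -/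
theorem deg_pos (hG : GrLaws Δ.b Δ.ww) {p : Δ.R} {e : ℕ} (hp : Prime p) (hpe : p ∈ Δ.hm e) :
    0 < e := by
  rcases Nat.eq_zero_or_pos e with h | h
  · subst h
    obtain ⟨z, hz⟩ := (hG.zero p).1 hpe
    exfalso
    have hz0 : z ≠ 0 := by
      rintro rfl
      rw [map_zero] at hz
      exact hp.ne_zero hz
    apply hp.not_isUnit
    rw [hz]
    exact (IsUnit.mk0 z hz0).map _
  · exact h

/-- the cofactor of a homogeneous prime divisor -/
theorem cofactor (hG : GrLaws Δ.b Δ.ww) (hdom : IsDomain Δ.R) {p A : Δ.R} {e d : ℕ}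
    (hp : Prime p) (hpe : p ∈ Δ.hm e) (hA : A ∈ Δ.hm d) (hA0 : A ≠ 0) (hpA : p ∣ A) :
    ∃ A' d', A = p * A' ∧ A' ∈ Δ.hm d' ∧ A' ≠ 0 ∧ e + d' = d ∧ d' < d := by
  obtain ⟨A', rfl⟩ := hpA
  have hA'0 : A' ≠ 0 := right_ne_zero_of_mul hA0
  obtain ⟨a, b, hab, ha, hb⟩ := hG.factor hdom d p A' hp.ne_zero hA'0 hA
  have h1 := UtilM.deg_unique hG hp.ne_zero hpe ha
  have h2 := deg_pos hG hp hpe
  exact ⟨A', b, rfl, hb, hA'0, by omega, by omega⟩

/-- a homogeneous element of a homogeneous prime ideal has a homogeneous prime divisor in it -/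
theorem exists_prime_mem (hG : GrLaws Δ.b Δ.ww) (hdom : IsDomain Δ.R) (hU : GrUFD Δ.b Δ.ww)
    {𝔓 : Ideal (MvPolynomial (Option (Fin (m + 2))) ℂ)} (hP : 𝔓.IsPrime) (hfp : fp _ Δ.b ∈ 𝔓) :
    ∀ (d : ℕ) (A : Δ.R), A ∈ Δ.hm d → A ≠ 0 → (∀ P, mkF Δ.b P = A → P ∈ 𝔓) →
      ∃ (e : ℕ) (p : Δ.R), p ∈ Δ.hm e ∧ Prime p ∧ p ∣ A ∧ ∀ P, mkF Δ.b P = p → P ∈ 𝔓 := by
  intro d
  induction d using Nat.strong_induction_on with
  | _ d ih =>
    intro A hA hA0 hAP
    have hnu : ¬ IsUnit A := by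
      intro hu
      obtain ⟨B, hB⟩ := hu.exists_right_inv
      obtain ⟨P, hPA⟩ := Ideal.Quotient.mk_surjective A
      obtain ⟨Q, hQB⟩ := Ideal.Quotient.mk_surjective B
      have h1 : mkF Δ.b (P * Q) = mkF Δ.b 1 := by
        rw [map_mul, map_one]
        show Ideal.Quotient.mk _ P * Ideal.Quotient.mk _ Q = 1
        rw [hPA, hQB, hB]
      have h2 : P * Q ∈ 𝔓 := 𝔓.mul_mem_right _ (hAP P hPA)
      exact hP.ne_top ((Ideal.eq_top_iff_one _).2 ((mem_congr hfp h1).1 h2))
    obtain ⟨e, p, hpe, hp, hpA⟩ := hU d A hA hA0 hnu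
    by_cases hpP : ∀ P, mkF Δ.b P = p → P ∈ 𝔓
    · exact ⟨e, p, hpe, hp, hpA, hpP⟩
    · push Not at hpP
      obtain ⟨P0, hP0, hP0n⟩ := hpP
      obtain ⟨A', d', rfl, hA', hA'0, -, hlt⟩ := cofactor hG hdom hp hpe hA hA0 hpA
      obtain ⟨e1, p1, h1, h2, h3, h4⟩ := ih d' hlt A' hA' hA'0 (by
        intro P hPA
        have h5 : P0 * P ∈ 𝔓 := hAP _ (by rw [map_mul, hP0, hPA])
        exact (hP.mem_or_mem h5).resolve_left hP0n)
      exact ⟨e1, p1, h1, h2, h3.mul_left _, h4⟩

/-- representation of an element by a coprime homogeneous fraction -/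
theorem coprime_rep (hG : GrLaws Δ.b Δ.ww) (hdom : IsDomain Δ.R) {h : IsFun Δ K x}
    (hF : FunLaws h) {ψ : K} (hψ : ψ ≠ 0) :
    ∃ (d : ℕ) (A B : Δ.R), A ∈ Δ.hm d ∧ B ∈ Δ.hm d ∧ A ≠ 0 ∧ B ≠ 0 ∧ ψ * dh h B = dh h A ∧
      ∀ (e : ℕ) (p : Δ.R), p ∈ Δ.hm e → Prime p → ¬ (p ∣ A ∧ p ∣ B) := by
  classical
  have hex : ∃ d : ℕ, ∃ A B : Δ.R, A ∈ Δ.hm d ∧ B ∈ Δ.hm d ∧ A ≠ 0 ∧ B ≠ 0 ∧
      ψ * dh h B = dh h A := by
    obtain ⟨d, A, B, hA, hB, hB0, he⟩ := hF.frac ψ
    refine ⟨d, A, B, hA, hB, ?_, hB0, he⟩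
    rintro rfl
    rw [map_zero] at he
    rcases mul_eq_zero.1 he with h1 | h1
    · exact hψ h1
    · exact hB0 (hF.inj d B hB h1)
  obtain ⟨A, B, hA, hB, hA0, hB0, he⟩ := Nat.find_spec hex
  refine ⟨Nat.find hex, A, B, hA, hB, hA0, hB0, he, ?_⟩
  rintro e p hpe hp ⟨hpA, hpB⟩
  obtain ⟨A', d1, rfl, hA', hA'0, h1, hlt⟩ := cofactor hG hdom hp hpe hA hA0 hpA
  obtain ⟨B', d2, rfl, hB', hB'0, h2, -⟩ := cofactor hG hdom hp hpe hB hB0 hpB
  have h12 : d1 = d2 := by omega
  subst h12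
  apply Nat.find_min hex hlt
  refine ⟨A', B', hA', hB', hA'0, hB'0, ?_⟩
  have hp0 : dh h p ≠ 0 := fun hh => hp.ne_zero (hF.inj e p hpe hh)
  rw [map_mul, map_mul] at he
  apply mul_left_cancel₀ hp0
  rw [← he]
  ring

end PullM

open PullM

theorem specPULL (hGR : SpecGR) (hORD : SpecORD) (hRNG : SpecRNG) (hFUN : SpecFUN) (hVH : SpecVH)
    (hDIVX : SpecDIVX) (hTHR : SpecTHR) (hLEQ : SpecLEQ) : SpecPULL := by
  intro m Δ hm hU K _ _ x h D d e r s hrep v hdv c
  have hG := UtilM.gr hGR Δ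
  have hR := hRNG m Δ hm
  have hdom := hR.dom
  have hF := hFUN m Δ hm K x h
  have hV := hVH m Δ hm K x h v hdv
  have hOv : OrdLaws v := hORD K v hdv.2.1
  have hr0 : dh h r ≠ 0 := fun hh => hrep.r0 (hF.inj d r hrep.hr hh)
  have hs0 : dh h s ≠ 0 := fun hh => hrep.s0 (hF.inj e s hrep.hs hh)
  -- at a centre, elements outside the ideal have value zero
  have hzero : ∀ 𝔓 O, IsLocAt Δ x 𝔓 O → IsCenter (locs Δ x) v O → ∀ (n : ℕ)
      (P : MvPolynomial (Option (Fin (m + 2))) ℂ), IsWeightedHomogeneous Δ.ww P n → P ∉ 𝔓 →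
      dhP x P ≠ 0 ∧ hv Δ x v n (dhP x P) = 0 := by
    intro 𝔓 O hL hC n P hP hPn
    have h1 : ¬ (dhP x P = 0 ∨ 0 < hv Δ x v n (dhP x P)) := fun hh =>
      hPn ((hV.uniq 𝔓 O hL hC n P hP).2 hh)
    push Not at h1
    refine ⟨h1.1, le_antisymm h1.2 ?_⟩
    have h2 := hV.nonneg n (mkF Δ.b P) (UtilM.mem_hm hP) (by
      intro hh
      apply h1.1
      rw [← dh_mk h, hh, map_zero])
    rwa [dh_mk] at h2
  -- the value of the standard local equation
  have hval : ∀ 𝔓 O, IsLocAt Δ x 𝔓 O → IsCenter (locs Δ x) v O → ∀ k, X k ∉ 𝔓 →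
      (ord v ((dh h r / dh h s) ^ Δ.ww k * dhP x (X k) ^ ((e : ℤ) - d)) : ℚ) =
        Δ.ww k * (hv Δ x v d (dh h r) - hv Δ x v e (dh h s)) := by
    intro 𝔓 O hL hC k hk
    obtain ⟨h1, h2⟩ := hzero 𝔓 O hL hC (Δ.ww k) (X k) (isWeightedHomogeneous_X ℂ Δ.ww k) hk
    rw [hOv.mul _ _ (pow_ne_zero _ (div_ne_zero hr0 hs0)) (zpow_ne_zero _ h1),
      ord_pow hOv (div_ne_zero hr0 hs0), ord_div hOv hr0 hs0, ord_zpow hOv h1]
    unfold hv at h2 ⊢
    have h3 : (ord v (dhP x (X k)) : ℚ) = -(Δ.ww k * gam0 Δ x v) := by linarith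
    push_cast
    rw [h3]
    ring
  have hwpos : ∀ k, 0 < Δ.ww k := (UtilM.wt Δ).pos
  constructor
  · -- uniqueness
    rintro ⟨O, r', φ, hC, ⟨hr', hφ, hloc⟩, hc⟩
    obtain ⟨𝔓, hL⟩ := hC.1
    obtain ⟨k, hk⟩ := hL.irrel
    set φ₀ := (dh h r / dh h s) ^ Δ.ww k * dhP x (X k) ^ ((e : ℤ) - d) with hφ₀
    obtain ⟨hw0, hφ₀0, hloc0⟩ := hLEQ m Δ hm hU K x h D d e r s hrep 𝔓 O hL k hk
    rw [← hφ₀] at hφ₀0 hloc0
    set ψ := φ ^ Δ.ww k / φ₀ ^ r' with hψ
    have hψ0 : ψ ≠ 0 := div_ne_zero (pow_ne_zero _ hφ) (pow_ne_zero _ hφ₀0)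
    have hordψ : ∀ F, IsPrimeDiv (locs Δ x) F → O ≤ F.toSubring → ord F ψ = 0 := by
      intro F hFd hOF
      have hOF' : OrdLaws F := hORD K F hFd.1
      rw [hψ, ord_div hOF' (pow_ne_zero _ hφ) (pow_ne_zero _ hφ₀0), ord_pow hOF' hφ,
        ord_pow hOF' hφ₀0, ← hloc F hFd hOF, ← hloc0 F hFd hOF]
      ring
    obtain ⟨n, A, B, hA, hB, hA0, hB0, hAB, hcop⟩ := coprime_rep hG hdom hF hψ0
    have hA0' : dh h A ≠ 0 := fun hh => hA0 (hF.inj n A hA hh)
    have hB0' : dh h B ≠ 0 := fun hh => hB0 (hF.inj n B hB hh)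
    have hψAB : ψ = dh h A / dh h B := by
      rw [eq_div_iff hB0']
      exact hAB
    -- a prime divisor in the ideal gives a contradiction
    have hno : ∀ (e1 : ℕ) (p : Δ.R), p ∈ Δ.hm e1 → Prime p → (∀ P, mkF Δ.b P = p → P ∈ 𝔓) →
        mult p A = mult p B := by
      intro e1 p hpe hp hpP
      obtain ⟨F, hFp⟩ := (hDIVX m Δ hm K x h).1 p e1 hpe hp
      obtain ⟨hFd, hFo⟩ := (hDIVX m Δ hm K x h).2 F p e1 hFp
      obtain ⟨P, -, hPp⟩ := UtilM.exists_lift hpe
      have hOF : O ≤ F.toSubring :=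
        ((hTHR m Δ hm K x h F p e1 hFp).1 𝔓 O hL P hPp).2 (hpP P hPp)
      have h1 := hordψ F hFd hOF
      have hOF' : OrdLaws F := hORD K F hFd.1
      rw [hψAB, ord_div hOF' hA0' hB0'] at h1
      by_cases hx0 : p ∣ Δ.x0
      · rw [(hFo n A hA hA0).2 hx0, (hFo n B hB hB0).2 hx0] at h1
        have : (mult p A : ℤ) = mult p B := by linarith
        exact_mod_cast this
      · rw [(hFo n A hA hA0).1 hx0, (hFo n B hB hB0).1 hx0] at h1
        have : (mult p A : ℤ) = mult p B := by linarith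
        exact_mod_cast this
    have hone : ∀ (p : Δ.R), Prime p → ∀ y : Δ.R, y ≠ 0 → (p ∣ y ↔ 1 ≤ mult p y) := by
      intro p hp y hy
      rw [hR.mult_le p y 1 hp hy, pow_one]
    obtain ⟨PA, hPA, hPAe⟩ := UtilM.exists_lift hA
    obtain ⟨PB, hPB, hPBe⟩ := UtilM.exists_lift hB
    have hAn : PA ∉ 𝔓 := by
      intro hin
      obtain ⟨e1, p, hpe, hp, hpA, hpP⟩ := exists_prime_mem hG hdom hU hL.prime hL.fp_mem n A hA
        hA0 (fun P hP => (mem_congr hL.fp_mem (hP.trans hPAe.symm)).2 hin)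
      have h1 := hno e1 p hpe hp hpP
      have h2 := (hone p hp A hA0).1 hpA
      rw [h1] at h2
      exact hcop e1 p hpe hp ⟨hpA, (hone p hp B hB0).2 h2⟩
    have hBn : PB ∉ 𝔓 := by
      intro hin
      obtain ⟨e1, p, hpe, hp, hpB, hpP⟩ := exists_prime_mem hG hdom hU hL.prime hL.fp_mem n B hB
        hB0 (fun P hP => (mem_congr hL.fp_mem (hP.trans hPBe.symm)).2 hin)
      have h1 := hno e1 p hpe hp hpP
      have h2 := (hone p hp B hB0).1 hpB
      rw [← h1] at h2
      exact hcop e1 p hpe hp ⟨(hone p hp A hA0).2 h2, hpB⟩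
    have h1 := (hzero 𝔓 O hL hC n PA hPA hAn).2
    have h2 := (hzero 𝔓 O hL hC n PB hPB hBn).2
    rw [← dh_mk h, hPAe] at h1
    rw [← dh_mk h, hPBe] at h2
    have h3 : ord v ψ = 0 := by
      have h4 : (ord v ψ : ℚ) = 0 := by
        rw [hψAB, ord_div hOv hA0' hB0']
        unfold hv at h1 h2
        push_cast
        linarith
      exact_mod_cast h4
    rw [hψ, ord_div hOv (pow_ne_zero _ hφ) (pow_ne_zero _ hφ₀0), ord_pow hOv hφ,
      ord_pow hOv hφ₀0] at h3
    have h5 : (Δ.ww k : ℚ) * ord v φ = r' * ord v φ₀ := by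
      have : (Δ.ww k : ℤ) * ord v φ = r' * ord v φ₀ := by linarith
      exact_mod_cast this
    have h6 := hval 𝔓 O hL hC k hk
    rw [← hφ₀] at h6
    rw [hc, div_eq_iff (by exact_mod_cast hr'.ne')]
    have hw : (Δ.ww k : ℚ) ≠ 0 := by exact_mod_cast (hwpos k).ne'
    apply mul_left_cancel₀ hw
    rw [h5, h6]
    ring
  · rintro rfl
    obtain ⟨𝔓, O, hL, hC⟩ := hV.center
    obtain ⟨k, hk⟩ := hL.irrel
    refine ⟨O, Δ.ww k, _, hC, hLEQ m Δ hm hU K x h D d e r s hrep 𝔓 O hL k hk, ?_⟩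
    rw [hval 𝔓 O hL hC k hk, mul_div_cancel_left₀]
    exact_mod_cast (hwpos k).ne'

end

end Pool.Agent.Lib.MPa7508c
end

section
/-!
# RESD: the case of algebraically dependent residues
-/
set_option autoImplicit false

namespace Pool.Agent.Lib.MPa7508c

open MvPolynomial

noncomputable section

namespace ResdM

open LogdM OformM

/-- a polynomial with a nonzero coefficient at `s ≠ 0` has a nonzero partial derivative -/
theorem pd_ne {n : ℕ} {P : MvPolynomial (Fin n) ℂ} {s : Fin n →₀ ℕ} (hs : coeff s P ≠ 0)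
    {k : Fin n} (hk : s k ≠ 0) : pderiv k P ≠ 0 := by
  intro h
  have h1 : coeff (s - Finsupp.single k 1) (pderiv k P) = 0 := by rw [h, coeff_zero]
  rw [coeff_pderiv] at h1
  have h2 : s - Finsupp.single k 1 + Finsupp.single k 1 = s := by
    apply tsub_add_cancel_of_le
    rw [Finsupp.single_le_iff]
    omega
  rw [h2] at h1
  rcases mul_eq_zero.1 h1 with h3 | h3
  · exact hs h3
  · exact Nat.cast_add_one_ne_zero _ h3

theorem td_lt {n : ℕ} {P : MvPolynomial (Fin n) ℂ} {k : Fin n} (h : pderiv k P ≠ 0) :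
    (pderiv k P).totalDegree < P.totalDegree := by
  classical
  obtain ⟨s0, hs0⟩ := exists_coeff_ne_zero h
  have key : ∀ s, coeff s (pderiv k P) ≠ 0 →
      (s.sum fun _ e => e) + 1 ≤ P.totalDegree := by
    intro s hs
    rw [coeff_pderiv] at hs
    have h1 := le_totalDegree (mem_support_iff.2 (left_ne_zero_of_mul hs))
    rw [Finsupp.sum_add_index' (fun _ => rfl) (fun _ _ _ => rfl),
      Finsupp.sum_single_index rfl] at h1
    exact h1
  have h2 : 0 < P.totalDegree := lt_of_lt_of_le (Nat.succ_pos _) (key s0 hs0)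
  unfold totalDegree at h2 ⊢
  rw [Finset.sup_lt_iff h2]
  intro s hs
  exact Nat.lt_of_succ_le (key s (mem_support_iff.1 hs))

variable {K : Type} [Field K] [Algebra ℂ K] {m : ℕ} {v : ValuationSubring K}
  {c : Fin (m + 1) → K} {D : Fin (m + 1) → Derivation ℂ K K}

theorem exists_min (hC : ∀ a : ℂ, algebraMap ℂ K a ∈ v) {z : Fin (m + 1) → K}
    {i : Fin (m + 1)} {P : MvPolynomial (Fin (m + 1)) ℂ} (h0 : P ≠ 0)
    (hi : i ∉ P.vars) (hP : ¬ Un v (aeval z P)) :
    ∃ (P : MvPolynomial (Fin (m + 1)) ℂ) (k : Fin (m + 1)), k ≠ i ∧ i ∉ P.vars ∧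
      ¬ Un v (aeval z P) ∧ Un v (aeval z (pderiv k P)) := by
  classical
  have hex : ∃ n : ℕ, ∃ P : MvPolynomial (Fin (m + 1)) ℂ, P.totalDegree = n ∧ P ≠ 0 ∧
      i ∉ P.vars ∧ ¬ Un v (aeval z P) := ⟨_, P, rfl, h0, hi, hP⟩
  obtain ⟨Q, hQd, hQ0, hQi, hQ⟩ := Nat.find_spec hex
  have hs : ∃ s, coeff s Q ≠ 0 ∧ s ≠ 0 := by
    by_contra hn
    push Not at hn
    have h1 : Q = C (coeff 0 Q) := by
      ext s
      rw [coeff_C]
      by_cases hs : s = 0
      · rw [if_pos hs.symm, hs]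
      · rw [if_neg (Ne.symm hs)]
        by_contra h2
        exact hs (hn s h2)
    have h2 : coeff 0 Q ≠ 0 := by
      intro h3
      rw [h3, C_0] at h1
      exact hQ0 h1
    apply hQ
    rw [h1, aeval_C]
    refine ⟨hC _, ?_, ?_⟩
    · rw [Ne, map_eq_zero]
      exact h2
    · rw [← map_inv₀]
      exact hC _
  obtain ⟨s, hs1, hs0⟩ := hs
  obtain ⟨k, hk⟩ : ∃ k, s k ≠ 0 := by
    by_contra hn
    push Not at hn
    exact hs0 (Finsupp.ext hn)
  have hki : k ≠ i := by
    rintro rfl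
    apply hQi
    rw [mem_vars_iff_mem_support]
    exact ⟨s, mem_support_iff.2 hs1, Finsupp.mem_support_iff.2 hk⟩
  have hd := pd_ne hs1 hk
  refine ⟨Q, k, hki, hQi, hQ, ?_⟩
  by_contra hn
  have hlt := td_lt hd
  rw [hQd] at hlt
  exact Nat.find_min hex hlt ⟨_, rfl, hd, DescM.not_mem_vars_pderiv hQi, hn⟩

theorem minor_mem (hO : OrdLaws v) (h : LogFrame m v c D) (hC : ∀ a : ℂ, algebraMap ℂ K a ∈ v)
    {z : Fin (m + 1) → K}
    (hz : ∀ i, z i ∈ v) {i : Fin (m + 1)} {P : MvPolynomial (Fin (m + 1)) ℂ} (h0 : P ≠ 0)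
    (hi : i ∉ P.vars) (hP : ¬ (aeval z P ≠ 0 ∧ (aeval z P)⁻¹ ∈ v)) :
    ∃ w ∈ v, (Matrix.of fun (a : Fin m) (k : Fin m) => D a.succ (z (i.succAbove k))).det =
      c 0 * w := by
  have ht := tf_of_ord hO h.unif.1 h.unif.2
  obtain ⟨Q, k0, hk0, hQi, hQ, hu⟩ := exists_min hC h0 hi (fun hh => hP ⟨hh.2.1, hh.2.2⟩)
  obtain ⟨k1, rfl⟩ := Fin.exists_succAbove_eq hk0
  have hQv : aeval z Q ∈ v := aeval_mem hC hz Q
  obtain ⟨y, hy, hQy⟩ := ht.div _ hQv (by
    by_contra hn
    push Not at hn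
    exact hQ ⟨hQv, hn.1, hn.2⟩)
  set N : Matrix (Fin m) (Fin m) K := Matrix.of fun a k => D a.succ (z (i.succAbove k)) with hN
  set g : Fin m → K := fun k => aeval z (pderiv (i.succAbove k) Q) with hg
  have h1 : N.mulVec g = c 0 • fun a => D a.succ y := by
    funext a
    have h2 := DerM.chain z (D a.succ) Q
    rw [Fin.sum_univ_succAbove _ i, pderiv_eq_zero_of_notMem_vars hQi, map_zero, zero_mul,
      zero_add, hQy, Derivation.leibniz, h.dual, if_neg (Fin.succ_ne_zero a), smul_zero,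
      add_zero, smul_eq_mul] at h2
    rw [Pi.smul_apply, smul_eq_mul, h2]
    show ∑ k, N a k * g k = _
    exact Finset.sum_congr rfl fun k _ => by rw [mul_comm]; rfl
  have h3 : N.det * g k1 = c 0 * (N.updateCol k1 (fun a => D a.succ y)).det := by
    rw [← Matrix.det_updateCol_smul, ← h1, ← Matrix.cramer_apply,
      Matrix.cramer_eq_adjugate_mulVec, Matrix.mulVec_mulVec,
      Matrix.adjugate_mul, Matrix.smul_mulVec, Matrix.one_mulVec]
    rfl
  refine ⟨(N.updateCol k1 (fun a => D a.succ y)).det * (g k1)⁻¹, ?_, ?_⟩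
  · refine v.mul_mem _ _ (det_mem v _ fun a k => ?_) hu.2.2
    rw [Matrix.updateCol_apply]
    split_ifs
    · exact h.reg _ _ hy
    · exact h.reg _ _ (hz _)
  · rw [← mul_assoc, ← h3, mul_assoc, mul_inv_cancel₀ hu.2.1, mul_one]

end ResdM

open OformM in
theorem specRESD : SpecRESD := by
  intro K _ _ m v c D hv hC h z δ hz hzv hδ i P hP0 hPi hP p hp
  have hO := specORD K v hv
  set M : Matrix (Fin (m + 1)) (Fin (m + 1)) K := Matrix.of fun a k => D a (z k) with hM
  set N : Matrix (Fin (m + 1)) (Fin (m + 1)) K := Matrix.of fun i a => δ i (c a) with hN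
  have hNM : N * M = 1 := by
    ext i j
    rw [Matrix.mul_apply, Matrix.one_apply, ← hδ i j, h.span (δ i) (z j)]
    rfl
  have hMN : M * N = 1 := mul_eq_one_comm.1 hNM
  have hMd : M.det ≠ 0 := by
    intro hh
    have := congrArg Matrix.det hNM
    rw [Matrix.det_mul, hh, mul_zero, Matrix.det_one] at this
    exact zero_ne_one this
  have hof : ordForm v (dform z) = ord v M.det := ordForm_eq h _
  have hp0 : p ≠ 0 := by
    rintro rfl
    exact hp (map_zero _)
  have h1 : M.mulVec (fun k => δ k p) = fun a => D a p := by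
    have h2 : (fun k => δ k p) = N.mulVec (fun a => D a p) := by
      funext k
      rw [h.span (δ k) p]
      rfl
    rw [h2, Matrix.mulVec_mulVec, hMN, Matrix.one_mulVec]
  set W : Matrix (Fin (m + 1)) (Fin (m + 1)) K := M.updateCol i (fun a => D a p / p) with hW
  have h3 : p * W.det = M.det * δ i p := by
    rw [hW, ← Matrix.det_updateCol_smul]
    have h4 : (p • fun a => D a p / p) = fun a => D a p := by
      funext a
      rw [Pi.smul_apply, smul_eq_mul, mul_div_cancel₀ _ hp0]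
    rw [h4, ← Matrix.cramer_apply, ← h1, Matrix.cramer_eq_adjugate_mulVec, Matrix.mulVec_mulVec,
      Matrix.adjugate_mul, Matrix.smul_mulVec, Matrix.one_mulVec]
    rfl
  have hlog : ∀ a : Fin m, D a.succ p / p ∈ v := by
    intro a
    have := log_mem h a.succ hp0
    rwa [if_neg (Fin.succ_ne_zero a), one_mul] at this
  have hlog0 : c 0 * (D 0 p / p) ∈ v := by
    have := log_mem h 0 hp0
    rwa [if_pos rfl] at this
  have hWv : W.det ∈ v := by
    rw [Matrix.det_succ_row_zero]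
    refine sum_mem fun j _ => ?_
    have hsign : ((-1 : K) ^ (j : ℕ)) ∈ v := pow_mem (v.neg_mem _ v.one_mem) _
    by_cases hj : j = i
    · subst hj
      obtain ⟨w, hw, hdet⟩ := ResdM.minor_mem hO h hC hzv hP0 hPi hP
      have h5 : W.submatrix Fin.succ j.succAbove =
          Matrix.of fun (a : Fin m) (k : Fin m) => D a.succ (z (j.succAbove k)) := by
        ext a k
        rw [Matrix.submatrix_apply, hW, Matrix.updateCol_ne (Fin.succAbove_ne j k)]
        rfl
      have h6 : W 0 j = D 0 p / p := by rw [hW, Matrix.updateCol_self]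
      rw [h5, hdet, h6]
      have h7 : (-1 : K) ^ (j : ℕ) * (D 0 p / p) * (c 0 * w) =
          (-1 : K) ^ (j : ℕ) * (c 0 * (D 0 p / p)) * w := by ring
      rw [h7]
      exact v.mul_mem _ _ (v.mul_mem _ _ hsign hlog0) hw
    · refine v.mul_mem _ _ (v.mul_mem _ _ hsign ?_) (det_mem v _ fun a k => ?_)
      · rw [hW, Matrix.updateCol_ne hj]
        exact h.reg _ _ (hzv j)
      · rw [Matrix.submatrix_apply, hW, Matrix.updateCol_apply]
        split_ifs
        · exact hlog a
        · exact h.reg _ _ (hzv _)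
  have hW0 : W.det ≠ 0 := by
    intro hh
    rw [hh, mul_zero] at h3
    exact mul_ne_zero hMd hp h3.symm
  have h8 := (hO.nonneg _ hW0).2 hWv
  have h9 := hO.mul p W.det hp0 hW0
  rw [h3, hO.mul _ _ hMd hp] at h9
  rw [hof]
  linarith

end

end Pool.Agent.Lib.MPa7508c
end
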