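import Pool.Agent.Lib.MP_a7508c_ag.Thr

/-!
# Module SAM: `ℂ[x, y, z, t] / (x^7 + y^8 + z^9 + t^10)` is graded factorial

`5040 = 7 * 720` and `7` divides the weights `630, 560, 504` but not `720`.  So every homogeneous
element is `x ^ i * b` with `i < 7` and `b` a polynomial in `y, z, t`; as an element is prime when
it satisfies the prime condition for homogeneous factors, every homogeneous prime polynomial in
`y, z, t` which does not divide `y^8 + z^9 + t^10` is prime in the Fermat ring.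
-/

set_option autoImplicit false

namespace Pool.Agent.Lib.MPa7508c

open MvPolynomial

noncomputable section

namespace SamM

attribute [local instance] MvPolynomial.weightedGradedAlgebra

/-- an element which satisfies the prime condition for homogeneous factors is prime -/
theorem prime_of_homog {σ : Type} [Fintype σ] {b w : σ → ℕ} {L : ℕ} (h : Wt b w L) {e : ℕ}
    {p : FR σ b} (hp : p ∈ hom b w e) (hp0 : p ≠ 0) (hpu : ¬ IsUnit p)
    (H : ∀ (d k : ℕ) (r s : FR σ b), r ∈ hom b w d → s ∈ hom b w k → p ∣ r * s →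
      p ∣ r ∨ p ∣ s) : Prime p := by
  obtain ⟨Q, hQ, rfl⟩ := GrM.mem_hom.1 hp
  set I : Ideal (MvPolynomial σ ℂ) := Ideal.span {Q, fp σ b} with hI
  have hmem : ∀ P : MvPolynomial σ ℂ, P ∈ I ↔ mkF b Q ∣ mkF b P := by
    intro P
    rw [hI, Ideal.mem_span_pair]
    constructor
    · rintro ⟨a, c, rfl⟩
      have h1 : mkF b (fp σ b) = 0 := GrM.mk_eq_zero.2 (Ideal.mem_span_singleton_self _)
      rw [map_add, map_mul, map_mul, h1, mul_zero, add_zero]
      exact Dvd.intro_left _ rfl
    · rintro ⟨t, ht⟩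
      obtain ⟨T, rfl⟩ := GrM.mk_surj t
      have h1 : P - Q * T ∈ Ideal.span {fp σ b} := by
        rw [← GrM.mk_eq_zero, map_sub, map_mul, ht, sub_self]
      obtain ⟨c, hc⟩ := Ideal.mem_span_singleton'.1 h1
      exact ⟨T, c, by rw [hc]; ring⟩
  have hhom : I.IsHomogeneous (weightedHomogeneousSubmodule ℂ w) := by
    apply Ideal.homogeneous_span
    intro x hx
    rcases hx with hx | hx
    · exact ⟨e, by rw [hx]; exact hQ⟩
    · rw [Set.mem_singleton_iff] at hx
      exact ⟨L, by rw [hx]; exact GrM.fp_homog h⟩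
  have hne : I ≠ ⊤ := by
    rw [Ne, Ideal.eq_top_iff_one, hmem, map_one]
    intro h1
    exact hpu (isUnit_of_dvd_one h1)
  have hprime : I.IsPrime := by
    apply Ideal.IsHomogeneous.isPrime_of_homogeneous_mem_or_mem hhom hne
    rintro r s ⟨d, hr⟩ ⟨k, hs⟩ hrs
    rw [hmem, map_mul] at hrs
    rw [hmem, hmem]
    exact H d k _ _ (GrM.mk_mem_hom hr) (GrM.mk_mem_hom hs) hrs
  refine ⟨hp0, hpu, ?_⟩
  intro r s hrs
  obtain ⟨P, rfl⟩ := GrM.mk_surj r
  obtain ⟨P', rfl⟩ := GrM.mk_surj s
  rw [← map_mul, ← hmem] at hrs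
  rw [← hmem, ← hmem]
  exact hprime.mem_or_mem hrs

/-- exponents -/
abbrev b4 : Fin 4 → ℕ := ![7, 8, 9, 10]
/-- weights -/
abbrev w4 : Fin 4 → ℕ := ![720, 630, 560, 504]
/-- exponents -/
abbrev b3 : Fin 3 → ℕ := ![8, 9, 10]
/-- the polynomial ring in `y, z, t` -/
abbrev B : Type := MvPolynomial (Fin 3) ℂ
/-- `y^8 + z^9 + t^10` -/
def G : B := fp (Fin 3) b3
/-- the Fermat ring -/
abbrev R : Type := FR (Fin 4) b4
/-- the inclusion of `B` -/
def io : B →ₐ[ℂ] MvPolynomial (Fin 4) ℂ := rename Fin.succ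
/-- the map `B → R` -/
def j : B →ₐ[ℂ] R := (mkF b4).comp io
/-- the class of `x` -/
def x : R := mkF b4 (X 0)

theorem wt : Wt b4 w4 5040 := ⟨by decide, by decide, by decide⟩

theorem fp_eq : fp (Fin 4) b4 = X 0 ^ 7 + io G := by
  unfold fp G fp io
  rw [Fin.sum_univ_succ, map_sum]
  congr 1
  apply Finset.sum_congr rfl
  intro i _
  rw [map_pow, rename_X]
  fin_cases i <;> rfl

theorem x_pow : x ^ 7 = -(j G) := by
  have h1 : mkF b4 (X 0 ^ 7 + io G) = 0 := by
    rw [← fp_eq]
    exact GrM.mk_eq_zero.2 (Ideal.mem_span_singleton_self _)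
  rw [map_add, map_pow] at h1
  exact eq_neg_of_add_eq_zero_left h1

theorem x_dvd_jG : x ∣ j G := ⟨-(x ^ 6), by
  have h : j G = -(x ^ 7) := by rw [x_pow, neg_neg]
  rw [h]
  ring⟩

/-- the isomorphism with polynomials over `B` -/
def ee : MvPolynomial (Fin 4) ℂ ≃ₐ[ℂ] Polynomial B := finSuccEquiv ℂ 3

theorem ee_io (b : B) : ee (io b) = Polynomial.C b := by
  have h : (ee : MvPolynomial (Fin 4) ℂ →ₐ[ℂ] Polynomial B).comp io =
      IsScalarTower.toAlgHom ℂ B (Polynomial B) := by
    apply MvPolynomial.algHom_ext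
    intro i
    show ee (io (X i)) = Polynomial.C (X i)
    unfold io ee
    rw [rename_X, finSuccEquiv_X_succ]
  exact DFunLike.congr_fun h b

theorem ee_X : ee (X 0) = Polynomial.X := finSuccEquiv_X_zero

/-- the monic polynomial -/
def F : Polynomial B := Polynomial.X ^ 7 + Polynomial.C G

theorem ee_fp : ee (fp (Fin 4) b4) = F := by
  rw [fp_eq, map_add, map_pow, ee_io, ee_X]
  rfl

theorem F_monic : F.Monic := Polynomial.monic_X_pow_add_C G (by norm_num)

theorem F_degree : F.degree = 7 := Polynomial.degree_X_pow_add_C (by norm_num) G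

theorem coef_div {k : ℕ} (hk : k < 7) {b π : B} {r : R} (h : x ^ k * j b = j π * r) : π ∣ b := by
  obtain ⟨P, rfl⟩ := GrM.mk_surj r
  have h1 : X 0 ^ k * io b - io π * P ∈ Ideal.span {fp (Fin 4) b4} := by
    rw [← GrM.mk_eq_zero, map_sub, map_mul, map_mul, map_pow, sub_eq_zero]
    exact h
  obtain ⟨c, hc⟩ := Ideal.mem_span_singleton'.1 h1
  have h2 : F ∣ Polynomial.X ^ k * Polynomial.C b - Polynomial.C π * ee P := by
    refine ⟨ee c, ?_⟩
    rw [← ee_fp, ← ee_X, ← ee_io, ← ee_io, ← map_pow, ← map_mul, ← map_mul, ← map_sub,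
      ← map_mul, ← hc, mul_comm]
  rw [← Polynomial.modByMonic_eq_zero_iff_dvd F_monic, Polynomial.sub_modByMonic, sub_eq_zero,
    (Polynomial.modByMonic_eq_self_iff F_monic).2, ← Polynomial.smul_eq_C_mul,
    Polynomial.smul_modByMonic] at h2
  · have h3 := congrArg (fun q => Polynomial.coeff q k) h2
    simp only [Polynomial.coeff_smul, smul_eq_mul] at h3
    rw [Polynomial.coeff_mul_C, Polynomial.coeff_X_pow, if_pos rfl, one_mul] at h3
    exact ⟨_, h3⟩
  · rw [F_degree, mul_comm]
    refine lt_of_le_of_lt (Polynomial.degree_C_mul_X_pow_le k b) ?_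
    exact_mod_cast hk

theorem j_inj {b : B} (h : j b = 0) : b = 0 := by
  have h1 : x ^ 0 * j b = j 0 * 0 := by rw [h, mul_zero, mul_zero]
  exact zero_dvd_iff.1 (coef_div (by norm_num) h1)

theorem x_dvd {b : B} (h : x ∣ j b) : G ∣ b := by
  obtain ⟨r, hr⟩ := h
  obtain ⟨P, rfl⟩ := GrM.mk_surj r
  have h1 : io b - X 0 * P ∈ Ideal.span {fp (Fin 4) b4} := by
    rw [← GrM.mk_eq_zero, map_sub, map_mul, sub_eq_zero]
    exact hr
  obtain ⟨c, hc⟩ := Ideal.mem_span_singleton'.1 h1
  have hφ : ∀ q : B, aeval (Fin.cons 0 X : Fin 4 → B) (io q) = q := by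
    intro q
    have h2 : (aeval (Fin.cons 0 X : Fin 4 → B)).comp io = AlgHom.id ℂ B := by
      apply MvPolynomial.algHom_ext
      intro i
      show aeval (Fin.cons 0 X : Fin 4 → B) (io (X i)) = X i
      unfold io
      rw [rename_X, aeval_X, Fin.cons_succ]
    exact DFunLike.congr_fun h2 q
  have h3 := congrArg (aeval (Fin.cons 0 X : Fin 4 → B)) hc
  rw [map_mul, map_sub, map_mul, fp_eq, map_add, map_pow, aeval_X, Fin.cons_zero, hφ, hφ] at h3
  refine ⟨aeval (Fin.cons 0 X : Fin 4 → B) c, ?_⟩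
  linear_combination -h3

/-- the normal form of homogeneous elements -/
theorem normal {d : ℕ} {r : R} (hr : r ∈ hom b4 w4 d) : ∃ i, i < 7 ∧ ∃ b : B, r = x ^ i * j b := by
  obtain ⟨P, hP, rfl⟩ := GrM.mem_hom.1 hr
  refine ⟨(6 * d) % 7, Nat.mod_lt _ (by norm_num),
    ∑ α ∈ P.support, (-G) ^ (α 0 / 7) * (C (coeff α P) * ∏ i : Fin 3, X i ^ α i.succ), ?_⟩
  conv_lhs => rw [P.as_sum]
  rw [map_sum, map_sum, Finset.mul_sum]
  apply Finset.sum_congr rfl
  intro α hα
  have h1 : Finsupp.weight w4 α = d := hP (mem_support_iff.1 hα)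
  rw [Finsupp.weight_apply, Finsupp.sum_fintype _ _ (fun i => by simp), Fin.sum_univ_four] at h1
  simp only [smul_eq_mul] at h1
  change α 0 * 720 + α 1 * 630 + α 2 * 560 + α 3 * 504 = d at h1
  have h2 : α 0 = 7 * (α 0 / 7) + (6 * d) % 7 := by omega
  have h3 : mkF b4 (monomial α (coeff α P)) =
      x ^ α 0 * j (C (coeff α P) * ∏ i : Fin 3, X i ^ α i.succ) := by
    have h4 : monomial α (coeff α P) =
        X 0 ^ α 0 * io (C (coeff α P) * ∏ i : Fin 3, X i ^ α i.succ) := by
      rw [monomial_eq, Finsupp.prod_fintype _ _ (fun i => pow_zero _), Fin.prod_univ_succ, map_mul,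
        map_prod]
      unfold io
      rw [rename_C]
      have h5 : ∀ i : Fin 3, (rename Fin.succ) ((X i : B) ^ α i.succ) =
          (X i.succ : MvPolynomial (Fin 4) ℂ) ^ α i.succ := by
        intro i
        rw [map_pow, rename_X]
      rw [Finset.prod_congr rfl fun i _ => h5 i]
      ring
    rw [h4, map_mul, map_pow]
    rfl
  have h6 : j ((-G) ^ (α 0 / 7) * (C (coeff α P) * ∏ i : Fin 3, X i ^ α i.succ)) =
      (x ^ 7) ^ (α 0 / 7) * j (C (coeff α P) * ∏ i : Fin 3, X i ^ α i.succ) := by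
    rw [map_mul, map_pow, map_neg, ← x_pow]
  have h7 : x ^ α 0 = (x ^ 7) ^ (α 0 / 7) * x ^ ((6 * d) % 7) := by
    rw [← pow_mul, ← pow_add, ← h2]
  rw [h3, h6, h7]
  ring

variable (hG : Prime G)

include hG

theorem x_prime : Prime x := by
  apply prime_of_homog wt (e := 720) (GrM.mk_mem_hom (isWeightedHomogeneous_X ℂ w4 0))
  · intro h0
    have h1 : x ^ 1 * j 1 = j 0 * 0 := by
      rw [show x = 0 from h0]
      ring
    have h2 := coef_div (by norm_num) h1
    exact one_ne_zero (zero_dvd_iff.1 h2)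
  · intro hu
    have h1 : x ∣ j 1 := hu.dvd
    exact hG.not_isUnit (isUnit_of_dvd_one (x_dvd h1))
  · intro d k r s hr hs hrs
    obtain ⟨i, -, b1, rfl⟩ := normal hr
    obtain ⟨l, -, b2, rfl⟩ := normal hs
    rcases Nat.eq_zero_or_pos i with hi | hi
    · rcases Nat.eq_zero_or_pos l with hl | hl
      · subst hi
        subst hl
        have hrs' : x ∣ j (b1 * b2) := by
          have : x ^ 0 * j b1 * (x ^ 0 * j b2) = j (b1 * b2) := by
            rw [map_mul]
            ring
          rw [← this]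
          exact hrs
        have hjG : x ∣ j G := x_dvd_jG
        rcases hG.dvd_or_dvd (x_dvd hrs') with h1 | h1
        · left
          exact Dvd.dvd.mul_left (hjG.trans (map_dvd j h1)) _
        · right
          exact Dvd.dvd.mul_left (hjG.trans (map_dvd j h1)) _
      · right
        exact Dvd.dvd.mul_right (dvd_pow_self x hl.ne') _
    · left
      exact Dvd.dvd.mul_right (dvd_pow_self x hi.ne') _

omit hG in
theorem pi_prime {π : B} (hπ : Prime π) (hπG : ¬ π ∣ G) {e : ℕ} (he : j π ∈ hom b4 w4 e) :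
    Prime (j π) := by
  apply prime_of_homog wt he
  · intro h0
    exact hπ.ne_zero (j_inj h0)
  · intro hu
    obtain ⟨r, hr⟩ := hu.dvd (a := (1 : R))
    have h1 : x ^ 0 * j 1 = j π * r := by rw [← hr, map_one, pow_zero, one_mul]
    exact hπ.not_isUnit (isUnit_of_dvd_one (coef_div (by norm_num) h1))
  · intro d k r s hr hs hrs
    obtain ⟨i, hi, b1, rfl⟩ := normal hr
    obtain ⟨l, hl, b2, rfl⟩ := normal hs
    obtain ⟨t, ht⟩ := hrs
    have key : π ∣ b1 * b2 := by
      by_cases hil : i + l < 7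
      · apply coef_div hil (r := t)
        rw [← ht, map_mul]
        ring
      · have h1 : π ∣ -(G * (b1 * b2)) := by
          apply coef_div (k := i + l - 7) (by omega) (r := t)
          rw [← ht, map_neg, map_mul, map_mul]
          have h2 : x ^ i * j b1 * (x ^ l * j b2) = x ^ (i + l - 7) * x ^ 7 * (j b1 * j b2) := by
            rw [← pow_add, Nat.sub_add_cancel (by omega), pow_add]
            ring
          rw [h2, x_pow]
          ring
        rw [dvd_neg] at h1
        exact (hπ.dvd_or_dvd h1).resolve_left hπG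
    rcases hπ.dvd_or_dvd key with h1 | h1
    · left
      exact Dvd.dvd.mul_left (map_dvd j h1) _
    · right
      exact Dvd.dvd.mul_left (map_dvd j h1) _

end SamM

open SamM in
theorem specSAM (hIRR : SpecIRR) : SpecSAM := by
  intro d c hc hc0 hcu
  have hG : Prime G := hIRR (Fin 3) b3 (by simp) (by decide)
  have hf : Prime (fp (Fin 4) b4) := hIRR (Fin 4) b4 (by simp) (by decide)
  have hdom : IsDomain R := by
    have : (Ideal.span {fp (Fin 4) b4}).IsPrime := (Ideal.span_singleton_prime hf.ne_zero).2 hf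
    exact Ideal.Quotient.isDomain _
  have hxh : x ∈ hom b4 w4 720 := GrM.mk_mem_hom (isWeightedHomogeneous_X ℂ w4 0)
  have hjG : x ∣ j G := x_dvd_jG
  obtain ⟨i, -, b, hcb⟩ := normal hc
  rcases Nat.eq_zero_or_pos i with hi | hi
  · rw [hi, pow_zero, one_mul] at hcb
    have hb0 : b ≠ 0 := by
      rintro rfl
      exact hc0 (by rw [hcb, map_zero])
    have hbu : ¬ IsUnit b := fun hu => hcu (by rw [hcb]; exact hu.map j)
    obtain ⟨π, hπi, hπb⟩ := WfDvdMonoid.exists_irreducible_factor hbu hb0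
    have hπ : Prime π := UniqueFactorizationMonoid.irreducible_iff_prime.1 hπi
    by_cases hπG : π ∣ G
    · have h1 : G ∣ π := (hπi.associated_of_dvd hG.irreducible hπG).symm.dvd
      exact ⟨720, x, hxh, x_prime hG, by
        rw [hcb]
        exact hjG.trans (map_dvd j (h1.trans hπb))⟩
    · obtain ⟨b', hb'⟩ := hπb
      have hprod : j π * j b' = c := by rw [hcb, hb', map_mul]
      have h1 : j π ≠ 0 := fun h0 => hc0 (by rw [← hprod, h0, zero_mul])
      have h2 : j b' ≠ 0 := fun h0 => hc0 (by rw [← hprod, h0, mul_zero])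
      obtain ⟨e, e', -, he, -⟩ := GrM.factor wt hdom d (j π) (j b') h1 h2 (by
        rw [hprod]
        exact hc)
      exact ⟨e, j π, he, pi_prime hπ hπG he, ⟨j b', hprod.symm⟩⟩
  · exact ⟨720, x, hxh, x_prime hG, by
      rw [hcb]
      exact Dvd.dvd.mul_right (dvd_pow_self x hi.ne') _⟩

end

end Pool.Agent.Lib.MPa7508c
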