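import Pool.Agent.Lib.MP_a7508c_ag.Spec2

section
/-!
# LIM: the volume function of a monotone function of polynomial growth
-/
set_option autoImplicit false

namespace Pool.Agent.Lib.MPa7508c

open Filter Topology MeasureTheory

namespace LimM

/-- Characterisation of the limsup through upper and lower approximations. -/
theorem limsup_eq (u : ℕ → ℝ) (L : ℝ) (A B : ℝ → ℝ)
    (hA : Tendsto A (𝓝[>] 0) (𝓝 L)) (hB : Tendsto B (𝓝[>] 0) (𝓝 L))
    (hu : ∀ᶠ e in 𝓝[>] (0 : ℝ), ∀ᶠ k in atTop, u k ≤ A e)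
    (hl : ∀ᶠ e in 𝓝[>] (0 : ℝ), ∃ᶠ k in atTop, B e ≤ u k)
    (h0 : ∀ᶠ k in atTop, 0 ≤ u k) : limsup u atTop = L := by
  have hbd : IsBoundedUnder (· ≤ ·) atTop u := by
    obtain ⟨e, he⟩ := hu.exists
    exact ⟨A e, he⟩
  have hcb : IsCoboundedUnder (· ≤ ·) atTop u := by
    refine IsBoundedUnder.isCoboundedUnder_le ⟨0, ?_⟩
    exact h0
  apply le_antisymm
  · refine ge_of_tendsto hA ?_
    filter_upwards [hu] with e he
    exact limsup_le_of_le hcb he
  · refine le_of_tendsto hB ?_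
    filter_upwards [hl] with e he
    exact le_limsup_of_frequently_le he hbd

/-- `qk - ⌈kt⌉` -/
noncomputable def aa (q : ℕ) (t : ℝ) (k : ℕ) : ℕ := q * k - ⌈(k : ℝ) * t⌉₊

theorem ceil_le {q : ℕ} {t : ℝ} (ht : t < q) (k : ℕ) : ⌈(k : ℝ) * t⌉₊ ≤ q * k := by
  rw [Nat.ceil_le]
  push_cast
  have : (0 : ℝ) ≤ k := Nat.cast_nonneg k
  nlinarith

theorem aa_cast {q : ℕ} {t : ℝ} (ht : t < q) (k : ℕ) :
    (aa q t k : ℝ) = q * k - ⌈(k : ℝ) * t⌉₊ := by
  unfold aa
  rw [Nat.cast_sub (ceil_le ht k)]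
  push_cast
  ring

theorem aa_le {q : ℕ} {t : ℝ} (ht : t < q) (k : ℕ) : (aa q t k : ℝ) ≤ (q - t) * k := by
  rw [aa_cast ht]
  have := Nat.le_ceil ((k : ℝ) * t)
  linarith

theorem lt_aa {q : ℕ} {t : ℝ} (h0 : 0 ≤ t) (ht : t < q) (k : ℕ) :
    (q - t) * k - 1 < (aa q t k : ℝ) := by
  rw [aa_cast ht]
  have := Nat.ceil_lt_add_one (a := (k : ℝ) * t) (by positivity)
  linarith

theorem aa_succ {q : ℕ} {t : ℝ} (h0 : 0 ≤ t) (ht : t < q) (k : ℕ) :
    aa q t (k + 1) ≤ aa q t k + q := by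
  have h1 : ⌈(k : ℝ) * t⌉₊ ≤ ⌈((k + 1 : ℕ) : ℝ) * t⌉₊ := by
    apply Nat.ceil_mono
    push_cast
    nlinarith
  have h2 := ceil_le ht k
  have h3 := ceil_le ht (k + 1)
  unfold aa
  have h4 : q * (k + 1) = q * k + q := by ring
  omega

theorem aa_le_nat (q : ℕ) (t : ℝ) (k : ℕ) : aa q t k ≤ q * k := Nat.sub_le _ _

theorem aa_tendsto {q : ℕ} {t : ℝ} (h0 : 0 ≤ t) (ht : t < q) : Tendsto (aa q t) atTop atTop := by
  have hs : (0 : ℝ) < q - t := by linarith
  have : Tendsto (fun k : ℕ => (q - t) * (k : ℝ) - 1) atTop atTop := by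
    apply tendsto_atTop_add_const_right
    exact Tendsto.const_mul_atTop hs tendsto_natCast_atTop_atTop
  rw [← tendsto_natCast_atTop_iff (R := ℝ)]
  exact tendsto_atTop_mono (fun k => (lt_aa h0 ht k).le) this

theorem aa_div_tendsto {q : ℕ} {t : ℝ} (h0 : 0 ≤ t) (ht : t < q) :
    Tendsto (fun k => (aa q t k : ℝ) / k) atTop (𝓝 (q - t)) := by
  have h1 : Tendsto (fun k : ℕ => (q - t) - 1 / (k : ℝ)) atTop (𝓝 ((q - t) - 0)) :=
    tendsto_const_nhds.sub tendsto_one_div_atTop_nhds_zero_nat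
  rw [sub_zero] at h1
  refine tendsto_of_tendsto_of_tendsto_of_le_of_le' h1 tendsto_const_nhds ?_ ?_
  · filter_upwards [eventually_gt_atTop 0] with k hk
    have hk' : (0 : ℝ) < k := by exact_mod_cast hk
    rw [le_div_iff₀ hk', sub_mul, one_div, inv_mul_cancel₀ hk'.ne']
    exact (lt_aa h0 ht k).le
  · filter_upwards [eventually_gt_atTop 0] with k hk
    have hk' : (0 : ℝ) < k := by exact_mod_cast hk
    rw [div_le_iff₀ hk']
    exact aa_le ht k

/-- the sequence `aa` meets every window of length `q` -/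
theorem exists_aa {q : ℕ} {t : ℝ} (h0 : 0 ≤ t) (ht : t < q) (N : ℕ) (hN : 0 < N) :
    ∃ k, N ≤ aa q t k ∧ aa q t k < N + q := by
  classical
  have hex : ∃ k, N ≤ aa q t k := ((aa_tendsto h0 ht).eventually_ge_atTop N).exists
  refine ⟨Nat.find hex, Nat.find_spec hex, ?_⟩
  rcases Nat.eq_zero_or_pos (Nat.find hex) with h | h
  · have h1 := Nat.find_spec hex
    rw [h] at h1
    have h2 := aa_le_nat q t 0
    omega
  · obtain ⟨j, hj⟩ : ∃ j, Nat.find hex = j + 1 := ⟨Nat.find hex - 1, by omega⟩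
    have h1 : ¬ N ≤ aa q t j := Nat.find_min hex (by omega)
    have h2 := aa_succ h0 ht j
    rw [hj]
    omega

section

variable {n : ℕ} {f : ℕ → ℕ} {c₁ c₂ : ℝ}

/-- `f N n! / N ^ n` -/
noncomputable def GG (n : ℕ) (f : ℕ → ℕ) (N : ℕ) : ℝ := (f N : ℝ) * n.factorial / (N : ℝ) ^ n

theorem GG_bd (hf : ∀ k : ℕ, 1 ≤ k →
    c₁ * (k : ℝ) ^ n ≤ (f k : ℝ) ∧ (f k : ℝ) ≤ c₂ * (k : ℝ) ^ n ∧ f k ≤ f (k + 1))
    (N : ℕ) (hN : 1 ≤ N) : c₁ * n.factorial ≤ GG n f N ∧ GG n f N ≤ c₂ * n.factorial := by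
  obtain ⟨h1, h2, -⟩ := hf N hN
  have hN' : (0 : ℝ) < (N : ℝ) ^ n := by positivity
  have hfac : (0 : ℝ) < n.factorial := by positivity
  unfold GG
  constructor
  · rw [le_div_iff₀ hN']
    nlinarith
  · rw [div_le_iff₀ hN']
    nlinarith

theorem mono (hf : ∀ k : ℕ, 1 ≤ k →
    c₁ * (k : ℝ) ^ n ≤ (f k : ℝ) ∧ (f k : ℝ) ≤ c₂ * (k : ℝ) ^ n ∧ f k ≤ f (k + 1))
    {N M : ℕ} (hN : 1 ≤ N) (hM : N ≤ M) : f N ≤ f M := by
  induction M, hM using Nat.le_induction with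
  | base => exact le_rfl
  | succ k hk ih => exact ih.trans (hf k (hN.trans hk)).2.2

theorem bdd_above (hf : ∀ k : ℕ, 1 ≤ k →
    c₁ * (k : ℝ) ^ n ≤ (f k : ℝ) ∧ (f k : ℝ) ≤ c₂ * (k : ℝ) ^ n ∧ f k ≤ f (k + 1)) :
    IsBoundedUnder (· ≤ ·) atTop (GG n f) :=
  ⟨c₂ * n.factorial, by
    simp only [eventually_map]
    filter_upwards [eventually_ge_atTop 1] with N hN
    exact (GG_bd hf N hN).2⟩

theorem cobdd (hf : ∀ k : ℕ, 1 ≤ k →
    c₁ * (k : ℝ) ^ n ≤ (f k : ℝ) ∧ (f k : ℝ) ≤ c₂ * (k : ℝ) ^ n ∧ f k ≤ f (k + 1)) :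
    IsCoboundedUnder (· ≤ ·) atTop (GG n f) :=
  IsBoundedUnder.isCoboundedUnder_le ⟨c₁ * n.factorial, by
    simp only [eventually_map]
    filter_upwards [eventually_ge_atTop 1] with N hN
    exact (GG_bd hf N hN).1⟩

theorem l_pos (hc : 0 < c₁) (hf : ∀ k : ℕ, 1 ≤ k →
    c₁ * (k : ℝ) ^ n ≤ (f k : ℝ) ∧ (f k : ℝ) ≤ c₂ * (k : ℝ) ^ n ∧ f k ≤ f (k + 1)) :
    0 < limsup (GG n f) atTop := by
  have h1 : c₁ * n.factorial ≤ limsup (GG n f) atTop := by
    apply le_limsup_of_frequently_le _ (bdd_above hf)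
    apply Eventually.frequently
    filter_upwards [eventually_ge_atTop 1] with N hN
    exact (GG_bd hf N hN).1
  have h2 : 0 < c₁ * n.factorial := by positivity
  linarith

theorem V_eq (hc : 0 < c₁) (hf : ∀ k : ℕ, 1 ≤ k →
    c₁ * (k : ℝ) ^ n ≤ (f k : ℝ) ∧ (f k : ℝ) ≤ c₂ * (k : ℝ) ^ n ∧ f k ≤ f (k + 1))
    {q : ℕ} {t : ℝ} (h0 : 0 ≤ t) (ht : t < q) :
    limsup (fun k : ℕ =>
      ((if ⌈(k : ℝ) * t⌉₊ ≤ q * k then f (q * k - ⌈(k : ℝ) * t⌉₊) else 0 : ℕ) : ℝ) /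
        ((k : ℝ) ^ n / (n.factorial : ℝ))) atTop =
      (q - t) ^ n * limsup (GG n f) atTop := by
  set l := limsup (GG n f) atTop with hl
  have hlpos : 0 < l := l_pos hc hf
  have hs : (0 : ℝ) < q - t := by linarith
  have hsn : (0 : ℝ) < (q - t) ^ n := by positivity
  have hu : ∀ k : ℕ, 1 ≤ k → 1 ≤ aa q t k →
      ((if ⌈(k : ℝ) * t⌉₊ ≤ q * k then f (q * k - ⌈(k : ℝ) * t⌉₊) else 0 : ℕ) : ℝ) /
        ((k : ℝ) ^ n / (n.factorial : ℝ)) = GG n f (aa q t k) * ((aa q t k : ℝ) / k) ^ n := by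
    intro k hk ha
    rw [if_pos (ceil_le ht k)]
    change (f (aa q t k) : ℝ) / _ = _
    have hk' : (k : ℝ) ≠ 0 := by positivity
    have ha' : (aa q t k : ℝ) ≠ 0 := by positivity
    have hfac : (n.factorial : ℝ) ≠ 0 := by positivity
    unfold GG
    rw [div_pow]
    field_simp
  have hGnn : ∀ N, 0 ≤ GG n f N := fun N => by unfold GG; positivity
  have haev : ∀ᶠ k in atTop, 1 ≤ k ∧ 1 ≤ aa q t k :=
    (eventually_ge_atTop 1).and ((aa_tendsto h0 ht).eventually_ge_atTop 1)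
  refine limsup_eq _ _ (fun e => (q - t) ^ n * (l + e))
    (fun e => ((l - e) * (1 - e)) * ((q - t) ^ n - e)) ?_ ?_ ?_ ?_ ?_
  · have : Tendsto (fun e : ℝ => (q - t) ^ n * (l + e)) (𝓝 0) (𝓝 ((q - t) ^ n * (l + 0))) :=
      Continuous.tendsto (by fun_prop) 0
    rw [add_zero] at this
    exact this.mono_left nhdsWithin_le_nhds
  · have : Tendsto (fun e : ℝ => ((l - e) * (1 - e)) * ((q - t) ^ n - e)) (𝓝 0)
        (𝓝 (((l - 0) * (1 - 0)) * ((q - t) ^ n - 0))) :=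
      Continuous.tendsto (by fun_prop) 0
    have h2 : ((l - 0) * (1 - 0)) * ((q - t) ^ n - 0) = (q - t) ^ n * l := by ring
    rw [h2] at this
    exact this.mono_left nhdsWithin_le_nhds
  · filter_upwards [self_mem_nhdsWithin] with e he
    have he' : (0 : ℝ) < e := he
    have h1 : ∀ᶠ N in atTop, GG n f N < l + e :=
      eventually_lt_of_limsup_lt (by linarith) (bdd_above hf)
    filter_upwards [(aa_tendsto h0 ht).eventually h1, haev] with k hk hk2
    rw [hu k hk2.1 hk2.2]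
    have h3 : ((aa q t k : ℝ) / k) ^ n ≤ (q - t) ^ n := by
      apply pow_le_pow_left₀ (by positivity)
      have hk' : (0 : ℝ) < k := by exact_mod_cast hk2.1
      rw [div_le_iff₀ hk']
      exact aa_le ht k
    have h4 : 0 ≤ ((aa q t k : ℝ) / k) ^ n := by positivity
    calc GG n f (aa q t k) * ((aa q t k : ℝ) / k) ^ n
        ≤ (l + e) * (q - t) ^ n :=
          mul_le_mul hk.le h3 h4 (by linarith)
      _ = _ := by ring
  · have hev : ∀ᶠ e in 𝓝[>] (0 : ℝ), e < l ∧ e < 1 ∧ e < (q - t) ^ n := by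
      apply Eventually.filter_mono nhdsWithin_le_nhds
      exact (eventually_lt_nhds hlpos).and ((eventually_lt_nhds one_pos).and
        (eventually_lt_nhds hsn))
    filter_upwards [self_mem_nhdsWithin, hev] with e he hev
    have he' : (0 : ℝ) < e := he
    obtain ⟨hel, he1, hes⟩ := hev
    have h1 : ∃ᶠ N in atTop, l - e < GG n f N :=
      frequently_lt_of_lt_limsup (cobdd hf) (by linarith)
    -- eventually facts
    have h2 : Tendsto (fun N : ℕ => ((N : ℝ) / (N + q)) ^ n) atTop (𝓝 1) := by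
      have h3 : Tendsto (fun N : ℕ => (N : ℝ) / (N + q)) atTop (𝓝 1) :=
        tendsto_natCast_div_add_atTop (q : ℝ)
      have := h3.pow n
      rwa [one_pow] at this
    have h4 : ∀ᶠ N : ℕ in atTop, 1 - e < ((N : ℝ) / (N + q)) ^ n :=
      h2.eventually (eventually_gt_nhds (by linarith))
    have h5 : Tendsto (fun k => ((aa q t k : ℝ) / k) ^ n) atTop (𝓝 ((q - t) ^ n)) :=
      (aa_div_tendsto h0 ht).pow n
    have h6 : ∀ᶠ k : ℕ in atTop, (q - t) ^ n - e < ((aa q t k : ℝ) / k) ^ n :=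
      h5.eventually (eventually_gt_nhds (by linarith))
    rw [frequently_atTop]
    intro K
    obtain ⟨K1, hK1⟩ := eventually_atTop.mp (h6.and haev)
    obtain ⟨N, hN1, hN2, hN3⟩ := (h1.and_eventually
      (h4.and (eventually_gt_atTop (q * max K K1)))).exists
    have hNpos : 0 < N := by omega
    obtain ⟨k, hk1, hk2⟩ := exists_aa h0 ht N hNpos
    have hkK : max K K1 < k := by
      by_contra hcon
      have h7 : aa q t k ≤ q * max K K1 :=
        (aa_le_nat q t k).trans (Nat.mul_le_mul_left q (not_lt.mp hcon))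
      omega
    have hkK' : K ≤ k := le_trans (le_max_left _ _) hkK.le
    have hkK1 : K1 ≤ k := le_trans (le_max_right _ _) hkK.le
    refine ⟨k, hkK', ?_⟩
    obtain ⟨h7, h8, h9⟩ := hK1 k hkK1
    rw [hu k h8 h9]
    have h10 : (l - e) * (1 - e) ≤ GG n f (aa q t k) := by
      have h11 : GG n f N * ((N : ℝ) / (N + q)) ^ n ≤ GG n f (aa q t k) := by
        have hm : (f N : ℝ) ≤ f (aa q t k) := by exact_mod_cast mono hf (by omega) hk1
        have hN' : (0 : ℝ) < N := by exact_mod_cast hNpos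
        have ha' : (0 : ℝ) < aa q t k := by exact_mod_cast h9
        have ha2 : (aa q t k : ℝ) ≤ N + q := by exact_mod_cast hk2.le
        have e1 : GG n f N * ((N : ℝ) / (N + q)) ^ n =
            (f N : ℝ) * n.factorial / ((N : ℝ) + q) ^ n := by
          unfold GG
          rw [div_pow]
          have : ((N : ℝ) + q) ≠ 0 := by positivity
          field_simp
        rw [e1]
        unfold GG
        have h12 : (aa q t k : ℝ) ^ n ≤ ((N : ℝ) + q) ^ n :=
          pow_le_pow_left₀ ha'.le ha2 n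
        have h13 : (f N : ℝ) * n.factorial ≤ f (aa q t k) * n.factorial := by
          apply mul_le_mul_of_nonneg_right hm (by positivity)
        exact div_le_div₀ (by positivity) h13 (by positivity) h12
      have h14 : (l - e) * (1 - e) ≤ GG n f N * ((N : ℝ) / (N + q)) ^ n :=
        mul_le_mul hN1.le hN2.le (by linarith) (hGnn N)
      exact h14.trans h11
    exact mul_le_mul h10 h7.le (by linarith) (hGnn _)
  · filter_upwards with k
    positivity

theorem V_zero {q : ℕ} {t : ℝ} (ht : (q : ℝ) < t) :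
    limsup (fun k : ℕ =>
      ((if ⌈(k : ℝ) * t⌉₊ ≤ q * k then f (q * k - ⌈(k : ℝ) * t⌉₊) else 0 : ℕ) : ℝ) /
        ((k : ℝ) ^ n / (n.factorial : ℝ))) atTop = 0 := by
  have : (fun k : ℕ =>
      ((if ⌈(k : ℝ) * t⌉₊ ≤ q * k then f (q * k - ⌈(k : ℝ) * t⌉₊) else 0 : ℕ) : ℝ) /
        ((k : ℝ) ^ n / (n.factorial : ℝ))) =ᶠ[atTop] fun _ => (0 : ℝ) := by
    filter_upwards [eventually_gt_atTop 0] with k hk
    have hk' : (0 : ℝ) < k := by exact_mod_cast hk
    rw [if_neg]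
    · simp
    · rw [not_le, Nat.lt_ceil]
      push_cast
      nlinarith
  rw [limsup_congr this]
  exact limsup_const 0

end

end LimM

open LimM in
theorem specLIM : SpecLIM := by
  intro n q f c₁ c₂ hn hq hc hf V hV
  set l := limsup (GG n f) atTop with hl
  have hlpos : 0 < l := l_pos hc hf
  have hq' : (0 : ℝ) < q := by exact_mod_cast hq
  have hVt : ∀ t : ℝ, 0 ≤ t → t < q → V t = (q - t) ^ n * l := by
    intro t h0 ht
    rw [hV t]
    exact V_eq hc hf h0 ht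
  have hVz : ∀ t : ℝ, (q : ℝ) < t → V t = 0 := by
    intro t ht
    rw [hV t]
    exact V_zero ht
  have hV0 : V 0 = (q : ℝ) ^ n * l := by
    rw [hVt 0 le_rfl hq', sub_zero]
  refine ⟨by rw [hV0]; positivity, ?_⟩
  have h1 : ∫ t in Set.Ioi (0 : ℝ), V t =
      ∫ t in Set.Ioi (0 : ℝ), (Set.Ioc (0 : ℝ) q).indicator (fun t => (q - t) ^ n * l) t := by
    apply setIntegral_congr_ae measurableSet_Ioi
    have hne : ∀ᵐ t : ℝ, t ≠ q := by
      rw [ae_iff]
      simp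
    filter_upwards [hne] with t ht ht0
    have ht0' : (0 : ℝ) < t := ht0
    rcases lt_or_gt_of_ne ht with h | h
    · rw [Set.indicator_of_mem (show t ∈ Set.Ioc (0 : ℝ) q from ⟨ht0', h.le⟩), hVt t ht0'.le h]
    · rw [Set.indicator_of_notMem (fun hh => absurd hh.2 (not_le.mpr h)), hVz t h]
  rw [h1, setIntegral_indicator measurableSet_Ioc]
  have h2 : Set.Ioi (0 : ℝ) ∩ Set.Ioc (0 : ℝ) q = Set.Ioc (0 : ℝ) q :=
    Set.inter_eq_right.mpr (fun t ht => ht.1)
  rw [h2, ← intervalIntegral.integral_of_le hq'.le, intervalIntegral.integral_mul_const, hV0]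
  have h3 : ∫ t in (0 : ℝ)..q, ((q : ℝ) - t) ^ n = (q : ℝ) ^ (n + 1) / (n + 1) := by
    rw [intervalIntegral.integral_comp_sub_left (fun x : ℝ => x ^ n) (q : ℝ), integral_pow]
    simp
  rw [h3]
  have : (n : ℝ) + 1 ≠ 0 := by positivity
  field_simp
  try ring

end Pool.Agent.Lib.MPa7508c
end

section
/-!
# TER: terminal singularities
-/
set_option autoImplicit false

namespace Pool.Agent.Lib.MPa7508c

theorem specTER (hKEY : SpecKEY) (hLDD : SpecLDD) : SpecTER := by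
  intro m Δ hm hU hN K _ _ x h v hexc A hA
  have h1 := ((hLDD m Δ hm hU K x h).2 v hexc.1 A).1 hA
  rw [h1]
  exact (hKEY m Δ hm hN K x h v hexc.1 hexc.2).1

end Pool.Agent.Lib.MPa7508c
end
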