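import Pool.Agent.Lib.MP_a7508c_ag.Huf
import Pool.Agent.Lib.MP_a7508c_ag.Thr
import Pool.Agent.Lib.MP_a7508c_ag.Dd0
import Pool.Agent.Lib.MP_a7508c_ag.Hil
import Pool.Agent.Lib.MP_a7508c_ag.Lfa
import Pool.Agent.Lib.MP_a7508c_ag.Lfb
import Pool.Agent.Lib.MP_a7508c_ag.Logd
import Pool.Agent.Lib.MP_a7508c_ag.Resd
import Pool.Agent.Lib.MP_a7508c_ag.Leq
import Pool.Agent.Lib.MP_a7508c_ag.Ter
import Pool.Agent.Lib.MP_a7508c_ag.Nrm
import Pool.Agent.Lib.MP_a7508c_ag.Omf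
import Pool.Agent.Lib.MP_a7508c_ag.PRJ4
import Pool.Agent.Lib.MP_a7508c_ag.Sam

section
/-!
# SUP: birational superrigidity
-/
set_option autoImplicit false

namespace Pool.Agent.Lib.MPa7508c

open UtilM

theorem specSUP (hGR : SpecGR) (hRNG : SpecRNG) (hFUN : SpecFUN) (hHUF : SpecHUF) (hORD : SpecORD)
    (hDIVX : SpecDIVX) (hDIVD : SpecDIVD) (hSEC : SpecSEC)
    (hPULL : SpecPULL) (hLDD : SpecLDD) (hKEY : SpecKEY) : SpecSUP := by
  intro m Δ hm hU hN K _ _ x h D M lam hWeil hfin hM hsec hmov hlam hlin v hexc A c hA hc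
  obtain ⟨r0, φ, hr0, hφ, heq⟩ := hlin
  have hG := gr hGR Δ
  have hR := hRNG m Δ hm
  have hdom := hR.dom
  have hF := hFUN m Δ hm K x h
  have hOv := hORD K v hexc.1.2.1
  obtain ⟨d, e, r, s, hrep⟩ := hDIVD m Δ hm hU K x h D hWeil
  obtain ⟨hex, hdiv⟩ := hDIVX m Δ hm K x h
  obtain ⟨F0, hF0⟩ := hex Δ.x0 1 (x0_mem Δ) hR.x0prime
  obtain ⟨s', hs'M, hs'0, hs'⟩ := hmov F0 (hdiv F0 _ _ hF0).1
  obtain ⟨k, g, hke, hg, hg0, hgs⟩ :=
    (hSEC m Δ hm hU K x h D d e r s hrep s').1 (hsec s' hs'M hs'0)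
  have hdr : dh h r ≠ 0 := fun h0 => hrep.r0 (hF.inj d r hrep.hr h0)
  have hds : dh h s ≠ 0 := fun h0 => hrep.s0 (hF.inj e s hrep.hs h0)
  have hdg : dh h g ≠ 0 := fun h0 => hg0 (hF.inj k g hg h0)
  -- `x_0` does not divide `g`
  have hxg : ¬ Δ.x0 ∣ g := by
    have hO := hORD K F0 (hdiv F0 _ _ hF0).1.1
    have h1 := ((hdiv F0 _ _ hF0).2 d r hrep.hr hrep.r0).2 dvd_rfl
    have h2 := ((hdiv F0 _ _ hF0).2 e s hrep.hs hrep.s0).2 dvd_rfl
    have h3 := ((hdiv F0 _ _ hF0).2 k g hg hg0).2 dvd_rfl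
    have h4 := hrep.eq F0 _ _ hF0
    have h5 := congrArg (ord F0) hgs
    rw [hO.mul _ _ hs'0 hdr, hO.mul _ _ hdg hds] at h5
    rw [← mult_eq_zero hR hR.x0prime hg0]
    omega
  -- degrees
  have hdeg : lam * (k : ℚ) = Δ.q := by
    obtain ⟨n, A', B', hA', hB', hB'0, hφAB⟩ := hF.frac φ
    have hdB : dh h B' ≠ 0 := fun h0 => hB'0 (hF.inj n B' hB' h0)
    have hdA : dh h A' ≠ 0 := by rw [← hφAB]; exact mul_ne_zero hφ hdB
    have hA'0 : A' ≠ 0 := fun h0 => hdA (by rw [h0, map_zero])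
    obtain ⟨n1, hn1⟩ : ∃ n1 : ℕ, (n1 : ℤ) = lam.num :=
      ⟨lam.num.toNat, Int.toNat_of_nonneg (Rat.num_nonneg.2 hlam.le)⟩
    have hlam' : lam * lam.den = n1 := by
      have := Rat.mul_den_eq_num lam
      rw [this, ← hn1]; push_cast; rfl
    set n2 := lam.den with hn2
    have hn2pos : 0 < n2 := lam.den_pos
    -- the two homogeneous elements
    set U : Δ.R := r ^ (r0 * n1) * B' ^ n2 with hUdef
    set W : Δ.R := s ^ (r0 * n1) * (Δ.x0 ^ Δ.q) ^ (n2 * r0) * A' ^ n2 with hWdef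
    have hxq0 : Δ.x0 ^ Δ.q ≠ 0 := pow_ne_zero _ hR.x0prime.ne_zero
    have hU0 : U ≠ 0 := mul_ne_zero (pow_ne_zero _ hrep.r0) (pow_ne_zero _ hB'0)
    have hW0 : W ≠ 0 := mul_ne_zero (mul_ne_zero (pow_ne_zero _ hrep.s0) (pow_ne_zero _ hxq0))
      (pow_ne_zero _ hA'0)
    have hxq : Δ.x0 ^ Δ.q ∈ Δ.hm Δ.q := by simpa using pow_mem (x0_mem Δ) Δ.q
    have hUmem : U ∈ Δ.hm ((r0 * n1) * d + n2 * n) :=
      mul_mem (pow_mem hrep.hr _) (pow_mem hB' _)
    have hWmem : W ∈ Δ.hm ((r0 * n1) * e + (n2 * r0) * Δ.q + n2 * n) :=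
      mul_mem (mul_mem (pow_mem hrep.hs _) (pow_mem hxq _)) (pow_mem hA' _)
    have hmul : ∀ (k : ℕ) (p : Δ.R), p ∈ Δ.hm k → Prime p → mult p U = mult p W := by
      intro k p hpk hp
      obtain ⟨F, hFp⟩ := hex p k hpk hp
      have hPD := (hdiv F p k hFp).1
      have hO := hORD K F hPD.1
      have h1 := heq F hPD
      have h2 := hrep.eq F p k hFp
      have h3 := (hLDD m Δ hm hU K x h).1.eq F p k hFp
      have h4 : ord F φ = (mult p A' : ℤ) - mult p B' := by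
        have h5 := congrArg (ord F) hφAB
        rw [hO.mul _ _ hφ hdB] at h5
        by_cases hpx : p ∣ Δ.x0
        · have h6 := ((hdiv F p k hFp).2 n A' hA' hA'0).2 hpx
          have h7 := ((hdiv F p k hFp).2 n B' hB' hB'0).2 hpx
          omega
        · have h6 := ((hdiv F p k hFp).2 n A' hA' hA'0).1 hpx
          have h7 := ((hdiv F p k hFp).2 n B' hB' hB'0).1 hpx
          omega
      have h8 : mult p (1 : Δ.R) = 0 :=
        (mult_eq_zero hR hp one_ne_zero).2 fun hd => hp.not_isUnit (isUnit_of_dvd_one hd)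
      rw [hUdef, hWdef, hR.mult_mul p _ _ hp (pow_ne_zero _ hrep.r0) (pow_ne_zero _ hB'0),
        hR.mult_mul p _ _ hp (mul_ne_zero (pow_ne_zero _ hrep.s0) (pow_ne_zero _ hxq0))
          (pow_ne_zero _ hA'0),
        hR.mult_mul p _ _ hp (pow_ne_zero _ hrep.s0) (pow_ne_zero _ hxq0),
        mult_pow hR hp hrep.r0, mult_pow hR hp hB'0, mult_pow hR hp hrep.s0,
        mult_pow hR hp hxq0, mult_pow hR hp hA'0]
      rw [h2, h3, h8, h4] at h1
      have h9 : ((r0 * n1 * mult p r + n2 * mult p B' : ℕ) : ℚ) =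
          ((r0 * n1 * mult p s + n2 * r0 * mult p (Δ.x0 ^ Δ.q) + n2 * mult p A' : ℕ) : ℚ) := by
        push_cast at h1 ⊢
        have h10 := congrArg (fun y => (n2 : ℚ) * y) h1
        have h11 : (n2 : ℚ) * (r0 * (lam * ((mult p r : ℚ) - mult p s) +
            (0 - (mult p (Δ.x0 ^ Δ.q) : ℚ)))) =
            r0 * ((lam * n2) * ((mult p r : ℚ) - mult p s)) -
              n2 * r0 * mult p (Δ.x0 ^ Δ.q) := by ring
        rw [h11, hlam'] at h10
        linarith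
      exact_mod_cast h9
    have hUW : U ∣ W := huf hHUF hR hU _ _ W U hWmem hUmem hW0 hU0
      fun k p hk hp => (hmul k p hk hp).le
    have hWU : W ∣ U := huf hHUF hR hU _ _ U W hUmem hWmem hU0 hW0
      fun k p hk hp => (hmul k p hk hp).ge
    have h1 := deg_le_of_dvd hG hdom hW0 hUmem hWmem hUW
    have h2 := deg_le_of_dvd hG hdom hU0 hWmem hUmem hWU
    have h3 : (r0 * n1) * d = (r0 * n1) * e + (n2 * r0) * Δ.q := by omega
    have h4 : r0 * (n1 * k) = r0 * (n2 * Δ.q) := by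
      have : (r0 * n1) * d = (r0 * n1) * e + (r0 * n1) * k := by rw [← hke]; ring
      rw [this] at h3
      nlinarith
    have h5 : n1 * k = n2 * Δ.q := Nat.eq_of_mul_eq_mul_left hr0 h4
    have h6 : (n1 : ℚ) * k = n2 * Δ.q := by exact_mod_cast h5
    rw [← hlam'] at h6
    have h7 : (n2 : ℚ) ≠ 0 := by exact_mod_cast hn2pos.ne'
    apply mul_left_cancel₀ h7
    rw [← h6]; ring
  -- conclusion
  refine ⟨s', hs'M, hs'0, ?_⟩
  have hA' := ((hLDD m Δ hm hU K x h).2 v hexc.1 A).1 hA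
  have hc' := (hPULL m Δ hm hU K x h D d e r s hrep v hexc.1 c).1 hc
  have hkey := (hKEY m Δ hm hN K x h v hexc.1 hexc.2).2 k g hg hxg
  have hval : (ord v s' : ℚ) + c = hv Δ x v k (dh h g) := by
    have h5 := congrArg (ord v) hgs
    rw [hOv.mul _ _ hs'0 hdr, hOv.mul _ _ hdg hds] at h5
    have h6 : (ord v s' : ℚ) + ord v (dh h r) = ord v (dh h g) + ord v (dh h s) := by
      exact_mod_cast h5
    have h7 : (k : ℚ) + e = d := by exact_mod_cast hke
    rw [hc']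
    simp only [hv]
    rw [← h7]
    linarith
  rw [hval, hA']
  have hq : (0 : ℚ) < Δ.q := by
    have := hN.index
    exact_mod_cast (by omega : 0 < Δ.q)
  have hk : (0 : ℚ) < k := by
    by_contra hneg
    have h1 : (k : ℚ) = 0 := le_antisymm (not_lt.1 hneg) (by positivity)
    rw [h1, mul_zero] at hdeg
    exact hq.ne hdeg
  rw [← hdeg] at hkey
  have h1 : (k : ℚ) * (lam * hv Δ x v k (dh h g)) ≤ k * (LD Δ x v - 1) := by
    calc _ = lam * k * hv Δ x v k (dh h g) := by ring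
      _ ≤ _ := hkey
  exact le_of_mul_le_mul_left h1 hk

end Pool.Agent.Lib.MPa7508c
end

section
/-!
# The proof of the main assertion
-/
set_option autoImplicit false

namespace Pool.Agent.Lib.MPa7508c

theorem main : MainAssertion := by
  have hORD := specORD
  have hIRR := specIRR
  have hGR := specGR
  have hLOGD := specLOGD hORD
  have hRESD := specRESD
  have hLOCP := specLOCP hIRR
  have hLEF := specLEF (specLFA hIRR) (specLFB hLOCP) (specLFC hLOCP hIRR hGR) (specBETA hIRR hGR) hIRR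
  have hRNG := specRNG hIRR
  have hFUN := specFUN hRNG
  have hDER := specDER
  have hVH := specVH hORD hFUN
  have hDIVX := specDIVX hORD hGR hRNG hFUN
  have hDIVO := specDIVO hORD hGR hRNG hFUN hDIVX
  have hTHR := specTHR hGR hRNG hFUN
  have hHUF := specHUF hGR
  have hDESC := specDESC hORD
  have hNRM := specNRM hRNG
  have hEXC := specEXC hORD hFUN
  have hCOST := specCOST hORD hLOGD specOFORM specLOGJ hFUN hDER
  have hCOST0 := specCOST0 hORD hLOGD specOFORM hRESD hFUN hDER hEXC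
  have hD0 := specD0 hORD hGR hRNG hFUN hDER hVH hNRM hDESC hCOST hDIVX
  have hKEY := specKEY hGR hRNG hFUN hORD hDER hVH hNRM hDESC hCOST hCOST0 specAGE hD0
  have hDIVD := specDIVD hGR hRNG hDIVX hDIVO hTHR
  have hSEC := specSEC hORD hGR hRNG hFUN hHUF hDIVX hDIVO
  have hLEQ := specLEQ hORD hGR hRNG hFUN hDIVX hDIVO hTHR
  have hPULL := specPULL hGR hORD hRNG hFUN hVH hDIVX hTHR hLEQ
  have hDD0 := specDD0 hRNG hFUN hDIVX
  have hOMF := specOMF hORD hRNG hFUN hDER hDIVX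
  have hOMD := specOMD hORD hRNG hFUN hLOGD hCOST hDIVX hDD0
  have hLDD := specLDD hORD hRNG hOMF hOMD hPULL
  have hWQC := specWQC hORD hRNG hFUN hDIVX hDIVO hTHR hDIVD hLEQ hLDD
  have hTER := specTER hKEY hLDD
  have hSUP := specSUP hGR hRNG hFUN hHUF hORD hDIVX hDIVD hSEC hPULL hLDD hKEY
  have hSDIM := specSDIM hRNG hGR hFUN hDIVX hSEC hLDD
  have hKUN := specKUN hORD (specHIL hRNG) specLIM hSDIM hRNG hGR hDIVX hDD0 hOMD hPULL hLDD
  have hNORM := specNORM hGR hRNG hFUN hDIVX hTHR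
  have hAMP := specAMP hRNG hFUN hDIVX hDIVO hTHR hLDD hNORM
  have hPRJ := specPRJ hRNG hFUN
  exact assembly hPRJ hFUN hDER (specCHAIN (specSAM hIRR) hLEF) specNUM hWQC hTER hSUP hKUN hAMP

end Pool.Agent.Lib.MPa7508c
end
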