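import Pool.Agent.Lib.MP_a7508c_ag.Huf

/-!
# OMF: the form `ω` has no zeros and no poles in the chart `x_0 ≠ 0`
-/

set_option autoImplicit false
set_option linter.unusedSectionVars false

namespace Pool.Agent.Lib.MPa7508c

open MvPolynomial

noncomputable section

namespace OmfM

open LddM

variable {m : ℕ} {Δ : Dat m} {K : Type} [Field K] [Algebra ℂ K] {x : Fin (m + 2) → K}

theorem dform_apply {n : ℕ} (z : Fin n → K) (δ : Fin n → Derivation ℂ K K) :
    dform z δ = Matrix.det (Matrix.of fun i j => δ i (z j)) := rfl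

theorem det_mem {n : ℕ} (F : ValuationSubring K) (M : Matrix (Fin n) (Fin n) K)
    (h : ∀ i j, M i j ∈ F) : M.det ∈ F := by
  rw [Matrix.det_apply]
  refine F.toSubring.sum_mem fun σ _ => ?_
  rw [Units.smul_def]
  exact F.toSubring.zsmul_mem (F.toSubring.prod_mem fun i _ => h _ _) _

/-- regular forms have regular values on derivations preserving `F` -/
theorem reg_apply {n : ℕ} (F : ValuationSubring K) (δ : Fin n → Derivation ℂ K K)
    (hδ : ∀ i, ∀ z ∈ F, δ i z ∈ F) (ξ : TopForm K n) (hξ : ξ ∈ regForms n F) : ξ δ ∈ F := by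
  refine AddSubgroup.closure_induction (p := fun η _ => η δ ∈ F) ?_ ?_ ?_ ?_ hξ
  · rintro _ ⟨y, z, hy, hz, rfl⟩
    rw [AlternatingMap.smul_apply, smul_eq_mul, dform_apply]
    exact F.mul_mem _ _ hy (det_mem F _ fun i j => hδ i _ (hz j))
  · rw [AlternatingMap.zero_apply]
    exact F.zero_mem
  · intro a b _ _ ha hb
    rw [AlternatingMap.add_apply]
    exact F.add_mem _ _ ha hb
  · intro a _ ha
    rw [AlternatingMap.neg_apply]
    exact F.neg_mem _ ha

theorem der_poly (F : ValuationSubring K) (δ : Derivation ℂ K K) (hC : ∀ c : ℂ, algebraMap ℂ K c ∈ F)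
    (hx : ∀ k, x k ∈ F) (hδ : ∀ k, δ (x k) ∈ F) (P : MvPolynomial (Option (Fin (m + 2))) ℂ) :
    dhP x P ∈ F ∧ δ (dhP x P) ∈ F := by
  induction P using MvPolynomial.induction_on with
  | C a =>
    rw [dhP, aeval_C]
    exact ⟨hC a, by rw [Derivation.map_algebraMap]; exact F.zero_mem⟩
  | add p q hp hq =>
    rw [map_add, map_add]
    exact ⟨F.add_mem _ _ hp.1 hq.1, F.add_mem _ _ hp.2 hq.2⟩
  | mul_X p i hp =>
    have h1 : dhP x (X i) = i.elim 1 x := by simp [dhP]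
    have h2 : i.elim 1 x ∈ F ∧ δ (i.elim 1 x) ∈ F := by
      cases i with
      | none => exact ⟨F.one_mem, by simp [F.zero_mem]⟩
      | some k => exact ⟨hx k, hδ k⟩
    rw [map_mul, h1, Derivation.leibniz, smul_eq_mul, smul_eq_mul]
    exact ⟨F.mul_mem _ _ hp.1 h2.1,
      F.add_mem _ _ (F.mul_mem _ _ hp.1 h2.2) (F.mul_mem _ _ h2.1 hp.2)⟩

theorem ord_zpow {v : ValuationSubring K} (hv : OrdLaws v) {z : K} (hz : z ≠ 0) (n : ℤ) :
    ord v (z ^ n) = n * ord v z := by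
  cases n with
  | ofNat n =>
    rw [Int.ofNat_eq_natCast, zpow_natCast, ord_pow hv hz]
  | negSucc n =>
    rw [zpow_negSucc, ord_inv hv (pow_ne_zero _ hz), ord_pow hv hz, Int.negSucc_eq]
    push_cast
    ring

/-- an irreducible element -/
theorem exists_irr (F : ValuationSubring K) (hF : IsDiscreteValuationRing F) :
    ∃ p : F, Irreducible p := IsDiscreteValuationRing.exists_irreducible F

/-- the order of a form which generates the regular forms over a unit -/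
theorem ordForm_eq_zero {n : ℕ} (F : ValuationSubring K) (hF : IsDiscreteValuationRing F)
    (hO : OrdLaws F) (δ : Fin n → Derivation ℂ K K) (hδ : ∀ i, ∀ z ∈ F, δ i z ∈ F)
    (η : TopForm K n) (h1 : η ∈ regForms n F) (h2 : ord F (η δ) = 0) (h3 : η δ ≠ 0) :
    ordForm F η = 0 := by
  refine IsGreatest.csSup_eq ⟨?_, ?_⟩
  · obtain ⟨p, hp⟩ := exists_irr F hF
    exact ⟨p, hp, η, h1, by rw [zpow_zero, one_smul]⟩
  · rintro k ⟨p, hp, ξ, hξ, he⟩
    obtain ⟨hp0, hp1⟩ := (hO.irr p).1 hp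
    have h4 : η δ = (p : K) ^ k * ξ δ := by
      conv_lhs => rw [he]
      rfl
    have h5 : ξ δ ≠ 0 := by
      intro h6
      rw [h6, mul_zero] at h4
      exact h3 h4
    have h6 : 0 ≤ ord F (ξ δ) := (hO.nonneg _ h5).2 (reg_apply F δ hδ ξ hξ)
    rw [h4, hO.mul _ _ (zpow_ne_zero _ hp0) h5, ord_zpow hO hp0, hp1, mul_one] at h2
    omega

end OmfM

open LddM OmfM

/-- OMF -/
theorem specOMF (hORD : SpecORD) (hRNG : SpecRNG) (hFUN : SpecFUN) (hDER : SpecDER)
    (hDIVX : SpecDIVX) : SpecOMF := by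
  intro m Δ hm K _ _ x h F p e hp hd
  have hR := hRNG m Δ hm
  have := hR.dom
  have hf := hFUN m Δ hm K x h
  obtain ⟨hprime, -⟩ := (hDIVX m Δ hm K x h).2 F p e hp
  have hDVR := hprime.1
  have hO := hORD K F hDVR
  have hC : ∀ c : ℂ, algebraMap ℂ K c ∈ F := by
    intro c
    refine (hp.mem _).2 ⟨0, algebraMap ℂ Δ.R c, 1, alg_mem c, one_mem, ?_, ?_⟩
    · intro h1
      exact hp.prime.not_isUnit (isUnit_of_dvd_one h1)
    · rw [map_one, mul_one, AlgHom.commutes]
  have hx0 : ∀ n, ¬ p ∣ Δ.x0 ^ n := fun n h1 => hd (hp.prime.dvd_of_dvd_pow h1)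
  have hxm : ∀ k, x k ∈ F := by
    intro k
    have h1 := xx_pow_mem (Δ := Δ) k 1
    rw [pow_one, one_mul] at h1
    refine (hp.mem _).2 ⟨_, Δ.xx k, Δ.x0 ^ Δ.w k, h1, x0_pow_mem _, hx0 _, ?_⟩
    rw [map_pow, dh_x0, dh_xx, one_pow, mul_one]
  obtain ⟨j, hj⟩ : ∃ j, ¬ p ∣ Δ.xx j := by
    by_contra hne
    push Not at hne
    have h1 := (hp.prime.associated_of_dvd (hR.xprime 0) (hne 0)).symm.dvd.trans (hne 1)
    refine hR.xx 0 1 ?_ h1
    intro h01
    have := congrArg Fin.val h01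
    simp at this
  have hxj : (x j)⁻¹ ∈ F := by
    have h1 := xx_pow_mem (Δ := Δ) j 1
    rw [pow_one, one_mul] at h1
    refine (hp.mem _).2 ⟨_, Δ.x0 ^ Δ.w j, Δ.xx j, x0_pow_mem _, h1, hj, ?_⟩
    rw [map_pow, dh_x0, dh_xx, one_pow, inv_mul_cancel₀ (hf.xne j)]
  obtain ⟨⟨δ, hδ1, -⟩, s, hs, hform⟩ := (hDER m Δ hm K x h).2 j
  have haj : (Δ.a j : K) ≠ 0 := by
    have h1 : (Δ.a j : K) = algebraMap ℂ K (Δ.a j) := by simp
    rw [h1, Ne, FaithfulSMul.algebraMap_eq_zero_iff]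
    have := Δ.wt.two_le j
    exact_mod_cast (by omega : Δ.a j ≠ 0)
  have hajF : (Δ.a j : K)⁻¹ ∈ F := by
    have h1 : (Δ.a j : K)⁻¹ = algebraMap ℂ K ((Δ.a j : ℂ)⁻¹) := by simp
    rw [h1]
    exact hC _
  have hnat : ∀ n : ℕ, (n : K) ∈ F := fun n => by
    have h1 : (n : K) = algebraMap ℂ K n := by simp
    rw [h1]
    exact hC _
  -- the values of the derivations on the coordinates
  have hδx : ∀ i k, δ i (x k) ∈ F := by
    intro i k
    have hne : ∀ k', δ i (x (j.succAbove k')) ∈ F := by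
      intro k'
      have := hδ1 i k'
      rw [but] at this
      rw [this]
      split_ifs
      · exact F.one_mem
      · exact F.zero_mem
    rcases Fin.eq_self_or_eq_succAbove j k with rfl | ⟨k', rfl⟩
    · have h1 := congrArg (δ i) h.eqn
      rw [map_add, map_sum, Derivation.map_zero, Derivation.map_one_eq_zero, zero_add,
        Fin.sum_univ_succAbove _ k] at h1
      simp only [Derivation.leibniz_pow, nsmul_eq_mul, smul_eq_mul] at h1
      have h2 : δ i (x k) = - ((Δ.a k : K)⁻¹ * (x k)⁻¹ ^ (Δ.a k - 1)) *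
          ∑ k', ((Δ.a (k.succAbove k') : K) *
            (x (k.succAbove k') ^ (Δ.a (k.succAbove k') - 1) * δ i (x (k.succAbove k')))) := by
        rw [← eq_neg_iff_add_eq_zero] at h1
        rw [neg_mul, ← mul_neg, ← h1, inv_pow]
        field_simp [hf.xne k]
      rw [h2]
      refine F.mul_mem _ _ (F.neg_mem _ (F.mul_mem _ _ hajF (F.toSubring.pow_mem hxj _))) ?_
      refine F.toSubring.sum_mem fun k' _ => ?_
      exact F.mul_mem _ _ (hnat _) (F.mul_mem _ _ (F.toSubring.pow_mem (hxm _) _) (hne k'))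
    · exact hne k'
  have hδF : ∀ i, ∀ z ∈ F, δ i z ∈ F := by
    intro i z hz
    obtain ⟨d, r, t, hr, ht, hpt, hzt⟩ := (hp.mem z).1 hz
    obtain ⟨P, -, rfl⟩ := Submodule.mem_map.1 hr
    obtain ⟨Q, -, rfl⟩ := Submodule.mem_map.1 ht
    change z * dhP x Q = dhP x P at hzt
    have hQ0 : dhP x Q ≠ 0 := by
      intro h1
      have := hf.inj d _ ht h1
      exact hpt (this ▸ dvd_zero _)
    have hQF : (dhP x Q)⁻¹ ∈ F := by
      refine (hp.mem _).2 ⟨d, Δ.x0 ^ d, _, x0_pow_mem _, ht, hpt, ?_⟩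
      rw [map_pow, dh_x0, one_pow]
      change (dhP x Q)⁻¹ * dhP x Q = 1
      exact inv_mul_cancel₀ hQ0
    have hP := der_poly F (δ i) hC hxm (hδx i) P
    have hQ := der_poly F (δ i) hC hxm (hδx i) Q
    have h2 := congrArg (δ i) hzt
    rw [Derivation.leibniz, smul_eq_mul, smul_eq_mul] at h2
    have h3 : δ i z = (dhP x Q)⁻¹ * (δ i (dhP x P) - z * δ i (dhP x Q)) := by
      rw [← h2]
      field_simp
      ring
    rw [h3]
    exact F.mul_mem _ _ hQF (F.toSubring.sub_mem hP.2 (F.mul_mem _ _ hz hQ.2))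
  -- the form
  have hdet : dform (but x j) δ = 1 := by
    rw [dform_apply]
    have : (Matrix.of fun i k => δ i (but x j k)) = (1 : Matrix (Fin (m + 1)) (Fin (m + 1)) K) := by
      ext i k
      rw [Matrix.of_apply, hδ1, Matrix.one_apply]
    rw [this, Matrix.det_one]
  set c : K := s * (Δ.a j * x j ^ (Δ.a j - 1)) with hc
  have hs0 : s ≠ 0 := by
    rcases hs with rfl | rfl
    · exact one_ne_zero
    · exact neg_ne_zero.2 one_ne_zero
  have hc0 : c ≠ 0 := mul_ne_zero hs0 (mul_ne_zero haj (pow_ne_zero _ (hf.xne j)))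
  have hsF : s ∈ F ∧ s⁻¹ ∈ F := by
    rcases hs with rfl | rfl
    · exact ⟨F.one_mem, by rw [inv_one]; exact F.one_mem⟩
    · exact ⟨F.neg_mem _ F.one_mem, by rw [inv_neg, inv_one]; exact F.neg_mem _ F.one_mem⟩
  have hcF : c ∈ F := F.mul_mem _ _ hsF.1 (F.mul_mem _ _ (hnat _) (F.toSubring.pow_mem (hxm j) _))
  have hcF' : c⁻¹ ∈ F := by
    rw [hc, mul_inv, mul_inv, ← inv_pow]
    exact F.mul_mem _ _ hsF.2 (F.mul_mem _ _ hajF (F.toSubring.pow_mem hxj _))
  have hom : omega Δ x = c⁻¹ • dform (but x j) := by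
    rw [hform, smul_smul, inv_mul_cancel₀ hc0, one_smul]
  have hval : omega Δ x δ = c⁻¹ := by
    rw [hom, AlternatingMap.smul_apply, hdet, smul_eq_mul, mul_one]
  refine ordForm_eq_zero F hDVR hO δ hδF _ ?_ ?_ ?_
  · rw [hom]
    exact AddSubgroup.subset_closure ⟨c⁻¹, but x j, hcF', fun i => hxm _, rfl⟩
  · rw [hval]
    have h1 := (hO.nonneg c hc0).2 hcF
    have h2 := (hO.nonneg c⁻¹ (inv_ne_zero hc0)).2 hcF'
    rw [ord_inv hO hc0] at h2 ⊢
    omega
  · rw [hval]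
    exact inv_ne_zero hc0

end

end Pool.Agent.Lib.MPa7508c
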