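import Mathlib

/-!
Proj of a graded domain `A` over `ℂ` with a dehomogenisation map `δ : A → K` to a field: integrality,
properness, the function field and the local rings as subrings of `K`.
-/

set_option autoImplicit false

open AlgebraicGeometry CategoryTheory TopologicalSpace

namespace Pool.Agent.Lib.MPa7508c.PRJ

noncomputable section

variable {A : Type} [CommRing A] [IsDomain A] [Algebra ℂ A] (𝒜 : ℕ → Submodule ℂ A)
  [GradedAlgebra 𝒜]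
variable {K : Type} [Field K] [Algebra ℂ K] (δ : A →ₐ[ℂ] K)

/-- `δ` is a dehomogenisation: injective on every graded piece, and `K` is the field of quotients
`δ a / δ b` with `a`, `b` of the same degree. -/
structure IsDh : Prop where
  inj : ∀ m, ∀ a ∈ 𝒜 m, δ a = 0 → a = 0
  surj : ∀ k : K, ∃ m, ∃ a ∈ 𝒜 m, ∃ b ∈ 𝒜 m, δ b ≠ 0 ∧ k = δ a / δ b

variable {𝒜} {δ}

/-- The value of a fraction of homogeneous elements of the same degree. -/
def frac (h : IsDh 𝒜 δ) (x : Submonoid A) (hx : ∀ b ∈ x, b ≠ 0) :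
    HomogeneousLocalization 𝒜 x →+* K where
  toFun y := Quotient.liftOn' y (fun f => δ f.num / δ f.den) (by
    intro f g (e : f.embedding = g.embedding)
    have hf : δ f.den ≠ 0 := fun e => hx _ f.den_mem (h.inj _ _ f.den.2 e)
    have hg : δ g.den ≠ 0 := fun e => hx _ g.den_mem (h.inj _ _ g.den.2 e)
    have hex : ∃ c ∈ x, c * (f.num.1 * g.den.1) = c * (g.num.1 * f.den.1) := by
      simp only [HomogeneousLocalization.NumDenSameDeg.embedding, Localization.mk_eq_mk',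
        IsLocalization.mk'_eq_iff_eq,
        IsLocalization.eq_iff_exists x] at e
      obtain ⟨⟨c, hc⟩, hc'⟩ := e
      refine ⟨c, hc, ?_⟩
      simpa [mul_comm, mul_left_comm, mul_assoc] using hc'
    obtain ⟨c, hc, e⟩ := hex
    have e1 := mul_left_cancel₀ (hx c hc) e
    show δ f.num / δ f.den = δ g.num / δ g.den
    rw [div_eq_div_iff hf hg, ← map_mul, ← map_mul, e1])
  map_one' := by
    show δ (1 : A) / δ (1 : A) = 1
    simp
  map_mul' := by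
    intro y z
    obtain ⟨f, rfl⟩ := Quotient.mk''_surjective y
    obtain ⟨g, rfl⟩ := Quotient.mk''_surjective z
    show δ ((f.num : A) * g.num) / δ ((f.den : A) * g.den) = δ f.num / δ f.den * (δ g.num / δ g.den)
    rw [map_mul, map_mul, mul_div_mul_comm]
  map_zero' := by
    show δ (0 : A) / δ (1 : A) = 0
    simp
  map_add' := by
    intro y z
    obtain ⟨f, rfl⟩ := Quotient.mk''_surjective y
    obtain ⟨g, rfl⟩ := Quotient.mk''_surjective z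
    have hf : δ f.den ≠ 0 := fun e => hx _ f.den_mem (h.inj _ _ f.den.2 e)
    have hg : δ g.den ≠ 0 := fun e => hx _ g.den_mem (h.inj _ _ g.den.2 e)
    show δ ((f.den : A) * g.num + g.den * f.num) / δ ((f.den : A) * g.den) =
      δ f.num / δ f.den + δ g.num / δ g.den
    rw [map_add, map_mul, map_mul, map_mul]
    field_simp
    ring

lemma frac_mk (h : IsDh 𝒜 δ) (x : Submonoid A) (hx : ∀ b ∈ x, b ≠ 0)
    (f : HomogeneousLocalization.NumDenSameDeg 𝒜 x) :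
    frac h x hx (HomogeneousLocalization.mk f) = δ f.num / δ f.den := rfl

lemma range_frac (h : IsDh 𝒜 δ) (x : Submonoid A) (hx : ∀ b ∈ x, b ≠ 0) (k : K) :
    k ∈ (frac h x hx).range ↔ ∃ m, ∃ a ∈ 𝒜 m, ∃ b ∈ 𝒜 m, b ∈ x ∧ k = δ a / δ b := by
  constructor
  · rintro ⟨y, rfl⟩
    obtain ⟨f, rfl⟩ := HomogeneousLocalization.mk_surjective y
    exact ⟨f.deg, f.num, f.num.2, f.den, f.den.2, f.den_mem, rfl⟩
  · rintro ⟨m, a, ha, b, hb, hbx, rfl⟩
    exact ⟨HomogeneousLocalization.mk ⟨m, ⟨a, ha⟩, ⟨b, hb⟩, hbx⟩, rfl⟩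

lemma frac_injective (h : IsDh 𝒜 δ) (x : Submonoid A) (hx : ∀ b ∈ x, b ≠ 0) :
    Function.Injective (frac h x hx) := by
  rw [injective_iff_map_eq_zero]
  intro y hy
  obtain ⟨f, rfl⟩ := HomogeneousLocalization.mk_surjective y
  rw [frac_mk] at hy
  have hf : δ f.den ≠ 0 := fun e => hx _ f.den_mem (h.inj _ _ f.den.2 e)
  have h1 : δ f.num = 0 := by
    rcases div_eq_zero_iff.1 hy with h | h
    · exact h
    · exact absurd h hf
  exact HomogeneousLocalization.mk_eq_zero_of_num _ (Subtype.ext (h.inj _ _ f.num.2 h1))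

variable (𝒜)

/-- The generic point of `Proj`. -/
def gen (hpos : ∃ m, 0 < m ∧ ∃ a ∈ 𝒜 m, a ≠ 0) : ProjectiveSpectrum 𝒜 where
  asHomogeneousIdeal := ⊥
  isPrime := by
    show (⊥ : Ideal A).IsPrime
    exact Ideal.isPrime_bot
  not_irrelevant_le := by
    intro hle
    obtain ⟨m, hm, a, ha, ha0⟩ := hpos
    have h1 : a ∈ HomogeneousIdeal.irrelevant 𝒜 := by
      rw [HomogeneousIdeal.mem_irrelevant_iff]
      rw [GradedRing.proj_apply, DirectSum.decompose_of_mem_ne 𝒜 ha hm.ne']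
    have h2 : a ∈ (⊥ : HomogeneousIdeal 𝒜) := hle h1
    exact ha0 h2

lemma gen_mem (hpos : ∃ m, 0 < m ∧ ∃ a ∈ 𝒜 m, a ≠ 0) (U : Opens (ProjectiveSpectrum.top 𝒜))
    (hU : (U : Set (ProjectiveSpectrum.top 𝒜)).Nonempty) : (gen 𝒜 hpos) ∈ U := by
  obtain ⟨x, hx⟩ := hU
  obtain ⟨V, ⟨f, rfl⟩, hxV, hVU⟩ :=
    (ProjectiveSpectrum.isTopologicalBasis_basic_opens 𝒜).exists_subset_of_mem_open hx U.2
  apply hVU
  intro h0
  apply hxV
  have h1 : f = 0 := h0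
  rw [h1]
  exact zero_mem _

instance irr [hp : Fact (∃ m, 0 < m ∧ ∃ a ∈ 𝒜 m, a ≠ 0)] : IrreducibleSpace (Proj 𝒜) := by
  have hne : Nonempty (Proj 𝒜) := ⟨gen 𝒜 hp.out⟩
  have hpre : PreirreducibleSpace (Proj 𝒜) := by
    constructor
    intro U V hU hV hUne hVne
    refine ⟨gen 𝒜 hp.out, trivial, ?_, ?_⟩
    · obtain ⟨y, -, hy⟩ := hUne
      exact gen_mem 𝒜 hp.out ⟨U, hU⟩ ⟨y, hy⟩
    · obtain ⟨y, -, hy⟩ := hVne
      exact gen_mem 𝒜 hp.out ⟨V, hV⟩ ⟨y, hy⟩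
  exact { toPreirreducibleSpace := hpre, toNonempty := hne }

instance primeInst (x : Proj 𝒜) : x.asHomogeneousIdeal.toIdeal.IsPrime := x.isPrime

lemma primeCompl_ne_zero (x : Proj 𝒜) :
    ∀ b ∈ x.asHomogeneousIdeal.toIdeal.primeCompl, b ≠ 0 := by
  rintro b hb rfl
  exact hb (zero_mem _)

variable {𝒜}

/-- The local ring at a point, mapped to `K`. -/
def st (h : IsDh 𝒜 δ) (x : Proj 𝒜) : (Proj 𝒜).presheaf.stalk x →+* K :=
  (frac h x.asHomogeneousIdeal.toIdeal.primeCompl (primeCompl_ne_zero 𝒜 x)).comp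
    (Proj.stalkIso 𝒜 x).hom.hom

lemma st_injective (h : IsDh 𝒜 δ) (x : Proj 𝒜) : Function.Injective (st h x) := by
  apply Function.Injective.comp (frac_injective h _ (primeCompl_ne_zero 𝒜 x))
  exact (ConcreteCategory.bijective_of_isIso (Proj.stalkIso 𝒜 x).hom).1

lemma range_st (h : IsDh 𝒜 δ) (x : Proj 𝒜) (k : K) :
    k ∈ (st h x).range ↔
      ∃ m, ∃ a ∈ 𝒜 m, ∃ b ∈ 𝒜 m, b ∉ x.asHomogeneousIdeal ∧ k = δ a / δ b := by
  refine Iff.trans ?_ (range_frac h x.asHomogeneousIdeal.toIdeal.primeCompl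
    (primeCompl_ne_zero 𝒜 x) k)
  constructor
  · rintro ⟨y, rfl⟩
    exact ⟨_, rfl⟩
  · rintro ⟨y, rfl⟩
    obtain ⟨z, hz⟩ := (ConcreteCategory.bijective_of_isIso (Proj.stalkIso 𝒜 x).hom).2 y
    exact ⟨z, by rw [← hz]; rfl⟩

lemma isIntegral (h : IsDh 𝒜 δ) (hp : ∃ m, 0 < m ∧ ∃ a ∈ 𝒜 m, a ≠ 0) :
    IsIntegral (Proj 𝒜) := by
  have : Fact (∃ m, 0 < m ∧ ∃ a ∈ 𝒜 m, a ≠ 0) := ⟨hp⟩
  have : IrreducibleSpace (Proj 𝒜) := irr 𝒜
  have : ∀ x : Proj 𝒜, IsReduced ((Proj 𝒜).presheaf.stalk x) := fun x =>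
    isReduced_of_injective (st h x) (st_injective h x)
  have : IsReduced (Proj 𝒜) := isReduced_of_isReduced_stalk (Proj 𝒜)
  exact isIntegral_of_irreducibleSpace_of_isReduced _

/-- Two sections with the same germ-values in `K`. -/
lemma st_germ_eq (h : IsDh 𝒜 δ) (U : (Proj 𝒜).Opens) (x y : Proj 𝒜) (hx : x ∈ U) (hy : y ∈ U)
    (hxy : y ⤳ x) (s : Γ(Proj 𝒜, U)) :
    st h x ((Proj 𝒜).presheaf.germ U x hx s) = st h y ((Proj 𝒜).presheaf.germ U y hy s) := by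
  have e1 : ∀ z (hz : z ∈ U), st h z ((Proj 𝒜).presheaf.germ U z hz s) =
      frac h z.asHomogeneousIdeal.toIdeal.primeCompl (primeCompl_ne_zero 𝒜 z) (s.1 ⟨z, hz⟩) := by
    intro z hz
    exact congrArg _ (stalkToFiberRingHom_germ 𝒜 U z hz s)
  rw [e1 x hx, e1 y hy]
  obtain ⟨V, hxV, i, n, a, b, hb, e⟩ := s.2 ⟨x, hx⟩
  have hyV : y ∈ V := hxy.mem_open V.2 hxV
  have e2 := e ⟨x, hxV⟩
  have e3 := e ⟨y, hyV⟩
  have e2' : s.1 ⟨x, hx⟩ = .mk ⟨n, a, b, hb ⟨x, hxV⟩⟩ := e2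
  have e3' : s.1 ⟨y, hy⟩ = .mk ⟨n, a, b, hb ⟨y, hyV⟩⟩ := e3
  rw [e2', e3']
  rfl

lemma generic_bot [IrreducibleSpace (Proj 𝒜)] (hp : ∃ m, 0 < m ∧ ∃ a ∈ 𝒜 m, a ≠ 0) (a : A)
    (ha : a ∈ (genericPoint (Proj 𝒜)).asHomogeneousIdeal) : a = 0 := by
  have h1 : (genericPoint (Proj 𝒜)) ⤳ (gen 𝒜 hp : Proj 𝒜) :=
    (genericPoint_spec (Proj 𝒜)).specializes trivial
  exact (ProjectiveSpectrum.le_iff_mem_closure (𝒜 := 𝒜) (genericPoint (Proj 𝒜))
    (gen 𝒜 hp)).2 h1.mem_closure ha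

/-- The function field of `Proj`, identified with `K`. -/
def ffEquiv (h : IsDh 𝒜 δ) (hp : ∃ m, 0 < m ∧ ∃ a ∈ 𝒜 m, a ≠ 0)
    [IrreducibleSpace (Proj 𝒜)] : (Proj 𝒜).functionField ≃+* K :=
  RingEquiv.ofBijective (st h (genericPoint (Proj 𝒜))) (by
    refine ⟨st_injective h _, ?_⟩
    intro k
    obtain ⟨m, a, ha, b, hb, hb0, e⟩ := h.surj k
    have h1 : k ∈ (st h (genericPoint (Proj 𝒜))).range := by
      rw [range_st]
      refine ⟨m, a, ha, b, hb, ?_, e⟩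
      intro hb'
      apply hb0
      rw [generic_bot hp b hb', map_zero]
    exact h1)

lemma ffEquiv_algebraMap (h : IsDh 𝒜 δ) (hp : ∃ m, 0 < m ∧ ∃ a ∈ 𝒜 m, a ≠ 0)
    [IrreducibleSpace (Proj 𝒜)] (x : Proj 𝒜) (t : (Proj 𝒜).presheaf.stalk x) :
    ffEquiv h hp (algebraMap _ (Proj 𝒜).functionField t) = st h x t := by
  obtain ⟨U, hxU, s, rfl⟩ := (Proj 𝒜).presheaf.exists_germ_eq t
  have : Nonempty U := ⟨⟨x, hxU⟩⟩
  rw [Scheme.algebraMap_germ_eq_germToFunctionField (Proj 𝒜) hxU s]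
  exact (st_germ_eq h U x _ hxU _ ((genericPoint_spec (Proj 𝒜)).specializes trivial) s).symm

lemma range_ff (h : IsDh 𝒜 δ) (hp : ∃ m, 0 < m ∧ ∃ a ∈ 𝒜 m, a ≠ 0)
    [IrreducibleSpace (Proj 𝒜)] (x : Proj 𝒜) (k : K) :
    (∃ t : (Proj 𝒜).presheaf.stalk x,
      ffEquiv h hp (algebraMap _ (Proj 𝒜).functionField t) = k) ↔
      ∃ m, ∃ a ∈ 𝒜 m, ∃ b ∈ 𝒜 m, b ∉ x.asHomogeneousIdeal ∧ k = δ a / δ b := by
  rw [← range_st h x k]
  constructor
  · rintro ⟨t, rfl⟩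
    exact ⟨t, (ffEquiv_algebraMap h hp x t).symm⟩
  · rintro ⟨t, rfl⟩
    exact ⟨t, ffEquiv_algebraMap h hp x t⟩

variable (𝒜)

/-- The structure morphism to `Spec ℂ`. -/
def str : Proj 𝒜 ⟶ Spec (.of ℂ) :=
  Proj.toSpecZero 𝒜 ≫ Spec.map (CommRingCat.ofHom (algebraMap ℂ (𝒜 0)))

lemma isProper_str (h0 : ∀ a ∈ 𝒜 0, ∃ c : ℂ, a = algebraMap ℂ A c)
    (hA : Algebra.FiniteType ℂ A) (hne : Nontrivial A) : IsProper (str 𝒜) := by
  have : IsScalarTower ℂ (𝒜 0) A := ⟨fun c a b => smul_mul_assoc c (a : A) b⟩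
  have : Algebra.FiniteType (𝒜 0) A := Algebra.FiniteType.of_restrictScalars_finiteType ℂ (𝒜 0) A
  have : Nontrivial (𝒜 0) := ⟨0, 1, fun e => zero_ne_one (congrArg Subtype.val e : (0 : A) = 1)⟩
  have hbij : Function.Bijective (algebraMap ℂ (𝒜 0)) := by
    refine ⟨(algebraMap ℂ (𝒜 0)).injective, ?_⟩
    rintro ⟨a, ha⟩
    obtain ⟨c, hc⟩ := h0 a ha
    exact ⟨c, Subtype.ext hc.symm⟩
  have hiso : IsIso (CommRingCat.ofHom (algebraMap ℂ (𝒜 0))) :=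
    (ConcreteCategory.isIso_iff_bijective _).2 hbij
  unfold str
  infer_instance

lemma topIso_aux (X : Scheme) (U : X.Opens) (e : U = ⊤) :
    U.topIso.inv ≫ Scheme.Hom.appTop (X.isoOfEq e).inv ≫ Scheme.Hom.appTop X.topIso.inv =
      X.presheaf.map (homOfLE e.ge).op := by
  subst e
  rw [Scheme.isoOfEq_rfl]
  have h : Scheme.Hom.appTop (X.topIso.inv ≫ (⊤ : X.Opens).ι) = 𝟙 _ := by
    rw [Scheme.toIso_inv_ι]; rfl
  have h2 : (⊤ : X.Opens).topIso.inv = (⊤ : X.Opens).ι.appTop := by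
    simp
    rfl
  rw [Scheme.Hom.comp_appTop] at h
  rw [h2]
  have h3 : Scheme.Hom.appTop (Iso.refl (((⊤ : X.Opens) : Scheme))).inv = 𝟙 _ := rfl
  have h4 : X.presheaf.map (homOfLE (le_refl (⊤ : X.Opens))).op = 𝟙 _ :=
    X.presheaf.map_id _
  rw [h3, Category.id_comp, h]
  exact h4.symm

lemma toSpecZero_appTop : (Scheme.ΓSpecIso (.of (𝒜 0))).inv ≫ (Proj.toSpecZero 𝒜).appTop =
    CommRingCat.ofHom (HomogeneousLocalization.fromZeroRingHom 𝒜 _) ≫ Proj.awayToSection 𝒜 1 ≫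
      (Proj 𝒜).presheaf.map (homOfLE (Proj.basicOpen_one 𝒜).ge).op := by
  unfold Proj.toSpecZero
  simp only [Scheme.Hom.comp_appTop, Category.assoc]
  rw [← Category.assoc, ← Scheme.ΓSpecIso_inv_naturality, Category.assoc]
  congr 1
  have h1 : Scheme.Hom.appTop (Proj.basicOpenToSpec 𝒜 1) =
    (Scheme.ΓSpecIso (CommRingCat.of (HomogeneousLocalization.Away 𝒜 1))).hom ≫
      Proj.awayToSection 𝒜 1 ≫ (Proj.basicOpen 𝒜 1).topIso.inv :=
    Proj.basicOpenToSpec_app_top 𝒜 1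
  rw [h1]
  simp only [Category.assoc, Iso.inv_hom_id_assoc]
  congr 1
  exact topIso_aux _ _ _

lemma str_appTop : (Scheme.ΓSpecIso (.of ℂ)).inv ≫ (str 𝒜).appTop =
    CommRingCat.ofHom (algebraMap ℂ (𝒜 0)) ≫
    CommRingCat.ofHom (HomogeneousLocalization.fromZeroRingHom 𝒜 _) ≫ Proj.awayToSection 𝒜 1 ≫
      (Proj 𝒜).presheaf.map (homOfLE (Proj.basicOpen_one 𝒜).ge).op := by
  rw [← toSpecZero_appTop]
  unfold str
  rw [Scheme.Hom.comp_appTop, ← Category.assoc, ← Scheme.ΓSpecIso_inv_naturality, Category.assoc]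

variable {𝒜}

/-- Constants of `ℂ`, pulled back by the structure morphism, are constants of `K`. -/
lemma st_const (h : IsDh 𝒜 δ) (x : Proj 𝒜) (c : ℂ) :
    st h x ((Proj 𝒜).presheaf.germ ⊤ x trivial
      ((str 𝒜).appTop ((Scheme.ΓSpecIso (.of ℂ)).inv c))) = algebraMap ℂ K c := by
  have e1 : (str 𝒜).appTop ((Scheme.ΓSpecIso (.of ℂ)).inv c) =
      (Proj 𝒜).presheaf.map (homOfLE (Proj.basicOpen_one 𝒜).ge).op
        (Proj.awayToSection 𝒜 1 (HomogeneousLocalization.fromZeroRingHom 𝒜 _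
          (algebraMap ℂ (𝒜 0) c))) :=
    congrArg (fun f => (ConcreteCategory.hom f) c) (str_appTop 𝒜)
  have hx1 : x ∈ Proj.basicOpen 𝒜 1 := by rw [Proj.basicOpen_one]; trivial
  have e2 : st h x ((Proj 𝒜).presheaf.germ ⊤ x trivial
      ((str 𝒜).appTop ((Scheme.ΓSpecIso (.of ℂ)).inv c))) =
      frac h x.asHomogeneousIdeal.toIdeal.primeCompl (primeCompl_ne_zero 𝒜 x)
        (((str 𝒜).appTop ((Scheme.ΓSpecIso (.of ℂ)).inv c)).1 ⟨x, trivial⟩) :=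
    congrArg _ (stalkToFiberRingHom_germ 𝒜 ⊤ x trivial _)
  rw [e2, e1]
  show δ ((algebraMap ℂ (𝒜 0) c : 𝒜 0) : A) / δ (1 : A) = algebraMap ℂ K c
  rw [map_one, div_one]
  exact δ.commutes c

end

end Pool.Agent.Lib.MPa7508c.PRJ
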