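import Mathlib

/-!
The quotient of a graded algebra by a homogeneous ideal is graded.
-/

set_option autoImplicit false

open DirectSum

namespace Pool.Agent.Lib.MPa7508c.PRJ

noncomputable section

variable {P : Type} [CommRing P] [Algebra ℂ P] (𝒢 : ℕ → Submodule ℂ P) (I : Ideal P)

/-- The grading of the quotient. -/
def qg (m : ℕ) : Submodule ℂ (P ⧸ I) := (𝒢 m).map (Ideal.Quotient.mkₐ ℂ I).toLinearMap

lemma mem_qg {m : ℕ} {y : P ⧸ I} : y ∈ qg 𝒢 I m ↔ ∃ a ∈ 𝒢 m, Ideal.Quotient.mk I a = y := by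
  rfl

instance qgMonoid [SetLike.GradedMonoid 𝒢] : SetLike.GradedMonoid (qg 𝒢 I) where
  one_mem := ⟨1, SetLike.GradedOne.one_mem, rfl⟩
  mul_mem := by
    rintro i j _ _ ⟨a, ha, rfl⟩ ⟨b, hb, rfl⟩
    exact ⟨a * b, SetLike.GradedMul.mul_mem ha hb, map_mul (Ideal.Quotient.mk I) a b⟩

/-- The graded pieces of the quotient map. -/
def qpiece (m : ℕ) : 𝒢 m →ₗ[ℂ] qg 𝒢 I m where
  toFun a := ⟨Ideal.Quotient.mk I a, a, a.2, rfl⟩
  map_add' _ _ := Subtype.ext (map_add _ _ _)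
  map_smul' _ _ := Subtype.ext rfl

variable [GradedAlgebra 𝒢]

/-- Decompose a representative. -/
def qdec (a : P) : ⨁ m, qg 𝒢 I m := DirectSum.lmap (qpiece 𝒢 I) (decompose 𝒢 a)

lemma qdec_coe (a : P) : DirectSum.coeAddMonoidHom (qg 𝒢 I) (qdec 𝒢 I a) =
    Ideal.Quotient.mk I a := by
  have h : (DirectSum.coeLinearMap (qg 𝒢 I)) ∘ₗ (DirectSum.lmap (qpiece 𝒢 I)) =
      (Ideal.Quotient.mkₐ ℂ I).toLinearMap ∘ₗ (DirectSum.coeLinearMap 𝒢) := by
    apply DirectSum.linearMap_ext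
    intro i
    ext x
    simp [qpiece]
  have h2 := LinearMap.congr_fun h (decompose 𝒢 a)
  have h3 : (DirectSum.coeLinearMap 𝒢) (decompose 𝒢 a) = a :=
    DirectSum.Decomposition.left_inv a
  simp only [LinearMap.comp_apply] at h2
  rw [h3] at h2
  exact h2

lemma qdec_congr (hI : I.IsHomogeneous 𝒢) (a b : P)
    (h : Ideal.Quotient.mk I a = Ideal.Quotient.mk I b) : qdec 𝒢 I a = qdec 𝒢 I b := by
  rw [Ideal.Quotient.eq] at h
  refine DFinsupp.ext fun m => ?_
  have h1 := hI m h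
  apply Subtype.ext
  show Ideal.Quotient.mk I (decompose 𝒢 a m : P) = Ideal.Quotient.mk I (decompose 𝒢 b m : P)
  rw [Ideal.Quotient.eq]
  have h2 : ((decompose 𝒢 (a - b)) m : P) = (decompose 𝒢 a m : P) - (decompose 𝒢 b m : P) := by
    rw [decompose_sub]
    rfl
  rw [← h2]
  exact h1

/-- The quotient of a graded algebra by a homogeneous ideal is graded. -/
@[reducible] def qgAlgebra (hI : I.IsHomogeneous 𝒢) : GradedAlgebra (qg 𝒢 I) where
  toGradedMonoid := qgMonoid 𝒢 I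
  decompose' y := qdec 𝒢 I (Ideal.Quotient.mk_surjective y).choose
  left_inv := by
    intro y
    show DirectSum.coeAddMonoidHom (qg 𝒢 I) (qdec 𝒢 I _) = y
    rw [qdec_coe, (Ideal.Quotient.mk_surjective y).choose_spec]
  right_inv := by
    intro z
    have hz : ∃ p : P, qdec 𝒢 I p = z := by
      induction z using DirectSum.induction_on with
      | zero => exact ⟨0, by simp [qdec]⟩
      | of i x =>
        obtain ⟨y, a, ha, rfl⟩ := x
        refine ⟨a, ?_⟩
        unfold qdec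
        rw [decompose_of_mem 𝒢 ha, DirectSum.lmap_of]
        rfl
      | add x y hx hy =>
        obtain ⟨p, rfl⟩ := hx
        obtain ⟨q, rfl⟩ := hy
        exact ⟨p + q, by simp [qdec, decompose_add]⟩
    obtain ⟨p, rfl⟩ := hz
    rw [qdec_coe]
    exact qdec_congr 𝒢 I hI _ _ (Ideal.Quotient.mk_surjective (Ideal.Quotient.mk I p)).choose_spec

end

end Pool.Agent.Lib.MPa7508c.PRJ
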