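import Pool.Agent.Lib.MP_a7508c_ag.PRJ
import Pool.Agent.Lib.MP_a7508c_ag.PRJ2

/-!
Weighted projective varieties as Mathlib schemes: the variety with homogeneous coordinates
`x i` (one of them equal to `1` and of weight `1`) in a field `K` generated by them.
-/

set_option autoImplicit false

open AlgebraicGeometry CategoryTheory TopologicalSpace MvPolynomial

namespace Pool.Agent.Lib.MPa7508c.PRJ

noncomputable section

variable {τ : Type} (w : τ → ℕ) {K : Type} [Field K] [Algebra ℂ K] (x : τ → K)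

/-- The map `X i ↦ x i * T ^ w i`. -/
def Phi : MvPolynomial τ ℂ →ₐ[ℂ] Polynomial K :=
  aeval (fun i => Polynomial.C (x i) * Polynomial.X ^ w i)

lemma Phi_monomial (d : τ →₀ ℕ) (r : ℂ) :
    Phi w x (monomial d r) = Polynomial.C (aeval x (monomial d r)) *
      Polynomial.X ^ (Finsupp.weight w d) := by
  unfold Phi
  rw [aeval_monomial, aeval_monomial, Finsupp.weight_apply]
  simp only [Finsupp.sum, Finsupp.prod, map_mul, mul_pow, Finset.prod_mul_distrib, smul_eq_mul,
    ← pow_mul, map_prod, map_pow, Finset.prod_pow_eq_pow_sum]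
  rw [show (algebraMap ℂ (Polynomial K)) r = Polynomial.C (algebraMap ℂ K r) from rfl]
  rw [mul_assoc]
  congr 3
  exact Finset.sum_congr rfl fun i _ => mul_comm _ _

lemma Phi_hom {p : MvPolynomial τ ℂ} {m : ℕ} (hp : IsWeightedHomogeneous w p m) :
    Phi w x p = Polynomial.C (aeval x p) * Polynomial.X ^ m := by
  conv_lhs => rw [p.as_sum]
  conv_rhs => rw [p.as_sum]
  rw [map_sum, map_sum, map_sum, Finset.sum_mul]
  refine Finset.sum_congr rfl fun d hd => ?_
  rw [Phi_monomial, hp (mem_support_iff.1 hd)]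

lemma Phi_eval (p : MvPolynomial τ ℂ) : Polynomial.eval 1 (Phi w x p) = aeval x p := by
  induction p using MvPolynomial.induction_on with
  | C a =>
    rw [Phi, aeval_C, aeval_C]
    rw [show (algebraMap ℂ (Polynomial K)) a = Polynomial.C (algebraMap ℂ K a) from rfl]
    simp
  | add p q hp hq => rw [map_add, Polynomial.eval_add, hp, hq, map_add]
  | mul_X p i hp =>
    rw [map_mul, Polynomial.eval_mul, hp, map_mul]
    congr 1
    simp [Phi]

lemma Phi_coeff (p : MvPolynomial τ ℂ) (m : ℕ) :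
    (Phi w x p).coeff m = aeval x (weightedHomogeneousComponent w m p) := by
  classical
  have key : ∀ (d : τ →₀ ℕ) (r : ℂ), (Phi w x (monomial d r)).coeff m =
      aeval x (weightedHomogeneousComponent w m (monomial d r)) := by
    intro d r
    rw [Phi_monomial, Polynomial.coeff_C_mul, Polynomial.coeff_X_pow]
    rw [weightedHomogeneousComponent_of_mem ((mem_weightedHomogeneousSubmodule ℂ w _ _).2
        (isWeightedHomogeneous_monomial w d r rfl))]
    by_cases hm : m = Finsupp.weight w d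
    · simp [hm]
    · simp [hm]
  conv_lhs => rw [p.as_sum]
  conv_rhs => rw [p.as_sum]
  rw [map_sum, map_sum, map_sum, Polynomial.finsetSum_coeff]
  exact Finset.sum_congr rfl fun d _ => key d _

/-- The homogeneous ideal of the variety. -/
def vI : Ideal (MvPolynomial τ ℂ) := RingHom.ker (Phi w x)

instance : (vI w x).IsPrime := RingHom.ker_isPrime _

lemma mem_vI_of_hom {p : MvPolynomial τ ℂ} {m : ℕ} (hp : IsWeightedHomogeneous w p m) :
    p ∈ vI w x ↔ aeval x p = 0 := by
  unfold vI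
  rw [RingHom.mem_ker, Phi_hom w x hp]
  constructor
  · intro h
    have h1 := congrArg (fun f => Polynomial.coeff f m) h
    simp only [Polynomial.coeff_zero, Polynomial.coeff_C_mul, Polynomial.coeff_X_pow,
      if_true, mul_one] at h1
    exact h1
  · intro h
    rw [h]; simp

lemma aeval_eq_zero_of_mem_vI {p : MvPolynomial τ ℂ} (hp : p ∈ vI w x) : aeval x p = 0 := by
  rw [← Phi_eval w x p]
  have : Phi w x p = 0 := hp
  rw [this]; simp

attribute [local instance] MvPolynomial.weightedGradedAlgebra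

lemma vI_homogeneous : (vI w x).IsHomogeneous (weightedHomogeneousSubmodule ℂ w) := by
  intro m p hp
  have hp0 : Phi w x p = 0 := hp
  have e : ((DirectSum.decompose (weightedHomogeneousSubmodule ℂ w) p) m : MvPolynomial τ ℂ) =
      weightedHomogeneousComponent w m p := weightedDecomposition.decompose'_apply ℂ w p m
  rw [e, mem_vI_of_hom w x (weightedHomogeneousComponent_isWeightedHomogeneous (w := w) m p),
    ← Phi_coeff, hp0, Polynomial.coeff_zero]

/-- The homogeneous coordinate ring. -/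
abbrev vA : Type := MvPolynomial τ ℂ ⧸ vI w x

/-- Its grading. -/
abbrev vG : ℕ → Submodule ℂ (vA w x) := qg (weightedHomogeneousSubmodule ℂ w) (vI w x)

instance vGraded : GradedAlgebra (vG w x) :=
  qgAlgebra (weightedHomogeneousSubmodule ℂ w) (vI w x) (vI_homogeneous w x)

/-- The dehomogenisation. -/
def vδ : vA w x →ₐ[ℂ] K :=
  Ideal.Quotient.liftₐ (vI w x) (aeval x) (fun _ hp => aeval_eq_zero_of_mem_vI w x hp)

lemma vδ_mk (p : MvPolynomial τ ℂ) : vδ w x (Ideal.Quotient.mk _ p) = aeval x p := rfl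

lemma homogenizeR {B : Type} [CommRing B] [Algebra ℂ B] (y : τ → B) {o : τ} (ho : w o = 1)
    (hxo : y o = 1) (u : MvPolynomial τ ℂ) :
    ∃ m₀ : ℕ, ∀ m : ℕ, m₀ ≤ m → ∃ p : MvPolynomial τ ℂ, IsWeightedHomogeneous w p m ∧
      aeval y p = aeval y u := by
  induction u using MvPolynomial.induction_on with
  | C a =>
    refine ⟨0, fun m _ => ⟨C a * X o ^ m, ?_, ?_⟩⟩
    · have h1 := (isWeightedHomogeneous_C w a).mul ((isWeightedHomogeneous_X ℂ w o).pow m)
      simpa [ho] using h1
    · rw [map_mul, map_pow, aeval_X, hxo, one_pow, mul_one]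
  | add p q hp hq =>
    obtain ⟨m₁, h₁⟩ := hp
    obtain ⟨m₂, h₂⟩ := hq
    refine ⟨max m₁ m₂, fun m hm => ?_⟩
    obtain ⟨p', hp', e₁⟩ := h₁ m (le_trans (le_max_left _ _) hm)
    obtain ⟨q', hq', e₂⟩ := h₂ m (le_trans (le_max_right _ _) hm)
    exact ⟨p' + q', hp'.add hq', by rw [map_add, map_add, e₁, e₂]⟩
  | mul_X p i hp =>
    obtain ⟨m₁, h₁⟩ := hp
    refine ⟨m₁ + w i, fun m hm => ?_⟩
    obtain ⟨p', hp', e₁⟩ := h₁ (m - w i) (by omega)
    refine ⟨p' * X i, ?_, by rw [map_mul, map_mul, e₁]⟩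
    have h1 := hp'.mul (isWeightedHomogeneous_X ℂ w i)
    rwa [Nat.sub_add_cancel (by omega)] at h1

lemma homogenize {o : τ} (ho : w o = 1) (hxo : x o = 1) (u : MvPolynomial τ ℂ) :
    ∃ m₀ : ℕ, ∀ m : ℕ, m₀ ≤ m → ∃ p : MvPolynomial τ ℂ, IsWeightedHomogeneous w p m ∧
      aeval x p = aeval x u := homogenizeR w x ho hxo u

lemma isDh {o : τ} (ho : w o = 1) (hxo : x o = 1)
    (hgen : ∀ k : K, ∃ u v : MvPolynomial τ ℂ, aeval x v ≠ 0 ∧ k = aeval x u / aeval x v) :
    IsDh (vG w x) (vδ w x) where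
  inj := by
    rintro m _ ⟨p, hp, rfl⟩ h
    have h1 : aeval x p = 0 := h
    have h2 := (mem_vI_of_hom w x ((mem_weightedHomogeneousSubmodule ℂ w _ _).1 hp)).2 h1
    exact Ideal.Quotient.eq_zero_iff_mem.2 h2
  surj := by
    intro k
    obtain ⟨u, v, hv, e⟩ := hgen k
    obtain ⟨m₁, h₁⟩ := homogenize w x ho hxo u
    obtain ⟨m₂, h₂⟩ := homogenize w x ho hxo v
    obtain ⟨p, hp, e₁⟩ := h₁ (max m₁ m₂) (le_max_left _ _)
    obtain ⟨q, hq, e₂⟩ := h₂ (max m₁ m₂) (le_max_right _ _)
    refine ⟨max m₁ m₂, Ideal.Quotient.mk _ p, ⟨p, hp, rfl⟩, Ideal.Quotient.mk _ q, ⟨q, hq, rfl⟩,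
      ?_, ?_⟩
    · rw [vδ_mk, e₂]; exact hv
    · rw [vδ_mk, vδ_mk, e₁, e₂]; exact e

lemma hpos {o : τ} (ho : w o = 1) (hxo : x o = 1) :
    ∃ m, 0 < m ∧ ∃ a ∈ vG w x m, a ≠ 0 := by
  refine ⟨1, one_pos, Ideal.Quotient.mk _ (X o), ⟨X o, ?_, rfl⟩, ?_⟩
  · have h := isWeightedHomogeneous_X ℂ w o
    rw [ho] at h
    exact h
  · intro h
    have h1 := congrArg (vδ w x) h
    rw [vδ_mk, aeval_X, hxo, map_zero] at h1
    exact one_ne_zero h1

lemma deg_zero (hw : ∀ i, w i ≠ 0) (a : vA w x) (ha : a ∈ vG w x 0) :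
    ∃ c : ℂ, a = algebraMap ℂ _ c := by
  obtain ⟨p, hp, rfl⟩ := ha
  have hp' : IsWeightedHomogeneous w p 0 := (mem_weightedHomogeneousSubmodule ℂ w _ _).1 hp
  refine ⟨coeff 0 p, ?_⟩
  classical
  have e : p = C (coeff 0 p) := by
    ext d
    rw [coeff_C]
    split_ifs with hd
    · rw [hd]
    · by_contra hne
      have h1 := hp' hne
      apply hd
      rw [Finsupp.weight_apply] at h1
      symm
      ext i
      by_contra hi
      have hi' : i ∈ d.support := by simpa using hi
      have h2 := (Finset.sum_eq_zero_iff.1 h1) i hi'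
      simp only [smul_eq_mul, mul_eq_zero] at h2
      rcases h2 with h2 | h2
      · exact hi (by simpa using h2)
      · exact hw i h2
  conv_lhs => rw [e]
  rfl

lemma decompose_mk (p : MvPolynomial τ ℂ) (m : ℕ) :
    ((DirectSum.decompose (vG w x) (Ideal.Quotient.mk (vI w x) p)) m : vA w x) =
      Ideal.Quotient.mk (vI w x) (weightedHomogeneousComponent w m p) := by
  have h1 : DirectSum.decompose (vG w x) (Ideal.Quotient.mk (vI w x) p) =
      qdec (weightedHomogeneousSubmodule ℂ w) (vI w x) p :=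
    qdec_congr _ _ (vI_homogeneous w x) _ _
      (Ideal.Quotient.mk_surjective (Ideal.Quotient.mk (vI w x) p)).choose_spec
  rw [h1]
  show Ideal.Quotient.mk (vI w x)
    ((DirectSum.decompose (weightedHomogeneousSubmodule ℂ w) p) m : MvPolynomial τ ℂ) = _
  congr 1
  exact weightedDecomposition.decompose'_apply ℂ w p m

/-- The local ring of a homogeneous prime ideal, as a subset of `K`. -/
def loc (pp : Ideal (MvPolynomial τ ℂ)) : Set K :=
  {k | ∃ m : ℕ, ∃ a b : MvPolynomial τ ℂ, IsWeightedHomogeneous w a m ∧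
    IsWeightedHomogeneous w b m ∧ b ∉ pp ∧ k = aeval x a / aeval x b}

/-- Homogeneous primes containing the ideal of the variety and not all the variables. -/
structure IsPt (pp : Ideal (MvPolynomial τ ℂ)) : Prop where
  prime : pp.IsPrime
  hom : ∀ p ∈ pp, ∀ m, weightedHomogeneousComponent w m p ∈ pp
  le : vI w x ≤ pp
  ne : ∃ i, X i ∉ pp

lemma mem_of_pos (hw : ∀ i, w i ≠ 0) (J : Ideal (MvPolynomial τ ℂ)) (hJ : ∀ i, X i ∈ J)
    {p : MvPolynomial τ ℂ} {m : ℕ} (hp : IsWeightedHomogeneous w p m) (hm : m ≠ 0) : p ∈ J := by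
  classical
  rw [p.as_sum]
  refine Ideal.sum_mem _ fun d hd => ?_
  have h1 := hp (mem_support_iff.1 hd)
  have hd0 : d ≠ 0 := by
    rintro rfl
    apply hm
    rw [← h1]
    simp
  obtain ⟨i, hi⟩ := Finsupp.ne_iff.1 hd0
  have hd' : d - Finsupp.single i 1 + Finsupp.single i 1 = d :=
    tsub_add_cancel_of_le (Finsupp.single_le_iff.2 (Nat.one_le_iff_ne_zero.2 hi))
  have h2 : monomial d (coeff d p) = monomial (d - Finsupp.single i 1) (coeff d p) * X i := by
    rw [X, monomial_mul, mul_one, hd']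
  rw [h2]
  exact Ideal.mul_mem_left _ _ (hJ i)

/-- The point of `Proj` of a homogeneous prime ideal. -/
def toPt (hw : ∀ i, w i ≠ 0) (pp : Ideal (MvPolynomial τ ℂ)) (h : IsPt w x pp) :
    Proj (vG w x) where
  asHomogeneousIdeal := ⟨pp.map (Ideal.Quotient.mk (vI w x)), by
    rintro m z hz
    obtain ⟨p, hp, rfl⟩ := (Ideal.mem_map_iff_of_surjective _ Ideal.Quotient.mk_surjective).1 hz
    rw [decompose_mk]
    exact Ideal.mem_map_of_mem _ (h.hom p hp m)⟩
  isPrime := by
    have := h.prime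
    exact Ideal.map_isPrime_of_surjective Ideal.Quotient.mk_surjective
      (by rw [Ideal.mk_ker]; exact h.le)
  not_irrelevant_le := by
    intro hle
    obtain ⟨i, hi⟩ := h.ne
    apply hi
    have h1 : Ideal.Quotient.mk (vI w x) (X i) ∈ HomogeneousIdeal.irrelevant (vG w x) := by
      rw [HomogeneousIdeal.mem_irrelevant_iff, GradedRing.proj_apply]
      exact DirectSum.decompose_of_mem_ne (vG w x)
        (⟨X i, isWeightedHomogeneous_X ℂ w i, rfl⟩ : Ideal.Quotient.mk (vI w x) (X i) ∈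
          vG w x (w i)) (hw i)
    have h2 : Ideal.Quotient.mk (vI w x) (X i) ∈ pp.map (Ideal.Quotient.mk (vI w x)) := hle h1
    obtain ⟨p, hp, e⟩ := (Ideal.mem_map_iff_of_surjective _ Ideal.Quotient.mk_surjective).1 h2
    rw [Ideal.Quotient.eq] at e
    have h3 := Ideal.sub_mem _ hp (h.le e)
    rwa [sub_sub_cancel] at h3

lemma mem_toPt (hw : ∀ i, w i ≠ 0) (pp : Ideal (MvPolynomial τ ℂ)) (h : IsPt w x pp)
    (p : MvPolynomial τ ℂ) :
    Ideal.Quotient.mk (vI w x) p ∈ (toPt w x hw pp h).asHomogeneousIdeal ↔ p ∈ pp := by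
  constructor
  · intro h2
    have h2' : Ideal.Quotient.mk (vI w x) p ∈ pp.map (Ideal.Quotient.mk (vI w x)) := h2
    obtain ⟨q, hq, e⟩ := (Ideal.mem_map_iff_of_surjective _ Ideal.Quotient.mk_surjective).1 h2'
    rw [Ideal.Quotient.eq] at e
    have h3 := Ideal.sub_mem _ hq (h.le e)
    rwa [sub_sub_cancel] at h3
  · intro h2
    exact Ideal.mem_map_of_mem _ h2

/-- The homogeneous prime of a point of `Proj`. -/
def ofPt (y : Proj (vG w x)) : Ideal (MvPolynomial τ ℂ) :=
  y.asHomogeneousIdeal.toIdeal.comap (Ideal.Quotient.mk (vI w x))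

lemma isPt_ofPt (hw : ∀ i, w i ≠ 0) (y : Proj (vG w x)) : IsPt w x (ofPt w x y) where
  prime := by
    have := y.isPrime
    exact Ideal.comap_isPrime _ _
  hom := by
    intro p hp m
    show Ideal.Quotient.mk (vI w x) (weightedHomogeneousComponent w m p) ∈
      y.asHomogeneousIdeal.toIdeal
    rw [← decompose_mk]
    exact y.asHomogeneousIdeal.isHomogeneous m hp
  le := by
    intro p hp
    show Ideal.Quotient.mk (vI w x) p ∈ y.asHomogeneousIdeal.toIdeal
    rw [Ideal.Quotient.eq_zero_iff_mem.2 hp]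
    exact zero_mem _
  ne := by
    classical
    by_contra hne
    push Not at hne
    apply y.not_irrelevant_le
    intro a ha
    obtain ⟨p, rfl⟩ := Ideal.Quotient.mk_surjective a
    rw [← DirectSum.sum_support_decompose (vG w x) (Ideal.Quotient.mk (vI w x) p)]
    refine Ideal.sum_mem _ fun m _ => ?_
    rw [decompose_mk]
    by_cases hm : m = 0
    · have h1 := (HomogeneousIdeal.mem_irrelevant_iff _ _).1 ha
      rw [GradedRing.proj_apply, decompose_mk] at h1
      rw [hm, h1]
      exact zero_mem _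
    · exact mem_of_pos w hw (ofPt w x y) hne
        (weightedHomogeneousComponent_isWeightedHomogeneous (w := w) m p) hm

lemma range_loc {o : τ} (ho : w o = 1) (hxo : x o = 1)
    (hgen : ∀ k : K, ∃ u v : MvPolynomial τ ℂ, aeval x v ≠ 0 ∧ k = aeval x u / aeval x v)
    [IrreducibleSpace (Proj (vG w x))] (y : Proj (vG w x)) :
    {k | ∃ t : (Proj (vG w x)).presheaf.stalk y,
      ffEquiv (isDh w x ho hxo hgen) (hpos w x ho hxo)
        (algebraMap _ (Proj (vG w x)).functionField t) = k} = loc w x (ofPt w x y) := by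
  ext k
  show (∃ t : (Proj (vG w x)).presheaf.stalk y, _) ↔ _
  rw [range_ff]
  constructor
  · rintro ⟨m, _, ⟨a, ha, rfl⟩, _, ⟨b, hb, rfl⟩, hby, e⟩
    exact ⟨m, a, b, ha, hb, hby, e⟩
  · rintro ⟨m, a, b, ha, hb, hby, e⟩
    exact ⟨m, _, ⟨a, ha, rfl⟩, _, ⟨b, hb, rfl⟩, hby, e⟩

/-- MAIN THEOREM (PRJ). Let `w i > 0` be weights, `K` a field generated over `ℂ` by elements `x i`,
one of which, of weight `1`, is equal to `1`. There is an integral scheme `X`, proper over
`Spec ℂ`, with function field `K` over `ℂ`, whose local rings are exactly the rings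
`{P(x)/Q(x) : P, Q homogeneous of the same degree, Q ∉ pp}`, `pp` a homogeneous prime ideal
containing all homogeneous relations between the `x i` and not all the variables. -/
theorem prj [Finite τ] (hw : ∀ i, w i ≠ 0) {o : τ} (ho : w o = 1) (hxo : x o = 1)
    (hgen : ∀ k : K, ∃ u v : MvPolynomial τ ℂ, aeval x v ≠ 0 ∧ k = aeval x u / aeval x v) :
    ∃ (X : Scheme.{0}) (_ : IsIntegral X) (π : X ⟶ Spec (.of ℂ)) (_ : IsProper π)
      (e : X.functionField ≃+* K),
      (∀ c : ℂ, e (X.presheaf.germ ⊤ (genericPoint X) trivial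
        (π.appTop ((Scheme.ΓSpecIso (.of ℂ)).inv c))) = algebraMap ℂ K c) ∧
      (∀ y : X, ∃ pp, IsPt w x pp ∧
        {k | ∃ t : X.presheaf.stalk y, e (algebraMap _ X.functionField t) = k} = loc w x pp) ∧
      (∀ pp, IsPt w x pp → ∃ y : X,
        {k | ∃ t : X.presheaf.stalk y, e (algebraMap _ X.functionField t) = k} = loc w x pp) := by
  have h := isDh w x ho hxo hgen
  have hp := hpos w x ho hxo
  have hint : IsIntegral (Proj (vG w x)) := isIntegral h hp
  have hft : Algebra.FiniteType ℂ (vA w x) := inferInstance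
  refine ⟨Proj (vG w x), hint, str (vG w x), isProper_str (vG w x) (deg_zero w x hw) hft
    inferInstance, ffEquiv h hp, ?_, ?_, ?_⟩
  · intro c
    exact st_const h _ c
  · intro y
    exact ⟨ofPt w x y, isPt_ofPt w x hw y, range_loc w x ho hxo hgen y⟩
  · intro pp hpp
    refine ⟨toPt w x hw pp hpp, ?_⟩
    rw [range_loc w x ho hxo hgen]
    congr 1
    ext p
    exact mem_toPt w x hw pp hpp p

end

end Pool.Agent.Lib.MPa7508c.PRJ
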