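import Pool.Agent.Lib.MP_a7508c_ag.Defs

/-!
# Statements of the modules, stage 1: valuations and forms (group V), Fermat rings (group A)

Proofs: `/team-store/MP_a7508c_ag_PROOF.md`.  Every module file `Xyz.lean` proves
`theorem specXYZ (h : SpecU) ... : SpecXYZ`, own lemmas in the namespace `...MPa7508c.XyzM`.
-/

set_option autoImplicit false

namespace Pool.Agent.Lib.MPa7508c

open MvPolynomial

noncomputable section

/-! ## Group V: valuations and differential forms -/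

/-- the laws of the order function -/
structure OrdLaws {K : Type} [Field K] (v : ValuationSubring K) : Prop where
  zero : ord v 0 = 0
  mul : ∀ x y : K, x ≠ 0 → y ≠ 0 → ord v (x * y) = ord v x + ord v y
  nonneg : ∀ x : K, x ≠ 0 → (0 ≤ ord v x ↔ x ∈ v)
  add : ∀ x y : K, x ≠ 0 → y ≠ 0 → x + y ≠ 0 → min (ord v x) (ord v y) ≤ ord v (x + y)
  unif : ∃ t : K, t ∈ v ∧ t ≠ 0 ∧ ord v t = 1
  irr : ∀ p : v, Irreducible p ↔ (p : K) ≠ 0 ∧ ord v (p : K) = 1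

/-- ORD. -/
def SpecORD : Prop := ∀ (K : Type) [Field K] (v : ValuationSubring K),
  IsDiscreteValuationRing v → OrdLaws v

/-- a log frame at `v`: a uniformiser `c 0`, a lift `c 1, ..., c m` of a transcendence basis of the
residue field, and the dual basis `∂` of the derivations of `K`, which preserves `v` -/
structure LogFrame {K : Type} [Field K] [Algebra ℂ K] (m : ℕ) (v : ValuationSubring K)
    (c : Fin (m + 1) → K) (D : Fin (m + 1) → Derivation ℂ K K) : Prop where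
  mem : ∀ i, c i ∈ v
  unif : c 0 ≠ 0 ∧ ord v (c 0) = 1
  dual : ∀ i j, D i (c j) = if i = j then 1 else 0
  reg : ∀ i, ∀ z ∈ v, D i z ∈ v
  span : ∀ (δ : Derivation ℂ K K) (z : K), δ z = ∑ i, δ (c i) * D i z
  indep : ∀ P : MvPolynomial (Fin m) ℂ, P ≠ 0 →
    aeval (fun i : Fin m => c i.succ) P ≠ 0 ∧ (aeval (fun i : Fin m => c i.succ) P)⁻¹ ∈ v

/-- LOGD. Existence of log frames. -/
def SpecLOGD : Prop := ∀ (K : Type) [Field K] [Algebra ℂ K] (m : ℕ) (v : ValuationSubring K),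
  Algebra.trdeg ℂ K = m + 1 → (∃ s : Finset K, IntermediateField.adjoin ℂ (s : Set K) = ⊤) →
  IsDivisorial m v → ∃ c D, LogFrame m v c D

/-- OFORM. The order of a form is the order of its value on the frame. -/
def SpecOFORM : Prop := ∀ (K : Type) [Field K] [Algebra ℂ K] (m : ℕ) (v : ValuationSubring K)
  (c : Fin (m + 1) → K) (D : Fin (m + 1) → Derivation ℂ K K),
  IsDiscreteValuationRing v → LogFrame m v c D →
  ∀ η : TopForm K (m + 1), η ≠ 0 → η D ≠ 0 ∧ ordForm v η = ord v (η D)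

/-- LOGJ. `δ` is dual to the coordinates `z`. -/
def SpecLOGJ : Prop := ∀ (K : Type) [Field K] [Algebra ℂ K] (m : ℕ) (v : ValuationSubring K)
  (c : Fin (m + 1) → K) (D : Fin (m + 1) → Derivation ℂ K K),
  IsDiscreteValuationRing v → LogFrame m v c D →
  ∀ (z : Fin (m + 1) → K) (δ : Fin (m + 1) → Derivation ℂ K K), (∀ i, z i ≠ 0) →
    (∀ i j, δ i (z j) = if i = j then 1 else 0) →
    dform z ≠ 0 ∧ ∑ i, ord v (z i) ≤ ordForm v (dform z) + 1 ∧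
    ∀ (p : K) (i : Fin (m + 1)), δ i p ≠ 0 →
      ord v p - ord v (z i) - (ordForm v (dform z) + 1 - ∑ k, ord v (z k)) ≤ ord v (δ i p)

/-- RESD. If the residues of the `z k`, `k ≠ i`, are algebraically dependent, one gains `1`. -/
def SpecRESD : Prop := ∀ (K : Type) [Field K] [Algebra ℂ K] (m : ℕ) (v : ValuationSubring K)
  (c : Fin (m + 1) → K) (D : Fin (m + 1) → Derivation ℂ K K),
  IsDiscreteValuationRing v → (∀ a : ℂ, algebraMap ℂ K a ∈ v) → LogFrame m v c D →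
  ∀ (z : Fin (m + 1) → K) (δ : Fin (m + 1) → Derivation ℂ K K), (∀ i, z i ≠ 0) → (∀ i, z i ∈ v) →
    (∀ i j, δ i (z j) = if i = j then 1 else 0) →
    ∀ (i : Fin (m + 1)) (P : MvPolynomial (Fin (m + 1)) ℂ), P ≠ 0 → i ∉ P.vars →
      ¬ (aeval z P ≠ 0 ∧ (aeval z P)⁻¹ ∈ v) →
      ∀ p : K, δ i p ≠ 0 → ord v p - ordForm v (dform z) ≤ ord v (δ i p)

/-! ## Group A: Fermat rings -/

/-- IRR. Irreducibility of Fermat polynomials in at least three variables. -/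
def SpecIRR : Prop := ∀ (σ : Type) [Fintype σ] (b : σ → ℕ), 3 ≤ Fintype.card σ →
  (∀ i, 2 ≤ b i) → Prime (fp σ b)

/-- the laws of the grading of a Fermat ring -/
structure GrLaws {σ : Type} [Fintype σ] (b w : σ → ℕ) : Prop where
  dec : ∀ r : FR σ b, ∃ c : ℕ →₀ FR σ b, (∀ d, c d ∈ hom b w d) ∧ r = c.sum (fun _ y => y)
  uniq : ∀ c : ℕ →₀ FR σ b, (∀ d, c d ∈ hom b w d) → c.sum (fun _ y => y) = 0 → c = 0
  mul : ∀ (d e : ℕ) (r s : FR σ b), r ∈ hom b w d → s ∈ hom b w e → r * s ∈ hom b w (d + e)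
  zero : ∀ r : FR σ b, r ∈ hom b w 0 ↔ ∃ z : ℂ, r = algebraMap ℂ _ z
  fin : ∀ d, FiniteDimensional ℂ (hom b w d)
  lift : ∀ (d : ℕ) (r : FR σ b), r ∈ hom b w d ↔
    ∃ P : MvPolynomial σ ℂ, IsWeightedHomogeneous w P d ∧ mkF b P = r
  factor : IsDomain (FR σ b) → ∀ (k : ℕ) (r s : FR σ b), r ≠ 0 → s ≠ 0 → r * s ∈ hom b w k →
    ∃ d e, d + e = k ∧ r ∈ hom b w d ∧ s ∈ hom b w e
  nontriv : ∃ r : FR σ b, r ≠ 0

/-- GR. -/
def SpecGR : Prop := ∀ (σ : Type) [Fintype σ] (b w : σ → ℕ) (L : ℕ), 1 ≤ Fintype.card σ →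
  Wt b w L → GrLaws b w

/-- SAM. The base case: `ℂ[x, y, z, t] / (x^7 + y^8 + z^9 + t^10)`. -/
def SpecSAM : Prop := GrUFD (σ := Fin 4) ![7, 8, 9, 10] ![720, 630, 560, 504]

/-- LOCP. At a point `p ≠ 0` of the cone a prime ideal of height one is locally principal. -/
def SpecLOCP : Prop := ∀ (τ : Type) [Fintype τ] [DecidableEq τ] (b : τ → ℕ),
  3 ≤ Fintype.card τ → (∀ i, 2 ≤ b i) →
  ∀ 𝔓 : Ideal (MvPolynomial τ ℂ), 𝔓.IsPrime → fp τ b ∈ 𝔓 → 𝔓 ≠ Ideal.span {fp τ b} →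
    (∀ 𝔔 : Ideal (MvPolynomial τ ℂ), 𝔔.IsPrime → fp τ b ∈ 𝔔 → 𝔔 ≠ Ideal.span {fp τ b} →
      𝔔 ≤ 𝔓 → 𝔔 = 𝔓) →
    ∀ p : τ → ℂ, p ≠ 0 → (∀ P ∈ 𝔓, eval p P = 0) →
      ∃ H ∈ 𝔓, ∃ S : MvPolynomial τ ℂ, eval p S ≠ 0 ∧
        ∀ P ∈ 𝔓, S * P ∈ Ideal.span {H, fp τ b}

/-- BETA. Depth `2` of `FR / g` in at least four variables. -/
def SpecBETA : Prop := ∀ (σ : Type) [Fintype σ] (b w : σ → ℕ) (L : ℕ), Wt b w L →
  4 ≤ Fintype.card σ → GrUFD b w → ∀ (d : ℕ) (g : FR σ b), g ∈ hom b w d → g ≠ 0 →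
  ∀ k : ℕ, 1 ≤ k → ∀ r : σ → FR σ b,
    (∀ i j, g ∣ mkF b (X j) ^ k * r i - mkF b (X i) ^ k * r j) →
    ∃ s : FR σ b, ∀ i, g ∣ r i - mkF b (X i) ^ k * s

/-- LEF. The graded Lefschetz theorem: adding one variable. -/
def SpecLEF : Prop := ∀ (σ : Type) [Fintype σ] [DecidableEq σ] (b w : σ → ℕ) (b0 w0 L : ℕ),
  Wt (fun o : Option σ => o.elim b0 b) (fun o : Option σ => o.elim w0 w) L →
  4 ≤ Fintype.card σ → GrUFD b w →
  GrUFD (fun o : Option σ => o.elim b0 b) (fun o : Option σ => o.elim w0 w)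

/-- CHAIN (from SAM, LEF). -/
def SpecCHAIN : Prop := GrUFD dat0.b dat0.ww

/-- NUM. The finite check. -/
def SpecNUM : Prop := dat0.Num

end

end Pool.Agent.Lib.MPa7508c
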