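import Mathlib

/-!
# Birationally superrigid Fano varieties and K-stability: the notions of the problem

A variety `X` with function field `K` is seen through the set `𝓧` of its local rings
`𝒪_{X,x} ⊆ K` (`x` a point of the scheme `X`).  Prime divisors over `X` are the divisorial
valuation rings of `K / ℂ`.
-/

set_option autoImplicit false

namespace Pool.Agent.Lib.MPa7508c

open MvPolynomial

noncomputable section

section Abstract

variable {K : Type} [Field K] [Algebra ℂ K]

/-- The order function of a discrete valuation ring `v` of the field `K`: `ord v x = k` when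
`x = p ^ k * unit`, `p` a uniformiser. -/
def ord (v : ValuationSubring K) (x : K) : ℤ :=
  sSup {k : ℤ | ∃ (p : v) (y : K), Irreducible p ∧ y ∈ v ∧ x = (p : K) ^ k * y}

/-- `v` is (the valuation ring of) a prime divisor over a variety of dimension `m + 1` with function
field `K`: a discrete valuation ring containing `ℂ` whose residue field has transcendence degree
`m` over `ℂ` (there are `m` elements of `v` at which every nonzero polynomial is a unit of `v`). -/
def IsDivisorial (m : ℕ) (v : ValuationSubring K) : Prop :=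
  (∀ c : ℂ, algebraMap ℂ K c ∈ v) ∧ IsDiscreteValuationRing v ∧
    ∃ u : Fin m → K, (∀ i, u i ∈ v) ∧
      ∀ P : MvPolynomial (Fin m) ℂ, P ≠ 0 → aeval u P ≠ 0 ∧ (aeval u P)⁻¹ ∈ v

/-- Rational differential `n`-forms, as alternating functions of `n` derivations (vector fields). -/
abbrev TopForm (K : Type) [Field K] [Algebra ℂ K] (n : ℕ) : Type :=
  (Derivation ℂ K K) [⋀^Fin n]→ₗ[K] K

/-- `δ ↦ (δ z₁, ..., δ zₙ)` -/
def evalD {n : ℕ} (z : Fin n → K) : Derivation ℂ K K →ₗ[K] (Fin n → K) where
  toFun δ j := δ (z j)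
  map_add' _ _ := rfl
  map_smul' _ _ := rfl

/-- The form `dz₁ ∧ ... ∧ dzₙ`. -/
def dform {n : ℕ} (z : Fin n → K) : TopForm K n :=
  (Matrix.detRowAlternating (R := K) (n := Fin n)).compLinearMap (evalD z)

/-- The forms which are regular at `v`: generated over `v` by the `dz₁ ∧ ... ∧ dzₙ`, `zᵢ ∈ v`. -/
def regForms (n : ℕ) (v : ValuationSubring K) : AddSubgroup (TopForm K n) :=
  AddSubgroup.closure {η | ∃ (y : K) (z : Fin n → K), y ∈ v ∧ (∀ i, z i ∈ v) ∧ η = y • dform z}

/-- The order of the rational form `η` along `v`. -/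
def ordForm {n : ℕ} (v : ValuationSubring K) (η : TopForm K n) : ℤ :=
  sSup {k : ℤ | ∃ p : v, Irreducible p ∧ ∃ ξ ∈ regForms n v, η = ((p : K) ^ k) • ξ}

/-- The prime divisors on the (normal) variety: the local rings which are discrete valuation
rings. -/
def IsPrimeDiv (𝓧 : Set (Subring K)) (F : ValuationSubring K) : Prop :=
  IsDiscreteValuationRing F ∧ F.toSubring ∈ 𝓧

/-- A Weil divisor: a function on the prime divisors, of finite support. -/
def IsWeil (𝓧 : Set (Subring K)) (D : ValuationSubring K → ℤ) : Prop :=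
  {F | IsPrimeDiv 𝓧 F ∧ D F ≠ 0}.Finite

/-- The canonical divisor defined by the rational top form `η`. -/
def canDiv {n : ℕ} (η : TopForm K n) : ValuationSubring K → ℤ := fun F => ordForm F η

/-- `O` is the centre of `v`: the valuation ring `v` dominates the local ring `O`. -/
def IsCenter (𝓧 : Set (Subring K)) (v : ValuationSubring K) (O : Subring K) : Prop :=
  O ∈ 𝓧 ∧ (∀ a ∈ O, a ∈ v) ∧ ∀ a ∈ O, a⁻¹ ∈ v → a⁻¹ ∈ O

/-- `D` is `ℚ`-Cartier at the point with local ring `O`, with local equation `φ` of `r D`. -/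
def IsLocEq (𝓧 : Set (Subring K)) (D : ValuationSubring K → ℤ) (O : Subring K) (r : ℕ) (φ : K) :
    Prop :=
  0 < r ∧ φ ≠ 0 ∧ ∀ F, IsPrimeDiv 𝓧 F → O ≤ F.toSubring → (r : ℤ) * D F = ord F φ

/-- The order along `v` of the pull back of the `ℚ`-Cartier divisor `D` is `c`. -/
def HasPull (𝓧 : Set (Subring K)) (D : ValuationSubring K → ℤ) (v : ValuationSubring K) (c : ℚ) :
    Prop :=
  ∃ (O : Subring K) (r : ℕ) (φ : K), IsCenter 𝓧 v O ∧ IsLocEq 𝓧 D O r φ ∧
    c = (ord v φ : ℚ) / r

/-- The log discrepancy `A_X(v) = 1 + ord_v(K_Y - π^* K_X)` of `v` over `X` is `A`. -/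
def HasLogDisc {n : ℕ} (𝓧 : Set (Subring K)) (η : TopForm K n) (v : ValuationSubring K) (A : ℚ) :
    Prop :=
  ∃ c : ℚ, HasPull 𝓧 (canDiv η) v c ∧ A = 1 + ordForm v η - c

/-- `v` is exceptional over `X`: it is not a prime divisor on `X`. -/
def IsExc (𝓧 : Set (Subring K)) (m : ℕ) (v : ValuationSubring K) : Prop :=
  IsDivisorial m v ∧ v.toSubring ∉ 𝓧

/-- Terminal singularities: all exceptional prime divisors have log discrepancy `> 1`. -/
def IsTerminal (𝓧 : Set (Subring K)) (m : ℕ) (η : TopForm K (m + 1)) : Prop :=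
  ∀ v, IsExc 𝓧 m v → ∀ A, HasLogDisc 𝓧 η v A → 1 < A

/-- Every Weil divisor is `ℚ`-Cartier. -/
def IsQFactorial (𝓧 : Set (Subring K)) : Prop :=
  ∀ D, IsWeil 𝓧 D → ∀ O ∈ 𝓧, ∃ r φ, IsLocEq 𝓧 D O r φ

/-- The class group has rank one: a multiple of every Weil divisor is linearly equivalent to a
multiple of the canonical divisor. -/
def IsClRankOne {n : ℕ} (𝓧 : Set (Subring K)) (η : TopForm K n) : Prop :=
  ∀ D, IsWeil 𝓧 D → ∃ (a : ℕ) (b : ℤ) (φ : K), 0 < a ∧ φ ≠ 0 ∧
    ∀ F, IsPrimeDiv 𝓧 F → (a : ℤ) * D F = b * canDiv η F + ord F φ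

/-- `s` is a nonzero section of `𝒪_X(D)`. -/
def IsSec (𝓧 : Set (Subring K)) (D : ValuationSubring K → ℤ) (s : K) : Prop :=
  s ≠ 0 ∧ ∀ F, IsPrimeDiv 𝓧 F → 0 ≤ ord F s + D F

/-- Birational superrigidity of a Fano variety of Picard number one, in the form of the problem
file: for every movable linear system `M ⊆ |D|` and every rational `lam > 0` with
`lam D ∼_ℚ -K_X` the pair `(X, lam M)` is canonical, i.e. for every exceptional `v` the discrepancy
`A_X(v) - 1 - lam * min_{s ∈ M} ord_v(div s + D)` is nonnegative. -/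
def IsSuperrigid (𝓧 : Set (Subring K)) (m : ℕ) (η : TopForm K (m + 1)) : Prop :=
  ∀ (D : ValuationSubring K → ℤ) (M : Submodule ℂ K) (lam : ℚ), IsWeil 𝓧 D →
    FiniteDimensional ℂ M → M ≠ ⊥ → (∀ s ∈ M, s ≠ 0 → IsSec 𝓧 D s) →
    (∀ F, IsPrimeDiv 𝓧 F → ∃ s ∈ M, s ≠ 0 ∧ ord F s + D F = 0) →
    0 < lam →
    (∃ (r : ℕ) (φ : K), 0 < r ∧ φ ≠ 0 ∧
      ∀ F, IsPrimeDiv 𝓧 F → (r : ℚ) * (lam * D F + canDiv η F) = ord F φ) →
    ∀ v, IsExc 𝓧 m v → ∀ A c, HasLogDisc 𝓧 η v A → HasPull 𝓧 D v c →
      ∃ s ∈ M, s ≠ 0 ∧ lam * (ord v s + c) ≤ A - 1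

/-- The dimension of the space of sections `s` of `k D` with `ord_v(div s + k D) ≥ k t`
(`c` is the order along `v` of the pull back of `D`). -/
def secDim (𝓧 : Set (Subring K)) (D : ValuationSubring K → ℤ) (v : ValuationSubring K) (c : ℚ)
    (t : ℝ) (k : ℕ) : ℕ :=
  Module.finrank ℂ (Submodule.span ℂ
    {s : K | IsSec 𝓧 (fun F => k * D F) s ∧ (k : ℝ) * t ≤ (ord v s : ℝ) + k * (c : ℝ)})

/-- `vol(D - t v)` on a variety of dimension `n`. -/
def vol (𝓧 : Set (Subring K)) (n : ℕ) (D : ValuationSubring K → ℤ) (v : ValuationSubring K)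
    (c : ℚ) (t : ℝ) : ℝ :=
  Filter.limsup (fun k : ℕ => (secDim 𝓧 D v c t k : ℝ) / ((k : ℝ) ^ n / (n.factorial : ℝ)))
    Filter.atTop

/-- K-stability of a Fano variety, by the valuative criterion of Fujita and Li: for every prime
divisor `v` over `X` one has `β(v) = A(v) - (1/vol(-K)) ∫ vol(-K - t v) dt > 0`. -/
def IsKStable (𝓧 : Set (Subring K)) (m : ℕ) (η : TopForm K (m + 1)) : Prop :=
  ∀ v, IsDivisorial m v → ∀ A c, HasLogDisc 𝓧 η v A → HasPull 𝓧 (fun F => - canDiv η F) v c →
    0 < (A : ℝ) - (1 / vol 𝓧 (m + 1) (fun F => - canDiv η F) v c 0) *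
      ∫ t in Set.Ioi (0 : ℝ), vol 𝓧 (m + 1) (fun F => - canDiv η F) v c t

end Abstract

/-! ### Varieties as schemes -/

open AlgebraicGeometry CategoryTheory

/-- The constants in the function field of an integral scheme over `ℂ`. -/
def constFF {X : Scheme.{0}} [IsIntegral X] (f : X ⟶ Spec (CommRingCat.of ℂ)) :
    ℂ →+* X.functionField :=
  ((Scheme.ΓSpecIso (CommRingCat.of ℂ)).inv ≫ f.appTop ≫
    X.presheaf.germ ⊤ (genericPoint X) trivial).hom

/-- An integral scheme of finite type over `ℂ`, together with a field `K` which is identified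
with its function field. -/
structure CVar where
  /-- the scheme -/
  X : Scheme.{0}
  /-- the structure morphism -/
  f : X ⟶ Spec (CommRingCat.of ℂ)
  isIntegral : IsIntegral X
  finType : LocallyOfFiniteType f
  /-- the function field -/
  K : Type
  [field : Field K]
  [algebra : Algebra ℂ K]
  /-- the identification of `K` with the function field of `X` -/
  e : K ≃+* X.functionField
  he : ∀ c : ℂ, e (algebraMap ℂ K c) = constFF f c

attribute [instance] CVar.isIntegral CVar.field CVar.algebra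

namespace CVar

variable (V : CVar)

/-- The local ring of `X` at `x`, as a subring of `K`. -/
def loc (x : V.X) : Subring V.K :=
  ((algebraMap (V.X.presheaf.stalk x) V.X.functionField).range).comap V.e.toRingHom

/-- The set of the local rings of `X`. -/
def locals : Set (Subring V.K) := Set.range V.loc

/-- `D` is ample: the complements `X_s` of the zero divisors of sections of positive multiples of
`D` which are affine cover `X`. -/
def IsAmple (D : ValuationSubring V.K → ℤ) : Prop :=
  ∀ x : V.X, ∃ (k : ℕ) (s : V.K) (U : V.X.Opens), 0 < k ∧ IsSec V.locals (fun F => k * D F) s ∧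
    IsAffineOpen U ∧ x ∈ U ∧
    ∀ y : V.X, y ∈ U ↔ ∀ F, IsPrimeDiv V.locals F → V.loc y ≤ F.toSubring →
      ord F s + k * D F = 0

/-- `V` is a Fano variety of dimension `m + 1` in the sense of the problem: normal, projective
(proper with an ample divisor), with `ℚ`-factorial terminal singularities, Picard number one and
`-K` ample.  The canonical divisor is the divisor of the rational top form `η`. -/
structure IsFano (m : ℕ) (η : TopForm V.K (m + 1)) : Prop where
  proper : IsProper V.f
  normal : ∀ x : V.X, IsIntegrallyClosed (V.X.presheaf.stalk x)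
  dim : Algebra.trdeg ℂ V.K = m + 1
  form : η ≠ 0
  weil : IsWeil V.locals (canDiv η)
  qfactorial : IsQFactorial V.locals
  terminal : IsTerminal V.locals m η
  picard : IsClRankOne V.locals η
  ample : V.IsAmple (fun F => - canDiv η F)

end CVar

/-- The assertion: there is a birationally superrigid Fano variety of dimension 11 which is not
K-stable. -/
def MainAssertion : Prop :=
  ∃ (V : CVar) (η : TopForm V.K 11), V.IsFano 10 η ∧ IsSuperrigid V.locals 10 η ∧
    ¬ IsKStable V.locals 10 η

end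

end Pool.Agent.Lib.MPa7508c
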